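import Pool.Agent.H63.VC.Base
import Pool.Agent.H63.VC.EndA

/-!
# Double twist knots with two parameters: definitions

Auxiliary definitions for the asymptotics of the colored invariants of the double twist knots with
two twist regions with `p` and `q` full twists.
-/

namespace Pool.Agent.H63.VC3

open Pool.Agent.H63.VC Complex

/-- `log (2 sin (π z))`. -/
noncomputable def hh (z : ℂ) : ℂ := Complex.log (2 * Complex.sin (Real.pi * z))

/-- `∫_0^z log (2 sin (π u)) du`, by an integral formula valid for `0 < re z < 1`. -/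
noncomputable def ff (z : ℂ) : ℂ := (z - 1 / 2) * (Real.log 2 : ℂ) +
  ∫ t in Set.Ioi (0 : ℝ), (Complex.sinh ((1 - 2 * z) * t) / (2 * t) - (1 - 2 * z) / 2) /
    (t * Complex.sinh t)

/-- The real version of `ff`, defined on the whole line. -/
noncomputable def Fr (x : ℝ) : ℝ := -lob (Real.pi * x) / Real.pi

/-- The logarithm of an analytic interpolation of `k ↦ S M k`, for `-1 < re s < M`. -/
noncomputable def LL (M : ℕ) (s : ℂ) : ℂ := (Real.log M : ℂ) / 2 + (s - (M - 1) / 2) *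
  (Real.log 2 : ℂ) + ∫ t in Set.Ioi (0 : ℝ),
    (Complex.sinh ((M - 2 * s - 1) * t / M) / (2 * Complex.sinh (t / M)) + s - (M - 1) / 2) /
    (t * Complex.sinh t)

/-- The growth rate of the terms, `x = k / M`, `l = l / M`. -/
noncomputable def gg (x l : ℝ) : ℝ := 2 * Fr x - Fr (x - l) - Fr (x + l)

/-- `β = (n - 1) / 2`. -/
noncomputable def bt (n : ℕ) : ℝ := ((n : ℝ) - 1) / 2

/-- `y_k = (k + β + 1/2) / M - 1/2`. -/
noncomputable def yk (n M k : ℕ) : ℝ := (k + bt n + 1 / 2) / M - 1 / 2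

/-- `v_l = (l + β) / M - 1/2`. -/
noncomputable def vl (n M l : ℕ) : ℝ := (l + bt n) / M - 1 / 2

/-- The even factor `∏_{j=1}^{n-2} 2 cos (π (v + (j - β) / M))`. -/
noncomputable def Bn (n M : ℕ) (v : ℂ) : ℂ :=
  ∏ j ∈ Finset.range (n - 2), 2 * Complex.cos (Real.pi * (v + ((j : ℂ) + 1 - bt n) / M))

/-- The kernel of the `l`-sum for `r` full twists. -/
noncomputable def KK (r : ℤ) (n M : ℕ) (y v : ℂ) : ℂ :=
  Complex.exp (2 * Real.pi * I * r * M * v ^ 2) * (2 * Complex.sin (2 * Real.pi * v)) * Bn n M v *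
    Complex.exp (-LL M (M * (y - v) - 1 / 2) - LL M (M * (y + v) - 1 / 2))

/-- The weight of the `k`-sum, `s = M (y + 1/2) - β - 1/2` interpolates `k`. -/
noncomputable def Cc (n g M : ℕ) (y : ℂ) : ℂ :=
  Complex.exp (LL M (M * (y + 1 / 2) - bt n - 1 / 2) +
    LL M (M * (y + 1 / 2) - bt n - 1 / 2 + (g - 1)) +
    LL M (M * (y + 1 / 2) - bt n - 1 / 2 + (n - g - 1)) +
    LL M (M * (y + 1 / 2) - bt n - 1 / 2 + (n - 2)))

/-- `w = exp (2 π i (M (v + 1/2) - β))`; it equals `1` exactly at the points `v_l`. -/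
noncomputable def ww (n M : ℕ) (v : ℂ) : ℂ :=
  Complex.exp (2 * Real.pi * I * (M * (v + 1 / 2) - bt n))

/-- `ω = w / (1 - w)²`. -/
noncomputable def om (n M : ℕ) (v : ℂ) : ℂ := ww n M v / (1 - ww n M v) ^ 2

/-- The integral of `F` along the path `-ρ → -ρ + iY → ρ + iY → ρ`. -/
noncomputable def Path (F : ℂ → ℂ) (ρ Y : ℝ) : ℂ :=
  (∫ t in (0 : ℝ)..Y, F (-ρ + t * I) * I) + (∫ x in (-ρ)..ρ, F (x + Y * I)) -
    ∫ t in (0 : ℝ)..Y, F (ρ + t * I) * I

/-- The common phase of the twist coefficients. -/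
noncomputable def Th (n M k : ℕ) : ℂ := (-1) ^ (n + k + M) * (-I) * I ^ k *
  Complex.exp (-(Real.pi * I / M) * (k * (n - 1) + k * (k + 1) / 2))

/-- A unimodular constant. -/
noncomputable def c1 (n M : ℕ) : ℂ := (-1) ^ (n + 1 + M) * I ^ M *
  Complex.exp (-(2 * Real.pi * I / M) * (bt n : ℂ) ^ 2)

/-- The normalized twist coefficients for `r ≠ 0` full twists. -/
noncomputable def NN (r : ℤ) (n M k : ℕ) : ℂ :=
  if 0 < r then (starRingEnd ℂ) (Th n M k) * twistCoeff (rt M ^ n) (rt M) r.toNat k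
  else -Th n M k * (starRingEnd ℂ) (twistCoeff (rt M ^ n) (rt M) (-r).toNat k)

/-- The weights `S(k) ∏ ... ` bounding the terms of the twist coefficients. -/
noncomputable def Wt (n M k l : ℕ) : ℝ :=
  if k + l + n ≤ M then S M k * S M (l + n - 2) / (S M l * S M (k - l) * S M (k + l + n - 1))
  else S M k * S M (l + n - 2) / (S M l * S M (k - l) * M * S M (k + l + n - 1 - M))

/-- The potential function. -/
noncomputable def Vf (r1 r2 : ℤ) (y v w : ℂ) : ℂ :=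
  4 * ff (y + 1 / 2) - ff (y - v) - ff (y + v) - ff (y - w) - ff (y + w) +
    2 * Real.pi * I * (r1 * v ^ 2 + v) + 2 * Real.pi * I * (r2 * w ^ 2 + w)

/-- The inner part of the potential function. -/
noncomputable def Wf (r : ℤ) (y v : ℂ) : ℂ :=
  2 * Real.pi * I * (r * v ^ 2 + v) - ff (y - v) - ff (y + v)

/-- The critical point of the potential function, with its approximate location. -/
structure Crit (r1 r2 : ℤ) (y v w : ℂ) : Prop where
  h1 : 10 ≤ |r1|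
  h2 : 10 ≤ |r2|
  ey : 4 * hh (y + 1 / 2) = hh (y - v) + hh (y + v) + hh (y - w) + hh (y + w)
  ev : 2 * Real.pi * I * (2 * r1 * v + 1) + hh (y - v) - hh (y + v) = 0
  ew : 2 * Real.pi * I * (2 * r2 * w + 1) + hh (y - w) - hh (y + w) = 0
  bdy : ‖y - 1 / 4‖ ≤ 1 / 100
  bdv : ‖v + 1 / (2 * r1)‖ ≤ 3 / (10 * (r1 : ℝ) ^ 2)
  bdw : ‖w + 1 / (2 * r2)‖ ≤ 3 / (10 * (r2 : ℝ) ^ 2)
  imv : 0 < v.im
  imw : 0 < w.im
  rev : |v.re| < 2 / (4 * |(r1 : ℝ)| - 1)
  rew : |w.re| < 2 / (4 * |(r2 : ℝ)| - 1)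

/-- The windows for `k` and `l`. -/
structure Win (n M k1 k2 l1 l2 : ℕ) : Prop where
  hl : l1 + l2 + n = M + 1
  hl' : l1 ≤ l2
  hk : k1 ≤ k2
  a1 : 1 / 4 - 55 / 1000 ≤ (k1 + bt n) / M - 1 / 2
  a2 : (k1 + bt n) / M - 1 / 2 ≤ 1 / 4 - 54 / 1000
  a3 : 1 / 4 + 54 / 1000 ≤ (k2 + 1 + bt n) / M - 1 / 2
  a4 : (k2 + 1 + bt n) / M - 1 / 2 ≤ 1 / 4 + 55 / 1000
  b1 : 149 / 1000 ≤ (l2 + 1 / 2 + bt n) / M - 1 / 2
  b2 : (l2 + 1 / 2 + bt n) / M - 1 / 2 ≤ 150 / 1000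
  big : 1000 * (n + 1) ≤ M

/-- The three-dimensional integral over the flat contours. -/
noncomputable def MainInt (r1 r2 : ℤ) (n g M : ℕ) (Y0 Y1 Y2 y1 y2 ρ : ℝ) : ℂ :=
  ∫ a in (-ρ)..ρ, ∫ b in (-ρ)..ρ, ∫ x in y1..y2,
    Cc n g M (x + Y0 * I) * (KK r1 n M (x + Y0 * I) (a + Y1 * I) *
      KK r2 n M (x + Y0 * I) (b + Y2 * I)) * (om n M (a + Y1 * I) * om n M (b + Y2 * I))

end Pool.Agent.H63.VC3
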