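import Pool.Agent.H63.VC3.AbelPlana
import Pool.Agent.H63.VC3.Defs

/-! # The sum over `l` as an integral -/

namespace Pool.Agent.H63.VC3

open Complex

/-- The path of integration. -/
private def SumL_leg (ρ Y : ℝ) : Set ℂ :=
  {z | (|z.re| = ρ ∧ 0 ≤ z.im ∧ z.im ≤ Y) ∨ (|z.re| ≤ ρ ∧ z.im = Y)}

private theorem SumL_leg_left {ρ Y : ℝ} (hρ : 0 ≤ ρ) {t : ℝ} (h : 0 ≤ t) (h' : t ≤ Y) :
    (-ρ + t * I : ℂ) ∈ SumL_leg ρ Y := by
  left
  simp [h, h', abs_of_nonneg hρ]

private theorem SumL_leg_right {ρ Y : ℝ} (hρ : 0 ≤ ρ) {t : ℝ} (h : 0 ≤ t) (h' : t ≤ Y) :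
    (ρ + t * I : ℂ) ∈ SumL_leg ρ Y := by
  left
  simp [h, h', abs_of_nonneg hρ]

private theorem SumL_leg_top {ρ Y : ℝ} {x : ℝ} (h : -ρ ≤ x) (h' : x ≤ ρ) :
    (x + Y * I : ℂ) ∈ SumL_leg ρ Y := by
  right
  simp [abs_le, h, h']

private theorem SumL_cont_left {F : ℂ → ℂ} {ρ Y : ℝ} (hρ : 0 ≤ ρ) (hY : 0 ≤ Y)
    (hF : ∀ z ∈ SumL_leg ρ Y, ContinuousAt F z) :
    ContinuousOn (fun t : ℝ => F (-ρ + t * I) * I) (Set.uIcc 0 Y) := by
  intro t ht
  rw [Set.uIcc_of_le hY] at ht
  refine ContinuousAt.continuousWithinAt ?_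
  refine ContinuousAt.mul ?_ continuousAt_const
  exact ContinuousAt.comp (f := fun t : ℝ => (-ρ + t * I : ℂ))
    (hF _ (SumL_leg_left hρ ht.1 ht.2)) (by fun_prop)

private theorem SumL_cont_right {F : ℂ → ℂ} {ρ Y : ℝ} (hρ : 0 ≤ ρ) (hY : 0 ≤ Y)
    (hF : ∀ z ∈ SumL_leg ρ Y, ContinuousAt F z) :
    ContinuousOn (fun t : ℝ => F (ρ + t * I) * I) (Set.uIcc 0 Y) := by
  intro t ht
  rw [Set.uIcc_of_le hY] at ht
  refine ContinuousAt.continuousWithinAt ?_
  refine ContinuousAt.mul ?_ continuousAt_const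
  exact ContinuousAt.comp (f := fun t : ℝ => (ρ + t * I : ℂ))
    (hF _ (SumL_leg_right hρ ht.1 ht.2)) (by fun_prop)

private theorem SumL_cont_top {F : ℂ → ℂ} {ρ Y : ℝ} (hρ : 0 ≤ ρ)
    (hF : ∀ z ∈ SumL_leg ρ Y, ContinuousAt F z) :
    ContinuousOn (fun x : ℝ => F (x + Y * I)) (Set.uIcc (-ρ) ρ) := by
  intro t ht
  rw [Set.uIcc_of_le (by linarith)] at ht
  refine ContinuousAt.continuousWithinAt ?_
  exact ContinuousAt.comp (f := fun t : ℝ => (t + Y * I : ℂ))
    (hF _ (SumL_leg_top ht.1 ht.2)) (by fun_prop)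

private theorem SumL_path_add {F G : ℂ → ℂ} {ρ Y : ℝ} (hρ : 0 ≤ ρ) (hY : 0 ≤ Y)
    (hF : ∀ z ∈ SumL_leg ρ Y, ContinuousAt F z) (hG : ∀ z ∈ SumL_leg ρ Y, ContinuousAt G z) :
    Path (fun z => F z + G z) ρ Y = Path F ρ Y + Path G ρ Y := by
  unfold Path
  simp only [add_mul]
  rw [intervalIntegral.integral_add (SumL_cont_left hρ hY hF).intervalIntegrable
      (SumL_cont_left hρ hY hG).intervalIntegrable,
    intervalIntegral.integral_add (SumL_cont_top hρ hF).intervalIntegrable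
      (SumL_cont_top hρ hG).intervalIntegrable,
    intervalIntegral.integral_add (SumL_cont_right hρ hY hF).intervalIntegrable
      (SumL_cont_right hρ hY hG).intervalIntegrable]
  ring

private theorem SumL_path_const_mul (c : ℂ) (F : ℂ → ℂ) (ρ Y : ℝ) :
    Path (fun z => c * F z) ρ Y = c * Path F ρ Y := by
  unfold Path
  simp only [mul_assoc]
  rw [intervalIntegral.integral_const_mul, intervalIntegral.integral_const_mul,
    intervalIntegral.integral_const_mul]
  ring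

private theorem SumL_path_deriv {F F' : ℂ → ℂ} {ρ Y : ℝ} (hρ : 0 ≤ ρ) (hY : 0 ≤ Y)
    (hF : ∀ z ∈ SumL_leg ρ Y, HasDerivAt F (F' z) z)
    (hF' : ∀ z ∈ SumL_leg ρ Y, ContinuousAt F' z) :
    Path F' ρ Y = F ρ - F (-ρ) := by
  unfold Path
  have h1 : ∫ t in (0 : ℝ)..Y, F' (-ρ + t * I) * I = F (-ρ + Y * I) - F (-ρ + (0 : ℝ) * I) := by
    refine intervalIntegral.integral_eq_sub_of_hasDerivAt (f := fun t : ℝ => F (-ρ + t * I)) ?_
      (SumL_cont_left hρ hY hF').intervalIntegrable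
    intro t ht
    rw [Set.uIcc_of_le hY] at ht
    have g1 := hF _ (SumL_leg_left hρ ht.1 ht.2)
    have g2 : HasDerivAt (fun t : ℝ => (-ρ + t * I : ℂ)) I t := by
      have := ((Complex.ofRealCLM.hasDerivAt (x := t)).mul_const I).const_add (-ρ : ℂ)
      simpa using this
    exact HasDerivAt.comp t g1 g2
  have h2 : ∫ t in (0 : ℝ)..Y, F' (ρ + t * I) * I = F (ρ + Y * I) - F (ρ + (0 : ℝ) * I) := by
    refine intervalIntegral.integral_eq_sub_of_hasDerivAt (f := fun t : ℝ => F (ρ + t * I)) ?_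
      (SumL_cont_right hρ hY hF').intervalIntegrable
    intro t ht
    rw [Set.uIcc_of_le hY] at ht
    have g1 := hF _ (SumL_leg_right hρ ht.1 ht.2)
    have g2 : HasDerivAt (fun t : ℝ => (ρ + t * I : ℂ)) I t := by
      have := ((Complex.ofRealCLM.hasDerivAt (x := t)).mul_const I).const_add (ρ : ℂ)
      simpa using this
    exact HasDerivAt.comp t g1 g2
  have h3 : ∫ x in (-ρ)..ρ, F' (x + Y * I) = F (ρ + Y * I) - F (((-ρ : ℝ) : ℂ) + Y * I) := by
    refine intervalIntegral.integral_eq_sub_of_hasDerivAt (f := fun x : ℝ => F (x + Y * I)) ?_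
      (SumL_cont_top hρ hF').intervalIntegrable
    intro t ht
    rw [Set.uIcc_of_le (by linarith)] at ht
    have g1 := hF _ (SumL_leg_top ht.1 ht.2)
    have g2 : HasDerivAt (fun t : ℝ => (t + Y * I : ℂ)) 1 t := by
      have := (Complex.ofRealCLM.hasDerivAt (x := t)).add_const (Y * I : ℂ)
      simpa using this
    have g3 := HasDerivAt.comp t g1 g2
    rwa [mul_one] at g3
  rw [h1, h2, h3]
  push_cast
  simp only [zero_mul, add_zero]
  ring

private theorem SumL_norm_ww (n M : ℕ) (v : ℂ) :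
    ‖ww n M v‖ = Real.exp (-(2 * Real.pi * M * v.im)) := by
  rw [ww, Complex.norm_exp]
  congr 1
  simp
  ring

private theorem SumL_ww_neg (n M : ℕ) (v : ℂ) : ww n M (-v) = (ww n M v)⁻¹ := by
  unfold ww
  rw [← Complex.exp_neg]
  rw [Complex.exp_eq_exp_iff_exists_int]
  refine ⟨(M : ℤ) - n + 1, ?_⟩
  rw [bt]
  push_cast
  ring

/-- `w = -1` at the end points of the path, `w` is negative on the vertical sides. -/
private theorem SumL_ww_rho (n M l2 : ℕ) (hM : 0 < M) (ρ : ℝ)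
    (hρ : ρ = (l2 + 1 / 2 + bt n) / M - 1 / 2) (t : ℝ) :
    ww n M (ρ + t * I) = -((Real.exp (-(2 * Real.pi * M * t)) : ℝ) : ℂ) := by
  have hMc : (M : ℂ) ≠ 0 := by exact_mod_cast hM.ne'
  have h1 : 2 * Real.pi * I * (M * ((ρ + t * I : ℂ) + 1 / 2) - bt n) =
      Real.pi * I + l2 * (2 * Real.pi * I) + ((-(2 * Real.pi * M * t) : ℝ) : ℂ) := by
    rw [hρ]
    push_cast
    field_simp
    linear_combination (2 * (M : ℂ) * t) * Complex.I_sq
  rw [ww, h1, Complex.exp_add, Complex.exp_add, Complex.exp_pi_mul_I, Complex.exp_nat_mul,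
    Complex.exp_two_pi_mul_I, one_pow, Complex.ofReal_exp]
  ring

private theorem SumL_ww_neg_rho (n M l2 : ℕ) (hM : 0 < M) (ρ : ℝ)
    (hρ : ρ = (l2 + 1 / 2 + bt n) / M - 1 / 2) (t : ℝ) :
    ww n M (-ρ + t * I) = -((Real.exp (-(2 * Real.pi * M * t)) : ℝ) : ℂ) := by
  have h1 : (-ρ + t * I : ℂ) = -(ρ + ((-t : ℝ) : ℂ) * I) := by push_cast; ring
  rw [h1, SumL_ww_neg, SumL_ww_rho n M l2 hM ρ hρ]
  rw [inv_neg, ← Complex.ofReal_inv, ← Real.exp_neg]
  congr 3
  ring

private theorem SumL_ww_ne (n M l2 : ℕ) (hM : 0 < M) (ρ Y : ℝ) (hY : 0 < Y)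
    (hρ : ρ = (l2 + 1 / 2 + bt n) / M - 1 / 2) {z : ℂ} (hz : z ∈ SumL_leg ρ Y) :
    1 - ww n M z ≠ 0 := by
  intro h0
  have h1 : ww n M z = 1 := (sub_eq_zero.1 h0).symm
  have hM0 : (0 : ℝ) < M := by exact_mod_cast hM
  rcases hz with ⟨h2, h3, h4⟩ | ⟨h2, h3⟩
  · have key : ww n M z = -((Real.exp (-(2 * Real.pi * M * z.im)) : ℝ) : ℂ) := by
      rcases abs_choice z.re with h5 | h5
      · have : z = (ρ + z.im * I : ℂ) := by
          rw [← h2, h5]
          exact (Complex.re_add_im z).symm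
        conv_lhs => rw [this]
        exact SumL_ww_rho n M l2 hM ρ hρ z.im
      · have : z = (-ρ + z.im * I : ℂ) := by
          rw [← h2, h5]
          push_cast
          rw [neg_neg]
          exact (Complex.re_add_im z).symm
        conv_lhs => rw [this]
        exact SumL_ww_neg_rho n M l2 hM ρ hρ z.im
    rw [h1] at key
    have h6 := congrArg Complex.re key
    rw [Complex.neg_re, Complex.ofReal_re, Complex.one_re] at h6
    have := Real.exp_pos (-(2 * Real.pi * M * z.im))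
    linarith
  · have h4 := SumL_norm_ww n M z
    rw [h1, norm_one, h3] at h4
    have h5 : Real.exp (-(2 * Real.pi * M * Y)) < 1 := by
      rw [Real.exp_lt_one_iff]
      have : 0 < 2 * Real.pi * M * Y := by positivity
      linarith
    linarith

private theorem SumL_ww_hasDeriv (n M : ℕ) (z : ℂ) :
    HasDerivAt (ww n M) (2 * Real.pi * I * M * ww n M z) z := by
  have h1 : HasDerivAt (fun v : ℂ => 2 * Real.pi * I * (M * (v + 1 / 2) - bt n))
      (2 * Real.pi * I * M) z := by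
    have := ((((hasDerivAt_id z).add_const (1 / 2 : ℂ)).const_mul (M : ℂ)).sub_const
      (bt n : ℂ)).const_mul (2 * Real.pi * I : ℂ)
    simpa using this
  have h2 := h1.cexp
  have h3 : (fun v : ℂ => exp (2 * Real.pi * I * (M * (v + 1 / 2) - bt n))) = ww n M := by
    funext v; rfl
  rw [h3] at h2
  have h4 : exp (2 * Real.pi * I * (M * (z + 1 / 2) - bt n)) * (2 * Real.pi * I * M) =
      2 * Real.pi * I * M * ww n M z := by
    rw [ww]; ring
  rwa [h4] at h2

private theorem SumL_om_cont (n M : ℕ) {z : ℂ} (h : 1 - ww n M z ≠ 0) :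
    ContinuousAt (om n M) z := by
  have h1 := (SumL_ww_hasDeriv n M z).continuousAt
  have h2 : ContinuousAt (fun v => ww n M v / (1 - ww n M v) ^ 2) z :=
    h1.div ((continuousAt_const.sub h1).pow 2) (pow_ne_zero 2 h)
  exact h2

/-- Version for functions with a differentiable derivative. -/
private theorem SumL_strong (G : ℂ → ℂ) (n M l1 l2 : ℕ) (Y : ℝ) (hM : 0 < M)
    (hl : l1 + l2 + n = M + 1) (hl' : l1 ≤ l2) (hY : 0 < Y) (ρ : ℝ)
    (hρ : ρ = (l2 + 1 / 2 + bt n) / M - 1 / 2)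
    (hG : ∀ z : ℂ, |z.re| ≤ ρ → |z.im| ≤ Y → DifferentiableAt ℂ G z)
    (hG' : ∀ z : ℂ, |z.re| ≤ ρ → |z.im| ≤ Y → DifferentiableAt ℂ (deriv G) z)
    (hodd : ∀ z : ℂ, G (-z) = -G z) :
    ∑ l ∈ Finset.Icc l1 l2, deriv G (vl n M l) =
      -(4 * Real.pi * I) * M ^ 2 * Path (fun v => G v * om n M v) ρ Y := by
  obtain ⟨m, rfl⟩ : ∃ m, l2 = l1 + m := ⟨l2 - l1, by omega⟩
  have hM0 : (0 : ℝ) < M := by exact_mod_cast hM
  have hMc : (M : ℂ) ≠ 0 := by exact_mod_cast hM.ne'
  -- the left end point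
  have hlR : (l1 : ℝ) + (l1 + m) + n = M + 1 := by exact_mod_cast hl
  have hρ' : -ρ = (l1 - 1 / 2 + bt n) / M - 1 / 2 := by
    rw [hρ, bt]
    push_cast
    field_simp
    linarith
  have h2ρ : 2 * ρ = (m + 1) / M := by
    have : 2 * ρ = ρ - -ρ := by ring
    rw [this, hρ', hρ]
    push_cast
    ring
  have hρ0 : 0 < ρ := by
    have : 0 < ((m : ℝ) + 1) / M := by positivity
    linarith
  -- evenness of the derivative
  have heven : ∀ z : ℂ, deriv G (-z) = deriv G z := by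
    intro z
    have h1 : (fun z => G (-z)) = fun z => -G z := funext hodd
    have h2 : deriv (fun z => G (-z)) z = -deriv G (-z) := deriv_comp_neg G z
    rw [h1] at h2
    have h3 : deriv (fun z => -G z) z = -deriv G z := deriv.fun_neg
    rw [h3] at h2
    exact (neg_injective h2).symm
  set sc : ℂ → ℂ := fun s => (s + bt n) / M - 1 / 2 with hsc
  have hre : ∀ s : ℂ, (sc s).re = (s.re + bt n) / M - 1 / 2 := by
    intro s
    simp [hsc]
  have him : ∀ s : ℂ, (sc s).im = s.im / M := by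
    intro s
    simp [hsc]
  have hscd : ∀ s : ℂ, DifferentiableAt ℂ sc s := by
    intro s
    rw [hsc]
    fun_prop
  set a : ℝ := (l1 : ℝ) with ha
  have hac : (a : ℂ) = (l1 : ℂ) := by rw [ha]; simp
  set H : ℝ := Y * M with hH
  have hH0 : 0 < H := by positivity
  have hHM : H / M = Y := by rw [hH]; field_simp
  have hww : ∀ s : ℂ, exp (2 * Real.pi * I * (s - a)) = ww n M (sc s) := by
    intro s
    rw [ww, Complex.exp_eq_exp_iff_exists_int]
    refine ⟨-(l1 : ℤ), ?_⟩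
    rw [hsc, hac]
    push_cast
    field_simp
    ring
  have hdiff : ∀ z : ℂ, a - 1 / 2 ≤ z.re → z.re ≤ a + m + 1 / 2 → |z.im| ≤ H →
      DifferentiableAt ℂ (fun s => deriv G (sc s)) z := by
    intro z h1 h2 h3
    refine DifferentiableAt.comp z (hG' (sc z) ?_ ?_) (hscd z)
    · rw [abs_le, hre]
      constructor
      · rw [hρ']
        have : (a - 1 / 2 + bt n) / M ≤ (z.re + bt n) / M := by
          apply div_le_div_of_nonneg_right _ hM0.le
          linarith
        linarith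
      · rw [hρ]
        have : (z.re + bt n) / M ≤ (((l1 + m : ℕ) : ℝ) + 1 / 2 + bt n) / M := by
          apply div_le_div_of_nonneg_right _ hM0.le
          push_cast
          linarith
        linarith
    · rw [him, abs_div, abs_of_pos hM0, div_le_iff₀ hM0]
      exact h3
  have key := abel_plana (fun s => deriv G (sc s)) a m H hH0 hdiff
  -- the left hand side
  have hsum : ∑ l ∈ Finset.Icc l1 (l1 + m), deriv G (vl n M l) =
      ∑ k ∈ Finset.range (m + 1), deriv G (sc (a + k)) := by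
    rw [← Finset.Ico_succ_right_eq_Icc, Finset.sum_Ico_eq_sum_range]
    have h1 : Order.succ (l1 + m) - l1 = m + 1 := by
      rw [Nat.succ_eq_succ]
      omega
    rw [h1]
    refine Finset.sum_congr rfl fun j _ => ?_
    congr 1
    rw [hsc, vl, hac]
    push_cast
    ring
  -- scaling of the points
  have sl : ∀ t : ℝ, sc ((a - 1 / 2 : ℝ) + t * I) = -ρ + ((t / M : ℝ) : ℂ) * I := by
    intro t
    have : (-ρ : ℂ) = (((l1 - 1 / 2 + bt n) / M - 1 / 2 : ℝ) : ℂ) := by
      rw [← hρ']; push_cast; ring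
    rw [this, hsc]
    push_cast
    rw [hac]
    ring
  have sr : ∀ t : ℝ, sc ((a + m + 1 / 2 : ℝ) + t * I) = ρ + ((t / M : ℝ) : ℂ) * I := by
    intro t
    rw [hρ, hsc]
    push_cast
    rw [hac]
    ring
  have sl' : ∀ t : ℝ, sc ((a - 1 / 2 : ℝ) - t * I) = -(ρ + ((t / M : ℝ) : ℂ) * I) := by
    intro t
    have h1 : ((a - 1 / 2 : ℝ) - t * I : ℂ) = ((a - 1 / 2 : ℝ) + ((-t : ℝ) : ℂ) * I : ℂ) := by
      push_cast; ring
    rw [h1, sl]
    push_cast
    ring
  have sr' : ∀ t : ℝ, sc ((a + m + 1 / 2 : ℝ) - t * I) = -(-ρ + ((t / M : ℝ) : ℂ) * I) := by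
    intro t
    have h1 : ((a + m + 1 / 2 : ℝ) - t * I : ℂ) =
        ((a + m + 1 / 2 : ℝ) + ((-t : ℝ) : ℂ) * I : ℂ) := by
      push_cast; ring
    rw [h1, sr]
    push_cast
    ring
  have st : ∀ x : ℝ, sc (x + H * I) = ((x / M + (bt n / M - 1 / 2) : ℝ) : ℂ) + Y * I := by
    intro x
    rw [hsc, hH]
    push_cast
    field_simp
    ring
  have st' : ∀ x : ℝ, sc (x - H * I) =
      -(((-(x / M + (bt n / M - 1 / 2)) : ℝ) : ℂ) + Y * I) := by
    intro x
    rw [hsc, hH]
    push_cast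
    field_simp
    ring
  have e3 : a / M + (bt n / M - 1 / 2) - 1 / 2 / M = -ρ := by
    rw [hρ']; ring
  -- the six integrals
  set C1 : ℂ → ℂ := fun v => deriv G v / (1 - ww n M v) with hC1
  set C2 : ℂ → ℂ := fun v => deriv G v / ((ww n M v)⁻¹ - 1) with hC2
  have t1 : ∫ t in (0 : ℝ)..H, deriv G (sc ((a - 1 / 2 : ℝ) + t * I)) /
      (1 - exp (2 * Real.pi * I * ((a - 1 / 2 : ℝ) + t * I - a))) * I =
      M * ∫ t in (0 : ℝ)..Y, C1 (-ρ + t * I) * I := by
    have h1 := intervalIntegral.integral_comp_div (a := 0) (b := H)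
      (fun τ : ℝ => C1 (-ρ + τ * I) * I) hM0.ne'
    rw [zero_div, hHM] at h1
    rw [Complex.real_smul, Complex.ofReal_natCast] at h1
    rw [← h1]
    refine intervalIntegral.integral_congr fun t _ => ?_
    simp only [hC1]
    rw [hww, sl]
  have t3 : ∫ t in (0 : ℝ)..H, deriv G (sc ((a + m + 1 / 2 : ℝ) + t * I)) /
      (1 - exp (2 * Real.pi * I * ((a + m + 1 / 2 : ℝ) + t * I - a))) * I =
      M * ∫ t in (0 : ℝ)..Y, C1 (ρ + t * I) * I := by
    have h1 := intervalIntegral.integral_comp_div (a := 0) (b := H)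
      (fun τ : ℝ => C1 (ρ + τ * I) * I) hM0.ne'
    rw [zero_div, hHM] at h1
    rw [Complex.real_smul, Complex.ofReal_natCast] at h1
    rw [← h1]
    refine intervalIntegral.integral_congr fun t _ => ?_
    simp only [hC1]
    rw [hww, sr]
  have t4 : ∫ t in (0 : ℝ)..H, deriv G (sc ((a - 1 / 2 : ℝ) - t * I)) /
      (exp (2 * Real.pi * I * ((a - 1 / 2 : ℝ) - t * I - a)) - 1) * I =
      M * ∫ t in (0 : ℝ)..Y, C2 (ρ + t * I) * I := by
    have h1 := intervalIntegral.integral_comp_div (a := 0) (b := H)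
      (fun τ : ℝ => C2 (ρ + τ * I) * I) hM0.ne'
    rw [zero_div, hHM] at h1
    rw [Complex.real_smul, Complex.ofReal_natCast] at h1
    rw [← h1]
    refine intervalIntegral.integral_congr fun t _ => ?_
    simp only [hC2]
    rw [hww, sl', SumL_ww_neg, heven]
  have t6 : ∫ t in (0 : ℝ)..H, deriv G (sc ((a + m + 1 / 2 : ℝ) - t * I)) /
      (exp (2 * Real.pi * I * ((a + m + 1 / 2 : ℝ) - t * I - a)) - 1) * I =
      M * ∫ t in (0 : ℝ)..Y, C2 (-ρ + t * I) * I := by
    have h1 := intervalIntegral.integral_comp_div (a := 0) (b := H)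
      (fun τ : ℝ => C2 (-ρ + τ * I) * I) hM0.ne'
    rw [zero_div, hHM] at h1
    rw [Complex.real_smul, Complex.ofReal_natCast] at h1
    rw [← h1]
    refine intervalIntegral.integral_congr fun t _ => ?_
    simp only [hC2]
    rw [hww, sr', SumL_ww_neg, heven]
  have b1 : (a - 1 / 2) / M + (bt n / M - 1 / 2) = -ρ := by
    rw [hρ']; ring
  have b2 : (a + m + 1 / 2) / M + (bt n / M - 1 / 2) = ρ := by
    rw [hρ, ha]; push_cast; ring
  have t2 : ∫ x in (a - 1 / 2)..(a + m + 1 / 2), deriv G (sc (x + H * I)) /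
      (1 - exp (2 * Real.pi * I * (x + H * I - a))) =
      M * ∫ x in (-ρ)..ρ, C1 (x + Y * I) := by
    have h1 := intervalIntegral.integral_comp_div_add (a := a - 1 / 2) (b := a + m + 1 / 2)
      (fun u : ℝ => C1 (u + Y * I)) hM0.ne' (bt n / M - 1 / 2)
    rw [b1, b2, Complex.real_smul, Complex.ofReal_natCast] at h1
    rw [← h1]
    refine intervalIntegral.integral_congr fun x _ => ?_
    simp only [hC1]
    rw [hww, st]
  have t5 : ∫ x in (a - 1 / 2)..(a + m + 1 / 2), deriv G (sc (x - H * I)) /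
      (exp (2 * Real.pi * I * (x - H * I - a)) - 1) =
      M * ∫ x in (-ρ)..ρ, C2 (x + Y * I) := by
    have h1 := intervalIntegral.integral_comp_div_add (a := a - 1 / 2) (b := a + m + 1 / 2)
      (fun u : ℝ => C2 (((-u : ℝ) : ℂ) + Y * I)) hM0.ne' (bt n / M - 1 / 2)
    have h2 := intervalIntegral.integral_comp_neg (a := -ρ) (b := ρ)
      (fun u : ℝ => C2 ((u : ℂ) + Y * I))
    rw [neg_neg] at h2
    rw [b1, b2, Complex.real_smul, Complex.ofReal_natCast, h2] at h1
    rw [← h1]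
    refine intervalIntegral.integral_congr fun x _ => ?_
    simp only [hC2]
    rw [hww, st', SumL_ww_neg, heven]
  have hstep1 : ∑ l ∈ Finset.Icc l1 (l1 + m), deriv G (vl n M l) =
      M * (Path C1 ρ Y + Path C2 ρ Y) := by
    rw [hsum, key, t1, t2, t3, t4, t5, t6]
    unfold Path
    ring
  -- properties on the path
  have hne : ∀ z ∈ SumL_leg ρ Y, 1 - ww n M z ≠ 0 := fun z hz =>
    SumL_ww_ne n M (l1 + m) hM ρ Y hY hρ hz
  have hw0 : ∀ z, ww n M z ≠ 0 := fun z => Complex.exp_ne_zero _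
  have hne2 : ∀ z ∈ SumL_leg ρ Y, (ww n M z)⁻¹ - 1 ≠ 0 := by
    intro z hz h0
    have h1 : ww n M z * ((ww n M z)⁻¹ - 1) = 1 - ww n M z := by
      rw [mul_sub, mul_inv_cancel₀ (hw0 z), mul_one]
    rw [h0, mul_zero] at h1
    exact hne z hz h1.symm
  have hleg : ∀ z ∈ SumL_leg ρ Y, |z.re| ≤ ρ ∧ |z.im| ≤ Y := by
    intro z hz
    rcases hz with ⟨h1, h2, h3⟩ | ⟨h1, h2⟩
    · exact ⟨h1.le, by rw [abs_of_nonneg h2]; exact h3⟩
    · exact ⟨h1, by rw [h2, abs_of_pos hY]⟩
  have cw : ∀ z, ContinuousAt (ww n M) z := fun z => (SumL_ww_hasDeriv n M z).continuousAt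
  have cφ : ∀ z ∈ SumL_leg ρ Y, ContinuousAt (deriv G) z := fun z hz =>
    (hG' z (hleg z hz).1 (hleg z hz).2).continuousAt
  have cG : ∀ z ∈ SumL_leg ρ Y, ContinuousAt G z := fun z hz =>
    (hG z (hleg z hz).1 (hleg z hz).2).continuousAt
  have cC1 : ∀ z ∈ SumL_leg ρ Y, ContinuousAt C1 z := fun z hz =>
    (cφ z hz).div (continuousAt_const.sub (cw z)) (hne z hz)
  have cC2 : ∀ z ∈ SumL_leg ρ Y, ContinuousAt C2 z := fun z hz =>
    (cφ z hz).div (((cw z).inv₀ (hw0 z)).sub continuousAt_const) (hne2 z hz)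
  have cGom : ∀ z ∈ SumL_leg ρ Y, ContinuousAt (fun v => G v * om n M v) z := fun z hz =>
    (cG z hz).mul (SumL_om_cont n M (hne z hz))
  -- integration by parts
  set F : ℂ → ℂ := fun v => G v * ((1 + ww n M v) / (1 - ww n M v)) with hF
  have hFd : ∀ z ∈ SumL_leg ρ Y, HasDerivAt F
      ((C1 z + C2 z) + 4 * Real.pi * I * M * (G z * om n M z)) z := by
    intro z hz
    have g1 : HasDerivAt G (deriv G z) z := (hG z (hleg z hz).1 (hleg z hz).2).hasDerivAt
    have g2 := SumL_ww_hasDeriv n M z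
    have g3 := (g2.const_add (1 : ℂ)).div (g2.const_sub (1 : ℂ)) (hne z hz)
    have g4 := g1.mul g3
    refine g4.congr_deriv ?_
    simp only [hC1, hC2, om, Pi.div_apply]
    have n1 := hne z hz
    have n2 := hne2 z hz
    have n3 := hw0 z
    have e1 : deriv G z / ((ww n M z)⁻¹ - 1) = deriv G z * ww n M z / (1 - ww n M z) := by
      rw [div_eq_div_iff n2 n1]
      field_simp
    rw [e1]
    field_simp
    ring
  have hpath := SumL_path_deriv hρ0.le hY.le hFd (fun z hz =>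
    ((cC1 z hz).add (cC2 z hz)).add (continuousAt_const.mul (cGom z hz)))
  have hFρ : F ρ = 0 := by
    have h1 := SumL_ww_rho n M (l1 + m) hM ρ hρ 0
    simp only [Complex.ofReal_zero, zero_mul, add_zero, mul_zero, neg_zero, Real.exp_zero,
      Complex.ofReal_one] at h1
    simp only [hF]
    rw [h1]
    simp
  have hFρ' : F (-ρ) = 0 := by
    have h1 := SumL_ww_neg_rho n M (l1 + m) hM ρ hρ 0
    simp only [Complex.ofReal_zero, zero_mul, add_zero, mul_zero, neg_zero, Real.exp_zero,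
      Complex.ofReal_one] at h1
    simp only [hF]
    rw [h1]
    simp
  rw [hFρ, hFρ', sub_zero] at hpath
  have hp1 := SumL_path_add (F := fun z => C1 z + C2 z)
    (G := fun z => 4 * Real.pi * I * M * (G z * om n M z)) hρ0.le hY.le
    (fun z hz => (cC1 z hz).add (cC2 z hz)) (fun z hz => continuousAt_const.mul (cGom z hz))
  have hp2 := SumL_path_add hρ0.le hY.le cC1 cC2
  have hp3 := SumL_path_const_mul (4 * Real.pi * I * M) (fun z => G z * om n M z) ρ Y
  rw [hp1, hp2, hp3] at hpath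
  rw [hstep1]
  linear_combination (M : ℂ) * hpath

private theorem SumL_lim (G : ℂ → ℂ) (n M : ℕ) {ρ Y : ℝ} (hY : 0 < Y)
    (hG : ∀ z : ℂ, |z.re| ≤ ρ → |z.im| ≤ Y → ContinuousAt G z)
    (hom : ∀ z ∈ SumL_leg ρ Y, ContinuousAt (om n M) z)
    (c : ℕ → ℝ) (hc0 : ∀ j, 0 ≤ c j) (hc1 : ∀ j, c j ≤ 1)
    (hc : Filter.Tendsto c Filter.atTop (nhds 1)) (γ : ℝ → ℂ) (hγ : Continuous γ) (a b : ℝ)
    (hleg : ∀ t ∈ Set.uIcc a b, γ t ∈ SumL_leg ρ Y) :
    Filter.Tendsto (fun j => ∫ t in a..b, G (c j * γ t) * om n M (γ t)) Filter.atTop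
      (nhds (∫ t in a..b, G (γ t) * om n M (γ t))) := by
  have hR : ∀ z ∈ SumL_leg ρ Y, |z.re| ≤ ρ ∧ |z.im| ≤ Y := by
    intro z hz
    rcases hz with ⟨h1, h2, h3⟩ | ⟨h1, h2⟩
    · exact ⟨h1.le, by rw [abs_of_nonneg h2]; exact h3⟩
    · exact ⟨h1, by rw [h2, abs_of_pos hY]⟩
  have hcR : ∀ j, ∀ z ∈ SumL_leg ρ Y, |((c j : ℂ) * z).re| ≤ ρ ∧ |((c j : ℂ) * z).im| ≤ Y := by
    intro j z hz
    obtain ⟨h1, h2⟩ := hR z hz
    have e1 : ((c j : ℂ) * z).re = c j * z.re := by simp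
    have e2 : ((c j : ℂ) * z).im = c j * z.im := by simp
    rw [e1, e2, abs_mul, abs_mul, abs_of_nonneg (hc0 j)]
    constructor
    · calc c j * |z.re| ≤ 1 * |z.re| := mul_le_mul_of_nonneg_right (hc1 j) (abs_nonneg _)
        _ ≤ ρ := by rw [one_mul]; exact h1
    · calc c j * |z.im| ≤ 1 * |z.im| := mul_le_mul_of_nonneg_right (hc1 j) (abs_nonneg _)
        _ ≤ Y := by rw [one_mul]; exact h2
  -- a bound for `G`
  have hcomp : IsCompact (Set.Icc (-ρ) ρ ×ℂ Set.Icc (-Y) Y) :=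
    IsCompact.reProdIm isCompact_Icc isCompact_Icc
  have hmemR : ∀ z : ℂ, |z.re| ≤ ρ → |z.im| ≤ Y → z ∈ (Set.Icc (-ρ) ρ ×ℂ Set.Icc (-Y) Y) := by
    intro z h1 h2
    rw [Complex.mem_reProdIm]
    exact ⟨abs_le.1 h1, abs_le.1 h2⟩
  obtain ⟨K, hK⟩ := hcomp.exists_bound_of_continuousOn (f := G) (by
    intro z hz
    rw [Complex.mem_reProdIm] at hz
    exact (hG z (abs_le.2 hz.1) (abs_le.2 hz.2)).continuousWithinAt)
  have homγ : ContinuousOn (fun t => om n M (γ t)) (Set.uIcc a b) := fun t ht =>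
    (ContinuousAt.comp (f := γ) (hom _ (hleg t ht)) hγ.continuousAt).continuousWithinAt
  refine intervalIntegral.tendsto_integral_filter_of_dominated_convergence
    (fun t => K * ‖om n M (γ t)‖) ?_ ?_ ?_ ?_
  · refine Filter.Eventually.of_forall fun j => ?_
    have h1 : ContinuousOn (fun t => G (c j * γ t) * om n M (γ t)) (Set.uIcc a b) := by
      refine ContinuousOn.mul (fun t ht => ?_) homγ
      obtain ⟨h2, h3⟩ := hcR j _ (hleg t ht)
      exact (ContinuousAt.comp (f := fun t => (c j : ℂ) * γ t) (hG _ h2 h3)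
        (continuous_const.mul hγ).continuousAt).continuousWithinAt
    exact (h1.mono Set.uIoc_subset_uIcc).aestronglyMeasurable measurableSet_uIoc
  · refine Filter.Eventually.of_forall fun j => Filter.Eventually.of_forall fun t ht => ?_
    obtain ⟨h2, h3⟩ := hcR j _ (hleg t (Set.uIoc_subset_uIcc ht))
    rw [norm_mul]
    exact mul_le_mul_of_nonneg_right (hK _ (hmemR _ h2 h3)) (norm_nonneg _)
  · exact (continuousOn_const.mul homγ.norm).intervalIntegrable
  · refine Filter.Eventually.of_forall fun t ht => ?_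
    obtain ⟨h2, h3⟩ := hR _ (hleg t (Set.uIoc_subset_uIcc ht))
    refine Filter.Tendsto.mul ?_ tendsto_const_nhds
    have h4 : Filter.Tendsto (fun j => (c j : ℂ) * γ t) Filter.atTop (nhds (γ t)) := by
      have h5 : Filter.Tendsto (fun j => (c j : ℂ)) Filter.atTop (nhds ((1 : ℝ) : ℂ)) :=
        (Complex.continuous_ofReal.tendsto _).comp hc
      have h6 := h5.mul_const (γ t)
      simpa using h6
    exact (hG _ h2 h3).tendsto.comp h4

/-- The derivative of an odd function summed over a symmetric set of lattice points. -/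
theorem sum_l (G : ℂ → ℂ) (n M l1 l2 : ℕ) (Y : ℝ) (hM : 0 < M) (hl : l1 + l2 + n = M + 1)
    (hn : 1 ≤ n) (hl' : l1 ≤ l2) (hY : 0 < Y) (ρ : ℝ) (hρ : ρ = (l2 + 1 / 2 + bt n) / M - 1 / 2)
    (hG : ∀ z : ℂ, |z.re| ≤ ρ → |z.im| ≤ Y → DifferentiableAt ℂ G z)
    (hodd : ∀ z : ℂ, G (-z) = -G z) :
    ∑ l ∈ Finset.Icc l1 l2, deriv G (vl n M l) =
      -(4 * Real.pi * I) * M ^ 2 * Path (fun v => G v * om n M v) ρ Y := by
  have hM0 : (0 : ℝ) < M := by exact_mod_cast hM
  have hlR : (l1 : ℝ) + l2 + n = M + 1 := by exact_mod_cast hl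
  have hllR : (l1 : ℝ) ≤ l2 := by exact_mod_cast hl'
  have hρ' : -ρ = (l1 - 1 / 2 + bt n) / M - 1 / 2 := by
    rw [hρ, bt]
    field_simp
    linarith
  have hρ0 : 0 < ρ := by
    have h1 : 2 * ρ = (l2 - l1 + 1) / M := by
      have : 2 * ρ = ρ - -ρ := by ring
      rw [this, hρ', hρ]
      ring
    have : 0 < ((l2 : ℝ) - l1 + 1) / M := by
      apply div_pos _ hM0
      linarith
    linarith
  set c : ℕ → ℝ := fun j => 1 - 1 / ((j : ℝ) + 2) with hc
  have hc0 : ∀ j, 0 < c j := by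
    intro j
    have h1 : 1 / ((j : ℝ) + 2) < 1 := by
      rw [div_lt_one (by positivity)]
      have : (0 : ℝ) ≤ j := Nat.cast_nonneg j
      linarith
    simp only [hc]
    linarith
  have hc1 : ∀ j, c j < 1 := by
    intro j
    have h1 : 0 < 1 / ((j : ℝ) + 2) := by positivity
    simp only [hc]
    linarith
  have hclim : Filter.Tendsto c Filter.atTop (nhds 1) := by
    have h1 : Filter.Tendsto (fun j : ℕ => 1 / ((j : ℝ) + 2)) Filter.atTop (nhds 0) := by
      have h2 := (tendsto_one_div_add_atTop_nhds_zero_nat (𝕜 := ℝ)).comp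
        (Filter.tendsto_add_atTop_nat 1)
      refine h2.congr fun j => ?_
      simp only [Function.comp]
      push_cast
      congr 1
      ring
    have h3 := h1.const_sub 1
    rwa [sub_zero] at h3
  set U : Set ℂ := {z | |z.re| < ρ ∧ |z.im| < Y} with hUdef
  have hU : IsOpen U := by
    have h1 : IsOpen {z : ℂ | |z.re| < ρ} := isOpen_lt (Complex.continuous_re.abs) continuous_const
    have h2 : IsOpen {z : ℂ | |z.im| < Y} := isOpen_lt (Complex.continuous_im.abs) continuous_const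
    exact h1.inter h2
  have hGU : DifferentiableOn ℂ G U := fun z hz =>
    (hG z hz.1.le hz.2.le).differentiableWithinAt
  have hdU : DifferentiableOn ℂ (deriv G) U := hGU.deriv hU
  have hmem : ∀ j, ∀ z : ℂ, |z.re| ≤ ρ → |z.im| ≤ Y → (c j : ℂ) * z ∈ U := by
    intro j z h1 h2
    have e1 : ((c j : ℂ) * z).re = c j * z.re := by simp
    have e2 : ((c j : ℂ) * z).im = c j * z.im := by simp
    refine ⟨?_, ?_⟩
    · rw [e1, abs_mul, abs_of_pos (hc0 j)]
      calc c j * |z.re| ≤ c j * ρ := mul_le_mul_of_nonneg_left h1 (hc0 j).le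
        _ < 1 * ρ := mul_lt_mul_of_pos_right (hc1 j) hρ0
        _ = ρ := one_mul _
    · rw [e2, abs_mul, abs_of_pos (hc0 j)]
      calc c j * |z.im| ≤ c j * Y := mul_le_mul_of_nonneg_left h2 (hc0 j).le
        _ < 1 * Y := mul_lt_mul_of_pos_right (hc1 j) hY
        _ = Y := one_mul _
  have hderiv : ∀ j, deriv (fun v : ℂ => G (c j * v)) =
      fun z => (c j : ℂ) * deriv G (c j * z) := by
    intro j
    funext z
    rw [deriv_comp_mul_left, smul_eq_mul]
  have hj : ∀ j, ∑ l ∈ Finset.Icc l1 l2, (c j : ℂ) * deriv G (c j * vl n M l) =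
      -(4 * Real.pi * I) * M ^ 2 * Path (fun v => G (c j * v) * om n M v) ρ Y := by
    intro j
    have h1 := SumL_strong (fun v : ℂ => G (c j * v)) n M l1 l2 Y hM hl hl' hY ρ hρ ?_ ?_ ?_
    · rw [← h1, hderiv]
    · intro z h2 h3
      have h4 := hmem j z h2 h3
      exact DifferentiableAt.comp z (hG _ h4.1.le h4.2.le) (by fun_prop)
    · intro z h2 h3
      rw [hderiv]
      have h4 := (hdU.differentiableAt (hU.mem_nhds (hmem j z h2 h3)))
      exact (DifferentiableAt.comp z h4 (by fun_prop)).const_mul _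
    · intro z
      rw [mul_neg, hodd]
  have hcc : Filter.Tendsto (fun j => (c j : ℂ)) Filter.atTop (nhds 1) := by
    have h5 : Filter.Tendsto (fun j => (c j : ℂ)) Filter.atTop (nhds ((1 : ℝ) : ℂ)) :=
      (Complex.continuous_ofReal.tendsto _).comp hclim
    simpa using h5
  -- limit of the sums
  have hL : Filter.Tendsto (fun j => ∑ l ∈ Finset.Icc l1 l2, (c j : ℂ) *
      deriv G (c j * vl n M l)) Filter.atTop
      (nhds (∑ l ∈ Finset.Icc l1 l2, deriv G (vl n M l))) := by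
    refine tendsto_finsetSum _ fun l hl0 => ?_
    rw [Finset.mem_Icc] at hl0
    have h1 : (vl n M l : ℂ) ∈ U := by
      have hl1 : (l1 : ℝ) ≤ l := by exact_mod_cast hl0.1
      have hl2 : (l : ℝ) ≤ l2 := by exact_mod_cast hl0.2
      refine ⟨?_, ?_⟩
      · rw [Complex.ofReal_re, abs_lt]
        constructor
        · rw [hρ', vl]
          have : ((l1 : ℝ) - 1 / 2 + bt n) / M < (l + bt n) / M := by
            apply div_lt_div_of_pos_right _ hM0
            linarith
          linarith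
        · rw [hρ, vl]
          have : (l + bt n) / M < ((l2 : ℝ) + 1 / 2 + bt n) / M := by
            apply div_lt_div_of_pos_right _ hM0
            linarith
          linarith
      · rw [Complex.ofReal_im, abs_zero]
        exact hY
    have h2 := (hdU.differentiableAt (hU.mem_nhds h1)).continuousAt
    have h3 : Filter.Tendsto (fun j => (c j : ℂ) * (vl n M l : ℂ)) Filter.atTop
        (nhds (vl n M l : ℂ)) := by
      have := hcc.mul_const (vl n M l : ℂ)
      simpa using this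
    have h4 := hcc.mul (h2.tendsto.comp h3)
    simpa using h4
  -- limit of the path integrals
  have hne : ∀ z ∈ SumL_leg ρ Y, 1 - ww n M z ≠ 0 := fun z hz =>
    SumL_ww_ne n M l2 hM ρ Y hY hρ hz
  have hom : ∀ z ∈ SumL_leg ρ Y, ContinuousAt (om n M) z := fun z hz =>
    SumL_om_cont n M (hne z hz)
  have hGc : ∀ z : ℂ, |z.re| ≤ ρ → |z.im| ≤ Y → ContinuousAt G z := fun z h1 h2 =>
    (hG z h1 h2).continuousAt
  have hP : Filter.Tendsto (fun j => Path (fun v => G (c j * v) * om n M v) ρ Y) Filter.atTop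
      (nhds (Path (fun v => G v * om n M v) ρ Y)) := by
    unfold Path
    simp only [intervalIntegral.integral_mul_const]
    refine ((Filter.Tendsto.mul_const I ?_).add ?_).sub (Filter.Tendsto.mul_const I ?_)
    · refine SumL_lim G n M hY hGc hom c (fun j => (hc0 j).le) (fun j => (hc1 j).le) hclim
        (fun t : ℝ => (-ρ + t * I : ℂ)) (by fun_prop) 0 Y fun t ht => ?_
      rw [Set.uIcc_of_le hY.le] at ht
      exact SumL_leg_left hρ0.le ht.1 ht.2
    · refine SumL_lim G n M hY hGc hom c (fun j => (hc0 j).le) (fun j => (hc1 j).le) hclim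
        (fun t : ℝ => (t + Y * I : ℂ)) (by fun_prop) (-ρ) ρ fun t ht => ?_
      rw [Set.uIcc_of_le (by linarith)] at ht
      exact SumL_leg_top ht.1 ht.2
    · refine SumL_lim G n M hY hGc hom c (fun j => (hc0 j).le) (fun j => (hc1 j).le) hclim
        (fun t : ℝ => (ρ + t * I : ℂ)) (by fun_prop) 0 Y fun t ht => ?_
      rw [Set.uIcc_of_le hY.le] at ht
      exact SumL_leg_right hρ0.le ht.1 ht.2
  refine tendsto_nhds_unique hL ?_
  simp only [hj]
  exact hP.const_mul _

end Pool.Agent.H63.VC3
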