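import Pool.Agent.H63.VC3.GBound

/-! # Bounds of the growth rate `gg` -/

namespace Pool.Agent.H63.VC3

open Pool.Agent.H63.VC Real

/-- The dichotomy behind all three bounds. -/
private theorem GG_key (x l : ℝ) (hl : 0 ≤ l) (hlx : l ≤ x) (hx : x ≤ 1) :
    gg x l ≤ 3 * Fr (5 / 6) ∨
      (0 < x - 1 / 2 ∧ x - 1 / 2 < 1 / 2 ∧
        gg x l ≤ 4 * Fr (3 / 4) - 2 * π * (x - 3 / 4) ^ 2 -
          π * (Real.cos (π * (x - 1 / 2)) / Real.sin (π * (x - 1 / 2))) * (l - 1 / 2) ^ 2) := by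
  have h56 : 0 ≤ Fr (5 / 6) := Fr_nonneg _ (by norm_num) (by norm_num)
  have hx1 := Fr_le x
  have hm1 := Fr_ge (x - l)
  have hp1 := Fr_ge (x + l)
  by_cases hA : x ≤ 1 / 2
  · left
    have h0 := Fr_nonpos x (hl.trans hlx) hA
    unfold gg
    linarith
  push Not at hA
  by_cases hB : x + l ≤ 1
  · left
    have h0 := Fr_nonneg (x + l) (by linarith) hB
    unfold gg
    linarith
  push Not at hB
  have hper : Fr (x + l) = Fr ((x - 1 / 2) + (l - 1 / 2)) := by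
    rw [← Fr_add_one ((x - 1 / 2) + (l - 1 / 2))]
    congr 1
    ring
  have hmin : Fr (x - l) = Fr ((x - 1 / 2) - (l - 1 / 2)) := by
    congr 1
    ring
  by_cases hC : 1 / 2 ≤ (x - 1 / 2) - (l - 1 / 2)
  · left
    have h0 := Fr_nonneg ((x - 1 / 2) - (l - 1 / 2)) hC (by linarith)
    rw [← hmin] at h0
    unfold gg
    linarith
  push Not at hC
  by_cases hD : 1 / 2 ≤ (x - 1 / 2) + (l - 1 / 2)
  · left
    have h0 := Fr_nonneg ((x - 1 / 2) + (l - 1 / 2)) hD (by linarith)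
    rw [← hper] at h0
    unfold gg
    linarith
  push Not at hD
  right
  have hv : |l - 1 / 2| ≤ x - 1 / 2 := abs_le.2 ⟨by linarith, by linarith⟩
  have hv' : |l - 1 / 2| < 1 / 2 - (x - 1 / 2) := abs_lt.2 ⟨by linarith, by linarith⟩
  have hy0 : 0 < x - 1 / 2 := by linarith
  have hy1 : x - 1 / 2 < 1 / 2 := by
    have := abs_nonneg (l - 1 / 2)
    linarith
  refine ⟨hy0, hy1, ?_⟩
  have h1 := Fr_sym_ge (x - 1 / 2) (l - 1 / 2) hy0 hy1 hv (by linarith)
  have h2 := Fr_y_le (x - 1 / 2) hy0.le hy1.le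
  have h3 : x - 1 / 2 + 1 / 2 = x := by ring
  have h4 : x - 1 / 2 - 1 / 4 = x - 3 / 4 := by ring
  rw [h3, h4] at h2
  rw [← hmin, ← hper] at h1
  unfold gg
  linarith

private theorem GG_cot_nonneg (y : ℝ) (h0 : 0 < y) (h1 : y < 1 / 2) :
    0 ≤ Real.cos (π * y) / Real.sin (π * y) := by
  have hπ := Real.pi_pos
  apply div_nonneg
  · apply Real.cos_nonneg_of_neg_pi_div_two_le_of_le <;> nlinarith
  · apply Real.sin_nonneg_of_nonneg_of_le_pi <;> nlinarith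

theorem gg_le (x l : ℝ) (hl : 0 ≤ l) (hlx : l ≤ x) (hx : x ≤ 1) : gg x l ≤ 4 * Fr (3 / 4) := by
  have hlog : 0 < Real.log 2 := Real.log_pos one_lt_two
  rcases GG_key x l hl hlx hx with h | ⟨h0, h1, h⟩
  · have := Fr_num
    linarith
  · have h2 : 0 ≤ 2 * π * (x - 3 / 4) ^ 2 := by
      have := Real.pi_pos
      positivity
    have h3 : 0 ≤ π * (Real.cos (π * (x - 1 / 2)) / Real.sin (π * (x - 1 / 2))) *
        (l - 1 / 2) ^ 2 :=
      mul_nonneg (mul_nonneg Real.pi_pos.le (GG_cot_nonneg _ h0 h1)) (sq_nonneg _)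
    linarith

theorem gg_le_x (x l : ℝ) (hl : 0 ≤ l) (hlx : l ≤ x) (hx : x ≤ 1)
    (h : 53 / 1000 ≤ |x - 3 / 4|) : gg x l ≤ 4 * Fr (3 / 4) - 17 / 1000 := by
  have hlog := Real.log_two_gt_d9
  rcases GG_key x l hl hlx hx with h' | ⟨h0, h1, h'⟩
  · have := Fr_num
    linarith
  · have h3 : 0 ≤ π * (Real.cos (π * (x - 1 / 2)) / Real.sin (π * (x - 1 / 2))) *
        (l - 1 / 2) ^ 2 :=
      mul_nonneg (mul_nonneg Real.pi_pos.le (GG_cot_nonneg _ h0 h1)) (sq_nonneg _)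
    have h4 : (53 / 1000 : ℝ) ^ 2 ≤ (x - 3 / 4) ^ 2 := by
      rw [← sq_abs (x - 3 / 4)]
      exact pow_le_pow_left₀ (by norm_num) h 2
    have h5 := Real.pi_gt_d2
    have h6 : 2 * (3.14 : ℝ) * (53 / 1000) ^ 2 ≤ 2 * π * (x - 3 / 4) ^ 2 := by
      apply mul_le_mul _ h4 (by norm_num) (by positivity)
      linarith
    norm_num at h6
    linarith

theorem gg_le_l (x l : ℝ) (hl : 0 ≤ l) (hlx : l ≤ x) (hx : x ≤ 1)
    (h : |x - 3 / 4| ≤ 56 / 1000) (h' : 148 / 1000 ≤ |l - 1 / 2|) :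
    gg x l ≤ 4 * Fr (3 / 4) - 40 / 1000 := by
  have hlog := Real.log_two_gt_d9
  rcases GG_key x l hl hlx hx with h'' | ⟨h0, h1, h''⟩
  · have := Fr_num
    linarith
  · have h2 : 0 ≤ 2 * π * (x - 3 / 4) ^ 2 := by
      have := Real.pi_pos
      positivity
    have h3 := cot_ge (x - 3 / 4) (lt_of_le_of_lt h (by norm_num))
    have h4 : 1 / 4 + (x - 3 / 4) = x - 1 / 2 := by ring
    rw [h4] at h3
    have h5 := Real.pi_gt_d2
    have h6 := Real.pi_lt_d2
    have h7 := (abs_le.1 h).2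
    have h8 : (648 / 1000 - 1 / 1000 : ℝ) ≤ 1 - 2 * π * (x - 3 / 4) := by
      have : 2 * π * (x - 3 / 4) ≤ 2 * 3.15 * (56 / 1000) := by
        by_cases hs : 0 ≤ x - 3 / 4
        · apply mul_le_mul _ h7 hs (by norm_num)
          linarith
        · push Not at hs
          have : 2 * π * (x - 3 / 4) ≤ 0 := mul_nonpos_of_nonneg_of_nonpos (by positivity) hs.le
          norm_num
          linarith
      norm_num at this ⊢
      linarith
    have h9 : (647 / 1000 : ℝ) ≤ Real.cos (π * (x - 1 / 2)) / Real.sin (π * (x - 1 / 2)) := by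
      linarith
    have h10 : (148 / 1000 : ℝ) ^ 2 ≤ (l - 1 / 2) ^ 2 := by
      rw [← sq_abs (l - 1 / 2)]
      exact pow_le_pow_left₀ (by norm_num) h' 2
    have h11 : (3.14 : ℝ) * (647 / 1000) * (148 / 1000) ^ 2 ≤
        π * (Real.cos (π * (x - 1 / 2)) / Real.sin (π * (x - 1 / 2))) * (l - 1 / 2) ^ 2 := by
      apply mul_le_mul _ h10 (by norm_num)
        (mul_nonneg Real.pi_pos.le (GG_cot_nonneg _ h0 h1))
      apply mul_le_mul h5.le h9 (by norm_num) Real.pi_pos.le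
    norm_num at h11
    linarith

end Pool.Agent.H63.VC3
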