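import Pool.Agent.H63.VC3.RealF

/-! # Comparison of `log S` with `Fr` -/

namespace Pool.Agent.H63.VC3

open Pool.Agent.H63.VC Real

private lemma LogS_log2 : 1 / 2 ≤ Real.log 2 := by
  have := Real.log_two_gt_d9
  linarith

private lemma LogS_logM {M : ℕ} (hM : 2 ≤ M) : Real.log 2 ≤ Real.log M :=
  Real.log_le_log (by norm_num) (by exact_mod_cast hM)

private lemma LogS_sin_pos {x : ℝ} (h0 : 0 < x) (h1 : x < 1) : 0 < Real.sin (π * x) :=
  Real.sin_pos_of_pos_of_lt_pi (by positivity) (by
    calc π * x < π * 1 := mul_lt_mul_of_pos_left h1 Real.pi_pos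
      _ = π := mul_one π)

private lemma LogS_refl (x : ℝ) : Fr (1 - x) = -Fr x := by
  rw [← Fr_neg, ← Fr_add_one (-x)]
  congr 1
  ring

private lemma LogS_low (x : ℝ) (h0 : 0 ≤ x) (h1 : x ≤ 1 / 2) :
    x * Real.log 4 + x * Real.log x - x ≤ Fr x := by
  have hd : ∀ y : ℝ, 0 < y → y < 1 →
      HasDerivAt (fun y : ℝ => Fr y - (y * Real.log 4 + y * Real.log y - y))
        (Real.log (2 * Real.sin (π * y)) - (Real.log 4 + Real.log y)) y := by
    intro y hy0 hy1
    have h2 : HasDerivAt (fun y : ℝ => y * Real.log 4 + y * Real.log y - y)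
        (Real.log 4 + Real.log y) y := by
      have h3 := (((hasDerivAt_id y).mul_const (Real.log 4)).add
        (Real.hasDerivAt_mul_log hy0.ne')).sub (hasDerivAt_id y)
      refine (h3.congr_deriv (by ring)).congr_of_eventuallyEq ?_
      filter_upwards with z
      rfl
    exact (Fr_hasDerivAt y hy0 hy1).sub h2
  have hm : MonotoneOn (fun y : ℝ => Fr y - (y * Real.log 4 + y * Real.log y - y))
      (Set.Icc 0 (1 / 2)) := by
    apply monotoneOn_of_deriv_nonneg (convex_Icc _ _)
    · apply Continuous.continuousOn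
      exact Fr_continuous.sub (((continuous_id.mul continuous_const).add
        Real.continuous_mul_log).sub continuous_id)
    · intro y hy
      rw [interior_Icc] at hy
      exact (hd y hy.1 (by linarith [hy.2])).differentiableAt.differentiableWithinAt
    · intro y hy
      rw [interior_Icc] at hy
      rw [(hd y hy.1 (by linarith [hy.2])).deriv, ← Real.log_mul (by norm_num) hy.1.ne']
      have h3 := Real.mul_le_sin (x := π * y) (by have := Real.pi_pos; nlinarith [hy.1])
        (by have := Real.pi_pos; nlinarith [hy.2])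
      have h4 : 2 / π * (π * y) = 2 * y := by
        have := Real.pi_ne_zero
        field_simp
      rw [h4] at h3
      have h5 : Real.log (4 * y) ≤ Real.log (2 * Real.sin (π * y)) :=
        Real.log_le_log (by linarith [hy.1]) (by linarith)
      linarith
  have h2 := hm (a := 0) ⟨le_rfl, by norm_num⟩ (b := x) ⟨h0, h1⟩ h0
  simp only [zero_mul, Fr_zero] at h2
  linarith

private lemma LogS_small {M : ℕ} (hM : 2 ≤ M) {l : ℝ} (h0 : 0 ≤ l) (h1 : l ≤ 1 / M) :
    -(3 * Real.log M) / M ≤ Fr l := by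
  have hM0 : (0 : ℝ) < M := by exact_mod_cast (by omega : 0 < M)
  have hM2 : (2 : ℝ) ≤ M := by exact_mod_cast hM
  have hL := LogS_logM hM
  have hL2 := LogS_log2
  rcases h0.eq_or_lt with h | h
  · rw [← h, Fr_zero]
    exact div_nonpos_of_nonpos_of_nonneg (by linarith) hM0.le
  have hl12 : l ≤ 1 / 2 := h1.trans (one_div_le_one_div_of_le (by norm_num) hM2)
  have h2 := LogS_low l h0 hl12
  have h4 : 1 ≤ Real.log 4 := by
    have : Real.log 4 = 2 * Real.log 2 := by
      rw [show (4 : ℝ) = 2 ^ 2 by norm_num, Real.log_pow]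
      norm_num
    linarith
  have h5 : 1 - (l * M)⁻¹ ≤ Real.log (l * M) := Real.one_sub_inv_le_log_of_pos (by positivity)
  have h6 : Real.log (l * M) = Real.log l + Real.log M := Real.log_mul h.ne' hM0.ne'
  have h7 : l - 1 / M ≤ l * (Real.log l + Real.log M) := by
    rw [h6] at h5
    have := mul_le_mul_of_nonneg_left h5 h0
    refine le_trans (le_of_eq ?_) this
    field_simp
  have h8 : l * Real.log M ≤ 1 / M * Real.log M :=
    mul_le_mul_of_nonneg_right h1 (by linarith)
  have h9 : l ≤ l * Real.log 4 := by nlinarith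
  have h10 : 1 / (M : ℝ) ≤ 1 / M * (2 * Real.log M) := by
    apply le_mul_of_one_le_right (by positivity)
    linarith
  have h11 : -(3 * Real.log M) / M = -(1 / M * (2 * Real.log M)) - 1 / M * Real.log M := by
    ring
  rw [h11]
  linarith

private lemma LogS_conv {a b : ℝ} (h0 : 0 ≤ a) (hab : a ≤ b) (hb : b ≤ 1 / 2) :
    Fr (b - a) ≤ Fr b - Fr a := by
  have hd : ∀ s : ℝ, 0 < s → s < a →
      HasDerivAt (fun s : ℝ => Fr (s + (b - a)) - Fr s)
        (Real.log (2 * Real.sin (π * (s + (b - a)))) - Real.log (2 * Real.sin (π * s))) s := by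
    intro s hs0 hs1
    have h2 := Fr_hasDerivAt (s + (b - a)) (by linarith) (by linarith)
    have h3 : HasDerivAt (fun s : ℝ => Fr (s + (b - a)))
        (Real.log (2 * Real.sin (π * (s + (b - a))))) s := by
      have h4 : HasDerivAt (fun s : ℝ => s + (b - a)) 1 s := (hasDerivAt_id s).add_const _
      have := h2.comp s h4
      rwa [mul_one] at this
    exact h3.sub (Fr_hasDerivAt s hs0 (by linarith))
  have hm : MonotoneOn (fun s : ℝ => Fr (s + (b - a)) - Fr s) (Set.Icc 0 a) := by
    apply monotoneOn_of_deriv_nonneg (convex_Icc _ _)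
    · apply Continuous.continuousOn
      exact (Fr_continuous.comp (continuous_id.add continuous_const)).sub Fr_continuous
    · intro s hs
      rw [interior_Icc] at hs
      exact (hd s hs.1 hs.2).differentiableAt.differentiableWithinAt
    · intro s hs
      rw [interior_Icc] at hs
      rw [(hd s hs.1 hs.2).deriv]
      have hp := Real.pi_pos
      have h3 : Real.sin (π * s) ≤ Real.sin (π * (s + (b - a))) := by
        apply Real.sin_le_sin_of_le_of_le_pi_div_two
        · nlinarith [hs.1]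
        · nlinarith [hs.2]
        · nlinarith [hs.2]
      have h4 := LogS_sin_pos hs.1 (by linarith [hs.2] : s < 1)
      have := Real.log_le_log (by positivity) (mul_le_mul_of_nonneg_left h3 two_pos.le)
      linarith
  have h2 := hm (a := 0) ⟨le_rfl, h0⟩ (b := a) ⟨h0, le_rfl⟩ h0
  simp only [zero_add, Fr_zero, sub_zero] at h2
  have e : a + (b - a) = b := by ring
  rw [e] at h2
  exact h2

private lemma LogS_piece {M : ℕ} (hM : 2 ≤ M) {a b : ℝ} (h0 : 0 ≤ a) (hab : a ≤ b)
    (hb : b ≤ 1 / 2) (hl : b - a ≤ 1 / M) :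
    -(3 * Real.log M) / M ≤ Fr b - Fr a ∧ Fr b - Fr a ≤ Real.log M / M := by
  have hM0 : (0 : ℝ) < M := by exact_mod_cast (by omega : 0 < M)
  refine ⟨(LogS_small hM (by linarith) hl).trans (LogS_conv h0 hab hb), ?_⟩
  have h2 := Convex.image_sub_le_mul_sub_of_deriv_le (D := Set.Icc a b)
    (convex_Icc _ _) (f := Fr) Fr_continuous.continuousOn
    (fun x hx => by
      rw [interior_Icc] at hx
      exact (Fr_hasDerivAt x (by linarith [hx.1])
        (by linarith [hx.2])).differentiableAt.differentiableWithinAt)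
    (C := Real.log M)
    (fun x hx => by
      rw [interior_Icc] at hx
      rw [(Fr_hasDerivAt x (by linarith [hx.1]) (by linarith [hx.2])).deriv]
      have h3 := LogS_sin_pos (x := x) (by linarith [hx.1]) (by linarith [hx.2])
      have h4 := Real.sin_le_one (π * x)
      have hM2 : (2 : ℝ) ≤ M := by exact_mod_cast hM
      apply Real.log_le_log (by positivity)
      linarith)
    a ⟨le_rfl, hab⟩ b ⟨hab, le_rfl⟩ hab
  have h3 : Real.log M * (b - a) ≤ Real.log M * (1 / M) :=
    mul_le_mul_of_nonneg_left hl (by linarith [LogS_logM hM, LogS_log2])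
  have h4 : Real.log M * (1 / M) = Real.log M / M := by ring
  linarith

private lemma LogS_piece' {M : ℕ} (hM : 2 ≤ M) {a b : ℝ} (h0 : 1 / 2 ≤ a) (hab : a ≤ b)
    (hb : b ≤ 1) (hl : b - a ≤ 1 / M) :
    -(3 * Real.log M) / M ≤ Fr b - Fr a ∧ Fr b - Fr a ≤ Real.log M / M := by
  have h := LogS_piece hM (a := 1 - b) (b := 1 - a) (by linarith) (by linarith) (by linarith)
    (by linarith)
  rw [LogS_refl, LogS_refl] at h
  constructor
  · linarith [h.1]
  · linarith [h.2]

private lemma LogS_step {M : ℕ} (hM : 2 ≤ M) (x : ℝ) :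
    |M * Fr (x + 1 / M) - M * Fr x| ≤ 6 * Real.log M := by
  have hM0 : (0 : ℝ) < M := by exact_mod_cast (by omega : 0 < M)
  have hM2 : (2 : ℝ) ≤ M := by exact_mod_cast hM
  have hL := LogS_logM hM
  have hL2 := LogS_log2
  have hh : 1 / (M : ℝ) ≤ 1 / 2 := one_div_le_one_div_of_le (by norm_num) hM2
  have hh0 : 0 < 1 / (M : ℝ) := by positivity
  have hper : Function.Periodic (fun x : ℝ => M * Fr (x + 1 / M) - M * Fr x) 1 := by
    intro x
    have e : x + 1 + 1 / (M : ℝ) = x + 1 / M + 1 := by ring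
    simp only
    rw [e, Fr_add_one, Fr_add_one]
  obtain ⟨y, hy, hxy⟩ := hper.exists_mem_Ico₀ one_pos x
  rw [show M * Fr (x + 1 / M) - M * Fr x = M * Fr (y + 1 / M) - M * Fr y from hxy]
  have key : ∀ d : ℝ, -(3 * Real.log M) / M ≤ d ∧ d ≤ Real.log M / M →
      -(3 * Real.log M) ≤ M * d ∧ M * d ≤ Real.log M := by
    rintro d ⟨h1, h2⟩
    rw [div_le_iff₀ hM0] at h1
    rw [le_div_iff₀ hM0] at h2
    constructor <;> linarith
  rw [← mul_sub, abs_le]
  rcases le_or_gt (1 / 2) y with h | h
  · rcases le_or_gt (y + 1 / M) 1 with h' | h'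
    · have h1 := key _ (LogS_piece' hM h (by linarith) h' (by linarith))
      constructor <;> linarith [h1.1, h1.2]
    · have h1 := key _ (LogS_piece' hM h hy.2.le le_rfl (by linarith))
      have h2 := key _ (LogS_piece hM (a := 0) (b := y + 1 / M - 1) le_rfl (by linarith)
        (by linarith [hy.2]) (by linarith [hy.2]))
      have e1 : Fr (y + 1 / M - 1) = Fr (y + 1 / M) := by
        rw [← Fr_add_one (y + 1 / M - 1)]
        congr 1
        ring
      have e2 : Fr 1 = 0 := by
        have := Fr_add_one 0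
        rw [zero_add, Fr_zero] at this
        exact this
      rw [e1, Fr_zero, sub_zero] at h2
      rw [e2, zero_sub] at h1
      constructor <;> nlinarith [h1.1, h1.2, h2.1, h2.2]
  · rcases le_or_gt (y + 1 / M) (1 / 2) with h' | h'
    · have h1 := key _ (LogS_piece hM hy.1 (by linarith) h' (by linarith))
      constructor <;> linarith [h1.1, h1.2]
    · have h1 := key _ (LogS_piece hM hy.1 h.le le_rfl (by linarith))
      have h2 := key _ (LogS_piece' hM (a := 1 / 2) (b := y + 1 / M) le_rfl h'.le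
        (by linarith) (by linarith))
      rw [Fr_half] at h1 h2
      constructor <;> nlinarith [h1.1, h1.2, h2.1, h2.2]

/-- `Fr` has modulus of continuity `h log (1/h)`. -/
private lemma LogS_shift (n : ℕ) {M : ℕ} (hM : 2 ≤ M) (x : ℝ) : ∀ j : ℕ, j ≤ n →
    |M * Fr (x + j / M) - M * Fr x| ≤ (6 * j) * Real.log M := by
  intro j
  induction j with
  | zero =>
    intro _
    simp
  | succ j ih =>
    intro hj
    have h1 := ih (by omega)
    have h2 := LogS_step hM (x + j / M)
    have e : x + ((j + 1 : ℕ) : ℝ) / M = x + j / M + 1 / M := by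
      push_cast
      ring
    rw [e]
    have h3 : M * Fr (x + j / M + 1 / M) - M * Fr x =
        (M * Fr (x + j / M + 1 / M) - M * Fr (x + j / M)) + (M * Fr (x + j / M) - M * Fr x) := by
      ring
    rw [h3]
    refine (abs_add_le _ _).trans ?_
    push_cast
    linarith

private lemma LogS_sg (M m : ℕ) : sg M m = 2 * Real.sin (π * ((m : ℝ) / M)) := by
  unfold sg
  rw [mul_div_assoc]

private lemma LogS_g_abs {M m : ℕ} (h1 : 1 ≤ m) (h2 : m < M) :
    |Real.log (sg M m)| ≤ Real.log M := by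
  have hM0 : (0 : ℝ) < M := by exact_mod_cast (by omega : 0 < M)
  have hM2 : (2 : ℝ) ≤ M := by exact_mod_cast (by omega : 2 ≤ M)
  rw [abs_le]
  constructor
  · rw [← Real.log_inv, ← one_div]
    exact Real.log_le_log (by positivity) (sg_ge h1 h2)
  · exact Real.log_le_log (sg_pos h1 h2) ((sg_le_two M m).trans hM2)

private lemma LogS_cell {M m : ℕ} (h1 : 1 ≤ m) (h2 : 2 * (m + 1) ≤ M) :
    Real.log (sg M m) ≤ M * (Fr (((m + 1 : ℕ) : ℝ) / M) - Fr ((m : ℝ) / M)) ∧
      M * (Fr (((m + 1 : ℕ) : ℝ) / M) - Fr ((m : ℝ) / M)) ≤ Real.log (sg M (m + 1)) := by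
  have hM0 : (0 : ℝ) < M := by exact_mod_cast (by omega : 0 < M)
  have hm0 : (0 : ℝ) < (m : ℝ) / M := div_pos (by exact_mod_cast h1) hM0
  have hm1 : ((m + 1 : ℕ) : ℝ) / M ≤ 1 / 2 := by
    rw [div_le_iff₀ hM0]
    have : ((2 * (m + 1) : ℕ) : ℝ) ≤ M := by exact_mod_cast h2
    push_cast at this ⊢
    linarith
  have hlt : (m : ℝ) / M < ((m + 1 : ℕ) : ℝ) / M := by
    apply div_lt_div_of_pos_right _ hM0
    push_cast
    linarith
  obtain ⟨ξ, hξ, hs⟩ := exists_hasDerivAt_eq_slope Fr
    (fun x => Real.log (2 * Real.sin (π * x))) hlt Fr_continuous.continuousOn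
    (fun x hx => Fr_hasDerivAt x (by linarith [hx.1]) (by linarith [hx.2]))
  have e : ((m + 1 : ℕ) : ℝ) / M - (m : ℝ) / M = 1 / M := by
    push_cast
    ring
  rw [e] at hs
  have hs' : M * (Fr (((m + 1 : ℕ) : ℝ) / M) - Fr ((m : ℝ) / M)) =
      Real.log (2 * Real.sin (π * ξ)) := by
    rw [hs]
    field_simp
  rw [hs', LogS_sg, LogS_sg]
  have hp := Real.pi_pos
  constructor
  · apply Real.log_le_log
    · have := LogS_sin_pos hm0 (by linarith)
      positivity
    · apply mul_le_mul_of_nonneg_left _ two_pos.le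
      apply Real.sin_le_sin_of_le_of_le_pi_div_two
      · nlinarith
      · nlinarith [hξ.2]
      · nlinarith [hξ.1]
  · apply Real.log_le_log
    · have := LogS_sin_pos (x := ξ) (by linarith [hξ.1]) (by linarith [hξ.2])
      positivity
    · apply mul_le_mul_of_nonneg_left _ two_pos.le
      apply Real.sin_le_sin_of_le_of_le_pi_div_two
      · nlinarith [hξ.1]
      · nlinarith
      · nlinarith [hξ.2]

private lemma LogS_first {M : ℕ} (hM : 2 ≤ M) :
    |Real.log (S M 1) - M * Fr ((1 : ℕ) / M)| ≤ 4 * Real.log M := by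
  have hM0 : (0 : ℝ) < M := by exact_mod_cast (by omega : 0 < M)
  have hM2 : (2 : ℝ) ≤ M := by exact_mod_cast hM
  have h1 : S M 1 = sg M 1 := by
    unfold S
    simp
  have h2 := abs_le.1 (LogS_g_abs (M := M) (m := 1) le_rfl (by omega))
  have h3 := LogS_small hM (l := ((1 : ℕ) : ℝ) / M) (by positivity) (by simp)
  have h4 := Fr_nonpos (((1 : ℕ) : ℝ) / M) (by positivity) (by
    rw [Nat.cast_one]
    exact one_div_le_one_div_of_le (by norm_num) hM2)
  have h5 : -(3 * Real.log M) ≤ M * Fr (((1 : ℕ) : ℝ) / M) := by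
    rw [div_le_iff₀ hM0] at h3
    linarith
  have h6 : M * Fr (((1 : ℕ) : ℝ) / M) ≤ 0 := mul_nonpos_of_nonneg_of_nonpos hM0.le h4
  rw [h1, abs_le]
  constructor <;> linarith [h2.1, h2.2]

private lemma LogS_half {M : ℕ} (hM : 2 ≤ M) (k : ℕ) (hk : 1 ≤ k) (hk2 : 2 * k ≤ M) :
    |Real.log (S M k) - M * Fr (k / M)| ≤ 6 * Real.log M := by
  have h1 := abs_le.1 (LogS_first hM)
  have key : ∀ k : ℕ, 1 ≤ k → 2 * k ≤ M →
      Real.log (S M 1) - M * Fr ((1 : ℕ) / M) ≤ Real.log (S M k) - M * Fr (k / M) ∧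
      Real.log (S M k) - M * Fr (k / M) ≤ Real.log (S M 1) - M * Fr ((1 : ℕ) / M) +
        (Real.log (sg M k) - Real.log (sg M 1)) := by
    intro k hk
    induction k, hk using Nat.le_induction with
    | base => intro _; simp
    | succ k hk ih =>
      intro hk2
      obtain ⟨i1, i2⟩ := ih (by omega)
      obtain ⟨c1, c2⟩ := LogS_cell hk hk2
      have hS : Real.log (S M (k + 1)) = Real.log (S M k) + Real.log (sg M (k + 1)) := by
        rw [S_succ, Real.log_mul (S_pos (by omega)).ne' (sg_pos (by omega) (by omega)).ne']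
      rw [mul_sub] at c1 c2
      rw [hS]
      constructor <;> linarith
  obtain ⟨k1, k2⟩ := key k hk hk2
  have h2 := abs_le.1 (LogS_g_abs (M := M) (m := 1) le_rfl (by omega))
  have h3 : Real.log (sg M k) ≤ Real.log M :=
    (le_abs_self _).trans (LogS_g_abs (M := M) (m := k) hk (by omega))
  rw [abs_le]
  constructor <;> linarith [h1.1, h1.2, h2.1, h2.2]

/-- Uniform comparison of `log S` with `Fr`. -/
theorem log_S_bound : ∃ C : ℝ, 0 < C ∧ ∀ M k : ℕ, 2 ≤ M → k < M →
    |Real.log (S M k) - M * Fr (k / M)| ≤ C * Real.log M := by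
  refine ⟨8, by norm_num, fun M k hM hk => ?_⟩
  have hM0 : (0 : ℝ) < M := by exact_mod_cast (by omega : 0 < M)
  have hL : 0 ≤ Real.log M := by linarith [LogS_logM hM, LogS_log2]
  rcases Nat.eq_zero_or_pos k with rfl | hk0
  · have : S M 0 = 1 := by
      unfold S
      simp
    rw [this]
    simp [Fr_zero, hL]
  rcases le_or_gt (2 * k) M with h | h
  · exact (LogS_half hM k hk0 h).trans (by linarith)
  · have h1 := abs_le.1 (LogS_half hM (M - k) (by omega) (by omega))
    have h2 := S_mul (M := M) (k := k) hk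
    have h3 : S M (M - k) = S M (M - 1 - k) * sg M (M - k) := by
      have e : M - k = (M - 1 - k) + 1 := by omega
      rw [e, S_succ]
    have hp1 : 0 < S M (M - 1 - k) := S_pos (by omega)
    have hp2 : 0 < sg M (M - k) := sg_pos (by omega) (by omega)
    have h4 : Real.log (S M k) = Real.log M - Real.log (S M (M - 1 - k)) := by
      rw [← h2, Real.log_mul (S_pos hk).ne' hp1.ne']
      ring
    have h5 : Real.log (S M (M - k)) = Real.log (S M (M - 1 - k)) + Real.log (sg M (M - k)) := by
      rw [h3, Real.log_mul hp1.ne' hp2.ne']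
    have h6 : Fr (((M - k : ℕ) : ℝ) / M) = -Fr ((k : ℝ) / M) := by
      rw [← LogS_refl]
      congr 1
      rw [Nat.cast_sub hk.le]
      field_simp
    have h7 := abs_le.1 (LogS_g_abs (M := M) (m := M - k) (by omega) (by omega))
    rw [h6, h5] at h1
    rw [h4, abs_le]
    constructor <;> linarith [h1.1, h1.2, h7.1, h7.2]

/-- `Fr` has modulus of continuity `h log (1/h)`. -/
theorem Fr_shift : ∀ n : ℕ, ∃ C : ℝ, 0 < C ∧ ∀ M : ℕ, 2 ≤ M → ∀ x : ℝ, ∀ j : ℕ, j ≤ n →
    |M * Fr (x + j / M) - M * Fr x| ≤ C * Real.log M := by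
  intro n
  refine ⟨6 * n + 1, by positivity, fun M hM x j hj => ?_⟩
  refine (LogS_shift n hM x j hj).trans ?_
  have hL : 0 ≤ Real.log M := by linarith [LogS_logM hM, LogS_log2]
  apply mul_le_mul_of_nonneg_right _ hL
  have : (j : ℝ) ≤ n := by exact_mod_cast hj
  linarith

end Pool.Agent.H63.VC3
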