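import Pool.Agent.H63.VC3.StepDefs

/-! # Consequences of the window conditions -/

namespace Pool.Agent.H63.VC3

open Pool.Agent.H63.VC Complex Filter

theorem win_facts (n M k1 k2 l1 l2 : ℕ) (hn : 2 ≤ n) (hw : Win n M k1 k2 l1 l2) :
    k2 + n ≤ M ∧ l2 ≤ k1 ∧ (∀ k : ℕ, k1 ≤ k → k ≤ k2 → |yk n M k - 1 / 4| ≤ 55 / 1000 ∧
      |(k : ℝ) / M - 3 / 4| ≤ 56 / 1000) ∧
    (∀ k : ℕ, (k < k1 ∨ k2 < k) → 53 / 1000 ≤ |(k : ℝ) / M - 3 / 4|) ∧
    (∀ l : ℕ, (l < l1 ∨ l2 < l) → 148 / 1000 ≤ |(l : ℝ) / M - 1 / 2|) ∧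
    149 / 1000 ≤ rho n M l2 ∧ rho n M l2 ≤ 150 / 1000 := by
  have hbig : (1000 : ℝ) * (n + 1) ≤ M := by exact_mod_cast hw.big
  have hn' : (2 : ℝ) ≤ n := by exact_mod_cast hn
  have hM : (0 : ℝ) < M := by linarith
  have hb : bt n = ((n : ℝ) - 1) / 2 := rfl
  have a1 : (1 / 4 - 55 / 1000 + 1 / 2) * M ≤ k1 + bt n := by
    have := hw.a1
    rw [le_sub_iff_add_le, le_div_iff₀ hM] at this
    exact this
  have a2 : k1 + bt n ≤ (1 / 4 - 54 / 1000 + 1 / 2) * M := by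
    have := hw.a2
    rw [sub_le_iff_le_add, div_le_iff₀ hM] at this
    exact this
  have a3 : (1 / 4 + 54 / 1000 + 1 / 2) * M ≤ k2 + 1 + bt n := by
    have := hw.a3
    rw [le_sub_iff_add_le, le_div_iff₀ hM] at this
    exact this
  have a4 : k2 + 1 + bt n ≤ (1 / 4 + 55 / 1000 + 1 / 2) * M := by
    have := hw.a4
    rw [sub_le_iff_le_add, div_le_iff₀ hM] at this
    exact this
  have b1 : (149 / 1000 + 1 / 2) * M ≤ l2 + 1 / 2 + bt n := by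
    have := hw.b1
    rw [le_sub_iff_add_le, le_div_iff₀ hM] at this
    exact this
  have b2 : l2 + 1 / 2 + bt n ≤ (150 / 1000 + 1 / 2) * M := by
    have := hw.b2
    rw [sub_le_iff_le_add, div_le_iff₀ hM] at this
    exact this
  have hl : (l1 : ℝ) + l2 + n = M + 1 := by exact_mod_cast hw.hl
  rw [hb] at a1 a2 a3 a4 b1 b2
  refine ⟨?_, ?_, ?_, ?_, ?_, hw.b1, hw.b2⟩
  · have : (k2 : ℝ) + n ≤ M := by linarith
    exact_mod_cast this
  · have : (l2 : ℝ) ≤ k1 := by linarith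
    exact_mod_cast this
  · intro k h1 h2
    have h1' : (k1 : ℝ) ≤ k := by exact_mod_cast h1
    have h2' : (k : ℝ) ≤ k2 := by exact_mod_cast h2
    constructor
    · unfold yk
      rw [hb, abs_le]
      constructor
      · have : (1 / 4 - 55 / 1000 + 1 / 2) ≤ (k + ((n : ℝ) - 1) / 2 + 1 / 2) / M := by
          rw [le_div_iff₀ hM]; linarith
        linarith
      · have : (k + ((n : ℝ) - 1) / 2 + 1 / 2) / M ≤ (1 / 4 + 55 / 1000 + 1 / 2) := by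
          rw [div_le_iff₀ hM]; linarith
        linarith
    · rw [abs_le]
      constructor
      · have : (3 / 4 - 56 / 1000) ≤ (k : ℝ) / M := by
          rw [le_div_iff₀ hM]; linarith
        linarith
      · have : (k : ℝ) / M ≤ (3 / 4 + 56 / 1000) := by
          rw [div_le_iff₀ hM]; linarith
        linarith
  · intro k h
    rcases h with h | h
    · have h' : (k : ℝ) + 1 ≤ k1 := by exact_mod_cast h
      have : (k : ℝ) / M ≤ (3 / 4 - 53 / 1000) := by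
        rw [div_le_iff₀ hM]; linarith
      rw [abs_of_nonpos (by linarith)]
      linarith
    · have h' : (k2 : ℝ) + 1 ≤ k := by exact_mod_cast h
      have : (3 / 4 + 53 / 1000) ≤ (k : ℝ) / M := by
        rw [le_div_iff₀ hM]; linarith
      rw [abs_of_nonneg (by linarith)]
      linarith
  · intro l h
    rcases h with h | h
    · have h' : (l : ℝ) + 1 ≤ l1 := by exact_mod_cast h
      have : (l : ℝ) / M ≤ (1 / 2 - 148 / 1000) := by
        rw [div_le_iff₀ hM]; linarith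
      rw [abs_of_nonpos (by linarith)]
      linarith
    · have h' : (l2 : ℝ) + 1 ≤ l := by exact_mod_cast h
      have : (1 / 2 + 148 / 1000) ≤ (l : ℝ) / M := by
        rw [le_div_iff₀ hM]; linarith
      rw [abs_of_nonneg (by linarith)]
      linarith

/-- Windows exist for all large `M`. -/
theorem win_exists (n : ℕ) (hn : 2 ≤ n) : ∃ k1 k2 l1 l2 : ℕ → ℕ,
    ∀ᶠ M in atTop, Win n M (k1 M) (k2 M) (l1 M) (l2 M) := by
  refine ⟨fun M => ⌈((3 / 4 - 55 / 1000) * M - bt n : ℝ)⌉₊,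
    fun M => ⌊((3 / 4 + 55 / 1000) * M - bt n - 1 : ℝ)⌋₊,
    fun M => M + 1 - n - ⌊((1 / 2 + 150 / 1000) * M - bt n - 1 / 2 : ℝ)⌋₊,
    fun M => ⌊((1 / 2 + 150 / 1000) * M - bt n - 1 / 2 : ℝ)⌋₊, ?_⟩
  filter_upwards [eventually_ge_atTop (1000 * (n + 1))] with M hM1
  have hbig : (1000 : ℝ) * (n + 1) ≤ M := by exact_mod_cast hM1
  have hn' : (2 : ℝ) ≤ n := by exact_mod_cast hn
  have hM : (0 : ℝ) < M := by linarith
  have hb : bt n = ((n : ℝ) - 1) / 2 := rfl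
  rw [hb]
  set x1 : ℝ := (3 / 4 - 55 / 1000) * M - ((n : ℝ) - 1) / 2 with hx1
  set x2 : ℝ := (3 / 4 + 55 / 1000) * M - ((n : ℝ) - 1) / 2 - 1 with hx2
  set x3 : ℝ := (1 / 2 + 150 / 1000) * M - ((n : ℝ) - 1) / 2 - 1 / 2 with hx3
  have p1 : 0 ≤ x1 := by rw [hx1]; linarith
  have p2 : 0 ≤ x2 := by rw [hx2]; linarith
  have p3 : 0 ≤ x3 := by rw [hx3]; linarith
  have c1 : x1 ≤ (⌈x1⌉₊ : ℝ) := Nat.le_ceil x1
  have c2 : (⌈x1⌉₊ : ℝ) < x1 + 1 := Nat.ceil_lt_add_one p1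
  have c3 : (⌊x2⌋₊ : ℝ) ≤ x2 := Nat.floor_le p2
  have c4 : x2 < (⌊x2⌋₊ : ℝ) + 1 := Nat.lt_floor_add_one x2
  have c5 : (⌊x3⌋₊ : ℝ) ≤ x3 := Nat.floor_le p3
  have c6 : x3 < (⌊x3⌋₊ : ℝ) + 1 := Nat.lt_floor_add_one x3
  have hle : ⌊x3⌋₊ + n ≤ M + 1 := by
    have : (⌊x3⌋₊ : ℝ) + n ≤ M + 1 := by linarith
    exact_mod_cast this
  have hbt : bt n = ((n : ℝ) - 1) / 2 := rfl
  constructor
  · omega
  · have h2 : ((M + 1 : ℕ) : ℝ) ≤ ((⌊x3⌋₊ + ⌊x3⌋₊ + n : ℕ) : ℝ) := by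
      push_cast
      linarith
    have h3 : M + 1 ≤ ⌊x3⌋₊ + ⌊x3⌋₊ + n := by exact_mod_cast h2
    omega
  · have h2 : (⌈x1⌉₊ : ℝ) ≤ (⌊x2⌋₊ : ℝ) := by
      linarith
    exact_mod_cast h2
  · rw [hbt, le_sub_iff_add_le, le_div_iff₀ hM]
    linarith
  · rw [hbt, sub_le_iff_le_add, div_le_iff₀ hM]
    linarith
  · rw [hbt, le_sub_iff_add_le, le_div_iff₀ hM]
    linarith
  · rw [hbt, sub_le_iff_le_add, div_le_iff₀ hM]
    linarith
  · rw [hbt, le_sub_iff_add_le, le_div_iff₀ hM]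
    linarith
  · rw [hbt, sub_le_iff_le_add, div_le_iff₀ hM]
    linarith
  · exact hM1

end Pool.Agent.H63.VC3
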