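import Pool.Agent.H63.VC3.Defs

/-! # Intermediate quantities -/

namespace Pool.Agent.H63.VC3

open Pool.Agent.H63.VC Complex

/-- The invariant as a sum over `k`, up to sign. -/
noncomputable def JN (r1 r2 : ℤ) (n g M : ℕ) : ℂ :=
  ∑ k ∈ Finset.range (M - g + 1), (T M n g k : ℂ) * (NN r1 n M k * NN r2 n M k)

/-- The contour integral for the `l`-sum. -/
noncomputable def PP (r : ℤ) (n M : ℕ) (y : ℂ) (ρ Y : ℝ) : ℂ :=
  Path (fun v => KK r n M y v * om n M v) ρ Y

/-- Its flat part. -/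
noncomputable def FL (r : ℤ) (n M : ℕ) (y : ℂ) (ρ Y : ℝ) : ℂ :=
  ∫ x in (-ρ)..ρ, KK r n M y (x + Y * I) * om n M (x + Y * I)

/-- The denominators of the weights. -/
noncomputable def Dg (n g M : ℕ) : ℝ := S M (g - 1) * S M (n - g - 1) * S M (n - 2)

/-- Right end of the `l`-window. -/
noncomputable def rho (n M l2 : ℕ) : ℝ := (l2 + 1 / 2 + bt n) / M - 1 / 2

end Pool.Agent.H63.VC3
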