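import Pool.Agent.H63.VC3.Defs

/-! # The factors `w` and `ω` -/

namespace Pool.Agent.H63.VC3

open Pool.Agent.H63.VC Complex Filter Topology

theorem norm_ww (n M : ℕ) (v : ℂ) : ‖ww n M v‖ = Real.exp (-(2 * Real.pi * M * v.im)) := by
  unfold ww
  rw [Complex.norm_exp]
  congr 1
  simp [Complex.mul_re, Complex.mul_im]
  ring

theorem om_flat (n M : ℕ) (v : ℂ) (h : 1 ≤ 2 * Real.pi * M * v.im) :
    ‖om n M v‖ ≤ 4 * Real.exp (-(2 * Real.pi * M * v.im)) := by
  unfold om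
  rw [norm_div, norm_pow]
  have h1 := norm_ww n M v
  have h2 : ‖ww n M v‖ ≤ 1 / 2 := by
    rw [h1]
    have h3 : Real.exp (-(2 * Real.pi * M * v.im)) ≤ Real.exp (-1) :=
      Real.exp_le_exp.2 (by linarith)
    have h4 : Real.exp (-1) ≤ 1 / 2 := by
      rw [Real.exp_neg]
      have := Real.add_one_le_exp (1 : ℝ)
      rw [inv_eq_one_div, div_le_div_iff₀ (Real.exp_pos 1) (by norm_num)]
      linarith
    linarith
  have h3 : 1 / 2 ≤ ‖1 - ww n M v‖ := by
    have := norm_sub_norm_le (1 : ℂ) (ww n M v)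
    rw [norm_one] at this
    linarith
  rw [div_le_iff₀ (by positivity), ← h1]
  have h4 : (1 / 2 : ℝ) ^ 2 ≤ ‖1 - ww n M v‖ ^ 2 := by gcongr
  nlinarith [norm_nonneg (ww n M v)]

theorem Om_ww_continuous (n M : ℕ) : Continuous (ww n M) := by
  unfold ww
  fun_prop

theorem om_continuousAt (n M : ℕ) (v : ℂ) (h : ww n M v ≠ 1) : ContinuousAt (om n M) v := by
  unfold om
  refine ContinuousAt.div (Om_ww_continuous n M).continuousAt
    ((continuousAt_const.sub (Om_ww_continuous n M).continuousAt).pow 2) ?_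
  exact pow_ne_zero 2 (sub_ne_zero.2 h.symm)

theorem Om_side_aux (n M : ℕ) (v : ℂ) (t : ℝ)
    (h : ww n M v = -(Real.exp (-(2 * Real.pi * M * t)) : ℂ)) :
    ‖om n M v‖ ≤ Real.exp (-(2 * Real.pi * M * t)) ∧ ww n M v ≠ 1 := by
  have hpos := Real.exp_pos (-(2 * Real.pi * M * t))
  set x := Real.exp (-(2 * Real.pi * M * t))
  have h1 : (1 : ℂ) - ww n M v = ((1 + x : ℝ) : ℂ) := by rw [h]; push_cast; ring
  constructor
  · unfold om
    rw [h1, h, norm_div, norm_pow, norm_neg, Complex.norm_of_nonneg hpos.le,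
      Complex.norm_of_nonneg (by positivity), div_le_iff₀ (by positivity)]
    nlinarith [sq_nonneg x, mul_pos hpos hpos]
  · intro hc
    rw [hc, sub_self] at h1
    have h2 : (1 + x : ℝ) = 0 := by exact_mod_cast h1.symm
    linarith

theorem Om_exp_half (k : ℤ) : Complex.exp (2 * Real.pi * I * (k + 1 / 2)) = -1 := by
  have : 2 * (Real.pi : ℂ) * I * (k + 1 / 2) = k * (2 * Real.pi * I) + Real.pi * I := by ring
  rw [this, Complex.exp_add, Complex.exp_int_mul_two_pi_mul_I, Complex.exp_pi_mul_I, one_mul]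

/-- On the vertical sides of the contour. -/
theorem om_side (n M l1 l2 : ℕ) (hM : 0 < M) (hl : l1 + l2 + n = M + 1) (t : ℝ) (ρ : ℝ)
    (hρ : ρ = (l2 + 1 / 2 + bt n) / M - 1 / 2) :
    ‖om n M (ρ + t * I)‖ ≤ Real.exp (-(2 * Real.pi * M * t)) ∧
    ‖om n M (-ρ + t * I)‖ ≤ Real.exp (-(2 * Real.pi * M * t)) ∧
    ww n M (ρ + t * I) ≠ 1 ∧ ww n M (-ρ + t * I) ≠ 1 := by
  have hM' : (M : ℂ) ≠ 0 := by exact_mod_cast hM.ne'
  have hMr : (M : ℝ) ≠ 0 := by exact_mod_cast hM.ne'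
  have h1 : ww n M (ρ + t * I) = -(Real.exp (-(2 * Real.pi * M * t)) : ℂ) := by
    unfold ww
    have e : 2 * (Real.pi : ℂ) * I * (M * ((ρ : ℂ) + t * I + 1 / 2) - bt n) =
        2 * Real.pi * I * (((l2 : ℤ) : ℂ) + 1 / 2) + ((-(2 * Real.pi * M * t) : ℝ) : ℂ) := by
      rw [hρ]
      push_cast
      field_simp
      ring_nf
      rw [Complex.I_sq]
      ring
    rw [e, Complex.exp_add, Om_exp_half, Complex.ofReal_exp]
    ring
  have h2 : ww n M (-ρ + t * I) = -(Real.exp (-(2 * Real.pi * M * t)) : ℂ) := by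
    unfold ww
    have hl' : (M : ℂ) = l1 + l2 + n - 1 := by
      have : ((l1 + l2 + n : ℕ) : ℂ) = ((M + 1 : ℕ) : ℂ) := by rw [hl]
      push_cast at this
      linear_combination -this
    have e : 2 * (Real.pi : ℂ) * I * (M * (-(ρ : ℂ) + t * I + 1 / 2) - bt n) =
        2 * Real.pi * I * ((((l1 : ℤ) - 1 : ℤ) : ℂ) + 1 / 2) +
          ((-(2 * Real.pi * M * t) : ℝ) : ℂ) := by
      have hMρ : (M : ℂ) * ρ = l2 + 1 / 2 + bt n - M / 2 := by
        rw [hρ]; push_cast; field_simp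
      have hb : (bt n : ℂ) = ((n : ℂ) - 1) / 2 := by unfold bt; push_cast; ring
      have e2 : (M : ℂ) * (-(ρ : ℂ) + t * I + 1 / 2) - bt n =
          (l1 - 1 + 1 / 2) + M * t * I := by
        have : (M : ℂ) * (-(ρ : ℂ) + t * I + 1 / 2) - bt n =
          -((M : ℂ) * ρ) + M * t * I + M / 2 - bt n := by ring
        rw [this, hMρ, hb]
        linear_combination hl'
      rw [e2]
      push_cast
      ring_nf
      rw [Complex.I_sq]
      ring
    rw [e, Complex.exp_add, Om_exp_half, Complex.ofReal_exp]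
    ring
  obtain ⟨a1, a2⟩ := Om_side_aux n M _ t h1
  obtain ⟨b1, b2⟩ := Om_side_aux n M _ t h2
  exact ⟨a1, b1, a2, b2⟩

theorem Om_tendsto (n : ℕ) (V : ℕ → ℂ) (Y : ℝ) (h : 0 < Y) (hV : ∀ M, (V M).im = Y) :
    Tendsto (fun M : ℕ => ww n M (V M)) atTop (𝓝 0) := by
  rw [tendsto_zero_iff_norm_tendsto_zero]
  simp_rw [norm_ww, hV]
  apply Real.tendsto_exp_atBot.comp
  apply Filter.tendsto_neg_atTop_atBot.comp
  have : Tendsto (fun M : ℕ => (2 * Real.pi * Y) * (M : ℝ)) atTop atTop :=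
    tendsto_natCast_atTop_atTop.const_mul_atTop (by positivity)
  refine this.congr fun M => ?_
  ring

/-- The normalized kernel `ω` for the main term. -/
theorem om_lim (n : ℕ) (V W : ℕ → ℂ) (Y1 Y2 : ℝ) (h1 : 0 < Y1) (h2 : 0 < Y2)
    (hV : ∀ M, (V M).im = Y1) (hW : ∀ M, (W M).im = Y2) :
    Tendsto (fun M : ℕ => om n M (V M) * om n M (W M) *
      exp (-M * (2 * Real.pi * I * (V M + W M)))) atTop (𝓝 1) := by
  have hA := Om_tendsto n V Y1 h1 hV
  have hB := Om_tendsto n W Y2 h2 hW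
  have hlim : Tendsto (fun M : ℕ => 1 / ((1 - ww n M (V M)) ^ 2 * (1 - ww n M (W M)) ^ 2))
      atTop (𝓝 (1 / ((1 - 0) ^ 2 * (1 - 0) ^ 2))) := by
    refine Tendsto.div tendsto_const_nhds ?_ (by norm_num)
    exact ((tendsto_const_nhds.sub hA).pow 2).mul ((tendsto_const_nhds.sub hB).pow 2)
  have h0 : (1 : ℂ) / ((1 - 0) ^ 2 * (1 - 0) ^ 2) = 1 := by norm_num
  rw [h0] at hlim
  refine hlim.congr fun M => ?_
  have key : ww n M (V M) * ww n M (W M) * exp (-M * (2 * Real.pi * I * (V M + W M))) = 1 := by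
    unfold ww
    rw [← Complex.exp_add, ← Complex.exp_add]
    have e : 2 * (Real.pi : ℂ) * I * (M * (V M + 1 / 2) - bt n) +
        2 * Real.pi * I * (M * (W M + 1 / 2) - bt n) + -M * (2 * Real.pi * I * (V M + W M)) =
        (((M : ℤ) - n + 1 : ℤ) : ℂ) * (2 * Real.pi * I) := by
      unfold bt; push_cast; ring
    rw [e, Complex.exp_int_mul_two_pi_mul_I]
  unfold om
  have : ww n M (V M) / (1 - ww n M (V M)) ^ 2 * (ww n M (W M) / (1 - ww n M (W M)) ^ 2) *
      exp (-M * (2 * Real.pi * I * (V M + W M))) =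
      (ww n M (V M) * ww n M (W M) * exp (-M * (2 * Real.pi * I * (V M + W M)))) /
        ((1 - ww n M (V M)) ^ 2 * (1 - ww n M (W M)) ^ 2) := by
    rw [div_mul_div_comm, div_mul_eq_mul_div]
  rw [this, key]

end Pool.Agent.H63.VC3
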