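import Pool.Agent.H63.VC3.CritA

/-! # Location of the critical point -/

namespace Pool.Agent.H63.VC3

open Pool.Agent.H63.VC Complex

private theorem CritB_norm_sin (z : ℂ) :
    ‖Complex.sin z‖ ^ 2 = Real.sin z.re ^ 2 + Real.sinh z.im ^ 2 := by
  have h : Complex.sin z = (Real.sin z.re * Real.cosh z.im : ℝ) +
      (Real.cos z.re * Real.sinh z.im : ℝ) * I := by
    rw [Complex.sin_eq]; push_cast; ring
  rw [Complex.sq_norm, h, Complex.normSq_add_mul_I]
  have h1 := Real.cosh_sq z.im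
  have h2 := Real.sin_sq_add_cos_sq z.re
  nlinarith only [h1, h2]

private theorem CritB_norm_cos (z : ℂ) :
    ‖Complex.cos z‖ ^ 2 = Real.cos z.re ^ 2 + Real.sinh z.im ^ 2 := by
  have h : Complex.cos z = (Real.cos z.re * Real.cosh z.im : ℝ) +
      (-(Real.sin z.re * Real.sinh z.im) : ℝ) * I := by
    rw [Complex.cos_eq]; push_cast; ring
  rw [Complex.sq_norm, h, Complex.normSq_add_mul_I]
  have h1 := Real.cosh_sq z.im
  have h2 := Real.sin_sq_add_cos_sq z.re
  nlinarith [h1, h2]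

/-- the second difference -/
private theorem CritB_sd {S : Set ℂ} (hS : Convex ℝ S) {f f' f'' : ℂ → ℂ}
    (hf : ∀ z ∈ S, HasDerivAt f (f' z) z) (hf' : ∀ z ∈ S, HasDerivAt f' (f'' z) z) {B : ℝ}
    (hB : ∀ z ∈ S, ‖f'' z‖ ≤ B) {y v : ℂ} (h1 : y - v ∈ S) (h2 : y + v ∈ S) :
    ‖f (y - v) + f (y + v) - 2 * f y‖ ≤ B * ‖v‖ ^ 2 := by
  have hmem : ∀ s : ℝ, s ∈ Set.Icc (0 : ℝ) 1 → y - s * v ∈ S ∧ y + s * v ∈ S := by
    intro s hs
    constructor
    · have := hS h1 h2 (a := (1 + s) / 2) (b := (1 - s) / 2) (by linarith [hs.1]) (by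
        linarith [hs.2]) (by ring)
      convert this using 1
      simp only [real_smul]
      push_cast
      ring
    · have := hS h1 h2 (a := (1 - s) / 2) (b := (1 + s) / 2) (by linarith [hs.2]) (by
        linarith [hs.1]) (by ring)
      convert this using 1
      simp only [real_smul]
      push_cast
      ring
  have hder : ∀ s : ℝ, s ∈ Set.Icc (0 : ℝ) 1 →
      HasDerivAt (fun s : ℝ => f (y - s * v) + f (y + s * v) - 2 * f y)
        (v * (f' (y + s * v) - f' (y - s * v))) s := by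
    intro s hs
    obtain ⟨m1, m2⟩ := hmem s hs
    have a1 : HasDerivAt (fun s : ℝ => (y - s * v : ℂ)) (-v) s := by
      have := ((hasDerivAt_id s).ofReal_comp.mul_const v).const_sub y
      simpa using this
    have a2 : HasDerivAt (fun s : ℝ => (y + s * v : ℂ)) v s := by
      have := ((hasDerivAt_id s).ofReal_comp.mul_const v).const_add y
      simpa using this
    have b1 := (hf _ m1).comp s a1
    have b2 := (hf _ m2).comp s a2
    have b3 := (b1.add b2).sub_const (2 * f y)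
    exact b3.congr_deriv (by ring)
  have hbd : ∀ s : ℝ, s ∈ Set.Icc (0 : ℝ) 1 →
      ‖v * (f' (y + s * v) - f' (y - s * v))‖ ≤ 2 * (B * ‖v‖ ^ 2) * s := by
    intro s hs
    obtain ⟨m1, m2⟩ := hmem s hs
    have h3 := hS.norm_image_sub_le_of_norm_hasDerivWithin_le
      (fun z hz => (hf' z hz).hasDerivWithinAt) hB m1 m2
    have h4 : y + s * v - (y - s * v) = 2 * s * v := by ring
    rw [h4, norm_mul, norm_mul, norm_real, Real.norm_eq_abs, abs_of_nonneg hs.1] at h3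
    rw [norm_mul]
    simp only [Complex.norm_ofNat] at h3
    calc ‖v‖ * ‖f' (y + s * v) - f' (y - s * v)‖ ≤ ‖v‖ * (B * (2 * s * ‖v‖)) :=
          mul_le_mul_of_nonneg_left h3 (norm_nonneg _)
      _ = 2 * (B * ‖v‖ ^ 2) * s := by ring
  have key := image_norm_le_of_norm_deriv_right_le_deriv_boundary (a := 0) (b := 1)
    (B := fun s => B * ‖v‖ ^ 2 * s ^ 2) (B' := fun s => 2 * (B * ‖v‖ ^ 2) * s)
    (fun s hs => (hder s hs).continuousAt.continuousWithinAt)
    (fun s hs => (hder s ⟨hs.1, hs.2.le⟩).hasDerivWithinAt) (by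
      simp
      ring_nf)
    (fun s => by
      have := (hasDerivAt_pow 2 s).const_mul (B * ‖v‖ ^ 2)
      exact this.congr_deriv (by norm_num; ring)) (fun s hs => hbd s ⟨hs.1, hs.2.le⟩) (Set.right_mem_Icc.2 zero_le_one)
  simpa using key

/-- the third difference -/
private theorem CritB_td {S : Set ℂ} (hS : Convex ℝ S) {f f' f'' f3 : ℂ → ℂ}
    (hf : ∀ z ∈ S, HasDerivAt f (f' z) z) (hf' : ∀ z ∈ S, HasDerivAt f' (f'' z) z)
    (hf'' : ∀ z ∈ S, HasDerivAt f'' (f3 z) z) {B : ℝ}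
    (hB : ∀ z ∈ S, ‖f3 z‖ ≤ B) {y v : ℂ} (h1 : y - v ∈ S) (h2 : y + v ∈ S) :
    ‖f (y - v) - f (y + v) + 2 * v * f' y‖ ≤ B / 3 * ‖v‖ ^ 3 := by
  have hmem : ∀ s : ℝ, s ∈ Set.Icc (0 : ℝ) 1 → y - s * v ∈ S ∧ y + s * v ∈ S := by
    intro s hs
    constructor
    · have := hS h1 h2 (a := (1 + s) / 2) (b := (1 - s) / 2) (by linarith [hs.1]) (by
        linarith [hs.2]) (by ring)
      convert this using 1
      simp only [real_smul]
      push_cast
      ring
    · have := hS h1 h2 (a := (1 - s) / 2) (b := (1 + s) / 2) (by linarith [hs.2]) (by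
        linarith [hs.1]) (by ring)
      convert this using 1
      simp only [real_smul]
      push_cast
      ring
  have hder : ∀ s : ℝ, s ∈ Set.Icc (0 : ℝ) 1 →
      HasDerivAt (fun s : ℝ => f (y - s * v) - f (y + s * v) + 2 * (s * v) * f' y)
        (-v * (f' (y - s * v) + f' (y + s * v) - 2 * f' y)) s := by
    intro s hs
    obtain ⟨m1, m2⟩ := hmem s hs
    have a1 : HasDerivAt (fun s : ℝ => (y - s * v : ℂ)) (-v) s := by
      have := ((hasDerivAt_id s).ofReal_comp.mul_const v).const_sub y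
      simpa using this
    have a2 : HasDerivAt (fun s : ℝ => (y + s * v : ℂ)) v s := by
      have := ((hasDerivAt_id s).ofReal_comp.mul_const v).const_add y
      simpa using this
    have a3 : HasDerivAt (fun s : ℝ => (2 * (s * v) * f' y : ℂ)) (2 * v * f' y) s := by
      have := (((hasDerivAt_id s).ofReal_comp.mul_const v).const_mul 2).mul_const (f' y)
      simpa using this
    have b1 := (hf _ m1).comp s a1
    have b2 := (hf _ m2).comp s a2
    have b3 := (b1.sub b2).add a3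
    exact b3.congr_deriv (by ring)
  have hbd : ∀ s : ℝ, s ∈ Set.Icc (0 : ℝ) 1 →
      ‖-v * (f' (y - s * v) + f' (y + s * v) - 2 * f' y)‖ ≤ B * ‖v‖ ^ 3 * s ^ 2 := by
    intro s hs
    obtain ⟨m1, m2⟩ := hmem s hs
    have h3 := CritB_sd hS hf' hf'' hB m1 m2
    rw [norm_mul, norm_real, Real.norm_eq_abs, abs_of_nonneg hs.1] at h3
    rw [norm_mul, norm_neg]
    calc ‖v‖ * ‖f' (y - s * v) + f' (y + s * v) - 2 * f' y‖ ≤ ‖v‖ * (B * (s * ‖v‖) ^ 2) :=
          mul_le_mul_of_nonneg_left h3 (norm_nonneg _)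
      _ = B * ‖v‖ ^ 3 * s ^ 2 := by ring
  have key := image_norm_le_of_norm_deriv_right_le_deriv_boundary (a := 0) (b := 1)
    (B := fun s => B / 3 * ‖v‖ ^ 3 * s ^ 3) (B' := fun s => B * ‖v‖ ^ 3 * s ^ 2)
    (fun s hs => (hder s hs).continuousAt.continuousWithinAt)
    (fun s hs => (hder s ⟨hs.1, hs.2.le⟩).hasDerivWithinAt) (by simp)
    (fun s => by
      have := (hasDerivAt_pow 3 s).const_mul (B / 3 * ‖v‖ ^ 3)
      exact this.congr_deriv (by norm_num; ring)) (fun s hs => hbd s ⟨hs.1, hs.2.le⟩) (Set.right_mem_Icc.2 zero_le_one)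
  simpa using key

/-- the derivative of `hh` and its derivatives -/
private noncomputable def CritB_F (z : ℂ) : ℂ := Real.pi * Complex.cot (Real.pi * z)

private noncomputable def CritB_F1 (z : ℂ) : ℂ := -(Real.pi : ℂ) ^ 2 / Complex.sin (Real.pi * z) ^ 2

private noncomputable def CritB_F2 (z : ℂ) : ℂ :=
  2 * (Real.pi : ℂ) ^ 3 * Complex.cos (Real.pi * z) / Complex.sin (Real.pi * z) ^ 3

private theorem CritB_F_deriv {z : ℂ} (h : Complex.sin (Real.pi * z) ≠ 0) :
    HasDerivAt CritB_F (CritB_F1 z) z := by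
  have h0 : HasDerivAt (fun z : ℂ => (Real.pi : ℂ) * z) (Real.pi : ℂ) z := by
    simpa using (hasDerivAt_id z).const_mul (Real.pi : ℂ)
  have h1 := h0.ccos
  have h2 := h0.csin
  have h3 := (h1.div h2 h).const_mul (Real.pi : ℂ)
  have h4 : CritB_F = fun z : ℂ => (Real.pi : ℂ) * (Complex.cos (Real.pi * z) /
      Complex.sin (Real.pi * z)) := by
    funext z
    rw [CritB_F, Complex.cot]
  rw [h4]
  refine h3.congr_deriv ?_
  rw [CritB_F1]
  have h5 := Complex.sin_sq_add_cos_sq (Real.pi * z)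
  generalize Complex.sin (Real.pi * z) = s at h h5 ⊢
  generalize Complex.cos (Real.pi * z) = c at h5 ⊢
  field_simp
  linear_combination (-1 : ℂ) * h5

private theorem CritB_F1_deriv {z : ℂ} (h : Complex.sin (Real.pi * z) ≠ 0) :
    HasDerivAt CritB_F1 (CritB_F2 z) z := by
  have h0 : HasDerivAt (fun z : ℂ => (Real.pi : ℂ) * z) (Real.pi : ℂ) z := by
    simpa using (hasDerivAt_id z).const_mul (Real.pi : ℂ)
  have h2 := h0.csin.pow 2
  have h3 := (hasDerivAt_const z (-(Real.pi : ℂ) ^ 2)).div h2 (pow_ne_zero 2 h)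
  refine h3.congr_deriv ?_
  rw [CritB_F2]
  simp only [Pi.pow_apply]
  generalize Complex.sin (Real.pi * z) = s at h ⊢
  generalize Complex.cos (Real.pi * z) = c
  field_simp
  push_cast
  ring

private theorem CritB_sin_lower {c : ℝ} (hc : c = 1 / 4 ∨ c = 3 / 4) {z : ℂ} {R : ℝ}
    (h : |z.re - c| ≤ R) :
    (1 - 2 * Real.pi * R) / 2 ≤ ‖Complex.sin (Real.pi * z)‖ ^ 2 := by
  rw [CritB_norm_sin]
  have h1 : ((Real.pi : ℂ) * z).re = Real.pi * z.re := by simp
  rw [h1, Real.sin_sq_eq_half_sub]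
  have h2 : Real.cos (2 * (Real.pi * z.re)) ≤ 2 * Real.pi * R := by
    have h3 : |Real.sin (2 * Real.pi * (z.re - c))| ≤ 2 * Real.pi * R := by
      refine Real.abs_sin_le_abs.trans ?_
      rw [abs_mul, abs_of_pos (by positivity)]
      exact mul_le_mul_of_nonneg_left h (by positivity)
    rcases hc with rfl | rfl
    · have e : 2 * (Real.pi * z.re) = 2 * Real.pi * (z.re - 1 / 4) + Real.pi / 2 := by ring
      rw [e, Real.cos_add_pi_div_two]
      linarith [neg_abs_le (Real.sin (2 * Real.pi * (z.re - 1 / 4)))]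
    · have e : 2 * (Real.pi * z.re) = 2 * Real.pi * (z.re - 3 / 4) + Real.pi / 2 + Real.pi := by
        ring
      rw [e, Real.cos_add_pi, Real.cos_add_pi_div_two, neg_neg]
      exact (le_abs_self _).trans h3
  nlinarith [sq_nonneg (Real.sinh ((Real.pi : ℂ) * z).im)]

private theorem CritB_F1_le {c : ℝ} (hc : c = 1 / 4 ∨ c = 3 / 4) {z : ℂ} {R : ℝ}
    (hR : 2 * Real.pi * R < 1) (h : |z.re - c| ≤ R) :
    Complex.sin (Real.pi * z) ≠ 0 ∧ ‖CritB_F1 z‖ ≤ 2 * Real.pi ^ 2 / (1 - 2 * Real.pi * R) := by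
  have h1 := CritB_sin_lower hc h
  have h2 : 0 < ‖Complex.sin (Real.pi * z)‖ ^ 2 := by linarith
  refine ⟨fun h3 => by rw [h3] at h2; simp at h2, ?_⟩
  rw [CritB_F1, norm_div, norm_neg, norm_pow, norm_pow, norm_real, Real.norm_eq_abs, sq_abs]
  rw [div_le_div_iff₀ h2 (by linarith)]
  nlinarith [sq_nonneg Real.pi]

/-- bound for the second derivative -/
private theorem CritB_F2_le {z : ℂ} (h : |z.re - 1 / 4| ≤ 65 / 1000) (h' : |z.im| ≤ 65 / 1000) :
    ‖CritB_F2 z‖ ≤ 340 := by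
  have hp1 := Real.pi_gt_d4
  have hp2 := Real.pi_lt_d4
  have h1 := CritB_sin_lower (Or.inl rfl) h
  have h1' : (2957 / 10000 : ℝ) ≤ ‖Complex.sin (Real.pi * z)‖ ^ 2 := by linarith only [hp2, h1]
  have h2 : ‖Complex.cos (Real.pi * z)‖ ^ 2 ≤ 7479 / 10000 := by
    rw [CritB_norm_cos]
    have e1 : ((Real.pi : ℂ) * z).re = Real.pi * z.re := by simp
    have e2 : ((Real.pi : ℂ) * z).im = Real.pi * z.im := by simp
    rw [e1, e2, Real.cos_sq]
    have h3 : |Real.sin (2 * Real.pi * (z.re - 1 / 4))| ≤ 2 * Real.pi * (65 / 1000) := by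
      refine Real.abs_sin_le_abs.trans ?_
      rw [abs_mul, abs_of_pos (by positivity)]
      exact mul_le_mul_of_nonneg_left h (by positivity)
    have e : 2 * (Real.pi * z.re) = 2 * Real.pi * (z.re - 1 / 4) + Real.pi / 2 := by ring
    rw [e, Real.cos_add_pi_div_two]
    have h4 := neg_abs_le (Real.sin (2 * Real.pi * (z.re - 1 / 4)))
    have h5 : Real.sinh (Real.pi * z.im) ^ 2 ≤ 436 / 10000 := by
      have h6 := Real.cosh_sq (Real.pi * z.im)
      have h7 := Real.cosh_le_exp_half_sq (Real.pi * z.im)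
      have h8 : (Real.pi * z.im) ^ 2 ≤ 4171 / 100000 := by
        have h9 : |Real.pi * z.im| ≤ 2042041 / 10000000 := by
          rw [abs_mul, abs_of_pos Real.pi_pos]
          nlinarith only [h', hp1, hp2]
        rw [← sq_abs]
        nlinarith only [hp1, h9, abs_nonneg (Real.pi * z.im)]
      have h10 : Real.cosh (Real.pi * z.im) ^ 2 ≤ Real.exp ((Real.pi * z.im) ^ 2) := by
        have h11 : Real.exp ((Real.pi * z.im) ^ 2) = Real.exp ((Real.pi * z.im) ^ 2 / 2) ^ 2 := by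
          rw [← Real.exp_nat_mul]
          congr 1
          push_cast
          ring
        rw [h11]
        exact pow_le_pow_left₀ (Real.cosh_pos _).le h7 2
      have h12 := Real.add_one_le_exp (-(Real.pi * z.im) ^ 2)
      have h13 : Real.exp ((Real.pi * z.im) ^ 2) * Real.exp (-(Real.pi * z.im) ^ 2) = 1 := by
        rw [← Real.exp_add]
        simp
      have h14 := Real.exp_pos ((Real.pi * z.im) ^ 2)
      have h15 : Real.exp ((Real.pi * z.im) ^ 2) ≤ 10436 / 10000 := by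
        by_contra hcon
        rw [not_le] at hcon
        have h16 : (95829 / 100000 : ℝ) ≤ Real.exp (-(Real.pi * z.im) ^ 2) := by linarith only [h8, h12]
        nlinarith only [h8, h10, h12, h13, hcon]
      linarith
    nlinarith only [hp2, h3, h4, h5]
  have h3 : ‖CritB_F2 z‖ ^ 2 ≤ 340 ^ 2 := by
    rw [CritB_F2, norm_div, norm_mul, norm_mul, norm_pow, norm_pow, norm_real, Real.norm_eq_abs,
      abs_of_pos Real.pi_pos, div_pow, mul_pow, mul_pow, ← pow_mul, ← pow_mul]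
    simp only [Complex.norm_ofNat]
    have h4 : ‖Complex.sin (Real.pi * z)‖ ^ (3 * 2) = (‖Complex.sin (Real.pi * z)‖ ^ 2) ^ 3 := by
      ring
    have h5 : (2957 / 10000 : ℝ) ^ 3 ≤ (‖Complex.sin (Real.pi * z)‖ ^ 2) ^ 3 :=
      pow_le_pow_left₀ (by norm_num) h1' 3
    have h6 : Real.pi ^ (3 * 2) ≤ (31416 / 10000 : ℝ) ^ 6 :=
      pow_le_pow_left₀ Real.pi_pos.le (by linarith) 6
    rw [h4, div_le_iff₀ (by positivity)]
    have h7 : (2 : ℝ) ^ 2 * Real.pi ^ (3 * 2) * ‖Complex.cos (Real.pi * z)‖ ^ 2 ≤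
        (2 : ℝ) ^ 2 * (31416 / 10000 : ℝ) ^ 6 * (7479 / 10000) := by
      apply mul_le_mul _ h2 (by positivity) (by positivity)
      exact mul_le_mul_of_nonneg_left h6 (by norm_num)
    refine h7.trans (le_trans ?_ (mul_le_mul_of_nonneg_left h5 (by norm_num)))
    norm_num
  exact le_of_sq_le_sq h3 (by norm_num)

private theorem CritB_convex (c R : ℝ) : Convex ℝ {z : ℂ | |z.re - c| ≤ R} := by
  have h : {z : ℂ | |z.re - c| ≤ R} = Complex.reLm ⁻¹' Set.Icc (c - R) (c + R) := by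
    ext z
    simp only [Set.mem_ofPred_eq, Set.mem_preimage, Complex.reLm_coe, Set.mem_Icc, abs_le]
    constructor
    · rintro ⟨h1, h2⟩
      constructor <;> linarith
    · rintro ⟨h1, h2⟩
      constructor <;> linarith
  rw [h]
  exact (convex_Icc _ _).linear_preimage _

private theorem CritB_convex' (R : ℝ) : Convex ℝ {z : ℂ | |z.im| ≤ R} := by
  have h : {z : ℂ | |z.im| ≤ R} = Complex.imLm ⁻¹' Set.Icc (-R) R := by
    ext z
    simp only [Set.mem_ofPred_eq, Set.mem_preimage, Complex.imLm_coe, Set.mem_Icc, abs_le]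
  rw [h]
  exact (convex_Icc _ _).linear_preimage _

private theorem CritB_re_le {z : ℂ} {c d : ℝ} (h : ‖z - c‖ ≤ d) : |z.re - c| ≤ d := by
  have := abs_re_le_norm (z - c)
  simp only [sub_re, ofReal_re] at this
  exact this.trans h

private theorem CritB_F_quarter : CritB_F ((1 / 4 : ℝ) : ℂ) = Real.pi := by
  rw [CritB_F, Complex.cot]
  have e : (Real.pi : ℂ) * ((1 / 4 : ℝ) : ℂ) = ((Real.pi / 4 : ℝ) : ℂ) := by push_cast; ring
  rw [e, ← Complex.ofReal_cos, ← Complex.ofReal_sin, Real.cos_pi_div_four, Real.sin_pi_div_four,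
    div_self, mul_one]
  have : (0 : ℝ) < √2 / 2 := by positivity
  exact_mod_cast this.ne'

private theorem CritB_F_three : CritB_F ((3 / 4 : ℝ) : ℂ) = -Real.pi := by
  rw [CritB_F, Complex.cot]
  have e : (Real.pi : ℂ) * ((3 / 4 : ℝ) : ℂ) = ((Real.pi - Real.pi / 4 : ℝ) : ℂ) := by
    push_cast; ring
  rw [e, ← Complex.ofReal_cos, ← Complex.ofReal_sin, Real.cos_pi_sub, Real.sin_pi_sub,
    Real.cos_pi_div_four, Real.sin_pi_div_four]
  have : (0 : ℝ) < √2 / 2 := by positivity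
  have h : ((√2 / 2 : ℝ) : ℂ) ≠ 0 := by exact_mod_cast this.ne'
  rw [Complex.ofReal_neg, neg_div, div_self h]
  ring

private theorem CritB_num16 : 2 * Real.pi ^ 2 / (1 - 2 * Real.pi * (16 / 1000)) ≤ 2195 / 100 := by
  have hp1 := Real.pi_gt_d4
  have hp2 := Real.pi_lt_d4
  rw [div_le_iff₀ (by linarith)]
  nlinarith

private theorem CritB_num71 : 2 * Real.pi ^ 2 / (1 - 2 * Real.pi * (71 / 1000)) ≤ 3565 / 100 := by
  have hp1 := Real.pi_gt_d4
  have hp2 := Real.pi_lt_d4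
  rw [div_le_iff₀ (by linarith)]
  nlinarith only [hp1, hp2]

private theorem CritB_F_near {c : ℝ} (hc : c = 1 / 4 ∨ c = 3 / 4) {z : ℂ}
    (h : ‖z - c‖ ≤ 16 / 1000) : ‖CritB_F z - CritB_F c‖ ≤ 2195 / 100 * ‖z - c‖ := by
  have hp2 := Real.pi_lt_d4
  refine (CritB_convex c (16 / 1000)).norm_image_sub_le_of_norm_hasDerivWithin_le
    (f' := CritB_F1) (fun w hw => ?_) (fun w hw => ?_) (x := (c : ℂ)) (by simp; norm_num)
    (CritB_re_le h)
  · exact (CritB_F_deriv (CritB_F1_le hc (by linarith) hw).1).hasDerivWithinAt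
  · exact (CritB_F1_le hc (by linarith) hw).2.trans CritB_num16

private theorem CritB_y {y v w : ℂ}
    (ey : 4 * hh (y + 1 / 2) = hh (y - v) + hh (y + v) + hh (y - w) + hh (y + w))
    (hy : ‖y - 1 / 4‖ ≤ 16 / 1000) (hv : ‖v‖ ≤ 55 / 1000) (hw : ‖w‖ ≤ 55 / 1000) :
    ‖y - 1 / 4‖ ≤ 1 / 100 := by
  have hp1 := Real.pi_gt_d4
  have hp2 := Real.pi_lt_d4
  have e14 : ((1 / 4 : ℝ) : ℂ) = 1 / 4 := by push_cast; ring
  have hy' : ‖y - ((1 / 4 : ℝ) : ℂ)‖ ≤ 16 / 1000 := by rw [e14]; exact hy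
  -- second differences
  have hsd : ∀ u : ℂ, ‖u‖ ≤ 55 / 1000 →
      ‖hh (y - u) + hh (y + u) - 2 * hh y‖ ≤ 10785 / 100000 := by
    intro u hu
    have hS := CritB_convex (1 / 4) (71 / 1000)
    have hre := CritB_re_le hy'
    have hu' := abs_re_le_norm u
    have hreu := abs_le.1 (hu'.trans hu)
    rw [abs_le] at hre
    have h := CritB_sd (f := hh) (f' := CritB_F) (f'' := CritB_F1) hS
      (fun z hz => by
        have h1 := abs_le.1 (show |z.re - 1 / 4| ≤ 71 / 1000 from hz)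
        exact hh_hasDerivAt z (by linarith only [h1.1]) (by linarith only [h1.2]))
      (fun z hz => CritB_F_deriv (CritB_F1_le (Or.inl rfl) (by linarith only [hp2]) hz).1)
      (B := 3565 / 100)
      (fun z hz => (CritB_F1_le (Or.inl rfl) (by linarith only [hp2]) hz).2.trans CritB_num71)
      (y := y) (v := u) (by
        show |(y - u).re - 1 / 4| ≤ 71 / 1000
        rw [sub_re, abs_le]
        constructor <;> linarith [hreu.1, hreu.2, hre.1, hre.2]) (by
        show |(y + u).re - 1 / 4| ≤ 71 / 1000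
        rw [add_re, abs_le]
        constructor <;> linarith only [hreu.1, hre.1, hreu.2, hre.2])
    refine h.trans ?_
    nlinarith only [hu, norm_nonneg u]
  -- the linear part
  have hN := (convex_closedBall ((1 / 4 : ℝ) : ℂ) (16 / 1000)
      ).norm_image_sub_le_of_norm_hasDerivWithin_le (𝕜 := ℂ)
    (f := fun z => 4 * hh (z + 1 / 2) - 4 * hh z + 8 * Real.pi * z)
    (f' := fun z => 4 * CritB_F (z + 1 / 2) - 4 * CritB_F z + 8 * Real.pi)
    (C := 8 * (2195 / 100) * (16 / 1000)) (fun z hz => by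
      have hz' : ‖z - ((1 / 4 : ℝ) : ℂ)‖ ≤ 16 / 1000 := by
        rwa [Metric.mem_closedBall, dist_eq_norm] at hz
      have h1 := abs_le.1 (CritB_re_le hz')
      have h2 : HasDerivAt (fun z : ℂ => hh (z + 1 / 2)) (CritB_F (z + 1 / 2)) z := by
        have h3 : HasDerivAt hh (CritB_F (z + 1 / 2)) (z + 1 / 2) :=
          hh_hasDerivAt _ (by simp; linarith [h1.1]) (by simp; linarith only [h1.2])
        exact h3.comp_add_const z (1 / 2)
      have h5 : HasDerivAt hh (CritB_F z) z :=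
        hh_hasDerivAt _ (by linarith [h1.1]) (by linarith only [h1.2])
      have h6 : HasDerivAt (fun z : ℂ => 8 * Real.pi * z) (8 * Real.pi) z := by
        simpa using (hasDerivAt_id z).const_mul (8 * Real.pi : ℂ)
      exact (((h2.const_mul 4).sub (h5.const_mul 4)).add h6).hasDerivWithinAt) (fun z hz => by
      have hz' : ‖z - ((1 / 4 : ℝ) : ℂ)‖ ≤ 16 / 1000 := by
        rwa [Metric.mem_closedBall, dist_eq_norm] at hz
      have h1 := CritB_F_near (Or.inl rfl) hz'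
      have h2 : ‖(z + 1 / 2) - ((3 / 4 : ℝ) : ℂ)‖ ≤ 16 / 1000 := by
        have e : (z + 1 / 2) - ((3 / 4 : ℝ) : ℂ) = z - ((1 / 4 : ℝ) : ℂ) := by push_cast; ring
        rw [e]; exact hz'
      have h3 := CritB_F_near (Or.inr rfl) h2
      rw [CritB_F_quarter] at h1
      rw [CritB_F_three] at h3
      have h4 : 4 * CritB_F (z + 1 / 2) - 4 * CritB_F z + 8 * Real.pi =
          4 * (CritB_F (z + 1 / 2) - -Real.pi) - 4 * (CritB_F z - Real.pi) := by ring
      rw [h4]
      refine (norm_sub_le _ _).trans ?_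
      rw [norm_mul, norm_mul]
      simp only [Complex.norm_ofNat]
      linarith only [hz', h1, h2, h3])
    (x := ((1 / 4 : ℝ) : ℂ)) (y := y) (by simp; norm_num) (by
      rw [Metric.mem_closedBall, dist_eq_norm]; exact hy')
  have hh34 : hh (((1 / 4 : ℝ) : ℂ) + 1 / 2) = hh ((1 / 4 : ℝ) : ℂ) := by
    have e : ((1 / 4 : ℝ) : ℂ) + 1 / 2 = ((3 / 4 : ℝ) : ℂ) := by push_cast; ring
    rw [e, hh_real _ (by norm_num) (by norm_num), hh_real _ (by norm_num) (by norm_num)]
    have e2 : Real.pi * (3 / 4) = Real.pi - Real.pi * (1 / 4) := by ring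
    rw [e2, Real.sin_pi_sub]
  rw [hh34] at hN
  have hE : 4 * hh (y + 1 / 2) - 4 * hh y = (hh (y - v) + hh (y + v) - 2 * hh y) +
      (hh (y - w) + hh (y + w) - 2 * hh y) := by
    rw [ey]; ring
  have e1 : 8 * Real.pi * (y - ((1 / 4 : ℝ) : ℂ)) =
      ((4 * hh (y + 1 / 2) - 4 * hh y + 8 * Real.pi * y) -
        (4 * hh ((1 / 4 : ℝ) : ℂ) - 4 * hh ((1 / 4 : ℝ) : ℂ) + 8 * Real.pi * ((1 / 4 : ℝ) : ℂ))) -
      ((hh (y - v) + hh (y + v) - 2 * hh y) + (hh (y - w) + hh (y + w) - 2 * hh y)) := by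
    rw [← hE]; ring
  have e2 : ‖(8 * Real.pi : ℂ) * (y - ((1 / 4 : ℝ) : ℂ))‖ =
      8 * Real.pi * ‖y - ((1 / 4 : ℝ) : ℂ)‖ := by
    rw [norm_mul, norm_mul, norm_real, Real.norm_eq_abs, abs_of_pos Real.pi_pos]
    simp only [Complex.norm_ofNat]
  have h5 := hsd v hv
  have h6 := hsd w hw
  have h7 : 8 * Real.pi * ‖y - ((1 / 4 : ℝ) : ℂ)‖ ≤
      8 * (2195 / 100) * (16 / 1000) * ‖y - ((1 / 4 : ℝ) : ℂ)‖ +
        (10785 / 100000 + 10785 / 100000) := by
    rw [← e2, e1]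
    refine (norm_sub_le _ _).trans (add_le_add hN ((norm_add_le _ _).trans (add_le_add h5 h6)))
  rw [← e14]
  nlinarith only [hp1, h7]

private theorem CritB_v (r : ℤ) (hr : 10 ≤ |r|) {y v : ℂ} (hy : ‖y - 1 / 4‖ ≤ 1 / 100)
    (ev : 2 * Real.pi * I * (2 * r * v + 1) + hh (y - v) - hh (y + v) = 0)
    (hv : ‖v + 1 / (2 * r)‖ ≤ 1 / (2 * (r : ℝ) ^ 2)) :
    ‖v + 1 / (2 * r)‖ ≤ 3 / (10 * (r : ℝ) ^ 2) ∧ 0 < v.im ∧ |v.re| < 2 / (4 * |(r : ℝ)| - 1) := by
  have hp1 := Real.pi_gt_d4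
  have hp2 := Real.pi_lt_d4
  have e14 : ((1 / 4 : ℝ) : ℂ) = 1 / 4 := by push_cast; ring
  have hy' : ‖y - ((1 / 4 : ℝ) : ℂ)‖ ≤ 1 / 100 := by rw [e14]; exact hy
  set ρ : ℝ := |(r : ℝ)| with hρ
  have hρ10 : 10 ≤ ρ := by rw [hρ]; exact_mod_cast hr
  have hρ2 : (r : ℝ) ^ 2 = ρ ^ 2 := by rw [hρ, sq_abs]
  have hr0 : (r : ℂ) ≠ 0 := by
    intro h
    have : r = 0 := by exact_mod_cast h
    rw [this] at hr
    simp at hr
  have hnr : ‖(r : ℂ)‖ = ρ := by rw [hρ, Complex.norm_intCast]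
  rw [hρ2] at hv ⊢
  set δ : ℝ := ‖v + 1 / (2 * r)‖ with hδ
  have hδ0 : 0 ≤ δ := norm_nonneg _
  have hn1 : ‖(1 / (2 * r) : ℂ)‖ = 1 / (2 * ρ) := by
    rw [norm_div, norm_mul, hnr]
    simp
  have hvn : ‖v‖ ≤ δ + 1 / (2 * ρ) := by
    have : v = (v + 1 / (2 * r)) - 1 / (2 * r) := by ring
    calc ‖v‖ = ‖(v + 1 / (2 * r)) - 1 / (2 * r)‖ := by rw [← this]
      _ ≤ _ := (norm_sub_le _ _).trans (by rw [hn1])
  have hb1 : 1 / (2 * ρ) ≤ 1 / 20 := by
    rw [div_le_div_iff₀ (by positivity) (by norm_num)]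
    linarith
  have hb2 : 1 / (2 * ρ ^ 2) ≤ 1 / 200 := by
    rw [div_le_div_iff₀ (by positivity) (by norm_num)]
    nlinarith only [hρ10]
  have hv55 : ‖v‖ ≤ 55 / 1000 := by linarith only [hv, hvn, hb1, hb2]
  -- third difference
  have hre := abs_le.1 (CritB_re_le hy')
  have him : |y.im| ≤ 1 / 100 := by
    have := abs_im_le_norm (y - ((1 / 4 : ℝ) : ℂ))
    simp only [sub_im, ofReal_im, sub_zero] at this
    exact this.trans hy'
  have him' := abs_le.1 him
  have hvre := abs_le.1 ((abs_re_le_norm v).trans hv55)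
  have hvim := abs_le.1 ((abs_im_le_norm v).trans hv55)
  have htd := CritB_td (f := hh) (f' := CritB_F) (f'' := CritB_F1) (f3 := CritB_F2)
      ((CritB_convex (1 / 4) (65 / 1000)).inter (CritB_convex' (65 / 1000)))
      (fun z hz => by
        have h1 := abs_le.1 (show |z.re - 1 / 4| ≤ 65 / 1000 from hz.1)
        exact hh_hasDerivAt z (by linarith only [h1.1]) (by linarith only [hp2, h1]))
      (fun z hz => CritB_F_deriv (CritB_F1_le (Or.inl rfl) (by linarith only [hp2]) hz.1).1)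
      (fun z hz => CritB_F1_deriv (CritB_F1_le (Or.inl rfl) (by linarith only [hp2]) hz.1).1)
      (B := 340) (fun z hz => CritB_F2_le hz.1 hz.2)
      (y := y) (v := v) (by
        constructor
        · show |(y - v).re - 1 / 4| ≤ 65 / 1000
          rw [sub_re, abs_le]
          constructor <;> linarith only [hvre.2, hre.1, hvre.1, hre.2]
        · show |(y - v).im| ≤ 65 / 1000
          rw [sub_im, abs_le]
          constructor <;> linarith only [hvim.2, him'.1, him', hvim]) (by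
        constructor
        · show |(y + v).re - 1 / 4| ≤ 65 / 1000
          rw [add_re, abs_le]
          constructor <;> linarith only [hvre, hvre.1, hre.1, hvre.2, hre.2]
        · show |(y + v).im| ≤ 65 / 1000
          rw [add_im, abs_le]
          constructor <;> linarith only [hvim.1, him'.1, hvim.2, him'.2])
  have hF := CritB_F_near (Or.inl rfl) (hy'.trans (by norm_num))
  rw [CritB_F_quarter] at hF
  have hF' : ‖CritB_F y - Real.pi‖ ≤ 2195 / 10000 := by linarith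
  have hFn : ‖CritB_F y‖ ≤ 33611 / 10000 := by
    have : CritB_F y = (CritB_F y - Real.pi) + Real.pi := by ring
    rw [this]
    refine (norm_add_le _ _).trans ?_
    rw [norm_real, Real.norm_eq_abs, abs_of_pos Real.pi_pos]
    linarith only [hp2, hy', hF]
  set D : ℂ := hh (y - v) - hh (y + v) with hD
  have herr : ‖D + 2 * v * CritB_F y‖ ≤ 3429 / 10000 * ‖v‖ := by
    refine htd.trans ?_
    have h0 := norm_nonneg v
    have h1 : ‖v‖ ^ 2 ≤ (55 / 1000) ^ 2 := pow_le_pow_left₀ h0 hv55 2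
    nlinarith
  have hDn : ‖D‖ ≤ 70652 / 10000 * ‖v‖ := by
    have e : D = (D + 2 * v * CritB_F y) - 2 * v * CritB_F y := by ring
    rw [e]
    refine (norm_sub_le _ _).trans ?_
    have h1 : ‖2 * v * CritB_F y‖ ≤ 2 * ‖v‖ * (33611 / 10000) := by
      rw [norm_mul, norm_mul]
      simp only [Complex.norm_ofNat]
      exact mul_le_mul_of_nonneg_left hFn (by positivity)
    linarith only [herr, h1, norm_nonneg v]
  have hDev : 2 * Real.pi * I * (2 * r * v + 1) + D = 0 := by rw [hD]; linear_combination ev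
  have hrel : (v + 1 / (2 * r)) * (4 * Real.pi * I * r) = -D := by
    have h2 : (1 / (2 * r) : ℂ) * (4 * Real.pi * I * r) = 2 * Real.pi * I := by
      field_simp
      ring
    linear_combination hDev + h2
  clear_value D
  clear hD htd hDev ev
  have hδD : δ * (4 * Real.pi * ρ) ≤ 70652 / 10000 * ‖v‖ := by
    have h1 : ‖(v + 1 / (2 * r)) * (4 * Real.pi * I * r)‖ = δ * (4 * Real.pi * ρ) := by
      rw [norm_mul, norm_mul, norm_mul, norm_mul, hnr, norm_real, Real.norm_eq_abs,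
        abs_of_pos Real.pi_pos, ← hδ]
      simp only [Complex.norm_ofNat, Complex.norm_I, mul_one]
    rw [← h1, hrel, norm_neg]
    exact hDn
  have hδ3 : δ * ρ ^ 2 ≤ 3 / 10 := by
    have h1 : δ * (4 * Real.pi * ρ) * ρ ≤ 70652 / 10000 * (δ + 1 / (2 * ρ)) * ρ := by
      apply mul_le_mul_of_nonneg_right (hδD.trans _) (by linarith only [hρ10])
      exact mul_le_mul_of_nonneg_left hvn (by norm_num)
    have h2 : 70652 / 10000 * (δ + 1 / (2 * ρ)) * ρ = 70652 / 10000 * (δ * ρ) + 35326 / 10000 := by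
      field_simp
      ring
    rw [h2] at h1
    have h3 : δ * ρ * 10 ≤ δ * ρ ^ 2 := by
      have : 0 ≤ δ * ρ := by positivity
      nlinarith only [hρ10, this]
    have h4 : 125660 / 10000 * (δ * ρ ^ 2) ≤ δ * (4 * Real.pi * ρ) * ρ := by
      have h5 : 0 ≤ δ * ρ ^ 2 := by positivity
      nlinarith only [hp1, h5]
    linarith only [hp2, h1, h3, h4]
  have hδ3' : δ ≤ 3 / (10 * ρ ^ 2) := by
    rw [le_div_iff₀ (by positivity)]
    linarith only [hδ3]
  refine ⟨hδ3', ?_⟩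
  -- the product r D
  have hδρ : δ * ρ ≤ 3 / 100 := by
    have : δ * ρ * 10 ≤ δ * ρ ^ 2 := by
      have : 0 ≤ δ * ρ := by positivity
      nlinarith only [hρ10, this]
    linarith only [hδ3, this]
  have hvρ : ρ * ‖v‖ ≤ 53 / 100 := by
    have h1 : ρ * ‖v‖ ≤ ρ * (δ + 1 / (2 * ρ)) := mul_le_mul_of_nonneg_left hvn (by linarith only [hρ10])
    have h2 : ρ * (δ + 1 / (2 * ρ)) = δ * ρ + 1 / 2 := by
      field_simp
    linarith only [hδρ, h1, h2]
  have hT : ‖r * D - Real.pi‖ ≤ 61 / 100 := by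
    have e : r * D - Real.pi = (CritB_F y - Real.pi) - (2 * r) * (v + 1 / (2 * r)) * CritB_F y +
        r * (D + 2 * v * CritB_F y) := by
      field_simp
      ring
    rw [e]
    refine (norm_add_le _ _).trans ((add_le_add_left (norm_sub_le _ _) _).trans ?_)
    have h1 : ‖(2 * r) * (v + 1 / (2 * r)) * CritB_F y‖ ≤ 2 * (δ * ρ) * (33611 / 10000) := by
      rw [norm_mul, norm_mul, norm_mul, hnr]
      simp only [Complex.norm_ofNat]
      calc 2 * ρ * ‖v + 1 / (2 * r)‖ * ‖CritB_F y‖ ≤ 2 * ρ * δ * (33611 / 10000) :=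
            mul_le_mul_of_nonneg_left hFn (by positivity)
        _ = _ := by ring
    have h2 : ‖r * (D + 2 * v * CritB_F y)‖ ≤ 3429 / 10000 * (ρ * ‖v‖) := by
      rw [norm_mul, hnr]
      calc ρ * ‖D + 2 * v * CritB_F y‖ ≤ ρ * (3429 / 10000 * ‖v‖) :=
            mul_le_mul_of_nonneg_left herr (by linarith only [hρ10])
        _ = _ := by ring
    linarith only [hy', hF, hδρ, hvρ, h1, h2]
  have hvT : (v + 1 / (2 * r)) * (4 * Real.pi * ρ ^ 2 : ℝ) = I * (r * D) := by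
    have h2 : D = -((v + 1 / (2 * r)) * (4 * Real.pi * I * r)) := by rw [hrel, neg_neg]
    have h3 : ((ρ ^ 2 : ℝ) : ℂ) = (r : ℂ) ^ 2 := by rw [← hρ2]; push_cast; ring
    have h4 : ((4 * Real.pi * ρ ^ 2 : ℝ) : ℂ) = 4 * Real.pi * (r : ℂ) ^ 2 := by
      rw [← h3]; push_cast; ring
    rw [h4, h2]
    linear_combination ((v + 1 / (2 * r)) * (4 * Real.pi * (r : ℂ) ^ 2)) * I_sq
  have hTre := abs_le.1 ((abs_re_le_norm (r * D - Real.pi)).trans hT)
  have hTim := abs_le.1 ((abs_im_le_norm (r * D - Real.pi)).trans hT)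
  simp only [sub_re, sub_im, ofReal_re, ofReal_im, sub_zero] at hTre hTim
  have hreal : (1 / (2 * r) : ℂ) = ((1 / (2 * (r : ℝ)) : ℝ) : ℂ) := by push_cast; ring
  have h1 := congrArg Complex.im hvT
  have h2 := congrArg Complex.re hvT
  rw [hreal] at h1 h2
  simp only [re_mul_ofReal, im_mul_ofReal, add_re, add_im, ofReal_re, ofReal_im, add_zero,
    I_mul_im, I_mul_re] at h1 h2
  have hK : 0 < 4 * Real.pi * ρ ^ 2 := by positivity
  constructor
  · by_contra hcon
    rw [not_lt] at hcon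
    have : v.im * (4 * Real.pi * ρ ^ 2) ≤ 0 := mul_nonpos_of_nonpos_of_nonneg hcon hK.le
    linarith only [hp1, h1, this, hTre.1]
  · have h3 : |v.re + 1 / (2 * (r : ℝ))| * (4 * Real.pi * ρ ^ 2) ≤ 61 / 100 := by
      have h5 := congrArg abs h2
      rw [abs_mul, abs_of_pos hK, abs_neg] at h5
      rw [h5]
      exact abs_le.2 hTim
    have h4 : |v.re| ≤ |v.re + 1 / (2 * (r : ℝ))| + 1 / (2 * ρ) := by
      have h5 : |1 / (2 * (r : ℝ))| = 1 / (2 * ρ) := by
        rw [abs_div, abs_mul, ← hρ]; simp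
      have h6 : v.re = (v.re + 1 / (2 * (r : ℝ))) - 1 / (2 * (r : ℝ)) := by ring
      calc |v.re| = |(v.re + 1 / (2 * (r : ℝ))) - 1 / (2 * (r : ℝ))| := by rw [← h6]
        _ ≤ _ := (abs_sub _ _).trans (by rw [h5])
    have h5 : |v.re + 1 / (2 * (r : ℝ))| * ρ ^ 2 ≤ 1 / 16 := by
      have h6 : 0 ≤ |v.re + 1 / (2 * (r : ℝ))| * ρ ^ 2 := by positivity
      nlinarith only [hp1, h3]
    have h6 : |v.re + 1 / (2 * (r : ℝ))| ≤ 1 / (16 * ρ ^ 2) := by
      rw [le_div_iff₀ (by positivity)]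
      linarith only [h5]
    have h7 : 1 / (16 * ρ ^ 2) + 1 / (2 * ρ) < 2 / (4 * ρ - 1) := by
      have h8 : 0 < 4 * ρ - 1 := by linarith only [hρ10]
      have h9 : 1 / (16 * ρ ^ 2) + 1 / (2 * ρ) = (1 + 8 * ρ) / (16 * ρ ^ 2) := by
        field_simp
        ring
      rw [h9, div_lt_div_iff₀ (by positivity) h8]
      nlinarith only [hρ10]
    linarith only [h4, h6, h7]

theorem crit_exists (r1 r2 : ℤ) (h1 : 10 ≤ |r1|) (h2 : 10 ≤ |r2|) :
    ∃ y v w : ℂ, Crit r1 r2 y v w := by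
  obtain ⟨y, v, w, ey, ev, ew, hy, hv, hw⟩ := crit_contraction r1 r2 h1 h2
  have hsmall : ∀ (r : ℤ) (u : ℂ), 10 ≤ |r| → ‖u + 1 / (2 * r)‖ ≤ 1 / (2 * (r : ℝ) ^ 2) →
      ‖u‖ ≤ 55 / 1000 := by
    intro r u hr hu
    have hρ10 : 10 ≤ |(r : ℝ)| := by exact_mod_cast hr
    have hn1 : ‖(1 / (2 * r) : ℂ)‖ = 1 / (2 * |(r : ℝ)|) := by
      rw [norm_div, norm_mul, Complex.norm_intCast]
      simp
    have h3 : ‖u‖ ≤ ‖u + 1 / (2 * r)‖ + 1 / (2 * |(r : ℝ)|) := by
      have : u = (u + 1 / (2 * r)) - 1 / (2 * r) := by ring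
      calc ‖u‖ = ‖(u + 1 / (2 * r)) - 1 / (2 * r)‖ := by rw [← this]
        _ ≤ _ := (norm_sub_le _ _).trans (by rw [hn1])
    have hb1 : 1 / (2 * |(r : ℝ)|) ≤ 1 / 20 := by
      rw [div_le_div_iff₀ (by positivity) (by norm_num)]
      linarith
    have hb2 : 1 / (2 * (r : ℝ) ^ 2) ≤ 1 / 200 := by
      rw [← sq_abs, div_le_div_iff₀ (by positivity) (by norm_num)]
      nlinarith only [hρ10]
    linarith only [hu, h3, hb1, hb2]
  have hy' := CritB_y ey hy (hsmall r1 v h1 hv) (hsmall r2 w h2 hw)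
  obtain ⟨a1, a2, a3⟩ := CritB_v r1 h1 hy' ev hv
  obtain ⟨b1, b2, b3⟩ := CritB_v r2 h2 hy' ew hw
  exact ⟨y, v, w, ⟨h1, h2, ey, ev, ew, hy', a1, b1, a2, b2, a3, b3⟩⟩

end Pool.Agent.H63.VC3
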