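import Pool.Agent.H63.VC3.Clausen

/-! # Convexity of `ff` in the strip -/

namespace Pool.Agent.H63.VC3

open Pool.Agent.H63.VC Complex

theorem Tube_taylor_pos (f f' f'' : ℝ → ℝ) (t L : ℝ) (ht : 0 ≤ t)
    (hf : ∀ s ∈ Set.Icc 0 t, HasDerivAt f (f' s) s)
    (hf' : ∀ s ∈ Set.Icc 0 t, HasDerivAt f' (f'' s) s) (hL : ∀ s ∈ Set.Icc 0 t, L ≤ f'' s) :
    f 0 + f' 0 * t + L / 2 * t ^ 2 ≤ f t := by
  have mono : ∀ g g' : ℝ → ℝ, (∀ s ∈ Set.Icc 0 t, HasDerivAt g (g' s) s) →
      (∀ s ∈ Set.Icc 0 t, 0 ≤ g' s) → MonotoneOn g (Set.Icc 0 t) := by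
    intro g g' h1 h2
    refine monotoneOn_of_deriv_nonneg (convex_Icc 0 t)
      (fun s hs => (h1 s hs).continuousAt.continuousWithinAt)
      (fun s hs => (h1 s (interior_subset hs)).differentiableAt.differentiableWithinAt)
      (fun s hs => ?_)
    rw [(h1 s (interior_subset hs)).deriv]
    exact h2 s (interior_subset hs)
  have m1 := mono (fun s => f' s - L * s) (fun s => f'' s - L) (fun s hs => by
      have h := (hf' s hs).sub ((hasDerivAt_id s).const_mul L)
      exact h.congr_deriv (by simp)) (fun s hs => by linarith [hL s hs])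
  have m2 := mono (fun s => f s - f' 0 * s - L / 2 * s ^ 2) (fun s => f' s - f' 0 - L * s)
    (fun s hs => by
      have h := ((hf s hs).sub ((hasDerivAt_id s).const_mul (f' 0))).sub
        (((hasDerivAt_id s).pow 2).const_mul (L / 2))
      exact h.congr_deriv (by simp; ring)) (fun s hs => by
      have h := m1 (Set.left_mem_Icc.2 ht) hs hs.1
      simp only [mul_zero, sub_zero] at h
      linarith)
  have h := m2 (Set.left_mem_Icc.2 ht) (Set.right_mem_Icc.2 ht) ht
  simp only [mul_zero, sub_zero, ne_eq, OfNat.ofNat_ne_zero, not_false_eq_true, zero_pow] at h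
  linarith

theorem Tube_taylor (f f' f'' : ℝ → ℝ) (t L : ℝ)
    (hf : ∀ s ∈ Set.uIcc 0 t, HasDerivAt f (f' s) s)
    (hf' : ∀ s ∈ Set.uIcc 0 t, HasDerivAt f' (f'' s) s) (hL : ∀ s ∈ Set.uIcc 0 t, L ≤ f'' s) :
    f 0 + f' 0 * t + L / 2 * t ^ 2 ≤ f t := by
  rcases le_total 0 t with ht | ht
  · rw [Set.uIcc_of_le ht] at hf hf' hL
    exact Tube_taylor_pos f f' f'' t L ht hf hf' hL
  · rw [Set.uIcc_of_ge ht] at hf hf' hL
    have hm : ∀ s ∈ Set.Icc 0 (-t), -s ∈ Set.Icc t 0 := fun s hs =>
      ⟨by linarith [hs.2], by linarith [hs.1]⟩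
    have h := Tube_taylor_pos (fun s => f (-s)) (fun s => -f' (-s)) (fun s => f'' (-s)) (-t) L
      (by linarith) (fun s hs => by
        have h := HasDerivAt.scomp s (hf (-s) (hm s hs)) (hasDerivAt_neg s)
        exact h.congr_deriv (by simp)) (fun s hs => by
        have h := (HasDerivAt.scomp s (hf' (-s) (hm s hs)) (hasDerivAt_neg s)).neg
        exact h.congr_deriv (by simp)) (fun s hs => hL (-s) (hm s hs))
    simp only [neg_zero, neg_neg] at h
    linarith [h, neg_mul_neg (f' 0) t, neg_sq t]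

theorem Tube_taylor' (f f' f'' : ℝ → ℝ) (t U : ℝ)
    (hf : ∀ s ∈ Set.uIcc 0 t, HasDerivAt f (f' s) s)
    (hf' : ∀ s ∈ Set.uIcc 0 t, HasDerivAt f' (f'' s) s) (hU : ∀ s ∈ Set.uIcc 0 t, f'' s ≤ U) :
    f t ≤ f 0 + f' 0 * t + U / 2 * t ^ 2 := by
  have h := Tube_taylor (fun s => -f s) (fun s => -f' s) (fun s => -f'' s) t (-U)
    (fun s hs => (hf s hs).neg) (fun s hs => (hf' s hs).neg) (fun s hs => by linarith [hU s hs])
  linarith

theorem Tube_der (z d : ℂ) (t : ℝ) (h0 : 0 < (z + t * d).re) (h1 : (z + t * d).re < 1) :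
    HasDerivAt (fun t : ℝ => (ff (z + t * d)).re) ((hh (z + t * d) * d).re) t ∧
    HasDerivAt (fun t : ℝ => (hh (z + t * d) * d).re)
      ((Real.pi * Complex.cot (Real.pi * (z + t * d)) * d * d).re) t := by
  have hl : HasDerivAt (fun w : ℂ => z + w * d) d (t : ℂ) := by
    have h := ((hasDerivAt_id (t : ℂ)).mul_const d).const_add z
    simpa using h
  constructor
  · have h := HasDerivAt.comp (t : ℂ) (ff_hasDerivAt (z + t * d) h0 h1) hl
    exact h.real_of_complex
  · have h := (HasDerivAt.comp (t : ℂ) (hh_hasDerivAt (z + t * d) h0 h1) hl).mul_const d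
    exact h.real_of_complex

/-- the real part of the cotangent -/
theorem Tube_cot_re (a b : ℝ) :
    (Complex.cot (a + b * I)).re = Real.sin a * Real.cos a /
      (Real.sin a ^ 2 + Real.sinh b ^ 2) := by
  have hs : Complex.sin (a + b * I) =
      (Real.sin a * Real.cosh b : ℝ) + (Real.cos a * Real.sinh b : ℝ) * I := by
    rw [Complex.sin_add_mul_I]
    push_cast
    ring
  have hc : Complex.cos (a + b * I) =
      (Real.cos a * Real.cosh b : ℝ) + (-(Real.sin a * Real.sinh b) : ℝ) * I := by
    rw [Complex.cos_add_mul_I]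
    push_cast
    ring
  have hns : Complex.normSq (Complex.sin (a + b * I)) = Real.sin a ^ 2 + Real.sinh b ^ 2 := by
    rw [hs, Complex.normSq_add_mul_I]
    have h1 := Real.sin_sq_add_cos_sq a
    have h2 := Real.cosh_sq b
    linear_combination (Real.sin a ^ 2) * h2 + Real.sinh b ^ 2 * h1
  rw [Complex.cot, Complex.div_re, hns, hs, hc]
  simp only [add_re, ofReal_re, mul_re, I_re, mul_zero, ofReal_im, I_im, mul_one, sub_self,
    add_zero, add_im, mul_im, zero_add]
  rw [← add_div]
  congr 1
  have h2 := Real.cosh_sq b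
  linear_combination (Real.sin a * Real.cos a) * h2

theorem Tube_cot_re' (z : ℂ) : (Real.pi * Complex.cot (Real.pi * z)).re =
    Real.pi * (Real.sin (Real.pi * z.re) * Real.cos (Real.pi * z.re) /
      (Real.sin (Real.pi * z.re) ^ 2 + Real.sinh (Real.pi * z.im) ^ 2)) := by
  rw [Complex.re_ofReal_mul, ← Tube_cot_re]
  congr 3
  conv_lhs => rw [← Complex.re_add_im z]
  push_cast
  ring

/-- Vertical direction, left half of the strip. -/
theorem ff_vert_left (x t : ℝ) (h0 : 0 < x) (h1 : x < 1 / 2) :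
    Fr x - Real.pi / 2 * (Real.cos (Real.pi * x) / Real.sin (Real.pi * x)) * t ^ 2 ≤
      (ff (x + t * I)).re ∧ (ff (x + t * I)).re ≤ Fr x := by
  have hre : ∀ s : ℝ, ((x : ℂ) + s * I).re = x := fun s => by simp
  have him : ∀ s : ℝ, ((x : ℂ) + s * I).im = s := fun s => by simp
  have hd := fun s : ℝ => Tube_der (x : ℂ) I s (by rw [hre]; exact h0) (by rw [hre]; linarith)
  have hsin : 0 < Real.sin (Real.pi * x) := Real.sin_pos_of_pos_of_lt_pi
    (by positivity) (by nlinarith [Real.pi_pos])
  have hcos : 0 < Real.cos (Real.pi * x) := Real.cos_pos_of_mem_Ioo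
    ⟨by nlinarith [Real.pi_pos], by nlinarith [Real.pi_pos]⟩
  have hsec : ∀ s : ℝ, (Real.pi * Complex.cot (Real.pi * ((x : ℂ) + s * I)) * I * I).re =
      -(Real.pi * (Real.sin (Real.pi * x) * Real.cos (Real.pi * x) /
        (Real.sin (Real.pi * x) ^ 2 + Real.sinh (Real.pi * s) ^ 2))) := by
    intro s
    rw [mul_assoc _ I I, I_mul_I, mul_neg_one, neg_re, Tube_cot_re', hre, him]
  have e0 : ff ((x : ℂ) + (0 : ℝ) * I) = (Fr x : ℂ) := by
    rw [ofReal_zero, zero_mul, add_zero, ff_real x h0 (by linarith)]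
  have e1 : (hh ((x : ℂ) + (0 : ℝ) * I) * I).re = 0 := by
    rw [ofReal_zero, zero_mul, add_zero, hh_real x h0 (by linarith)]
    simp
  constructor
  · have h := Tube_taylor (fun s : ℝ => (ff ((x : ℂ) + s * I)).re)
      (fun s : ℝ => (hh ((x : ℂ) + s * I) * I).re) _ t
      (-(Real.pi * (Real.cos (Real.pi * x) / Real.sin (Real.pi * x))))
      (fun s _ => (hd s).1) (fun s _ => (hd s).2) (fun s _ => by
        rw [hsec]
        have : Real.sin (Real.pi * x) * Real.cos (Real.pi * x) /
            (Real.sin (Real.pi * x) ^ 2 + Real.sinh (Real.pi * s) ^ 2) ≤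
            Real.cos (Real.pi * x) / Real.sin (Real.pi * x) := by
          rw [div_le_div_iff₀ (by positivity) hsin]
          nlinarith [mul_nonneg hcos.le (sq_nonneg (Real.sinh (Real.pi * s)))]
        nlinarith [Real.pi_pos])
    simp only [e0, e1, ofReal_re] at h
    linarith
  · have h := Tube_taylor' (fun s : ℝ => (ff ((x : ℂ) + s * I)).re)
      (fun s : ℝ => (hh ((x : ℂ) + s * I) * I).re) _ t 0
      (fun s _ => (hd s).1) (fun s _ => (hd s).2) (fun s _ => by
        rw [hsec]
        have : 0 ≤ Real.pi * (Real.sin (Real.pi * x) * Real.cos (Real.pi * x) /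
            (Real.sin (Real.pi * x) ^ 2 + Real.sinh (Real.pi * s) ^ 2)) := by positivity
        linarith)
    simp only [e0, e1, ofReal_re] at h
    linarith

/-- Vertical direction, right half of the strip. -/
theorem ff_vert_right (x t : ℝ) (h0 : 1 / 2 < x) (h1 : x < 1) :
    Fr x ≤ (ff (x + t * I)).re ∧ (ff (x + t * I)).re ≤
      Fr x - Real.pi / 2 * (Real.cos (Real.pi * x) / Real.sin (Real.pi * x)) * t ^ 2 := by
  have hre : ∀ s : ℝ, ((x : ℂ) + s * I).re = x := fun s => by simp
  have him : ∀ s : ℝ, ((x : ℂ) + s * I).im = s := fun s => by simp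
  have hd := fun s : ℝ => Tube_der (x : ℂ) I s (by rw [hre]; linarith) (by rw [hre]; linarith)
  have hsin : 0 < Real.sin (Real.pi * x) := Real.sin_pos_of_pos_of_lt_pi
    (by nlinarith [Real.pi_pos]) (by nlinarith [Real.pi_pos])
  have hcos : Real.cos (Real.pi * x) < 0 := Real.cos_neg_of_pi_div_two_lt_of_lt
    (by nlinarith [Real.pi_pos]) (by nlinarith [Real.pi_pos])
  have hsec : ∀ s : ℝ, (Real.pi * Complex.cot (Real.pi * ((x : ℂ) + s * I)) * I * I).re =
      -(Real.pi * (Real.sin (Real.pi * x) * Real.cos (Real.pi * x) /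
        (Real.sin (Real.pi * x) ^ 2 + Real.sinh (Real.pi * s) ^ 2))) := by
    intro s
    rw [mul_assoc _ I I, I_mul_I, mul_neg_one, neg_re, Tube_cot_re', hre, him]
  have e0 : ff ((x : ℂ) + (0 : ℝ) * I) = (Fr x : ℂ) := by
    rw [ofReal_zero, zero_mul, add_zero, ff_real x (by linarith) h1]
  have e1 : (hh ((x : ℂ) + (0 : ℝ) * I) * I).re = 0 := by
    rw [ofReal_zero, zero_mul, add_zero, hh_real x (by linarith) h1]
    simp
  constructor
  · have h := Tube_taylor (fun s : ℝ => (ff ((x : ℂ) + s * I)).re)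
      (fun s : ℝ => (hh ((x : ℂ) + s * I) * I).re) _ t 0
      (fun s _ => (hd s).1) (fun s _ => (hd s).2) (fun s _ => by
        rw [hsec]
        have : Real.sin (Real.pi * x) * Real.cos (Real.pi * x) /
            (Real.sin (Real.pi * x) ^ 2 + Real.sinh (Real.pi * s) ^ 2) ≤ 0 := by
          apply div_nonpos_of_nonpos_of_nonneg
          · nlinarith
          · positivity
        nlinarith [Real.pi_pos])
    simp only [e0, e1, ofReal_re] at h
    linarith
  · have h := Tube_taylor' (fun s : ℝ => (ff ((x : ℂ) + s * I)).re)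
      (fun s : ℝ => (hh ((x : ℂ) + s * I) * I).re) _ t
      (-(Real.pi * (Real.cos (Real.pi * x) / Real.sin (Real.pi * x))))
      (fun s _ => (hd s).1) (fun s _ => (hd s).2) (fun s _ => by
        rw [hsec]
        have : Real.cos (Real.pi * x) / Real.sin (Real.pi * x) ≤
            Real.sin (Real.pi * x) * Real.cos (Real.pi * x) /
            (Real.sin (Real.pi * x) ^ 2 + Real.sinh (Real.pi * s) ^ 2) := by
          rw [div_le_div_iff₀ hsin (by positivity)]
          nlinarith [mul_nonneg (neg_nonneg.2 hcos.le) (sq_nonneg (Real.sinh (Real.pi * s)))]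
        nlinarith [Real.pi_pos])
    simp only [e0, e1, ofReal_re] at h
    linarith

theorem Tube_sinh_sq (b : ℝ) (hb : |b| ≤ 1 / 50) : Real.sinh (Real.pi * b) ^ 2 ≤ 4 / 100 := by
  have h1 := ClausenA_sinh_le ((Real.pi * b : ℝ) : ℂ)
  rw [← Complex.ofReal_sinh, Complex.norm_real, Complex.norm_real, Real.norm_eq_abs,
    Real.norm_eq_abs] at h1
  have hpi := Real.pi_pos
  have hpi4 := Real.pi_le_four
  have h2 : |Real.pi * b| ≤ 7 / 100 := by
    rw [abs_mul, abs_of_pos hpi]
    have hpi3 : Real.pi < 3.15 := Real.pi_lt_d2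
    nlinarith [abs_nonneg b]
  have h3 : Real.exp |Real.pi * b| ≤ 2.7182818286 := by
    refine le_trans (Real.exp_le_exp.2 ?_) Real.exp_one_lt_d9.le
    linarith
  have h4 : |Real.sinh (Real.pi * b)| ≤ 2 / 10 := by
    refine h1.trans ?_
    have := Real.exp_pos |Real.pi * b|
    nlinarith [abs_nonneg (Real.pi * b)]
  have h5 := abs_nonneg (Real.sinh (Real.pi * b))
  rw [← sq_abs]
  nlinarith

/-- Horizontal direction, left half: strong convexity. -/
theorem ff_horiz_left (z : ℂ) (t : ℝ) (h0 : 4 / 100 ≤ z.re) (h1 : z.re ≤ 46 / 100)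
    (h2 : 4 / 100 ≤ z.re + t) (h3 : z.re + t ≤ 46 / 100) (h4 : |z.im| ≤ 1 / 50) :
    (ff z).re + t * (hh z).re + 1 / 10 * t ^ 2 ≤ (ff (z + t)).re := by
  have hre : ∀ s : ℝ, (z + s * (1 : ℂ)).re = z.re + s := fun s => by simp
  have him : ∀ s : ℝ, (z + s * (1 : ℂ)).im = z.im := fun s => by simp
  have hs : ∀ s ∈ Set.uIcc 0 t, 4 / 100 ≤ z.re + s ∧ z.re + s ≤ 46 / 100 := by
    intro s hs
    rw [Set.mem_uIcc] at hs
    rcases hs with hs | hs <;> constructor <;> linarith [hs.1, hs.2]
  have hd := fun s : ℝ => fun hs' : s ∈ Set.uIcc 0 t => Tube_der z 1 s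
    (by rw [hre]; linarith [(hs s hs').1]) (by rw [hre]; linarith [(hs s hs').2])
  have h := Tube_taylor (fun s : ℝ => (ff (z + s * 1)).re)
    (fun s : ℝ => (hh (z + s * 1) * 1).re) _ t (1 / 5)
    (fun s hs => (hd s hs).1) (fun s hs => (hd s hs).2) (fun s hs' => by
      rw [mul_one, mul_one, Tube_cot_re', hre, him]
      obtain ⟨k1, k2⟩ := hs s hs'
      have hpi := Real.pi_pos
      have hpi3 : 3 < Real.pi := Real.pi_gt_three
      set y := Real.pi * (z.re + s) with hy
      have k3 : 8 / 100 ≤ Real.sin y * Real.cos y := by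
        have e : Real.sin y * Real.cos y = Real.sin (2 * y) / 2 := by rw [Real.sin_two_mul]; ring
        rw [e]
        rcases le_total (z.re + s) (1 / 4) with k4 | k4
        · have := Real.mul_le_sin (x := 2 * y) (by positivity) (by rw [hy]; nlinarith)
          have e2 : 2 / Real.pi * (2 * y) = 4 * (z.re + s) := by
            rw [hy]
            field_simp
            ring
          rw [e2] at this
          linarith
        · have := Real.mul_le_sin (x := Real.pi - 2 * y) (by rw [hy]; nlinarith)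
            (by rw [hy]; nlinarith)
          rw [Real.sin_pi_sub] at this
          have e2 : 2 / Real.pi * (Real.pi - 2 * y) = 2 - 4 * (z.re + s) := by
            rw [hy]
            field_simp
            ring
          rw [e2] at this
          linarith
      have k5 := Tube_sinh_sq z.im h4
      have k6 := Real.sin_sq_le_one y
      have k7 : 0 < Real.sin y ^ 2 + Real.sinh (Real.pi * z.im) ^ 2 := by
        have : Real.sin y ≠ 0 := by
          intro h
          rw [h, zero_mul] at k3
          norm_num at k3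
        positivity
      have k8 : 7 / 100 ≤ Real.sin y * Real.cos y /
          (Real.sin y ^ 2 + Real.sinh (Real.pi * z.im) ^ 2) := by
        rw [le_div_iff₀ k7]
        nlinarith
      nlinarith)
  simp only [mul_one, ofReal_zero, add_zero] at h
  linarith

/-- Horizontal direction, right half: strong concavity. -/
theorem ff_horiz_right (z : ℂ) (t : ℝ) (h0 : 60 / 100 ≤ z.re) (h1 : z.re ≤ 90 / 100)
    (h2 : 60 / 100 ≤ z.re + t) (h3 : z.re + t ≤ 90 / 100) (h4 : |z.im| ≤ 1 / 50) :
    (ff (z + t)).re ≤ (ff z).re + t * (hh z).re - 1 / 10 * t ^ 2 := by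
  have hre : ∀ s : ℝ, (z + s * (1 : ℂ)).re = z.re + s := fun s => by simp
  have him : ∀ s : ℝ, (z + s * (1 : ℂ)).im = z.im := fun s => by simp
  have hs : ∀ s ∈ Set.uIcc 0 t, 60 / 100 ≤ z.re + s ∧ z.re + s ≤ 90 / 100 := by
    intro s hs
    rw [Set.mem_uIcc] at hs
    rcases hs with hs | hs <;> constructor <;> linarith [hs.1, hs.2]
  have hd := fun s : ℝ => fun hs' : s ∈ Set.uIcc 0 t => Tube_der z 1 s
    (by rw [hre]; linarith [(hs s hs').1]) (by rw [hre]; linarith [(hs s hs').2])
  have h := Tube_taylor' (fun s : ℝ => (ff (z + s * 1)).re)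
    (fun s : ℝ => (hh (z + s * 1) * 1).re) _ t (-(1 / 5))
    (fun s hs => (hd s hs).1) (fun s hs => (hd s hs).2) (fun s hs' => by
      rw [mul_one, mul_one, Tube_cot_re', hre, him]
      obtain ⟨k1, k2⟩ := hs s hs'
      have hpi := Real.pi_pos
      have hpi3 : 3 < Real.pi := Real.pi_gt_three
      set y := Real.pi * (z.re + s) with hy
      have k3 : Real.sin y * Real.cos y ≤ -(8 / 100) := by
        have e : Real.sin y * Real.cos y = -(Real.sin (2 * y - Real.pi) / 2) := by
          rw [Real.sin_sub_pi, Real.sin_two_mul]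
          ring
        rw [e]
        rcases le_total (z.re + s) (3 / 4) with k4 | k4
        · have := Real.mul_le_sin (x := 2 * y - Real.pi) (by rw [hy]; nlinarith)
            (by rw [hy]; nlinarith)
          have e2 : 2 / Real.pi * (2 * y - Real.pi) = 4 * (z.re + s) - 2 := by
            rw [hy]
            field_simp
            ring
          rw [e2] at this
          linarith
        · have := Real.mul_le_sin (x := Real.pi - (2 * y - Real.pi)) (by rw [hy]; nlinarith)
            (by rw [hy]; nlinarith)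
          rw [Real.sin_pi_sub] at this
          have e2 : 2 / Real.pi * (Real.pi - (2 * y - Real.pi)) = 4 - 4 * (z.re + s) := by
            rw [hy]
            field_simp
            ring
          rw [e2] at this
          linarith
      have k5 := Tube_sinh_sq z.im h4
      have k6 := Real.sin_sq_le_one y
      have k7 : 0 < Real.sin y ^ 2 + Real.sinh (Real.pi * z.im) ^ 2 := by
        have : Real.sin y ≠ 0 := by
          intro h
          rw [h, zero_mul] at k3
          norm_num at k3
        positivity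
      have k8 : Real.sin y * Real.cos y /
          (Real.sin y ^ 2 + Real.sinh (Real.pi * z.im) ^ 2) ≤ -(7 / 100) := by
        rw [div_le_iff₀ k7]
        nlinarith
      nlinarith)
  simp only [mul_one, ofReal_zero, add_zero] at h
  linarith

end Pool.Agent.H63.VC3
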