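import Pool.Agent.H63.VC3.GBound
import Pool.Agent.H63.VC3.Tube

/-! # Upper bounds for the potential function -/

namespace Pool.Agent.H63.VC3

open Pool.Agent.H63.VC Complex

private lemma Upper_Wf_re (r : ℤ) (x η a Y : ℝ) :
    (Wf r (x + η * I) (a + Y * I)).re = -4 * Real.pi * r * a * Y - 2 * Real.pi * Y -
      (ff (((x - a : ℝ) : ℂ) + ((η - Y : ℝ) : ℂ) * I)).re -
      (ff (((x + a : ℝ) : ℂ) + ((η + Y : ℝ) : ℂ) * I)).re := by
  have e1 : ((x : ℂ) + η * I) - (a + Y * I) = ((x - a : ℝ) : ℂ) + ((η - Y : ℝ) : ℂ) * I := by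
    push_cast; ring
  have e2 : ((x : ℂ) + η * I) + (a + Y * I) = ((x + a : ℝ) : ℂ) + ((η + Y : ℝ) : ℂ) * I := by
    push_cast; ring
  have e3 : 2 * (Real.pi : ℂ) * I * ((r : ℂ) * ((a : ℂ) + Y * I) ^ 2 + (a + Y * I)) =
      ((-4 * Real.pi * r * a * Y - 2 * Real.pi * Y : ℝ) : ℂ) +
        ((2 * Real.pi * (r * (a ^ 2 - Y ^ 2) + a) : ℝ) : ℂ) * I := by
    push_cast
    linear_combination (4 * (Real.pi : ℂ) * r * a * Y + 2 * Real.pi * Y + 2 * Real.pi * r * Y ^ 2 * I) * I_sq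
  unfold Wf
  rw [e1, e2, e3]
  simp only [sub_re, add_re, ofReal_re, mul_re, ofReal_im, I_re, I_im, mul_zero, zero_mul, sub_zero,
    add_zero]

private lemma Upper_cot_le (u : ℝ) (h0 : 45 / 1000 ≤ u) (h1 : u ≤ 455 / 1000) :
    Real.cos (Real.pi * u) / Real.sin (Real.pi * u) ≤ 71 / 10 := by
  have hpi := Real.pi_gt_d2
  have hpi' := Real.pi_lt_d2
  have hz0 : 0 < Real.pi * u := by positivity
  have hz1 : Real.pi * u < Real.pi / 2 := by nlinarith only [h1, hpi]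
  have hc : 0 < Real.cos (Real.pi * u) :=
    Real.cos_pos_of_mem_Ioo ⟨by linarith, hz1⟩
  have hs : 0 < Real.sin (Real.pi * u) :=
    Real.sin_pos_of_pos_of_lt_pi hz0 (by linarith)
  have ht := Real.lt_tan hz0 hz1
  rw [Real.tan_eq_sin_div_cos, lt_div_iff₀ hc] at ht
  rw [div_le_iff₀ hs]
  have h2 : 1413 / 10000 ≤ Real.pi * u := by nlinarith only [h0, hpi]
  nlinarith only [hs, ht, h2]

private lemma Upper_r (r : ℤ) (hr : 10 ≤ |r|) : 10 ≤ |(r : ℝ)| ∧ 100 ≤ (r : ℝ) ^ 2 := by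
  have h : (10 : ℝ) ≤ |(r : ℝ)| := by
    have : ((10 : ℤ) : ℝ) ≤ ((|r| : ℤ) : ℝ) := by exact_mod_cast hr
    simpa using this
  refine ⟨h, ?_⟩
  nlinarith [sq_abs (r : ℝ), abs_nonneg (r : ℝ)]

private lemma Upper_Y (r : ℤ) (hr : 10 ≤ |r|) (Y : ℝ) (hY' : Y ≤ 3 / (10 * (r : ℝ) ^ 2)) :
    (r : ℝ) ^ 2 * Y ≤ 3 / 10 := by
  obtain ⟨h1, h2⟩ := Upper_r r hr
  have h3 : (0 : ℝ) < (r : ℝ) ^ 2 := by linarith
  rw [le_div_iff₀ (by positivity)] at hY'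
  linarith

/-- Upper bound for the inner part on horizontal lines. -/
theorem Wf_flat (r : ℤ) (hr : 10 ≤ |r|) (x η a Y : ℝ) (hx : |x - 1 / 4| ≤ 55 / 1000)
    (hη : |η| ≤ 1 / 100) (ha : |a| ≤ 15 / 100) (hY : 0 ≤ Y) (hY' : Y ≤ 3 / (10 * (r : ℝ) ^ 2)) :
    (Wf r (x + η * I) (a + Y * I)).re ≤ -2 * Fr x + 26 / 10000 := by
  obtain ⟨hr1, hr2⟩ := Upper_r r hr
  have hrY := Upper_Y r hr Y hY'
  obtain ⟨hx1, hx2⟩ := abs_le.mp hx
  obtain ⟨ha1, ha2⟩ := abs_le.mp ha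
  obtain ⟨hη1, hη2⟩ := abs_le.mp hη
  have hpi := Real.pi_gt_d2
  have hpi' := Real.pi_lt_d2
  have hY3 : Y ≤ 3 / 1000 := by nlinarith only [hr2, hrY]
  rw [Upper_Wf_re]
  have f1 := (ff_vert_left (x - a) (η - Y) (by linarith only [hx1, ha2]) (by linarith only [hx2, ha1])).1
  have f2 := (ff_vert_left (x + a) (η + Y) (by linarith) (by linarith)).1
  have c1 := Upper_cot_le (x - a) (by linarith) (by linarith only [hx2, ha1])
  have c2 := Upper_cot_le (x + a) (by linarith) (by linarith only [hx2, ha2])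
  have s := Fr_sym_ge x a (by linarith) (by linarith only [hx2]) (by linarith only [ha, hx1]) (by linarith)
  have cg := cot_ge (x - 1 / 4) (by linarith only [hx])
  rw [show (1 : ℝ) / 4 + (x - 1 / 4) = x by ring] at cg
  set c := Real.cos (Real.pi * x) / Real.sin (Real.pi * x) with hc
  set d1 := Real.cos (Real.pi * (x - a)) / Real.sin (Real.pi * (x - a))
  set d2 := Real.cos (Real.pi * (x + a)) / Real.sin (Real.pi * (x + a))
  have hc6 : 6 / 10 ≤ c := by nlinarith only [hx1, hx2, hpi, hpi', cg]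
  -- the main quadratic form
  have q : -(Real.pi * c * a ^ 2) - 4 * Real.pi * r * a * Y - 2 * Real.pi * Y ≤ 0 := by
    have q1 : -(c * a ^ 2) - 4 * r * a * Y - 2 * Y ≤ 0 := by
      have h1 : -(6 / 10 * a ^ 2) - 4 * r * a * Y - 2 * Y ≤ 0 := by
        nlinarith [sq_nonneg (6 / 10 * a + 2 * r * Y), mul_nonneg hY (sub_nonneg.2 hrY)]
      nlinarith only [hc6, h1]
    nlinarith only [hpi, q1]
  have g1 : Real.pi / 2 * d1 * (η - Y) ^ 2 ≤ 315 / 200 * (71 / 10) * (η - Y) ^ 2 := by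
    have : Real.pi / 2 * d1 ≤ 315 / 200 * (71 / 10) := by nlinarith only [hpi, hpi', c1]
    exact mul_le_mul_of_nonneg_right this (sq_nonneg _)
  have g2 : Real.pi / 2 * d2 * (η + Y) ^ 2 ≤ 315 / 200 * (71 / 10) * (η + Y) ^ 2 := by
    have : Real.pi / 2 * d2 ≤ 315 / 200 * (71 / 10) := by nlinarith only [hpi, hpi', c2]
    exact mul_le_mul_of_nonneg_right this (sq_nonneg _)
  have hη3 : η ^ 2 ≤ 1 / 10000 := by nlinarith only [hη1, hη2]
  have hY4 : Y ^ 2 ≤ 9 / 1000000 := by nlinarith only [hY, hY3]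
  nlinarith

/-- Upper bound on the flat contours. -/
theorem flat_upper (r1 r2 : ℤ) (h1 : 10 ≤ |r1|) (h2 : 10 ≤ |r2|) (x η a b Y1 Y2 : ℝ)
    (hY1 : 0 ≤ Y1) (hY1' : Y1 ≤ 3 / (10 * (r1 : ℝ) ^ 2))
    (hY2 : 0 ≤ Y2) (hY2' : Y2 ≤ 3 / (10 * (r2 : ℝ) ^ 2))
    (hx : |x - 1 / 4| ≤ 55 / 1000) (hη : |η| ≤ 1 / 100) (ha : |a| ≤ 15 / 100)
    (hb : |b| ≤ 15 / 100) :
    (Vf r1 r2 (x + η * I) (a + Y1 * I) (b + Y2 * I)).re ≤
      8 * Fr (3 / 4) - 4 * Real.pi * (x - 1 / 4) ^ 2 + 7 / 1000 := by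
  have w1 := Wf_flat r1 h1 x η a Y1 hx hη ha hY1 hY1'
  have w2 := Wf_flat r2 h2 x η b Y2 hx hη hb hY2 hY2'
  obtain ⟨hx1, hx2⟩ := abs_le.mp hx
  obtain ⟨hη1, hη2⟩ := abs_le.mp hη
  have hpi := Real.pi_gt_d2
  have hpi' := Real.pi_lt_d2
  have e : Vf r1 r2 (x + η * I) (a + Y1 * I) (b + Y2 * I) =
      (4 : ℝ) * ff (((x + 1 / 2 : ℝ) : ℂ) + (η : ℂ) * I) + Wf r1 (x + η * I) (a + Y1 * I) +
        Wf r2 (x + η * I) (b + Y2 * I) := by
    have e1 : ((x + 1 / 2 : ℝ) : ℂ) + (η : ℂ) * I = (x + η * I) + 1 / 2 := by push_cast; ring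
    rw [e1]
    unfold Vf Wf
    push_cast
    ring
  have f := (ff_vert_right (x + 1 / 2) η (by linarith only [hx1]) (by linarith only [hx2])).2
  have cg := cot_ge (x - 1 / 4) (by rw [abs_lt]; constructor <;> linarith only [hx1, hx2])
  rw [show (1 : ℝ) / 4 + (x - 1 / 4) = x by ring] at cg
  have hs : 0 < Real.sin (Real.pi * x) :=
    Real.sin_pos_of_pos_of_lt_pi (by nlinarith only [hx1, hpi]) (by nlinarith only [hx2, hpi])
  have hcs : 0 < Real.cos (Real.pi * x) :=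
    Real.cos_pos_of_mem_Ioo ⟨by nlinarith only [hx1, hpi], by nlinarith only [hx2, hpi, hpi']⟩
  have hc6 : 6 / 10 ≤ Real.cos (Real.pi * x) / Real.sin (Real.pi * x) := by nlinarith only [hx2, hpi, hpi', cg]
  have ht : -(Real.cos (Real.pi * (x + 1 / 2)) / Real.sin (Real.pi * (x + 1 / 2))) ≤ 5 / 3 := by
    rw [show Real.pi * (x + 1 / 2) = Real.pi * x + Real.pi / 2 by ring, Real.cos_add_pi_div_two,
      Real.sin_add_pi_div_two, neg_div, neg_neg, div_le_iff₀ hcs]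
    rw [le_div_iff₀ hs] at hc6
    linarith only [hc6]
  have fy := Fr_y_le x (by linarith only [hx1]) (by linarith)
  rw [e, add_re, add_re, re_ofReal_mul]
  set d3 := Real.cos (Real.pi * (x + 1 / 2)) / Real.sin (Real.pi * (x + 1 / 2))
  have hη3 : η ^ 2 ≤ 1 / 10000 := by nlinarith only [hη1, hη2]
  have g : -(Real.pi / 2 * d3 * η ^ 2) ≤ 315 / 200 * (5 / 3) * η ^ 2 := by
    have : -(Real.pi / 2 * d3) ≤ 315 / 200 * (5 / 3) := by nlinarith only [hpi, hpi', ht]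
    have := mul_le_mul_of_nonneg_right this (sq_nonneg η)
    linarith only [this]
  linarith only [w1, w2, fy, f, hη3, g]

/-- The vertical sides in the `v` variable (also used for `w`). -/
theorem side_v (r : ℤ) (hr : 10 ≤ |r|) (x t ρ : ℝ)
    (hx : |x - 1 / 4| ≤ 55 / 1000) (hρ : 149 / 1000 ≤ |ρ|) (hρ' : |ρ| ≤ 15 / 100)
    (ht : 0 ≤ t) (ht' : t ≤ 3 / (10 * (r : ℝ) ^ 2)) :
    2 * Fr (x + 1 / 2) + (Wf r x (ρ + t * I)).re ≤ 4 * Fr (3 / 4) - 20 / 1000 := by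
  obtain ⟨hr1, hr2⟩ := Upper_r r hr
  have hrt := Upper_Y r hr t ht'
  obtain ⟨hx1, hx2⟩ := abs_le.mp hx
  obtain ⟨ha1, ha2⟩ := abs_le.mp hρ'
  have hpi := Real.pi_gt_d2
  have hpi' := Real.pi_lt_d2
  have ht3 : t ≤ 3 / 1000 := by nlinarith only [ht, hr2, hrt]
  have e0 := Upper_Wf_re r x 0 ρ t
  rw [show ((x : ℂ) + ((0 : ℝ) : ℂ) * I) = x by simp] at e0
  rw [e0]
  have f1 := (ff_vert_left (x - ρ) (0 - t) (by linarith only [hx1, ha2]) (by linarith only [hx2, ha1])).1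
  have f2 := (ff_vert_left (x + ρ) (0 + t) (by linarith only [hx1, ha1]) (by linarith)).1
  have c1 := Upper_cot_le (x - ρ) (by linarith only [hx1, ha2]) (by linarith only [hx2, ha1])
  have c2 := Upper_cot_le (x + ρ) (by linarith only [hx1, ha1]) (by linarith)
  have s := Fr_sym_ge x ρ (by linarith only [hx1]) (by linarith) (by linarith) (by linarith)
  have cg := cot_ge (x - 1 / 4) (by linarith only [hx])
  rw [show (1 : ℝ) / 4 + (x - 1 / 4) = x by ring] at cg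
  have fy := Fr_y_le x (by linarith) (by linarith only [hx2])
  set c := Real.cos (Real.pi * x) / Real.sin (Real.pi * x) with hc
  set d1 := Real.cos (Real.pi * (x - ρ)) / Real.sin (Real.pi * (x - ρ))
  set d2 := Real.cos (Real.pi * (x + ρ)) / Real.sin (Real.pi * (x + ρ))
  set d := x - 1 / 4 with hd
  have hρ2 : ρ ^ 2 = |ρ| ^ 2 := (sq_abs ρ).symm
  have g1 : Real.pi / 2 * d1 * (0 - t) ^ 2 ≤ 315 / 200 * (71 / 10) * t ^ 2 := by
    have : Real.pi / 2 * d1 ≤ 315 / 200 * (71 / 10) := by nlinarith only [hpi, hpi', c1]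
    have := mul_le_mul_of_nonneg_right this (sq_nonneg t)
    nlinarith only [this]
  have g2 : Real.pi / 2 * d2 * (0 + t) ^ 2 ≤ 315 / 200 * (71 / 10) * t ^ 2 := by
    have : Real.pi / 2 * d2 ≤ 315 / 200 * (71 / 10) := by nlinarith only [hpi, hpi', c2]
    have := mul_le_mul_of_nonneg_right this (sq_nonneg t)
    nlinarith only [this]
  have ht4 : t ^ 2 ≤ 9 / 1000000 := by nlinarith only [ht, ht3]
  -- the linear term in `t`
  have l1 : -4 * Real.pi * r * ρ * t ≤ 4 * Real.pi * |(r : ℝ)| * |ρ| * t := by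
    have h1 : -(r * ρ) ≤ |(r : ℝ)| * |ρ| := by
      rw [← abs_mul]; exact neg_le_abs _
    nlinarith only [h1, mul_nonneg (by positivity : (0 : ℝ) ≤ 4 * Real.pi) ht]
  have l2 : (|(r : ℝ)| * |ρ| * 2 - 1) * t ≤ 6 / 1000 := by
    -- `|r|^2 t ≤ 3/10`, `|r| ≥ 10`
    have h1 : |(r : ℝ)| ^ 2 * t ≤ 3 / 10 := by rw [sq_abs]; exact hrt
    have h2 : |(r : ℝ)| * t ≤ 3 / 100 := by nlinarith only [hr1, h1]
    nlinarith only [hρ, hρ', ht, h1, h2]
  have m1 : -(Real.pi * c * ρ ^ 2) ≤ -(Real.pi * (1 - 2 * Real.pi * d) * ρ ^ 2) := by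
    have : Real.pi * (1 - 2 * Real.pi * d) ≤ Real.pi * c := by nlinarith only [hpi, cg]
    nlinarith only [mul_le_mul_of_nonneg_right this (sq_nonneg ρ)]
  have m2 : -(2 * Real.pi * d ^ 2) + 2 * Real.pi ^ 2 * d * ρ ^ 2 ≤ Real.pi ^ 3 * ρ ^ 4 / 2 := by
    nlinarith only [mul_nonneg (by positivity : (0 : ℝ) ≤ 2 * Real.pi) (sq_nonneg (d - Real.pi * ρ ^ 2 / 2))]
  have r1 : (149 / 1000) ^ 2 ≤ ρ ^ 2 := by rw [hρ2]; nlinarith only [hρ]
  have r2 : ρ ^ 2 ≤ (15 / 100) ^ 2 := by rw [hρ2]; nlinarith only [hρ, hρ']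
  have m3 : Real.pi ^ 3 * ρ ^ 4 / 2 ≤ 8 / 1000 := by
    have h3 : Real.pi ^ 3 ≤ 315 ^ 3 / 100 ^ 3 := by
      have := pow_le_pow_left₀ Real.pi_pos.le hpi'.le 3
      linarith only [this]
    have h4 : ρ ^ 4 ≤ (15 / 100) ^ 4 := by nlinarith only [r2]
    have h5 : Real.pi ^ 3 * ρ ^ 4 ≤ 315 ^ 3 / 100 ^ 3 * (15 / 100) ^ 4 :=
      mul_le_mul h3 h4 (by positivity) (by positivity)
    linarith only [hpi', h5]
  have m4 : -(Real.pi * ρ ^ 2) ≤ -(314 / 100 * (149 / 1000) ^ 2) := by nlinarith only [hpi, r1]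
  have m5 : 4 * Real.pi * |(r : ℝ)| * |ρ| * t - 2 * Real.pi * t ≤ 2 * (315 / 100) * (6 / 1000) := by
    have : 4 * Real.pi * |(r : ℝ)| * |ρ| * t - 2 * Real.pi * t =
      2 * Real.pi * ((|(r : ℝ)| * |ρ| * 2 - 1) * t) := by ring
    rw [this]
    nlinarith only [hpi, hpi', l2]
  linarith

end Pool.Agent.H63.VC3
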