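import Pool.Agent.H63.VC3.LLasym

/-! # Bounds and limits of the kernels -/

namespace Pool.Agent.H63.VC3

open Pool.Agent.H63.VC Complex Filter Topology

theorem KB_norm_cos_le (z : ℂ) : ‖Complex.cos z‖ ≤ Real.exp |z.im| := by
  rw [Complex.cos, norm_div]
  have h1 : ‖Complex.exp (z * I) + Complex.exp (-z * I)‖ ≤ 2 * Real.exp |z.im| := by
    refine (norm_add_le _ _).trans ?_
    rw [Complex.norm_exp, Complex.norm_exp]
    have e1 : (z * I).re = -z.im := by simp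
    have e2 : (-z * I).re = z.im := by simp
    rw [e1, e2]
    have h2 : Real.exp (-z.im) ≤ Real.exp |z.im| := Real.exp_le_exp.2 (neg_le_abs _)
    have h3 : Real.exp z.im ≤ Real.exp |z.im| := Real.exp_le_exp.2 (le_abs_self _)
    linarith
  have h2 : ‖(2 : ℂ)‖ = 2 := by simp
  rw [h2]
  linarith

theorem KB_norm_sin_le (z : ℂ) : ‖Complex.sin z‖ ≤ Real.exp |z.im| := by
  have h : Complex.sin z = Complex.cos (Real.pi / 2 - z) := by
    rw [← Complex.sin_pi_div_two_sub (Real.pi / 2 - z)]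
    congr 1
    ring
  rw [h]
  refine (KB_norm_cos_le _).trans ?_
  have : ((Real.pi : ℂ) / 2 - z).im = -z.im := by
    have h1 : ((Real.pi : ℂ) / 2).im = 0 := by
      have : ((Real.pi : ℂ) / 2) = ((Real.pi / 2 : ℝ) : ℂ) := by push_cast; ring
      rw [this, Complex.ofReal_im]
    rw [Complex.sub_im, h1]; ring
  rw [this, abs_neg]

theorem KB_Bn_norm (n M : ℕ) (v : ℂ) : ‖Bn n M v‖ ≤ (2 * Real.exp (Real.pi * |v.im|)) ^ (n - 2) := by
  unfold Bn
  rw [_root_.norm_prod]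
  calc ∏ j ∈ Finset.range (n - 2), ‖2 * Complex.cos (Real.pi * (v + ((j : ℂ) + 1 - bt n) / M))‖
      ≤ ∏ _j ∈ Finset.range (n - 2), (2 * Real.exp (Real.pi * |v.im|)) := by
        refine Finset.prod_le_prod (fun _ _ => norm_nonneg _) fun j _ => ?_
        rw [norm_mul]
        have h2 : ‖(2 : ℂ)‖ = 2 := by simp
        rw [h2]
        refine mul_le_mul_of_nonneg_left ?_ (by norm_num)
        refine (KB_norm_cos_le _).trans (le_of_eq ?_)
        congr 1
        have h3 : ((Real.pi : ℂ) * (v + ((j : ℂ) + 1 - bt n) / M)).im = Real.pi * v.im := by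
          have h4 : (((j : ℂ) + 1 - bt n) / M) = ((((j : ℝ) + 1 - bt n) / M : ℝ) : ℂ) := by
            push_cast; ring
          rw [h4, Complex.im_ofReal_mul, Complex.add_im, Complex.ofReal_im, add_zero]
        rw [h3, abs_mul, abs_of_pos Real.pi_pos]
    _ = _ := by rw [Finset.prod_const, Finset.card_range]

theorem KK_bound (r : ℤ) (n : ℕ) : ∃ C : ℝ, 0 < C ∧ ∀ M : ℕ, 1 ≤ M → ∀ y v : ℂ,
    4 / 100 ≤ (y - v).re → (y - v).re ≤ 46 / 100 → 4 / 100 ≤ (y + v).re →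
    (y + v).re ≤ 46 / 100 → |y.im| ≤ 1 / 10 → |v.im| ≤ 1 / 10 →
    ‖KK r n M y v‖ ≤ C / M *
      Real.exp (M * (2 * Real.pi * I * r * v ^ 2 - ff (y - v) - ff (y + v)).re) := by
  obtain ⟨C₀, hC₀, hL⟩ := LL_asym (4 / 100) (2 / 10) (by norm_num)
  refine ⟨(2 * Real.exp (2 * Real.pi * (1 / 10))) * (2 * Real.exp (Real.pi * (1 / 10))) ^ (n - 2) *
    Real.exp (2 * C₀), by positivity, ?_⟩
  intro M hM y v h1 h2 h3 h4 h5 h6
  have hM0 : (0 : ℝ) < M := by exact_mod_cast hM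
  have hM1 : (1 : ℝ) ≤ M := by exact_mod_cast hM
  have him1 : |(y - v).im| ≤ 2 / 10 := by
    rw [Complex.sub_im]; rw [abs_le] at *; constructor <;> linarith
  have him2 : |(y + v).im| ≤ 2 / 10 := by
    rw [Complex.add_im]; rw [abs_le] at *; constructor <;> linarith
  have hA := hL M hM (y - v) h1 (by linarith) him1
  have hB := hL M hM (y + v) h3 (by linarith) him2
  have hCM : C₀ / M ≤ C₀ := div_le_self hC₀.le hM1
  have hA' := (abs_le.1 ((Complex.abs_re_le_norm _).trans (hA.trans hCM))).1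
  have hB' := (abs_le.1 ((Complex.abs_re_le_norm _).trans (hB.trans hCM))).1
  have e1 : ((Real.log M : ℂ) / 2).re = Real.log M / 2 := by
    have : ((Real.log M : ℂ) / 2) = ((Real.log M / 2 : ℝ) : ℂ) := by push_cast; ring
    rw [this, Complex.ofReal_re]
  have e2 : ∀ z : ℂ, ((M : ℂ) * z).re = M * z.re := by
    intro z
    have : (M : ℂ) = ((M : ℝ) : ℂ) := by push_cast; rfl
    rw [this, Complex.re_ofReal_mul]
  rw [Complex.sub_re, Complex.sub_re, e1, e2] at hA' hB'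
  unfold KK
  rw [norm_mul, norm_mul, norm_mul, Complex.norm_exp, Complex.norm_exp]
  have hs : ‖2 * Complex.sin (2 * Real.pi * v)‖ ≤ 2 * Real.exp (2 * Real.pi * (1 / 10)) := by
    rw [norm_mul]
    have h2 : ‖(2 : ℂ)‖ = 2 := by simp
    rw [h2]
    refine mul_le_mul_of_nonneg_left ((KB_norm_sin_le _).trans (Real.exp_le_exp.2 ?_)) (by norm_num)
    have h7 : (2 * (Real.pi : ℂ) * v).im = 2 * Real.pi * v.im := by
      have : (2 * (Real.pi : ℂ)) = ((2 * Real.pi : ℝ) : ℂ) := by push_cast; ring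
      rw [this, Complex.im_ofReal_mul]
    rw [h7, abs_mul, abs_of_pos (by positivity : 0 < 2 * Real.pi)]
    exact mul_le_mul_of_nonneg_left h6 (by positivity)
  have hb : ‖Bn n M v‖ ≤ (2 * Real.exp (Real.pi * (1 / 10))) ^ (n - 2) := by
    refine (KB_Bn_norm n M v).trans (pow_le_pow_left₀ (by positivity) ?_ _)
    refine mul_le_mul_of_nonneg_left (Real.exp_le_exp.2 ?_) (by norm_num)
    exact mul_le_mul_of_nonneg_left h6 Real.pi_pos.le
  have hexp : Real.exp (2 * Real.pi * I * r * M * v ^ 2).re *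
      Real.exp (-LL M (M * (y - v) - 1 / 2) - LL M (M * (y + v) - 1 / 2)).re ≤
      Real.exp (2 * C₀) / M *
        Real.exp (M * (2 * Real.pi * I * r * v ^ 2 - ff (y - v) - ff (y + v)).re) := by
    have h8 : Real.exp (2 * C₀) / M *
        Real.exp (M * (2 * Real.pi * I * r * v ^ 2 - ff (y - v) - ff (y + v)).re) =
        Real.exp (2 * C₀ - Real.log M +
          M * (2 * Real.pi * I * r * v ^ 2 - ff (y - v) - ff (y + v)).re) := by
      rw [Real.exp_add, Real.exp_sub, Real.exp_log hM0]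
    rw [h8, ← Real.exp_add]
    refine Real.exp_le_exp.2 ?_
    have h9 : (2 * Real.pi * I * r * M * v ^ 2 : ℂ) = M * (2 * Real.pi * I * r * v ^ 2) := by ring
    rw [h9, e2, Complex.sub_re, Complex.neg_re, Complex.sub_re, Complex.sub_re]
    linarith
  calc Real.exp (2 * Real.pi * I * r * M * v ^ 2).re * ‖2 * Complex.sin (2 * Real.pi * v)‖ *
        ‖Bn n M v‖ * Real.exp (-LL M (M * (y - v) - 1 / 2) - LL M (M * (y + v) - 1 / 2)).re
      = ‖2 * Complex.sin (2 * Real.pi * v)‖ * ‖Bn n M v‖ *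
        (Real.exp (2 * Real.pi * I * r * M * v ^ 2).re *
        Real.exp (-LL M (M * (y - v) - 1 / 2) - LL M (M * (y + v) - 1 / 2)).re) := by ring
    _ ≤ (2 * Real.exp (2 * Real.pi * (1 / 10))) *
        (2 * Real.exp (Real.pi * (1 / 10))) ^ (n - 2) * (Real.exp (2 * C₀) / M *
        Real.exp (M * (2 * Real.pi * I * r * v ^ 2 - ff (y - v) - ff (y + v)).re)) := by
        refine mul_le_mul ?_ hexp (by positivity) (by positivity)
        exact mul_le_mul hs hb (norm_nonneg _) (by positivity)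
    _ = _ := by ring

/-- The real points at which `LL` is evaluated. -/
theorem KB_arg (n M : ℕ) (hM : (M : ℂ) ≠ 0) (y d : ℂ) :
    (M : ℂ) * (y + 1 / 2) - bt n - 1 / 2 + d =
      M * (y + 1 / 2 + (d - bt n) / M) - 1 / 2 := by
  field_simp
  ring

theorem KB_hh_bound : ∃ K : ℝ, 0 < K ∧ ∀ z : ℂ, 6 / 10 ≤ z.re → z.re ≤ 9 / 10 → |z.im| ≤ 1 / 10 →
    ‖hh z‖ ≤ K := by
  have hcomp : IsCompact (Set.Icc (6 / 10 : ℝ) (9 / 10) ×ℂ Set.Icc (-(1 / 10) : ℝ) (1 / 10)) :=
    isCompact_Icc.reProdIm isCompact_Icc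
  have hcont : ContinuousOn hh (Set.Icc (6 / 10 : ℝ) (9 / 10) ×ℂ Set.Icc (-(1 / 10) : ℝ) (1 / 10)) := by
    intro z hz
    rw [Complex.mem_reProdIm] at hz
    exact (hh_hasDerivAt z (by linarith [hz.1.1]) (by linarith [hz.1.2])).continuousAt.continuousWithinAt
  obtain ⟨K, hK⟩ := hcomp.exists_bound_of_continuousOn hcont
  refine ⟨max K 1, by positivity, fun z h1 h2 h3 => (hK z ?_).trans (le_max_left _ _)⟩
  rw [Complex.mem_reProdIm]
  exact ⟨⟨h1, h2⟩, abs_le.1 h3⟩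

/-- Variation of `ff` for real shifts. -/
theorem KB_ff_shift {K : ℝ} (hK : ∀ z : ℂ, 6 / 10 ≤ z.re → z.re ≤ 9 / 10 → |z.im| ≤ 1 / 10 →
    ‖hh z‖ ≤ K) (z z' : ℂ) (h1 : 6 / 10 ≤ z.re) (h2 : z.re ≤ 9 / 10) (h1' : 6 / 10 ≤ z'.re)
    (h2' : z'.re ≤ 9 / 10) (h3 : |z.im| ≤ 1 / 10) (h3' : |z'.im| ≤ 1 / 10) :
    ‖ff z' - ff z‖ ≤ K * ‖z' - z‖ := by
  have hconv : Convex ℝ (Set.Icc (6 / 10 : ℝ) (9 / 10) ×ℂ Set.Icc (-(1 / 10) : ℝ) (1 / 10)) := by
    intro u hu w hw a b ha hb hab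
    rw [Complex.mem_reProdIm] at hu hw ⊢
    have e1 : (a • u + b • w).re = a • u.re + b • w.re := by simp
    have e2 : (a • u + b • w).im = a • u.im + b • w.im := by simp
    rw [e1, e2]
    exact ⟨convex_Icc _ _ hu.1 hw.1 ha hb hab, convex_Icc _ _ hu.2 hw.2 ha hb hab⟩
  refine hconv.norm_image_sub_le_of_norm_hasDerivWithin_le (f := ff) (f' := hh) (C := K)
    (fun w hw => ?_) (fun w hw => ?_) ?_ ?_
  · rw [Complex.mem_reProdIm] at hw
    exact (ff_hasDerivAt w (by linarith [hw.1.1]) (by linarith [hw.1.2])).hasDerivWithinAt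
  · rw [Complex.mem_reProdIm] at hw
    exact hK w hw.1.1 hw.1.2 (abs_le.2 hw.2)
  · rw [Complex.mem_reProdIm]; exact ⟨⟨h1, h2⟩, abs_le.1 h3⟩
  · rw [Complex.mem_reProdIm]; exact ⟨⟨h1', h2'⟩, abs_le.1 h3'⟩

theorem Cc_bound (n g : ℕ) (hg : 1 ≤ g) (hgn : g ≤ n - 1) : ∃ C : ℝ, 0 < C ∧ ∀ M : ℕ,
    1000 * (n + 1) ≤ M → ∀ y : ℂ, 18 / 100 ≤ y.re → y.re ≤ 32 / 100 → |y.im| ≤ 1 / 10 →
    ‖Cc n g M y‖ ≤ C * (M : ℝ) ^ 2 * Real.exp (M * (4 * ff (y + 1 / 2)).re) := by
  obtain ⟨C₀, hC₀, hL⟩ := LL_asym (1 / 10) (1 / 10) (by norm_num)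
  obtain ⟨K, hK0, hK⟩ := KB_hh_bound
  refine ⟨Real.exp (4 * (C₀ + K * n)), by positivity, ?_⟩
  intro M hM y h1 h2 h3
  have hn2 : 2 ≤ n := by omega
  have hM' : 1 ≤ M := by omega
  have hM0 : (0 : ℝ) < M := by exact_mod_cast hM'
  have hM1 : (1 : ℝ) ≤ M := by exact_mod_cast hM'
  have hMn : 1000 * ((n : ℝ) + 1) ≤ M := by exact_mod_cast hM
  have hMC : (M : ℂ) ≠ 0 := by exact_mod_cast hM0.ne'
  have hCM : C₀ / M ≤ C₀ := div_le_self hC₀.le hM1
  have e2 : ∀ z : ℂ, ((M : ℂ) * z).re = M * z.re := by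
    intro z
    have : (M : ℂ) = ((M : ℝ) : ℂ) := by push_cast; rfl
    rw [this, Complex.re_ofReal_mul]
  have hlog : ((Real.log M : ℂ) / 2).re = Real.log M / 2 := by
    have : ((Real.log M : ℂ) / 2) = ((Real.log M / 2 : ℝ) : ℂ) := by push_cast; ring
    rw [this, Complex.ofReal_re]
  have hz_re : (y + 1 / 2 : ℂ).re = y.re + 1 / 2 := by simp
  have hz_im : (y + 1 / 2 : ℂ).im = y.im := by simp
  -- one factor
  have key : ∀ d : ℝ, 0 ≤ d → d ≤ n - 2 →
      (LL M (M * (y + 1 / 2) - bt n - 1 / 2 + (d : ℂ))).re ≤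
        Real.log M / 2 + M * (ff (y + 1 / 2)).re + (C₀ + K * n) := by
    intro d hd0 hd1
    set z : ℂ := y + 1 / 2 with hz
    set δ : ℝ := (d - bt n) / M with hδ
    have hbt : |d - bt n| ≤ n := by
      unfold bt
      rw [abs_le]
      constructor <;> linarith
    have hδ' : |δ| ≤ 1 / 1000 := by
      rw [hδ, abs_div, abs_of_pos hM0, div_le_iff₀ hM0]
      linarith
    have harg : (M : ℂ) * (y + 1 / 2) - bt n - 1 / 2 + (d : ℂ) = M * (z + (δ : ℂ)) - 1 / 2 := by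
      rw [KB_arg n M hMC y d, hδ]
      push_cast
      rfl
    rw [harg]
    have hre : (z + (δ : ℂ)).re = y.re + 1 / 2 + δ := by rw [Complex.add_re, hz_re, Complex.ofReal_re]
    have him : (z + (δ : ℂ)).im = y.im := by rw [Complex.add_im, hz_im, Complex.ofReal_im, add_zero]
    rw [abs_le] at hδ'
    have hA := hL M hM' (z + (δ : ℂ)) (by rw [hre]; linarith) (by rw [hre]; linarith)
      (by rw [him]; exact h3)
    have hA' := (abs_le.1 ((Complex.abs_re_le_norm _).trans (hA.trans hCM))).2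
    rw [Complex.sub_re, Complex.sub_re, hlog, e2] at hA'
    have hB := KB_ff_shift hK z (z + (δ : ℂ)) (by rw [hz_re]; linarith) (by rw [hz_re]; linarith)
      (by rw [hre]; linarith) (by rw [hre]; linarith) (by rw [hz_im]; exact h3)
      (by rw [him]; exact h3)
    rw [add_sub_cancel_left, Complex.norm_real, Real.norm_eq_abs] at hB
    have hB' := (abs_le.1 ((Complex.abs_re_le_norm _).trans hB)).2
    rw [Complex.sub_re] at hB'
    have hMδ : M * (K * |δ|) ≤ K * n := by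
      have : (M : ℝ) * |δ| = |d - bt n| := by
        rw [hδ, abs_div, abs_of_pos hM0]; field_simp
      calc (M : ℝ) * (K * |δ|) = K * (M * |δ|) := by ring
        _ ≤ K * n := by rw [this]; exact mul_le_mul_of_nonneg_left hbt hK0.le
    have h7 := mul_le_mul_of_nonneg_left hB' hM0.le
    linarith
  have hn2' : (2 : ℝ) ≤ n := by exact_mod_cast hn2
  have hg' : (1 : ℝ) ≤ g := by exact_mod_cast hg
  have hgn' : (g : ℝ) ≤ n - 1 := by
    have : g + 1 ≤ n := by omega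
    have h : ((g : ℝ) + 1) ≤ n := by exact_mod_cast this
    linarith
  have k0 := key 0 le_rfl (by linarith)
  have k1 := key ((g : ℝ) - 1) (by linarith) (by linarith)
  have k2 := key ((n : ℝ) - g - 1) (by linarith) (by linarith)
  have k3 := key ((n : ℝ) - 2) (by linarith) le_rfl
  unfold Cc
  rw [Complex.norm_exp]
  have hpow : (M : ℝ) ^ 2 = Real.exp (2 * Real.log M) := by
    rw [mul_comm, Real.exp_mul, Real.exp_log hM0]
    norm_cast
  rw [hpow, ← Real.exp_add, ← Real.exp_add]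
  refine Real.exp_le_exp.2 ?_
  rw [Complex.add_re, Complex.add_re, Complex.add_re]
  have e4 : (4 * ff (y + 1 / 2)).re = 4 * (ff (y + 1 / 2)).re := by
    have : (4 : ℂ) = ((4 : ℝ) : ℂ) := by push_cast; rfl
    rw [this, Complex.re_ofReal_mul]
  rw [e4]
  have c0 : (M : ℂ) * (y + 1 / 2) - bt n - 1 / 2 + ((0 : ℝ) : ℂ) =
    (M : ℂ) * (y + 1 / 2) - bt n - 1 / 2 := by push_cast; ring
  have c1 : (((g : ℝ) - 1 : ℝ) : ℂ) = (g : ℂ) - 1 := by push_cast; ring
  have c2 : (((n : ℝ) - g - 1 : ℝ) : ℂ) = (n : ℂ) - g - 1 := by push_cast; ring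
  have c3 : (((n : ℝ) - 2 : ℝ) : ℂ) = (n : ℂ) - 2 := by push_cast; ring
  rw [c0] at k0
  rw [c1] at k1
  rw [c2] at k2
  rw [c3] at k3
  linarith

/-- `LL` along a convergent sequence. -/
theorem KB_asym_tendsto (z : ℂ) (Z : ℕ → ℂ) (hZ : Tendsto Z atTop (𝓝 z)) (h0 : 0 < z.re)
    (h1 : z.re < 1) :
    Tendsto (fun M : ℕ => LL M (M * Z M - 1 / 2) - Real.log M / 2 - M * ff (Z M)) atTop (𝓝 0) := by
  set c : ℝ := min z.re (1 - z.re) / 2 with hc
  have hc0 : 0 < c := by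
    rw [hc]; exact half_pos (lt_min h0 (by linarith))
  have hc1 : c < z.re := by
    have : min z.re (1 - z.re) ≤ z.re := min_le_left _ _
    rw [hc]; linarith
  have hc2 : c < 1 - z.re := by
    have : min z.re (1 - z.re) ≤ 1 - z.re := min_le_right _ _
    rw [hc]; linarith
  obtain ⟨C, hC, hL⟩ := LL_asym c (|z.im| + 1) hc0
  have hre : Tendsto (fun M => (Z M).re) atTop (𝓝 z.re) :=
    (Complex.continuous_re.tendsto _).comp hZ
  have him : Tendsto (fun M => |(Z M).im|) atTop (𝓝 |z.im|) :=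
    ((continuous_abs.comp Complex.continuous_im).tendsto _).comp hZ
  have ev1 : ∀ᶠ M in atTop, c ≤ (Z M).re := (hre.eventually (lt_mem_nhds hc1)).mono fun _ h => h.le
  have ev2 : ∀ᶠ M in atTop, (Z M).re ≤ 1 - c :=
    (hre.eventually (gt_mem_nhds (show z.re < 1 - c by linarith))).mono fun _ h => h.le
  have ev3 : ∀ᶠ M in atTop, |(Z M).im| ≤ |z.im| + 1 :=
    (him.eventually (gt_mem_nhds (show |z.im| < |z.im| + 1 by linarith))).mono fun _ h => h.le
  have hlim : Tendsto (fun M : ℕ => C / (M : ℝ)) atTop (𝓝 0) :=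
    tendsto_const_div_atTop_nhds_zero_nat C
  refine squeeze_zero_norm' ?_ hlim
  filter_upwards [ev1, ev2, ev3, eventually_ge_atTop 1] with M h1 h2 h3 h4
  exact hL M h4 (Z M) h1 h2 h3

/-- Difference quotients of `ff` along a convergent sequence. -/
theorem KB_ff_diff (z δ : ℂ) (Z : ℕ → ℂ) (hZ : Tendsto Z atTop (𝓝 z)) (h0 : 0 < z.re)
    (h1 : z.re < 1) :
    Tendsto (fun M : ℕ => (M : ℂ) * (ff (Z M + δ / M) - ff (Z M))) atTop (𝓝 (δ * hh z)) := by
  have hopen : IsOpen {w : ℂ | 0 < w.re ∧ w.re < 1} :=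
    (isOpen_lt continuous_const Complex.continuous_re).inter
      (isOpen_lt Complex.continuous_re continuous_const)
  have hdiff : DifferentiableOn ℂ ff {w : ℂ | 0 < w.re ∧ w.re < 1} := fun w hw =>
    (ff_hasDerivAt w hw.1 hw.2).differentiableAt.differentiableWithinAt
  have han : AnalyticAt ℂ ff z := hdiff.analyticAt (hopen.mem_nhds ⟨h0, h1⟩)
  have hs : HasStrictDerivAt ff (hh z) z := by
    have := han.hasStrictDerivAt
    rwa [(ff_hasDerivAt z h0 h1).deriv] at this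
  have hδ : Tendsto (fun M : ℕ => δ / (M : ℂ)) atTop (𝓝 0) := by
    have h := tendsto_const_div_atTop_nhds_zero_nat (𝕜 := ℂ) δ
    exact h
  have hZ2 : Tendsto (fun M : ℕ => Z M + δ / M) atTop (𝓝 z) := by
    simpa using hZ.add hδ
  have hpair : Tendsto (fun M : ℕ => (Z M + δ / M, Z M)) atTop (𝓝 (z, z)) :=
    hZ2.prodMk_nhds hZ
  have ho := hs.isLittleO.comp_tendsto hpair
  have ho2 : (fun M : ℕ => ff (Z M + δ / M) - ff (Z M) - (δ / M) * hh z) =o[atTop]
      (fun M : ℕ => δ / (M : ℂ)) := by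
    refine (ho.congr_left (fun M => ?_)).congr_right (fun M => ?_)
    · simp only [Function.comp_apply]
      simp
    · simp only [Function.comp_apply]
      ring
  have ho3 : (fun M : ℕ => ff (Z M + δ / M) - ff (Z M) - (δ / M) * hh z) =o[atTop]
      (fun M : ℕ => ((M : ℂ))⁻¹) := by
    refine ho2.trans_isBigO ?_
    refine Asymptotics.IsBigO.of_bound ‖δ‖ (Eventually.of_forall fun M => ?_)
    rw [div_eq_mul_inv, norm_mul]
  have ho4 : Tendsto (fun M : ℕ => (ff (Z M + δ / M) - ff (Z M) - (δ / M) * hh z) / ((M : ℂ))⁻¹)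
      atTop (𝓝 0) := ho3.tendsto_div_nhds_zero
  have h5 : Tendsto (fun M : ℕ => (ff (Z M + δ / M) - ff (Z M) - (δ / M) * hh z) / ((M : ℂ))⁻¹ +
      δ * hh z) atTop (𝓝 (0 + δ * hh z)) := ho4.add tendsto_const_nhds
  rw [zero_add] at h5
  refine h5.congr' ?_
  filter_upwards [eventually_ge_atTop 1] with M hM
  have hM0 : (M : ℂ) ≠ 0 := by
    have : M ≠ 0 := by omega
    exact_mod_cast this
  field_simp
  ring

theorem KB_Bn_lim (n : ℕ) (v : ℂ) (V : ℕ → ℂ) (hV : Tendsto V atTop (𝓝 v)) :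
    Tendsto (fun M : ℕ => Bn n M (V M)) atTop (𝓝 ((2 * cos (Real.pi * v)) ^ (n - 2))) := by
  have h : Tendsto (fun M : ℕ => ∏ j ∈ Finset.range (n - 2),
      2 * Complex.cos (Real.pi * (V M + ((j : ℂ) + 1 - bt n) / M))) atTop
      (𝓝 (∏ _j ∈ Finset.range (n - 2), 2 * Complex.cos (Real.pi * v))) := by
    refine tendsto_finsetProd _ fun j _ => ?_
    have hδ : Tendsto (fun M : ℕ => ((j : ℂ) + 1 - bt n) / (M : ℂ)) atTop (𝓝 0) :=
      tendsto_const_div_atTop_nhds_zero_nat (𝕜 := ℂ) _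
    have h1 : Tendsto (fun M : ℕ => V M + ((j : ℂ) + 1 - bt n) / M) atTop (𝓝 v) := by
      simpa using hV.add hδ
    have hcont : Continuous (fun w : ℂ => 2 * Complex.cos (Real.pi * w)) := by fun_prop
    exact (hcont.tendsto v).comp h1
  rw [Finset.prod_const, Finset.card_range] at h
  exact h

/-- Limit of the normalized kernel along a convergent sequence. -/
theorem KK_lim (r : ℤ) (n : ℕ) (y v : ℂ) (Y V : ℕ → ℂ) (hY : Tendsto Y atTop (𝓝 y))
    (hV : Tendsto V atTop (𝓝 v)) (h1 : 0 < (y - v).re) (h2 : (y - v).re < 1)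
    (h3 : 0 < (y + v).re) (h4 : (y + v).re < 1) :
    Tendsto (fun M : ℕ => M * KK r n M (Y M) (V M) * exp (-M * (2 * Real.pi * I * r * (V M) ^ 2 -
      ff (Y M - V M) - ff (Y M + V M)))) atTop
      (𝓝 (2 * sin (2 * Real.pi * v) * (2 * cos (Real.pi * v)) ^ (n - 2))) := by
  have hE1 := KB_asym_tendsto (y - v) (fun M => Y M - V M) (hY.sub hV) h1 h2
  have hE2 := KB_asym_tendsto (y + v) (fun M => Y M + V M) (hY.add hV) h3 h4
  have hs : Tendsto (fun M : ℕ => 2 * sin (2 * Real.pi * V M)) atTop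
      (𝓝 (2 * sin (2 * Real.pi * v))) := by
    have hcont : Continuous (fun w : ℂ => 2 * Complex.sin (2 * Real.pi * w)) := by fun_prop
    exact (hcont.tendsto v).comp hV
  have hB := KB_Bn_lim n v V hV
  have hexp : Tendsto (fun M : ℕ => exp (-(LL M (M * (Y M - V M) - 1 / 2) - Real.log M / 2 -
      M * ff (Y M - V M)) - (LL M (M * (Y M + V M) - 1 / 2) - Real.log M / 2 -
      M * ff (Y M + V M)))) atTop (𝓝 1) := by
    have h := (Complex.continuous_exp.tendsto _).comp ((hE1.neg).sub hE2)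
    rw [neg_zero, sub_zero, Complex.exp_zero] at h
    exact h
  have hall := (hs.mul hB).mul hexp
  rw [mul_one] at hall
  refine hall.congr' ?_
  filter_upwards [eventually_ge_atTop 1] with M hM
  have hM0 : (0 : ℝ) < M := by
    have : 0 < M := by omega
    exact_mod_cast this
  have hlog : (M : ℂ) = exp (Real.log M) := by
    rw [← Complex.ofReal_exp, Real.exp_log hM0]; push_cast; rfl
  unfold KK
  have hsplit : (M : ℂ) * (exp (2 * Real.pi * I * r * M * V M ^ 2) * (2 * sin (2 * Real.pi * V M)) *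
      Bn n M (V M) * exp (-LL M (M * (Y M - V M) - 1 / 2) - LL M (M * (Y M + V M) - 1 / 2))) *
      exp (-M * (2 * Real.pi * I * r * (V M) ^ 2 - ff (Y M - V M) - ff (Y M + V M))) =
      (2 * sin (2 * Real.pi * V M) * Bn n M (V M)) * ((M : ℂ) *
      (exp (2 * Real.pi * I * r * M * V M ^ 2) *
        exp (-LL M (M * (Y M - V M) - 1 / 2) - LL M (M * (Y M + V M) - 1 / 2)) *
      exp (-M * (2 * Real.pi * I * r * (V M) ^ 2 - ff (Y M - V M) - ff (Y M + V M))))) := by ring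
  rw [hsplit]
  congr 1
  rw [← Complex.exp_add, ← Complex.exp_add]
  conv_rhs => rw [hlog]
  rw [← Complex.exp_add]
  congr 1
  rw [← hlog]
  ring

theorem Cc_lim (n g : ℕ) (hg : 1 ≤ g) (hgn : g ≤ n - 1) (y : ℂ) (Y : ℕ → ℂ)
    (hY : Tendsto Y atTop (𝓝 y)) (h1 : 0 < y.re) (h2 : y.re < 1 / 2) :
    Tendsto (fun M : ℕ => Cc n g M (Y M) / (M : ℂ) ^ 2 * exp (-M * (4 * ff (Y M + 1 / 2)))) atTop
      (𝓝 (exp (-2 * hh (y + 1 / 2)))) := by
  have hre : (y + 1 / 2 : ℂ).re = y.re + 1 / 2 := by simp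
  have hz0 : 0 < (y + 1 / 2 : ℂ).re := by rw [hre]; linarith
  have hz1 : (y + 1 / 2 : ℂ).re < 1 := by rw [hre]; linarith
  have hY2 : Tendsto (fun M => Y M + 1 / 2) atTop (𝓝 (y + 1 / 2)) := hY.add tendsto_const_nhds
  -- one factor
  have key : ∀ d : ℂ, Tendsto (fun M : ℕ => LL M (M * (Y M + 1 / 2) - bt n - 1 / 2 + d) -
      Real.log M / 2 - M * ff (Y M + 1 / 2)) atTop (𝓝 ((d - bt n) * hh (y + 1 / 2))) := by
    intro d
    have hδ : Tendsto (fun M : ℕ => (d - bt n) / (M : ℂ)) atTop (𝓝 0) :=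
      tendsto_const_div_atTop_nhds_zero_nat (𝕜 := ℂ) _
    have hZ : Tendsto (fun M : ℕ => Y M + 1 / 2 + (d - bt n) / M) atTop (𝓝 (y + 1 / 2)) := by
      simpa using hY2.add hδ
    have hA := KB_asym_tendsto (y + 1 / 2) (fun M => Y M + 1 / 2 + (d - bt n) / M) hZ hz0 hz1
    have hB := KB_ff_diff (y + 1 / 2) (d - bt n) (fun M => Y M + 1 / 2) hY2 hz0 hz1
    have hAB := hA.add hB
    rw [zero_add] at hAB
    refine hAB.congr' ?_
    filter_upwards [eventually_ge_atTop 1] with M hM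
    have hM0 : (M : ℂ) ≠ 0 := by
      have : M ≠ 0 := by omega
      exact_mod_cast this
    rw [KB_arg n M hM0 (Y M) d]
    ring
  have hsum := (((key 0).add (key ((g : ℂ) - 1))).add (key ((n : ℂ) - g - 1))).add
    (key ((n : ℂ) - 2))
  have hval : ((0 : ℂ) - bt n) * hh (y + 1 / 2) + ((g : ℂ) - 1 - bt n) * hh (y + 1 / 2) +
      ((n : ℂ) - g - 1 - bt n) * hh (y + 1 / 2) + ((n : ℂ) - 2 - bt n) * hh (y + 1 / 2) =
      -2 * hh (y + 1 / 2) := by
    unfold bt
    push_cast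
    ring
  rw [hval] at hsum
  have hexp := (Complex.continuous_exp.tendsto _).comp hsum
  refine hexp.congr' ?_
  filter_upwards [eventually_ge_atTop 1] with M hM
  have hM0 : (0 : ℝ) < M := by
    have : 0 < M := by omega
    exact_mod_cast this
  have hMne : (M : ℂ) ≠ 0 := by exact_mod_cast hM0.ne'
  have hlog : (M : ℂ) = exp (Real.log M) := by
    rw [← Complex.ofReal_exp, Real.exp_log hM0]; push_cast; rfl
  have hpow : (M : ℂ) ^ 2 = exp (2 * Real.log M) := by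
    rw [two_mul, Complex.exp_add, ← hlog, sq]
  simp only [Function.comp_apply]
  unfold Cc
  rw [hpow, ← Complex.exp_sub, ← Complex.exp_add]
  congr 1
  rw [add_zero]
  ring

end Pool.Agent.H63.VC3
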