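import Pool.Agent.H63.VC.SWpath

/-! # The five-term relation for the Bloch-Wigner dilogarithm -/

namespace Pool.Agent.H63.VC3

open Pool.Agent.H63.VC Complex

theorem Five_lob_conj (w : ℂ) :
    lob (Complex.arg ((starRingEnd ℂ) w)) = -lob (Complex.arg w) := by
  rw [← volA_lob_neg]
  apply SWpath_lob_angle
  rw [Complex.arg_conj_coe_angle, Real.Angle.coe_neg]

theorem bw_conj (z : ℂ) : blochWigner ((starRingEnd ℂ) z) = -blochWigner z := by
  unfold blochWigner
  have e1 : (1 - (starRingEnd ℂ) z)⁻¹ = (starRingEnd ℂ) (1 - z)⁻¹ := by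
    rw [map_inv₀, map_sub, map_one]
  have e2 : 1 - ((starRingEnd ℂ) z)⁻¹ = (starRingEnd ℂ) (1 - z⁻¹) := by
    rw [map_sub, map_inv₀, map_one]
  rw [e1, e2, Five_lob_conj, Five_lob_conj, Five_lob_conj]
  ring

/-- The sum of the five terms. -/
noncomputable def FiveF (x y : ℂ) : ℝ :=
  blochWigner x + blochWigner y + blochWigner ((1 - x) / (1 - x * y)) +
      blochWigner (1 - x * y) + blochWigner ((1 - y) / (1 - x * y))

theorem Five_quot_im (a b : ℂ) (hb : b ≠ 0) (h : (a * (starRingEnd ℂ) b).im ≠ 0) :
    (a / b).im ≠ 0 := by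
  intro h0
  apply h
  have h1 : a * (starRingEnd ℂ) b = (a / b) * ((Complex.normSq b : ℝ) : ℂ) := by
    rw [Complex.normSq_eq_conj_mul_self]
    field_simp
  rw [h1, Complex.mul_im, h0]
  simp

theorem Five_generic (x y : ℂ) (hx : x.im ≠ 0) (hy : y.im ≠ 0) (hxy : (x * y).im ≠ 0) :
    FiveF x y = 0 := by
  have hy1 : (1 : ℂ) - y ≠ 0 := by
    intro h
    apply hy
    have := congrArg Complex.im h
    simpa using this
  have hy0 : y ≠ 0 := by
    intro h
    rw [h] at hy
    simp at hy
  have hx0 : x ≠ 0 := by
    intro h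
    rw [h] at hx
    simp at hx
  have hden : ∀ t : ℝ, (1 : ℂ) - t * x * y ≠ 0 := by
    intro t h
    have h1 := congrArg Complex.im h
    have h2 : ((1 : ℂ) - t * x * y).im = -(t * (x * y).im) := by
      rw [mul_assoc]
      simp [Complex.mul_im]
    rw [h2, Complex.zero_im] at h1
    have h3 : t * (x * y).im = 0 := by linarith
    rcases mul_eq_zero.1 h3 with h4 | h4
    · rw [h4] at h
      simp at h
    · exact hxy h4
  set F : ℝ → ℝ := fun t => FiveF (t * x) y with hF
  set bad : Set ℝ := {0, ((x * y).im - x.im) / (Complex.normSq x * y.im),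
    y.im / ((x * y).im - Complex.normSq y * x.im)} with hbad
  have hcount : bad.Countable := by
    rw [hbad]
    exact (Set.toFinite _).countable
  have hcont : ContinuousOn F (Set.uIcc 0 1) := by
    have hc0 : Continuous fun t : ℝ => (t : ℂ) * x := by fun_prop
    have hc1 : Continuous fun t : ℝ => (1 : ℂ) - t * x * y := by fun_prop
    have hc2 : Continuous fun t : ℝ => (1 - (t : ℂ) * x) / (1 - t * x * y) :=
      Continuous.div (by fun_prop) hc1 hden
    have hc3 : Continuous fun t : ℝ => (1 - y) / (1 - (t : ℂ) * x * y) :=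
      Continuous.div (by fun_prop) hc1 hden
    apply Continuous.continuousOn
    simp only [hF, FiveF]
    exact ((((SWpath_continuous.comp hc0).add continuous_const).add
      (SWpath_continuous.comp hc2)).add (SWpath_continuous.comp hc1)).add
      (SWpath_continuous.comp hc3)
  have hderiv : ∀ t ∈ Set.Ioo (min (0 : ℝ) 1) (max 0 1) \ bad, HasDerivAt F 0 t := by
    rintro t ⟨ht, htb⟩
    rw [min_eq_left zero_le_one, max_eq_right zero_le_one] at ht
    have ht0 : t ≠ 0 := ht.1.ne'
    have htb1 : t ≠ ((x * y).im - x.im) / (Complex.normSq x * y.im) := by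
      intro h
      apply htb
      rw [hbad, ← h]
      simp
    have htb2 : t ≠ y.im / ((x * y).im - Complex.normSq y * x.im) := by
      intro h
      apply htb
      rw [hbad, ← h]
      simp
    set X : ℂ := t * x with hX
    have hXd : HasDerivAt (fun s : ℝ => (s : ℂ) * x) x t := by
      have h1 : HasDerivAt (fun s : ℝ => (s : ℂ)) 1 t := by
        exact (hasDerivAt_id t).ofReal_comp
      simpa using h1.mul_const x
    have hXim : X.im = t * x.im := by simp [hX]
    have hXyim : (X * y).im = t * (x * y).im := by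
      rw [hX, mul_assoc]; simp
    have him1 : X.im ≠ 0 := by rw [hXim]; exact mul_ne_zero ht0 hx
    have hX0 : X ≠ 0 := mul_ne_zero (by exact_mod_cast ht0) hx0
    have hX1 : (1 : ℂ) - X ≠ 0 := by
      intro h
      apply him1
      have := congrArg Complex.im h
      simpa using this
    have hE : (1 : ℂ) - X * y ≠ 0 := hden t
    have hdE : HasDerivAt (fun s : ℝ => (1 : ℂ) - s * x * y) (-(x * y)) t := by
      simpa using (hXd.mul_const y).const_sub 1
    have hd3 : HasDerivAt (fun s : ℝ => (1 - (s : ℂ) * x) / (1 - s * x * y))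
        ((-x * (1 - X * y) - (1 - X) * (-(x * y))) / (1 - X * y) ^ 2) t := by
      exact (hXd.const_sub 1).div hdE hE
    have hd5 : HasDerivAt (fun s : ℝ => (1 - y) / (1 - (s : ℂ) * x * y))
        ((0 * (1 - X * y) - (1 - y) * (-(x * y))) / (1 - X * y) ^ 2) t := by
      exact (hasDerivAt_const t (1 - y)).div hdE hE
    have him4 : ((1 : ℂ) - X * y).im ≠ 0 := by
      rw [Complex.sub_im, Complex.one_im, hXyim, zero_sub]
      exact neg_ne_zero.2 (mul_ne_zero ht0 hxy)
    have him3 : ((1 - X) / (1 - X * y)).im ≠ 0 := by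
      apply Five_quot_im _ _ hE
      have e : ((1 - X) * (starRingEnd ℂ) (1 - X * y)).im =
          t * ((x * y).im - x.im - t * (Complex.normSq x * y.im)) := by
        rw [hX]
        simp only [map_sub, map_one, map_mul, Complex.conj_ofReal, Complex.mul_im, Complex.mul_re,
          Complex.sub_re, Complex.sub_im, Complex.one_re, Complex.one_im, Complex.conj_re,
          Complex.conj_im, Complex.ofReal_re, Complex.ofReal_im, Complex.normSq_apply]
        ring
      rw [e]
      apply mul_ne_zero ht0
      intro h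
      apply htb1
      have hn : Complex.normSq x * y.im ≠ 0 :=
        mul_ne_zero (by rw [ne_eq, Complex.normSq_eq_zero]; exact hx0) hy
      rw [eq_div_iff hn]
      linarith
    have him5 : ((1 - y) / (1 - X * y)).im ≠ 0 := by
      apply Five_quot_im _ _ hE
      have e : ((1 - y) * (starRingEnd ℂ) (1 - X * y)).im =
          t * ((x * y).im - Complex.normSq y * x.im) - y.im := by
        rw [hX]
        simp only [map_sub, map_one, map_mul, Complex.conj_ofReal, Complex.mul_im, Complex.mul_re,
          Complex.sub_re, Complex.sub_im, Complex.one_re, Complex.one_im, Complex.conj_re,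
          Complex.conj_im, Complex.ofReal_re, Complex.ofReal_im, Complex.normSq_apply]
        ring
      rw [e]
      intro h
      apply htb2
      have hn : (x * y).im - Complex.normSq y * x.im ≠ 0 := by
        intro h0
        rw [h0, mul_zero, zero_sub, neg_eq_zero] at h
        exact hy h
      rw [eq_div_iff hn]
      linarith
    have D1 := blochWigner_hasDerivAt _ _ t hXd him1
    have D2 : HasDerivAt (fun _ : ℝ => blochWigner y) 0 t := hasDerivAt_const t _
    have D3 := blochWigner_hasDerivAt _ _ t hd3 him3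
    have D4 := blochWigner_hasDerivAt _ _ t hdE him4
    have D5 := blochWigner_hasDerivAt _ _ t hd5 him5
    have D := (((D1.add D2).add D3).add D4).add D5
    refine HasDerivAt.congr_deriv (f := F) D ?_
    rw [← hX]
    -- algebra
    set E : ℂ := 1 - X * y with hEdef
    have u3 : 1 - (1 - X) / E = X * (1 - y) / E := by
      rw [eq_div_iff hE, sub_mul, div_mul_cancel₀ _ hE, hEdef]
      ring
    have u4 : 1 - E = X * y := by rw [hEdef]; ring
    have u5 : 1 - (1 - y) / E = y * (1 - X) / E := by
      rw [eq_div_iff hE, sub_mul, div_mul_cancel₀ _ hE, hEdef]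
      ring
    have n0 : ‖X‖ ≠ 0 := norm_ne_zero_iff.2 hX0
    have n1 : ‖1 - X‖ ≠ 0 := norm_ne_zero_iff.2 hX1
    have n2 : ‖y‖ ≠ 0 := norm_ne_zero_iff.2 hy0
    have n3 : ‖1 - y‖ ≠ 0 := norm_ne_zero_iff.2 hy1
    have n4 : ‖E‖ ≠ 0 := norm_ne_zero_iff.2 hE
    have l3 : Real.log ‖(1 - X) / E‖ = Real.log ‖1 - X‖ - Real.log ‖E‖ := by
      rw [norm_div, Real.log_div n1 n4]
    have l3' : Real.log ‖X * (1 - y) / E‖ =
        Real.log ‖X‖ + Real.log ‖1 - y‖ - Real.log ‖E‖ := by
      rw [norm_div, norm_mul, Real.log_div (mul_ne_zero n0 n3) n4, Real.log_mul n0 n3]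
    have l4 : Real.log ‖X * y‖ = Real.log ‖X‖ + Real.log ‖y‖ := by
      rw [norm_mul, Real.log_mul n0 n2]
    have l5 : Real.log ‖(1 - y) / E‖ = Real.log ‖1 - y‖ - Real.log ‖E‖ := by
      rw [norm_div, Real.log_div n3 n4]
    have l5' : Real.log ‖y * (1 - X) / E‖ =
        Real.log ‖y‖ + Real.log ‖1 - X‖ - Real.log ‖E‖ := by
      rw [norm_div, norm_mul, Real.log_div (mul_ne_zero n2 n1) n4, Real.log_mul n2 n1]
    -- logarithmic derivatives
    have d3 : (-x * E - (1 - X) * (-(x * y))) / E ^ 2 / ((1 - X) / E) =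
        -x / (1 - X) - -(x * y) / E := by
      field_simp
    have d3' : -((-x * E - (1 - X) * (-(x * y))) / E ^ 2) / (X * (1 - y) / E) =
        x / X - -(x * y) / E := by
      have e : -((-x * E - (1 - X) * (-(x * y)))) = x * (1 - y) := by
        rw [hEdef]; ring
      have e2 : x / X - -(x * y) / E = x / (X * E) := by
        field_simp
        rw [hEdef]; ring
      rw [e2, ← neg_div, e]
      field_simp
    have d4' : -(-(x * y)) / (X * y) = x / X := by
      field_simp
    have d5 : (0 * E - (1 - y) * (-(x * y))) / E ^ 2 / ((1 - y) / E) = -(-(x * y) / E) := by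
      field_simp
      ring
    have d5' : -((0 * E - (1 - y) * (-(x * y))) / E ^ 2) / (y * (1 - X) / E) =
        -x / (1 - X) - -(x * y) / E := by
      have e2 : -x / (1 - X) - -(x * y) / E = -(x * (1 - y)) / ((1 - X) * E) := by
        field_simp
        rw [hEdef]; ring
      rw [e2]
      field_simp
      ring
    rw [u3, u4, u5, l3, l3', l4, l5, l5', d3, d3', d4', d5, d5']
    simp only [Complex.sub_im, Complex.neg_im]
    ring
  have h1 := MeasureTheory.integral_eq_of_hasDerivAt_off_countable F (fun _ => (0 : ℝ)) hcount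
    hcont hderiv (by simp)
  rw [intervalIntegral.integral_zero] at h1
  have h2 : F 0 = 0 := by
    have b0 := blochWigner_real 0
    have b1 := blochWigner_real 1
    rw [Complex.ofReal_zero] at b0
    rw [Complex.ofReal_one] at b1
    simp only [hF, FiveF, Complex.ofReal_zero, zero_mul, sub_zero, div_one, b0, b1,
      SWpath_one_sub]
    ring
  have h3 : F 1 = FiveF x y := by
    simp only [hF, Complex.ofReal_one, one_mul]
  rw [← h3]
  linarith

theorem five_term (x y : ℂ) (h : x * y ≠ 1) :
    blochWigner x + blochWigner y + blochWigner ((1 - x) / (1 - x * y)) +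
      blochWigner (1 - x * y) + blochWigner ((1 - y) / (1 - x * y)) = 0 := by
  change FiveF x y = 0
  have hE : (1 : ℂ) - x * y ≠ 0 := sub_ne_zero.2 (Ne.symm h)
  set X : ℝ → ℂ := fun s => x + s * I with hX
  set Y : ℝ → ℂ := fun s => y + s * (1 + I) with hY
  have hX0 : X 0 = x := by simp [hX]
  have hY0 : Y 0 = y := by simp [hY]
  have hXc : Continuous X := by rw [hX]; fun_prop
  have hYc : Continuous Y := by rw [hY]; fun_prop
  have hc1 : ContinuousAt (fun s => 1 - X s * Y s) 0 := by
    exact (continuous_const.sub (hXc.mul hYc)).continuousAt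
  have hE' : (1 : ℂ) - X 0 * Y 0 ≠ 0 := by rw [hX0, hY0]; exact hE
  have hcont : ContinuousAt (fun s => FiveF (X s) (Y s)) 0 := by
    unfold FiveF
    have c1 : ContinuousAt (fun s => blochWigner (X s)) 0 :=
      (SWpath_continuous.comp hXc).continuousAt
    have c2 : ContinuousAt (fun s => blochWigner (Y s)) 0 :=
      (SWpath_continuous.comp hYc).continuousAt
    have c3 : ContinuousAt (fun s => blochWigner ((1 - X s) / (1 - X s * Y s))) 0 := by
      apply ContinuousAt.comp (g := blochWigner) SWpath_continuous.continuousAt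
      exact ((continuous_const.sub hXc).continuousAt).div hc1 hE'
    have c4 : ContinuousAt (fun s => blochWigner (1 - X s * Y s)) 0 :=
      ContinuousAt.comp (g := blochWigner) SWpath_continuous.continuousAt hc1
    have c5 : ContinuousAt (fun s => blochWigner ((1 - Y s) / (1 - X s * Y s))) 0 := by
      apply ContinuousAt.comp (g := blochWigner) SWpath_continuous.continuousAt
      exact ((continuous_const.sub hYc).continuousAt).div hc1 hE'
    exact (((c1.add c2).add c3).add c4).add c5
  have hev : ∀ᶠ s in nhdsWithin (0 : ℝ) {0}ᶜ, FiveF (X s) (Y s) = 0 := by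
    set A : ℝ := (I * y + (1 + I) * x).im with hA
    set B : ℝ := (x * y).im with hB
    have hfin : {s : ℝ | s ^ 2 + A * s + B = 0}.Finite := by
      set P : Polynomial ℝ := Polynomial.X ^ 2 + Polynomial.C A * Polynomial.X +
        Polynomial.C B with hP
      have hmon : P.Monic := by
        rw [hP]
        monicity!
      have hP0 : P ≠ 0 := hmon.ne_zero
      refine (Polynomial.finite_setOfPred_isRoot hP0).subset ?_
      intro s hs
      simp only [Set.mem_ofPred_eq] at hs ⊢
      simp only [Polynomial.IsRoot.def, hP, Polynomial.eval_add, Polynomial.eval_pow,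
        Polynomial.eval_X, Polynomial.eval_mul, Polynomial.eval_C]
      exact hs
    have hfin2 : ({s : ℝ | s ^ 2 + A * s + B = 0} ∪ {-x.im, -y.im}).Finite :=
      hfin.union (Set.toFinite _)
    have hev2 : ∀ᶠ s in nhdsWithin (0 : ℝ) {0}ᶜ,
        s ∉ ({s : ℝ | s ^ 2 + A * s + B = 0} ∪ {-x.im, -y.im}) \ {0} := by
      have hcl : IsClosed (({s : ℝ | s ^ 2 + A * s + B = 0} ∪ {-x.im, -y.im}) \ {0}) :=
        (hfin2.subset Set.sdiff_subset).isClosed
      apply mem_nhdsWithin_of_mem_nhds
      apply hcl.isOpen_compl.mem_nhds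
      simp
    filter_upwards [hev2, self_mem_nhdsWithin] with s hs hs0
    have hs' : s ∉ ({s : ℝ | s ^ 2 + A * s + B = 0} ∪ {-x.im, -y.im}) := fun h => hs ⟨h, hs0⟩
    rw [Set.mem_union, not_or, Set.mem_insert_iff, not_or, Set.mem_singleton_iff,
      Set.mem_ofPred_eq] at hs'
    obtain ⟨h1, h2, h3⟩ := hs'
    apply Five_generic
    · have e : (X s).im = x.im + s := by simp [hX]
      rw [e]
      intro h
      apply h2
      linarith
    · have e : (Y s).im = y.im + s := by simp [hY]
      rw [e]
      intro h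
      apply h3
      linarith
    · have e : (X s * Y s).im = s ^ 2 + A * s + B := by
        simp only [hX, hY, hA, hB, Complex.mul_im, Complex.mul_re, Complex.add_re, Complex.add_im,
          Complex.ofReal_re, Complex.ofReal_im, Complex.I_re, Complex.I_im, Complex.one_re,
          Complex.one_im]
        ring
      rw [e]
      exact h1
  have ht : Filter.Tendsto (fun s => FiveF (X s) (Y s)) (nhdsWithin (0 : ℝ) {0}ᶜ)
      (nhds (FiveF (X 0) (Y 0))) := hcont.tendsto.mono_left nhdsWithin_le_nhds
  have h0 : Filter.Tendsto (fun s => FiveF (X s) (Y s)) (nhdsWithin (0 : ℝ) {0}ᶜ) (nhds 0) := by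
    refine (tendsto_const_nhds (x := (0 : ℝ))).congr' ?_
    filter_upwards [hev] with s hs
    exact hs.symm
  have := tendsto_nhds_unique ht h0
  rwa [hX0, hY0] at this

end Pool.Agent.H63.VC3
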