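import Pool.Agent.H63.VC3.Clausen
import Pool.Agent.H63.VC3.Five

/-! # The real part of `ff` and the Bloch-Wigner dilogarithm -/

namespace Pool.Agent.H63.VC3

open Pool.Agent.H63.VC Complex

theorem BWff_circle_aux (t : ℝ) (ht : t ∈ Set.Icc 0 Real.pi) :
    blochWigner (exp (t * I)) = 2 * lob (t / 2) := by
  set H : ℝ → ℝ := fun s => blochWigner (exp (s * I)) - 2 * lob (s / 2) with hH
  have hcont : ContinuousOn H (Set.Icc 0 Real.pi) := by
    apply Continuous.continuousOn
    apply Continuous.sub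
    · exact SWpath_continuous.comp (by fun_prop)
    · exact continuous_const.mul (volA_lob_continuous.comp (by fun_prop))
  have hder : ∀ s ∈ Set.Ico (0 : ℝ) Real.pi, 0 < s → HasDerivAt H 0 s := by
    intro s hs hs0
    have h1 := SWpath_circle_deriv s ⟨hs0, hs.2⟩
    have hsin : 0 < Real.sin (s / 2) :=
      Real.sin_pos_of_pos_of_lt_pi (by linarith) (by have := hs.2; linarith)
    have h2 := volA_lob_hasDerivAt (s / 2) hsin.ne'
    have h3 : HasDerivAt (fun s : ℝ => s / 2) (1 / 2) s := (hasDerivAt_id s).div_const 2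
    have h4 := (HasDerivAt.comp s h2 h3).const_mul 2
    have h5 := h1.sub h4
    refine HasDerivAt.congr_deriv (f := H) h5 ?_
    rw [abs_of_pos (by positivity)]
    ring
  have hH0 : H 0 = 0 := by
    have b1 := blochWigner_real 1
    rw [Complex.ofReal_one] at b1
    simp [hH, b1, volA_lob_zero]
  have key : H t = H 0 := by
    have h1 := MeasureTheory.integral_eq_of_hasDerivAt_off_countable_of_le H (fun _ => (0 : ℝ))
      (s := ∅) ht.1 Set.countable_empty (hcont.mono (Set.Icc_subset_Icc_right ht.2))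
      (fun s hs => hder s ⟨hs.1.1.le, lt_of_lt_of_le hs.1.2 ht.2⟩ hs.1.1) (by simp)
    rw [intervalIntegral.integral_zero] at h1
    linarith
  rw [hH0] at key
  simp only [hH] at key
  linarith

theorem BWff_circle (a : ℝ) (h0 : 0 < a) (h1 : a < 1) :
    blochWigner (exp (2 * Real.pi * I * a)) = 2 * lob (Real.pi * a) := by
  have hpi := Real.pi_pos
  rcases le_or_gt a (1 / 2) with h | h
  · have e : (2 * Real.pi * I * a : ℂ) = ((2 * Real.pi * a : ℝ) : ℂ) * I := by
      push_cast; ring
    rw [e, BWff_circle_aux _ ⟨by positivity, by nlinarith⟩]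
    congr 2
    ring
  · have e : exp (2 * Real.pi * I * a : ℂ) =
        (starRingEnd ℂ) (exp (((2 * Real.pi * (1 - a) : ℝ) : ℂ) * I)) := by
      rw [← Complex.exp_conj, map_mul, Complex.conj_ofReal, Complex.conj_I, Complex.exp_eq_exp_iff_exists_int]
      refine ⟨1, ?_⟩
      push_cast
      ring
    rw [e, bw_conj, BWff_circle_aux _ ⟨by nlinarith, by nlinarith⟩]
    have e2 : 2 * Real.pi * (1 - a) / 2 = -(Real.pi * a) + Real.pi := by ring
    rw [e2, volA_lob_add_pi, volA_lob_neg]
    ring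

/-- The derivative of `D (exp (2 π i (a + i b)))` in `b`. -/
theorem BWff_deriv (a b : ℝ) (h0 : 0 < a) (h1 : a < 1) :
    HasDerivAt (fun s : ℝ => blochWigner (exp (2 * Real.pi * I * (a + s * I))))
      (-(2 * Real.pi * b) * (Real.pi * Complex.cot (Real.pi * (a + b * I))).re) b := by
  have hpi := Real.pi_pos
  set z : ℂ := a + b * I with hz
  have hsin : Complex.sin (Real.pi * z) ≠ 0 := by
    intro h
    rw [Complex.sin_eq_zero_iff] at h
    obtain ⟨k, hk⟩ := h
    have h2 := congrArg Complex.re hk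
    have h3 : (Real.pi * z : ℂ).re = Real.pi * a := by simp [hz]
    have h4 : ((k : ℂ) * Real.pi).re = k * Real.pi := by simp
    rw [h3, h4] at h2
    have h5 : a = k := by
      have : Real.pi * (a - k) = 0 := by linarith
      rcases mul_eq_zero.1 this with h6 | h6
      · exact absurd h6 hpi.ne'
      · linarith
    rw [h5] at h0 h1
    have h6 : (0 : ℤ) < k := by exact_mod_cast h0
    have h7 : k < 1 := by exact_mod_cast h1
    omega
  set ζ : ℂ := exp (2 * Real.pi * I * z) with hζ
  have hζ0 : ζ ≠ 0 := Complex.exp_ne_zero _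
  -- `1 - ζ = -2 i sin (π z) e^{π i z}`
  have h1ζ : 1 - ζ = -2 * I * Complex.sin (Real.pi * z) * exp (Real.pi * z * I) := by
    have e1 : ζ = exp (Real.pi * z * I) * exp (Real.pi * z * I) := by
      rw [hζ, ← Complex.exp_add]
      congr 1
      ring
    have e2 : exp (-(Real.pi * z) * I) * exp (Real.pi * z * I) = 1 := by
      rw [← Complex.exp_add]
      simp
    rw [Complex.sin, e1]
    linear_combination (-1 : ℂ) * e2 +
      (exp (-(Real.pi * z) * I) * exp (Real.pi * z * I) - exp (Real.pi * z * I) * exp (Real.pi * z * I)) * I_sq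
  have h1ζ0 : 1 - ζ ≠ 0 := by
    rw [h1ζ]
    exact mul_ne_zero (mul_ne_zero (mul_ne_zero (by norm_num) I_ne_zero) hsin)
      (Complex.exp_ne_zero _)
  -- the cotangent
  have hcot : Complex.cot (Real.pi * z) = -I * (1 + 2 * (ζ / (1 - ζ))) := by
    have e1 : ζ = exp (Real.pi * z * I) * exp (Real.pi * z * I) := by
      rw [hζ, ← Complex.exp_add]
      congr 1
      ring
    have e2 : exp (-(Real.pi * z) * I) * exp (Real.pi * z * I) = 1 := by
      rw [← Complex.exp_add]
      simp
    have e3 : 1 + ζ = 2 * Complex.cos (Real.pi * z) * exp (Real.pi * z * I) := by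
      rw [Complex.cos, e1]
      linear_combination (-1 : ℂ) * e2
    have e4 : 1 + 2 * (ζ / (1 - ζ)) = (1 + ζ) / (1 - ζ) := by
      field_simp
      ring
    rw [e4, e3, h1ζ, Complex.cot_eq_cos_div_sin]
    have e5 := Complex.exp_ne_zero (Real.pi * z * I)
    have e6 := I_ne_zero
    field_simp
  have hd : HasDerivAt (fun s : ℝ => exp (2 * Real.pi * I * (a + s * I))) (-(2 * Real.pi) * ζ) b := by
    have h2 : HasDerivAt (fun s : ℝ => (s : ℂ)) 1 b := (hasDerivAt_id b).ofReal_comp
    have h3 : HasDerivAt (fun s : ℝ => 2 * Real.pi * I * (a + s * I)) (-(2 * Real.pi)) b := by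
      have h4 := ((h2.mul_const I).const_add (a : ℂ)).const_mul (2 * Real.pi * I)
      refine h4.congr_deriv ?_
      linear_combination (2 * Real.pi : ℂ) * I_sq
    have h4 := h3.cexp
    refine h4.congr_deriv ?_
    rw [mul_comm]
  have hre : (Real.pi * Complex.cot (Real.pi * z)).re = 2 * Real.pi * (ζ / (1 - ζ)).im := by
    rw [hcot]
    have e : (-I * (1 + 2 * (ζ / (1 - ζ)))).re = 2 * (ζ / (1 - ζ)).im := by
      simp [Complex.mul_re]
    rw [Complex.re_ofReal_mul, e]
    ring
  by_cases him : ζ.im = 0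
  · -- `ζ` is real: then `sin (2 π a) = 0` and everything vanishes
    have hs : Real.sin (2 * Real.pi * a) = 0 := by
      have e : ζ.im = Real.exp (-(2 * Real.pi * b)) * Real.sin (2 * Real.pi * a) := by
        rw [hζ, Complex.exp_im]
        congr 2
        · simp [hz]
        · simp [hz]
      rw [e] at him
      rcases mul_eq_zero.1 him with h2 | h2
      · exact absurd h2 (Real.exp_ne_zero _)
      · exact h2
    have hall : ∀ s : ℝ, blochWigner (exp (2 * Real.pi * I * (a + s * I))) = 0 := by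
      intro s
      have e : exp (2 * Real.pi * I * (a + s * I)) =
          ((exp (2 * Real.pi * I * (a + s * I))).re : ℂ) := by
        apply Complex.ext
        · simp
        · rw [Complex.ofReal_im, Complex.exp_im]
          have e2 : (2 * Real.pi * I * (a + s * I) : ℂ).im = 2 * Real.pi * a := by simp
          rw [e2, hs, mul_zero]
      rw [e]
      exact blochWigner_real _
    have h2 : (ζ / (1 - ζ)).im = 0 := by
      have e : ζ / (1 - ζ) = ((ζ.re / (1 - ζ.re) : ℝ) : ℂ) := by
        have e2 : ζ = (ζ.re : ℂ) := by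
          apply Complex.ext
          · simp
          · simp [him]
        push_cast
        rw [← e2]
      rw [e, Complex.ofReal_im]
    rw [hre, h2, mul_zero, mul_zero]
    refine (hasDerivAt_const b (0 : ℝ)).congr_of_eventuallyEq ?_
    exact Filter.Eventually.of_forall fun s => hall s
  · have h2 := blochWigner_hasDerivAt _ _ b hd him
    refine h2.congr_deriv ?_
    rw [← hz, ← hζ, hre]
    have e1 : (-(2 * Real.pi) * ζ / ζ : ℂ) = ((-(2 * Real.pi) : ℝ) : ℂ) := by
      field_simp
      push_cast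
      ring
    have e2 : (-(-(2 * Real.pi) * ζ) / (1 - ζ)).im = 2 * Real.pi * (ζ / (1 - ζ)).im := by
      have e3 : (-(-(2 * Real.pi) * ζ) / (1 - ζ) : ℂ) = ((2 * Real.pi : ℝ) : ℂ) * (ζ / (1 - ζ)) := by
        push_cast
        ring
      rw [e3, Complex.im_ofReal_mul]
    have e3 : Real.log ‖ζ‖ = -(2 * Real.pi * b) := by
      rw [hζ, Complex.norm_exp, Real.log_exp]
      simp [hz]
    rw [e1, Complex.ofReal_im, e2, e3]
    ring

theorem ff_re_bw (z : ℂ) (h0 : 0 < z.re) (h1 : z.re < 1) :
    2 * Real.pi * (ff z).re = -blochWigner (exp (2 * Real.pi * I * z)) -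
      2 * Real.pi * z.im * (hh z).im := by
  have hpi := Real.pi_pos
  set a : ℝ := z.re with ha
  set G : ℝ → ℝ := fun b => 2 * Real.pi * (ff (a + b * I)).re +
    blochWigner (exp (2 * Real.pi * I * (a + b * I))) + 2 * Real.pi * b * (hh (a + b * I)).im with hG
  have hre : ∀ b : ℝ, ((a : ℂ) + b * I).re = a := by intro b; simp
  have hpath : ∀ b : ℝ, HasDerivAt (fun s : ℝ => (a : ℂ) + s * I) I b := by
    intro b
    have h2 : HasDerivAt (fun s : ℝ => (s : ℂ)) 1 b := (hasDerivAt_id b).ofReal_comp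
    have h3 := (h2.mul_const I).const_add (a : ℂ)
    simpa using h3
  have hder : ∀ b : ℝ, HasDerivAt G 0 b := by
    intro b
    have hf := (ff_hasDerivAt (a + b * I) (by rw [hre]; exact h0) (by rw [hre]; exact h1))
    have hf' : HasDerivAt (fun s : ℝ => ff (a + s * I)) (hh (a + b * I) * I) b :=
      HasDerivAt.comp (𝕜 := ℝ) (𝕜' := ℂ) (h₂ := ff) (h := fun s : ℝ => (a : ℂ) + s * I) b hf
        (hpath b)
    have hh1 := (hh_hasDerivAt (a + b * I) (by rw [hre]; exact h0) (by rw [hre]; exact h1))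
    have hh' : HasDerivAt (fun s : ℝ => hh (a + s * I))
        (Real.pi * Complex.cot (Real.pi * (a + b * I)) * I) b :=
      HasDerivAt.comp (𝕜 := ℝ) (𝕜' := ℂ) (h₂ := hh) (h := fun s : ℝ => (a : ℂ) + s * I) b hh1
        (hpath b)
    have d1 : HasDerivAt (fun s : ℝ => (ff (a + s * I)).re) ((hh (a + b * I) * I).re) b := by
      have := Complex.reCLM.hasFDerivAt.comp_hasDerivAt b hf'
      simpa [Function.comp_def] using this
    have d2 : HasDerivAt (fun s : ℝ => (hh (a + s * I)).im)
        ((Real.pi * Complex.cot (Real.pi * (a + b * I)) * I).im) b := by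
      have := Complex.imCLM.hasFDerivAt.comp_hasDerivAt b hh'
      simpa [Function.comp_def] using this
    have d3 := BWff_deriv a b h0 h1
    have d4 := ((hasDerivAt_id b).const_mul (2 * Real.pi)).mul d2
    have d5 := ((d1.const_mul (2 * Real.pi)).add d3).add d4
    refine HasDerivAt.congr_deriv (f := G) d5 ?_
    simp only [Complex.mul_I_re, Complex.mul_I_im, id, mul_one]
    ring
  have hconst : ∀ b, G b = G 0 := by
    intro b
    exact is_const_of_deriv_eq_zero (fun s => (hder s).differentiableAt)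
      (fun s => (hder s).deriv) b 0
  have hG0 : G 0 = 0 := by
    simp only [hG, Complex.ofReal_zero, zero_mul, add_zero, mul_zero]
    rw [ff_real a h0 h1, BWff_circle a h0 h1, Complex.ofReal_re, Fr]
    field_simp
    ring
  have h2 := hconst z.im
  rw [hG0] at h2
  simp only [hG] at h2
  have e : (a : ℂ) + z.im * I = z := Complex.re_add_im z
  rw [e] at h2
  linarith

theorem BWff_loc (r : ℤ) (y v : ℂ) (hr : 10 ≤ |r|) (bdy : ‖y - 1 / 4‖ ≤ 1 / 100)
    (bdv : ‖v + 1 / (2 * r)‖ ≤ 3 / (10 * (r : ℝ) ^ 2)) :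
    (0 < (y - v).re ∧ (y - v).re < 1) ∧ (0 < (y + v).re ∧ (y + v).re < 1) := by
  have hr' : (10 : ℝ) ≤ |(r : ℝ)| := by
    have : ((10 : ℤ) : ℝ) ≤ ((|r| : ℤ) : ℝ) := by exact_mod_cast hr
    simpa using this
  have hr2 : (100 : ℝ) ≤ (r : ℝ) ^ 2 := by
    rw [← sq_abs]
    nlinarith
  have h1 : 3 / (10 * (r : ℝ) ^ 2) ≤ 3 / 1000 := by
    rw [div_le_div_iff₀ (by positivity) (by norm_num)]
    linarith
  have h2 : ‖(1 : ℂ) / (2 * r)‖ ≤ 1 / 20 := by
    rw [norm_div, norm_mul, norm_one, Complex.norm_ofNat, Complex.norm_intCast]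
    rw [div_le_div_iff₀ (by positivity) (by norm_num)]
    linarith
  have h3 : ‖v‖ ≤ 53 / 1000 := by
    have e : v = (v + 1 / (2 * r)) - 1 / (2 * r) := by ring
    rw [e]
    refine (norm_sub_le _ _).trans ?_
    linarith
  have h4 : |v.re| ≤ 53 / 1000 := (Complex.abs_re_le_norm v).trans h3
  have h5 : |y.re - 1 / 4| ≤ 1 / 100 := by
    have := (Complex.abs_re_le_norm (y - 1 / 4)).trans bdy
    have e : (y - 1 / 4).re = y.re - 1 / 4 := by
      rw [Complex.sub_re]
      norm_num
    rwa [e] at this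
  rw [abs_le] at h4 h5
  simp only [Complex.sub_re, Complex.add_re]
  refine ⟨⟨?_, ?_⟩, ⟨?_, ?_⟩⟩ <;> linarith [h4.1, h4.2, h5.1, h5.2]

/-- The critical value as a sum of values of the Bloch-Wigner dilogarithm. -/
theorem crit_value (r1 r2 : ℤ) (y v w : ℂ) (hc : Crit r1 r2 y v w) :
    2 * Real.pi * (Vf r1 r2 y v w).re =
      blochWigner (exp (2 * Real.pi * I * (y - v))) + blochWigner (exp (2 * Real.pi * I * (y + v)))
      + blochWigner (exp (2 * Real.pi * I * (y - w))) + blochWigner (exp (2 * Real.pi * I * (y + w)))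
      - 4 * blochWigner (-exp (2 * Real.pi * I * y)) := by
  obtain ⟨⟨a1, a2⟩, ⟨a3, a4⟩⟩ := BWff_loc r1 y v hc.h1 hc.bdy hc.bdv
  obtain ⟨⟨b1, b2⟩, ⟨b3, b4⟩⟩ := BWff_loc r2 y w hc.h2 hc.bdy hc.bdw
  have h5 : |y.re - 1 / 4| ≤ 1 / 100 := by
    have := (Complex.abs_re_le_norm (y - 1 / 4)).trans hc.bdy
    have e : (y - 1 / 4).re = y.re - 1 / 4 := by
      rw [Complex.sub_re]
      norm_num
    rwa [e] at this
  rw [abs_le] at h5
  have c0 : (y + 1 / 2).re = y.re + 1 / 2 := by
    rw [Complex.add_re]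
    norm_num
  have c1 : 0 < (y + 1 / 2).re := by rw [c0]; linarith [h5.1]
  have c2 : (y + 1 / 2).re < 1 := by rw [c0]; linarith [h5.2]
  have c3 : (y + 1 / 2).im = y.im := by
    rw [Complex.add_im]
    norm_num
  have f0 := ff_re_bw _ c1 c2
  have f1 := ff_re_bw _ a1 a2
  have f2 := ff_re_bw _ a3 a4
  have f3 := ff_re_bw _ b1 b2
  have f4 := ff_re_bw _ b3 b4
  have e0 : exp (2 * Real.pi * I * (y + 1 / 2)) = -exp (2 * Real.pi * I * y) := by
    have e : (2 * Real.pi * I * (y + 1 / 2) : ℂ) = 2 * Real.pi * I * y + Real.pi * I := by ring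
    rw [e, Complex.exp_add, Complex.exp_pi_mul_I]
    ring
  rw [e0, c3] at f0
  have ey := congrArg Complex.im hc.ey
  have ev := congrArg Complex.im hc.ev
  have ew := congrArg Complex.im hc.ew
  have g1 : (2 * Real.pi * I * (2 * r1 * v + 1) : ℂ).im = 2 * Real.pi * (2 * r1 * v.re + 1) := by
    simp [Complex.mul_im, Complex.mul_re]
  have g2 : (2 * Real.pi * I * (2 * r2 * w + 1) : ℂ).im = 2 * Real.pi * (2 * r2 * w.re + 1) := by
    simp [Complex.mul_im, Complex.mul_re]
  have g3 : (2 * Real.pi * I * (r1 * v ^ 2 + v) : ℂ).re =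
      -(2 * Real.pi * (2 * r1 * v.re * v.im + v.im)) := by
    simp only [pow_two, Complex.mul_re, Complex.mul_im, Complex.add_re, Complex.add_im,
      Complex.I_re, Complex.I_im, Complex.ofReal_re, Complex.ofReal_im, Complex.re_ofNat,
      Complex.im_ofNat, Complex.intCast_re, Complex.intCast_im]
    ring
  have g4 : (2 * Real.pi * I * (r2 * w ^ 2 + w) : ℂ).re =
      -(2 * Real.pi * (2 * r2 * w.re * w.im + w.im)) := by
    simp only [pow_two, Complex.mul_re, Complex.mul_im, Complex.add_re, Complex.add_im,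
      Complex.I_re, Complex.I_im, Complex.ofReal_re, Complex.ofReal_im, Complex.re_ofNat,
      Complex.im_ofNat, Complex.intCast_re, Complex.intCast_im]
    ring
  have g5 : (4 * hh (y + 1 / 2)).im = 4 * (hh (y + 1 / 2)).im := by
    simp [Complex.mul_im]
  have g6 : (4 * ff (y + 1 / 2)).re = 4 * (ff (y + 1 / 2)).re := by
    simp [Complex.mul_re]
  simp only [Complex.add_im, g5] at ey
  rw [Complex.sub_im, Complex.add_im, g1, Complex.zero_im] at ev
  rw [Complex.sub_im, Complex.add_im, g2, Complex.zero_im] at ew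
  have hV : (Vf r1 r2 y v w).re = 4 * (ff (y + 1 / 2)).re - (ff (y - v)).re - (ff (y + v)).re -
      (ff (y - w)).re - (ff (y + w)).re - 2 * Real.pi * (2 * r1 * v.re * v.im + v.im) -
      2 * Real.pi * (2 * r2 * w.re * w.im + w.im) := by
    rw [Vf, Complex.add_re, Complex.add_re, Complex.sub_re, Complex.sub_re, Complex.sub_re,
      Complex.sub_re, g3, g4, g6]
    ring
  rw [hV]
  simp only [Complex.sub_im, Complex.add_im] at f1 f2 f3 f4
  linear_combination 4 * f0 - f1 - f2 - f3 - f4 - 2 * Real.pi * y.im * ey -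
    2 * Real.pi * v.im * ev - 2 * Real.pi * w.im * ew

end Pool.Agent.H63.VC3
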