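import Pool.Agent.H63.VC.VolA
import Pool.Agent.H63.VC3.Defs

/-! # Real properties of `Fr` -/

namespace Pool.Agent.H63.VC3

open Pool.Agent.H63.VC Real

theorem Fr_hasDerivAt (x : ℝ) (h0 : 0 < x) (h1 : x < 1) :
    HasDerivAt Fr (Real.log (2 * Real.sin (π * x))) x := by
  have hs : 0 < Real.sin (π * x) := Real.sin_pos_of_pos_of_lt_pi (by positivity) (by
    calc π * x < π * 1 := mul_lt_mul_of_pos_left h1 Real.pi_pos
      _ = π := mul_one π)
  have h := volA_lob_hasDerivAt (π * x) hs.ne'
  have h2 : HasDerivAt (fun x : ℝ => π * x) π x := by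
    simpa using (hasDerivAt_id x).const_mul π
  have h3 := ((h.comp x h2).neg).div_const π
  refine (h3.congr_deriv ?_).congr_of_eventuallyEq ?_
  · rw [abs_of_pos (by positivity)]
    field_simp
  · filter_upwards with y
    rfl

theorem Fr_continuous : Continuous Fr := by
  unfold Fr
  exact ((volA_lob_continuous.comp (continuous_const.mul continuous_id)).neg).div_const _

theorem Fr_add_one (x : ℝ) : Fr (x + 1) = Fr x := by
  unfold Fr
  rw [mul_add, mul_one, volA_lob_add_pi]

theorem Fr_neg (x : ℝ) : Fr (-x) = -Fr x := by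
  unfold Fr
  rw [mul_neg, volA_lob_neg]
  ring

theorem Fr_zero : Fr 0 = 0 := by
  unfold Fr
  rw [mul_zero, volA_lob_zero]
  simp

private lemma RealF_one : Fr 1 = 0 := by
  have := Fr_add_one 0
  rw [zero_add, Fr_zero] at this
  exact this

private lemma RealF_refl (x : ℝ) : Fr (1 - x) = -Fr x := by
  rw [← Fr_neg, ← Fr_add_one (-x)]
  congr 1
  ring

theorem Fr_half : Fr (1 / 2) = 0 := by
  have h := RealF_refl (1 / 2)
  have e : (1 : ℝ) - 1 / 2 = 1 / 2 := by norm_num
  rw [e] at h
  linarith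

private lemma RealF_sin_half : ∀ x : ℝ, 1 / 6 ≤ x → x ≤ 5 / 6 → 1 / 2 ≤ Real.sin (π * x) := by
  intro x h1 h2
  have hp := Real.pi_pos
  rcases le_total x (1 / 2) with h | h
  · rw [← Real.sin_pi_div_six]
    apply Real.sin_le_sin_of_le_of_le_pi_div_two
    · linarith
    · nlinarith
    · nlinarith
  · have e : Real.sin (π * x) = Real.sin (π - π * x) := (Real.sin_pi_sub _).symm
    rw [e, ← Real.sin_pi_div_six]
    apply Real.sin_le_sin_of_le_of_le_pi_div_two
    · linarith
    · nlinarith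
    · nlinarith

private lemma RealF_sin_low : ∀ x : ℝ, 0 ≤ x → x ≤ 1 / 6 → Real.sin (π * x) ≤ 1 / 2 := by
  intro x h1 h2
  have hp := Real.pi_pos
  rw [← Real.sin_pi_div_six]
  apply Real.sin_le_sin_of_le_of_le_pi_div_two
  · nlinarith
  · nlinarith
  · nlinarith

private lemma RealF_mono : MonotoneOn Fr (Set.Icc (1 / 6) (5 / 6)) := by
  apply monotoneOn_of_deriv_nonneg (convex_Icc _ _) Fr_continuous.continuousOn
  · intro x hx
    rw [interior_Icc] at hx
    exact (Fr_hasDerivAt x (by linarith [hx.1]) (by linarith [hx.2])).differentiableAt.differentiableWithinAt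
  · intro x hx
    rw [interior_Icc] at hx
    rw [(Fr_hasDerivAt x (by linarith [hx.1]) (by linarith [hx.2])).deriv]
    apply Real.log_nonneg
    linarith [RealF_sin_half x hx.1.le hx.2.le]

private lemma RealF_anti : AntitoneOn Fr (Set.Icc (5 / 6) 1) := by
  apply antitoneOn_of_deriv_nonpos (convex_Icc _ _) Fr_continuous.continuousOn
  · intro x hx
    rw [interior_Icc] at hx
    exact (Fr_hasDerivAt x (by linarith [hx.1]) (by linarith [hx.2])).differentiableAt.differentiableWithinAt
  · intro x hx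
    rw [interior_Icc] at hx
    rw [(Fr_hasDerivAt x (by linarith [hx.1]) (by linarith [hx.2])).deriv]
    have h1 := RealF_sin_low (1 - x) (by linarith [hx.2]) (by linarith [hx.1])
    have h2 : Real.sin (π * (1 - x)) = Real.sin (π * x) := by
      rw [mul_sub, mul_one, Real.sin_pi_sub]
    rw [h2] at h1
    have h3 : 0 < Real.sin (π * x) := Real.sin_pos_of_pos_of_lt_pi (by
      have := Real.pi_pos
      nlinarith [hx.1]) (by
      calc π * x < π * 1 := mul_lt_mul_of_pos_left hx.2 Real.pi_pos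
        _ = π := mul_one π)
    apply Real.log_nonpos
    · positivity
    · linarith

theorem Fr_nonneg (x : ℝ) (h0 : 1 / 2 ≤ x) (h1 : x ≤ 1) : 0 ≤ Fr x := by
  rcases le_total x (5 / 6) with h | h
  · rw [← Fr_half]
    exact RealF_mono ⟨by norm_num, by norm_num⟩ ⟨by linarith, h⟩ h0
  · rw [← RealF_one]
    exact RealF_anti ⟨h, h1⟩ ⟨by norm_num, le_rfl⟩ h1

theorem Fr_nonpos (x : ℝ) (h0 : 0 ≤ x) (h1 : x ≤ 1 / 2) : Fr x ≤ 0 := by
  have h := Fr_nonneg (1 - x) (by linarith) (by linarith)
  rw [RealF_refl] at h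
  linarith

theorem Fr_le (x : ℝ) : Fr x ≤ Fr (5 / 6) := by
  have hper : Function.Periodic Fr 1 := Fr_add_one
  obtain ⟨y, hy, hxy⟩ := hper.exists_mem_Ico₀ one_pos x
  rw [hxy]
  have h56 : 0 ≤ Fr (5 / 6) := Fr_nonneg _ (by norm_num) (by norm_num)
  rcases le_total y (1 / 2) with h | h
  · exact (Fr_nonpos y hy.1 h).trans h56
  rcases le_total y (5 / 6) with h' | h'
  · exact RealF_mono ⟨by linarith, h'⟩ ⟨by norm_num, le_rfl⟩ h'
  · exact RealF_anti ⟨le_rfl, by norm_num⟩ ⟨h', hy.2.le⟩ h'

theorem Fr_ge (x : ℝ) : -Fr (5 / 6) ≤ Fr x := by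
  have h := Fr_le (-x)
  rw [Fr_neg] at h
  linarith

private lemma RealF_sin34 : Real.sin (π * (3 / 4)) = √2 / 2 := by
  have e : π * (3 / 4) = π - π / 4 := by ring
  rw [e, Real.sin_pi_sub, Real.sin_pi_div_four]

private lemma RealF_chord (x : ℝ) (h1 : 1 / 2 ≤ x) (h2 : x ≤ 3 / 4) :
    (2 - 2 * x) * Real.log 2 ≤ Real.log (2 * Real.sin (π * x)) := by
  have hp := Real.pi_pos
  have hs0 : 0 ≤ 4 * x - 2 := by linarith
  have hs1 : 0 ≤ 1 - (4 * x - 2) := by linarith
  have hc := strictConcaveOn_sin_Icc.concaveOn.2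
    (x := π / 2) ⟨by positivity, by linarith⟩ (y := π * (3 / 4)) ⟨by positivity, by linarith⟩
    hs1 hs0 (by ring)
  simp only [smul_eq_mul] at hc
  have e : (1 - (4 * x - 2)) * (π / 2) + (4 * x - 2) * (π * (3 / 4)) = π * x := by ring
  rw [e, Real.sin_pi_div_two, RealF_sin34] at hc
  have h20 : (0 : ℝ) < 2 := by norm_num
  have hs2 : (0 : ℝ) < √2 := by positivity
  have hl := strictConcaveOn_log_Ioi.concaveOn.2 (x := 2) (Set.mem_Ioi.2 h20) (y := √2)
    (Set.mem_Ioi.2 hs2) hs1 hs0 (by ring)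
  simp only [smul_eq_mul] at hl
  rw [Real.log_sqrt h20.le] at hl
  have hpos : 0 < (1 - (4 * x - 2)) * 2 + (4 * x - 2) * √2 := by
    rcases hs0.eq_or_lt with h | h
    · rw [← h]; norm_num
    · have := mul_pos h hs2
      linarith [mul_nonneg hs1 h20.le]
  have hfin : Real.log ((1 - (4 * x - 2)) * 2 + (4 * x - 2) * √2) ≤
      Real.log (2 * Real.sin (π * x)) := by
    apply Real.log_le_log hpos
    linarith
  have e2 : (1 - (4 * x - 2)) * Real.log 2 + (4 * x - 2) * (Real.log 2 / 2) =
      (2 - 2 * x) * Real.log 2 := by ring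
  linarith

/-- A numerical comparison, from the concavity of `log sin`. -/
theorem Fr_num : 3 * Fr (5 / 6) ≤ 4 * Fr (3 / 4) - Real.log 2 / 16 := by
  have hp := Real.pi_pos
  -- the first part
  have h1 : Fr (1 / 2) - Real.log 2 * (2 * (1 / 2) - (1 / 2) ^ 2) ≤
      Fr (3 / 4) - Real.log 2 * (2 * (3 / 4) - (3 / 4) ^ 2) := by
    have hd : ∀ x : ℝ, 0 < x → x < 1 →
        HasDerivAt (fun x : ℝ => Fr x - Real.log 2 * (2 * x - x ^ 2))
          (Real.log (2 * Real.sin (π * x)) - Real.log 2 * (2 - 2 * x)) x := by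
      intro x h0 h1
      have h3 : HasDerivAt (fun x : ℝ => 2 * x - x ^ 2) (2 - 2 * x) x := by
        have h4 := ((hasDerivAt_id x).const_mul 2).sub (hasDerivAt_pow 2 x)
        refine (h4.congr_deriv (by simp)).congr_of_eventuallyEq ?_
        filter_upwards with y
        rfl
      exact (Fr_hasDerivAt x h0 h1).sub (h3.const_mul _)
    have hm : MonotoneOn (fun x : ℝ => Fr x - Real.log 2 * (2 * x - x ^ 2))
        (Set.Icc (1 / 2) (3 / 4)) := by
      apply monotoneOn_of_deriv_nonneg (convex_Icc _ _)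
      · apply Continuous.continuousOn
        exact Fr_continuous.sub (continuous_const.mul (by fun_prop))
      · intro x hx
        rw [interior_Icc] at hx
        exact (hd x (by linarith [hx.1]) (by linarith [hx.2])).differentiableAt.differentiableWithinAt
      · intro x hx
        rw [interior_Icc] at hx
        rw [(hd x (by linarith [hx.1]) (by linarith [hx.2])).deriv]
        have := RealF_chord x hx.1.le hx.2.le
        linarith
    exact hm ⟨le_rfl, by norm_num⟩ ⟨by norm_num, le_rfl⟩ (by norm_num)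
  rw [Fr_half] at h1
  -- the second part
  have h2 := Convex.image_sub_le_mul_sub_of_deriv_le (D := Set.Icc (3 / 4 : ℝ) (5 / 6))
    (convex_Icc _ _) (f := Fr) Fr_continuous.continuousOn
    (fun x hx => by
      rw [interior_Icc] at hx
      exact (Fr_hasDerivAt x (by linarith [hx.1])
        (by linarith [hx.2])).differentiableAt.differentiableWithinAt)
    (C := Real.log 2 / 2)
    (fun x hx => by
      rw [interior_Icc] at hx
      rw [(Fr_hasDerivAt x (by linarith [hx.1]) (by linarith [hx.2])).deriv]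
      have h3 : 0 < Real.sin (π * x) := Real.sin_pos_of_pos_of_lt_pi (by nlinarith [hx.1])
        (by nlinarith [hx.2])
      have h4 : Real.sin (π * x) ≤ √2 / 2 := by
        rw [← Real.sin_pi_div_four, ← Real.sin_pi_sub]
        apply Real.sin_le_sin_of_le_of_le_pi_div_two
        · nlinarith [hx.2]
        · linarith
        · nlinarith [hx.1]
      rw [← Real.log_sqrt (by norm_num : (0 : ℝ) ≤ 2)]
      apply Real.log_le_log (by positivity)
      linarith)
    (3 / 4) ⟨le_rfl, by norm_num⟩ (5 / 6) ⟨by norm_num, le_rfl⟩ (by norm_num)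
  linarith

end Pool.Agent.H63.VC3
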