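import Pool.Agent.H63.VC3.LLfun

/-! # Analytic properties of the kernels -/

namespace Pool.Agent.H63.VC3

open Pool.Agent.H63.VC Complex

theorem KAn_Bn_neg (n M : ℕ) (v : ℂ) : Bn n M (-v) = Bn n M v := by
  unfold Bn
  rw [← Finset.prod_range_reflect]
  refine Finset.prod_congr rfl fun j hj => ?_
  rw [Finset.mem_range] at hj
  congr 1
  rw [← Complex.cos_neg]
  congr 1
  have h1 : ((n - 2 - 1 - j : ℕ) : ℂ) = n - 3 - j := by
    have : n - 2 - 1 - j = n - (3 + j) := by omega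
    rw [this, Nat.cast_sub (by omega)]
    push_cast; ring
  rw [h1]
  unfold bt
  push_cast
  ring

theorem KK_odd (r : ℤ) (n M : ℕ) (y v : ℂ) : KK r n M y (-v) = -KK r n M y v := by
  unfold KK
  rw [KAn_Bn_neg]
  have h1 : 2 * Complex.sin (2 * Real.pi * -v) = -(2 * Complex.sin (2 * Real.pi * v)) := by
    rw [show 2 * (Real.pi : ℂ) * -v = -(2 * Real.pi * v) by ring, Complex.sin_neg]; ring
  have h2 : Complex.exp (2 * Real.pi * I * r * M * (-v) ^ 2) =
      Complex.exp (2 * Real.pi * I * r * M * v ^ 2) := by ring_nf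
  have h3 : Complex.exp (-LL M (M * (y - -v) - 1 / 2) - LL M (M * (y + -v) - 1 / 2)) =
      Complex.exp (-LL M (M * (y - v) - 1 / 2) - LL M (M * (y + v) - 1 / 2)) := by
    congr 1
    rw [show y - -v = y + v by ring, show y + -v = y - v by ring]; ring
  rw [h1, h2, h3]; ring

theorem KAn_arg {M : ℕ} (hM : 0 < M) {z : ℂ} (h1 : 0 < z.re) (h2 : z.re < 1) :
    -1 < ((M : ℂ) * z - 1 / 2).re ∧ ((M : ℂ) * z - 1 / 2).re < M := by
  have h3 : ((M : ℂ) * z - 1 / 2).re = M * z.re - 1 / 2 := by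
    simp [Complex.sub_re, Complex.mul_re]
  rw [h3]
  have hM' : (0 : ℝ) < M := by exact_mod_cast hM
  constructor
  · nlinarith
  · nlinarith

theorem KAn_Bn_differentiable (n M : ℕ) : Differentiable ℂ (Bn n M) := by
  unfold Bn
  refine Differentiable.fun_finsetProd (fun j _ => ?_)
  fun_prop

theorem KK_differentiable_v (r : ℤ) (n M : ℕ) (hM : 0 < M) (y v : ℂ)
    (h1 : 0 < (y - v).re) (h2 : (y - v).re < 1) (h3 : 0 < (y + v).re) (h4 : (y + v).re < 1) :
    DifferentiableAt ℂ (fun v => KK r n M y v) v := by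
  unfold KK
  have ha := KAn_arg hM h1 h2
  have hb := KAn_arg hM h3 h4
  have hA : DifferentiableAt ℂ (fun v : ℂ => LL M (M * (y - v) - 1 / 2)) v :=
    DifferentiableAt.comp (f := fun v : ℂ => (M : ℂ) * (y - v) - 1 / 2) (g := LL M) v
      (LL_differentiableAt M hM _ ha.1 ha.2) (by fun_prop)
  have hB : DifferentiableAt ℂ (fun v : ℂ => LL M (M * (y + v) - 1 / 2)) v :=
    DifferentiableAt.comp (f := fun v : ℂ => (M : ℂ) * (y + v) - 1 / 2) (g := LL M) v
      (LL_differentiableAt M hM _ hb.1 hb.2) (by fun_prop)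
  have hC := (KAn_Bn_differentiable n M) v
  fun_prop

theorem KK_differentiable_y (r : ℤ) (n M : ℕ) (hM : 0 < M) (y v : ℂ)
    (h1 : 0 < (y - v).re) (h2 : (y - v).re < 1) (h3 : 0 < (y + v).re) (h4 : (y + v).re < 1) :
    DifferentiableAt ℂ (fun y => KK r n M y v) y := by
  unfold KK
  have ha := KAn_arg hM h1 h2
  have hb := KAn_arg hM h3 h4
  have hA : DifferentiableAt ℂ (fun y : ℂ => LL M (M * (y - v) - 1 / 2)) y :=
    DifferentiableAt.comp (f := fun y : ℂ => (M : ℂ) * (y - v) - 1 / 2) (g := LL M) y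
      (LL_differentiableAt M hM _ ha.1 ha.2) (by fun_prop)
  have hB : DifferentiableAt ℂ (fun y : ℂ => LL M (M * (y + v) - 1 / 2)) y :=
    DifferentiableAt.comp (f := fun y : ℂ => (M : ℂ) * (y + v) - 1 / 2) (g := LL M) y
      (LL_differentiableAt M hM _ hb.1 hb.2) (by fun_prop)
  fun_prop

theorem KK_continuousAt (r : ℤ) (n M : ℕ) (hM : 0 < M) (y v : ℂ)
    (h1 : 0 < (y - v).re) (h2 : (y - v).re < 1) (h3 : 0 < (y + v).re) (h4 : (y + v).re < 1) :
    ContinuousAt (fun z : ℂ × ℂ => KK r n M z.1 z.2) (y, v) := by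
  unfold KK
  have ha := KAn_arg hM h1 h2
  have hb := KAn_arg hM h3 h4
  have hA : ContinuousAt (fun z : ℂ × ℂ => LL M (M * (z.1 - z.2) - 1 / 2)) (y, v) := by
    have h := (LL_differentiableAt M hM _ ha.1 ha.2).continuousAt
    have h' : ContinuousAt (fun z : ℂ × ℂ => (M : ℂ) * (z.1 - z.2) - 1 / 2) (y, v) := by fun_prop
    exact ContinuousAt.comp (f := fun z : ℂ × ℂ => (M : ℂ) * (z.1 - z.2) - 1 / 2)
      (g := LL M) (x := (y, v)) h h'
  have hB : ContinuousAt (fun z : ℂ × ℂ => LL M (M * (z.1 + z.2) - 1 / 2)) (y, v) := by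
    have h := (LL_differentiableAt M hM _ hb.1 hb.2).continuousAt
    have h' : ContinuousAt (fun z : ℂ × ℂ => (M : ℂ) * (z.1 + z.2) - 1 / 2) (y, v) := by fun_prop
    exact ContinuousAt.comp (f := fun z : ℂ × ℂ => (M : ℂ) * (z.1 + z.2) - 1 / 2)
      (g := LL M) (x := (y, v)) h h'
  have hC : ContinuousAt (fun z : ℂ × ℂ => Bn n M z.2) (y, v) :=
    ((KAn_Bn_differentiable n M).continuous.comp continuous_snd).continuousAt
  fun_prop

theorem Cc_differentiableAt (n g M : ℕ) (hg : 1 ≤ g) (hgn : g ≤ n - 1) (hM : 1000 * (n + 1) ≤ M)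
    (y : ℂ) (h1 : 1 / 10 ≤ y.re) (h2 : y.re ≤ 4 / 10) :
    DifferentiableAt ℂ (Cc n g M) y := by
  have hM0 : 0 < M := by omega
  have hMr : 1000 * ((n : ℝ) + 1) ≤ M := by exact_mod_cast hM
  have hn2 : 2 ≤ n := by omega
  have hnr : (2 : ℝ) ≤ n := by exact_mod_cast hn2
  have hgr : (1 : ℝ) ≤ g := by exact_mod_cast hg
  have hgn' : (g : ℝ) + 1 ≤ n := by
    have : g + 1 ≤ n := by omega
    exact_mod_cast this
  have key : ∀ δ : ℝ, 0 ≤ δ → δ ≤ n → DifferentiableAt ℂ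
      (fun y : ℂ => LL M (M * (y + 1 / 2) - bt n - 1 / 2 + (δ : ℂ))) y := by
    intro δ hδ hδn
    have hre : ((M : ℂ) * (y + 1 / 2) - bt n - 1 / 2 + (δ : ℂ)).re =
        M * (y.re + 1 / 2) - ((n : ℝ) - 1) / 2 - 1 / 2 + δ := by
      simp [Complex.mul_re, bt]
    have hMp : (0 : ℝ) ≤ M := by positivity
    have hlow : (M : ℝ) * (6 / 10) ≤ M * (y.re + 1 / 2) :=
      mul_le_mul_of_nonneg_left (by linarith) hMp
    have hupp : (M : ℝ) * (y.re + 1 / 2) ≤ M * (9 / 10) :=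
      mul_le_mul_of_nonneg_left (by linarith) hMp
    have ha : -1 < ((M : ℂ) * (y + 1 / 2) - bt n - 1 / 2 + (δ : ℂ)).re := by
      rw [hre]; linarith
    have hb : ((M : ℂ) * (y + 1 / 2) - bt n - 1 / 2 + (δ : ℂ)).re < M := by
      rw [hre]; linarith
    exact DifferentiableAt.comp (f := fun y : ℂ => (M : ℂ) * (y + 1 / 2) - bt n - 1 / 2 + (δ : ℂ))
      (g := LL M) y (LL_differentiableAt M hM0 _ ha hb) (by fun_prop)
  have k0 := key 0 le_rfl (by linarith)
  have k1 := key (g - 1) (by linarith) (by linarith)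
  have k2 := key (n - g - 1) (by linarith) (by linarith)
  have k3 := key (n - 2) (by linarith) (by linarith)
  push_cast at k0 k1 k2 k3
  simp only [add_zero] at k0
  exact (((k0.add k1).add k2).add k3).cexp

theorem KAn_yk_arg {n M k : ℕ} (hM : 0 < M) :
    (M : ℂ) * ((yk n M k : ℂ) + 1 / 2) - bt n - 1 / 2 = k := by
  have hM' : (M : ℂ) ≠ 0 := by exact_mod_cast hM.ne'
  unfold yk
  push_cast
  field_simp
  ring

/-- At the lattice points. -/
theorem Cc_yk (n g M k : ℕ) (hg : 1 ≤ g) (hgn : g ≤ n - 1) (hk : k + n ≤ M + 1) (hn : 2 ≤ n) :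
    Cc n g M (yk n M k) = S M k * S M (k + (g - 1)) * S M (k + (n - g - 1)) * S M (k + (n - 2)) := by
  have hM : 0 < M := by omega
  unfold Cc
  rw [KAn_yk_arg hM]
  have e1 : (k : ℂ) + (g - 1) = ((k + (g - 1) : ℕ) : ℂ) := by
    rw [Nat.cast_add, Nat.cast_sub hg]; push_cast; ring
  have e2 : (k : ℂ) + (n - g - 1) = ((k + (n - g - 1) : ℕ) : ℂ) := by
    have : n - g - 1 = n - (g + 1) := by omega
    rw [Nat.cast_add, this, Nat.cast_sub (by omega)]; push_cast; ring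
  have e3 : (k : ℂ) + (n - 2) = ((k + (n - 2) : ℕ) : ℂ) := by
    rw [Nat.cast_add, Nat.cast_sub hn]; push_cast; ring
  rw [e1, e2, e3, Complex.exp_add, Complex.exp_add, Complex.exp_add, LL_nat M k (by omega),
    LL_nat M _ (by omega), LL_nat M _ (by omega), LL_nat M _ (by omega)]

/-- The normalized weight. -/
theorem T_Cc (n g M k : ℕ) (hg : 1 ≤ g) (hgn : g ≤ n - 1) (hk : k + n ≤ M + 1) (hn : 2 ≤ n) :
    (T M n g k : ℂ) * (S M k : ℂ) ^ 2 =
      Cc n g M (yk n M k) / (S M (g - 1) * S M (n - g - 1) * S M (n - 2)) := by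
  rw [Cc_yk n g M k hg hgn hk hn, T_eq M n g k hg hgn hn hk]
  have h1 : S M (g - 1) ≠ 0 := (S_pos (by omega)).ne'
  have h2 : S M (n - g - 1) ≠ 0 := (S_pos (by omega)).ne'
  have h3 : S M (n - 2) ≠ 0 := (S_pos (by omega)).ne'
  have h4 : S M k ≠ 0 := (S_pos (by omega)).ne'
  have e1 : g - 1 + k = k + (g - 1) := by omega
  have e2 : n - g - 1 + k = k + (n - g - 1) := by omega
  have e3 : n - 2 + k = k + (n - 2) := by omega
  rw [e1, e2, e3]
  have h1' : (S M (g - 1) : ℂ) ≠ 0 := by exact_mod_cast h1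
  have h2' : (S M (n - g - 1) : ℂ) ≠ 0 := by exact_mod_cast h2
  have h3' : (S M (n - 2) : ℂ) ≠ 0 := by exact_mod_cast h3
  have h4' : (S M k : ℂ) ≠ 0 := by exact_mod_cast h4
  push_cast
  field_simp

end Pool.Agent.H63.VC3
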