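import Pool.Agent.H63.VC3.Terms

/-! # The expansion of the normalized twist coefficients -/

namespace Pool.Agent.H63.VC3

open Pool.Agent.H63.VC Complex

theorem norm_Th (n M k : ℕ) : ‖Th n M k‖ = 1 := Terms_norm_Th n M k

theorem norm_c1 (n M : ℕ) : ‖c1 n M‖ = 1 := Terms_norm_c1 n M

/-- `Θ_k² = -(-1)^k ζ^{-(n k + k (k-1)/2)}`. -/
theorem Th_sq (n M k : ℕ) (hM : 1 ≤ M) :
    Th n M k ^ 2 * ((-1) ^ k * rt M ^ (n * k + k * (k - 1) / 2)) = -1 := by
  have h2 : (((k * (k - 1) / 2 : ℕ) : ℂ)) * 2 = k * (k - 1) := by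
    have h3 : k * (k - 1) / 2 * 2 = k * (k - 1) :=
      Nat.div_mul_cancel (Nat.even_mul_pred_self k).two_dvd
    have h4 : (((k * (k - 1) / 2 * 2 : ℕ)) : ℂ) = ((k * (k - 1) : ℕ) : ℂ) := by rw [h3]
    have h5 : ((k * (k - 1) : ℕ) : ℂ) = k * (k - 1) := by
      rcases Nat.eq_zero_or_pos k with rfl | hk
      · simp
      · rw [Nat.cast_mul, Nat.cast_sub hk]; simp
    rw [h5, Nat.cast_mul] at h4
    exact h4
  have hMc : (M : ℂ) ≠ 0 := by exact_mod_cast (by omega : M ≠ 0)
  have hr : rt M ^ (n * k + k * (k - 1) / 2)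
      = exp ((2 * Real.pi * I / M) * (n * k + k * (k - 1) / 2)) := by
    unfold rt
    rw [← Complex.exp_nat_mul]
    congr 1
    rw [Nat.cast_add, Nat.cast_mul]
    linear_combination (Real.pi * I / M) * h2
  rw [hr]
  unfold Th
  have e1 : exp (-(Real.pi * I / M) * (k * (n - 1) + k * (k + 1) / 2)) ^ 2 *
      exp ((2 * Real.pi * I / M) * (n * k + k * (k - 1) / 2)) = 1 := by
    rw [← Complex.exp_nat_mul, ← Complex.exp_add, ← Complex.exp_zero]
    congr 1
    push_cast
    ring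
  have e2 : ((-1 : ℂ) ^ (n + k + M)) ^ 2 = 1 := by
    rw [← pow_mul, mul_comm, pow_mul]; simp
  have e3 : (I ^ k) ^ 2 = (-1 : ℂ) ^ k := by
    rw [← pow_mul, mul_comm, pow_mul, Complex.I_sq]
  have e4 : ((-1 : ℂ) ^ k) * (-1) ^ k = 1 := by
    rw [← mul_pow]; simp
  have e5 : I ^ 2 = -1 := Complex.I_sq
  calc _ = ((-1 : ℂ) ^ (n + k + M)) ^ 2 * (I ^ 2) * ((I ^ k) ^ 2 * (-1) ^ k) *
        (exp (-(Real.pi * I / M) * (k * (n - 1) + k * (k + 1) / 2)) ^ 2 *
      exp ((2 * Real.pi * I / M) * (n * k + k * (k - 1) / 2))) := by ring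
    _ = -1 := by rw [e1, e2, e3, e4, e5]; ring

theorem NNterms_Bn_conj (n M : ℕ) (v : ℂ) :
    (starRingEnd ℂ) (Bn n M v) = Bn n M ((starRingEnd ℂ) v) := by
  unfold Bn
  rw [map_prod]
  refine Finset.prod_congr rfl fun j _ => ?_
  rw [map_mul, ← Complex.cos_conj]
  simp only [map_mul, map_add, map_sub, map_div₀, map_one, Complex.conj_ofReal, map_natCast,
    map_ofNat]

theorem NNterms_KK_conj (p : ℤ) (n M : ℕ) (y : ℝ) (v : ℂ) :
    (starRingEnd ℂ) (KK p n M y ((starRingEnd ℂ) v)) = KK (-p) n M y v := by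
  unfold KK
  have hLL1 : (starRingEnd ℂ) (LL M (M * ((y : ℂ) - (starRingEnd ℂ) v) - 1 / 2))
      = LL M (M * ((y : ℂ) - v) - 1 / 2) := by
    rw [← LL_conj]
    congr 1
    simp only [map_mul, map_sub, map_div₀, map_one, Complex.conj_ofReal, map_natCast,
      map_ofNat, Complex.conj_conj]
  have hLL2 : (starRingEnd ℂ) (LL M (M * ((y : ℂ) + (starRingEnd ℂ) v) - 1 / 2))
      = LL M (M * ((y : ℂ) + v) - 1 / 2) := by
    rw [← LL_conj]
    congr 1
    simp only [map_mul, map_add, map_sub, map_div₀, map_one, Complex.conj_ofReal, map_natCast,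
      map_ofNat, Complex.conj_conj]
  have hsin : (starRingEnd ℂ) (2 * Complex.sin (2 * Real.pi * (starRingEnd ℂ) v))
      = 2 * Complex.sin (2 * Real.pi * v) := by
    rw [map_mul, ← Complex.sin_conj]
    simp only [map_mul, Complex.conj_ofReal, map_ofNat, Complex.conj_conj]
  have hexp : (starRingEnd ℂ) (exp (2 * Real.pi * I * p * M * (starRingEnd ℂ) v ^ 2))
      = exp (2 * Real.pi * I * ((-p : ℤ) : ℂ) * M * v ^ 2) := by
    rw [← Complex.exp_conj]
    congr 1
    simp only [map_mul, map_pow, Complex.conj_ofReal, map_natCast, map_ofNat, Complex.conj_conj,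
      Complex.conj_I, map_intCast]
    push_cast
    ring
  rw [map_mul, map_mul, map_mul, NNterms_Bn_conj, Complex.conj_conj, hsin, hexp,
    ← Complex.exp_conj, map_sub, map_neg, hLL1, hLL2]

theorem NNterms_deriv (p : ℤ) (n M : ℕ) (y v : ℝ) :
    (starRingEnd ℂ) (deriv (KK p n M y) v) = deriv (KK (-p) n M y) v := by
  have h : KK (-p) n M y = (starRingEnd ℂ) ∘ (KK p n M y) ∘ (starRingEnd ℂ) := by
    funext z
    exact (NNterms_KK_conj p n M y z).symm
  have h2 := congrFun (deriv_conj_conj (𝕜 := ℂ) (f := KK p n M y)) (v : ℂ)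
  rw [h]
  simp only [Function.comp_apply, Complex.conj_ofReal] at h2
  exact h2.symm

theorem NN_terms (r : ℤ) (hr : r ≠ 0) (n M k : ℕ) (hn : 2 ≤ n) (hM : 2 ≤ M) (hk : k + n ≤ M + 1) :
    ∃ t : ℕ → ℂ, NN r n M k = ∑ l ∈ Finset.range (k + 1), t l ∧
    (∀ l ≤ k, ‖t l‖ ≤ 4 * (|(r : ℝ)| * (M : ℝ) + (M : ℝ) ^ 2 + 1) * Wt n M k l) ∧
    (∀ l l' : ℕ, l + l' + n = M + 1 → l ≤ k → l' ≤ k →
      t l + t l' = 2 * c1 n M ^ r * (S M k / (4 * Real.pi * I * M)) *
        deriv (KK r n M (yk n M k)) (vl n M l)) := by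
  have hTh : (starRingEnd ℂ) (Th n M k) * Th n M k = 1 := by
    rw [mul_comm, Complex.mul_conj, Complex.normSq_eq_norm_sq, norm_Th]; simp
  rcases lt_or_gt_of_ne hr with h | h
  · -- negative
    obtain ⟨p, hp⟩ : ∃ p : ℕ, r = -(p : ℤ) := ⟨(-r).toNat, by omega⟩
    have hp1 : 1 ≤ p := by omega
    obtain ⟨t, ht1, ht2, ht3⟩ := twist_terms p n M k hp1 hn hM hk
    refine ⟨fun l => -Th n M k * (starRingEnd ℂ) (t l), ?_, ?_, ?_⟩
    · unfold NN
      have e : (-r).toNat = p := by omega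
      rw [if_neg (by omega), e, ht1, map_sum, Finset.mul_sum]
    · intro l hl
      rw [norm_mul, norm_neg, norm_Th, one_mul, Complex.norm_conj]
      have e : |(r : ℝ)| = p := by rw [hp]; simp
      rw [e]
      exact ht2 l hl
    · intro l l' hll h1 h2
      have h3 := ht3 l l' hll h1 h2
      have h4 := congrArg (starRingEnd ℂ) h3
      have hd := NNterms_deriv p n M (yk n M k) (vl n M l)
      rw [map_add, map_mul, map_mul, map_mul, map_mul, hd] at h4
      have hc : (starRingEnd ℂ) (c1 n M ^ p) = c1 n M ^ r := by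
        have h5 : (starRingEnd ℂ) (c1 n M) = (c1 n M)⁻¹ := by
          rw [Complex.inv_def, Complex.normSq_eq_norm_sq, norm_c1]; simp
        rw [map_pow, h5, hp, zpow_neg, zpow_natCast, inv_pow]
      have hS : (starRingEnd ℂ) (S M k / (4 * Real.pi * I * M)) =
          -(S M k / (4 * Real.pi * I * M)) := by
        simp only [map_div₀, map_mul, Complex.conj_ofReal, map_ofNat, Complex.conj_I, map_natCast]
        rw [show (4 * (Real.pi : ℂ) * -I * M) = -(4 * Real.pi * I * M) by ring, div_neg]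
      have hr' : -(p : ℤ) = r := hp.symm
      rw [hc, hS, hr'] at h4
      have e2 : (starRingEnd ℂ) (2 : ℂ) = 2 := map_ofNat _ _
      rw [e2] at h4
      calc -Th n M k * (starRingEnd ℂ) (t l) + -Th n M k * (starRingEnd ℂ) (t l')
          = -Th n M k * ((starRingEnd ℂ) (t l) + (starRingEnd ℂ) (t l')) := by ring
        _ = ((starRingEnd ℂ) (Th n M k) * Th n M k) * (2 * c1 n M ^ r *
            (S M k / (4 * Real.pi * I * M)) * deriv (KK r n M (yk n M k)) (vl n M l)) := by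
          rw [h4]; ring
        _ = _ := by rw [hTh, one_mul]
  · obtain ⟨p, hp⟩ : ∃ p : ℕ, r = (p : ℤ) := ⟨r.toNat, by omega⟩
    have hp1 : 1 ≤ p := by omega
    obtain ⟨t, ht1, ht2, ht3⟩ := twist_terms p n M k hp1 hn hM hk
    refine ⟨fun l => (starRingEnd ℂ) (Th n M k) * t l, ?_, ?_, ?_⟩
    · unfold NN
      have e : r.toNat = p := by omega
      rw [if_pos (by omega), e, ht1, Finset.mul_sum]
    · intro l hl
      rw [norm_mul, Complex.norm_conj, norm_Th, one_mul]
      have e : |(r : ℝ)| = p := by rw [hp]; simp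
      rw [e]
      exact ht2 l hl
    · intro l l' hll h1 h2
      have h3 := ht3 l l' hll h1 h2
      have hc : c1 n M ^ r = c1 n M ^ p := by rw [hp, zpow_natCast]
      rw [hc]
      rw [← hp] at h3
      calc (starRingEnd ℂ) (Th n M k) * t l + (starRingEnd ℂ) (Th n M k) * t l'
          = (starRingEnd ℂ) (Th n M k) * (t l + t l') := by ring
        _ = ((starRingEnd ℂ) (Th n M k) * Th n M k) * (2 * c1 n M ^ p *
            (S M k / (4 * Real.pi * I * M)) * deriv (KK r n M (yk n M k)) (vl n M l)) := by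
          rw [h3]; ring
        _ = _ := by rw [hTh, one_mul]

end Pool.Agent.H63.VC3
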