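import Pool.Agent.H63.VC3.LogS

/-! # The size of the terms of the twist coefficients -/

namespace Pool.Agent.H63.VC3

open Pool.Agent.H63.VC Real

theorem WBound_exp {x L g M K : ℝ} {D : ℕ} (hM : 2 ≤ M) (hx : 0 < x) (hL : L = Real.log M)
    (h : Real.log x ≤ g + K * L) (hK : K ≤ D) : x ≤ 1 * M ^ D * Real.exp g := by
  have hM0 : 0 < M := by linarith
  have hL0 : 0 ≤ L := by rw [hL]; exact Real.log_nonneg (by linarith)
  have h1 : Real.log x ≤ g + D * L := by nlinarith
  calc x = Real.exp (Real.log x) := (Real.exp_log hx).symm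
    _ ≤ Real.exp (g + D * L) := Real.exp_le_exp.2 h1
    _ = 1 * M ^ D * Real.exp g := by
      rw [Real.exp_add, mul_comm (D : ℝ) L, Real.exp_mul, hL, Real.exp_log hM0,
        Real.rpow_natCast]
      ring

theorem WBound_aux (n : ℕ) : ∃ K : ℝ, 0 < K ∧ ∀ M : ℕ, 2 ≤ M →
    (∀ k : ℕ, k < M → |Real.log (S M k) - M * Fr (k / M)| ≤ K * Real.log M) ∧
    ∀ (x : ℝ) (j : ℕ), j ≤ n → |M * Fr (x + j / M) - M * Fr x| ≤ K * Real.log M := by
  obtain ⟨C1, hC1, h1⟩ := log_S_bound
  obtain ⟨C2, hC2, h2⟩ := Fr_shift n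
  refine ⟨C1 + C2, by positivity, fun M hM => ?_⟩
  have hL : 0 ≤ Real.log M := Real.log_natCast_nonneg M
  refine ⟨fun k hk => (h1 M k hM hk).trans ?_, fun x j hj => (h2 M hM x j hj).trans ?_⟩
  · nlinarith
  · nlinarith

theorem Wt_bound (n : ℕ) (hn : 2 ≤ n) : ∃ C : ℝ, 0 < C ∧ ∃ D : ℕ, ∀ M k l : ℕ, 2 ≤ M →
    l ≤ k → k + n ≤ M + 1 →
    0 ≤ Wt n M k l ∧ S M k * Wt n M k l ≤ C * (M : ℝ) ^ D * Real.exp (M * gg (k / M) (l / M)) := by
  obtain ⟨K, hK, hb⟩ := WBound_aux n
  obtain ⟨D, hD⟩ := exists_nat_ge (8 * K)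
  refine ⟨1, one_pos, D, fun M k l hM hlk hkn => ?_⟩
  obtain ⟨h1, h2⟩ := hb M hM
  have hM' : (2 : ℝ) ≤ M := by exact_mod_cast hM
  have hM0 : (M : ℝ) ≠ 0 := by positivity
  have hL0 : 0 ≤ Real.log M := Real.log_natCast_nonneg M
  have pk : 0 < S M k := S_pos (by omega)
  have pl : 0 < S M l := S_pos (by omega)
  have pln : 0 < S M (l + n - 2) := S_pos (by omega)
  have pkl : 0 < S M (k - l) := S_pos (by omega)
  -- estimates
  have a1 := abs_le.1 (h1 k (by omega))
  have a2 := abs_le.1 (h1 (l + n - 2) (by omega))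
  have a3 := abs_le.1 (h1 l (by omega))
  have a4 := abs_le.1 (h1 (k - l) (by omega))
  have b1 := abs_le.1 (h2 (l / M) (n - 2) (by omega))
  have b2 := abs_le.1 (h2 ((k : ℝ) / M + l / M) (n - 1) (by omega))
  have c1 : ((l + n - 2 : ℕ) : ℝ) / M = l / M + ((n - 2 : ℕ) : ℝ) / M := by
    have : l + n - 2 = l + (n - 2) := by omega
    rw [this]
    push_cast
    ring
  have c2 : ((k - l : ℕ) : ℝ) / M = k / M - l / M := by
    rw [Nat.cast_sub hlk]
    ring
  rw [c1] at a2
  rw [c2] at a4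
  by_cases hc : k + l + n ≤ M
  · have pkn : 0 < S M (k + l + n - 1) := S_pos (by omega)
    have a5 := abs_le.1 (h1 (k + l + n - 1) (by omega))
    have c3 : ((k + l + n - 1 : ℕ) : ℝ) / M = k / M + l / M + ((n - 1 : ℕ) : ℝ) / M := by
      have : k + l + n - 1 = k + l + (n - 1) := by omega
      rw [this]
      push_cast
      ring
    rw [c3] at a5
    have e : Wt n M k l = S M k * S M (l + n - 2) / (S M l * S M (k - l) * S M (k + l + n - 1)) := by
      rw [Wt, if_pos hc]
    have pos : 0 < Wt n M k l := by rw [e]; positivity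
    refine ⟨pos.le, WBound_exp hM' (mul_pos pk pos) rfl (K := 8 * K) ?_ hD⟩
    have hlog : Real.log (S M k * Wt n M k l) = Real.log (S M k) + (Real.log (S M k) +
        Real.log (S M (l + n - 2)) - (Real.log (S M l) + Real.log (S M (k - l)) +
        Real.log (S M (k + l + n - 1)))) := by
      rw [Real.log_mul pk.ne' pos.ne', e, Real.log_div (by positivity) (by positivity),
        Real.log_mul pk.ne' pln.ne', Real.log_mul (by positivity) pkn.ne',
        Real.log_mul pl.ne' pkl.ne']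
    rw [hlog]
    have hg : (M : ℝ) * gg (k / M) (l / M) = 2 * (M * Fr (k / M)) - M * Fr (k / M - l / M) -
        M * Fr (k / M + l / M) := by
      rw [gg]
      ring
    rw [hg]
    linarith [a1.1, a1.2, a2.1, a2.2, a3.1, a3.2, a4.1, a4.2, a5.1, a5.2, b1.1, b1.2, b2.1, b2.2]
  · have pkn : 0 < S M (k + l + n - 1 - M) := S_pos (by omega)
    have a5 := abs_le.1 (h1 (k + l + n - 1 - M) (by omega))
    have c3 : Fr (((k + l + n - 1 - M : ℕ) : ℝ) / M) =
        Fr (k / M + l / M + ((n - 1 : ℕ) : ℝ) / M) := by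
      rw [← Fr_add_one]
      congr 1
      have : ((k + l + n - 1 - M : ℕ) : ℝ) = k + l + ((n - 1 : ℕ) : ℝ) - M := by
        have h3 : k + l + n - 1 - M + M = k + l + (n - 1) := by omega
        have h4 : ((k + l + n - 1 - M + M : ℕ) : ℝ) = ((k + l + (n - 1) : ℕ) : ℝ) := by rw [h3]
        push_cast at h4
        push_cast
        linarith
      rw [this]
      field_simp
      ring
    rw [c3] at a5
    have e : Wt n M k l = S M k * S M (l + n - 2) /
        (S M l * S M (k - l) * M * S M (k + l + n - 1 - M)) := by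
      rw [Wt, if_neg hc]
    have hMp : (0 : ℝ) < M := by linarith
    have pos : 0 < Wt n M k l := by rw [e]; positivity
    refine ⟨pos.le, WBound_exp hM' (mul_pos pk pos) rfl (K := 8 * K) ?_ hD⟩
    have hlog : Real.log (S M k * Wt n M k l) = Real.log (S M k) + (Real.log (S M k) +
        Real.log (S M (l + n - 2)) - (Real.log (S M l) + Real.log (S M (k - l)) + Real.log M +
        Real.log (S M (k + l + n - 1 - M)))) := by
      rw [Real.log_mul pk.ne' pos.ne', e, Real.log_div (by positivity) (by positivity),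
        Real.log_mul pk.ne' pln.ne', Real.log_mul (by positivity) pkn.ne',
        Real.log_mul (by positivity) hM0, Real.log_mul pl.ne' pkl.ne']
    rw [hlog]
    have hg : (M : ℝ) * gg (k / M) (l / M) = 2 * (M * Fr (k / M)) - M * Fr (k / M - l / M) -
        M * Fr (k / M + l / M) := by
      rw [gg]
      ring
    rw [hg]
    linarith [a1.1, a1.2, a2.1, a2.2, a3.1, a3.2, a4.1, a4.2, a5.1, a5.2, b1.1, b1.2, b2.1, b2.2]

end Pool.Agent.H63.VC3
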