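import Pool.Agent.H63.VC3.WinFacts
import Pool.Agent.H63.VC3.NNterms
import Pool.Agent.H63.VC3.WBound
import Pool.Agent.H63.VC3.GG

/-! # The size of the normalized twist coefficients -/

namespace Pool.Agent.H63.VC3

open Pool.Agent.H63.VC Complex

/-- The bound of one term. -/
theorem StepNN_term (C0 : ℝ) (hC0 : 0 < C0) (D0 : ℕ) (r : ℤ) (n M k l : ℕ)
    (hM : 2 ≤ M) (hkn : k + n ≤ M + 1) (hn : 2 ≤ n) (hl : l ≤ k) (t : ℂ) (W B : ℝ)
    (hW : S M k * W ≤ C0 * (M : ℝ) ^ D0 * Real.exp (M * gg (k / M) (l / M)))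
    (ht : ‖t‖ ≤ 4 * (|(r : ℝ)| * (M : ℝ) + (M : ℝ) ^ 2 + 1) * W)
    (hS : 0 ≤ S M k)
    (hB : gg (k / M) (l / M) ≤ B) :
    S M k * ‖t‖ ≤ 4 * (|(r : ℝ)| + 2) * C0 * (M : ℝ) ^ (D0 + 2) * Real.exp (M * B) := by
  have hM1 : (1 : ℝ) ≤ M := by exact_mod_cast (by omega : 1 ≤ M)
  have hr : 0 ≤ |(r : ℝ)| := abs_nonneg _
  have h1 : |(r : ℝ)| * (M : ℝ) + (M : ℝ) ^ 2 + 1 ≤ (|(r : ℝ)| + 2) * (M : ℝ) ^ 2 := by
    have h2 : (M : ℝ) ≤ (M : ℝ) ^ 2 := by nlinarith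
    have h3 : (1 : ℝ) ≤ (M : ℝ) ^ 2 := by nlinarith
    nlinarith [mul_le_mul_of_nonneg_left h2 hr]
  have h4 : Real.exp (M * gg (k / M) (l / M)) ≤ Real.exp (M * B) := by
    apply Real.exp_le_exp.2
    exact mul_le_mul_of_nonneg_left hB (by positivity)
  have h5 : S M k * W ≤ C0 * (M : ℝ) ^ D0 * Real.exp (M * B) :=
    hW.trans (mul_le_mul_of_nonneg_left h4 (by positivity))
  calc S M k * ‖t‖ ≤ S M k * (4 * (|(r : ℝ)| * (M : ℝ) + (M : ℝ) ^ 2 + 1) * W) :=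
        mul_le_mul_of_nonneg_left ht hS
    _ = 4 * (|(r : ℝ)| * (M : ℝ) + (M : ℝ) ^ 2 + 1) * (S M k * W) := by ring
    _ ≤ 4 * (|(r : ℝ)| * (M : ℝ) + (M : ℝ) ^ 2 + 1) * (C0 * (M : ℝ) ^ D0 * Real.exp (M * B)) :=
        mul_le_mul_of_nonneg_left h5 (by positivity)
    _ ≤ 4 * ((|(r : ℝ)| + 2) * (M : ℝ) ^ 2) * (C0 * (M : ℝ) ^ D0 * Real.exp (M * B)) := by
        refine mul_le_mul_of_nonneg_right ?_ (by positivity)
        linarith
    _ = _ := by rw [pow_add]; ring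

/-- The bound of a sum of terms. -/
theorem StepNN_sum (C0 : ℝ) (hC0 : 0 < C0) (D0 : ℕ) (r : ℤ) (n M k : ℕ)
    (hM : 2 ≤ M) (hkn : k + n ≤ M + 1) (hn : 2 ≤ n) (t : ℕ → ℂ) (W : ℕ → ℝ) (B : ℝ)
    (s : Finset ℕ) (hs : s ⊆ Finset.range (k + 1))
    (hW : ∀ l ∈ s, S M k * W l ≤ C0 * (M : ℝ) ^ D0 * Real.exp (M * gg (k / M) (l / M)))
    (ht : ∀ l ∈ s, ‖t l‖ ≤ 4 * (|(r : ℝ)| * (M : ℝ) + (M : ℝ) ^ 2 + 1) * W l)
    (hS : 0 ≤ S M k)
    (hB : ∀ l ∈ s, gg (k / M) (l / M) ≤ B) :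
    S M k * ‖∑ l ∈ s, t l‖ ≤
      4 * (|(r : ℝ)| + 2) * C0 * (M : ℝ) ^ (D0 + 3) * Real.exp (M * B) := by
  have hM1 : (1 : ℝ) ≤ M := by exact_mod_cast (by omega : 1 ≤ M)
  have hcard : (s.card : ℝ) ≤ M := by
    have h1 := Finset.card_le_card hs
    rw [Finset.card_range] at h1
    exact_mod_cast (by omega : s.card ≤ M)
  calc S M k * ‖∑ l ∈ s, t l‖ ≤ S M k * ∑ l ∈ s, ‖t l‖ :=
        mul_le_mul_of_nonneg_left (norm_sum_le _ _) hS
    _ = ∑ l ∈ s, S M k * ‖t l‖ := by rw [Finset.mul_sum]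
    _ ≤ ∑ _l ∈ s, 4 * (|(r : ℝ)| + 2) * C0 * (M : ℝ) ^ (D0 + 2) * Real.exp (M * B) := by
        refine Finset.sum_le_sum fun l hl => ?_
        have hlk : l ≤ k := by
          have := Finset.mem_range.1 (hs hl)
          omega
        exact StepNN_term C0 hC0 D0 r n M k l hM hkn hn hlk (t l) (W l) B (hW l hl) (ht l hl) hS
          (hB l hl)
    _ = s.card * (4 * (|(r : ℝ)| + 2) * C0 * (M : ℝ) ^ (D0 + 2) * Real.exp (M * B)) := by
        rw [Finset.sum_const, nsmul_eq_mul]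
    _ ≤ M * (4 * (|(r : ℝ)| + 2) * C0 * (M : ℝ) ^ (D0 + 2) * Real.exp (M * B)) :=
        mul_le_mul_of_nonneg_right hcard (by positivity)
    _ = _ := by rw [pow_succ _ (D0 + 2)]; ring

theorem StepNN_frac (M k l : ℕ) (hM : 2 ≤ M) (hl : l ≤ k) (hk : k ≤ M) :
    (0 : ℝ) ≤ (l : ℝ) / M ∧ (l : ℝ) / M ≤ (k : ℝ) / M ∧ (k : ℝ) / M ≤ 1 := by
  have hM0 : (0 : ℝ) < M := by exact_mod_cast (by omega : 0 < M)
  have h1 : (l : ℝ) ≤ k := by exact_mod_cast hl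
  have h2 : (k : ℝ) ≤ M := by exact_mod_cast hk
  refine ⟨by positivity, div_le_div_of_nonneg_right h1 hM0.le, ?_⟩
  rw [div_le_one hM0]
  exact h2

/-- The size of the normalized twist coefficients. -/
theorem NN_bound (r : ℤ) (hr : r ≠ 0) (n : ℕ) (hn : 2 ≤ n) : ∃ C : ℝ, 0 < C ∧ ∃ D : ℕ,
    ∀ M k : ℕ, 2 ≤ M → k + n ≤ M + 1 →
    S M k * ‖NN r n M k‖ ≤ C * (M : ℝ) ^ D * Real.exp (M * (4 * Fr (3 / 4))) ∧
    (53 / 1000 ≤ |(k : ℝ) / M - 3 / 4| →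
      S M k * ‖NN r n M k‖ ≤ C * (M : ℝ) ^ D * Real.exp (M * (4 * Fr (3 / 4) - 17 / 1000))) := by
  obtain ⟨C0, hC0, D0, hW⟩ := Wt_bound n hn
  refine ⟨4 * (|(r : ℝ)| + 2) * C0, by positivity, D0 + 3, fun M k hM hk => ?_⟩
  obtain ⟨t, ht, hb, -⟩ := NN_terms r hr n M k hn hM hk
  have hS : 0 ≤ S M k := (S_pos (by omega)).le
  rw [ht]
  constructor
  · refine StepNN_sum C0 hC0 D0 r n M k hM hk hn t (Wt n M k) _ (Finset.range (k + 1))
      (Finset.Subset.refl _) (fun l hl => ?_) (fun l hl => ?_) hS (fun l hl => ?_)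
    · have hlk : l ≤ k := Nat.lt_succ_iff.1 (Finset.mem_range.1 hl)
      exact (hW M k l hM hlk hk).2
    · exact hb l (Nat.lt_succ_iff.1 (Finset.mem_range.1 hl))
    · have hlk : l ≤ k := Nat.lt_succ_iff.1 (Finset.mem_range.1 hl)
      obtain ⟨h1, h2, h3⟩ := StepNN_frac M k l hM hlk (by omega)
      exact gg_le _ _ h1 h2 h3
  · intro h53
    refine StepNN_sum C0 hC0 D0 r n M k hM hk hn t (Wt n M k) _ (Finset.range (k + 1))
      (Finset.Subset.refl _) (fun l hl => ?_) (fun l hl => ?_) hS (fun l hl => ?_)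
    · have hlk : l ≤ k := Nat.lt_succ_iff.1 (Finset.mem_range.1 hl)
      exact (hW M k l hM hlk hk).2
    · exact hb l (Nat.lt_succ_iff.1 (Finset.mem_range.1 hl))
    · have hlk : l ≤ k := Nat.lt_succ_iff.1 (Finset.mem_range.1 hl)
      obtain ⟨h1, h2, h3⟩ := StepNN_frac M k l hM hlk (by omega)
      exact gg_le_x _ _ h1 h2 h3 h53

/-- The part of the `l`-sum outside of the window is negligible. -/
theorem NN_window (r : ℤ) (hr : r ≠ 0) (n : ℕ) (hn : 2 ≤ n) : ∃ C : ℝ, 0 < C ∧ ∃ D : ℕ,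
    ∀ M k1 k2 l1 l2 k : ℕ, Win n M k1 k2 l1 l2 → k1 ≤ k → k ≤ k2 →
    S M k * ‖NN r n M k - c1 n M ^ r * (S M k / (4 * Real.pi * I * M)) *
      ∑ l ∈ Finset.Icc l1 l2, deriv (KK r n M (yk n M k)) (vl n M l)‖ ≤
      C * (M : ℝ) ^ D * Real.exp (M * (4 * Fr (3 / 4) - 40 / 1000)) := by
  obtain ⟨C0, hC0, D0, hW⟩ := Wt_bound n hn
  refine ⟨4 * (|(r : ℝ)| + 2) * C0, by positivity, D0 + 3,
    fun M k1 k2 l1 l2 k hw hk1 hk2 => ?_⟩
  obtain ⟨f1, f2, f3, -, f5, -, -⟩ := win_facts n M k1 k2 l1 l2 hn hw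
  have hM : 2 ≤ M := by have := hw.big; omega
  have hk : k + n ≤ M + 1 := by omega
  obtain ⟨t, ht, hb, hpair⟩ := NN_terms r hr n M k hn hM hk
  have hS : 0 ≤ S M k := (S_pos (by omega)).le
  have hsub : Finset.Icc l1 l2 ⊆ Finset.range (k + 1) := by
    intro l hl
    rw [Finset.mem_Icc] at hl
    rw [Finset.mem_range]
    omega
  have hsumI : ∑ l ∈ Finset.Icc l1 l2, t l = c1 n M ^ r * (S M k / (4 * Real.pi * I * M)) *
      ∑ l ∈ Finset.Icc l1 l2, deriv (KK r n M (yk n M k)) (vl n M l) := by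
    have hrefl : ∑ l ∈ Finset.Icc l1 l2, t l = ∑ l ∈ Finset.Icc l1 l2, t (l1 + l2 - l) := by
      refine Finset.sum_nbij' (fun l => l1 + l2 - l) (fun l => l1 + l2 - l) ?_ ?_ ?_ ?_ ?_
      · intro l hl
        rw [Finset.mem_Icc] at hl ⊢
        omega
      · intro l hl
        rw [Finset.mem_Icc] at hl ⊢
        omega
      · intro l hl
        rw [Finset.mem_Icc] at hl
        omega
      · intro l hl
        rw [Finset.mem_Icc] at hl
        omega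
      · intro l hl
        rw [Finset.mem_Icc] at hl
        congr 1
        omega
    have h2 : 2 * ∑ l ∈ Finset.Icc l1 l2, t l =
        2 * (c1 n M ^ r * (S M k / (4 * Real.pi * I * M)) *
          ∑ l ∈ Finset.Icc l1 l2, deriv (KK r n M (yk n M k)) (vl n M l)) := by
      calc 2 * ∑ l ∈ Finset.Icc l1 l2, t l
          = ∑ l ∈ Finset.Icc l1 l2, t l + ∑ l ∈ Finset.Icc l1 l2, t (l1 + l2 - l) := by
            rw [← hrefl]; ring
        _ = ∑ l ∈ Finset.Icc l1 l2, (t l + t (l1 + l2 - l)) := by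
            rw [Finset.sum_add_distrib]
        _ = ∑ l ∈ Finset.Icc l1 l2, 2 * c1 n M ^ r * (S M k / (4 * Real.pi * I * M)) *
              deriv (KK r n M (yk n M k)) (vl n M l) := by
            refine Finset.sum_congr rfl fun l hl => ?_
            rw [Finset.mem_Icc] at hl
            have hll := hw.hl
            exact hpair l (l1 + l2 - l) (by omega) (by omega) (by omega)
        _ = _ := by rw [← Finset.mul_sum]; ring
    exact mul_left_cancel₀ two_ne_zero h2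
  have hdiff : NN r n M k - c1 n M ^ r * (S M k / (4 * Real.pi * I * M)) *
      ∑ l ∈ Finset.Icc l1 l2, deriv (KK r n M (yk n M k)) (vl n M l) =
      ∑ l ∈ Finset.range (k + 1) \ Finset.Icc l1 l2, t l := by
    rw [ht, ← hsumI, ← Finset.sum_sdiff hsub]
    ring
  rw [hdiff]
  refine StepNN_sum C0 hC0 D0 r n M k hM hk hn t (Wt n M k) _
    (Finset.range (k + 1) \ Finset.Icc l1 l2) Finset.sdiff_subset (fun l hl => ?_)
    (fun l hl => ?_) hS (fun l hl => ?_)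
  · rw [Finset.mem_sdiff, Finset.mem_range] at hl
    exact (hW M k l hM (by omega) hk).2
  · rw [Finset.mem_sdiff, Finset.mem_range] at hl
    exact hb l (by omega)
  · rw [Finset.mem_sdiff, Finset.mem_range, Finset.mem_Icc] at hl
    obtain ⟨h1, h2, h3⟩ := StepNN_frac M k l hM (by omega) (by omega)
    exact gg_le_l _ _ h1 h2 h3 (f3 k hk1 hk2).2 (f5 l (by omega))

end Pool.Agent.H63.VC3
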