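import Pool.Agent.H63.VC3.KAn
import Pool.Agent.H63.VC3.KB
import Pool.Agent.H63.VC3.Om
import Pool.Agent.H63.VC3.StepNN
import Pool.Agent.H63.VC3.SumL
import Pool.Agent.H63.VC3.Upper

/-! # From the `l`-sum to the flat contour -/

namespace Pool.Agent.H63.VC3

open Pool.Agent.H63.VC Complex

/-- Replacing the twist coefficient by the contour integral. -/
theorem NN_PP (r : ℤ) (hr : r ≠ 0) (n : ℕ) (hn : 2 ≤ n) (Y : ℝ) (hY : 0 < Y) :
    ∃ C : ℝ, 0 < C ∧ ∃ D : ℕ, ∀ M k1 k2 l1 l2 k : ℕ, Win n M k1 k2 l1 l2 → k1 ≤ k → k ≤ k2 →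
    S M k * ‖NN r n M k + c1 n M ^ r * (S M k * M) * PP r n M (yk n M k) (rho n M l2) Y‖ ≤
      C * (M : ℝ) ^ D * Real.exp (M * (4 * Fr (3 / 4) - 40 / 1000)) := by
  obtain ⟨C, hC, D, h⟩ := NN_window r hr n hn
  refine ⟨C, hC, D, fun M k1 k2 l1 l2 k hw hk1 hk2 => ?_⟩
  have h1 := h M k1 k2 l1 l2 k hw hk1 hk2
  obtain ⟨f1, f2, f3, f4, f5, f6, f7⟩ := win_facts n M k1 k2 l1 l2 hn hw
  have f8 := (f3 k hk1 hk2).1
  rw [abs_le] at f8
  have hMpos : 0 < M := by have := hw.big; omega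
  have hM0 : (M : ℂ) ≠ 0 := by exact_mod_cast hMpos.ne'
  have hpi : (Real.pi : ℂ) ≠ 0 := by exact_mod_cast Real.pi_ne_zero
  have hs : ∑ l ∈ Finset.Icc l1 l2, deriv (KK r n M (yk n M k)) (vl n M l) =
      -(4 * Real.pi * I) * M ^ 2 * PP r n M (yk n M k) (rho n M l2) Y := by
    refine sum_l (KK r n M (yk n M k)) n M l1 l2 Y hMpos hw.hl (by omega) hw.hl' hY
      (rho n M l2) rfl ?_ ?_
    · intro z hz1 hz2
      rw [abs_le] at hz1
      refine KK_differentiable_v r n M hMpos _ z ?_ ?_ ?_ ?_ <;>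
        simp only [Complex.sub_re, Complex.add_re, Complex.ofReal_re] <;> linarith
    · intro z
      exact KK_odd r n M _ z
  rw [hs] at h1
  have h2 : NN r n M k + c1 n M ^ r * (S M k * M) * PP r n M (yk n M k) (rho n M l2) Y =
      NN r n M k - c1 n M ^ r * (S M k / (4 * Real.pi * I * M)) *
        (-(4 * Real.pi * I) * M ^ 2 * PP r n M (yk n M k) (rho n M l2) Y) := by
    have hI := Complex.I_ne_zero
    field_simp
    ring
  rw [h2]
  exact h1

/-- Comparison of `Fr` at the two points. -/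
theorem StepPP_Fr (a b : ℝ) (ha : 69 / 100 ≤ a) (ha' : a ≤ 82 / 100) (hb : 69 / 100 ≤ b)
    (hb' : b ≤ 82 / 100) : |Fr a - Fr b| ≤ |a - b| := by
  have hd : ∀ x ∈ Set.Icc (69 / 100 : ℝ) (82 / 100), HasDerivWithinAt Fr
      (Real.log (2 * Real.sin (Real.pi * x))) (Set.Icc (69 / 100 : ℝ) (82 / 100)) x := by
    intro x hx
    exact (Fr_hasDerivAt x (by linarith [hx.1]) (by linarith [hx.2])).hasDerivWithinAt
  have hbd : ∀ x ∈ Set.Icc (69 / 100 : ℝ) (82 / 100),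
      ‖Real.log (2 * Real.sin (Real.pi * x))‖ ≤ 1 := by
    intro x hx
    have hpi := Real.pi_pos
    have h1 : 2 / Real.pi * (Real.pi * (1 - x)) ≤ Real.sin (Real.pi * (1 - x)) := by
      apply Real.mul_le_sin
      · have : 0 ≤ 1 - x := by linarith [hx.2]
        positivity
      · nlinarith [hx.1]
    have h2 : Real.sin (Real.pi * (1 - x)) = Real.sin (Real.pi * x) := by
      rw [show Real.pi * (1 - x) = Real.pi - Real.pi * x by ring, Real.sin_pi_sub]
    have h3 : 2 / Real.pi * (Real.pi * (1 - x)) = 2 * (1 - x) := by field_simp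
    rw [h2, h3] at h1
    have h4 : (72 / 100 : ℝ) ≤ 2 * Real.sin (Real.pi * x) := by linarith [hx.2]
    have h5 : 2 * Real.sin (Real.pi * x) ≤ 2 := by linarith [Real.sin_le_one (Real.pi * x)]
    rw [Real.norm_eq_abs, abs_le]
    constructor
    · rw [Real.le_log_iff_exp_le (by linarith)]
      have h6 : Real.exp (-1) < 0.3678794412 := Real.exp_neg_one_lt_d9
      linarith
    · rw [Real.log_le_iff_le_exp (by linarith)]
      have h6 : 2.7182818283 < Real.exp 1 := Real.exp_one_gt_d9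
      linarith
  have h := Convex.norm_image_sub_le_of_norm_hasDerivWithin_le (x := b) (y := a) hd hbd
    (convex_Icc _ _) ⟨hb, hb'⟩ ⟨ha, ha'⟩
  simpa [Real.norm_eq_abs] using h

/-- Replacing the contour by its flat part. -/
theorem PP_FL (r : ℤ) (hr : 10 ≤ |r|) (n : ℕ) (hn : 2 ≤ n) (Y : ℝ) (hY : 0 < Y)
    (hY' : Y ≤ 3 / (10 * (r : ℝ) ^ 2)) :
    ∃ C : ℝ, 0 < C ∧ ∃ D : ℕ, ∀ M k1 k2 l1 l2 k : ℕ, Win n M k1 k2 l1 l2 → k1 ≤ k → k ≤ k2 →
    S M k ^ 2 * ‖PP r n M (yk n M k) (rho n M l2) Y - FL r n M (yk n M k) (rho n M l2) Y‖ ≤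
      C * (M : ℝ) ^ D * Real.exp (M * (4 * Fr (3 / 4) - 20 / 1000)) := by
  obtain ⟨C1, hC1, hKK⟩ := KK_bound r n
  obtain ⟨C2, hC2, hS⟩ := log_S_bound
  refine ⟨2 * Y * C1 * Real.exp n, by positivity, ⌈2 * C2⌉₊, fun M k1 k2 l1 l2 k hw hk1 hk2 => ?_⟩
  obtain ⟨f1, f2, f3, f4, f5, f6, f7⟩ := win_facts n M k1 k2 l1 l2 hn hw
  have f8 := (f3 k hk1 hk2).1
  have f9 := (f3 k hk1 hk2).2
  have hMbig : 1000 * (n + 1) ≤ M := hw.big
  have hMpos : 0 < M := by omega
  have hM0 : (0 : ℝ) < M := by exact_mod_cast hMpos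
  have hM1 : (1 : ℝ) ≤ M := by exact_mod_cast hMpos
  have hr2 : (100 : ℝ) ≤ (r : ℝ) ^ 2 := by
    have h1 : (10 : ℝ) ≤ |(r : ℝ)| := by exact_mod_cast hr
    rw [← sq_abs]
    nlinarith
  have hY3 : Y ≤ 3 / 1000 := by
    refine hY'.trans ?_
    rw [div_le_div_iff₀ (by positivity) (by norm_num)]
    nlinarith
  set y : ℝ := yk n M k with hy
  set ρ : ℝ := rho n M l2 with hρ
  -- the bound on a vertical side
  have side : ∀ σ : ℝ, (σ = ρ ∨ σ = -ρ) → ∀ t : ℝ, 0 ≤ t → t ≤ Y →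
      ‖KK r n M (y : ℂ) ((σ : ℂ) + t * I) * om n M ((σ : ℂ) + t * I) * I‖ ≤
        C1 / M * Real.exp (M * (4 * Fr (3 / 4) - 20 / 1000 - 2 * Fr (y + 1 / 2))) := by
    intro σ hσ t ht0 ht1
    have hom : ‖om n M ((σ : ℂ) + t * I)‖ ≤ Real.exp (-(2 * Real.pi * M * t)) := by
      obtain ⟨o1, o2, -, -⟩ := om_side n M l1 l2 hMpos hw.hl t ρ rfl
      rcases hσ with h | h
      · rw [h]; exact o1
      · rw [h, Complex.ofReal_neg]; exact o2
    have hσabs : |σ| = ρ := by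
      have : 0 ≤ ρ := by linarith
      rcases hσ with h | h
      · rw [h, abs_of_nonneg this]
      · rw [h, abs_neg, abs_of_nonneg this]
    have hσ1 : -ρ ≤ σ := by rw [← hσabs]; exact neg_abs_le σ
    have hσ2 : σ ≤ ρ := by rw [← hσabs]; exact le_abs_self σ
    rw [abs_le] at f8
    have hre : ((σ : ℂ) + t * I).re = σ := by simp
    have him : ((σ : ℂ) + t * I).im = t := by simp
    have hk := hKK M (by omega) (y : ℂ) ((σ : ℂ) + t * I)
      (by rw [Complex.sub_re, hre, Complex.ofReal_re]; linarith)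
      (by rw [Complex.sub_re, hre, Complex.ofReal_re]; linarith)
      (by rw [Complex.add_re, hre, Complex.ofReal_re]; linarith)
      (by rw [Complex.add_re, hre, Complex.ofReal_re]; linarith)
      (by rw [Complex.ofReal_im, abs_zero]; norm_num)
      (by rw [him, abs_of_nonneg ht0]; linarith)
    have hsv := side_v r hr y t σ (by rw [abs_le]; exact f8) (by rw [hσabs]; exact f6)
      (by rw [hσabs]; linarith) ht0 (ht1.trans hY')
    have hWf : (Wf r (y : ℂ) ((σ : ℂ) + t * I)).re =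
        (2 * Real.pi * I * r * ((σ : ℂ) + t * I) ^ 2 - ff (y - ((σ : ℂ) + t * I)) -
          ff (y + ((σ : ℂ) + t * I))).re - 2 * Real.pi * t := by
      have h1 : Wf r (y : ℂ) ((σ : ℂ) + t * I) =
        (2 * Real.pi * I * r * ((σ : ℂ) + t * I) ^ 2 - ff (y - ((σ : ℂ) + t * I)) -
          ff (y + ((σ : ℂ) + t * I))) + 2 * Real.pi * I * ((σ : ℂ) + t * I) := by
        unfold Wf; ring
      rw [h1, Complex.add_re]
      have h2 : (2 * (Real.pi : ℂ) * I * ((σ : ℂ) + t * I)).re = -(2 * Real.pi * t) := by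
        simp
      rw [h2]; ring
    rw [norm_mul, norm_mul, Complex.norm_I, mul_one]
    calc ‖KK r n M (y : ℂ) ((σ : ℂ) + t * I)‖ * ‖om n M ((σ : ℂ) + t * I)‖
        ≤ (C1 / M * Real.exp (M * (2 * Real.pi * I * r * ((σ : ℂ) + t * I) ^ 2 -
          ff (y - ((σ : ℂ) + t * I)) - ff (y + ((σ : ℂ) + t * I))).re)) *
          Real.exp (-(2 * Real.pi * M * t)) :=
          mul_le_mul hk hom (norm_nonneg _) (by positivity)
      _ = C1 / M * Real.exp (M * (Wf r (y : ℂ) ((σ : ℂ) + t * I)).re) := by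
          rw [mul_assoc, ← Real.exp_add, hWf]
          congr 2
          ring
      _ ≤ _ := by
          have : (Wf r (y : ℂ) ((σ : ℂ) + t * I)).re ≤
            4 * Fr (3 / 4) - 20 / 1000 - 2 * Fr (y + 1 / 2) := by linarith
          gcongr
  set B : ℝ := C1 / M * Real.exp (M * (4 * Fr (3 / 4) - 20 / 1000 - 2 * Fr (y + 1 / 2))) with hB
  have hB0 : 0 ≤ B := by positivity
  have i1 : ‖∫ t in (0 : ℝ)..Y, KK r n M (y : ℂ) (-(ρ : ℂ) + t * I) * om n M (-(ρ : ℂ) + t * I) * I‖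
      ≤ B * |Y - 0| := by
    apply intervalIntegral.norm_integral_le_of_norm_le_const
    intro t ht
    rw [Set.uIoc_of_le hY.le] at ht
    have := side (-ρ) (Or.inr rfl) t ht.1.le ht.2
    rwa [Complex.ofReal_neg] at this
  have i2 : ‖∫ t in (0 : ℝ)..Y, KK r n M (y : ℂ) ((ρ : ℂ) + t * I) * om n M ((ρ : ℂ) + t * I) * I‖
      ≤ B * |Y - 0| := by
    apply intervalIntegral.norm_integral_le_of_norm_le_const
    intro t ht
    rw [Set.uIoc_of_le hY.le] at ht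
    exact side ρ (Or.inl rfl) t ht.1.le ht.2
  rw [sub_zero, abs_of_pos hY] at i1 i2
  have hdiff : PP r n M (y : ℂ) ρ Y - FL r n M (y : ℂ) ρ Y =
      (∫ t in (0 : ℝ)..Y, KK r n M (y : ℂ) (-(ρ : ℂ) + t * I) * om n M (-(ρ : ℂ) + t * I) * I) -
      ∫ t in (0 : ℝ)..Y, KK r n M (y : ℂ) ((ρ : ℂ) + t * I) * om n M ((ρ : ℂ) + t * I) * I := by
    unfold PP FL Path
    ring
  have hPF : ‖PP r n M (y : ℂ) ρ Y - FL r n M (y : ℂ) ρ Y‖ ≤ 2 * Y * B := by
    rw [hdiff]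
    refine (norm_sub_le _ _).trans ?_
    linarith
  -- the size of `S`
  have hkM : k < M := by omega
  have hSpos := S_pos hkM
  have hlog := hS M k (by omega) hkM
  rw [abs_le] at hlog
  have hlogM : 0 ≤ Real.log M := Real.log_nonneg hM1
  have hFr : M * Fr (k / M) ≤ M * Fr (y + 1 / 2) + n / 2 := by
    have hyk : y + 1 / 2 = (k : ℝ) / M + (n / 2) / M := by
      rw [hy]; unfold yk bt; field_simp; ring
    have hnM : (n : ℝ) / 2 / M ≤ 1 / 1000 := by
      rw [div_div, div_le_div_iff₀ (by positivity) (by norm_num)]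
      have : (1000 * (n + 1) : ℝ) ≤ M := by exact_mod_cast hMbig
      linarith
    have hnM0 : 0 ≤ (n : ℝ) / 2 / M := by positivity
    rw [abs_le] at f9
    have h1 := StepPP_Fr ((k : ℝ) / M) (y + 1 / 2) (by linarith) (by linarith) (by linarith)
      (by linarith)
    have h2 : |(k : ℝ) / M - (y + 1 / 2)| = (n / 2) / M := by
      rw [hyk, show (k : ℝ) / M - ((k : ℝ) / M + (n / 2) / M) = -((n / 2) / M) by ring, abs_neg,
        abs_of_nonneg hnM0]
    rw [h2] at h1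
    have h3 : Fr ((k : ℝ) / M) ≤ Fr (y + 1 / 2) + (n / 2) / M := by
      have := (abs_le.mp h1).2
      linarith
    calc (M : ℝ) * Fr (k / M) ≤ M * (Fr (y + 1 / 2) + (n / 2) / M) := by gcongr
      _ = M * Fr (y + 1 / 2) + n / 2 := by field_simp
  have hS2 : S M k ^ 2 ≤ (M : ℝ) ^ ⌈2 * C2⌉₊ * (Real.exp n * Real.exp (M * (2 * Fr (y + 1 / 2)))) := by
    have h1 : Real.log (S M k) ≤ M * Fr (y + 1 / 2) + n / 2 + C2 * Real.log M := by linarith
    have h2 : S M k ^ 2 = Real.exp (2 * Real.log (S M k)) := by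
      rw [two_mul, Real.exp_add, Real.exp_log hSpos]; ring
    rw [h2]
    calc Real.exp (2 * Real.log (S M k))
        ≤ Real.exp (Real.log M * ⌈2 * C2⌉₊ + (n + M * (2 * Fr (y + 1 / 2)))) := by
          apply Real.exp_le_exp.mpr
          have h3 : 2 * C2 ≤ ⌈2 * C2⌉₊ := Nat.le_ceil _
          have h4 : Real.log M * (2 * C2) ≤ Real.log M * ⌈2 * C2⌉₊ :=
            mul_le_mul_of_nonneg_left h3 hlogM
          linarith
      _ = _ := by
          rw [Real.exp_add, Real.exp_add, Real.exp_mul, Real.exp_log hM0, Real.rpow_natCast]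
  calc S M k ^ 2 * ‖PP r n M (y : ℂ) ρ Y - FL r n M (y : ℂ) ρ Y‖
      ≤ ((M : ℝ) ^ ⌈2 * C2⌉₊ * (Real.exp n * Real.exp (M * (2 * Fr (y + 1 / 2))))) *
        (2 * Y * B) := mul_le_mul hS2 hPF (norm_nonneg _) (by positivity)
    _ = 2 * Y * (C1 / M) * Real.exp n * (M : ℝ) ^ ⌈2 * C2⌉₊ *
        (Real.exp (M * (2 * Fr (y + 1 / 2))) *
          Real.exp (M * (4 * Fr (3 / 4) - 20 / 1000 - 2 * Fr (y + 1 / 2)))) := by
        rw [hB]; ring
    _ = 2 * Y * (C1 / M) * Real.exp n * (M : ℝ) ^ ⌈2 * C2⌉₊ *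
        Real.exp (M * (4 * Fr (3 / 4) - 20 / 1000)) := by
        rw [← Real.exp_add]
        congr 2
        ring
    _ ≤ 2 * Y * C1 * Real.exp n * (M : ℝ) ^ ⌈2 * C2⌉₊ *
        Real.exp (M * (4 * Fr (3 / 4) - 20 / 1000)) := by
        have : C1 / M ≤ C1 := div_le_self hC1.le hM1
        gcongr

end Pool.Agent.H63.VC3
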