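import Pool.Agent.H63.VC3.GBound
import Pool.Agent.H63.VC3.Tube

/-! # Concavity through the critical point -/

namespace Pool.Agent.H63.VC3

open Pool.Agent.H63.VC Complex

lemma Conc_int {r : ℤ} (h : 10 ≤ |r|) : (10 : ℝ) ≤ |(r : ℝ)| := by
  have : ((10 : ℤ) : ℝ) ≤ ((|r| : ℤ) : ℝ) := by exact_mod_cast h
  push_cast at this
  exact this

lemma Conc_sq {r : ℤ} (h : 10 ≤ |r|) : (100 : ℝ) ≤ (r : ℝ) ^ 2 := by
  have h1 := Conc_int h
  have h2 := mul_le_mul h1 h1 (by norm_num) (abs_nonneg _)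
  rw [abs_mul_abs_self] at h2
  nlinarith

lemma Conc_ne {r : ℤ} (h : 10 ≤ |r|) : (r : ℝ) ≠ 0 := by
  intro h0
  have := Conc_sq h
  rw [h0] at this
  norm_num at this

lemma Conc_small {r : ℤ} (h : 10 ≤ |r|) : |-(1 / (2 * (r : ℝ)))| ≤ 1 / 20 := by
  rw [abs_neg, abs_div, abs_one, abs_mul, abs_two]
  apply one_div_le_one_div_of_le (by norm_num)
  linarith [Conc_int h]

lemma Conc_three {r : ℤ} (h : 10 ≤ |r|) : 3 / (10 * (r : ℝ) ^ 2) ≤ 3 / 1000 := by
  have := Conc_sq h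
  apply div_le_div_of_nonneg_left (by norm_num) (by norm_num)
  linarith

lemma Conc_loc {r : ℤ} (h : 10 ≤ |r|) {v : ℂ}
    (hv : ‖v + 1 / (2 * r)‖ ≤ 3 / (10 * (r : ℝ) ^ 2)) :
    |v.re| ≤ 53 / 1000 ∧ v.im ≤ 3 / (10 * (r : ℝ) ^ 2) := by
  have e : (1 / (2 * (r : ℂ))) = ((1 / (2 * (r : ℝ)) : ℝ) : ℂ) := by push_cast; rfl
  have h1 := abs_re_le_norm (v + 1 / (2 * r))
  have h2 := abs_im_le_norm (v + 1 / (2 * r))
  rw [e] at h1 h2 hv
  rw [add_re, ofReal_re] at h1
  rw [add_im, ofReal_im, add_zero] at h2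
  have h3 := Conc_small h
  have h4 := Conc_three h
  rw [abs_neg] at h3
  have h5 := abs_le.1 h3
  have h6 := abs_le.1 (h1.trans (hv.trans h4))
  refine ⟨abs_le.2 ⟨by linarith only [h6.1, h5.2], by linarith [h5.1, h6.1, h5.2, h6.2]⟩, ?_⟩
  exact (le_abs_self _).trans (h2.trans hv)

/-- Simple consequences of the location of the critical point. -/
theorem crit_loc (r1 r2 : ℤ) (y v w : ℂ) (hc : Crit r1 r2 y v w) :
    |y.re - 1 / 4| ≤ 1 / 100 ∧ |y.im| ≤ 1 / 100 ∧ |v.re| ≤ 53 / 1000 ∧ |w.re| ≤ 53 / 1000 ∧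
    v.im ≤ 3 / (10 * (r1 : ℝ) ^ 2) ∧ w.im ≤ 3 / (10 * (r2 : ℝ) ^ 2) ∧
    v.im ≤ 3 / 1000 ∧ w.im ≤ 3 / 1000 := by
  obtain ⟨a1, a2⟩ := Conc_loc hc.h1 hc.bdv
  obtain ⟨b1, b2⟩ := Conc_loc hc.h2 hc.bdw
  have e : (1 / 4 : ℂ) = ((1 / 4 : ℝ) : ℂ) := by push_cast; rfl
  have h1 := abs_re_le_norm (y - 1 / 4)
  have h2 := abs_im_le_norm (y - 1 / 4)
  have hy := hc.bdy
  rw [e] at h1 h2 hy
  rw [sub_re, ofReal_re] at h1
  rw [sub_im, ofReal_im, sub_zero] at h2
  exact ⟨h1.trans hy, h2.trans hy, a1, b1, a2, b2, a2.trans (Conc_three hc.h1),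
    b2.trans (Conc_three hc.h2)⟩

lemma Conc_phase (r : ℤ) (V : ℂ) :
    (2 * Real.pi * I * (r * V ^ 2 + V)).re = -(2 * Real.pi * (2 * r * V.re * V.im + V.im)) := by
  simp only [pow_two, mul_re, mul_im, add_re, add_im, I_re, I_im, re_ofNat, im_ofNat, ofReal_re,
    ofReal_im, intCast_re, intCast_im]
  ring

lemma Conc_lin (r : ℤ) (V : ℂ) :
    (2 * Real.pi * I * (2 * r * V + 1)).re = -(2 * Real.pi * (2 * r * V.im)) := by
  simp only [mul_re, mul_im, add_re, add_im, I_re, I_im, re_ofNat, im_ofNat, ofReal_re,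
    ofReal_im, intCast_re, intCast_im, one_re, one_im]
  ring

/-- Concavity along the real directions through the critical point. -/
theorem conc (r1 r2 : ℤ) (y v w : ℂ) (hc : Crit r1 r2 y v w) (x a b : ℝ)
    (hx : |x - 1 / 4| ≤ 55 / 1000) (ha : |a| ≤ 15 / 100) (hb : |b| ≤ 15 / 100) :
    (Vf r1 r2 (x + y.im * I) (a + v.im * I) (b + w.im * I)).re ≤ (Vf r1 r2 y v w).re -
      1 / 10 * ((x - y.re) ^ 2 + (a - v.re) ^ 2 + (b - w.re) ^ 2) := by
  obtain ⟨l1, l2, l3, l4, -, -, l7, l8⟩ := crit_loc r1 r2 y v w hc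
  have pv := hc.imv
  have pw := hc.imw
  obtain ⟨l1a, l1b⟩ := abs_le.1 l1
  obtain ⟨l2a, l2b⟩ := abs_le.1 l2
  obtain ⟨l3a, l3b⟩ := abs_le.1 l3
  obtain ⟨l4a, l4b⟩ := abs_le.1 l4
  obtain ⟨hxa, hxb⟩ := abs_le.1 hx
  obtain ⟨haa, hab⟩ := abs_le.1 ha
  obtain ⟨hba, hbb⟩ := abs_le.1 hb
  have eh : (1 / 2 : ℂ) = ((1 / 2 : ℝ) : ℂ) := by push_cast; rfl
  have rh : (y + 1 / 2).re = y.re + 1 / 2 := by rw [eh, add_re, ofReal_re]
  have ih : (y + 1 / 2).im = y.im := by rw [eh, add_im, ofReal_im, add_zero]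
  have c0 := ff_horiz_right (y + 1 / 2) (x - y.re) (by rw [rh]; linarith only [l1a]) (by rw [rh]; linarith only [l1b])
    (by rw [rh]; linarith) (by rw [rh]; linarith) (by rw [ih, abs_le]; constructor <;> linarith)
  have c1 := ff_horiz_left (y - v) ((x - y.re) - (a - v.re)) (by rw [sub_re]; linarith only [l1a, l3b])
    (by rw [sub_re]; linarith only [l1b, l3a]) (by rw [sub_re]; linarith only [hxa, hab]) (by rw [sub_re]; linarith only [hxb, haa])
    (by rw [sub_im, abs_le]; constructor <;> linarith only [l7, l2a, pv, l2b])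
  have c2 := ff_horiz_left (y + v) ((x - y.re) + (a - v.re)) (by rw [add_re]; linarith only [l1a, l3a])
    (by rw [add_re]; linarith only [l1b, l3b]) (by rw [add_re]; linarith only [hxa, haa]) (by rw [add_re]; linarith only [hxb, hab])
    (by rw [add_im, abs_le]; constructor <;> linarith only [pv, l2a, l7, l2b])
  have c3 := ff_horiz_left (y - w) ((x - y.re) - (b - w.re)) (by rw [sub_re]; linarith only [l1a, l4b])
    (by rw [sub_re]; linarith only [l1b, l4a]) (by rw [sub_re]; linarith only [hxa, hbb]) (by rw [sub_re]; linarith only [hxb, hba])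
    (by rw [sub_im, abs_le]; constructor <;> linarith only [l8, l2a, pw, l2b])
  have c4 := ff_horiz_left (y + w) ((x - y.re) + (b - w.re)) (by rw [add_re]; linarith only [l1a, l4a])
    (by rw [add_re]; linarith only [l1b, l4b]) (by rw [add_re]; linarith only [hxa, hba]) (by rw [add_re]; linarith only [hxb, hbb])
    (by rw [add_im, abs_le]; constructor <;> linarith only [pw, l2a, l8, l2b])
  have ey : y = (y.re : ℂ) + y.im * I := (re_add_im y).symm
  have ev : v = (v.re : ℂ) + v.im * I := (re_add_im v).symm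
  have ew : w = (w.re : ℂ) + w.im * I := (re_add_im w).symm
  have e0 : y + 1 / 2 + ((x - y.re : ℝ) : ℂ) = x + y.im * I + 1 / 2 := by
    push_cast
    linear_combination ey
  have e1 : y - v + ((x - y.re - (a - v.re) : ℝ) : ℂ) = x + y.im * I - (a + v.im * I) := by
    push_cast
    linear_combination ey - ev
  have e2 : y + v + ((x - y.re + (a - v.re) : ℝ) : ℂ) = x + y.im * I + (a + v.im * I) := by
    push_cast
    linear_combination ey + ev
  have e3 : y - w + ((x - y.re - (b - w.re) : ℝ) : ℂ) = x + y.im * I - (b + w.im * I) := by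
    push_cast
    linear_combination ey - ew
  have e4 : y + w + ((x - y.re + (b - w.re) : ℝ) : ℂ) = x + y.im * I + (b + w.im * I) := by
    push_cast
    linear_combination ey + ew
  rw [e0] at c0
  rw [e1] at c1
  rw [e2] at c2
  rw [e3] at c3
  rw [e4] at c4
  have k1 := congrArg Complex.re hc.ey
  have k2 := congrArg Complex.re hc.ev
  have k3 := congrArg Complex.re hc.ew
  rw [sub_re, add_re, Conc_lin, zero_re] at k2 k3
  have r4 : ∀ z : ℂ, (4 * z).re = 4 * z.re := fun z => by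
    simp only [mul_re, re_ofNat, im_ofNat, zero_mul, sub_zero]
  simp only [add_re, r4] at k1
  unfold Vf
  simp only [sub_re, add_re, r4]
  have p1 := Conc_phase r1 (a + v.im * I)
  have p2 := Conc_phase r2 (b + w.im * I)
  have p3 := Conc_phase r1 v
  have p4 := Conc_phase r2 w
  have q1 : ∀ s t : ℝ, ((s : ℂ) + t * I).re = s := fun s t => by
    simp
  have q2 : ∀ s t : ℝ, ((s : ℂ) + t * I).im = t := fun s t => by
    simp
  rw [q1, q2] at p1 p2
  rw [p1, p2, p3, p4]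
  have k2' := congrArg (fun s => (a - v.re) * s) k2
  have k3' := congrArg (fun s => (b - w.re) * s) k3
  have k1' := congrArg (fun s => (x - y.re) * s) k1
  linarith only [c0, c1, c2, c3, c4, k2', k3', k1', sq_nonneg (x - y.re), sq_nonneg (a - v.re), sq_nonneg (b - w.re)]

/-- Lower bound of the critical value. -/
theorem H_lower (r1 r2 : ℤ) (y v w : ℂ) (hc : Crit r1 r2 y v w) :
    8 * Fr (3 / 4) - 1667 / 100000 ≤ (Vf r1 r2 y v w).re := by
  have s1 := Conc_small hc.h1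
  have s2 := Conc_small hc.h2
  have n1 := Conc_ne hc.h1
  have n2 := Conc_ne hc.h2
  have t1 := Conc_sq hc.h1
  have t2 := Conc_sq hc.h2
  obtain ⟨a, ha⟩ : ∃ a, a = -(1 / (2 * (r1 : ℝ))) := ⟨_, rfl⟩
  obtain ⟨b, hb⟩ : ∃ b, b = -(1 / (2 * (r2 : ℝ))) := ⟨_, rfl⟩
  rw [← ha] at s1
  rw [← hb] at s2
  have ra : 2 * (r1 : ℝ) * a = -1 := by rw [ha]; field_simp
  have rb : 2 * (r2 : ℝ) * b = -1 := by rw [hb]; field_simp
  have sqa : a ^ 2 ≤ 1 / 400 := by
    have := abs_le.1 s1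
    nlinarith only [t1, ra]
  have sqb : b ^ 2 ≤ 1 / 400 := by
    have := abs_le.1 s2
    nlinarith only [t2, rb]
  have h := conc r1 r2 y v w hc (1 / 4) a b (by norm_num) (by linarith) (by linarith)
  obtain ⟨a1, a2⟩ := abs_le.1 s1
  obtain ⟨b1, b2⟩ := abs_le.1 s2
  have g0 := (ff_vert_right (3 / 4) y.im (by norm_num) (by norm_num)).1
  have g1 := (ff_vert_left (1 / 4 - a) (y.im - v.im) (by linarith) (by linarith)).2
  have g2 := (ff_vert_left (1 / 4 + a) (y.im + v.im) (by linarith) (by linarith)).2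
  have g3 := (ff_vert_left (1 / 4 - b) (y.im - w.im) (by linarith) (by linarith)).2
  have g4 := (ff_vert_left (1 / 4 + b) (y.im + w.im) (by linarith) (by linarith)).2
  have f1 := Fr_quarter a s1
  have f2 := Fr_quarter b s2
  have e0 : (((3 / 4 : ℝ)) : ℂ) + y.im * I = ((1 / 4 : ℝ) : ℂ) + y.im * I + 1 / 2 := by
    push_cast; ring
  have e1 : ((1 / 4 - a : ℝ) : ℂ) + (y.im - v.im : ℝ) * I =
      ((1 / 4 : ℝ) : ℂ) + y.im * I - (a + v.im * I) := by
    push_cast; ring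
  have e2 : ((1 / 4 + a : ℝ) : ℂ) + (y.im + v.im : ℝ) * I =
      ((1 / 4 : ℝ) : ℂ) + y.im * I + (a + v.im * I) := by
    push_cast; ring
  have e3 : ((1 / 4 - b : ℝ) : ℂ) + (y.im - w.im : ℝ) * I =
      ((1 / 4 : ℝ) : ℂ) + y.im * I - (b + w.im * I) := by
    push_cast; ring
  have e4 : ((1 / 4 + b : ℝ) : ℂ) + (y.im + w.im : ℝ) * I =
      ((1 / 4 : ℝ) : ℂ) + y.im * I + (b + w.im * I) := by
    push_cast; ring
  rw [e0] at g0
  rw [e1] at g1
  rw [e2] at g2
  rw [e3] at g3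
  rw [e4] at g4
  have r4 : ∀ z : ℂ, (4 * z).re = 4 * z.re := fun z => by
    simp only [mul_re, re_ofNat, im_ofNat, zero_mul, sub_zero]
  have hlow : 8 * Fr (3 / 4) - 53 / 50 * Real.pi * (a ^ 2 + b ^ 2) ≤
      (Vf r1 r2 (((1 / 4 : ℝ) : ℂ) + y.im * I) (a + v.im * I) (b + w.im * I)).re := by
    unfold Vf
    simp only [sub_re, add_re, r4] at *
    have p1 := Conc_phase r1 (a + v.im * I)
    have p2 := Conc_phase r2 (b + w.im * I)
    have q1 : ∀ s t : ℝ, ((s : ℂ) + t * I).re = s := fun s t => by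
      simp
    have q2 : ∀ s t : ℝ, ((s : ℂ) + t * I).im = t := fun s t => by
      simp
    rw [q1, q2] at p1 p2
    rw [ra] at p1
    rw [rb] at p2
    rw [p1, p2]
    linarith only [g0, g1, g2, g3, g4, f1, f2]
  have hpi := Real.pi_lt_d4
  have hpi0 := Real.pi_pos
  have hsm : 53 / 50 * Real.pi * (a ^ 2 + b ^ 2) ≤ 1667 / 100000 := by
    calc 53 / 50 * Real.pi * (a ^ 2 + b ^ 2) ≤ 53 / 50 * 3.1416 * (1 / 400 + 1 / 400) := by
          apply mul_le_mul
          · linarith only [hpi]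
          · linarith only [sqa, sqb]
          · positivity
          · norm_num
      _ ≤ 1667 / 100000 := by norm_num
  have hq : 0 ≤ 1 / 10 * ((1 / 4 - y.re) ^ 2 + (a - v.re) ^ 2 + (b - w.re) ^ 2) := by positivity
  linarith only [h, hlow, hsm, hq]

end Pool.Agent.H63.VC3
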