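import Pool.Agent.H63.VC3.Conc

/-! # Second order expansion of the potential function at the critical point -/

namespace Pool.Agent.H63.VC3

open Pool.Agent.H63.VC Complex Filter Topology

/-- The potential function on the flat contour through the critical point. -/
noncomputable def phi (r1 r2 : ℤ) (y v w : ℂ) (z : ℝ × ℝ × ℝ) : ℂ :=
  Vf r1 r2 (z.1 + y.im * I) (z.2.1 + v.im * I) (z.2.2 + w.im * I)

/-- Second order Taylor expansion with Peano remainder. -/
theorem Taylor2_peano {Φ G : ℝ → ℂ} {c : ℂ} (h : ∀ᶠ s in 𝓝 (0 : ℝ), HasDerivAt Φ (G s) s)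
    (h0 : G 0 = 0) (hG : HasDerivAt G c 0) :
    Tendsto (fun s : ℝ => (Φ s - Φ 0) / (s : ℂ) ^ 2) (𝓝[≠] 0) (𝓝 (c / 2)) := by
  rw [Metric.tendsto_nhdsWithin_nhds]
  intro ε hε
  have hG' := hG.isLittleO
  rw [Asymptotics.isLittleO_iff] at hG'
  have hev := hG' (show (0 : ℝ) < ε / 2 by positivity)
  have hboth := hev.and h
  rw [Metric.eventually_nhds_iff] at hboth
  obtain ⟨δ, hδ, hb⟩ := hboth
  refine ⟨δ, hδ, ?_⟩
  intro s hs0 hsd
  have hs0' : s ≠ 0 := hs0
  have hsabs : |s| < δ := by simpa [Real.dist_eq] using hsd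
  -- the remainder
  set ψ : ℝ → ℂ := fun t => Φ t - Φ 0 - c * (t : ℂ) ^ 2 / 2 with hψ
  have hder : ∀ t ∈ Metric.closedBall (0 : ℝ) |s|, HasDerivWithinAt ψ (G t - c * t)
      (Metric.closedBall (0 : ℝ) |s|) t := by
    intro t ht
    have ht' : dist t 0 < δ := lt_of_le_of_lt (by simpa [Real.dist_eq] using ht) hsabs
    have h1 := (hb ht').2
    have h2 : HasDerivAt (fun t : ℝ => (t : ℂ)) 1 t := Complex.ofRealCLM.hasDerivAt (x := t)
    have h3 : HasDerivAt (fun t : ℝ => c * (t : ℂ) ^ 2 / 2) (c * t) t := by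
      have h4 := ((h2.pow 2).const_mul c).div_const 2
      refine h4.congr_deriv ?_
      simp
      ring
    exact ((h1.sub_const (Φ 0)).sub h3).hasDerivWithinAt
  have hbound : ∀ t ∈ Metric.closedBall (0 : ℝ) |s|, ‖G t - c * t‖ ≤ ε / 2 * |s| := by
    intro t ht
    have ht1 : |t| ≤ |s| := by simpa [Real.dist_eq] using ht
    have ht' : dist t 0 < δ := lt_of_le_of_lt (by simpa [Real.dist_eq] using ht1) hsabs
    have h1 := (hb ht').1
    rw [h0] at h1
    simp only [sub_zero, Complex.real_smul] at h1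
    rw [mul_comm c]
    refine h1.trans ?_
    rw [Real.norm_eq_abs]
    gcongr
  have hmv := (convex_closedBall (0 : ℝ) |s|).norm_image_sub_le_of_norm_hasDerivWithin_le
    hder hbound (x := 0) (y := s) (by simp) (by simp)
  have hψ0 : ψ 0 = 0 := by simp [hψ]
  rw [hψ0, sub_zero, sub_zero, Real.norm_eq_abs] at hmv
  have hsc : (s : ℂ) ≠ 0 := by exact_mod_cast hs0'
  have key : (Φ s - Φ 0) / (s : ℂ) ^ 2 - c / 2 = ψ s / (s : ℂ) ^ 2 := by
    simp only [hψ]
    field_simp
  rw [dist_eq_norm, key, norm_div, norm_pow, Complex.norm_real, Real.norm_eq_abs]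
  have hspos : 0 < |s| := abs_pos.mpr hs0'
  rw [div_lt_iff₀ (by positivity)]
  calc ‖ψ s‖ ≤ ε / 2 * |s| * |s| := hmv
    _ < ε * |s| ^ 2 := by nlinarith only [mul_pos hε (pow_pos hspos 2)]

/-- The derivative of `hh`. -/
noncomputable def Taylor2_F (z : ℂ) : ℂ := Real.pi * Complex.cot (Real.pi * z)

/-- derivative of `f (z + s t)` at real `s`. -/
theorem Taylor2_comp {f : ℂ → ℂ} {f' z t : ℂ} {s : ℝ} (h : HasDerivAt f f' (z + s * t)) :
    HasDerivAt (fun s : ℝ => f (z + s * t)) (f' * t) s := by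
  have h1 : HasDerivAt (fun s : ℂ => z + s * t) t (s : ℂ) := by
    simpa using ((hasDerivAt_id (s : ℂ)).mul_const t).const_add z
  have h2 : HasDerivAt (fun s : ℂ => f (z + s * t)) (f' * t) (s : ℂ) :=
    HasDerivAt.comp (s : ℂ) h h1
  exact h2.comp_ofReal

/-- The expansion has the shape needed in `gauss3_ne`, with positive definite real part. -/
theorem phi_taylor (r1 r2 : ℤ) (y v w : ℂ) (hc : Crit r1 r2 y v w) :
    ∃ q00 q01 q02 q11 q22 : ℂ,
    (∀ x a b : ℝ, 1 / 10 * (x ^ 2 + a ^ 2 + b ^ 2) ≤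
      (q00 * x ^ 2 + 2 * q01 * x * a + 2 * q02 * x * b + q11 * a ^ 2 + q22 * b ^ 2).re) ∧
    ∀ ξ : ℝ × ℝ × ℝ, Tendsto (fun M : ℕ =>
      (M : ℂ) * (phi r1 r2 y v w ((y.re, v.re, w.re) + (1 / Real.sqrt M) • ξ) -
        phi r1 r2 y v w (y.re, v.re, w.re))) atTop
      (𝓝 (-(q00 * ξ.1 ^ 2 + 2 * q01 * ξ.1 * ξ.2.1 + 2 * q02 * ξ.1 * ξ.2.2 +
        q11 * ξ.2.1 ^ 2 + q22 * ξ.2.2 ^ 2))) := by
  obtain ⟨ly, -, lv, lw, -⟩ := crit_loc r1 r2 y v w hc
  rw [abs_le] at ly lv lw
  set F := Taylor2_F with hF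
  set q00 : ℂ := -(1 / 2) * (4 * F (y + 1 / 2) - F (y - v) - F (y + v) - F (y - w) - F (y + w))
    with hq00
  set q01 : ℂ := -(1 / 2) * (F (y - v) - F (y + v)) with hq01
  set q02 : ℂ := -(1 / 2) * (F (y - w) - F (y + w)) with hq02
  set q11 : ℂ := 1 / 2 * (F (y - v) + F (y + v)) - 2 * Real.pi * I * r1 with hq11
  set q22 : ℂ := 1 / 2 * (F (y - w) + F (y + w)) - 2 * Real.pi * I * r2 with hq22
  have hphi : ∀ (ξ : ℝ × ℝ × ℝ) (s : ℝ), phi r1 r2 y v w ((y.re, v.re, w.re) + s • ξ) =
      Vf r1 r2 (y + s * ξ.1) (v + s * ξ.2.1) (w + s * ξ.2.2) := by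
    intro ξ s
    have e1 : ((y.re + s * ξ.1 : ℝ) : ℂ) + y.im * I = y + s * ξ.1 := by
      apply Complex.ext <;> simp
    have e2 : ((v.re + s * ξ.2.1 : ℝ) : ℂ) + v.im * I = v + s * ξ.2.1 := by
      apply Complex.ext <;> simp
    have e3 : ((w.re + s * ξ.2.2 : ℝ) : ℂ) + w.im * I = w + s * ξ.2.2 := by
      apply Complex.ext <;> simp
    simp only [phi, Prod.fst_add, Prod.snd_add, Prod.smul_fst, Prod.smul_snd, smul_eq_mul]
    rw [e1, e2, e3]
  -- the limit along a direction
  have main : ∀ ξ : ℝ × ℝ × ℝ, Tendsto (fun s : ℝ =>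
      (phi r1 r2 y v w ((y.re, v.re, w.re) + s • ξ) - phi r1 r2 y v w (y.re, v.re, w.re)) /
        (s : ℂ) ^ 2) (𝓝[≠] 0)
      (𝓝 (-(q00 * ξ.1 ^ 2 + 2 * q01 * ξ.1 * ξ.2.1 + 2 * q02 * ξ.1 * ξ.2.2 +
        q11 * ξ.2.1 ^ 2 + q22 * ξ.2.2 ^ 2))) := by
    intro ξ
    obtain ⟨x, a, b⟩ := ξ
    set Φ : ℝ → ℂ := fun s => Vf r1 r2 (y + s * x) (v + s * a) (w + s * b) with hΦ
    set G : ℝ → ℂ := fun s => 4 * (hh (y + 1 / 2 + s * x) * x) -
      hh (y - v + s * (x - a)) * (x - a) - hh (y + v + s * (x + a)) * (x + a) -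
      hh (y - w + s * (x - b)) * (x - b) - hh (y + w + s * (x + b)) * (x + b) +
      2 * Real.pi * I * (2 * r1 * (v + s * a) + 1) * a +
      2 * Real.pi * I * (2 * r2 * (w + s * b) + 1) * b with hG
    have hlin : ∀ (z t : ℂ) (s : ℝ), HasDerivAt (fun s : ℝ => z + s * t) t s := by
      intro z t s
      have := Taylor2_comp (f := fun z => z) (f' := 1) (z := z) (t := t) (s := s)
        (hasDerivAt_id _)
      simpa using this
    have hsm : ∀ᶠ s in 𝓝 (0 : ℝ), |s| * (|x| + |a| + |b|) < 1 / 100 := by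
      have : Tendsto (fun s : ℝ => |s| * (|x| + |a| + |b|)) (𝓝 0) (𝓝 (|0| * (|x| + |a| + |b|))) := by
        apply Continuous.tendsto
        fun_prop
      rw [abs_zero, zero_mul] at this
      exact this.eventually (gt_mem_nhds (by norm_num))
    have hder : ∀ᶠ s in 𝓝 (0 : ℝ), HasDerivAt Φ (G s) s := by
      filter_upwards [hsm] with s hs
      have hx : |s * x| < 1 / 100 := by
        rw [abs_mul]
        refine lt_of_le_of_lt ?_ hs
        gcongr
        linarith only [abs_nonneg a, abs_nonneg b]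
      have ha : |s * a| < 1 / 100 := by
        rw [abs_mul]
        refine lt_of_le_of_lt ?_ hs
        gcongr
        linarith only [abs_nonneg x, abs_nonneg b]
      have hb : |s * b| < 1 / 100 := by
        rw [abs_mul]
        refine lt_of_le_of_lt ?_ hs
        gcongr
        linarith only [abs_nonneg x, abs_nonneg a]
      rw [abs_lt] at hx ha hb
      have d1 := Taylor2_comp (ff_hasDerivAt (y + 1 / 2 + s * x) (by
        simp [-one_div]; linarith only [ly, hx]) (by simp [-one_div]; linarith only [ly, hx]))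
      have d2 := Taylor2_comp (ff_hasDerivAt (y - v + s * ((x : ℂ) - a)) (by
        simp [-one_div]; linarith only [ly, lv, hx, ha]) (by simp [-one_div]; linarith only [ly, lv, hx, ha]))
      have d3 := Taylor2_comp (ff_hasDerivAt (y + v + s * ((x : ℂ) + a)) (by
        simp [-one_div]; linarith only [ly, lv, hx, ha]) (by simp [-one_div]; linarith only [ly, lv, hx, ha]))
      have d4 := Taylor2_comp (ff_hasDerivAt (y - w + s * ((x : ℂ) - b)) (by
        simp [-one_div]; linarith only [ly, lw, hx, hb]) (by simp [-one_div]; linarith only [ly, lw, hx, hb]))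
      have d5 := Taylor2_comp (ff_hasDerivAt (y + w + s * ((x : ℂ) + b)) (by
        simp [-one_div]; linarith only [ly, lw, hx, hb]) (by simp [-one_div]; linarith only [ly, lw, hx, hb]))
      have p1 := ((((hlin v a s).pow 2).const_mul (r1 : ℂ)).add (hlin v a s)).const_mul
        (2 * Real.pi * I)
      have p2 := ((((hlin w b s).pow 2).const_mul (r2 : ℂ)).add (hlin w b s)).const_mul
        (2 * Real.pi * I)
      have tot := ((((((d1.const_mul 4).sub d2).sub d3).sub d4).sub d5).add p1).add p2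
      refine (tot.congr_deriv ?_).congr_of_eventuallyEq (Eventually.of_forall ?_)
      · simp only [hG]
        push_cast
        ring
      · intro t
        simp only [hΦ, Vf, Pi.add_apply, Pi.sub_apply, Pi.pow_apply]
        have e1 : y + t * x + 1 / 2 = y + 1 / 2 + t * x := by ring
        have e2 : y + t * x - (v + t * a) = y - v + t * ((x : ℂ) - a) := by ring
        have e3 : y + t * x + (v + t * a) = y + v + t * ((x : ℂ) + a) := by ring
        have e4 : y + t * x - (w + t * b) = y - w + t * ((x : ℂ) - b) := by ring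
        have e5 : y + t * x + (w + t * b) = y + w + t * ((x : ℂ) + b) := by ring
        rw [e1, e2, e3, e4, e5]
    have hG0 : G 0 = 0 := by
      simp only [hG, ofReal_zero, zero_mul, add_zero]
      linear_combination x * hc.ey + a * hc.ev + b * hc.ew
    have hGd : HasDerivAt G (-2 * (q00 * x ^ 2 + 2 * q01 * x * a + 2 * q02 * x * b +
        q11 * a ^ 2 + q22 * b ^ 2)) 0 := by
      have k1 : HasDerivAt hh (F (y + 1 / 2)) (y + 1 / 2 + (0 : ℝ) * x) := by
        have := hh_hasDerivAt (y + 1 / 2) (by simp [-one_div]; linarith only [ly])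
          (by simp [-one_div]; linarith only [ly])
        simpa [hF, Taylor2_F] using this
      have k2 : HasDerivAt hh (F (y - v)) (y - v + (0 : ℝ) * ((x : ℂ) - a)) := by
        have := hh_hasDerivAt (y - v) (by simp; linarith only [ly, lv])
          (by simp; linarith only [ly, lv])
        simpa [hF, Taylor2_F] using this
      have k3 : HasDerivAt hh (F (y + v)) (y + v + (0 : ℝ) * ((x : ℂ) + a)) := by
        have := hh_hasDerivAt (y + v) (by simp; linarith only [ly, lv])
          (by simp; linarith only [ly, lv])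
        simpa [hF, Taylor2_F] using this
      have k4 : HasDerivAt hh (F (y - w)) (y - w + (0 : ℝ) * ((x : ℂ) - b)) := by
        have := hh_hasDerivAt (y - w) (by simp; linarith only [ly, lw])
          (by simp; linarith only [ly, lw])
        simpa [hF, Taylor2_F] using this
      have k5 : HasDerivAt hh (F (y + w)) (y + w + (0 : ℝ) * ((x : ℂ) + b)) := by
        have := hh_hasDerivAt (y + w) (by simp; linarith only [ly, lw])
          (by simp; linarith only [ly, lw])
        simpa [hF, Taylor2_F] using this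
      have d1 := ((Taylor2_comp k1).mul_const (x : ℂ)).const_mul 4
      have d2 := (Taylor2_comp k2).mul_const ((x : ℂ) - a)
      have d3 := (Taylor2_comp k3).mul_const ((x : ℂ) + a)
      have d4 := (Taylor2_comp k4).mul_const ((x : ℂ) - b)
      have d5 := (Taylor2_comp k5).mul_const ((x : ℂ) + b)
      have p1 := ((((hlin v a 0).const_mul (2 * r1 : ℂ)).add_const 1).const_mul
        (2 * Real.pi * I)).mul_const (a : ℂ)
      have p2 := ((((hlin w b 0).const_mul (2 * r2 : ℂ)).add_const 1).const_mul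
        (2 * Real.pi * I)).mul_const (b : ℂ)
      have tot := (((((d1.sub d2).sub d3).sub d4).sub d5).add p1).add p2
      refine (tot.congr_deriv ?_)
      simp only [hq00, hq01, hq02, hq11, hq22]
      ring
    have hpe := Taylor2_peano hder hG0 hGd
    have e : (-2 * (q00 * x ^ 2 + 2 * q01 * x * a + 2 * q02 * x * b +
        q11 * a ^ 2 + q22 * b ^ 2)) / 2 = -(q00 * x ^ 2 + 2 * q01 * x * a + 2 * q02 * x * b +
        q11 * a ^ 2 + q22 * b ^ 2) := by ring
    rw [e] at hpe
    refine hpe.congr ?_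
    intro s
    rw [hphi]
    have h0 := hphi (x, a, b) 0
    rw [zero_smul, add_zero] at h0
    rw [h0]
  refine ⟨q00, q01, q02, q11, q22, ?_, ?_⟩
  · intro x a b
    have hm := main (x, a, b)
    have hre := (Complex.continuous_re.tendsto _).comp hm
    have hle : ∀ᶠ s in 𝓝[≠] (0 : ℝ), (Complex.re ∘ fun s : ℝ =>
        (phi r1 r2 y v w ((y.re, v.re, w.re) + s • (x, a, b)) -
          phi r1 r2 y v w (y.re, v.re, w.re)) / (s : ℂ) ^ 2) s ≤
        -(1 / 10 * (x ^ 2 + a ^ 2 + b ^ 2)) := by
      have hsm : ∀ᶠ s in 𝓝 (0 : ℝ), |s| * (|x| + |a| + |b|) < 1 / 100 := by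
        have : Tendsto (fun s : ℝ => |s| * (|x| + |a| + |b|)) (𝓝 0)
            (𝓝 (|0| * (|x| + |a| + |b|))) := by
          apply Continuous.tendsto
          fun_prop
        rw [abs_zero, zero_mul] at this
        exact this.eventually (gt_mem_nhds (by norm_num))
      have hsm' := nhdsWithin_le_nhds (s := {0}ᶜ) hsm
      filter_upwards [hsm', self_mem_nhdsWithin] with s hs hs0
      have hs0' : s ≠ 0 := hs0
      have hx : |s * x| < 1 / 100 := by
        rw [abs_mul]
        refine lt_of_le_of_lt ?_ hs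
        gcongr
        linarith only [abs_nonneg a, abs_nonneg b]
      have ha : |s * a| < 1 / 100 := by
        rw [abs_mul]
        refine lt_of_le_of_lt ?_ hs
        gcongr
        linarith only [abs_nonneg x, abs_nonneg b]
      have hb : |s * b| < 1 / 100 := by
        rw [abs_mul]
        refine lt_of_le_of_lt ?_ hs
        gcongr
        linarith only [abs_nonneg x, abs_nonneg a]
      rw [abs_lt] at hx ha hb
      have hcon := conc r1 r2 y v w hc (y.re + s * x) (v.re + s * a) (w.re + s * b)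
        (by rw [abs_le]; constructor <;> linarith only [ly, hx]) (by rw [abs_le]; constructor <;> linarith only [lv, ha])
        (by rw [abs_le]; constructor <;> linarith only [lw, hb])
      have hp0 : phi r1 r2 y v w (y.re, v.re, w.re) = Vf r1 r2 y v w := by
        simp only [phi, Complex.re_add_im]
      have hps : phi r1 r2 y v w ((y.re, v.re, w.re) + s • (x, a, b)) =
          Vf r1 r2 (((y.re + s * x : ℝ) : ℂ) + y.im * I) (((v.re + s * a : ℝ) : ℂ) + v.im * I)
            (((w.re + s * b : ℝ) : ℂ) + w.im * I) := by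
        simp only [phi, Prod.fst_add, Prod.snd_add, Prod.smul_fst, Prod.smul_snd, smul_eq_mul]
      simp only [Function.comp]
      rw [hp0, hps]
      have hsq : ((s : ℂ) ^ 2) = ((s ^ 2 : ℝ) : ℂ) := by push_cast; rfl
      rw [hsq, Complex.div_ofReal_re, Complex.sub_re]
      have hs2 : 0 < s ^ 2 := by positivity
      rw [div_le_iff₀ hs2]
      nlinarith only [hcon]
    have hlim := le_of_tendsto hre hle
    simp only [Complex.neg_re] at hlim
    linarith only [hlim]
  · intro ξ
    have hm := main ξ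
    have hs : Tendsto (fun M : ℕ => 1 / Real.sqrt M) atTop (𝓝[≠] 0) := by
      rw [tendsto_nhdsWithin_iff]
      constructor
      · have h1 : Tendsto (fun M : ℕ => Real.sqrt (M : ℝ)) atTop atTop :=
          Real.tendsto_sqrt_atTop.comp tendsto_natCast_atTop_atTop
        have h2 := h1.inv_tendsto_atTop
        refine h2.congr ?_
        intro M
        simp [one_div]
      · filter_upwards [eventually_gt_atTop 0] with M hM
        have : 0 < Real.sqrt (M : ℝ) := Real.sqrt_pos.mpr (by exact_mod_cast hM)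
        simp only [Set.mem_compl_iff, Set.mem_singleton_iff]
        positivity
    refine (hm.comp hs).congr' ?_
    filter_upwards [eventually_gt_atTop 0] with M hM
    simp only [Function.comp]
    have hM' : (0 : ℝ) < M := by exact_mod_cast hM
    have e : (((1 / Real.sqrt M : ℝ) : ℂ)) ^ 2 = 1 / (M : ℂ) := by
      rw [← Complex.ofReal_pow, div_pow, one_pow, Real.sq_sqrt hM'.le]
      push_cast
      rfl
    rw [e]
    have hMc : (M : ℂ) ≠ 0 := by exact_mod_cast hM.ne'
    field_simp

end Pool.Agent.H63.VC3
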