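import Pool.Agent.H63.VC3.Gauss3
import Pool.Agent.H63.VC3.KAn
import Pool.Agent.H63.VC3.KB
import Pool.Agent.H63.VC3.Laplace3
import Pool.Agent.H63.VC3.Om
import Pool.Agent.H63.VC3.StepDefs
import Pool.Agent.H63.VC3.Taylor2

/-! # Asymptotics of the main integral -/

namespace Pool.Agent.H63.VC3

open Pool.Agent.H63.VC Complex Filter Topology

/-- Truncation to an interval. -/
noncomputable def Main_cl (u v x : ℝ) : ℝ := max u (min v x)

lemma Main_cl_continuous (u v : ℝ) : Continuous (Main_cl u v) := by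
  unfold Main_cl
  fun_prop

lemma Main_cl_mem {u v : ℝ} (h : u ≤ v) (x : ℝ) : u ≤ Main_cl u v x ∧ Main_cl u v x ≤ v :=
  ⟨le_max_left _ _, max_le h (min_le_left _ _)⟩

lemma Main_cl_eq {u v x : ℝ} (h1 : u ≤ x) (h2 : x ≤ v) : Main_cl u v x = x := by
  unfold Main_cl
  rw [min_eq_right h2, max_eq_right h1]

lemma Main_contKK {X : Type*} [TopologicalSpace X] (r : ℤ) (n M : ℕ) (hM : 0 < M) {φ ψ : X → ℂ}
    (hφ : Continuous φ) (hψ : Continuous ψ) (h : ∀ p, 0 < (φ p - ψ p).re ∧ (φ p - ψ p).re < 1 ∧
      0 < (φ p + ψ p).re ∧ (φ p + ψ p).re < 1) :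
    Continuous fun p => KK r n M (φ p) (ψ p) := by
  rw [continuous_iff_continuousAt]
  intro p
  obtain ⟨h1, h2, h3, h4⟩ := h p
  have h5 := KK_continuousAt r n M hM (φ p) (ψ p) h1 h2 h3 h4
  have h6 : ContinuousAt (fun p => (φ p, ψ p)) p := (hφ.prodMk hψ).continuousAt
  exact ContinuousAt.comp (f := fun p => (φ p, ψ p)) (g := fun z : ℂ × ℂ => KK r n M z.1 z.2) h5 h6

lemma Main_ww_ne (n M : ℕ) (hM : 0 < M) (v : ℂ) (hv : 0 < v.im) : ww n M v ≠ 1 := by
  intro h
  have h1 := norm_ww n M v
  rw [h, norm_one] at h1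
  have h2 : Real.exp (-(2 * Real.pi * M * v.im)) < 1 := by
    rw [Real.exp_lt_one_iff]
    have : (0 : ℝ) < M := by exact_mod_cast hM
    have := Real.pi_pos
    have : 0 < 2 * Real.pi * M * v.im := by positivity
    linarith only [this]
  linarith only [h2, h1]

lemma Main_contOm {X : Type*} [TopologicalSpace X] (n M : ℕ) (hM : 0 < M) {ψ : X → ℂ}
    (hψ : Continuous ψ) (h : ∀ p, 0 < (ψ p).im) : Continuous fun p => om n M (ψ p) := by
  rw [continuous_iff_continuousAt]
  intro p
  exact ContinuousAt.comp (om_continuousAt n M (ψ p) (Main_ww_ne n M hM _ (h p)))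
    hψ.continuousAt

lemma Main_contCc {X : Type*} [TopologicalSpace X] (n g M : ℕ) (hg : 1 ≤ g) (hgn : g ≤ n - 1)
    (hM : 1000 * (n + 1) ≤ M) {φ : X → ℂ} (hφ : Continuous φ)
    (h : ∀ p, 1 / 10 ≤ (φ p).re ∧ (φ p).re ≤ 4 / 10) : Continuous fun p => Cc n g M (φ p) := by
  rw [continuous_iff_continuousAt]
  intro p
  exact ContinuousAt.comp (g := Cc n g M) (f := φ) (Cc_differentiableAt n g M hg hgn hM (φ p)
    (h p).1 (h p).2).continuousAt hφ.continuousAt

/-- The domain of integration. -/
def Main_box (y1 y2 ρ : ℝ) : Set (ℝ × ℝ × ℝ) :=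
  Set.Ioc y1 y2 ×ˢ (Set.Ioc (-ρ) ρ ×ˢ Set.Ioc (-ρ) ρ)

lemma Main_box_meas (y1 y2 ρ : ℝ) : MeasurableSet (Main_box y1 y2 ρ) :=
  measurableSet_Ioc.prod (measurableSet_Ioc.prod measurableSet_Ioc)

lemma Main_fubini (y1 y2 ρ : ℝ) (hy : y1 ≤ y2) (hρ : -ρ ≤ ρ) (F : ℝ × ℝ × ℝ → ℂ)
    (hF : Continuous F) :
    ∫ z in Main_box y1 y2 ρ, F z =
      ∫ a in (-ρ)..ρ, ∫ b in (-ρ)..ρ, ∫ x in y1..y2, F (x, a, b) := by
  have hint : MeasureTheory.IntegrableOn F (Main_box y1 y2 ρ) := by
    refine (hF.continuousOn.integrableOn_compact (K := Set.Icc y1 y2 ×ˢ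
      (Set.Icc (-ρ) ρ ×ˢ Set.Icc (-ρ) ρ)) ?_).mono_set ?_
    · exact isCompact_Icc.prod (isCompact_Icc.prod isCompact_Icc)
    · exact Set.prod_mono Set.Ioc_subset_Icc_self
        (Set.prod_mono Set.Ioc_subset_Icc_self Set.Ioc_subset_Icc_self)
  have hint2 : MeasureTheory.Integrable F ((MeasureTheory.volume.restrict (Set.Ioc y1 y2)).prod
      ((MeasureTheory.volume.restrict (Set.Ioc (-ρ) ρ)).prod
        (MeasureTheory.volume.restrict (Set.Ioc (-ρ) ρ)))) := by
    rw [MeasureTheory.Measure.prod_restrict, MeasureTheory.Measure.prod_restrict]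
    exact hint
  have h1 : ∫ z in Main_box y1 y2 ρ, F z = ∫ z, F z ∂((MeasureTheory.volume.restrict
      (Set.Ioc y1 y2)).prod ((MeasureTheory.volume.restrict (Set.Ioc (-ρ) ρ)).prod
        (MeasureTheory.volume.restrict (Set.Ioc (-ρ) ρ)))) := by
    rw [MeasureTheory.Measure.prod_restrict, MeasureTheory.Measure.prod_restrict]
    rfl
  rw [h1, MeasureTheory.integral_prod_symm F hint2]
  rw [MeasureTheory.integral_prod _ hint2.integral_prod_right]
  rw [intervalIntegral.integral_of_le hρ]
  refine MeasureTheory.integral_congr_ae (Eventually.of_forall fun a => ?_)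
  simp only
  rw [intervalIntegral.integral_of_le hρ]
  refine MeasureTheory.integral_congr_ae (Eventually.of_forall fun b => ?_)
  simp only
  rw [intervalIntegral.integral_of_le hy]

/-- The integrand. -/
noncomputable def Main_G (r1 r2 : ℤ) (n g M : ℕ) (Y0 Y1 Y2 : ℝ) (z : ℝ × ℝ × ℝ) : ℂ :=
  Cc n g M (z.1 + Y0 * I) * (KK r1 n M (z.1 + Y0 * I) (z.2.1 + Y1 * I) *
    KK r2 n M (z.1 + Y0 * I) (z.2.2 + Y2 * I)) *
    (om n M (z.2.1 + Y1 * I) * om n M (z.2.2 + Y2 * I))

/-- The truncated integrand is continuous. -/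
lemma Main_G_cont (r1 r2 : ℤ) (n g M : ℕ) (hM : 1000 * (n + 1) ≤ M) (hg : 1 ≤ g)
    (hgn : g ≤ n - 1) (Y0 Y1 Y2 y1 y2 ρ : ℝ) (hY1 : 0 < Y1) (hY2 : 0 < Y2) (hy : y1 ≤ y2)
    (a1 : 1 / 4 - 55 / 1000 ≤ y1) (a4 : y2 ≤ 1 / 4 + 55 / 1000) (hρ0 : 0 ≤ ρ)
    (hρ : ρ ≤ 150 / 1000) :
    Continuous fun z : ℝ × ℝ × ℝ => Main_G r1 r2 n g M Y0 Y1 Y2
      (Main_cl y1 y2 z.1, Main_cl (-ρ) ρ z.2.1, Main_cl (-ρ) ρ z.2.2) := by
  have hMpos : 0 < M := by omega
  obtain ⟨ca, hca⟩ : ∃ ca : ℝ → ℝ, ca = Main_cl (-ρ) ρ := ⟨_, rfl⟩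
  obtain ⟨cx, hcx⟩ : ∃ cx : ℝ → ℝ, cx = Main_cl y1 y2 := ⟨_, rfl⟩
  have hcac : Continuous ca := hca ▸ Main_cl_continuous _ _
  have hcxc : Continuous cx := hcx ▸ Main_cl_continuous _ _
  have hcam : ∀ a, -ρ ≤ ca a ∧ ca a ≤ ρ := fun a => hca ▸ Main_cl_mem (by linarith only [hρ0]) a
  have hcxm : ∀ x, y1 ≤ cx x ∧ cx x ≤ y2 := fun x => hcx ▸ Main_cl_mem hy x
  have hre : ∀ (s t : ℝ), ((s : ℂ) + t * I).re = s := fun s t => by simp
  have him : ∀ (s t : ℝ), ((s : ℂ) + t * I).im = t := fun s t => by simp
  rw [← hca, ← hcx]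
  unfold Main_G
  refine ((Main_contCc n g M hg hgn hM (by fun_prop) fun q => ?_).mul
    ((Main_contKK r1 n M hMpos (by fun_prop) (by fun_prop) fun q => ?_).mul
    (Main_contKK r2 n M hMpos (by fun_prop) (by fun_prop) fun q => ?_))).mul
    ((Main_contOm n M hMpos (by fun_prop) fun q => ?_).mul
    (Main_contOm n M hMpos (by fun_prop) fun q => ?_))
  · have h3 := hcxm q.1
    rw [hre]
    constructor <;> linarith only [a1, h3, a4]
  · have h2 := hcam q.2.1
    have h3 := hcxm q.1
    simp only [sub_re, add_re, ofReal_re, mul_re, I_re, I_im, ofReal_im, mul_zero, mul_one,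
      sub_self, add_zero]
    refine ⟨by linarith only [h3.1, h2.2, hρ, a1], by linarith only [h3.2, h2.1, hρ, a4], by linarith only [h3.1,
                                                                                               h2.1,
                                                                                               hρ,
                                                                                               a1], by linarith only [h3.2,
                                                                                                         h2.2,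
                                                                                                         hρ,
                                                                                                         a4]⟩
  · have h2 := hcam q.2.2
    have h3 := hcxm q.1
    simp only [sub_re, add_re, ofReal_re, mul_re, I_re, I_im, ofReal_im, mul_zero, mul_one,
      sub_self, add_zero]
    refine ⟨by linarith only [h3.1, h2.2, hρ, a1], by linarith only [h3.2, h2.1, hρ, a4], by linarith only [h3.1,
                                                                                               h2.1,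
                                                                                               hρ,
                                                                                               a1], by linarith only [h3.2,
                                                                                                         h2.2,
                                                                                                         hρ,
                                                                                                         a4]⟩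
  · rw [him]
    exact hY1
  · rw [him]
    exact hY2

lemma Main_G_eq (r1 r2 : ℤ) (n g M : ℕ) (Y0 Y1 Y2 y1 y2 ρ : ℝ) (z : ℝ × ℝ × ℝ)
    (hz : z ∈ Set.Icc y1 y2 ×ˢ (Set.Icc (-ρ) ρ ×ˢ Set.Icc (-ρ) ρ)) :
    Main_G r1 r2 n g M Y0 Y1 Y2
      (Main_cl y1 y2 z.1, Main_cl (-ρ) ρ z.2.1, Main_cl (-ρ) ρ z.2.2) =
    Main_G r1 r2 n g M Y0 Y1 Y2 z := by
  obtain ⟨⟨h1, h2⟩, ⟨h3, h4⟩, ⟨h5, h6⟩⟩ := hz
  rw [Main_cl_eq h1 h2, Main_cl_eq h3 h4, Main_cl_eq h5 h6]

/-- The bound for the integrand. -/
lemma Main_bound (r1 r2 : ℤ) (n g M : ℕ) (C0 C1 C2 : ℝ) (hC0 : 0 < C0) (hC1 : 0 < C1)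
    (hC2 : 0 < C2) (hM : 0 < M) (z α β : ℂ)
    (h0 : ‖Cc n g M z‖ ≤ C0 * (M : ℝ) ^ 2 * Real.exp (M * (4 * ff (z + 1 / 2)).re))
    (h1 : ‖KK r1 n M z α‖ ≤ C1 / M *
      Real.exp (M * (2 * Real.pi * I * r1 * α ^ 2 - ff (z - α) - ff (z + α)).re))
    (h2 : ‖KK r2 n M z β‖ ≤ C2 / M *
      Real.exp (M * (2 * Real.pi * I * r2 * β ^ 2 - ff (z - β) - ff (z + β)).re))
    (h3 : ‖om n M α‖ ≤ 4 * Real.exp (-(2 * Real.pi * M * α.im)))
    (h4 : ‖om n M β‖ ≤ 4 * Real.exp (-(2 * Real.pi * M * β.im))) :
    ‖Cc n g M z * (KK r1 n M z α * KK r2 n M z β) * (om n M α * om n M β)‖ ≤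
      16 * (C0 * C1 * C2) * Real.exp (M * (Vf r1 r2 z α β).re) := by
  have hM0 : (0 : ℝ) < M := by exact_mod_cast hM
  rw [norm_mul, norm_mul, norm_mul, norm_mul]
  have e : (Vf r1 r2 z α β).re = (4 * ff (z + 1 / 2)).re +
      (2 * Real.pi * I * r1 * α ^ 2 - ff (z - α) - ff (z + α)).re +
      (2 * Real.pi * I * r2 * β ^ 2 - ff (z - β) - ff (z + β)).re - 2 * Real.pi * α.im -
      2 * Real.pi * β.im := by
    have e1 : 4 * ff (z + 1 / 2) + (2 * Real.pi * I * r1 * α ^ 2 - ff (z - α) - ff (z + α)) +
        (2 * Real.pi * I * r2 * β ^ 2 - ff (z - β) - ff (z + β)) =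
        Vf r1 r2 z α β - 2 * Real.pi * I * α - 2 * Real.pi * I * β := by
      unfold Vf
      ring
    rw [← add_re, ← add_re, e1, sub_re, sub_re]
    have e2 : ∀ x : ℂ, (2 * Real.pi * I * x).re = -(2 * Real.pi * x.im) := by
      intro x
      have : (2 * Real.pi * I * x : ℂ) = ((2 * Real.pi : ℝ) : ℂ) * (I * x) := by
        push_cast
        ring
      rw [this, re_ofReal_mul, I_mul_re]
      ring
    rw [e2, e2]
    ring
  have e3 : Real.exp (M * (Vf r1 r2 z α β).re) = Real.exp (M * (4 * ff (z + 1 / 2)).re) *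
      Real.exp (M * (2 * Real.pi * I * r1 * α ^ 2 - ff (z - α) - ff (z + α)).re) *
      Real.exp (M * (2 * Real.pi * I * r2 * β ^ 2 - ff (z - β) - ff (z + β)).re) *
      Real.exp (-(2 * Real.pi * M * α.im)) * Real.exp (-(2 * Real.pi * M * β.im)) := by
    rw [← Real.exp_add, ← Real.exp_add, ← Real.exp_add, ← Real.exp_add, e]
    congr 1
    ring
  rw [e3]
  calc ‖Cc n g M z‖ * (‖KK r1 n M z α‖ * ‖KK r2 n M z β‖) * (‖om n M α‖ * ‖om n M β‖) ≤
      (C0 * (M : ℝ) ^ 2 * Real.exp (M * (4 * ff (z + 1 / 2)).re)) *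
      ((C1 / M * Real.exp (M * (2 * Real.pi * I * r1 * α ^ 2 - ff (z - α) - ff (z + α)).re)) *
      (C2 / M * Real.exp (M * (2 * Real.pi * I * r2 * β ^ 2 - ff (z - β) - ff (z + β)).re))) *
      ((4 * Real.exp (-(2 * Real.pi * M * α.im))) *
        (4 * Real.exp (-(2 * Real.pi * M * β.im)))) := by
        gcongr
    _ = _ := by
        field_simp
        ring

lemma Main_sin_ne (v : ℂ) (hv : 0 < v.im) : Complex.sin (2 * Real.pi * v) ≠ 0 := by
  rw [Ne, Complex.sin_eq_zero_iff]
  rintro ⟨k, hk⟩
  have h1 := congrArg Complex.im hk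
  have e1 : (2 * Real.pi * v : ℂ) = ((2 * Real.pi : ℝ) : ℂ) * v := by
    push_cast
    ring
  have e2 : ((k : ℂ) * Real.pi) = ((k * Real.pi : ℝ) : ℂ) := by
    push_cast
    ring
  rw [e1, e2, im_ofReal_mul, ofReal_im] at h1
  have := Real.pi_pos
  have : 0 < 2 * Real.pi * v.im := by positivity
  linarith only [this, h1]

lemma Main_cos_ne (v : ℂ) (hv : 0 < v.im) : Complex.cos (Real.pi * v) ≠ 0 := by
  rw [Ne, Complex.cos_eq_zero_iff]
  rintro ⟨k, hk⟩
  have h1 := congrArg Complex.im hk
  have e2 : ((2 * (k : ℂ) + 1) * Real.pi / 2) = (((2 * k + 1) * Real.pi / 2 : ℝ) : ℂ) := by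
    push_cast
    ring
  rw [e2, im_ofReal_mul, ofReal_im] at h1
  have := Real.pi_pos
  have : 0 < Real.pi * v.im := by positivity
  linarith only [this, h1]

theorem main_lim (r1 r2 : ℤ) (y v w : ℂ) (hc : Crit r1 r2 y v w) (n g : ℕ) (hn : 2 ≤ n)
    (hg : 1 ≤ g) (hgn : g ≤ n - 1) (k1 k2 l1 l2 : ℕ → ℕ)
    (hw : ∀ᶠ M in atTop, Win n M (k1 M) (k2 M) (l1 M) (l2 M)) :
    ∃ K : ℂ, K ≠ 0 ∧ Tendsto (fun M : ℕ => (((M : ℝ) ^ (3 / 2 : ℝ) : ℝ) : ℂ) *
      exp (-M * Vf r1 r2 y v w) * MainInt r1 r2 n g M y.im v.im w.im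
      ((k1 M + bt n) / M - 1 / 2) ((k2 M + 1 + bt n) / M - 1 / 2) (rho n M (l2 M)))
      atTop (𝓝 K) := by
  obtain ⟨C1, hC1, hK1⟩ := KK_bound r1 n
  obtain ⟨C2, hC2, hK2⟩ := KK_bound r2 n
  obtain ⟨C0, hC0, hCc⟩ := Cc_bound n g hg hgn
  obtain ⟨q00, q01, q02, q11, q22, hq, hT⟩ := phi_taylor r1 r2 y v w hc
  obtain ⟨ly, lyi, lvr, lwr, lv, lw, lv', lw'⟩ := crit_loc r1 r2 y v w hc
  have hY1p : 0 < v.im := hc.imv
  have hY2p : 0 < w.im := hc.imw
  have hπ : 0 < Real.pi := Real.pi_pos
  set y1 : ℕ → ℝ := fun M => (k1 M + bt n) / M - 1 / 2 with hy1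
  set y2 : ℕ → ℝ := fun M => (k2 M + 1 + bt n) / M - 1 / 2 with hy2
  set ρ : ℕ → ℝ := fun M => rho n M (l2 M) with hρ
  set p : ℝ × ℝ × ℝ := (y.re, v.re, w.re) with hp
  have hphip : phi r1 r2 y v w p = Vf r1 r2 y v w := by
    simp only [phi, hp, re_add_im]
  let A : ℕ → ℝ × ℝ × ℝ → ℂ := fun M => (Main_box (y1 M) (y2 M) (ρ M)).indicator fun z =>
    Main_G r1 r2 n g M y.im v.im w.im z * exp (-(M * phi r1 r2 y v w z))
  set a : ℂ := exp (-2 * hh (y + 1 / 2)) *
    ((2 * sin (2 * Real.pi * v) * (2 * cos (Real.pi * v)) ^ (n - 2)) *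
    (2 * sin (2 * Real.pi * w) * (2 * cos (Real.pi * w)) ^ (n - 2))) * 1 with ha
  have ha0 : a ≠ 0 := by
    rw [ha]
    have s1 := Main_sin_ne v hY1p
    have s2 := Main_sin_ne w hY2p
    have s3 := Main_cos_ne v hY1p
    have s4 := Main_cos_ne w hY2p
    have s5 := exp_ne_zero (-2 * hh (y + 1 / 2))
    have s6 : (2 : ℂ) ≠ 0 := two_ne_zero
    exact mul_ne_zero (mul_ne_zero s5 (mul_ne_zero (mul_ne_zero (mul_ne_zero s6 s1)
      (pow_ne_zero _ (mul_ne_zero s6 s3))) (mul_ne_zero (mul_ne_zero s6 s2)
      (pow_ne_zero _ (mul_ne_zero s6 s4))))) one_ne_zero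
  -- facts for large `M`
  have hbig : ∀ᶠ M : ℕ in atTop, 100 ≤ M ∧ 1 ≤ 2 * Real.pi * M * v.im ∧
      1 ≤ 2 * Real.pi * M * w.im := by
    filter_upwards [eventually_ge_atTop (⌈1 / (2 * Real.pi * v.im)⌉₊ +
      ⌈1 / (2 * Real.pi * w.im)⌉₊ + 100)] with M hM
    refine ⟨by omega, ?_, ?_⟩
    · have h1 : (⌈1 / (2 * Real.pi * v.im)⌉₊ : ℝ) ≤ M := by exact_mod_cast (by omega)
      have h2 := (Nat.le_ceil (1 / (2 * Real.pi * v.im))).trans h1
      rw [div_le_iff₀ (by positivity)] at h2
      linarith only [h2]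
    · have h1 : (⌈1 / (2 * Real.pi * w.im)⌉₊ : ℝ) ≤ M := by exact_mod_cast (by omega)
      have h2 := (Nat.le_ceil (1 / (2 * Real.pi * w.im))).trans h1
      rw [div_le_iff₀ (by positivity)] at h2
      linarith only [h2]
  have hfac : ∀ᶠ M : ℕ in atTop, 100 ≤ M ∧ 1 ≤ 2 * Real.pi * M * v.im ∧
      1 ≤ 2 * Real.pi * M * w.im ∧ 1000 * (n + 1) ≤ M ∧ 1 / 4 - 55 / 1000 ≤ y1 M ∧
      y1 M ≤ 1 / 4 - 54 / 1000 ∧ 1 / 4 + 54 / 1000 ≤ y2 M ∧ y2 M ≤ 1 / 4 + 55 / 1000 ∧
      149 / 1000 ≤ ρ M ∧ ρ M ≤ 150 / 1000 := by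
    filter_upwards [hbig, hw] with M h1 h2
    exact ⟨h1.1, h1.2.1, h1.2.2, h2.big, h2.a1, h2.a2, h2.a3, h2.a4, h2.b1, h2.b2⟩
  have hAexp : ∀ M z, A M z * exp (M * (phi r1 r2 y v w z - phi r1 r2 y v w p)) =
      (Main_box (y1 M) (y2 M) (ρ M)).indicator (fun z => exp (-M * Vf r1 r2 y v w) *
        Main_G r1 r2 n g M y.im v.im w.im z) z := by
    intro M z
    simp only [A]
    by_cases hz : z ∈ Main_box (y1 M) (y2 M) (ρ M)
    · rw [Set.indicator_of_mem hz, Set.indicator_of_mem hz, mul_assoc, ← exp_add, hphip, mul_comm]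
      congr 2
      ring
    · rw [Set.indicator_of_notMem hz, Set.indicator_of_notMem hz, zero_mul]
  have hAind : ∀ M, 1000 * (n + 1) ≤ M → 1 / 4 - 55 / 1000 ≤ y1 M → y1 M ≤ 1 / 4 - 54 / 1000 →
      1 / 4 + 54 / 1000 ≤ y2 M → y2 M ≤ 1 / 4 + 55 / 1000 → 149 / 1000 ≤ ρ M →
      ρ M ≤ 150 / 1000 → (fun z => A M z *
        exp (M * (phi r1 r2 y v w z - phi r1 r2 y v w p))) =
      (Main_box (y1 M) (y2 M) (ρ M)).indicator (fun z => exp (-M * Vf r1 r2 y v w) *
        Main_G r1 r2 n g M y.im v.im w.im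
          (Main_cl (y1 M) (y2 M) z.1, Main_cl (-ρ M) (ρ M) z.2.1, Main_cl (-ρ M) (ρ M) z.2.2)) := by
    intro M b1 b2 b3 b4 b5 b6 b7
    funext z
    rw [hAexp]
    by_cases hz : z ∈ Main_box (y1 M) (y2 M) (ρ M)
    · rw [Set.indicator_of_mem hz, Set.indicator_of_mem hz, Main_G_eq]
      exact Set.prod_mono Set.Ioc_subset_Icc_self
        (Set.prod_mono Set.Ioc_subset_Icc_self Set.Ioc_subset_Icc_self) hz
    · rw [Set.indicator_of_notMem hz, Set.indicator_of_notMem hz]
  have hlap := laplace3 (phi r1 r2 y v w) p A (16 * (C0 * C1 * C2)) (1 / 10) (by norm_num)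
    (fun ξ => q00 * ξ.1 ^ 2 + 2 * q01 * ξ.1 * ξ.2.1 + 2 * q02 * ξ.1 * ξ.2.2 +
        q11 * ξ.2.1 ^ 2 + q22 * ξ.2.2 ^ 2) a ?_ ?_ ?_ ?_ hT
  · refine ⟨a * ∫ ξ : ℝ × ℝ × ℝ, exp (-(q00 * ξ.1 ^ 2 + 2 * q01 * ξ.1 * ξ.2.1 +
      2 * q02 * ξ.1 * ξ.2.2 + q11 * ξ.2.1 ^ 2 + q22 * ξ.2.2 ^ 2)),
      mul_ne_zero ha0 (gauss3_ne q00 q01 q02 q11 q22 (1 / 10) (by norm_num) hq), ?_⟩
    refine hlap.congr' ?_
    filter_upwards [hfac] with M hM
    obtain ⟨-, -, -, b1, b2, b3, b4, b5, b6, b7⟩ := hM
    rw [mul_assoc]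
    congr 1
    rw [hAind M b1 b2 b3 b4 b5 b6 b7, MeasureTheory.integral_indicator (Main_box_meas _ _ _),
      MeasureTheory.integral_const_mul]
    congr 1
    rw [Main_fubini (y1 M) (y2 M) (ρ M) (by linarith only [b4, b3]) (by linarith only [b6, hY1p,
                                                                          lv']) _ (Main_G_cont r1 r2 n g M b1 hg
      hgn y.im v.im w.im (y1 M) (y2 M) (ρ M) hY1p hY2p (by linarith only [b4, b3, hY1p, lv']) b2 b5 (by linarith only [b6,
                                                                                                          hY1p,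
                                                                                                          lv']) b7)]
    unfold MainInt
    apply intervalIntegral.integral_congr
    intro s hs
    rw [Set.uIcc_of_le (by linarith only [b6, hY1p, lv'])] at hs
    apply intervalIntegral.integral_congr
    intro t ht
    rw [Set.uIcc_of_le (by linarith only [b6, hY1p, lv'])] at ht
    apply intervalIntegral.integral_congr
    intro x hx
    rw [Set.uIcc_of_le (by linarith only [b4, b3, hY1p, lv'])] at hx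
    exact Main_G_eq r1 r2 n g M y.im v.im w.im (y1 M) (y2 M) (ρ M) (x, s, t) ⟨hx, hs, ht⟩
  · filter_upwards [hfac] with M hM
    obtain ⟨-, -, -, b1, b2, b3, b4, b5, b6, b7⟩ := hM
    rw [hAind M b1 b2 b3 b4 b5 b6 b7]
    exact (continuous_const.mul (Main_G_cont r1 r2 n g M b1 hg hgn y.im v.im w.im (y1 M) (y2 M)
      (ρ M) hY1p hY2p (by linarith only [b4, b3, hY1p, lv']) b2 b5 (by linarith only [b6, hY1p, lv']) b7)).aestronglyMeasurable.indicator
        (Main_box_meas _ _ _)
  · filter_upwards [hfac] with M hM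
    obtain ⟨b8, b9, b10, b1, b2, b3, b4, b5, b6, b7⟩ := hM
    intro z
    simp only [A]
    by_cases hz : z ∈ Main_box (y1 M) (y2 M) (ρ M)
    · rw [Set.indicator_of_mem hz, norm_mul, norm_exp]
      obtain ⟨⟨c1, c2⟩, ⟨c3, c4⟩, ⟨c5, c6⟩⟩ := hz
      have hMpos : 0 < M := by omega
      have e1 := Main_bound r1 r2 n g M C0 C1 C2 hC0 hC1 hC2 hMpos (z.1 + y.im * I)
        (z.2.1 + v.im * I) (z.2.2 + w.im * I)
        (hCc M b1 _ (by simp; linarith only [c1, b2]) (by simp; linarith only [c2, b5]) (by simp; linarith only [lyi]))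
        (hK1 M (by omega) _ _ (by simp; linarith only [c4, c1, b7, b2]) (by simp; linarith only [c3,
                                                                                    c2, b7, b5]) (by simp; linarith only [c3,
                                                                                                             c1,
                                                                                                             b7,
                                                                                                             b2])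
          (by simp; linarith only [c4, c2, b7, b5, hY1p, lv']) (by simp; linarith only [lyi])
          (by simp only [add_im, ofReal_im, mul_im, ofReal_re, I_im, mul_one, I_re, mul_zero,
                add_zero, zero_add]; rw [abs_of_pos hY1p]; linarith only [lv']))
        (hK2 M (by omega) _ _ (by simp; linarith only [c6, c1, b7, b2]) (by simp; linarith only [c5,
                                                                                    c2, b7, b5]) (by simp; linarith only [c5,
                                                                                                             c1,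
                                                                                                             b7,
                                                                                                             b2])
          (by simp; linarith only [c6, c2, b7, b5]) (by simp; linarith only [lyi])
          (by simp only [add_im, ofReal_im, mul_im, ofReal_re, I_im, mul_one, I_re, mul_zero,
                add_zero, zero_add]; rw [abs_of_pos hY2p]; linarith only [lw']))
        (om_flat n M _ (by simpa using b9)) (om_flat n M _ (by simpa using b10))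
      unfold Main_G
      have e2 : (-(M * phi r1 r2 y v w z)).re = -(M * (phi r1 r2 y v w z).re) := by
        rw [neg_re, ← ofReal_natCast, re_ofReal_mul]
      rw [e2, Real.exp_neg]
      have e3 : 0 < Real.exp (M * (phi r1 r2 y v w z).re) := Real.exp_pos _
      rw [← div_eq_mul_inv, div_le_iff₀ e3]
      exact e1
    · rw [Set.indicator_of_notMem hz, norm_zero]
      positivity
  · filter_upwards [hfac] with M hM
    obtain ⟨b8, b9, b10, b1, b2, b3, b4, b5, b6, b7⟩ := hM
    intro z hz
    have hz' : z ∈ Main_box (y1 M) (y2 M) (ρ M) := by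
      by_contra h
      exact hz (Set.indicator_of_notMem h _)
    obtain ⟨⟨c1, c2⟩, ⟨c3, c4⟩, ⟨c5, c6⟩⟩ := hz'
    have e1 := conc r1 r2 y v w hc z.1 z.2.1 z.2.2 (by rw [abs_le]; constructor <;> linarith only [b2, c1, b5, c2])
      (by rw [abs_le]; constructor <;> linarith only [b7, c3, c4]) (by rw [abs_le]; constructor <;> linarith only [b7, c5, c6])
    rw [sub_re, hphip]
    simp only [phi, hp]
    linarith only [e1]
  · intro ξ
    have hsq : Tendsto (fun M : ℕ => 1 / Real.sqrt M) atTop (𝓝 0) := by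
      have h1 : Tendsto (fun M : ℕ => Real.sqrt (M : ℝ)) atTop atTop :=
        Real.tendsto_sqrt_atTop.comp tendsto_natCast_atTop_atTop
      refine h1.inv_tendsto_atTop.congr fun M => ?_
      simp only [Pi.inv_apply, one_div]
    have hzt : Tendsto (fun M : ℕ => p + (1 / Real.sqrt M) • ξ) atTop (𝓝 p) := by
      have := (hsq.smul_const ξ).const_add p
      simpa using this
    have hz1 : Tendsto (fun M : ℕ => (p + (1 / Real.sqrt M) • ξ).1) atTop (𝓝 y.re) :=
      (continuous_fst.tendsto p).comp hzt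
    have hz2 : Tendsto (fun M : ℕ => (p + (1 / Real.sqrt M) • ξ).2.1) atTop (𝓝 v.re) :=
      ((continuous_fst.comp continuous_snd).tendsto p).comp hzt
    have hz3 : Tendsto (fun M : ℕ => (p + (1 / Real.sqrt M) • ξ).2.2) atTop (𝓝 w.re) :=
      ((continuous_snd.comp continuous_snd).tendsto p).comp hzt
    obtain ⟨Z, hZ⟩ : ∃ Z : ℕ → ℝ × ℝ × ℝ, ∀ M, Z M = p + (1 / Real.sqrt M) • ξ :=
      ⟨_, fun _ => rfl⟩
    simp only [← hZ] at hz1 hz2 hz3 ⊢
    have hY : Tendsto (fun M : ℕ => ((Z M).1 : ℂ) + y.im * I) atTop (𝓝 y) := by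
      have := ((continuous_ofReal.tendsto _).comp hz1).add_const (y.im * I : ℂ)
      rw [re_add_im] at this
      exact this
    have hV : Tendsto (fun M : ℕ => ((Z M).2.1 : ℂ) + v.im * I) atTop (𝓝 v) := by
      have := ((continuous_ofReal.tendsto _).comp hz2).add_const (v.im * I : ℂ)
      rw [re_add_im] at this
      exact this
    have hW : Tendsto (fun M : ℕ => ((Z M).2.2 : ℂ) + w.im * I) atTop (𝓝 w) := by
      have := ((continuous_ofReal.tendsto _).comp hz3).add_const (w.im * I : ℂ)
      rw [re_add_im] at this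
      exact this
    have habs1 := abs_le.1 ly
    have habs2 := abs_le.1 lvr
    have habs3 := abs_le.1 lwr
    have L1 := KK_lim r1 n y v _ _ hY hV (by rw [sub_re]; linarith only [habs2.2, habs1.1]) (by rw [sub_re]; linarith only [habs2.1,
                                                                                                               habs1.2])
      (by rw [add_re]; linarith only [habs2.1, habs1.1]) (by rw [add_re]; linarith only [habs2.2,
                                                                            habs1.2])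
    have L2 := KK_lim r2 n y w _ _ hY hW (by rw [sub_re]; linarith only [habs3.2, habs1.1]) (by rw [sub_re]; linarith only [habs3.1,
                                                                                                               habs1.2])
      (by rw [add_re]; linarith only [habs3.1, habs1.1]) (by rw [add_re]; linarith only [habs3.2,
                                                                            habs1.2])
    have L3 := Cc_lim n g hg hgn y _ hY (by linarith only [habs1.1, hY1p, lv']) (by linarith only [habs1.2])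
    have L4 := om_lim n (fun M => ((Z M).2.1 : ℂ) + v.im * I) (fun M => ((Z M).2.2 : ℂ) + w.im * I)
      v.im w.im hY1p hY2p (fun M => by simp) (fun M => by simp)
    have L5 := (L3.mul (L1.mul L2)).mul L4
    refine L5.congr' ?_
    have ev1 : ∀ᶠ M in atTop, (Z M).1 ∈ Set.Ioo (1 / 4 - 2 / 100) (1 / 4 + 2 / 100) :=
      hz1.eventually (Ioo_mem_nhds (by linarith only [habs1.1]) (by linarith only [habs1.2]))
    have ev2 : ∀ᶠ M in atTop, (Z M).2.1 ∈ Set.Ioo (-(1 / 10) : ℝ) (1 / 10) :=
      hz2.eventually (Ioo_mem_nhds (by linarith only [habs2.1]) (by linarith only [habs2.2]))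
    have ev3 : ∀ᶠ M in atTop, (Z M).2.2 ∈ Set.Ioo (-(1 / 10) : ℝ) (1 / 10) :=
      hz3.eventually (Ioo_mem_nhds (by linarith only [habs3.1]) (by linarith only [habs3.2]))
    filter_upwards [hfac, ev1, ev2, ev3] with M hM e1 e2 e3
    obtain ⟨b8, b9, b10, b1, b2, b3, b4, b5, b6, b7⟩ := hM
    have hmem : Z M ∈ Main_box (y1 M) (y2 M) (ρ M) :=
      ⟨⟨by linarith only [e1.1, b3], by linarith only [e1.2, b4]⟩, ⟨by linarith only [e2.1, b6], by linarith only [e2.2,
                                                                                                      b6]⟩,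
        ⟨by linarith only [e3.1, b6], by linarith only [e3.2, b6]⟩⟩
    simp only [A]
    rw [Set.indicator_of_mem hmem]
    have hM0 : (M : ℂ) ≠ 0 := by
      have : M ≠ 0 := by omega
      exact_mod_cast this
    unfold Main_G phi
    obtain ⟨Yc, hYc⟩ : ∃ Yc : ℂ, Yc = ((Z M).1 : ℂ) + y.im * I := ⟨_, rfl⟩
    obtain ⟨Vc, hVc⟩ : ∃ Vc : ℂ, Vc = ((Z M).2.1 : ℂ) + v.im * I := ⟨_, rfl⟩
    obtain ⟨Wc, hWc⟩ : ∃ Wc : ℂ, Wc = ((Z M).2.2 : ℂ) + w.im * I := ⟨_, rfl⟩
    rw [← hYc, ← hVc, ← hWc]
    have e4 : exp (-(M * Vf r1 r2 Yc Vc Wc)) = exp (-M * (4 * ff (Yc + 1 / 2))) *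
        (exp (-M * (2 * Real.pi * I * r1 * Vc ^ 2 - ff (Yc - Vc) - ff (Yc + Vc))) *
        exp (-M * (2 * Real.pi * I * r2 * Wc ^ 2 - ff (Yc - Wc) - ff (Yc + Wc)))) *
        exp (-M * (2 * Real.pi * I * (Vc + Wc))) := by
      rw [← exp_add, ← exp_add, ← exp_add]
      congr 1
      unfold Vf
      ring
    rw [e4]
    field_simp

end Pool.Agent.H63.VC3
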