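import Pool.Agent.H63.VC3.Reduce
import Pool.Agent.H63.VC3.Main

/-! # Asymptotics of the invariant -/

namespace Pool.Agent.H63.VC3

open Pool.Agent.H63.VC Complex Filter Topology

theorem JNlim_sin (c : ℝ) (hc : 0 < c) :
    Tendsto (fun M : ℕ => 2 * Real.sin (c / M) * (M : ℝ)) atTop (𝓝 (2 * c)) := by
  have h0 : Tendsto (fun M : ℕ => c / (M : ℝ)) atTop (𝓝[≠] 0) := by
    rw [tendsto_nhdsWithin_iff]
    refine ⟨tendsto_const_div_atTop_nhds_zero_nat c, ?_⟩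
    filter_upwards [eventually_gt_atTop 0] with M hM
    have : (0 : ℝ) < M := by exact_mod_cast hM
    exact (div_pos hc this).ne'
  have h1 := (Real.hasDerivAt_sin 0).tendsto_slope_zero.comp h0
  have h2 := h1.const_mul (2 * c)
  rw [Real.cos_zero, mul_one] at h2
  refine h2.congr' ?_
  filter_upwards [eventually_gt_atTop 0] with M hM
  have hM' : (0 : ℝ) < M := by exact_mod_cast hM
  simp only [Function.comp_apply, zero_add, Real.sin_zero, sub_zero, smul_eq_mul]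
  field_simp

/-- `S(M, j) M^j → (2π)^j j!`. -/
theorem S_lim (j : ℕ) : Tendsto (fun M : ℕ => S M j * (M : ℝ) ^ j) atTop
    (𝓝 ((2 * Real.pi) ^ j * (Nat.factorial j : ℝ))) := by
  induction j with
  | zero =>
    simp only [S_zero, pow_zero, Nat.factorial_zero, Nat.cast_one, mul_one]
    exact tendsto_const_nhds
  | succ j ih =>
    have h1 := JNlim_sin (Real.pi * (j + 1)) (by positivity)
    have h2 := ih.mul h1
    have e : (2 * Real.pi) ^ j * (Nat.factorial j : ℝ) * (2 * (Real.pi * (j + 1))) =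
        (2 * Real.pi) ^ (j + 1) * (Nat.factorial (j + 1) : ℝ) := by
      rw [Nat.factorial_succ]
      push_cast
      ring
    rw [e] at h2
    refine h2.congr fun M => ?_
    rw [S_succ]
    unfold sg
    push_cast
    ring

theorem JNlim_err (C : ℝ) (D : ℕ) :
    Tendsto (fun M : ℕ => C * (M : ℝ) ^ D * Real.exp (-(M / 500))) atTop (𝓝 0) := by
  have h1 := Real.tendsto_pow_mul_exp_neg_atTop_nhds_zero D
  have h2 : Tendsto (fun M : ℕ => (M : ℝ) / 500) atTop atTop :=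
    tendsto_natCast_atTop_atTop.atTop_div_const (by norm_num)
  have h3 := (h1.comp h2).const_mul (C * 500 ^ D)
  rw [mul_zero] at h3
  refine h3.congr fun M => ?_
  simp only [Function.comp_apply]
  rw [div_pow]
  field_simp

theorem JN_lim (r1 r2 : ℤ) (y v w : ℂ) (hc : Crit r1 r2 y v w) (n g : ℕ) (hn : 2 ≤ n)
    (hg : 1 ≤ g) (hgn : g ≤ n - 1) :
    ∃ κ : ℝ, 0 < κ ∧ Tendsto (fun M : ℕ => ‖JN r1 r2 n g M‖ /
      ((M : ℝ) ^ (2 * (n : ℝ) - 5 / 2) * Real.exp (M * (Vf r1 r2 y v w).re))) atTop (𝓝 κ) := by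
  obtain ⟨k1, k2, l1, l2, hwin⟩ := win_exists n hn
  obtain ⟨K, hK, hKlim⟩ := main_lim r1 r2 y v w hc n g hn hg hgn k1 k2 l1 l2 hwin
  obtain ⟨C, hC, D, M0, hmain⟩ := JN_main r1 r2 y v w hc n g hn hg hgn
  obtain ⟨MI, hMI⟩ : ∃ MI : ℕ → ℂ, ∀ M, MI M = MainInt r1 r2 n g M y.im v.im w.im
      ((k1 M + bt n) / M - 1 / 2) ((k2 M + 1 + bt n) / M - 1 / 2) (rho n M (l2 M)) :=
    ⟨_, fun _ => rfl⟩
  simp only [← hMI] at hKlim
  obtain ⟨H, hH⟩ : ∃ H, H = (Vf r1 r2 y v w).re := ⟨_, rfl⟩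
  rw [← hH]
  rw [← hH] at hmain
  -- the denominators
  have hDlim : Tendsto (fun M : ℕ => Dg n g M * (M : ℝ) ^ (2 * n - 4)) atTop
      (𝓝 (((2 * Real.pi) ^ (g - 1) * (Nat.factorial (g - 1) : ℝ)) *
        ((2 * Real.pi) ^ (n - g - 1) * (Nat.factorial (n - g - 1) : ℝ)) *
        ((2 * Real.pi) ^ (n - 2) * (Nat.factorial (n - 2) : ℝ)))) := by
    refine (((S_lim (g - 1)).mul (S_lim (n - g - 1))).mul (S_lim (n - 2))).congr fun M => ?_
    unfold Dg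
    have e : 2 * n - 4 = (g - 1) + (n - g - 1) + (n - 2) := by omega
    rw [e, pow_add, pow_add]
    ring
  obtain ⟨c, hcd⟩ : ∃ c, c = ((2 * Real.pi) ^ (g - 1) * (Nat.factorial (g - 1) : ℝ)) *
        ((2 * Real.pi) ^ (n - g - 1) * (Nat.factorial (n - g - 1) : ℝ)) *
        ((2 * Real.pi) ^ (n - 2) * (Nat.factorial (n - 2) : ℝ)) := ⟨_, rfl⟩
  rw [← hcd] at hDlim
  have hc0 : 0 < c := by
    rw [hcd]
    positivity
  refine ⟨‖K‖ * c⁻¹, mul_pos (norm_pos_iff.2 hK) (inv_pos.2 hc0), ?_⟩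
  -- the main term
  have hmainlim : Tendsto (fun M : ℕ => ‖(((M : ℝ) ^ (3 / 2 : ℝ) : ℝ) : ℂ) *
      exp (-M * Vf r1 r2 y v w) * MI M‖ * (Dg n g M * (M : ℝ) ^ (2 * n - 4))⁻¹) atTop
      (𝓝 (‖K‖ * c⁻¹)) := hKlim.norm.mul (hDlim.inv₀ hc0.ne')
  have herr := JNlim_err C D
  -- comparison
  have hcomp : ∀ᶠ M : ℕ in atTop, |‖JN r1 r2 n g M‖ /
      ((M : ℝ) ^ (2 * (n : ℝ) - 5 / 2) * Real.exp (M * H)) -
      ‖(((M : ℝ) ^ (3 / 2 : ℝ) : ℝ) : ℂ) * exp (-M * Vf r1 r2 y v w) * MI M‖ *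
        (Dg n g M * (M : ℝ) ^ (2 * n - 4))⁻¹| ≤ C * (M : ℝ) ^ D * Real.exp (-(M / 500)) := by
    filter_upwards [hwin, eventually_ge_atTop M0, eventually_gt_atTop 0] with M hw hM0 hM
    have hMn : n ≤ M := by have := hw.big; omega
    have hMr : (1 : ℝ) ≤ M := by exact_mod_cast hM
    have hMp : (0 : ℝ) < M := by linarith
    obtain ⟨hDg, -⟩ := Reduce_Dg n g M hn hg hgn hMn
    have h1 := hmain M (k1 M) (k2 M) (l1 M) (l2 M) hM0 hw
    rw [← hMI] at h1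
    have hW : 0 < (M : ℝ) ^ (2 * (n : ℝ) - 5 / 2) * Real.exp (M * H) := by positivity
    have hW1 : (1 : ℝ) ≤ (M : ℝ) ^ (2 * (n : ℝ) - 5 / 2) := by
      apply Real.one_le_rpow hMr
      have : (2 : ℝ) ≤ n := by exact_mod_cast hn
      linarith
    have hX : ‖c1 n M ^ (r1 + r2) * ((M : ℂ) ^ 3 / Dg n g M) * MI M‖ =
        (M : ℝ) ^ 3 / Dg n g M * ‖MI M‖ := by
      rw [norm_mul, norm_mul, norm_zpow, norm_c1, one_zpow, one_mul, norm_div, norm_pow,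
        Complex.norm_natCast, Complex.norm_real, Real.norm_of_nonneg hDg.le]
    have hpow : (M : ℝ) ^ 3 = (M : ℝ) ^ (3 / 2 : ℝ) * (M : ℝ) ^ (2 * (n : ℝ) - 5 / 2) *
        ((M : ℝ) ^ (2 * n - 4))⁻¹ := by
      rw [← Real.rpow_natCast (M : ℝ) (2 * n - 4), ← Real.rpow_neg hMp.le,
        ← Real.rpow_add hMp, ← Real.rpow_add hMp, ← Real.rpow_natCast (M : ℝ) 3]
      congr 1
      rw [Nat.cast_sub (by omega)]
      push_cast
      ring
    have hY : ‖(((M : ℝ) ^ (3 / 2 : ℝ) : ℝ) : ℂ) * exp (-M * Vf r1 r2 y v w) * MI M‖ =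
        (M : ℝ) ^ (3 / 2 : ℝ) * (Real.exp (M * H))⁻¹ * ‖MI M‖ := by
      rw [norm_mul, norm_mul, Complex.norm_real, Real.norm_of_nonneg (by positivity),
        Complex.norm_exp, ← Real.exp_neg]
      congr 3
      rw [hH, Complex.mul_re]
      simp
    have hXY : ‖(((M : ℝ) ^ (3 / 2 : ℝ) : ℝ) : ℂ) * exp (-M * Vf r1 r2 y v w) * MI M‖ *
        (Dg n g M * (M : ℝ) ^ (2 * n - 4))⁻¹ =
        ‖c1 n M ^ (r1 + r2) * ((M : ℂ) ^ 3 / Dg n g M) * MI M‖ /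
          ((M : ℝ) ^ (2 * (n : ℝ) - 5 / 2) * Real.exp (M * H)) := by
      rw [hX, hY, hpow]
      have hne1 : (M : ℝ) ^ (2 * (n : ℝ) - 5 / 2) ≠ 0 := by positivity
      have hne2 : Real.exp (M * H) ≠ 0 := by positivity
      field_simp
    rw [hXY, ← sub_div, abs_div, abs_of_pos hW, div_le_iff₀ hW]
    have h2 := abs_norm_sub_norm_le (JN r1 r2 n g M)
      (c1 n M ^ (r1 + r2) * ((M : ℂ) ^ 3 / Dg n g M) * MI M)
    refine (h2.trans h1).trans ?_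
    have h3 : Real.exp (M * (H - 1 / 500)) = Real.exp (-(M / 500)) * Real.exp (M * H) := by
      rw [← Real.exp_add]
      congr 1
      ring
    rw [h3]
    have h4 : 0 ≤ C * (M : ℝ) ^ D * (Real.exp (-(M / 500)) * Real.exp (M * H)) := by positivity
    calc C * (M : ℝ) ^ D * (Real.exp (-(M / 500)) * Real.exp (M * H))
        = C * (M : ℝ) ^ D * (Real.exp (-(M / 500)) * Real.exp (M * H)) * 1 := by ring
      _ ≤ C * (M : ℝ) ^ D * (Real.exp (-(M / 500)) * Real.exp (M * H)) *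
          (M : ℝ) ^ (2 * (n : ℝ) - 5 / 2) := mul_le_mul_of_nonneg_left hW1 h4
      _ = _ := by ring
  have hdiff : Tendsto (fun M : ℕ => ‖JN r1 r2 n g M‖ /
      ((M : ℝ) ^ (2 * (n : ℝ) - 5 / 2) * Real.exp (M * H)) -
      ‖(((M : ℝ) ^ (3 / 2 : ℝ) : ℝ) : ℂ) * exp (-M * Vf r1 r2 y v w) * MI M‖ *
        (Dg n g M * (M : ℝ) ^ (2 * n - 4))⁻¹) atTop (𝓝 0) :=
    squeeze_zero_norm' hcomp herr
  have hsum := hdiff.add hmainlim
  rw [zero_add] at hsum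
  refine hsum.congr fun M => ?_
  ring

end Pool.Agent.H63.VC3
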