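import Mathlib

/-! # Sums as contour integrals -/

namespace Pool.Agent.H63.VC3

open Complex

private theorem AbelPlana_log (s : ℤ) (hs : s ≠ 0) (d : ℂ) (hd : d.re < 0) (u : ℝ) :
    ∫ x in u..(u + 1), exp (2 * Real.pi * I * s * x + d) / (1 - exp (2 * Real.pi * I * s * x + d))
      = 0 := by
  have hs' : (2 * Real.pi * I * s : ℂ) ≠ 0 := by
    have : (s : ℂ) ≠ 0 := by exact_mod_cast hs
    have hpi : (Real.pi : ℂ) ≠ 0 := by exact_mod_cast Real.pi_ne_zero
    simp [this, hpi, I_ne_zero]
  have hnorm : ∀ x : ℝ, ‖exp (2 * Real.pi * I * s * x + d)‖ < 1 := by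
    intro x
    rw [norm_exp]
    have : (2 * Real.pi * I * s * x + d).re = d.re := by
      simp [mul_re, mul_im]
    rw [this]
    exact Real.exp_lt_one_iff.2 hd
  have hslit : ∀ x : ℝ, 1 - exp (2 * Real.pi * I * s * x + d) ∈ slitPlane := by
    intro x
    left
    have h1 := abs_re_le_norm (exp (2 * Real.pi * I * s * x + d))
    have h2 := hnorm x
    have h3 := le_abs_self (exp (2 * Real.pi * I * s * x + d)).re
    simp only [sub_re, one_re]
    linarith
  have hne : ∀ x : ℝ, 1 - exp (2 * Real.pi * I * s * x + d) ≠ 0 := fun x =>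
    slitPlane_ne_zero (hslit x)
  have hw : ∀ x : ℝ, HasDerivAt (fun x : ℝ => exp (2 * Real.pi * I * s * x + d))
      (exp (2 * Real.pi * I * s * x + d) * (2 * Real.pi * I * s)) x := by
    intro x
    have h1 : HasDerivAt (fun x : ℝ => (2 * Real.pi * I * s * x + d : ℂ))
        (2 * Real.pi * I * s) x := by
      have h2 := ((hasDerivAt_id x).ofReal_comp.const_mul (2 * Real.pi * I * s : ℂ)).add_const d
      simpa using h2
    exact h1.cexp
  have hF : ∀ x : ℝ, HasDerivAt
      (fun x : ℝ => -log (1 - exp (2 * Real.pi * I * s * x + d)) / (2 * Real.pi * I * s))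
      (exp (2 * Real.pi * I * s * x + d) / (1 - exp (2 * Real.pi * I * s * x + d))) x := by
    intro x
    have h1 := ((hw x).const_sub 1).clog_real (hslit x)
    have h2 := h1.neg.div_const (2 * Real.pi * I * s : ℂ)
    have h3 : exp (2 * Real.pi * I * s * x + d) / (1 - exp (2 * Real.pi * I * s * x + d)) =
        -(-(exp (2 * Real.pi * I * s * x + d) * (2 * Real.pi * I * s)) /
          (1 - exp (2 * Real.pi * I * s * x + d))) / (2 * Real.pi * I * s) := by
      have h4 := hne x
      generalize exp (2 * Real.pi * I * s * x + d) = W at h4 ⊢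
      generalize (2 * Real.pi * I * s : ℂ) = c at hs' ⊢
      field_simp
    rw [h3]
    exact h2
  rw [intervalIntegral.integral_eq_sub_of_hasDerivAt (fun x _ => hF x)]
  · have : exp (2 * Real.pi * I * s * ((u + 1 : ℝ) : ℂ) + d) =
        exp (2 * Real.pi * I * s * (u : ℂ) + d) := by
      rw [exp_eq_exp_iff_exists_int]
      exact ⟨s, by push_cast; ring⟩
    rw [this, sub_self]
  · apply Continuous.intervalIntegrable
    have hc : Continuous fun x : ℝ => exp (2 * Real.pi * I * s * x + d) := by fun_prop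
    exact hc.div (continuous_const.sub hc) hne

/-- The kernel `1 / (exp (2 π i (z - b)) - 1)`. -/
private noncomputable def AbelPlana_K (b : ℝ) (z : ℂ) : ℂ :=
  1 / (exp (2 * Real.pi * I * (z - b)) - 1)

private theorem AbelPlana_exp_eq_one {b : ℝ} {z : ℂ}
    (h : exp (2 * Real.pi * I * (z - b)) - 1 = 0) : ∃ n : ℤ, z = b + n := by
  rw [sub_eq_zero, exp_eq_one_iff] at h
  obtain ⟨n, hn⟩ := h
  refine ⟨n, ?_⟩
  have hpi : (2 * Real.pi * I : ℂ) ≠ 0 := two_pi_I_ne_zero
  have : (2 * Real.pi * I : ℂ) * (z - b) = (2 * Real.pi * I) * n := by rw [hn]; ring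
  have h2 := mul_left_cancel₀ hpi this
  rw [← h2]
  ring

private theorem AbelPlana_ne {b : ℝ} {z : ℂ} (h1 : |z.re - b| ≤ 1 / 2) (h2 : z ≠ b) :
    exp (2 * Real.pi * I * (z - b)) - 1 ≠ 0 := by
  intro h
  obtain ⟨n, rfl⟩ := AbelPlana_exp_eq_one h
  simp only [add_re, ofReal_re, intCast_re, add_sub_cancel_left] at h1
  have h3 : |n| < 1 := by
    have : |(n : ℝ)| < 1 := by linarith
    exact_mod_cast this
  have h4 : n = 0 := Int.abs_lt_one_iff.1 h3
  exact h2 (by simp [h4])

private theorem AbelPlana_ne_im {b : ℝ} {z : ℂ} (h1 : z.im ≠ 0) :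
    exp (2 * Real.pi * I * (z - b)) - 1 ≠ 0 := by
  intro h
  obtain ⟨n, rfl⟩ := AbelPlana_exp_eq_one h
  simp at h1

/-- The integral over the top side. -/
private theorem AbelPlana_top (b η : ℝ) (hη : 0 < η) :
    ∫ x in (b - 1 / 2)..(b + 1 / 2), AbelPlana_K b (x + η * I) = -1 := by
  have h1 := AbelPlana_log 1 one_ne_zero (2 * Real.pi * I * (η * I - b)) (by
    have : (2 * Real.pi * I * (η * I - b) : ℂ).re = -(2 * Real.pi * η) := by
      simp [mul_re, mul_im]
    rw [this]
    have := Real.pi_pos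
    have h3 : 0 < 2 * Real.pi * η := by positivity
    linarith) (b - 1 / 2)
  rw [show b - 1 / 2 + 1 = b + 1 / 2 by ring] at h1
  have h2 : ∀ x : ℝ, AbelPlana_K b (x + η * I) =
      -1 - exp (2 * Real.pi * I * (1 : ℤ) * x + 2 * Real.pi * I * (η * I - b)) /
        (1 - exp (2 * Real.pi * I * (1 : ℤ) * x + 2 * Real.pi * I * (η * I - b))) := by
    intro x
    have h3 : exp (2 * Real.pi * I * ((x + η * I : ℂ) - b)) - 1 ≠ 0 :=
      AbelPlana_ne_im (by simp [hη.ne'])
    have e : (2 * Real.pi * I * (1 : ℤ) * x + 2 * Real.pi * I * (η * I - b) : ℂ) =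
        2 * Real.pi * I * ((x + η * I : ℂ) - b) := by push_cast; ring
    rw [e, AbelPlana_K]
    have h4 : 1 - exp (2 * Real.pi * I * ((x + η * I : ℂ) - b)) ≠ 0 := by
      intro h
      apply h3
      rw [← neg_eq_zero, neg_sub]
      exact h
    generalize exp (2 * Real.pi * I * ((x + η * I : ℂ) - b)) = W at h3 h4 ⊢
    field_simp
    ring
  simp_rw [h2]
  rw [intervalIntegral.integral_sub, h1, intervalIntegral.integral_const]
  · simp
    ring
  · exact intervalIntegrable_const
  · apply Continuous.intervalIntegrable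
    have hc : Continuous fun x : ℝ =>
      exp (2 * Real.pi * I * (1 : ℤ) * x + 2 * Real.pi * I * (η * I - b)) := by fun_prop
    refine hc.div (continuous_const.sub hc) fun x h => ?_
    have h3 : exp (2 * Real.pi * I * ((x + η * I : ℂ) - b)) - 1 ≠ 0 :=
      AbelPlana_ne_im (by simp [hη.ne'])
    apply h3
    rw [← neg_eq_zero, neg_sub, ← h]
    congr 2
    push_cast
    ring

/-- The integral over the bottom side. -/
private theorem AbelPlana_bot (b η : ℝ) (hη : 0 < η) :
    ∫ x in (b - 1 / 2)..(b + 1 / 2), AbelPlana_K b (x - η * I) = 0 := by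
  have h1 := AbelPlana_log (-1) (by norm_num) (2 * Real.pi * I * (η * I + b)) (by
    have : (2 * Real.pi * I * (η * I + b) : ℂ).re = -(2 * Real.pi * η) := by
      simp [mul_re, mul_im]
    rw [this]
    have := Real.pi_pos
    have h3 : 0 < 2 * Real.pi * η := by positivity
    linarith) (b - 1 / 2)
  rw [show b - 1 / 2 + 1 = b + 1 / 2 by ring] at h1
  rw [← h1]
  apply intervalIntegral.integral_congr
  intro x _
  simp only
  have h3 : exp (2 * Real.pi * I * ((x - η * I : ℂ) - b)) - 1 ≠ 0 :=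
    AbelPlana_ne_im (by simp [hη.ne'])
  have e : (2 * Real.pi * I * (-1 : ℤ) * x + 2 * Real.pi * I * (η * I + b) : ℂ) =
      -(2 * Real.pi * I * ((x - η * I : ℂ) - b)) := by push_cast; ring
  rw [e, AbelPlana_K, exp_neg]
  have h5 := exp_ne_zero (2 * Real.pi * I * ((x - η * I : ℂ) - b))
  generalize exp (2 * Real.pi * I * ((x - η * I : ℂ) - b)) = W at h3 h5 ⊢
  have h4 : 1 - W⁻¹ ≠ 0 := by
    intro h
    apply h3
    have h6 : W * (1 - W⁻¹) = 0 := by rw [h, mul_zero]
    rw [mul_sub, mul_one, mul_inv_cancel₀ h5] at h6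
    exact h6
  field_simp

/-- The integral of the kernel over the two vertical sides. -/
private theorem AbelPlana_vert (b t : ℝ) :
    AbelPlana_K b ((b + 1 / 2 : ℝ) + t * I) = AbelPlana_K b ((b - 1 / 2 : ℝ) + t * I) := by
  unfold AbelPlana_K
  congr 2
  rw [exp_eq_exp_iff_exists_int]
  exact ⟨1, by push_cast; ring⟩


private theorem AbelPlana_K_diff {b : ℝ} {z : ℂ} (h : exp (2 * Real.pi * I * (z - b)) - 1 ≠ 0) :
    DifferentiableAt ℂ (AbelPlana_K b) z := by
  have h1 : DifferentiableAt ℂ (fun z : ℂ => exp (2 * Real.pi * I * (z - b)) - 1) z := by fun_prop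
  exact (differentiableAt_const (1 : ℂ)).div h1 h

private theorem AbelPlana_lim (G : ℂ → ℂ) (b : ℝ) (hG : DifferentiableAt ℂ G b) :
    Filter.Tendsto (fun z => (G z - G b) * AbelPlana_K b z) (nhdsWithin (b : ℂ) {(b : ℂ)}ᶜ)
      (nhds (deriv G b / (2 * Real.pi * I))) := by
  have h1 := hasDerivAt_iff_tendsto_slope.1 hG.hasDerivAt
  have h2 : HasDerivAt (fun z : ℂ => exp (2 * Real.pi * I * (z - b))) (2 * Real.pi * I) b := by
    have h3 : HasDerivAt (fun z : ℂ => 2 * Real.pi * I * (z - b)) (2 * Real.pi * I) b := by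
      have := ((hasDerivAt_id (b : ℂ)).sub_const (b : ℂ)).const_mul (2 * Real.pi * I : ℂ)
      simpa using this
    have h4 := h3.cexp
    simpa using h4
  have h3 := h1.div (hasDerivAt_iff_tendsto_slope.1 h2) two_pi_I_ne_zero
  refine h3.congr' ?_
  filter_upwards [self_mem_nhdsWithin] with z hz
  have hz' : z - b ≠ 0 := sub_ne_zero.2 hz
  simp only [Pi.div_apply, slope_def_field, AbelPlana_K]
  simp only [sub_self, mul_zero, exp_zero]
  rw [div_div_div_cancel_right₀ hz', one_div, div_eq_mul_inv]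

private theorem AbelPlana_cell (G : ℂ → ℂ) (b η : ℝ) (hη : 0 < η)
    (hG : ∀ z : ℂ, |z.re - b| ≤ 1 / 2 → |z.im| ≤ η → DifferentiableAt ℂ G z) :
    (∫ x in (b - 1 / 2)..(b + 1 / 2), G (x - η * I) * AbelPlana_K b (x - η * I))
      - (∫ x in (b - 1 / 2)..(b + 1 / 2), G (x + η * I) * AbelPlana_K b (x + η * I))
      + I * (∫ t in (-η)..η, G ((b + 1 / 2 : ℝ) + t * I) *
          AbelPlana_K b ((b + 1 / 2 : ℝ) + t * I))
      - I * (∫ t in (-η)..η, G ((b - 1 / 2 : ℝ) + t * I) *
          AbelPlana_K b ((b - 1 / 2 : ℝ) + t * I))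
      = G b := by
  classical
  set g := G b with hg
  set H0 : ℂ → ℂ := fun z => (G z - g) * AbelPlana_K b z with hH0
  set H : ℂ → ℂ := Function.update H0 b (deriv G b / (2 * Real.pi * I)) with hH
  have hbd : DifferentiableAt ℂ G b := hG b (by simp) (by simpa using hη.le)
  have hd : ∀ z : ℂ, |z.re - b| ≤ 1 / 2 → |z.im| ≤ η → z ≠ b → DifferentiableAt ℂ H0 z :=
    fun z h1 h2 h3 => ((hG z h1 h2).sub_const g).mul (AbelPlana_K_diff (AbelPlana_ne h1 h3))
  have hev : ∀ z : ℂ, z ≠ b → H =ᶠ[nhds z] H0 := by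
    intro z hz
    filter_upwards [isOpen_ne.mem_nhds hz] with y hy
    exact Function.update_of_ne hy _ _
  have hdH : ∀ z : ℂ, |z.re - b| ≤ 1 / 2 → |z.im| ≤ η → z ≠ b → DifferentiableAt ℂ H z :=
    fun z h1 h2 h3 => (hd z h1 h2 h3).congr_of_eventuallyEq (hev z h3)
  have hre : ∀ x : ℝ, x ∈ Set.uIcc (b - 1 / 2) (b + 1 / 2) → |x - b| ≤ 1 / 2 := by
    intro x hx
    rw [Set.uIcc_of_le (by linarith), Set.mem_Icc] at hx
    rw [abs_le]
    constructor <;> linarith [hx.1, hx.2]
  have him : ∀ x : ℝ, x ∈ Set.uIcc (-η) η → |x| ≤ η := by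
    intro x hx
    rw [Set.uIcc_of_le (by linarith), Set.mem_Icc] at hx
    exact abs_le.2 hx
  have key := integral_boundary_rect_eq_zero_of_differentiable_on_off_countable H
    (⟨b - 1 / 2, -η⟩ : ℂ) (⟨b + 1 / 2, η⟩ : ℂ) {(b : ℂ)} (Set.countable_singleton _)
    (by
      intro z hz
      rw [mem_reProdIm] at hz
      have h1 := hre _ hz.1
      have h2 := him _ hz.2
      by_cases h3 : z = b
      · subst h3
        exact (continuousAt_update_same.2 (AbelPlana_lim G b hbd)).continuousWithinAt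
      · exact (hdH z h1 h2 h3).continuousAt.continuousWithinAt)
    (by
      rintro z ⟨hz, hz'⟩
      rw [mem_reProdIm] at hz
      have h1 : |z.re - b| ≤ 1 / 2 := by
        have := hz.1
        simp only at this
        rw [min_eq_left (by linarith), max_eq_right (by linarith), Set.mem_Ioo] at this
        rw [abs_le]
        constructor <;> linarith [this.1, this.2]
      have h2 : |z.im| ≤ η := by
        have := hz.2
        simp only at this
        rw [min_eq_left (by linarith), max_eq_right (by linarith), Set.mem_Ioo] at this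
        rw [abs_le]
        constructor <;> linarith [this.1, this.2]
      exact hdH z h1 h2 hz')
  simp only [smul_eq_mul] at key
  -- the integrand on a side
  have hside : ∀ (γ : ℝ → ℂ) (u v : ℝ), Continuous γ →
      (∀ t ∈ Set.uIcc u v, |(γ t).re - b| ≤ 1 / 2 ∧ |(γ t).im| ≤ η ∧ γ t ≠ b) →
      ∫ t in u..v, H (γ t) = (∫ t in u..v, G (γ t) * AbelPlana_K b (γ t)) -
        g * ∫ t in u..v, AbelPlana_K b (γ t) := by
    intro γ u v hγ h
    have h1 : ∀ t ∈ Set.uIcc u v, H (γ t) =
        G (γ t) * AbelPlana_K b (γ t) - g * AbelPlana_K b (γ t) := by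
      intro t ht
      rw [hH, Function.update_of_ne (h t ht).2.2, hH0]
      ring
    have h2 : ∀ t ∈ Set.uIcc u v, ContinuousAt (fun t => AbelPlana_K b (γ t)) t := fun t ht =>
      ContinuousAt.comp (g := AbelPlana_K b) (AbelPlana_K_diff (AbelPlana_ne (h t ht).1
        (h t ht).2.2)).continuousAt hγ.continuousAt
    have h3 : ∀ t ∈ Set.uIcc u v, ContinuousAt (fun t => G (γ t)) t := fun t ht =>
      ContinuousAt.comp (g := G) (hG _ (h t ht).1 (h t ht).2.1).continuousAt hγ.continuousAt
    rw [intervalIntegral.integral_congr h1, intervalIntegral.integral_sub,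
      intervalIntegral.integral_const_mul]
    · exact ContinuousOn.intervalIntegrable fun t ht =>
        ((h3 t ht).mul (h2 t ht)).continuousWithinAt
    · exact ContinuousOn.intervalIntegrable fun t ht =>
        (continuousAt_const.mul (h2 t ht)).continuousWithinAt
  have e1 := hside (fun x : ℝ => (x : ℂ) - η * I) (b - 1 / 2) (b + 1 / 2) (by fun_prop)
    (fun t ht => ⟨by simpa using hre t ht, by simp [abs_of_pos hη], fun h => by
      have := congrArg Complex.im h
      simp [hη.ne'] at this⟩)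
  have e2 := hside (fun x : ℝ => (x : ℂ) + η * I) (b - 1 / 2) (b + 1 / 2) (by fun_prop)
    (fun t ht => ⟨by simpa using hre t ht, by simp [abs_of_pos hη], fun h => by
      have := congrArg Complex.im h
      simp [hη.ne'] at this⟩)
  have e3 := hside (fun t : ℝ => ((b + 1 / 2 : ℝ) : ℂ) + t * I) (-η) η (by fun_prop)
    (fun t ht => ⟨by simp [abs_of_pos], by simpa using him t ht, fun h => by
      have := congrArg Complex.re h
      simp at this⟩)
  have e4 := hside (fun t : ℝ => ((b - 1 / 2 : ℝ) : ℂ) + t * I) (-η) η (by fun_prop)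
    (fun t ht => ⟨by simp [abs_of_pos], by simpa using him t ht, fun h => by
      have := congrArg Complex.re h
      simp at this⟩)
  have k1 : ∀ x : ℝ, (x : ℂ) + ((-η : ℝ) : ℂ) * I = x - η * I := fun x => by push_cast; ring
  simp only [k1] at key
  rw [e1, e2, e3, e4, AbelPlana_top b η hη, AbelPlana_bot b η hη] at key
  have hv : ∫ t in (-η)..η, AbelPlana_K b (((b + 1 / 2 : ℝ) : ℂ) + t * I) =
      ∫ t in (-η)..η, AbelPlana_K b (((b - 1 / 2 : ℝ) : ℂ) + t * I) :=
    intervalIntegral.integral_congr fun t _ => AbelPlana_vert b t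
  rw [hv] at key
  linear_combination key


private theorem AbelPlana_K_period (a : ℝ) (k : ℤ) (z : ℂ) :
    AbelPlana_K (a + k) z = AbelPlana_K a z := by
  unfold AbelPlana_K
  congr 2
  rw [exp_eq_exp_iff_exists_int]
  exact ⟨-k, by push_cast; ring⟩

private theorem AbelPlana_sum (G : ℂ → ℂ) (a : ℝ) (η : ℝ) (hη : 0 < η) (m : ℕ)
    (hG : ∀ z : ℂ, a - 1 / 2 ≤ z.re → z.re ≤ a + m + 1 / 2 → |z.im| ≤ η →
      DifferentiableAt ℂ G z) :
    (∫ x in (a - 1 / 2)..(a + m + 1 / 2), G (x - η * I) * AbelPlana_K a (x - η * I))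
      - (∫ x in (a - 1 / 2)..(a + m + 1 / 2), G (x + η * I) * AbelPlana_K a (x + η * I))
      + I * (∫ t in (-η)..η, G ((a + m + 1 / 2 : ℝ) + t * I) *
          AbelPlana_K a ((a + m + 1 / 2 : ℝ) + t * I))
      - I * (∫ t in (-η)..η, G ((a - 1 / 2 : ℝ) + t * I) *
          AbelPlana_K a ((a - 1 / 2 : ℝ) + t * I))
      = ∑ k ∈ Finset.range (m + 1), G (a + k) := by
  induction m with
  | zero =>
    have h := AbelPlana_cell G a η hη (fun z h1 h2 => hG z (by linarith [(abs_le.1 h1).1])
      (by push_cast; linarith [(abs_le.1 h1).2]) h2)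
    simpa using h
  | succ m ih =>
    have h1 := ih (fun z h1 h2 h3 => hG z h1 (by push_cast; linarith) h3)
    have h2 := AbelPlana_cell G (a + ((m + 1 : ℕ) : ℤ)) η hη (fun z h1 h2 => hG z (by
      have := (abs_le.1 h1).1
      push_cast at this
      have h4 : (0 : ℝ) ≤ m := Nat.cast_nonneg m
      linarith) (by
      have := (abs_le.1 h1).2
      push_cast at this ⊢
      linarith) h2)
    rw [Finset.sum_range_succ, ← h1]
    simp only [AbelPlana_K_period] at h2
    have e1 : a + (((m + 1 : ℕ) : ℤ) : ℝ) - 1 / 2 = a + m + 1 / 2 := by push_cast; ring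
    have e2 : a + (((m + 1 : ℕ) : ℤ) : ℝ) + 1 / 2 = a + ((m + 1 : ℕ) : ℝ) + 1 / 2 := by
      push_cast; ring
    rw [e1, e2] at h2
    have hint : ∀ (c : ℝ), |c| = η → ∀ u v : ℝ, a - 1 / 2 ≤ u → u ≤ v →
        v ≤ a + ((m + 1 : ℕ) : ℝ) + 1 / 2 →
        IntervalIntegrable (fun x : ℝ => G (x + c * I) * AbelPlana_K a (x + c * I))
          MeasureTheory.volume u v := by
      intro c hc u v hu huv hv
      apply ContinuousOn.intervalIntegrable
      intro x hx
      rw [Set.uIcc_of_le huv, Set.mem_Icc] at hx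
      have h5 : DifferentiableAt ℂ G (x + c * I) := hG _ (by simp; linarith [hx.1])
        (by simp; push_cast at hv; linarith [hx.2]) (by simp [hc])
      have h6 : DifferentiableAt ℂ (AbelPlana_K a) (x + c * I) := AbelPlana_K_diff
        (AbelPlana_ne_im (by
          simp
          rintro rfl
          simp at hc
          exact hη.ne hc))
      have h7 : ContinuousAt (fun x : ℝ => ((x : ℂ) + c * I)) x := by fun_prop
      have h8 : ContinuousAt (fun x : ℝ => G ((x : ℂ) + c * I)) x :=
        ContinuousAt.comp (f := fun x : ℝ => ((x : ℂ) + c * I)) (g := G) h5.continuousAt h7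
      have h9 : ContinuousAt (fun x : ℝ => AbelPlana_K a ((x : ℂ) + c * I)) x :=
        ContinuousAt.comp (f := fun x : ℝ => ((x : ℂ) + c * I)) (g := AbelPlana_K a)
          h6.continuousAt h7
      exact (h8.mul h9).continuousWithinAt
    have hm0 : (0 : ℝ) ≤ m := Nat.cast_nonneg m
    have i1 := intervalIntegral.integral_add_adjacent_intervals
      (hint η (abs_of_pos hη) (a - 1 / 2) (a + m + 1 / 2) le_rfl (by linarith)
        (by push_cast; linarith))
      (hint η (abs_of_pos hη) (a + m + 1 / 2) (a + ((m + 1 : ℕ) : ℝ) + 1 / 2) (by linarith)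
        (by push_cast; linarith) le_rfl)
    have i2 := intervalIntegral.integral_add_adjacent_intervals
      (hint (-η) (by rw [abs_neg, abs_of_pos hη]) (a - 1 / 2) (a + m + 1 / 2) le_rfl
        (by linarith) (by push_cast; linarith))
      (hint (-η) (by rw [abs_neg, abs_of_pos hη]) (a + m + 1 / 2)
        (a + ((m + 1 : ℕ) : ℝ) + 1 / 2) (by linarith) (by push_cast; linarith) le_rfl)
    have k1 : ∀ x : ℝ, (x : ℂ) + ((-η : ℝ) : ℂ) * I = x - η * I := fun x => by push_cast; ring
    simp only [k1] at i2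
    rw [← i1, ← i2]
    have e3 : G (((a + (((m + 1 : ℕ) : ℤ) : ℝ) : ℝ)) : ℂ) = G (a + ((m + 1 : ℕ) : ℂ)) := by
      congr 1
      push_cast
      ring
    rw [e3] at h2
    linear_combination h2

/-- Finite Abel-Plana formula: `∑_{k=0}^{m} G(a + k)` for `G` holomorphic near the rectangle
`[a - 1/2, a + m + 1/2] × [-η, η]`. -/
theorem abel_plana (G : ℂ → ℂ) (a : ℝ) (m : ℕ) (η : ℝ) (hη : 0 < η)
    (hG : ∀ z : ℂ, a - 1 / 2 ≤ z.re → z.re ≤ a + m + 1 / 2 → |z.im| ≤ η → DifferentiableAt ℂ G z) :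
    ∑ k ∈ Finset.range (m + 1), G (a + k) =
      (∫ t in (0 : ℝ)..η, G ((a - 1 / 2 : ℝ) + t * I) /
          (1 - exp (2 * Real.pi * I * ((a - 1 / 2 : ℝ) + t * I - a))) * I)
      + (∫ x in (a - 1 / 2)..(a + m + 1 / 2), G (x + η * I) /
          (1 - exp (2 * Real.pi * I * (x + η * I - a))))
      - (∫ t in (0 : ℝ)..η, G ((a + m + 1 / 2 : ℝ) + t * I) /
          (1 - exp (2 * Real.pi * I * ((a + m + 1 / 2 : ℝ) + t * I - a))) * I)
      - (∫ t in (0 : ℝ)..η, G ((a - 1 / 2 : ℝ) - t * I) /
          (exp (2 * Real.pi * I * ((a - 1 / 2 : ℝ) - t * I - a)) - 1) * I)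
      + (∫ x in (a - 1 / 2)..(a + m + 1 / 2), G (x - η * I) /
          (exp (2 * Real.pi * I * (x - η * I - a)) - 1))
      + (∫ t in (0 : ℝ)..η, G ((a + m + 1 / 2 : ℝ) - t * I) /
          (exp (2 * Real.pi * I * ((a + m + 1 / 2 : ℝ) - t * I - a)) - 1) * I) := by
  rw [← AbelPlana_sum G a η hη m hG]
  have hup : ∀ z : ℂ, G z / (1 - exp (2 * Real.pi * I * (z - a))) =
      -(G z * AbelPlana_K a z) := by
    intro z
    rw [AbelPlana_K, ← neg_sub (exp (2 * Real.pi * I * (z - a))) 1]
    generalize exp (2 * Real.pi * I * (z - a)) - 1 = W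
    rw [div_neg, mul_one_div]
  have hlow : ∀ z : ℂ, G z / (exp (2 * Real.pi * I * (z - a)) - 1) =
      G z * AbelPlana_K a z := by
    intro z
    rw [AbelPlana_K, mul_one_div]
  simp only [hup, hlow]
  -- the vertical sides
  have hvert : ∀ x : ℝ, a - 1 / 2 ≤ x → x ≤ a + m + 1 / 2 → (∀ n : ℤ, x ≠ a + n) →
      ∫ t in (-η)..η, G ((x : ℂ) + t * I) * AbelPlana_K a (x + t * I) =
        (∫ t in (0 : ℝ)..η, G ((x : ℂ) - t * I) * AbelPlana_K a (x - t * I)) +
        ∫ t in (0 : ℝ)..η, G ((x : ℂ) + t * I) * AbelPlana_K a (x + t * I) := by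
    intro x hx1 hx2 hx3
    have hcont : ∀ u v : ℝ, u ≤ v → -η ≤ u → v ≤ η → IntervalIntegrable
        (fun t : ℝ => G ((x : ℂ) + t * I) * AbelPlana_K a (x + t * I))
        MeasureTheory.volume u v := by
      intro u v huv hu hv
      apply ContinuousOn.intervalIntegrable
      intro t ht
      rw [Set.uIcc_of_le huv, Set.mem_Icc] at ht
      have h5 : DifferentiableAt ℂ G (x + t * I) := hG _ (by simpa using hx1)
        (by simpa using hx2) (by
          simp only [add_im, ofReal_im, mul_im, ofReal_re, I_im, mul_one, I_re, mul_zero,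
            add_zero, zero_add]
          exact abs_le.2 ⟨by linarith [ht.1], by linarith [ht.2]⟩)
      have h6 : DifferentiableAt ℂ (AbelPlana_K a) (x + t * I) := AbelPlana_K_diff (by
        intro h
        obtain ⟨n, hn⟩ := AbelPlana_exp_eq_one h
        have := congrArg Complex.re hn
        simp at this
        exact hx3 n this)
      have h7 : ContinuousAt (fun t : ℝ => ((x : ℂ) + t * I)) t := by fun_prop
      have h8 : ContinuousAt (fun t : ℝ => G ((x : ℂ) + t * I)) t :=
        ContinuousAt.comp (f := fun t : ℝ => ((x : ℂ) + t * I)) (g := G) h5.continuousAt h7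
      have h9 : ContinuousAt (fun t : ℝ => AbelPlana_K a ((x : ℂ) + t * I)) t :=
        ContinuousAt.comp (f := fun t : ℝ => ((x : ℂ) + t * I)) (g := AbelPlana_K a)
          h6.continuousAt h7
      exact (h8.mul h9).continuousWithinAt
    rw [← intervalIntegral.integral_add_adjacent_intervals (hcont (-η) 0 (by linarith) le_rfl
      hη.le) (hcont 0 η hη.le (by linarith) le_rfl)]
    congr 1
    have h8 := intervalIntegral.integral_comp_neg (a := 0) (b := η)
      (fun t : ℝ => G ((x : ℂ) + t * I) * AbelPlana_K a (x + t * I))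
    rw [neg_zero] at h8
    rw [← h8]
    apply intervalIntegral.integral_congr
    intro t _
    simp only [ofReal_neg, neg_mul, ← sub_eq_add_neg]
  have hl := hvert (a - 1 / 2) le_rfl (by
    have : (0 : ℝ) ≤ m := Nat.cast_nonneg m
    linarith) (by
    intro n hn
    have h1 : (n : ℝ) * 2 = -1 := by linarith
    have h2 : n * 2 = -1 := by exact_mod_cast h1
    omega)
  have hr := hvert (a + m + 1 / 2) (by
    have : (0 : ℝ) ≤ m := Nat.cast_nonneg m
    linarith) le_rfl (by
    intro n hn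
    have h1 : (n : ℝ) * 2 = 2 * m + 1 := by linarith
    have h2 : n * 2 = 2 * m + 1 := by exact_mod_cast h1
    omega)
  rw [hl, hr]
  simp only [intervalIntegral.integral_mul_const, intervalIntegral.integral_neg, neg_mul]
  ring

end Pool.Agent.H63.VC3
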