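import Pool.Agent.H63.VC3.Clausen

/-! # The interpolation `LL` of `log S` -/

namespace Pool.Agent.H63.VC3

open Pool.Agent.H63.VC Complex

/-! ### Auxiliary bounds -/

/-- `d = M - 2s - 1` has `|re d| < M + 1` on the strip. -/
lemma LLfun_re (M : ℕ) (s : ℂ) (h0 : -1 < s.re) (h1 : s.re < M) :
    |((M : ℂ) - 2 * s - 1).re| < M + 1 := by
  rw [abs_lt]
  constructor <;> simp <;> linarith

/-- Bound of the numerator for `LL`. -/
lemma LLfun_num (d : ℂ) {u A : ℝ} (hu : 0 < u) (hA1 : 1 ≤ A) (hA : |d.re| ≤ A) :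
    ‖sinh (d * u) - d * sinh (u : ℂ)‖ ≤ (‖d‖ ^ 3 + ‖d‖) * u ^ 3 * Real.cosh (A * u) := by
  have h1 := Clausen_norm_sinh_sub_le (d * u)
  have h2 := Clausen_norm_sinh_sub_le (u : ℂ)
  rw [norm_mul, Complex.norm_real, Real.norm_of_nonneg hu.le] at h1
  rw [Complex.norm_real, Real.norm_of_nonneg hu.le, Complex.ofReal_re] at h2
  have e : (d * (u : ℂ)).re = d.re * u := by simp
  rw [e] at h1
  have hA0 : 0 ≤ A := by linarith
  have c1 : Real.cosh (d.re * u) ≤ Real.cosh (A * u) := by
    apply Clausen_cosh_mono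
    rw [abs_mul, abs_mul]
    exact mul_le_mul_of_nonneg_right (hA.trans (le_abs_self A)) (abs_nonneg _)
  have c2 : Real.cosh u ≤ Real.cosh (A * u) := by
    apply Clausen_cosh_mono
    rw [abs_mul, abs_of_nonneg hA0]
    nlinarith [abs_nonneg u]
  have e2 : sinh (d * u) - d * sinh (u : ℂ) = (sinh (d * u) - d * u) - d * (sinh (u : ℂ) - u) := by
    ring
  rw [e2]
  refine (norm_sub_le _ _).trans ?_
  rw [norm_mul]
  have hc := Real.cosh_pos (A * u)
  calc ‖sinh (d * u) - d * u‖ + ‖d‖ * ‖sinh (u : ℂ) - u‖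
      ≤ (‖d‖ * u) ^ 3 * Real.cosh (d.re * u) + ‖d‖ * (u ^ 3 * Real.cosh u) :=
        add_le_add h1 (mul_le_mul_of_nonneg_left h2 (norm_nonneg _))
    _ ≤ (‖d‖ * u) ^ 3 * Real.cosh (A * u) + ‖d‖ * (u ^ 3 * Real.cosh (A * u)) := by
        apply add_le_add
        · exact mul_le_mul_of_nonneg_left c1 (by positivity)
        · exact mul_le_mul_of_nonneg_left
            (mul_le_mul_of_nonneg_left c2 (by positivity)) (norm_nonneg _)
    _ = _ := by ring

/-- General bound: numerator `O(u^3 cosh (A u))` with `u = t / M`, divided by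
`sinh u * t * sinh t`. -/
lemma LLfun_bound {M : ℕ} (hM : 0 < M) {t : ℝ} (ht : 0 < t) {A K : ℝ} (hA1 : 1 ≤ A)
    (hK : 0 ≤ K) {N : ℂ}
    (hN : ‖N‖ ≤ K * (t / M) ^ 3 * Real.cosh (A * (t / M))) :
    ‖N / sinh ((t : ℂ) / M) / (t * sinh (t : ℂ))‖ ≤
      K * ((1 + 2 * t) ^ 2 * Real.exp (-(1 - (A - 1) / M) * t)) := by
  have hMr : (0 : ℝ) < M := by exact_mod_cast hM
  have hM1 : (1 : ℝ) ≤ M := by exact_mod_cast hM
  set u : ℝ := t / M with hu
  have hupos : 0 < u := by positivity
  have hut : u ≤ t := by rw [hu]; exact div_le_self ht.le hM1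
  have hsu : 0 < Real.sinh u := Real.sinh_pos_iff.2 hupos
  have hs : 0 < Real.sinh t := Real.sinh_pos_iff.2 ht
  have e0 : ((t : ℂ) / M) = ((u : ℝ) : ℂ) := by rw [hu]; push_cast; rfl
  rw [e0, norm_div, norm_div, norm_mul, Clausen_sinh_norm ht, Clausen_sinh_norm hupos,
    Complex.norm_real, Real.norm_of_nonneg ht.le]
  have r1 := Clausen_ratio ht
  have r2 := Clausen_ratio hupos
  have h2 : Real.cosh (A * u) ≤ Real.exp (A * u) :=
    Clausen_cosh_le_exp (a := A) hupos.le (by rw [abs_of_nonneg (by linarith)])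
  have h3 : ‖N‖ / Real.sinh u / (t * Real.sinh t) ≤
      K * (u / Real.sinh u) * (t / Real.sinh t) * Real.cosh (A * u) := by
    rw [div_div, div_le_iff₀ (by positivity)]
    have hN2 : K * u ^ 3 * Real.cosh (A * u) ≤ K * (u * t ^ 2) * Real.cosh (A * u) := by
      apply mul_le_mul_of_nonneg_right _ (Real.cosh_pos _).le
      apply mul_le_mul_of_nonneg_left _ hK
      have : u ^ 2 ≤ t ^ 2 := pow_le_pow_left₀ hupos.le hut 2
      calc u ^ 3 = u * u ^ 2 := by ring
        _ ≤ _ := mul_le_mul_of_nonneg_left this hupos.le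
    refine (hN.trans hN2).trans (le_of_eq ?_)
    field_simp
  refine h3.trans ?_
  have h4 : K * (u / Real.sinh u) * (t / Real.sinh t) * Real.cosh (A * u) ≤
      K * ((1 + 2 * u) * Real.exp (-u)) * ((1 + 2 * t) * Real.exp (-t)) * Real.exp (A * u) := by
    apply mul_le_mul _ h2 (Real.cosh_pos _).le (by positivity)
    apply mul_le_mul _ r1 (by positivity) (by positivity)
    exact mul_le_mul_of_nonneg_left r2 hK
  refine h4.trans ?_
  have e : Real.exp (-(1 - (A - 1) / M) * t) = Real.exp (-u) * Real.exp (-t) * Real.exp (A * u) := by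
    rw [← Real.exp_add, ← Real.exp_add]; congr 1; rw [hu]; ring
  rw [e]
  have h5 : (1 + 2 * u) * (1 + 2 * t) ≤ (1 + 2 * t) ^ 2 := by nlinarith
  have h6 : 0 ≤ K * (Real.exp (-u) * Real.exp (-t) * Real.exp (A * u)) := by positivity
  calc _ = K * (Real.exp (-u) * Real.exp (-t) * Real.exp (A * u)) * ((1 + 2 * u) * (1 + 2 * t)) := by
        ring
    _ ≤ K * (Real.exp (-u) * Real.exp (-t) * Real.exp (A * u)) * (1 + 2 * t) ^ 2 :=
      mul_le_mul_of_nonneg_left h5 h6
    _ = _ := by ring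

/-- Rewriting of the integrand. -/
lemma LLfun_rw {M : ℕ} (hM : 0 < M) (s : ℂ) {t : ℝ} (ht : 0 < t) :
    (Complex.sinh ((M - 2 * s - 1) * t / M) / (2 * Complex.sinh (t / M)) + s - (M - 1) / 2) /
      (t * Complex.sinh t) =
    ((sinh (((M : ℂ) - 2 * s - 1) * ((t / M : ℝ) : ℂ)) -
      ((M : ℂ) - 2 * s - 1) * sinh (((t / M : ℝ) : ℂ))) / 2) / sinh ((t : ℂ) / M) /
      (t * sinh (t : ℂ)) := by
  have hMr : (0 : ℝ) < M := by exact_mod_cast hM
  have hu : 0 < t / M := by positivity
  have hsu : sinh ((t : ℂ) / M) ≠ 0 := by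
    have h := Clausen_sinh_norm hu
    have hp := Real.sinh_pos_iff.2 hu
    intro h0
    have e : (((t / M : ℝ)) : ℂ) = (t : ℂ) / M := by push_cast; rfl
    rw [e, h0, norm_zero] at h
    linarith
  have e : (((t / M : ℝ)) : ℂ) = (t : ℂ) / M := by push_cast; rfl
  rw [e]
  have e2 : ((M : ℂ) - 2 * s - 1) * ((t : ℂ) / M) = (M - 2 * s - 1) * t / M := by ring
  rw [e2]
  congr 1
  field_simp
  ring

lemma LLfun_meas (M : ℕ) (s : ℂ) : MeasureTheory.AEStronglyMeasurable
    (fun t : ℝ => (Complex.sinh ((M - 2 * s - 1) * t / M) / (2 * Complex.sinh (t / M)) + s -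
      (M - 1) / 2) / (t * Complex.sinh t)) (MeasureTheory.volume.restrict (Set.Ioi 0)) := by
  apply Measurable.aestronglyMeasurable
  fun_prop

theorem LL_integrable (M : ℕ) (hM : 0 < M) (s : ℂ) (h0 : -1 < s.re) (h1 : s.re < M) :
    MeasureTheory.IntegrableOn (fun t : ℝ =>
      (Complex.sinh ((M - 2 * s - 1) * t / M) / (2 * Complex.sinh (t / M)) + s - (M - 1) / 2) /
        (t * Complex.sinh t)) (Set.Ioi 0) := by
  have hMr : (0 : ℝ) < M := by exact_mod_cast hM
  set d : ℂ := (M : ℂ) - 2 * s - 1 with hd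
  have hre := LLfun_re M s h0 h1
  rw [← hd] at hre
  set A : ℝ := max 1 |d.re| with hA
  have hA1 : 1 ≤ A := le_max_left _ _
  have hA2 : |d.re| ≤ A := le_max_right _ _
  have hA3 : A < M + 1 := max_lt (by linarith) hre
  have hb : 0 < 1 - (A - 1) / M := by
    rw [sub_pos, div_lt_one hMr]; linarith
  refine MeasureTheory.Integrable.mono' (Clausen_majorant hb ((‖d‖ ^ 3 + ‖d‖) / 2))
    (LLfun_meas M s) ?_
  refine (MeasureTheory.ae_restrict_iff' measurableSet_Ioi).2 (Filter.Eventually.of_forall ?_)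
  intro t ht
  have ht' : 0 < t := ht
  rw [LLfun_rw hM s ht']
  apply LLfun_bound hM ht' hA1 (by positivity)
  have h := LLfun_num d (u := t / M) (by positivity) hA1 hA2
  rw [norm_div]
  have e2 : ‖(2 : ℂ)‖ = 2 := by simp
  rw [e2, div_le_iff₀ (by norm_num)]
  calc _ ≤ _ := h
    _ = _ := by ring

lemma LLfun_nhds (M : ℕ) (hM : 0 < M) (s : ℂ) (h0 : -1 < s.re) (h1 : s.re < M) : ∃ A K : ℝ, 1 ≤ A ∧
    A < M + 1 ∧ 0 ≤ K ∧
    {x : ℂ | |((M : ℂ) - 2 * x - 1).re| ≤ A ∧ ‖(M : ℂ) - 2 * x - 1‖ ≤ K} ∈ nhds s := by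
  have hre := LLfun_re M s h0 h1
  have hMpos : (0 : ℝ) < M := by exact_mod_cast hM
  refine ⟨max 1 ((|((M : ℂ) - 2 * s - 1).re| + (M + 1)) / 2), ‖(M : ℂ) - 2 * s - 1‖ + 1,
    le_max_left _ _, max_lt (by linarith) (by linarith), by positivity, ?_⟩
  have hc1 : Continuous fun x : ℂ => |((M : ℂ) - 2 * x - 1).re| := by fun_prop
  have hc2 : Continuous fun x : ℂ => ‖(M : ℂ) - 2 * x - 1‖ := by fun_prop
  have e1 := hc1.continuousAt.eventually (gt_mem_nhds (show |((M : ℂ) - 2 * s - 1).re| <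
    max 1 ((|((M : ℂ) - 2 * s - 1).re| + (M + 1)) / 2) from
      lt_of_lt_of_le (by linarith) (le_max_right _ _)))
  have e2 := hc2.continuousAt.eventually (gt_mem_nhds (show ‖(M : ℂ) - 2 * s - 1‖ <
    ‖(M : ℂ) - 2 * s - 1‖ + 1 by linarith))
  filter_upwards [e1, e2] with x hx1 hx2
  exact ⟨hx1.le, hx2.le⟩

theorem LL_differentiableAt (M : ℕ) (hM : 0 < M) (s : ℂ) (h0 : -1 < s.re) (h1 : s.re < M) :
    DifferentiableAt ℂ (LL M) s := by
  have hMr : (0 : ℝ) < M := by exact_mod_cast hM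
  have hMc : (M : ℂ) ≠ 0 := by exact_mod_cast hM.ne'
  obtain ⟨A, K, hA1, hA2, hK, hs⟩ := LLfun_nhds M hM s h0 h1
  have hb : 0 < 1 - (A - 1) / M := by
    rw [sub_pos, div_lt_one hMr]; linarith
  have h := hasDerivAt_integral_of_dominated_loc_of_deriv_le (𝕜 := ℂ)
    (μ := MeasureTheory.volume.restrict (Set.Ioi (0 : ℝ)))
    (F := fun (s : ℂ) (t : ℝ) =>
      (Complex.sinh ((M - 2 * s - 1) * t / M) / (2 * Complex.sinh (t / M)) + s - (M - 1) / 2) /
        (t * Complex.sinh t))
    (F' := fun (s : ℂ) (t : ℝ) =>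
      (Complex.cosh ((M - 2 * s - 1) * t / M) * (-2 * t / M) / (2 * Complex.sinh (t / M)) + 1) /
        (t * Complex.sinh t))
    (x₀ := s) (s := {x : ℂ | |((M : ℂ) - 2 * x - 1).re| ≤ A ∧ ‖(M : ℂ) - 2 * x - 1‖ ≤ K})
    (bound := fun t => (K ^ 2 + 1) * ((1 + 2 * t) ^ 2 * Real.exp (-(1 - (A - 1) / M) * t))) hs
    (Filter.Eventually.of_forall fun x => LLfun_meas M x)
    (LL_integrable M hM s h0 h1)
    (by
      apply Measurable.aestronglyMeasurable
      fun_prop)
    (by
      refine (MeasureTheory.ae_restrict_iff' measurableSet_Ioi).2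
        (Filter.Eventually.of_forall ?_)
      intro t ht x hx
      have ht' : 0 < t := ht
      set u : ℝ := t / M with hu
      have hupos : 0 < u := by positivity
      have eu : ((u : ℝ) : ℂ) = (t : ℂ) / M := by rw [hu]; push_cast; rfl
      have hsu : sinh ((t : ℂ) / M) ≠ 0 := by
        have h := Clausen_sinh_norm hupos
        have hp := Real.sinh_pos_iff.2 hupos
        intro h0
        rw [eu, h0, norm_zero] at h
        linarith
      set d : ℂ := (M : ℂ) - 2 * x - 1 with hd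
      have e1 : (Complex.cosh (d * t / M) * (-2 * t / M) /
          (2 * Complex.sinh (t / M)) + 1) / (t * Complex.sinh t) =
          ((sinh ((u : ℝ) : ℂ) - u) - u * (cosh (d * ((u : ℝ) : ℂ)) - 1)) / sinh ((t : ℂ) / M) /
            (t * sinh (t : ℂ)) := by
        rw [eu]
        have e2 : d * ((t : ℂ) / M) = d * t / M := by ring
        rw [e2]
        congr 1
        field_simp
        ring
      rw [e1]
      apply LLfun_bound hM ht' hA1 (by positivity)
      rw [← hu]
      have g1 := Clausen_norm_sinh_sub_le (u : ℂ)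
      have g2 := Clausen_hh_norm d hupos
      rw [Complex.norm_real, Real.norm_of_nonneg hupos.le, Complex.ofReal_re] at g1
      have hA0 : 0 ≤ A := by linarith
      have c1 : Real.cosh (d.re * u) ≤ Real.cosh (A * u) := by
        apply Clausen_cosh_mono
        rw [abs_mul, abs_mul]
        exact mul_le_mul_of_nonneg_right (hx.1.trans (le_abs_self A)) (abs_nonneg _)
      have c2 : Real.cosh u ≤ Real.cosh (A * u) := by
        apply Clausen_cosh_mono
        rw [abs_mul, abs_of_nonneg hA0]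
        nlinarith [abs_nonneg u]
      have hdK : ‖d‖ ^ 2 ≤ K ^ 2 := pow_le_pow_left₀ (norm_nonneg _) hx.2 2
      refine (norm_sub_le _ _).trans ?_
      rw [norm_mul, Complex.norm_real, Real.norm_of_nonneg hupos.le]
      have hc := Real.cosh_pos (A * u)
      have hc' := Real.cosh_pos (d.re * u)
      calc ‖sinh (u : ℂ) - u‖ + u * ‖cosh (d * u) - 1‖
          ≤ u ^ 3 * Real.cosh u + u * (‖d‖ ^ 2 * u ^ 2 * Real.cosh (d.re * u)) :=
            add_le_add g1 (mul_le_mul_of_nonneg_left g2 hupos.le)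
        _ ≤ u ^ 3 * Real.cosh (A * u) + u * (K ^ 2 * u ^ 2 * Real.cosh (A * u)) := by
            apply add_le_add
            · exact mul_le_mul_of_nonneg_left c2 (by positivity)
            · apply mul_le_mul_of_nonneg_left _ hupos.le
              apply mul_le_mul _ c1 hc'.le (by positivity)
              exact mul_le_mul_of_nonneg_right hdK (by positivity)
        _ = _ := by ring)
    (Clausen_majorant hb _)
    (by
      refine (MeasureTheory.ae_restrict_iff' measurableSet_Ioi).2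
        (Filter.Eventually.of_forall ?_)
      intro t ht x hx
      have h2 : HasDerivAt (fun x : ℂ => ((M : ℂ) - 2 * x - 1) * t / M) (-2 * t / M) x := by
        have := (((((hasDerivAt_id x).const_mul (2 : ℂ)).const_sub (M : ℂ)).sub_const 1).mul_const
          (t : ℂ)).div_const (M : ℂ)
        simpa using this
      have h3 := ((((Complex.hasDerivAt_sinh _).comp x h2).div_const
        (2 * Complex.sinh (t / M))).add (hasDerivAt_id x)).sub_const (((M : ℂ) - 1) / 2)
      exact h3.div_const _)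
  unfold LL
  have h3 : DifferentiableAt ℂ (fun s : ℂ => (Real.log M : ℂ) / 2 + (s - (M - 1) / 2) *
      (Real.log 2 : ℂ)) s := by fun_prop
  exact h3.add h.2.differentiableAt

theorem LL_step (M : ℕ) (hM : 0 < M) (s : ℂ) (h0 : 0 < s.re) (h1 : s.re < M) :
    LL M s - LL M (s - 1) = hh (s / M) := by
  have hMr : (0 : ℝ) < M := by exact_mod_cast hM
  have hMc : (M : ℂ) ≠ 0 := by exact_mod_cast hM.ne'
  have hre : (s / (M : ℂ)).re = s.re / M := by
    rw [Complex.div_natCast_re]
  have z0 : 0 < (s / (M : ℂ)).re := by rw [hre]; positivity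
  have z1 : (s / (M : ℂ)).re < 1 := by rw [hre, div_lt_one hMr]; exact h1
  have i1 := LL_integrable M hM s (by linarith) h1
  have i2 := LL_integrable M hM (s - 1) (by simp; linarith) (by simp; linarith)
  rw [(hh_integral _ z0 z1).2]
  have key : (∫ t in Set.Ioi (0 : ℝ),
      (Complex.sinh ((M - 2 * s - 1) * t / M) / (2 * Complex.sinh (t / M)) + s - (M - 1) / 2) /
        (t * Complex.sinh t)) - (∫ t in Set.Ioi (0 : ℝ),
      (Complex.sinh ((M - 2 * (s - 1) - 1) * t / M) / (2 * Complex.sinh (t / M)) + (s - 1) -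
        (M - 1) / 2) / (t * Complex.sinh t)) =
      -∫ t in Set.Ioi (0 : ℝ), (cosh ((1 - 2 * (s / M)) * t) - 1) / (t * sinh (t : ℂ)) := by
    rw [← MeasureTheory.integral_sub i1 i2, ← MeasureTheory.integral_neg]
    apply MeasureTheory.setIntegral_congr_fun measurableSet_Ioi
    intro t ht
    have ht' : 0 < t := ht
    have hu : 0 < t / M := by positivity
    have hsu : sinh ((t : ℂ) / M) ≠ 0 := by
      have h := Clausen_sinh_norm hu
      have hp := Real.sinh_pos_iff.2 hu
      intro h0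
      have e : (((t / M : ℝ)) : ℂ) = (t : ℂ) / M := by push_cast; rfl
      rw [e, h0, norm_zero] at h
      linarith
    simp only
    have e1 : ((M : ℂ) - 2 * s - 1) * t / M = (1 - 2 * (s / M)) * t - t / M := by
      field_simp
    have e2 : ((M : ℂ) - 2 * (s - 1) - 1) * t / M = (1 - 2 * (s / M)) * t + t / M := by
      field_simp; ring
    rw [e1, e2, Complex.sinh_sub, Complex.sinh_add, ← sub_div, ← neg_div]
    congr 1
    field_simp
    ring
  unfold LL
  have e : ∀ I1 I2 J : ℂ, I1 - I2 = -J →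
      (Real.log M : ℂ) / 2 + (s - (M - 1) / 2) * (Real.log 2 : ℂ) + I1 -
        ((Real.log M : ℂ) / 2 + (s - 1 - (M - 1) / 2) * (Real.log 2 : ℂ) + I2) =
      (Real.log 2 : ℂ) - J := by
    intro I1 I2 J hJ
    linear_combination hJ
  exact e _ _ _ key

theorem LL_reflect (M : ℕ) (hM : 0 < M) (s : ℂ) :
    LL M s + LL M (M - 1 - s) = Real.log M := by
  unfold LL
  have e : (∫ t in Set.Ioi (0 : ℝ),
      (Complex.sinh ((M - 2 * (M - 1 - s) - 1) * t / M) / (2 * Complex.sinh (t / M)) +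
        (M - 1 - s) - (M - 1) / 2) / (t * Complex.sinh t)) =
      -∫ t in Set.Ioi (0 : ℝ), (Complex.sinh ((M - 2 * s - 1) * t / M) /
        (2 * Complex.sinh (t / M)) + s - (M - 1) / 2) / (t * Complex.sinh t) := by
    rw [← MeasureTheory.integral_neg]
    congr 1
    funext t
    have e1 : ((M : ℂ) - 2 * (M - 1 - s) - 1) * t / M = -((M - 2 * s - 1) * t / M) := by ring
    rw [e1, Complex.sinh_neg]
    ring
  rw [e]
  ring

theorem LL_conj (M : ℕ) (s : ℂ) : LL M ((starRingEnd ℂ) s) = (starRingEnd ℂ) (LL M s) := by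
  unfold LL
  rw [map_add, map_add, map_mul, map_sub, map_div₀, map_div₀, Complex.conj_ofReal,
    Complex.conj_ofReal, ← integral_conj]
  congr 1
  · simp only [map_sub, map_natCast, map_one, map_ofNat]
  · congr 1
    funext t
    simp only [map_div₀, map_sub, map_add, map_mul, map_one, Complex.conj_ofReal,
      ← Complex.sinh_conj, map_ofNat, map_natCast]

theorem LL_nat (M k : ℕ) (h : k < M) : Complex.exp (LL M k) = S M k := by
  have hM : 0 < M := by omega
  have hMr : (0 : ℝ) < M := by exact_mod_cast hM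
  have hMc : (M : ℂ) ≠ 0 := by exact_mod_cast hM.ne'
  -- the step
  have step : ∀ m : ℕ, 1 ≤ m → m < M → Complex.exp (LL M m) =
      (sg M m : ℂ) * Complex.exp (LL M ((m - 1 : ℕ) : ℂ)) := by
    intro m h1 h2
    have hs := LL_step M hM (m : ℂ) (by simp; omega) (by simp; omega)
    have e : ((m : ℂ) - 1) = ((m - 1 : ℕ) : ℂ) := by push_cast [h1]; rfl
    rw [e] at hs
    have e2 : LL M m = hh (m / M) + LL M ((m - 1 : ℕ) : ℂ) := by rw [← hs]; ring
    have hre : ((m : ℂ) / (M : ℂ)).re = (m : ℝ) / M := by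
      rw [Complex.div_natCast_re]; simp
    have z0 : 0 < ((m : ℂ) / (M : ℂ)).re := by
      rw [hre]
      have : (0 : ℝ) < m := by exact_mod_cast h1
      positivity
    have z1 : ((m : ℂ) / (M : ℂ)).re < 1 := by
      rw [hre, div_lt_one hMr]; exact_mod_cast h2
    rw [e2, Complex.exp_add, hh_exp _ z0 z1]
    congr 1
    unfold sg
    push_cast
    congr 2
    ring
  have prod : ∀ m : ℕ, m < M → Complex.exp (LL M m) = (S M m : ℂ) * Complex.exp (LL M 0) := by
    intro m
    induction m with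
    | zero => intro _; simp [S]
    | succ m ih =>
      intro h1
      rw [step (m + 1) (by omega) h1]
      have e : m + 1 - 1 = m := by omega
      rw [e, ih (by omega)]
      have e2 : S M (m + 1) = S M m * sg M (m + 1) := by
        unfold S
        rw [Finset.prod_Ico_succ_top (by omega)]
      rw [e2]
      push_cast
      ring
  -- `LL 0 = 0`
  have hreal : ∃ c : ℝ, LL M 0 = (c : ℂ) := by
    have hc := LL_conj M 0
    rw [map_zero] at hc
    exact Complex.conj_eq_iff_real.1 hc.symm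
  obtain ⟨c, hc⟩ := hreal
  have hrefl := LL_reflect M hM 0
  have e : ((M : ℂ) - 1 - 0) = ((M - 1 : ℕ) : ℂ) := by push_cast [hM]; ring
  rw [e] at hrefl
  have h1 : Complex.exp (LL M 0 + LL M ((M - 1 : ℕ) : ℂ)) = (M : ℂ) := by
    rw [hrefl, ← Complex.ofReal_exp, Real.exp_log hMr]
    push_cast; rfl
  rw [Complex.exp_add, prod (M - 1) (by omega), S_full M hM, hc] at h1
  have h2 : Real.exp c * Real.exp c = 1 := by
    have h3 : (Complex.exp (c : ℂ)) * (Complex.exp (c : ℂ)) = 1 := by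
      have h4 : (M : ℂ) * (Complex.exp (c : ℂ) * Complex.exp (c : ℂ)) = M * 1 := by
        rw [mul_one]
        calc (M : ℂ) * (Complex.exp (c : ℂ) * Complex.exp (c : ℂ)) =
            Complex.exp (c : ℂ) * (((M : ℝ) : ℂ) * Complex.exp (c : ℂ)) := by push_cast; ring
          _ = _ := h1
      exact mul_left_cancel₀ hMc h4
    rw [← Complex.ofReal_exp] at h3
    exact_mod_cast h3
  have h3 : c = 0 := by
    rw [← Real.exp_add] at h2
    have := Real.exp_eq_one_iff (c + c) |>.1 h2
    linarith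
  rw [prod k h, hc, h3]
  simp

theorem LL_deriv_step (M : ℕ) (hM : 0 < M) (s : ℂ) (h0 : 0 < s.re) (h1 : s.re < M) :
    deriv (LL M) s - deriv (LL M) (s - 1) = Real.pi / M * Complex.cot (Real.pi * s / M) := by
  have hMr : (0 : ℝ) < M := by exact_mod_cast hM
  have hMc : (M : ℂ) ≠ 0 := by exact_mod_cast hM.ne'
  have hre : (s / (M : ℂ)).re = s.re / M := by
    rw [Complex.div_natCast_re]
  have z0 : 0 < (s / (M : ℂ)).re := by rw [hre]; positivity
  have z1 : (s / (M : ℂ)).re < 1 := by rw [hre, div_lt_one hMr]; exact h1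
  have d1 := (LL_differentiableAt M hM s (by linarith) h1).hasDerivAt
  have d2 := (LL_differentiableAt M hM (s - 1) (by simp; linarith) (by simp; linarith)).hasDerivAt
  have d3 : HasDerivAt (fun s : ℂ => LL M (s - 1)) (deriv (LL M) (s - 1)) s := by
    have := d2.comp s ((hasDerivAt_id s).sub_const 1)
    simpa [Function.comp_def] using this
  have d4 := d1.sub d3
  have d5 : HasDerivAt (fun s : ℂ => hh (s / M))
      (Real.pi * Complex.cot (Real.pi * (s / M)) * (1 / M)) s := by
    have := (hh_hasDerivAt _ z0 z1).comp s ((hasDerivAt_id s).div_const (M : ℂ))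
    simpa [Function.comp_def] using this
  have heq : (fun s : ℂ => LL M s - LL M (s - 1)) =ᶠ[nhds s] fun s : ℂ => hh (s / M) := by
    have o1 : {z : ℂ | 0 < z.re} ∈ nhds s :=
      (isOpen_lt continuous_const Complex.continuous_re).mem_nhds h0
    have o2 : {z : ℂ | z.re < (M : ℝ)} ∈ nhds s :=
      (isOpen_lt Complex.continuous_re continuous_const).mem_nhds h1
    filter_upwards [o1, o2] with z hz1 hz2
    exact LL_step M hM z hz1 hz2
  have d6 := d5.congr_of_eventuallyEq heq
  have := d4.unique d6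
  rw [this, show (Real.pi : ℂ) * (s / M) = Real.pi * s / M by ring]
  ring

end Pool.Agent.H63.VC3
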