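import Pool.Agent.H63.VC3.LLfun

/-! # Comparison of `LL` with `ff` -/

namespace Pool.Agent.H63.VC3

open Pool.Agent.H63.VC Complex

private theorem LLasym_sinh_le (x : ℝ) (hx : 0 ≤ x) : Real.sinh x ≤ x * Real.cosh x := by
  have hd : ∀ y : ℝ, HasDerivAt (fun y : ℝ => y * Real.cosh y - Real.sinh y)
      (y * Real.sinh y) y := by
    intro y
    have h := ((hasDerivAt_id y).mul (Real.hasDerivAt_cosh y)).sub (Real.hasDerivAt_sinh y)
    refine h.congr_deriv ?_
    simp
  have hm : MonotoneOn (fun y : ℝ => y * Real.cosh y - Real.sinh y) (Set.Ici 0) := by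
    refine monotoneOn_of_deriv_nonneg (convex_Ici 0)
      (fun y _ => (hd y).continuousAt.continuousWithinAt)
      (fun y _ => (hd y).differentiableAt.differentiableWithinAt) fun y hy => ?_
    rw [interior_Ici, Set.mem_Ioi] at hy
    rw [(hd y).deriv]
    exact mul_nonneg hy.le (Real.sinh_nonneg_iff.2 hy.le)
  have := hm (Set.mem_Ici.2 le_rfl) (Set.mem_Ici.2 hx) hx
  simp only [zero_mul, Real.sinh_zero, sub_zero] at this
  linarith

private theorem LLasym_abs_sinh_le (x : ℝ) : |Real.sinh x| ≤ |x| * Real.cosh x := by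
  rcases le_total 0 x with h | h
  · rw [abs_of_nonneg h, abs_of_nonneg (Real.sinh_nonneg_iff.2 h)]
    exact LLasym_sinh_le x h
  · rw [abs_of_nonpos h, abs_of_nonpos (Real.sinh_nonpos_iff.2 h), ← Real.sinh_neg,
      ← Real.cosh_neg]
    exact LLasym_sinh_le (-x) (by linarith)

private theorem LLasym_csinh (w : ℂ) : ‖Complex.sinh w‖ ≤ (|w.re| + |w.im|) * Real.cosh w.re := by
  have h : Complex.sinh w = (Real.sinh w.re * Real.cos w.im : ℝ) +
      (Real.cosh w.re * Real.sin w.im : ℝ) * I := by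
    conv_lhs => rw [← Complex.re_add_im w]
    rw [Complex.sinh_add, Complex.cosh_mul_I, Complex.sinh_mul_I]
    push_cast
    ring
  rw [h]
  refine (norm_add_le _ _).trans ?_
  rw [norm_mul, Complex.norm_I, mul_one, Complex.norm_real, Complex.norm_real, Real.norm_eq_abs,
    Real.norm_eq_abs, abs_mul, abs_mul, abs_of_pos (Real.cosh_pos w.re)]
  have h1 := LLasym_abs_sinh_le w.re
  have h2 : |Real.cos w.im| ≤ 1 := Real.abs_cos_le_one _
  have h3 : |Real.sin w.im| ≤ |w.im| := Real.abs_sin_le_abs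
  have h4 : |Real.sinh w.re| * |Real.cos w.im| ≤ |w.re| * Real.cosh w.re * 1 := by
    refine mul_le_mul h1 h2 (abs_nonneg _) ?_
    exact mul_nonneg (abs_nonneg _) (Real.cosh_pos _).le
  have h5 : Real.cosh w.re * |Real.sin w.im| ≤ Real.cosh w.re * |w.im| :=
    mul_le_mul_of_nonneg_left h3 (Real.cosh_pos _).le
  nlinarith

private theorem LLasym_inv (x : ℝ) (hx : 0 < x) :
    |1 / Real.sinh x - 1 / x| ≤ x / 2 := by
  have hs : 0 < Real.sinh x := Real.sinh_pos_iff.2 hx
  have h1 : x ≤ Real.sinh x := Real.self_le_sinh_iff.2 hx.le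
  have h2 : Real.sinh x ≤ x * Real.cosh x := LLasym_sinh_le x hx.le
  have h3 : Real.sinh (x / 2) ≤ x / 2 * Real.cosh (x / 2) := LLasym_sinh_le (x / 2) (by linarith)
  have h4 : Real.cosh x - 1 = 2 * Real.sinh (x / 2) ^ 2 := by
    have := Real.cosh_two_mul (x / 2)
    have e := Real.cosh_sq (x / 2)
    rw [show 2 * (x / 2) = x by ring] at this
    linarith
  have h5 : Real.sinh x = 2 * Real.sinh (x / 2) * Real.cosh (x / 2) := by
    have := Real.sinh_two_mul (x / 2)
    rwa [show 2 * (x / 2) = x by ring] at this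
  have hs2 : 0 ≤ Real.sinh (x / 2) := Real.sinh_nonneg_iff.2 (by linarith)
  have h6 : Real.cosh x - 1 ≤ x / 2 * Real.sinh x := by
    rw [h4, h5]
    nlinarith
  have h7 : Real.sinh x - x ≤ x * (x / 2 * Real.sinh x) := by nlinarith
  rw [abs_sub_comm, abs_of_nonneg]
  · rw [div_sub_div _ _ hx.ne' hs.ne', div_le_div_iff₀ (by positivity) (by norm_num)]
    nlinarith
  · rw [sub_nonneg]
    exact one_div_le_one_div_of_le hx h1

private theorem LLasym_frac (t c a : ℝ) (ht : 0 < t) (hc : 0 < c) (ha : |a| ≤ 1 - 2 * c) :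
    t / Real.sinh t * Real.cosh (a * t) ≤ (1 + 2 / c) * Real.exp (-c * t) := by
  have hs : 0 < Real.sinh t := Real.sinh_pos_iff.2 ht
  have h1 : Real.cosh (a * t) ≤ Real.exp ((1 - 2 * c) * t) := by
    rw [← Real.cosh_abs, abs_mul, abs_of_pos ht]
    have : Real.cosh (|a| * t) ≤ Real.exp (|a| * t) := by
      rw [Real.cosh_eq]
      have : Real.exp (-(|a| * t)) ≤ Real.exp (|a| * t) :=
        Real.exp_le_exp.2 (by nlinarith [abs_nonneg a])
      linarith
    exact this.trans (Real.exp_le_exp.2 (by nlinarith))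
  have h2 : t / Real.sinh t ≤ (1 + 2 * t) * Real.exp (-t) := by
    rw [div_le_iff₀ hs, Real.sinh_eq]
    have e1 : Real.exp (-t) * Real.exp t = 1 := by rw [← Real.exp_add]; simp
    have e2 : Real.exp (-t) * Real.exp (-t) = Real.exp (-(2 * t)) := by
      rw [← Real.exp_add]; congr 1; ring
    have e3 : Real.exp (-(2 * t)) * (1 + 2 * t) ≤ 1 := by
      have h := Real.add_one_le_exp (2 * t)
      have h' : Real.exp (-(2 * t)) * Real.exp (2 * t) = 1 := by rw [← Real.exp_add]; simp
      nlinarith [Real.exp_pos (-(2 * t))]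
    have : (1 + 2 * t) * Real.exp (-t) * ((Real.exp t - Real.exp (-t)) / 2) =
        ((1 + 2 * t) - Real.exp (-(2 * t)) * (1 + 2 * t)) / 2 := by
      rw [← e2]
      linear_combination ((1 + 2 * t) / 2) * e1
    rw [this]
    linarith
  have h3 : t / Real.sinh t * Real.cosh (a * t) ≤
      ((1 + 2 * t) * Real.exp (-t)) * Real.exp ((1 - 2 * c) * t) :=
    mul_le_mul h2 h1 (Real.cosh_pos _).le (by positivity)
  refine h3.trans ?_
  have h4 : ((1 + 2 * t) * Real.exp (-t)) * Real.exp ((1 - 2 * c) * t) =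
      (1 + 2 * t) * Real.exp (-c * t) * Real.exp (-c * t) := by
    rw [mul_assoc, mul_assoc, ← Real.exp_add, ← Real.exp_add]
    congr 2
    ring
  rw [h4]
  have h5 : (1 + 2 * t) * Real.exp (-c * t) ≤ 1 + 2 / c := by
    have h := Real.add_one_le_exp (c * t)
    have h' : Real.exp (-c * t) * Real.exp (c * t) = 1 := by
      rw [← Real.exp_add]
      simp
    have h6 : 1 + 2 * t ≤ (1 + 2 / c) * (c * t + 1) := by
      have : (1 + 2 / c) * (c * t + 1) = 1 + 2 * t + c * t + 2 / c := by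
        field_simp
        ring
      rw [this]
      have : 0 ≤ c * t + 2 / c := by positivity
      linarith
    calc (1 + 2 * t) * Real.exp (-c * t) ≤ ((1 + 2 / c) * (c * t + 1)) * Real.exp (-c * t) :=
          mul_le_mul_of_nonneg_right h6 (Real.exp_pos _).le
      _ ≤ ((1 + 2 / c) * Real.exp (c * t)) * Real.exp (-c * t) := by
          refine mul_le_mul_of_nonneg_right ?_ (Real.exp_pos _).le
          exact mul_le_mul_of_nonneg_left h (by positivity)
      _ = 1 + 2 / c := by rw [mul_assoc, mul_comm (Real.exp (c * t)), h', mul_one]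
  exact mul_le_mul_of_nonneg_right h5 (Real.exp_pos _).le

/-- Comparison with `ff`, uniform on compact subsets of the strip. -/
theorem LL_asym (c B : ℝ) (hc : 0 < c) : ∃ C : ℝ, 0 < C ∧ ∀ M : ℕ, 1 ≤ M → ∀ z : ℂ, c ≤ z.re →
    z.re ≤ 1 - c → |z.im| ≤ B → ‖LL M (M * z - 1 / 2) - Real.log M / 2 - M * ff z‖ ≤ C / M := by
  refine ⟨(1 + 2 * |B|) / 4 * (1 + 2 / c) * (1 / c), by positivity, fun M hM z h1 h2 h3 => ?_⟩
  have hM0 : (0 : ℝ) < M := by exact_mod_cast hM
  have hMc : (M : ℂ) ≠ 0 := by exact_mod_cast hM0.ne'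
  have hs0 : -1 < ((M : ℂ) * z - 1 / 2).re := by
    have : ((M : ℂ) * z - 1 / 2).re = M * z.re - 1 / 2 := by simp
    rw [this]
    nlinarith
  have hs1 : ((M : ℂ) * z - 1 / 2).re < M := by
    have : ((M : ℂ) * z - 1 / 2).re = M * z.re - 1 / 2 := by simp
    rw [this]
    nlinarith
  have i1 := LL_integrable M hM _ hs0 hs1
  have i2 := ff_integrable z (by linarith) (by linarith)
  have e0 : LL M (M * z - 1 / 2) - Real.log M / 2 - M * ff z =
      ∫ t in Set.Ioi (0 : ℝ), ((Complex.sinh ((M - 2 * ((M : ℂ) * z - 1 / 2) - 1) * t / M) /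
        (2 * Complex.sinh (t / M)) + ((M : ℂ) * z - 1 / 2) - (M - 1) / 2) /
        (t * Complex.sinh t) - M * ((Complex.sinh ((1 - 2 * z) * t) / (2 * t) - (1 - 2 * z) / 2) /
        (t * Complex.sinh t))) := by
    rw [MeasureTheory.integral_sub i1 (i2.const_mul _), MeasureTheory.integral_const_mul]
    unfold LL ff
    ring
  rw [e0]
  have hg : MeasureTheory.IntegrableOn (fun t : ℝ => (1 + 2 * |B|) / (4 * M) *
      ((1 + 2 / c) * Real.exp (-c * t))) (Set.Ioi 0) :=
    ((integrableOn_exp_mul_Ioi (a := -c) (by linarith) 0).const_mul _).const_mul _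
  refine (MeasureTheory.norm_integral_le_of_norm_le hg ?_).trans ?_
  · refine (MeasureTheory.ae_restrict_iff' measurableSet_Ioi).2 (Filter.Eventually.of_forall ?_)
    intro t ht
    rw [Set.mem_Ioi] at ht
    have hx : 0 < t / M := div_pos ht hM0
    have hsx : 0 < Real.sinh (t / M) := Real.sinh_pos_iff.2 hx
    have hst : 0 < Real.sinh t := Real.sinh_pos_iff.2 ht
    have hsxc : Complex.sinh ((t : ℂ) / M) = ((Real.sinh (t / M) : ℝ) : ℂ) := by
      push_cast; rfl
    have hstc : Complex.sinh (t : ℂ) = ((Real.sinh t : ℝ) : ℂ) := by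
      push_cast; rfl
    have hsxc0 : ((Real.sinh (t / M) : ℝ) : ℂ) ≠ 0 := by exact_mod_cast hsx.ne'
    have hstc0 : ((Real.sinh t : ℝ) : ℂ) ≠ 0 := by exact_mod_cast hst.ne'
    have htc0 : (t : ℂ) ≠ 0 := by exact_mod_cast ht.ne'
    have ecs : (M - 2 * ((M : ℂ) * z - 1 / 2) - 1) * t / M = (1 - 2 * z) * t := by
      field_simp
      ring
    have e1 : ((Complex.sinh ((M - 2 * ((M : ℂ) * z - 1 / 2) - 1) * t / M) /
        (2 * Complex.sinh (t / M)) + ((M : ℂ) * z - 1 / 2) - (M - 1) / 2) /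
        (t * Complex.sinh t) - M * ((Complex.sinh ((1 - 2 * z) * t) / (2 * t) - (1 - 2 * z) / 2) /
        (t * Complex.sinh t))) =
        Complex.sinh ((1 - 2 * z) * t) *
          (((1 / Real.sinh (t / M) - 1 / (t / M)) : ℝ) : ℂ) / 2 / ((t * Real.sinh t : ℝ) : ℂ) := by
      rw [ecs, hsxc, hstc]
      push_cast
      rw [← hsxc, ← hstc] at *
      field_simp
      ring
    rw [e1, norm_div, norm_div, norm_mul, Complex.norm_real, Complex.norm_real, Real.norm_eq_abs,
      Real.norm_eq_abs, abs_of_pos (mul_pos ht hst)]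
    have n1 := LLasym_csinh ((1 - 2 * z) * t)
    have hre : ((1 - 2 * z) * t).re = (1 - 2 * z.re) * t := by simp
    have him : ((1 - 2 * z) * t).im = (-2 * z.im) * t := by simp
    rw [hre, him, abs_mul, abs_mul, abs_of_pos ht] at n1
    have ha : |1 - 2 * z.re| ≤ 1 - 2 * c := abs_le.2 ⟨by linarith, by linarith⟩
    have hb : |(-2) * z.im| ≤ 2 * |B| := by
      rw [abs_mul, abs_neg, abs_two]
      have := h3.trans (le_abs_self B)
      linarith
    have n2 : (|1 - 2 * z.re| * t + |(-2) * z.im| * t) * Real.cosh ((1 - 2 * z.re) * t) ≤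
        ((1 + 2 * |B|) * t) * Real.cosh ((1 - 2 * z.re) * t) := by
      refine mul_le_mul_of_nonneg_right ?_ (Real.cosh_pos _).le
      nlinarith
    have n3 := LLasym_inv (t / M) hx
    have n4 := LLasym_frac t c (1 - 2 * z.re) ht hc ha
    have n5 : ‖Complex.sinh ((1 - 2 * z) * t)‖ * |1 / Real.sinh (t / M) - 1 / (t / M)| ≤
        ((1 + 2 * |B|) * t) * Real.cosh ((1 - 2 * z.re) * t) * (t / M / 2) :=
      mul_le_mul (n1.trans n2) n3 (abs_nonneg _) (by positivity)
    have h2n : ‖(2 : ℂ)‖ = 2 := by simp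
    rw [h2n]
    calc ‖Complex.sinh ((1 - 2 * z) * t)‖ * |1 / Real.sinh (t / M) - 1 / (t / M)| / 2 /
          (t * Real.sinh t)
        ≤ ((1 + 2 * |B|) * t) * Real.cosh ((1 - 2 * z.re) * t) * (t / M / 2) / 2 /
          (t * Real.sinh t) := by gcongr
      _ = (1 + 2 * |B|) / (4 * M) * (t / Real.sinh t * Real.cosh ((1 - 2 * z.re) * t)) := by
          field_simp
          ring
      _ ≤ (1 + 2 * |B|) / (4 * M) * ((1 + 2 / c) * Real.exp (-c * t)) := by
          refine mul_le_mul_of_nonneg_left n4 (by positivity)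
  · rw [MeasureTheory.integral_const_mul, MeasureTheory.integral_const_mul,
      integral_exp_mul_Ioi (a := -c) (by linarith) 0]
    apply le_of_eq
    simp only [mul_zero, Real.exp_zero]
    field_simp

end Pool.Agent.H63.VC3
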