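import Pool.Agent.H63.VC3.Rel
import Pool.Agent.H63.VC.SWpos

/-! # Positivity of the shapes -/

namespace Pool.Agent.H63.VC3

open Pool.Agent.H63.VC Complex

/-- `Im (sinh (l σ) conj (sinh (k σ))) < 0`, `σ = a - i b`. -/
private theorem Pos_im (a b : ℝ) (ha : 0 < a) (hb : 0 < b)
    (k l : ℕ) (hk : 1 ≤ k) (hkl : k < l) (hxpi' : ((l : ℝ) - k) * b < Real.pi)
    (hy2' : ((l : ℝ) + k) * b < 2 * Real.pi) :
    (Real.sinh (l * a) * Real.cos (l * b)) * (Real.cosh (k * a) * Real.sin (k * b)) -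
      (Real.cosh (l * a) * Real.sin (l * b)) * (Real.sinh (k * a) * Real.cos (k * b)) < 0 := by
  have hkR : (1 : ℝ) ≤ k := by exact_mod_cast hk
  have hklR : (k : ℝ) < l := by exact_mod_cast hkl
  set x : ℝ := (l - k) * b with hx
  set y : ℝ := (l + k) * b with hy
  have hx0 : 0 < x := mul_pos (by linarith) hb
  have hxy : x < y := mul_lt_mul_of_pos_right (by linarith) hb
  have hxpi : x < Real.pi := hxpi'
  have hy2 : y < 2 * Real.pi := hy2'
  have hid : (Real.sinh (l * a) * Real.cos (l * b)) * (Real.cosh (k * a) * Real.sin (k * b)) -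
      (Real.cosh (l * a) * Real.sin (l * b)) * (Real.sinh (k * a) * Real.cos (k * b)) =
      (1 / 2) * (Real.sinh ((l - k) * a) * Real.sin y - Real.sinh ((l + k) * a) * Real.sin x) := by
    have e1 : Real.sin y = Real.sin (l * b) * Real.cos (k * b) +
        Real.cos (l * b) * Real.sin (k * b) := by
      rw [hy, add_mul, Real.sin_add]
    have e2 : Real.sin x = Real.sin (l * b) * Real.cos (k * b) -
        Real.cos (l * b) * Real.sin (k * b) := by
      rw [hx, sub_mul, Real.sin_sub]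
    have e3 : Real.sinh ((l + k) * a) = Real.sinh (l * a) * Real.cosh (k * a) +
        Real.cosh (l * a) * Real.sinh (k * a) := by
      rw [add_mul, Real.sinh_add]
    have e4 : Real.sinh ((l - k) * a) = Real.sinh (l * a) * Real.cosh (k * a) -
        Real.cosh (l * a) * Real.sinh (k * a) := by
      rw [sub_mul, Real.sinh_sub]
    rw [e1, e2, e3, e4]
    ring
  rw [hid]
  have hB : 0 < Real.sinh ((l - k) * a) := Real.sinh_pos_iff.2 (mul_pos (by linarith) ha)
  have hA : 0 < Real.sinh ((l + k) * a) := Real.sinh_pos_iff.2 (mul_pos (by linarith) ha)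
  have hQ : 0 < Real.sin x := Real.sin_pos_of_pos_of_lt_pi hx0 hxpi
  have hAQ := mul_pos hA hQ
  rcases le_or_gt (Real.sin y) 0 with hP | hP
  · nlinarith [mul_nonneg hB.le (neg_nonneg.2 hP)]
  · have hypi : y < Real.pi := by
      by_contra hcon
      push Not at hcon
      have h1 : Real.sin y ≤ 0 := by
        have h2 : Real.sin (y - Real.pi) = -Real.sin y := Real.sin_sub_pi y
        have h3 : 0 ≤ Real.sin (y - Real.pi) :=
          Real.sin_nonneg_of_nonneg_of_le_pi (by linarith) (by linarith)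
        linarith
      linarith
    have h1 := SWpos_sin x y hx0 hxy hypi.le
    have h2 := SWpos_sinh ((l - k) * a) ((l + k) * a) (mul_pos (by linarith) ha)
      (mul_lt_mul_of_pos_right (by linarith) ha)
    have h3 : ((l : ℝ) - k) * Real.sin y < (l + k) * Real.sin x := by
      have : b * (((l : ℝ) - k) * Real.sin y) < b * ((l + k) * Real.sin x) := by
        rw [hx, hy] at h1
        calc b * (((l : ℝ) - k) * Real.sin y) = (l - k) * b * Real.sin y := by ring
          _ < (l + k) * b * Real.sin x := by rw [hx, hy]; exact h1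
          _ = _ := by ring
      exact lt_of_mul_lt_mul_left this hb.le
    have h4 : ((l : ℝ) + k) * Real.sinh ((l - k) * a) < (l - k) * Real.sinh ((l + k) * a) := by
      have : a * (((l : ℝ) + k) * Real.sinh ((l - k) * a)) <
          a * ((l - k) * Real.sinh ((l + k) * a)) := by
        calc a * (((l : ℝ) + k) * Real.sinh ((l - k) * a))
            = (l + k) * a * Real.sinh ((l - k) * a) := by ring
          _ < (l - k) * a * Real.sinh ((l + k) * a) := h2
          _ = _ := by ring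
      exact lt_of_mul_lt_mul_left this ha.le
    have h5 : (((l : ℝ) - k) * Real.sin y) * ((l + k) * Real.sinh ((l - k) * a)) <
        ((l + k) * Real.sin x) * ((l - k) * Real.sinh ((l + k) * a)) :=
      mul_lt_mul'' h3 h4 (mul_nonneg (by linarith) hP.le) (mul_nonneg (by linarith) hB.le)
    have h6 : 0 < ((l : ℝ) - k) * (l + k) := mul_pos (by linarith) (by linarith)
    have h7 : ((l : ℝ) - k) * (l + k) * (Real.sinh ((l - k) * a) * Real.sin y) <
        ((l : ℝ) - k) * (l + k) * (Real.sinh ((l + k) * a) * Real.sin x) := by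
      nlinarith [h5]
    have h8 := lt_of_mul_lt_mul_left h7 h6.le
    linarith

/-- If the last shape of a fan is positively oriented then so are all the others. -/
theorem pos_fan (z : ℂ) (p m : ℕ) (hp : 2 ≤ p) (hm : 2 ≤ m) (hm' : m ≤ 2 * p) (h0 : 0 < z.re)
    (h1 : z.re < 2 / (4 * p - 1)) (h2 : 0 < z.im)
    (htop : 0 < ((Xs (2 * cos (Real.pi * z)) m ^ 2)⁻¹).im) (k : ℕ) (hk : 2 ≤ k) (hkm : k ≤ m) :
    0 < ((Xs (2 * cos (Real.pi * z)) k ^ 2)⁻¹).im := by
  have hpi := Real.pi_pos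
  have hp2 : (2 : ℝ) ≤ p := by exact_mod_cast hp
  rcases Nat.eq_or_lt_of_le hkm with hkp | hkp
  · rw [hkp]; exact htop
  -- the hyperbolic sine formula
  obtain ⟨a, ha⟩ : ∃ a : ℝ, a = Real.pi * z.im := ⟨_, rfl⟩
  obtain ⟨b, hb⟩ : ∃ b : ℝ, b = Real.pi * z.re := ⟨_, rfl⟩
  have ha0 : 0 < a := by rw [ha]; positivity
  have hb0 : 0 < b := by rw [hb]; positivity
  have hbb : (4 * p - 1) * b < 2 * Real.pi := by
    have h4 : (0 : ℝ) < 4 * p - 1 := by linarith
    have h5 : z.re * (4 * p - 1) < 2 := (lt_div_iff₀ h4).1 h1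
    rw [hb]
    nlinarith
  obtain ⟨σ, hσ⟩ : ∃ σ : ℂ, σ = (a : ℂ) - b * Complex.I := ⟨_, rfl⟩
  obtain ⟨y, hy⟩ : ∃ y : ℂ, y = 2 * cos (Real.pi * z) := ⟨_, rfl⟩
  rw [← hy] at htop ⊢
  have hyσ : y = 1 * (2 * Complex.cosh σ) := by
    have e1 : (Real.pi : ℂ) * z = σ * Complex.I := by
      rw [hσ, ha, hb]
      apply Complex.ext <;> simp
    rw [hy, e1, Complex.cos_mul_I, one_mul]
  have hX : ∀ j, Xs y j * Complex.sinh σ = Complex.sinh (j * σ) := by
    intro j
    have h3 := SWpos_Xs σ 1 (by ring) j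
    rw [← hyσ, one_pow, one_mul] at h3
    exact h3
  -- real and imaginary parts
  set P : ℕ → ℝ := fun j => Real.sinh (j * a) * Real.cos (j * b) with hP
  set Q : ℕ → ℝ := fun j => Real.cosh (j * a) * Real.sin (j * b) with hQ
  have hS : ∀ j : ℕ, Complex.sinh (j * σ) = (P j : ℂ) - (Q j : ℂ) * Complex.I := fun j => by
    rw [hσ]
    exact SWpos_sinh_parts a b j
  have hcross : ∀ i j : ℕ, 1 ≤ i → i < j → j ≤ m → P j * Q i - Q j * P i < 0 := by
    intro i j hi hij hj
    have hiR : (1 : ℝ) ≤ i := by exact_mod_cast hi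
    have hijR : (i : ℝ) + 1 ≤ j := by exact_mod_cast hij
    have hjR : (j : ℝ) ≤ 2 * p := by exact_mod_cast hj.trans hm'
    refine Pos_im a b ha0 hb0 i j hi hij ?_ ?_
    · nlinarith [mul_le_mul_of_nonneg_right (show (j : ℝ) - i ≤ 2 * p - 1 by linarith) hb0.le]
    · have := mul_le_mul_of_nonneg_right (show (j : ℝ) + i ≤ 4 * p - 1 by linarith) hb0.le
      linarith
  have hS1 : Complex.sinh σ = (P 1 : ℂ) - (Q 1 : ℂ) * Complex.I := by
    have := hS 1
    simpa using this
  set n : ℝ := P 1 ^ 2 + Q 1 ^ 2 with hn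
  have hP1 : 0 < Q 1 := by
    simp only [hQ, Nat.cast_one, one_mul]
    have h1 : 0 < Real.sin b := by
      apply Real.sin_pos_of_pos_of_lt_pi hb0
      nlinarith
    exact mul_pos (Real.cosh_pos _) h1
  have hn0 : 0 < n := by rw [hn]; positivity
  -- `F j = sinh (j σ) / sinh σ = (U j + i W j) / n`
  set U : ℕ → ℝ := fun j => P j * P 1 + Q j * Q 1 with hU
  set W : ℕ → ℝ := fun j => P j * Q 1 - Q j * P 1 with hW
  have hF : ∀ j : ℕ, Complex.sinh (j * σ) * (n : ℂ) = ((U j : ℂ) + (W j : ℂ) * Complex.I) *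
      Complex.sinh σ := by
    intro j
    rw [hS j, hS1, hn, hU, hW]
    push_cast
    linear_combination (((P j : ℂ) * Q 1 - Q j * P 1) * Q 1) * Complex.I_sq
  have hs0 : Complex.sinh σ ≠ 0 := by
    rw [hS1]
    intro h0
    have h1 := congrArg Complex.im h0
    simp at h1
    linarith
  have hXsq : ∀ j : ℕ, Xs y j ^ 2 * (n : ℂ) ^ 2 = ((U j : ℂ) + (W j : ℂ) * Complex.I) ^ 2 := by
    intro j
    have h1 : (Xs y j * (n : ℂ)) * Complex.sinh σ =
        ((U j : ℂ) + (W j : ℂ) * Complex.I) * Complex.sinh σ := by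
      calc (Xs y j * (n : ℂ)) * Complex.sinh σ = (Xs y j * Complex.sinh σ) * n := by ring
        _ = Complex.sinh (j * σ) * n := by rw [hX j]
        _ = _ := by rw [hF j]
    have h2 := mul_right_cancel₀ hs0 h1
    calc Xs y j ^ 2 * (n : ℂ) ^ 2 = (Xs y j * (n : ℂ)) ^ 2 := by ring
      _ = _ := by rw [h2]
  have him : ∀ j : ℕ, (Xs y j ^ 2).im * n ^ 2 = 2 * (U j * W j) := by
    intro j
    have h1 := congrArg Complex.im (hXsq j)
    have h2 : (Xs y j ^ 2 * (n : ℂ) ^ 2).im = (Xs y j ^ 2).im * n ^ 2 := by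
      rw [← Complex.ofReal_pow, Complex.im_mul_ofReal]
    have h3 : (((U j : ℂ) + (W j : ℂ) * Complex.I) ^ 2).im = 2 * (U j * W j) := by
      rw [sq]
      simp
      ring
    rw [← h2, h1, h3]
  have hWneg : ∀ j : ℕ, 2 ≤ j → j ≤ m → W j < 0 := by
    intro j hj hj2
    exact hcross 1 j le_rfl (by omega) hj2
  have hsign : ∀ w : ℂ, w ≠ 0 → (0 < (w⁻¹).im ↔ w.im < 0) := by
    intro w hw
    rw [Complex.inv_im]
    have h1 : 0 < Complex.normSq w := Complex.normSq_pos.2 hw
    rw [div_pos_iff_of_pos_right h1]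
    constructor <;> intro h <;> linarith
  have hX0 : Xs y m ^ 2 ≠ 0 := by
    intro h0
    rw [h0] at htop
    simp at htop
  have htop' : (Xs y m ^ 2).im < 0 := (hsign _ hX0).1 htop
  have hn2 : 0 < n ^ 2 := by positivity
  have hUtop : 0 < U m := by
    have h1 := him m
    have h2 : 2 * (U m * W m) < 0 := by
      rw [← h1]; exact mul_neg_of_neg_of_pos htop' hn2
    have h3 := hWneg m hm le_rfl
    by_contra hcon
    push Not at hcon
    have h4 := mul_nonneg_of_nonpos_of_nonpos hcon h3.le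
    linarith
  -- the pair `(m, k)`
  have hpair := hcross k m (by omega) hkp le_rfl
  have hid : W m * U k - U m * W k = n * (P m * Q k - Q m * P k) := by
    rw [hU, hW, hn]
    ring
  have hneg : W m * U k - U m * W k < 0 := by
    rw [hid]; exact mul_neg_of_pos_of_neg hn0 hpair
  have hWk := hWneg k hk hkm
  have hWtop := hWneg m hm le_rfl
  have hUk : 0 < U k := by
    have h1 : U m * W k < 0 := mul_neg_of_pos_of_neg hUtop hWk
    by_contra hcon
    push Not at hcon
    have h4 := mul_nonneg_of_nonpos_of_nonpos hWtop.le hcon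
    linarith
  have h1 : (Xs y k ^ 2).im < 0 := by
    have h2 := him k
    have h3 : U k * W k < 0 := mul_neg_of_pos_of_neg hUk hWk
    by_contra hcon
    push Not at hcon
    have h4 := mul_nonneg hcon hn2.le
    linarith
  have h2 : Xs y k ^ 2 ≠ 0 := by
    intro h0
    rw [h0] at h1
    simp at h1
  exact (hsign _ h2).2 h1

private theorem Pos_Xs_conj (y : ℂ) (k : ℕ) :
    Xs ((starRingEnd ℂ) y) k = (starRingEnd ℂ) (Xs y k) := by
  induction k using Nat.strong_induction_on with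
  | _ k ih =>
    match k, ih with
    | 0, _ => simp [Xs]
    | 1, _ => simp [Xs]
    | k + 2, ih =>
      rw [Xs_rec, Xs_rec, ih (k + 1) (by omega), ih k (by omega), map_sub, map_mul]

private theorem Pos_inv_conj (v : ℂ) (k : ℕ) :
    ((Xs (2 * cos (Real.pi * (starRingEnd ℂ) v)) k ^ 2)⁻¹).im =
      -((Xs (2 * cos (Real.pi * v)) k ^ 2)⁻¹).im := by
  have h1 : 2 * cos (Real.pi * (starRingEnd ℂ) v) = (starRingEnd ℂ) (2 * cos (Real.pi * v)) := by
    rw [map_mul, ← Complex.cos_conj, map_mul, Complex.conj_ofReal, map_ofNat]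
  rw [h1, Pos_Xs_conj, ← map_pow, ← map_inv₀, Complex.conj_im]

private theorem Pos_cos_sub_one (z : ℂ) (hz : ‖z‖ ≤ 34 / 100) : ‖cos z - 1‖ ≤ 12 / 100 := by
  have h1 : ‖exp (z * I) - 1 - z * I‖ ≤ ‖z * I‖ ^ 2 := by
    apply norm_exp_sub_one_sub_id_le
    rw [norm_mul, norm_I, mul_one]
    linarith
  have h2 : ‖exp (-z * I) - 1 - -z * I‖ ≤ ‖-z * I‖ ^ 2 := by
    apply norm_exp_sub_one_sub_id_le
    rw [norm_mul, norm_I, mul_one, norm_neg]
    linarith
  rw [norm_mul, norm_I, mul_one] at h1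
  rw [norm_mul, norm_I, mul_one, norm_neg] at h2
  have h3 : cos z - 1 = ((exp (z * I) - 1 - z * I) + (exp (-z * I) - 1 - -z * I)) / 2 := by
    rw [Complex.cos]
    ring
  have h4 : ‖(exp (z * I) - 1 - z * I) + (exp (-z * I) - 1 - -z * I)‖ ≤ ‖z‖ ^ 2 + ‖z‖ ^ 2 :=
    (norm_add_le _ _).trans (add_le_add h1 h2)
  rw [h3, norm_div]
  have h5 : ‖(2 : ℂ)‖ = 2 := by simp
  rw [h5]
  have h6 : ‖z‖ ^ 2 ≤ (34 / 100) ^ 2 := pow_le_pow_left₀ (norm_nonneg _) hz 2
  linarith

private theorem Pos_norm (r : ℤ) (v : ℂ) (hr : 10 ≤ |r|)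
    (hv : ‖v + 1 / (2 * r)‖ ≤ 3 / (10 * (r : ℝ) ^ 2)) : ‖v‖ ≤ 53 / 1000 := by
  have hr' : (10 : ℝ) ≤ |(r : ℝ)| := by exact_mod_cast hr
  have hr2 : (100 : ℝ) ≤ (r : ℝ) ^ 2 := by
    rw [← sq_abs]
    nlinarith
  have h1 : ‖(1 : ℂ) / (2 * r)‖ ≤ 1 / 20 := by
    rw [norm_div, norm_mul, norm_one, Complex.norm_intCast, Complex.norm_two]
    apply one_div_le_one_div_of_le (by norm_num)
    linarith
  have h2 : 3 / (10 * (r : ℝ) ^ 2) ≤ 3 / 1000 := by
    apply div_le_div_of_nonneg_left (by norm_num) (by norm_num)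
    linarith
  have h3 : v = (v + 1 / (2 * r)) - 1 / (2 * r) := by ring
  rw [h3]
  refine (norm_sub_le _ _).trans ?_
  linarith

private theorem Pos_A (v : ℂ) (hv : ‖v‖ ≤ 53 / 1000) : ‖cos (2 * Real.pi * v) - 1‖ ≤ 12 / 100 := by
  apply Pos_cos_sub_one
  rw [norm_mul, norm_mul, Complex.norm_two, Complex.norm_real, Real.norm_eq_abs,
    abs_of_pos Real.pi_pos]
  have := Real.pi_lt_d2
  nlinarith [norm_nonneg v, Real.pi_pos]

private theorem Pos_im_cos (v : ℂ) : (cos (2 * Real.pi * v)).im =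
    -(Real.sin (2 * Real.pi * v.re) * Real.sinh (2 * Real.pi * v.im)) := by
  have h1 : (2 * Real.pi * v : ℂ) = ((2 * Real.pi * v.re : ℝ) : ℂ) +
      ((2 * Real.pi * v.im : ℝ) : ℂ) * I := by
    apply Complex.ext <;> simp
  rw [h1, Complex.cos_add_mul_I, ← Complex.ofReal_cos, ← Complex.ofReal_cosh,
    ← Complex.ofReal_sin, ← Complex.ofReal_sinh]
  simp only [Complex.sub_im, Complex.mul_im, Complex.mul_re, Complex.ofReal_re,
    Complex.ofReal_im, Complex.I_re, Complex.I_im]
  ring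

private theorem Pos_re_sign (r : ℤ) (v : ℂ) (hr : 10 ≤ |r|)
    (hv : ‖v + 1 / (2 * r)‖ ≤ 3 / (10 * (r : ℝ) ^ 2)) :
    (0 < r → v.re < 0) ∧ (r < 0 → 0 < v.re) := by
  have hr' : (10 : ℝ) ≤ |(r : ℝ)| := by exact_mod_cast hr
  have h1 : |(v + 1 / (2 * r)).re| ≤ 3 / (10 * (r : ℝ) ^ 2) := (Complex.abs_re_le_norm _).trans hv
  have h2 : (v + 1 / (2 * r)).re = v.re + 1 / (2 * (r : ℝ)) := by
    rw [Complex.add_re]
    congr 1
    have : (1 : ℂ) / (2 * r) = ((1 / (2 * (r : ℝ)) : ℝ) : ℂ) := by push_cast; rfl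
    rw [this, Complex.ofReal_re]
  rw [h2, abs_le] at h1
  constructor
  · intro h
    have hr0 : (0 : ℝ) < r := by exact_mod_cast h
    rw [abs_of_pos hr0] at hr'
    have h3 : 3 / (10 * (r : ℝ) ^ 2) < 1 / (2 * (r : ℝ)) := by
      rw [div_lt_div_iff₀ (by positivity) (by positivity)]
      nlinarith
    linarith [h1.2]
  · intro h
    have hr0 : (r : ℝ) < 0 := by exact_mod_cast h
    rw [abs_of_neg hr0] at hr'
    have h3 : 3 / (10 * (r : ℝ) ^ 2) < 1 / (2 * (-(r : ℝ))) := by
      rw [div_lt_div_iff₀ (by nlinarith) (by linarith)]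
      nlinarith
    have h4 : 1 / (2 * (-(r : ℝ))) = -(1 / (2 * (r : ℝ))) := by
      rw [mul_neg, div_neg]
    rw [h4] at h3
    linarith [h1.1]

private theorem Pos_imA (r : ℤ) (v : ℂ) (hr : 10 ≤ |r|)
    (hv : ‖v + 1 / (2 * r)‖ ≤ 3 / (10 * (r : ℝ) ^ 2)) (him : 0 < v.im) :
    (0 < r → 0 < (cos (2 * Real.pi * v)).im) ∧ (r < 0 → (cos (2 * Real.pi * v)).im < 0) := by
  have hn := Pos_norm r v hr hv
  have hs := Pos_re_sign r v hr hv
  have hpi := Real.pi_pos
  have hre := abs_le.1 ((Complex.abs_re_le_norm v).trans hn)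
  have hsinh : 0 < Real.sinh (2 * Real.pi * v.im) := Real.sinh_pos_iff.2 (by positivity)
  rw [Pos_im_cos]
  constructor
  · intro h
    have h1 := hs.1 h
    have h2 : Real.sin (2 * Real.pi * v.re) < 0 := by
      apply Real.sin_neg_of_neg_of_neg_pi_lt
      · nlinarith
      · nlinarith
    nlinarith
  · intro h
    have h1 := hs.2 h
    have h2 : 0 < Real.sin (2 * Real.pi * v.re) := by
      apply Real.sin_pos_of_pos_of_lt_pi
      · positivity
      · nlinarith
    nlinarith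

private theorem Pos_div_im (z w : ℂ) (hz : ‖z - 1‖ ≤ 12 / 100) (hw : ‖w - 1‖ ≤ 12 / 100)
    (h1 : 0 < z.im) (h2 : w.im < 0) : 0 < ((1 + z) / (1 + w)).im ∧ ((1 + w) / (1 + z)).im < 0 := by
  have a1 := abs_le.1 ((Complex.abs_re_le_norm _).trans hz)
  have a2 := abs_le.1 ((Complex.abs_re_le_norm _).trans hw)
  simp only [Complex.sub_re, Complex.one_re] at a1 a2
  have n1 : 0 < Complex.normSq (1 + z) := by
    apply Complex.normSq_pos.2
    intro h
    have := congrArg Complex.re h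
    simp at this
    linarith [a1.1]
  have n2 : 0 < Complex.normSq (1 + w) := by
    apply Complex.normSq_pos.2
    intro h
    have := congrArg Complex.re h
    simp at this
    linarith [a2.1]
  constructor
  · rw [Complex.div_im, ← sub_div]
    apply div_pos _ n2
    simp only [Complex.add_im, Complex.add_re, Complex.one_im, Complex.one_re, zero_add]
    nlinarith [mul_pos h1 (show 0 < 1 + w.re by linarith [a2.1]),
      mul_pos (neg_pos.2 h2) (show 0 < 1 + z.re by linarith [a1.1])]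
  · rw [Complex.div_im, ← sub_div]
    apply div_neg_of_neg_of_pos _ n1
    simp only [Complex.add_im, Complex.add_re, Complex.one_im, Complex.one_re, zero_add]
    nlinarith [mul_pos h1 (show 0 < 1 + w.re by linarith [a2.1]),
      mul_pos (neg_pos.2 h2) (show 0 < 1 + z.re by linarith [a1.1])]

private theorem Pos_inv {X A B : ℂ} (hX : X * (1 + A) = -(1 + B)) (hA : 1 + A ≠ 0)
    (hB : 1 + B ≠ 0) : X⁻¹ = -((1 + A) / (1 + B)) := by
  have h0 : X ≠ 0 := by
    rintro rfl
    rw [zero_mul] at hX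
    exact hB (neg_eq_zero.1 hX.symm)
  field_simp
  linear_combination hX

/-- The last shapes for `C(2p, 2q)`. -/
theorem top_opp (p q : ℕ) (y v w : ℂ) (hc : Crit p (-q) y v w) :
    0 < ((Xs (2 * cos (Real.pi * (starRingEnd ℂ) v)) (2 * p) ^ 2)⁻¹).im ∧
    0 < ((Xs (2 * cos (Real.pi * w)) (2 * q) ^ 2)⁻¹).im := by
  have hp : 10 ≤ p := by
    have := hc.h1
    rw [Int.abs_natCast] at this
    exact_mod_cast this
  have hq : 10 ≤ q := by
    have := hc.h2
    rw [abs_neg, Int.abs_natCast] at this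
    exact_mod_cast this
  obtain ⟨n1, n2, n3, n4, n5⟩ := crit_ne _ _ y v w hc
  have hrc := rel_c _ _ y v w hc
  obtain ⟨hE1, hE2⟩ := rel_E _ _ y v w hc
  have hA := Pos_A v (Pos_norm _ v hc.h1 hc.bdv)
  have hB := Pos_A w (Pos_norm _ w hc.h2 hc.bdw)
  have iA := (Pos_imA _ v hc.h1 hc.bdv hc.imv).1 (by omega)
  have iB := (Pos_imA _ w hc.h2 hc.bdw hc.imw).2 (by omega)
  obtain ⟨s1, s2⟩ := Pos_div_im _ _ hA hB iA iB
  have hv0 : sin (Real.pi * v) ≠ 0 := by
    have := n4 1 le_rfl (by have := hc.h1; push_cast; linarith)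
    simpa using this
  have hw0 : sin (Real.pi * w) ≠ 0 := by
    have := n5 1 le_rfl (by have := hc.h2; push_cast; linarith)
    simpa using this
  constructor
  · have h1 := (rel_pos p y v _ (cos (2 * Real.pi * w)) (by omega) rfl hrc (by
      have := hE1
      push_cast at this
      exact this) n1 n2 n3 hv0).1
    rw [Pos_inv_conj, Pos_inv h1 n1 n2, Complex.neg_im, neg_neg]
    exact s1
  · have hE2' : exp (4 * Real.pi * I * q * w) * (exp (2 * Real.pi * I * (-y)) -
        exp (2 * Real.pi * I * w)) = exp (2 * Real.pi * I * (-y)) * exp (2 * Real.pi * I * w) - 1 := by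
      have e1 : exp (2 * Real.pi * I * (-y)) * exp (2 * Real.pi * I * y) = 1 := by
        rw [← Complex.exp_add]
        simp
      have e2 : exp (4 * Real.pi * I * q * w) * exp (4 * Real.pi * I * ((-q : ℤ) : ℂ) * w) = 1 := by
        rw [← Complex.exp_add]
        push_cast
        rw [← Complex.exp_zero]
        congr 1
        ring
      linear_combination (exp (4 * Real.pi * I * q * w) * exp (2 * Real.pi * I * w)) * e1 +
        (exp (4 * Real.pi * I * q * w) * exp (2 * Real.pi * I * (-y))) * hE2 -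
        (exp (2 * Real.pi * I * (-y)) * (exp (2 * Real.pi * I * y) - exp (2 * Real.pi * I * w))) * e2 -
        e1
    have h1 := (rel_pos q (-y) w _ (cos (2 * Real.pi * v)) (by omega) rfl (by
      have e : cos (2 * Real.pi * (-y)) = cos (2 * Real.pi * y) := by
        rw [mul_neg, Complex.cos_neg]
      rw [e]
      linear_combination hrc) hE2' n2 n1 (by
        intro h
        apply n3
        linear_combination h) hw0).1
    rw [Pos_inv h1 n2 n1, Complex.neg_im]
    linarith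

private theorem Pos_same_aux (y A B : ℂ) (hy : ‖y - 1 / 4‖ ≤ 1 / 100) (hA : ‖A - 1‖ ≤ 12 / 100)
    (hB : ‖B - 1‖ ≤ 12 / 100) :
    0 < (exp (2 * Real.pi * I * y) * (1 + A) / (2 + A + B)).im := by
  have hD : (376 / 100 : ℝ) ≤ ‖2 + A + B‖ := by
    have h1 : (4 : ℂ) = (2 + A + B) - (A - 1) - (B - 1) := by ring
    have h2 : ‖(4 : ℂ)‖ ≤ ‖2 + A + B‖ + ‖A - 1‖ + ‖B - 1‖ := by
      conv_lhs => rw [h1]
      refine (norm_sub_le _ _).trans ?_
      have := norm_sub_le (2 + A + B) (A - 1)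
      linarith
    have h3 : ‖(4 : ℂ)‖ = 4 := by simp
    rw [h3] at h2
    linarith
  have hD0 : 2 + A + B ≠ 0 := by
    intro h
    rw [h, norm_zero] at hD
    linarith
  obtain ⟨δ, hδ⟩ : ∃ δ : ℂ, δ = (A - B) / (2 + A + B) := ⟨_, rfl⟩
  have hδn : ‖δ‖ ≤ 1 / 10 := by
    rw [hδ, norm_div, div_le_iff₀ (by linarith)]
    have h1 : A - B = (A - 1) - (B - 1) := by ring
    have h2 : ‖A - B‖ ≤ 24 / 100 := by
      rw [h1]
      refine (norm_sub_le _ _).trans ?_
      linarith
    linarith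
  obtain ⟨η, hη⟩ : ∃ η : ℂ, η = exp (2 * Real.pi * I * (y - 1 / 4)) - 1 := ⟨_, rfl⟩
  have hηn : ‖η‖ ≤ 14 / 100 := by
    have h1 : ‖2 * Real.pi * I * (y - 1 / 4)‖ ≤ 7 / 100 := by
      rw [norm_mul, norm_mul, norm_mul, Complex.norm_two, Complex.norm_real, Real.norm_eq_abs,
        abs_of_pos Real.pi_pos, norm_I, mul_one]
      have := Real.pi_lt_d2
      nlinarith [norm_nonneg (y - 1 / 4), Real.pi_pos]
    have h2 := norm_exp_sub_one_le (x := 2 * Real.pi * I * (y - 1 / 4)) (by linarith)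
    rw [← hη] at h2
    linarith
  have hY : exp (2 * Real.pi * I * y) = I * (1 + η) := by
    have h1 : (2 * Real.pi * I * y : ℂ) = Real.pi / 2 * I + 2 * Real.pi * I * (y - 1 / 4) := by
      ring
    have h2 : (1 : ℂ) + η = exp (2 * Real.pi * I * (y - 1 / 4)) := by rw [hη]; ring
    rw [h2, h1, Complex.exp_add, Complex.exp_pi_div_two_mul_I]
  have hform : exp (2 * Real.pi * I * y) * (1 + A) / (2 + A + B) =
      I * (1 / 2 : ℝ) + I * ((1 / 2 : ℝ) * (η + δ + η * δ)) := by
    have h1 : (1 + A) / (2 + A + B) = 1 / 2 * (1 + δ) := by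
      rw [hδ]
      field_simp
      ring
    rw [mul_div_assoc, h1, hY]
    push_cast
    ring
  rw [hform]
  have h3 : ‖η + δ + η * δ‖ ≤ 1 / 2 := by
    refine (norm_add_le _ _).trans ?_
    have h4 := norm_add_le η δ
    have h5 : ‖η * δ‖ ≤ 14 / 100 * (1 / 10) := by
      rw [norm_mul]
      exact mul_le_mul hηn hδn (norm_nonneg _) (by norm_num)
    linarith
  have h4 := abs_le.1 ((Complex.abs_re_le_norm _).trans h3)
  have h5 : (I * (1 / 2 : ℝ) + I * ((1 / 2 : ℝ) * (η + δ + η * δ))).im =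
      1 / 2 + 1 / 2 * (η + δ + η * δ).re := by
    rw [Complex.add_im, Complex.I_mul_im, Complex.I_mul_im, Complex.re_ofReal_mul,
      Complex.ofReal_re]
  rw [h5]
  linarith [h4.1]

private theorem Pos_inv2 {X Y A B : ℂ} (hX : X * (Y * (1 + A)) = -(2 + A + B)) (hD : 2 + A + B ≠ 0) :
    X⁻¹ = -(Y * (1 + A) / (2 + A + B)) := by
  have h0 : X ≠ 0 := by
    rintro rfl
    rw [zero_mul] at hX
    exact hD (neg_eq_zero.1 hX.symm)
  field_simp
  linear_combination hX

/-- The last shapes for `C(2p-1, 1, 2q-1)`. -/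
theorem top_same (p q : ℕ) (y v w : ℂ) (hc : Crit p q y v w) :
    0 < ((Xs (2 * cos (Real.pi * (starRingEnd ℂ) v)) (2 * p - 1) ^ 2)⁻¹).im ∧
    0 < ((Xs (2 * cos (Real.pi * (starRingEnd ℂ) w)) (2 * q - 1) ^ 2)⁻¹).im := by
  have hp : 10 ≤ p := by
    have := hc.h1
    rw [Int.abs_natCast] at this
    exact_mod_cast this
  have hq : 10 ≤ q := by
    have := hc.h2
    rw [Int.abs_natCast] at this
    exact_mod_cast this
  obtain ⟨n1, n2, n3, n4, n5⟩ := crit_ne _ _ y v w hc
  have hrc := rel_c _ _ y v w hc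
  obtain ⟨hE1, hE2⟩ := rel_E _ _ y v w hc
  have hA := Pos_A v (Pos_norm _ v hc.h1 hc.bdv)
  have hB := Pos_A w (Pos_norm _ w hc.h2 hc.bdw)
  have hv0 : sin (Real.pi * v) ≠ 0 := by
    have := n4 1 le_rfl (by have := hc.h1; push_cast; linarith)
    simpa using this
  have hw0 : sin (Real.pi * w) ≠ 0 := by
    have := n5 1 le_rfl (by have := hc.h2; push_cast; linarith)
    simpa using this
  constructor
  · have h1 := (rel_pos p y v _ (cos (2 * Real.pi * w)) (by omega) rfl hrc (by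
      have := hE1
      push_cast at this
      exact this) n1 n2 n3 hv0).2.1
    rw [Pos_inv_conj, Pos_inv2 h1 n3, Complex.neg_im, neg_neg]
    exact Pos_same_aux y _ _ hc.bdy hA hB
  · have n3' : 2 + cos (2 * Real.pi * w) + cos (2 * Real.pi * v) ≠ 0 := by
      intro h
      apply n3
      linear_combination h
    have h1 := (rel_pos q y w _ (cos (2 * Real.pi * v)) (by omega) rfl (by
      linear_combination hrc) (by
      have := hE2
      push_cast at this
      exact this) n2 n1 n3' hw0).2.1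
    rw [Pos_inv_conj, Pos_inv2 h1 n3', Complex.neg_im, neg_neg]
    exact Pos_same_aux y _ _ hc.bdy hB hA

end Pool.Agent.H63.VC3
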