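import Pool.Agent.H63.VC.SWmax

/-! # The maximum of the volume functional for `C(2p, 2q)` -/

namespace Pool.Agent.H63.VC3

open Pool.Agent.H63.VC

set_option linter.unusedSectionVars false

theorem SWopp_isHinge_iff (p q i : ℕ) : IsHinge [2 * p, 2 * q] i ↔ i + 1 = 2 * p := by
  unfold IsHinge
  constructor
  · rintro ⟨j, h1, h2, h3⟩
    simp only [List.length_cons, List.length_nil] at h2
    have : j = 1 := by omega
    subst this
    simpa using h3
  · intro h
    exact ⟨1, le_rfl, by simp, by simpa using h⟩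

/-- The tangent inequality in terms of the shape parameter. -/
theorem SWopp_tan (u : ℂ) (hu : 0 < u.im) (x y z x' y' z' : ℝ)
    (hx : x = Complex.arg (1 - u⁻¹)) (hy : y = Complex.arg (1 - u)⁻¹) (hz : z = Complex.arg u)
    (hx' : 0 < x') (hy' : 0 < y') (hz' : 0 < z') (hs' : x' + y' + z' = Real.pi) :
    lob x' + lob y' + lob z' ≤ lob x + lob y + lob z -
      (Real.log ‖u‖ * (y' - y) + Real.log ‖1 - u‖ * (z' - z)) := by
  have htet := tet_angles u hu
  have hu0 : u ≠ 0 := by rintro rfl; simp at hu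
  have hu1 : 1 - u ≠ 0 := by
    intro h0
    have h1 := congrArg Complex.im h0
    simp at h1
    linarith
  have hn0 : 0 < ‖u‖ := norm_pos_iff.2 hu0
  have hn1 : 0 < ‖1 - u‖ := norm_pos_iff.2 hu1
  rw [← hx, ← hy, ← hz] at htet
  obtain ⟨t1, t2, t3, t4, t5, t6⟩ := htet
  have hpi := Real.pi_pos
  have hsX : 0 < Real.sin x := Real.sin_pos_of_pos_of_lt_pi t3 (by linarith)
  have htan := tet_tangent x y z x' y' z' t3 t2 t1 (by linarith) hx' hy' hz' hs'
  refine htan.trans (le_of_eq ?_)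
  have hLY : Real.log (2 * Real.sin y) = Real.log ‖u‖ + Real.log (2 * Real.sin x) := by
    rw [t5, ← Real.log_mul hn0.ne' (by positivity)]
    congr 1; ring
  have hLZ : Real.log (2 * Real.sin z) = Real.log ‖1 - u‖ + Real.log (2 * Real.sin x) := by
    rw [t6, ← Real.log_mul hn1.ne' (by positivity)]
    congr 1; ring
  rw [hLY, hLZ]
  have hs : x + y + z = Real.pi := by linarith
  linear_combination (-Real.log (2 * Real.sin x)) * (hs' - hs)

/-- `log` of the norms of the shape parameter and its complement in a fan. -/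
theorem SWopp_logs (p : ℕ) (hp : 2 ≤ p) (y : ℂ)
    (hpos : ∀ k, 2 ≤ k → k ≤ 2 * p → 0 < ((Xs y k ^ 2)⁻¹).im) (k : ℕ) (hk : 2 ≤ k)
    (hk2 : k + 1 ≤ 2 * p) :
    Real.log ‖swU y k‖ = -2 * Real.log ‖Xs y k‖ ∧
    Real.log ‖1 - swU y k‖ = -2 * Real.log ‖Xs y k‖ + Real.log ‖Xs y (k + 1)‖
      + Real.log ‖Xs y (k - 1)‖ := by
  have hXne : Xs y k ≠ 0 := swmax_X_ne p hp y hpos _ (by omega) (by omega)
  have hune : swU y k ≠ 0 := swmax_U_ne p hp y hpos _ (by omega) (by omega)
  have hnu : 0 < ‖swU y k‖ := norm_pos_iff.2 hune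
  have hlogu : Real.log ‖swU y k‖ = -2 * Real.log ‖Xs y k‖ := by
    unfold swU
    rw [norm_inv, norm_pow, Real.log_inv, Real.log_pow]
    push_cast; ring
  refine ⟨hlogu, ?_⟩
  have hone : 1 - swU y k = swU y k * (Xs y (k + 1) * Xs y (k - 1)) := by
    have h1 := swmax_one_sub y k (by omega)
    have h2 : swU y k * (swU y k)⁻¹ = 1 := mul_inv_cancel₀ hune
    linear_combination (-swU y k) * h1 - h2
  have hn1 : ‖Xs y (k + 1)‖ ≠ 0 :=
    norm_ne_zero_iff.2 (swmax_X_ne p hp y hpos _ (by omega) (by omega))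
  have hn2 : ‖Xs y (k - 1)‖ ≠ 0 :=
    norm_ne_zero_iff.2 (swmax_X_ne p hp y hpos _ (by omega) (by omega))
  rw [hone, norm_mul, norm_mul, Real.log_mul hnu.ne' (mul_ne_zero hn1 hn2),
    Real.log_mul hn1 hn2, hlogu]
  ring

/-- The argument of a unit-normalized inverse conjugate. -/
theorem SWopp_arg_conj_inv (z : ℂ) (hz : 0 < z.im) :
    Complex.arg ((starRingEnd ℂ) z)⁻¹ = Complex.arg z := by
  have h1 : Complex.arg z ≠ Real.pi := by
    rw [Ne, Complex.arg_eq_pi_iff]
    rintro ⟨-, h⟩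
    linarith
  have h2 : Complex.arg ((starRingEnd ℂ) z) = -Complex.arg z := by
    rw [Complex.arg_conj, if_neg h1]
  have h3 : Complex.arg ((starRingEnd ℂ) z) ≠ Real.pi := by
    rw [h2]
    have := Complex.neg_pi_lt_arg z
    have h5 : 0 < Complex.arg z := (tet_angles z hz).1
    have := Real.pi_pos
    intro h
    linarith
  rw [Complex.arg_inv, if_neg h3, h2, neg_neg]

/-- The geometric shape parameters. -/
noncomputable def SWoppU (p q : ℕ) (y y' : ℂ) (i : ℕ) : ℂ :=
  if i + 1 ≤ 2 * p then swU y (i + 1) else swU y' (2 * p + 2 * q - 1 - i)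

/-- The geometric angle structure. -/
noncomputable def SWoppW (p q : ℕ) (y y' : ℂ) (i : ℕ) : ℝ :=
  Real.pi - Complex.arg (SWoppU p q y y' i)

section
variable (p q : ℕ) (hp : 2 ≤ p) (hq : 2 ≤ q) (y y' : ℂ)
    (hpos : ∀ k, 2 ≤ k → k ≤ 2 * p → 0 < ((Xs y k ^ 2)⁻¹).im)
    (hpos' : ∀ k, 2 ≤ k → k ≤ 2 * q → 0 < ((Xs y' k ^ 2)⁻¹).im)
    (h1 : Xs y' (2 * q) ^ 2 * (starRingEnd ℂ) (Xs y (2 * p) ^ 2) = 1)
    (h2 : (1 - (Xs y (2 * p) ^ 2)⁻¹) ^ 2 = -(Xs y (2 * p) ^ 2)⁻¹ *
      (Xs y (2 * p - 1) ^ 2 * (starRingEnd ℂ) (Xs y' (2 * q - 1) ^ 2)))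
include hp hq hpos hpos' h1

theorem SWopp_arg_top : Complex.arg (swU y' (2 * q)) = Complex.arg (swU y (2 * p)) := by
  have hu := hpos (2 * p) (by omega) le_rfl
  have e1 : swU y' (2 * q) = ((starRingEnd ℂ) (swU y (2 * p)))⁻¹ := by
    unfold swU
    have h3 : (starRingEnd ℂ) (Xs y (2 * p) ^ 2) ≠ 0 := by
      intro h
      rw [h, mul_zero] at h1
      exact zero_ne_one h1
    have h4 : Xs y' (2 * q) ^ 2 = ((starRingEnd ℂ) (Xs y (2 * p) ^ 2))⁻¹ :=
      eq_inv_of_mul_eq_one_left h1
    rw [h4, inv_inv, map_inv₀, inv_inv]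
  rw [e1]
  exact SWopp_arg_conj_inv _ hu

theorem SWopp_W_left (i : ℕ) (hi : i + 1 ≤ 2 * p) :
    SWoppW p q y y' i = Real.pi - Complex.arg (swU y (i + 1)) := by
  unfold SWoppW SWoppU
  rw [if_pos hi]

theorem SWopp_W_right (i : ℕ) (hi : 2 * p ≤ i + 1) :
    SWoppW p q y y' i = Real.pi - Complex.arg (swU y' (2 * p + 2 * q - 1 - i)) := by
  rcases hi.eq_or_lt with h | h
  · have e : 2 * p + 2 * q - 1 - i = 2 * q := by omega
    rw [e, SWopp_arg_top p q hp hq y y' hpos hpos' h1]
    unfold SWoppW SWoppU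
    rw [if_pos (by omega), h]
  · unfold SWoppW SWoppU
    rw [if_neg (by omega)]

theorem SWopp_im (i : ℕ) (hi1 : 1 ≤ i) (hi2 : i ≤ 2 * p + 2 * q - 3) :
    0 < (SWoppU p q y y' i).im := by
  unfold SWoppU
  split_ifs with h
  · exact hpos (i + 1) (by omega) h
  · exact hpos' _ (by omega) (by omega)

include h2

/-- The angle of the hinge. -/
theorem SWopp_hinge : 2 * Complex.arg (1 - swU y (2 * p))⁻¹ =
    Real.pi - Complex.arg (swU y' (2 * q - 1)) - Complex.arg (swU y (2 * p))
      + Complex.arg (swU y (2 * p - 1)) := by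
  have hpi := Real.pi_pos
  have hu : 0 < (swU y (2 * p)).im := hpos (2 * p) (by omega) le_rfl
  have hA : 0 < (swU y (2 * p - 1)).im := hpos (2 * p - 1) (by omega) (by omega)
  have hB : 0 < (swU y' (2 * q - 1)).im := hpos' (2 * q - 1) (by omega) (by omega)
  have hu0 : swU y (2 * p) ≠ 0 := swmax_U_ne p hp y hpos _ (by omega) le_rfl
  have hA0 : swU y (2 * p - 1) ≠ 0 := swmax_U_ne p hp y hpos _ (by omega) (by omega)
  have hB0 : swU y' (2 * q - 1) ≠ 0 := swmax_U_ne q hq y' hpos' _ (by omega) (by omega)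
  have hlt : ∀ z : ℂ, 0 < z.im → 0 < Complex.arg z ∧ Complex.arg z < Real.pi := by
    intro z hz
    have h := tet_angles z hz
    exact ⟨h.1, by linarith [h.2.1, h.2.2.1, h.2.2.2.1]⟩
  have h2' : (1 - swU y (2 * p)) ^ 2 * swU y (2 * p - 1) =
      -swU y (2 * p) * ((starRingEnd ℂ) (swU y' (2 * q - 1)))⁻¹ := by
    have e1 : Xs y (2 * p - 1) ^ 2 = (swU y (2 * p - 1))⁻¹ := by unfold swU; rw [inv_inv]
    have e2 : (starRingEnd ℂ) (Xs y' (2 * q - 1) ^ 2) =
        ((starRingEnd ℂ) (swU y' (2 * q - 1)))⁻¹ := by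
      unfold swU; rw [map_inv₀, inv_inv]
    have e3 : (Xs y (2 * p) ^ 2)⁻¹ = swU y (2 * p) := rfl
    rw [e1, e2, e3] at h2
    rw [h2]
    field_simp
  set U := swU y (2 * p) with hU
  set A := swU y (2 * p - 1) with hAdef
  set B := swU y' (2 * q - 1) with hBdef
  have hU1 : 1 - U ≠ 0 := by
    intro h0
    have h1 := congrArg Complex.im h0
    simp at h1
    linarith
  set β := (1 - U)⁻¹ with hβ
  have hβ0 : β ≠ 0 := inv_ne_zero hU1
  have hC0 : ((starRingEnd ℂ) B)⁻¹ ≠ 0 := by
    apply inv_ne_zero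
    intro h
    exact hB0 ((map_eq_zero _).1 h)
  have hprod : A = -1 * (U * (((starRingEnd ℂ) B)⁻¹ * (β * β))) := by
    have e : A = (1 - U) ^ 2 * A * (β * β) := by
      rw [hβ]; field_simp
    rw [e, h2']
    ring
  have hargA : ((Complex.arg A : ℝ) : Real.Angle) =
      ((Real.pi + (Complex.arg U + (Complex.arg B + (Complex.arg β + Complex.arg β))) : ℝ)
        : Real.Angle) := by
    rw [Real.Angle.coe_add, Real.Angle.coe_add, Real.Angle.coe_add, Real.Angle.coe_add,
      ← Complex.arg_mul_coe_angle hβ0 hβ0, ← SWopp_arg_conj_inv B hB,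
      ← Complex.arg_mul_coe_angle hC0 (mul_ne_zero hβ0 hβ0),
      ← Complex.arg_mul_coe_angle hu0 (mul_ne_zero hC0 (mul_ne_zero hβ0 hβ0)),
      ← Complex.arg_neg_one,
      ← Complex.arg_mul_coe_angle (by norm_num)
        (mul_ne_zero hu0 (mul_ne_zero hC0 (mul_ne_zero hβ0 hβ0))), ← hprod]
  rw [Real.Angle.angle_eq_iff_two_pi_dvd_sub] at hargA
  obtain ⟨n, hn⟩ := hargA
  have a1 := hlt A hA
  have a2 := hlt B hB
  have a3 := hlt U hu
  have ht := tet_angles U hu
  have hb1 := ht.2.1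
  have hb2 : Complex.arg U + Complex.arg β < Real.pi := by
    have := ht.2.2.1
    have := ht.2.2.2.1
    linarith
  -- `A - (π + U + B + 2β) = 2πn`, so `n = -1`
  have hn1 : (n : ℝ) < 0 := by
    by_contra hcon
    push Not at hcon
    nlinarith [a1.1, a1.2, a2.1, a2.2, a3.1, a3.2, hb1]
  have hn2 : (-2 : ℝ) < n := by
    by_contra hcon
    push Not at hcon
    nlinarith [a1.1, a1.2, a2.1, a2.2, a3.1, a3.2, hb1]
  have hn3 : n = -1 := by
    have a1 : n < 0 := by exact_mod_cast hn1
    have a2 : -2 < n := by exact_mod_cast hn2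
    omega
  rw [hn3] at hn
  push_cast at hn
  linarith

theorem SWopp_angles (i : ℕ) (hi1 : 1 ≤ i) (hi2 : i ≤ 2 * p + 2 * q - 3) :
    angX [2 * p, 2 * q] (SWoppW p q y y') i = Complex.arg (1 - (SWoppU p q y y' i)⁻¹) ∧
    angY [2 * p, 2 * q] (SWoppW p q y y') i = Complex.arg (1 - SWoppU p q y y' i)⁻¹ ∧
    angZ (SWoppW p q y y') i = Complex.arg (SWoppU p q y y' i) := by
  have htet := tet_angles _ (SWopp_im p q hp hq y y' hpos hpos' h1 i hi1 hi2)
  have hsum := htet.2.2.2.1
  have hZ : angZ (SWoppW p q y y') i = Complex.arg (SWoppU p q y y' i) := by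
    unfold angZ SWoppW; ring
  have hwi : SWoppW p q y y' i = Real.pi - Complex.arg (SWoppU p q y y' i) := rfl
  by_cases hi : i + 1 = 2 * p
  · have hUi : SWoppU p q y y' i = swU y (2 * p) := by
      unfold SWoppU
      rw [if_pos (by omega), hi]
    have hw1 : SWoppW p q y y' (i - 1) = Real.pi - Complex.arg (swU y (2 * p - 1)) := by
      rw [SWopp_W_left p q hp hq y y' hpos hpos' h1 _ (by omega)]
      have e : i - 1 + 1 = 2 * p - 1 := by omega
      rw [e]
    have hw2 : SWoppW p q y y' (i + 1) = Real.pi - Complex.arg (swU y' (2 * q - 1)) := by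
      rw [SWopp_W_right p q hp hq y y' hpos hpos' h1 _ (by omega)]
      have e : 2 * p + 2 * q - 1 - (i + 1) = 2 * q - 1 := by omega
      rw [e]
    have hh := SWopp_hinge p q hp hq y y' hpos hpos' h1 h2
    rw [hUi] at hsum hwi hZ ⊢
    unfold angX angY
    rw [if_pos ((SWopp_isHinge_iff p q i).2 hi), if_pos ((SWopp_isHinge_iff p q i).2 hi),
      hw1, hw2, hwi]
    refine ⟨by linarith, by linarith, hZ⟩
  · have hX : angX [2 * p, 2 * q] (SWoppW p q y y') i
        = Complex.arg (1 - (SWoppU p q y y' i)⁻¹) := by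
      unfold angX
      rw [if_neg (fun h => hi ((SWopp_isHinge_iff p q i).1 h))]
      rcases Nat.lt_or_gt_of_ne hi with hlt | hgt
      · have hUi : SWoppU p q y y' i = swU y (i + 1) := by
          unfold SWoppU
          rw [if_pos (by omega)]
        rw [SWopp_W_left p q hp hq y y' hpos hpos' h1 _ (by omega : i - 1 + 1 ≤ 2 * p),
          SWopp_W_left p q hp hq y y' hpos hpos' h1 _ (by omega : i + 1 + 1 ≤ 2 * p), hUi]
        have hrel := swmax_arg_rel p hp y hpos (i + 1) (by omega) (by omega)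
        have e : i + 1 - 1 = i - 1 + 1 := by omega
        rw [e] at hrel
        linarith
      · have hUi : SWoppU p q y y' i = swU y' (2 * p + 2 * q - 1 - i) := by
          unfold SWoppU
          rw [if_neg (by omega)]
        rw [SWopp_W_right p q hp hq y y' hpos hpos' h1 _ (by omega : 2 * p ≤ i - 1 + 1),
          SWopp_W_right p q hp hq y y' hpos hpos' h1 _ (by omega : 2 * p ≤ i + 1 + 1), hUi]
        have hrel := swmax_arg_rel q hq y' hpos' (2 * p + 2 * q - 1 - i) (by omega) (by omega)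
        have e : 2 * p + 2 * q - 1 - (i - 1) = 2 * p + 2 * q - 1 - i + 1 := by omega
        have e' : 2 * p + 2 * q - 1 - (i + 1) = 2 * p + 2 * q - 1 - i - 1 := by omega
        rw [e, e']
        linarith
    refine ⟨hX, ?_, hZ⟩
    have hY : angY [2 * p, 2 * q] (SWoppW p q y y') i
        = SWoppW p q y y' i - angX [2 * p, 2 * q] (SWoppW p q y y') i := by
      unfold angX angY
      rw [if_neg (fun h => hi ((SWopp_isHinge_iff p q i).1 h)),
        if_neg (fun h => hi ((SWopp_isHinge_iff p q i).1 h))]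
    rw [hY, hX, hwi]
    linarith

theorem SWopp_norms :
    Real.log ‖Xs y' (2 * q)‖ = -Real.log ‖Xs y (2 * p)‖ ∧
    Real.log ‖swU y (2 * p)‖ = -2 * Real.log ‖Xs y (2 * p)‖ ∧
    Real.log ‖1 - swU y (2 * p)‖ = -Real.log ‖Xs y (2 * p)‖ + Real.log ‖Xs y (2 * p - 1)‖
      + Real.log ‖Xs y' (2 * q - 1)‖ := by
  have hX0 : Xs y (2 * p) ≠ 0 := swmax_X_ne p hp y hpos _ (by omega) le_rfl
  have hX1 : Xs y (2 * p - 1) ≠ 0 := swmax_X_ne p hp y hpos _ (by omega) (by omega)
  have hX0' : Xs y' (2 * q) ≠ 0 := swmax_X_ne q hq y' hpos' _ (by omega) le_rfl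
  have hX1' : Xs y' (2 * q - 1) ≠ 0 := swmax_X_ne q hq y' hpos' _ (by omega) (by omega)
  have n0 := norm_ne_zero_iff.2 hX0
  have n1 := norm_ne_zero_iff.2 hX1
  have n0' := norm_ne_zero_iff.2 hX0'
  have n1' := norm_ne_zero_iff.2 hX1'
  refine ⟨?_, ?_, ?_⟩
  · have h3 := congrArg norm h1
    rw [norm_mul, Complex.norm_conj, norm_pow, norm_pow, norm_one] at h3
    have h4 := congrArg Real.log h3
    rw [Real.log_mul (pow_ne_zero 2 n0') (pow_ne_zero 2 n0), Real.log_pow, Real.log_pow,
      Real.log_one] at h4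
    push_cast at h4
    linarith
  · unfold swU
    rw [norm_inv, norm_pow, Real.log_inv, Real.log_pow]
    push_cast; ring
  · have h3 := congrArg norm h2
    rw [norm_mul, norm_mul, Complex.norm_conj, norm_pow, norm_neg, norm_inv, norm_pow, norm_pow,
      norm_pow] at h3
    have h4 := congrArg Real.log h3
    rw [Real.log_pow, Real.log_mul (inv_ne_zero (pow_ne_zero 2 n0))
      (mul_ne_zero (pow_ne_zero 2 n1) (pow_ne_zero 2 n1')),
      Real.log_mul (pow_ne_zero 2 n1) (pow_ne_zero 2 n1'), Real.log_inv, Real.log_pow,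
      Real.log_pow, Real.log_pow] at h4
    have e3 : (Xs y (2 * p) ^ 2)⁻¹ = swU y (2 * p) := rfl
    rw [e3] at h4
    push_cast at h4
    linarith

end

theorem sw_max_opp (p q : ℕ) (hp : 2 ≤ p) (hq : 2 ≤ q) (y y' : ℂ)
    (hpos : ∀ k, 2 ≤ k → k ≤ 2 * p → 0 < ((Xs y k ^ 2)⁻¹).im)
    (hpos' : ∀ k, 2 ≤ k → k ≤ 2 * q → 0 < ((Xs y' k ^ 2)⁻¹).im)
    (h1 : Xs y' (2 * q) ^ 2 * (starRingEnd ℂ) (Xs y (2 * p) ^ 2) = 1)
    (h2 : (1 - (Xs y (2 * p) ^ 2)⁻¹) ^ 2 = -(Xs y (2 * p) ^ 2)⁻¹ *
      (Xs y (2 * p - 1) ^ 2 * (starRingEnd ℂ) (Xs y' (2 * q - 1) ^ 2))) :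
    IsGreatest (structureVolumes [2 * p, 2 * q])
      (2 * ∑ k ∈ Finset.Icc 2 (2 * p - 1), blochWigner ((Xs y k ^ 2)⁻¹)
        + 2 * ∑ k ∈ Finset.Icc 2 (2 * q - 1), blochWigner ((Xs y' k ^ 2)⁻¹)
        + 2 * blochWigner ((Xs y (2 * p) ^ 2)⁻¹)) := by
  have hpi := Real.pi_pos
  have hasum : ([2 * p, 2 * q] : List ℕ).sum = 2 * p + 2 * q := by simp
  have hang := SWopp_angles p q hp hq y y' hpos hpos' h1 h2
  have him := SWopp_im p q hp hq y y' hpos hpos' h1
  -- the volume of the geometric structure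
  have hvol : structureVolume [2 * p, 2 * q] (SWoppW p q y y')
      = 2 * ∑ k ∈ Finset.Icc 2 (2 * p - 1), blochWigner ((Xs y k ^ 2)⁻¹)
        + 2 * ∑ k ∈ Finset.Icc 2 (2 * q - 1), blochWigner ((Xs y' k ^ 2)⁻¹)
        + 2 * blochWigner ((Xs y (2 * p) ^ 2)⁻¹) := by
    unfold structureVolume
    rw [hasum]
    have h1 : ∀ i ∈ Finset.Icc 1 (2 * p + 2 * q - 3),
        lob (angX [2 * p, 2 * q] (SWoppW p q y y') i)
          + lob (angY [2 * p, 2 * q] (SWoppW p q y y') i)
          + lob (angZ (SWoppW p q y y') i) = blochWigner (SWoppU p q y y' i) := by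
      intro i hi
      rw [Finset.mem_Icc] at hi
      obtain ⟨a, b, c⟩ := hang i hi.1 hi.2
      rw [a, b, c]
      unfold blochWigner
      ring
    rw [Finset.sum_congr rfl h1]
    -- split the sum
    have e1 : Finset.Icc 1 (2 * p + 2 * q - 3) = Finset.Ico 1 (2 * p + 2 * q - 2) := by
      ext i; simp only [Finset.mem_Icc, Finset.mem_Ico]; omega
    have e2 : Finset.Icc 2 (2 * p - 1) = Finset.Ico 2 (2 * p) := by
      ext i; simp only [Finset.mem_Icc, Finset.mem_Ico]; omega
    have e2' : Finset.Icc 2 (2 * q - 1) = Finset.Ico 2 (2 * q) := by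
      ext i; simp only [Finset.mem_Icc, Finset.mem_Ico]; omega
    rw [e1, e2, e2', ← Finset.sum_Ico_consecutive _ (by omega : 1 ≤ 2 * p - 1)
      (by omega : 2 * p - 1 ≤ 2 * p + 2 * q - 2),
      ← Finset.sum_Ico_consecutive _ (by omega : 2 * p - 1 ≤ 2 * p)
      (by omega : 2 * p ≤ 2 * p + 2 * q - 2)]
    have s1 : ∑ i ∈ Finset.Ico 1 (2 * p - 1), blochWigner (SWoppU p q y y' i)
        = ∑ k ∈ Finset.Ico 2 (2 * p), blochWigner ((Xs y k ^ 2)⁻¹) := by
      apply Finset.sum_nbij' (fun i => i + 1) (fun k => k - 1)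
      · intro i hi; rw [Finset.mem_Ico] at hi ⊢; omega
      · intro k hk; rw [Finset.mem_Ico] at hk ⊢; omega
      · intro i _; omega
      · intro k hk; rw [Finset.mem_Ico] at hk; omega
      · intro i hi
        rw [Finset.mem_Ico] at hi
        unfold SWoppU
        rw [if_pos (by omega)]; rfl
    have s2 : ∑ i ∈ Finset.Ico (2 * p - 1) (2 * p), blochWigner (SWoppU p q y y' i)
        = blochWigner ((Xs y (2 * p) ^ 2)⁻¹) := by
      have e3 : Finset.Ico (2 * p - 1) (2 * p) = {2 * p - 1} := by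
        ext i; simp only [Finset.mem_Ico, Finset.mem_singleton]; omega
      have e4 : 2 * p - 1 + 1 = 2 * p := by omega
      rw [e3, Finset.sum_singleton]
      unfold SWoppU
      rw [if_pos (by omega), e4]; rfl
    have s3 : ∑ i ∈ Finset.Ico (2 * p) (2 * p + 2 * q - 2), blochWigner (SWoppU p q y y' i)
        = ∑ k ∈ Finset.Ico 2 (2 * q), blochWigner ((Xs y' k ^ 2)⁻¹) := by
      apply Finset.sum_nbij' (fun i => 2 * p + 2 * q - 1 - i) (fun k => 2 * p + 2 * q - 1 - k)
      · intro i hi; rw [Finset.mem_Ico] at hi ⊢; omega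
      · intro k hk; rw [Finset.mem_Ico] at hk ⊢; omega
      · intro i hi; rw [Finset.mem_Ico] at hi; omega
      · intro k hk; rw [Finset.mem_Ico] at hk; omega
      · intro i hi
        rw [Finset.mem_Ico] at hi
        unfold SWoppU
        rw [if_neg (by omega)]; rfl
    rw [s1, s2, s3]
    ring
  have hU1 : swU y 1 = 1 := by unfold swU; rw [Xs_one]; simp
  have hU1' : swU y' 1 = 1 := by unfold swU; rw [Xs_one]; simp
  have hw0 : SWoppW p q y y' 0 = Real.pi := by
    rw [SWopp_W_left p q hp hq y y' hpos hpos' h1 _ (by omega), zero_add, hU1, Complex.arg_one,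
      sub_zero]
  have hwl : SWoppW p q y y' (2 * p + 2 * q - 2) = Real.pi := by
    rw [SWopp_W_right p q hp hq y y' hpos hpos' h1 _ (by omega)]
    have e : 2 * p + 2 * q - 1 - (2 * p + 2 * q - 2) = 1 := by omega
    rw [e, hU1', Complex.arg_one, sub_zero]
  constructor
  · refine ⟨SWoppW p q y y', ⟨hw0, ?_, ?_⟩, hvol.symm⟩
    · rw [hasum]; exact hwl
    · rw [hasum]
      intro i hi
      rw [Finset.mem_Icc] at hi
      obtain ⟨a, b, c⟩ := hang i hi.1 hi.2
      have htet := tet_angles _ (him i hi.1 hi.2)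
      rw [a, b, c]
      exact ⟨htet.2.2.1, htet.2.1, htet.1⟩
  · rintro v ⟨w', ⟨hw'0, hw'l, hw'a⟩, rfl⟩
    rw [hasum] at hw'l hw'a
    rw [← hvol]
    obtain ⟨nn1, nn2, nn3⟩ := SWopp_norms p q hp hq y y' hpos hpos' h1 h2
    set δ : ℕ → ℝ := fun i => w' i - SWoppW p q y y' i with hδ
    set l : ℕ → ℝ := fun i => Real.log ‖Xs y (i + 1)‖ with hl
    set r : ℕ → ℝ := fun i => Real.log ‖Xs y' (2 * p + 2 * q - 1 - i)‖ with hr
    set E : ℕ → ℝ := fun i => if i + 1 < 2 * p then l i * δ (i + 1) - l (i + 1) * δ i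
      else r i * δ (i + 1) - r (i + 1) * δ i with hE
    have hlin : ∀ i ∈ Finset.Icc 1 (2 * p + 2 * q - 3),
        lob (angX [2 * p, 2 * q] w' i) + lob (angY [2 * p, 2 * q] w' i) + lob (angZ w' i)
        ≤ lob (angX [2 * p, 2 * q] (SWoppW p q y y') i)
          + lob (angY [2 * p, 2 * q] (SWoppW p q y y') i)
          + lob (angZ (SWoppW p q y y') i) - (E i - E (i - 1)) := by
      intro i hi
      have hi2 := hi
      rw [Finset.mem_Icc] at hi2
      obtain ⟨a', b', c'⟩ := hw'a i hi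
      obtain ⟨a, b, c⟩ := hang i hi2.1 hi2.2
      have htan := SWopp_tan (SWoppU p q y y' i) (him i hi2.1 hi2.2) _ _ _
        (angX [2 * p, 2 * q] w' i) (angY [2 * p, 2 * q] w' i) (angZ w' i) a b c a' b' c'
        (swmax_sum_ang _ _ _)
      refine htan.trans (le_of_eq ?_)
      congr 1
      have hZ : angZ w' i - angZ (SWoppW p q y y') i = - δ i := by
        simp only [hδ]
        unfold angZ; ring
      rw [hZ]
      rcases lt_trichotomy (i + 1) (2 * p) with hlt | heq | hgt
      · -- left fan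
        have hUi : SWoppU p q y y' i = swU y (i + 1) := by
          unfold SWoppU
          rw [if_pos (by omega)]
        obtain ⟨g1, g2⟩ := SWopp_logs p hp y hpos (i + 1) (by omega) (by omega)
        have hY : angY [2 * p, 2 * q] w' i - angY [2 * p, 2 * q] (SWoppW p q y y') i
            = δ i - (δ (i - 1) + δ (i + 1)) / 2 := by
          simp only [hδ]
          unfold angY
          rw [if_neg (fun h => by have := (SWopp_isHinge_iff p q i).1 h; omega),
            if_neg (fun h => by have := (SWopp_isHinge_iff p q i).1 h; omega)]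
          ring
        have e4 : i - 1 + 1 = i := by omega
        have e5 : i + 1 - 1 = i := by omega
        have hli : Real.log ‖Xs y (i + 1)‖ = l i := rfl
        have hli1 : Real.log ‖Xs y (i + 1 + 1)‖ = l (i + 1) := rfl
        have hli2 : Real.log ‖Xs y i‖ = l (i - 1) := by simp only [hl]; rw [e4]
        rw [e5, hli, hli1, hli2] at g2
        rw [hli] at g1
        have hEi : E i = l i * δ (i + 1) - l (i + 1) * δ i := by
          simp only [hE]; rw [if_pos hlt]
        have hEi1 : E (i - 1) = l (i - 1) * δ i - l i * δ (i - 1) := by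
          simp only [hE]; rw [if_pos (by omega), e4]
        rw [hUi, g1, g2, hY, hEi, hEi1]
        ring
      · -- hinge
        have hUi : SWoppU p q y y' i = swU y (2 * p) := by
          unfold SWoppU
          rw [if_pos (by omega), heq]
        have hY : angY [2 * p, 2 * q] w' i - angY [2 * p, 2 * q] (SWoppW p q y y') i
            = (δ (i + 1) + δ i - δ (i - 1)) / 2 := by
          simp only [hδ]
          unfold angY
          rw [if_pos ((SWopp_isHinge_iff p q i).2 heq), if_pos ((SWopp_isHinge_iff p q i).2 heq)]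
          ring
        have e4 : i - 1 + 1 = i := by omega
        have hli : Real.log ‖Xs y (2 * p)‖ = l i := by simp only [hl]; rw [heq]
        have hli2 : Real.log ‖Xs y (2 * p - 1)‖ = l (i - 1) := by
          simp only [hl]; rw [e4]; congr 3; omega
        have hri : Real.log ‖Xs y' (2 * q)‖ = r i := by
          simp only [hr]; congr 3; omega
        have hri1 : Real.log ‖Xs y' (2 * q - 1)‖ = r (i + 1) := by
          simp only [hr]; congr 3; omega
        rw [hri, hli] at nn1
        rw [hli] at nn2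
        rw [hli, hli2, hri1] at nn3
        have hEi : E i = r i * δ (i + 1) - r (i + 1) * δ i := by
          simp only [hE]; rw [if_neg (by omega)]
        have hEi1 : E (i - 1) = l (i - 1) * δ i - l i * δ (i - 1) := by
          simp only [hE]; rw [if_pos (by omega), e4]
        rw [hUi, nn2, nn3, hY, hEi, hEi1, nn1]
        ring
      · -- right fan
        have hUi : SWoppU p q y y' i = swU y' (2 * p + 2 * q - 1 - i) := by
          unfold SWoppU
          rw [if_neg (by omega)]
        obtain ⟨g1, g2⟩ := SWopp_logs q hq y' hpos' (2 * p + 2 * q - 1 - i) (by omega) (by omega)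
        have hY : angY [2 * p, 2 * q] w' i - angY [2 * p, 2 * q] (SWoppW p q y y') i
            = δ i - (δ (i - 1) + δ (i + 1)) / 2 := by
          simp only [hδ]
          unfold angY
          rw [if_neg (fun h => by have := (SWopp_isHinge_iff p q i).1 h; omega),
            if_neg (fun h => by have := (SWopp_isHinge_iff p q i).1 h; omega)]
          ring
        have e4 : i - 1 + 1 = i := by omega
        have hri : Real.log ‖Xs y' (2 * p + 2 * q - 1 - i)‖ = r i := rfl
        have hri1 : Real.log ‖Xs y' (2 * p + 2 * q - 1 - i + 1)‖ = r (i - 1) := by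
          simp only [hr]; congr 3; omega
        have hri2 : Real.log ‖Xs y' (2 * p + 2 * q - 1 - i - 1)‖ = r (i + 1) := by
          simp only [hr]; congr 3
        rw [hri, hri1, hri2] at g2
        rw [hri] at g1
        have hEi : E i = r i * δ (i + 1) - r (i + 1) * δ i := by
          simp only [hE]; rw [if_neg (by omega)]
        have hEi1 : E (i - 1) = r (i - 1) * δ i - r i * δ (i - 1) := by
          simp only [hE]; rw [if_neg (by omega), e4]
        rw [hUi, g1, g2, hY, hEi, hEi1]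
        ring
    have htel : ∀ m, ∑ i ∈ Finset.Icc 1 m, (E i - E (i - 1)) = E m - E 0 := by
      intro m
      induction m with
      | zero => simp
      | succ m ih =>
        rw [Finset.sum_Icc_succ_top (by omega), ih]
        have : m + 1 - 1 = m := by omega
        rw [this]; ring
    have hsum := Finset.sum_le_sum hlin
    rw [Finset.sum_sub_distrib, htel] at hsum
    have hδ0 : δ 0 = 0 := by simp only [hδ]; rw [hw0, hw'0, sub_self]
    have hδl : δ (2 * p + 2 * q - 2) = 0 := by simp only [hδ]; rw [hwl, hw'l, sub_self]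
    have hl0 : l 0 = 0 := by
      simp only [hl]
      rw [zero_add, Xs_one, norm_one, Real.log_one]
    have hrl : r (2 * p + 2 * q - 2) = 0 := by
      simp only [hr]
      have e : 2 * p + 2 * q - 1 - (2 * p + 2 * q - 2) = 1 := by omega
      rw [e, Xs_one, norm_one, Real.log_one]
    have hE0 : E 0 = 0 := by
      simp only [hE]; rw [if_pos (by omega), hl0, hδ0]; ring
    have hEl : E (2 * p + 2 * q - 3) = 0 := by
      simp only [hE]
      have e : 2 * p + 2 * q - 3 + 1 = 2 * p + 2 * q - 2 := by omega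
      rw [if_neg (by omega), e, hrl, hδl]; ring
    rw [hE0, hEl, sub_zero, sub_zero] at hsum
    unfold structureVolume
    rw [hasum]
    linarith

end Pool.Agent.H63.VC3
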