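import Pool.Agent.H63.VC.SWmax

/-! # The maximum of the volume functional for `C(2p-1, 1, 2q-1)` -/

namespace Pool.Agent.H63.VC3

open Pool.Agent.H63.VC

open Real Set

/-- Master lemma: an angle structure given by shapes, with telescoping linear terms, is a
maximum. -/
theorem SWsame_master (a : List ℕ) (w : ℕ → ℝ) (u : ℕ → ℂ) (E : (ℕ → ℝ) → ℕ → ℝ)
    (hw0 : w 0 = π) (hwl : w (a.sum - 2) = π)
    (hang : ∀ i, 1 ≤ i → i ≤ a.sum - 3 → 0 < (u i).im ∧ angZ w i = Complex.arg (u i) ∧
      ((angX a w i = Complex.arg (1 - (u i)⁻¹) ∧ ∀ w' : ℕ → ℝ, w' 0 = π → w' (a.sum - 2) = π →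
          E w' i - E w' (i - 1) = Real.log ‖u i‖ * (angY a w' i - angY a w i)
            + Real.log ‖1 - u i‖ * (angZ w' i - angZ w i)) ∨
       (angY a w i = Complex.arg (1 - (u i)⁻¹) ∧ ∀ w' : ℕ → ℝ, w' 0 = π → w' (a.sum - 2) = π →
          E w' i - E w' (i - 1) = Real.log ‖u i‖ * (angX a w' i - angX a w i)
            + Real.log ‖1 - u i‖ * (angZ w' i - angZ w i))))
    (hE0 : ∀ w' : ℕ → ℝ, w' 0 = π → w' (a.sum - 2) = π → E w' 0 = 0)
    (hEl : ∀ w' : ℕ → ℝ, w' 0 = π → w' (a.sum - 2) = π → E w' (a.sum - 3) = 0) :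
    IsGreatest (structureVolumes a) (2 * ∑ i ∈ Finset.Icc 1 (a.sum - 3), blochWigner (u i)) := by
  have hpi := pi_pos
  have hvol : structureVolume a w = 2 * ∑ i ∈ Finset.Icc 1 (a.sum - 3), blochWigner (u i) := by
    unfold structureVolume
    congr 1
    apply Finset.sum_congr rfl
    intro i hi
    rw [Finset.mem_Icc] at hi
    obtain ⟨hu, hZ, h⟩ := hang i hi.1 hi.2
    have htet := tet_angles _ hu
    have hs := swmax_sum_ang a w i
    have hsum := htet.2.2.2.1
    unfold blochWigner
    rcases h with ⟨hX, _⟩ | ⟨hY, _⟩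
    · have hY : angY a w i = Complex.arg (1 - u i)⁻¹ := by
        rw [hX, hZ] at hs; linarith
      rw [hX, hY, hZ]; ring
    · have hX : angX a w i = Complex.arg (1 - u i)⁻¹ := by
        rw [hY, hZ] at hs; linarith
      rw [hX, hY, hZ]; ring
  constructor
  · refine ⟨w, ⟨hw0, hwl, ?_⟩, hvol.symm⟩
    intro i hi
    rw [Finset.mem_Icc] at hi
    obtain ⟨hu, hZ, h⟩ := hang i hi.1 hi.2
    have htet := tet_angles _ hu
    have hs := swmax_sum_ang a w i
    have hsum := htet.2.2.2.1
    rcases h with ⟨hX, _⟩ | ⟨hY, _⟩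
    · have hY : angY a w i = Complex.arg (1 - u i)⁻¹ := by
        rw [hX, hZ] at hs; linarith
      rw [hX, hY, hZ]
      exact ⟨htet.2.2.1, htet.2.1, htet.1⟩
    · have hX : angX a w i = Complex.arg (1 - u i)⁻¹ := by
        rw [hY, hZ] at hs; linarith
      rw [hX, hY, hZ]
      exact ⟨htet.2.1, htet.2.2.1, htet.1⟩
  · rintro v ⟨w', ⟨hw'0, hw'l, hw'a⟩, rfl⟩
    rw [← hvol]
    have hlin : ∀ i ∈ Finset.Icc 1 (a.sum - 3),
        lob (angX a w' i) + lob (angY a w' i) + lob (angZ w' i)
        ≤ lob (angX a w i) + lob (angY a w i)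
          + lob (angZ w i) - (E w' i - E w' (i - 1)) := by
      intro i hi
      obtain ⟨a', b', c'⟩ := hw'a i hi
      rw [Finset.mem_Icc] at hi
      obtain ⟨hu, hZ, h⟩ := hang i hi.1 hi.2
      have htet := tet_angles _ hu
      have hs := swmax_sum_ang a w i
      have hs' := swmax_sum_ang a w' i
      have hsum := htet.2.2.2.1
      have hn1 : 0 < ‖u i‖ := by
        rw [norm_pos_iff]; rintro h0; rw [h0] at hu; simp at hu
      have hn2 : 0 < ‖1 - u i‖ := by
        rw [norm_pos_iff]; intro h0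
        have h1 := congrArg Complex.im h0
        simp at h1
        linarith
      rcases h with ⟨hX, hT⟩ | ⟨hY, hT⟩
      · have hY : angY a w i = Complex.arg (1 - u i)⁻¹ := by
          rw [hX, hZ] at hs; linarith
        have htan := tet_tangent (angX a w i) (angY a w i)
          (angZ w i) (angX a w' i) (angY a w' i) (angZ w' i)
          (by rw [hX]; exact htet.2.2.1) (by rw [hY]; exact htet.2.1) (by rw [hZ]; exact htet.1)
          hs a' b' c' hs'
        refine htan.trans (le_of_eq ?_)
        congr 1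
        rw [hT w' hw'0 hw'l]
        have hsX : 0 < Real.sin (angX a w i) := by
          rw [hX]
          exact Real.sin_pos_of_pos_of_lt_pi htet.2.2.1 (by linarith [htet.1, htet.2.1])
        have hsY : Real.sin (angY a w i) = ‖u i‖ * Real.sin (angX a w i) := by
          rw [hX, hY]; exact htet.2.2.2.2.1
        have hsZ : Real.sin (angZ w i) = ‖1 - u i‖ * Real.sin (angX a w i) := by
          rw [hX, hZ]; exact htet.2.2.2.2.2
        set sX := Real.sin (angX a w i) with hsXdef
        have hLY : Real.log (2 * Real.sin (angY a w i)) = Real.log ‖u i‖ + Real.log (2 * sX) := by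
          rw [hsY, ← Real.log_mul hn1.ne' (by positivity)]
          congr 1; ring
        have hLZ : Real.log (2 * Real.sin (angZ w i)) = Real.log ‖1 - u i‖ + Real.log (2 * sX) := by
          rw [hsZ, ← Real.log_mul hn2.ne' (by positivity)]
          congr 1; ring
        rw [hLY, hLZ]
        linear_combination (Real.log (2 * sX)) * (hs' - hs)
      · have hX : angX a w i = Complex.arg (1 - u i)⁻¹ := by
          rw [hY, hZ] at hs; linarith
        have htan := tet_tangent (angX a w i) (angY a w i)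
          (angZ w i) (angX a w' i) (angY a w' i) (angZ w' i)
          (by rw [hX]; exact htet.2.1) (by rw [hY]; exact htet.2.2.1) (by rw [hZ]; exact htet.1)
          hs a' b' c' hs'
        refine htan.trans (le_of_eq ?_)
        congr 1
        rw [hT w' hw'0 hw'l]
        have hsY : 0 < Real.sin (angY a w i) := by
          rw [hY]
          exact Real.sin_pos_of_pos_of_lt_pi htet.2.2.1 (by linarith [htet.1, htet.2.1])
        have hsX : Real.sin (angX a w i) = ‖u i‖ * Real.sin (angY a w i) := by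
          rw [hX, hY]; exact htet.2.2.2.2.1
        have hsZ : Real.sin (angZ w i) = ‖1 - u i‖ * Real.sin (angY a w i) := by
          rw [hY, hZ]; exact htet.2.2.2.2.2
        set sY := Real.sin (angY a w i) with hsYdef
        have hLX : Real.log (2 * Real.sin (angX a w i)) = Real.log ‖u i‖ + Real.log (2 * sY) := by
          rw [hsX, ← Real.log_mul hn1.ne' (by positivity)]
          congr 1; ring
        have hLZ : Real.log (2 * Real.sin (angZ w i)) = Real.log ‖1 - u i‖ + Real.log (2 * sY) := by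
          rw [hsZ, ← Real.log_mul hn2.ne' (by positivity)]
          congr 1; ring
        rw [hLX, hLZ]
        linear_combination (Real.log (2 * sY)) * (hs' - hs)
    have htel : ∀ m, ∑ i ∈ Finset.Icc 1 m, (E w' i - E w' (i - 1)) = E w' m - E w' 0 := by
      intro m
      induction m with
      | zero => simp
      | succ m ih =>
        rw [Finset.sum_Icc_succ_top (by omega), ih]
        have : m + 1 - 1 = m := by omega
        rw [this]; ring
    have hsum := Finset.sum_le_sum hlin
    rw [Finset.sum_sub_distrib, htel, hE0 w' hw'0 hw'l, hEl w' hw'0 hw'l, sub_zero, sub_zero] at hsum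
    unfold structureVolume
    linarith


section fan

variable (m : ℕ) (y : ℂ) (hpos : ∀ k, 2 ≤ k → k ≤ m → 0 < ((Xs y k ^ 2)⁻¹).im)
include hpos

theorem SWsame_X_ne (k : ℕ) (hk : 1 ≤ k) (hk2 : k ≤ m) : Xs y k ≠ 0 := by
  rcases hk.eq_or_lt with h | h
  · rw [← h, Xs_one]; exact one_ne_zero
  · intro h0
    have := hpos k h hk2
    rw [h0] at this
    simp at this

theorem SWsame_U_ne (k : ℕ) (hk : 1 ≤ k) (hk2 : k ≤ m) : swU y k ≠ 0 :=
  inv_ne_zero (pow_ne_zero 2 (SWsame_X_ne m y hpos k hk hk2))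

theorem SWsame_arg_bd (k : ℕ) (hk : 1 ≤ k) (hk2 : k ≤ m) :
    0 ≤ Complex.arg (swU y k) ∧ Complex.arg (swU y k) < π := by
  rcases hk.eq_or_lt with h | h
  · rw [← h]
    unfold swU
    rw [Xs_one]
    simp [pi_pos]
  · have h3 := swtan_arg _ (hpos k h hk2)
    exact ⟨h3.1.le, h3.2⟩

/-- The angle relation. -/
theorem SWsame_arg_rel (k : ℕ) (hk : 2 ≤ k) (hk2 : k + 1 ≤ m) :
    2 * Complex.arg (1 - (swU y k)⁻¹) = 2 * π - Complex.arg (swU y (k + 1)) - Complex.arg (swU y (k - 1)) := by
  have hX1 := SWsame_X_ne m y hpos (k + 1) (by omega) hk2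
  have hX2 := SWsame_X_ne m y hpos (k - 1) (by omega) (by omega)
  have hU1 := SWsame_U_ne m y hpos (k + 1) (by omega) hk2
  have hU2 := SWsame_U_ne m y hpos (k - 1) (by omega) (by omega)
  have hA := swmax_one_sub y k (by omega)
  set A : ℂ := 1 - (swU y k)⁻¹ with hAdef
  have hA0 : A ≠ 0 := by
    rw [hA, neg_ne_zero]
    exact mul_ne_zero hX1 hX2
  have hprod : A * A * (swU y (k + 1) * swU y (k - 1)) = 1 := by
    rw [hA]
    unfold swU
    field_simp
  have hang : ((Complex.arg A + Complex.arg A + (Complex.arg (swU y (k + 1)) +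
      Complex.arg (swU y (k - 1))) : ℝ) : Real.Angle) = 0 := by
    rw [Real.Angle.coe_add, Real.Angle.coe_add, Real.Angle.coe_add,
      ← Complex.arg_mul_coe_angle hA0 hA0, ← Complex.arg_mul_coe_angle hU1 hU2,
      ← Complex.arg_mul_coe_angle (mul_ne_zero hA0 hA0) (mul_ne_zero hU1 hU2), hprod,
      Complex.arg_one, Real.Angle.coe_zero]
  rw [Real.Angle.coe_eq_zero_iff] at hang
  obtain ⟨n, hn⟩ := hang
  rw [zsmul_eq_mul] at hn
  have hu : 0 < (swU y k).im := hpos k hk (by omega)
  have htet := tet_angles _ hu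
  rw [← hAdef] at htet
  have hγ := htet.2.2.1
  have hγ2 : Complex.arg A < π := by linarith [htet.1, htet.2.1, htet.2.2.2.1]
  have hb1 := swtan_arg _ (hpos (k + 1) (by omega) hk2)
  have eU : (Xs y (k + 1) ^ 2)⁻¹ = swU y (k + 1) := rfl
  rw [eU] at hb1
  have h2 := SWsame_arg_bd m y hpos (k - 1) (by omega) (by omega)
  have hpi := pi_pos
  have hn1 : (0 : ℝ) < n := by
    by_contra hcon
    push Not at hcon
    nlinarith [h2.1]
  have hn2 : (n : ℝ) < 2 := by
    by_contra hcon
    push Not at hcon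
    nlinarith [h2.2]
  have hn3 : n = 1 := by
    have a1 : 0 < n := by exact_mod_cast hn1
    have a2 : n < 2 := by exact_mod_cast hn2
    omega
  rw [hn3] at hn
  push_cast at hn
  linarith

end fan

/-- The argument relation at a hinge. -/
theorem SWsame_hinge (m : ℕ) (hm : 2 ≤ m) (y : ℂ)
    (hpos : ∀ k, 2 ≤ k → k ≤ m + 1 → 0 < ((Xs y k ^ 2)⁻¹).im) (v : ℂ) (hv : 0 < v.im)
    (h : Xs y (m + 2) ^ 2 * v⁻¹ = -(Xs y (m + 1) ^ 2)) :
    2 * Complex.arg (1 - (swU y (m + 1))⁻¹) =
      π + Complex.arg v - Complex.arg (swU y (m + 1)) - Complex.arg (swU y m) := by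
  have hX1 := SWsame_X_ne (m + 1) y hpos (m + 1) (by omega) le_rfl
  have hX2 := SWsame_X_ne (m + 1) y hpos m (by omega) (by omega)
  have hU1 := SWsame_U_ne (m + 1) y hpos (m + 1) (by omega) le_rfl
  have hU2 := SWsame_U_ne (m + 1) y hpos m (by omega) (by omega)
  have hv0 : v ≠ 0 := by rintro rfl; simp at hv
  have hX3 : Xs y (m + 2) ≠ 0 := by
    intro h0
    rw [h0] at h
    apply hX1
    have : Xs y (m + 1) ^ 2 = 0 := by linear_combination h
    exact pow_eq_zero_iff (two_ne_zero) |>.1 this
  have hA := swmax_one_sub y (m + 1) (by omega)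
  have e1 : m + 1 - 1 = m := by omega
  have e2 : m + 1 + 1 = m + 2 := by omega
  rw [e1, e2] at hA
  set A : ℂ := 1 - (swU y (m + 1))⁻¹ with hAdef
  have hA0 : A ≠ 0 := by
    rw [hA, neg_ne_zero]
    exact mul_ne_zero hX3 hX2
  have hprod : A * A * (swU y (m + 1) * swU y m) = -v := by
    rw [hA]
    have h' : Xs y (m + 2) ^ 2 = -(Xs y (m + 1) ^ 2) * v := by
      have : Xs y (m + 2) ^ 2 = (Xs y (m + 2) ^ 2 * v⁻¹) * v := by
        field_simp
      rw [this, h]
    have h2 : -(Xs y (m + 2) * Xs y m) * -(Xs y (m + 2) * Xs y m) = Xs y (m + 2) ^ 2 * Xs y m ^ 2 := by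
      ring
    rw [h2, h']
    unfold swU
    field_simp
  have hu : 0 < (swU y (m + 1)).im := hpos (m + 1) (by omega) le_rfl
  have htet := tet_angles _ hu
  rw [← hAdef] at htet
  have hu2 : 0 < (swU y m).im := hpos m hm (by omega)
  have hb1 := swtan_arg _ hu
  have hb2 := swtan_arg _ hu2
  have hb3 := swtan_arg _ hv
  have hγ := htet.2.2.1
  have hβ := htet.2.1
  have hsum := htet.2.2.2.1
  have hpi := pi_pos
  have hang : ((Complex.arg A + Complex.arg A + (Complex.arg (swU y (m + 1)) +
      Complex.arg (swU y m)) : ℝ) : Real.Angle) = ((π + Complex.arg v : ℝ) : Real.Angle) := by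
    rw [Real.Angle.coe_add, Real.Angle.coe_add, Real.Angle.coe_add, Real.Angle.coe_add,
      ← Complex.arg_mul_coe_angle hA0 hA0, ← Complex.arg_mul_coe_angle hU1 hU2,
      ← Complex.arg_mul_coe_angle (mul_ne_zero hA0 hA0) (mul_ne_zero hU1 hU2), hprod,
      ← Complex.arg_neg_one, ← Complex.arg_mul_coe_angle (by norm_num) hv0]
    congr 2
    ring
  rw [Real.Angle.angle_eq_iff_two_pi_dvd_sub] at hang
  obtain ⟨n, hn⟩ := hang
  -- `2γ + a + b - π - arg v = 2π n`
  have hn1 : (-1 : ℝ) < n := by
    by_contra hcon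
    push Not at hcon
    nlinarith [hb1.1, hb2.1, hb3.2]
  have hn2 : (n : ℝ) < 1 := by
    by_contra hcon
    push Not at hcon
    nlinarith [hb1.1, hb2.2, hb3.1]
  have hn3 : n = 0 := by
    have a1 : -1 < n := by exact_mod_cast hn1
    have a2 : n < 1 := by exact_mod_cast hn2
    omega
  rw [hn3] at hn
  push_cast at hn
  linarith

theorem SWsame_log (y : ℂ) (k : ℕ) (hk : 1 ≤ k) (h0 : Xs y k ≠ 0) (h1 : Xs y (k + 1) ≠ 0)
    (h2 : Xs y (k - 1) ≠ 0) :
    Real.log ‖swU y k‖ = -2 * Real.log ‖Xs y k‖ ∧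
    Real.log ‖1 - swU y k‖ = -2 * Real.log ‖Xs y k‖ + Real.log ‖Xs y (k + 1)‖
      + Real.log ‖Xs y (k - 1)‖ := by
  have hU : swU y k ≠ 0 := inv_ne_zero (pow_ne_zero 2 h0)
  have hlogu : Real.log ‖swU y k‖ = -2 * Real.log ‖Xs y k‖ := by
    unfold swU
    rw [norm_inv, norm_pow, Real.log_inv, Real.log_pow]
    push_cast; ring
  refine ⟨hlogu, ?_⟩
  have hone : 1 - swU y k = swU y k * (Xs y (k + 1) * Xs y (k - 1)) := by
    have h1 := swmax_one_sub y k hk
    have h2 : swU y k * (swU y k)⁻¹ = 1 := mul_inv_cancel₀ hU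
    linear_combination (-swU y k) * h1 - h2
  rw [hone, norm_mul, norm_mul, Real.log_mul (norm_ne_zero_iff.2 hU)
    (mul_ne_zero (norm_ne_zero_iff.2 h1) (norm_ne_zero_iff.2 h2)),
    Real.log_mul (norm_ne_zero_iff.2 h1) (norm_ne_zero_iff.2 h2), hlogu]
  ring

theorem SWsame_isHinge_iff (p q i : ℕ) (hp : 2 ≤ p) :
    IsHinge [2 * p - 1, 1, 2 * q - 1] i ↔ i + 1 = 2 * p - 1 ∨ i + 1 = 2 * p := by
  unfold IsHinge
  constructor
  · rintro ⟨j, h1, h2, h3⟩
    simp only [List.length_cons, List.length_nil] at h2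
    have : j = 1 ∨ j = 2 := by omega
    rcases this with rfl | rfl
    · left; simpa using h3
    · right
      simp at h3
      omega
  · rintro (h | h)
    · exact ⟨1, le_rfl, by simp, by simpa using h⟩
    · refine ⟨2, by omega, by simp, ?_⟩
      simp
      omega

/-- The shapes of the geometric structure. -/
noncomputable def SWsame_u (p q : ℕ) (y y' : ℂ) (i : ℕ) : ℂ :=
  if i ≤ 2 * p - 2 then swU y (i + 1) else swU y' (2 * p + 2 * q - 2 - i)

/-- The angle structure. -/
noncomputable def SWsame_w (p q : ℕ) (y y' : ℂ) (i : ℕ) : ℝ := π - Complex.arg (SWsame_u p q y y' i)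

/-- The logarithms of the lengths. -/
noncomputable def SWsame_l (p q : ℕ) (y y' : ℂ) (i : ℕ) : ℝ :=
  if i ≤ 2 * p - 2 then Real.log ‖Xs y (i + 1)‖ else Real.log ‖Xs y' (2 * p + 2 * q - 2 - i)‖

/-- The telescoping term. -/
noncomputable def SWsame_E (p q : ℕ) (y y' : ℂ) (w' : ℕ → ℝ) (i : ℕ) : ℝ :=
  (if i = 2 * p - 2 then -1 else 1) *
    (SWsame_l p q y y' i * (w' (i + 1) - SWsame_w p q y y' (i + 1))
      - SWsame_l p q y y' (i + 1) * (w' i - SWsame_w p q y y' i))

theorem sw_max_same (p q : ℕ) (hp : 2 ≤ p) (hq : 2 ≤ q) (y y' : ℂ)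
    (hpos : ∀ k, 2 ≤ k → k ≤ 2 * p - 1 → 0 < ((Xs y k ^ 2)⁻¹).im)
    (hpos' : ∀ k, 2 ≤ k → k ≤ 2 * q - 1 → 0 < ((Xs y' k ^ 2)⁻¹).im)
    (h1 : Xs y (2 * p) ^ 2 * Xs y' (2 * q) ^ 2 = 1)
    (h2 : Xs y (2 * p - 1) ^ 2 = -(Xs y (2 * p) ^ 2 * Xs y' (2 * q - 1) ^ 2)) :
    IsGreatest (structureVolumes [2 * p - 1, 1, 2 * q - 1])
      (2 * ∑ k ∈ Finset.Icc 2 (2 * p - 1), blochWigner ((Xs y k ^ 2)⁻¹)
        + 2 * ∑ k ∈ Finset.Icc 2 (2 * q - 1), blochWigner ((Xs y' k ^ 2)⁻¹)) := by
  have hpi := pi_pos
  have hasum : ([2 * p - 1, 1, 2 * q - 1] : List ℕ).sum = 2 * p + 2 * q - 1 := by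
    simp; omega
  have hs3 : 2 * p + 2 * q - 1 - 3 = 2 * p + 2 * q - 4 := by omega
  have hs2 : 2 * p + 2 * q - 1 - 2 = 2 * p + 2 * q - 3 := by omega
  -- nonvanishing
  have hXp : Xs y (2 * p) ≠ 0 := by
    intro h0; rw [h0] at h1; simp at h1
  have hXq : Xs y' (2 * q) ≠ 0 := by
    intro h0; rw [h0] at h1; simp at h1
  have hXy := SWsame_X_ne (2 * p - 1) y hpos
  have hXy' := SWsame_X_ne (2 * q - 1) y' hpos'
  have hx1 := hXy (2 * p - 1) (by omega) le_rfl
  have hx1' := hXy' (2 * q - 1) (by omega) le_rfl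
  -- logarithms of the gluing relations
  have hL1 : Real.log ‖Xs y (2 * p)‖ + Real.log ‖Xs y' (2 * q)‖ = 0 := by
    have h := congrArg (fun z => Real.log ‖z‖) h1
    simp only [norm_mul, norm_pow, norm_one, Real.log_one] at h
    rw [Real.log_mul (pow_ne_zero 2 (norm_ne_zero_iff.2 hXp))
      (pow_ne_zero 2 (norm_ne_zero_iff.2 hXq)), Real.log_pow, Real.log_pow] at h
    push_cast at h
    linarith
  have hL2 : Real.log ‖Xs y (2 * p - 1)‖ = Real.log ‖Xs y (2 * p)‖ + Real.log ‖Xs y' (2 * q - 1)‖ := by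
    have h := congrArg (fun z => Real.log ‖z‖) h2
    simp only [norm_mul, norm_pow, norm_neg] at h
    rw [Real.log_mul (pow_ne_zero 2 (norm_ne_zero_iff.2 hXp))
      (pow_ne_zero 2 (norm_ne_zero_iff.2 hx1')), Real.log_pow, Real.log_pow, Real.log_pow] at h
    push_cast at h
    linarith
  -- the geometric structure
  have hval : 2 * ∑ k ∈ Finset.Icc 2 (2 * p - 1), blochWigner ((Xs y k ^ 2)⁻¹)
        + 2 * ∑ k ∈ Finset.Icc 2 (2 * q - 1), blochWigner ((Xs y' k ^ 2)⁻¹)
      = 2 * ∑ i ∈ Finset.Icc 1 (([2 * p - 1, 1, 2 * q - 1] : List ℕ).sum - 3),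
          blochWigner (SWsame_u p q y y' i) := by
    rw [hasum, hs3]
    have e1 : Finset.Icc 1 (2 * p + 2 * q - 4) = Finset.Ico 1 (2 * p + 2 * q - 3) := by
      ext i; simp only [Finset.mem_Icc, Finset.mem_Ico]; omega
    rw [e1, ← Finset.sum_Ico_consecutive _ (by omega : 1 ≤ 2 * p - 1)
      (by omega : 2 * p - 1 ≤ 2 * p + 2 * q - 3), mul_add]
    congr 2
    · apply Finset.sum_nbij' (fun k => k - 1) (fun i => i + 1)
      · intro i hi; rw [Finset.mem_Icc] at hi; rw [Finset.mem_Ico]; omega
      · intro k hk; rw [Finset.mem_Ico] at hk; rw [Finset.mem_Icc]; omega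
      · intro k hk; rw [Finset.mem_Icc] at hk; omega
      · intro i hi; rw [Finset.mem_Ico] at hi; omega
      · intro k hk
        rw [Finset.mem_Icc] at hk
        unfold SWsame_u
        rw [if_pos (by omega)]
        have : k - 1 + 1 = k := by omega
        rw [this]; rfl
    · apply Finset.sum_nbij' (fun k => 2 * p + 2 * q - 2 - k) (fun i => 2 * p + 2 * q - 2 - i)
      · intro i hi; rw [Finset.mem_Icc] at hi; rw [Finset.mem_Ico]; omega
      · intro k hk; rw [Finset.mem_Ico] at hk; rw [Finset.mem_Icc]; omega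
      · intro k hk; rw [Finset.mem_Icc] at hk; omega
      · intro i hi; rw [Finset.mem_Ico] at hi; omega
      · intro k hk
        rw [Finset.mem_Icc] at hk
        unfold SWsame_u
        rw [if_neg (by omega)]
        have : 2 * p + 2 * q - 2 - (2 * p + 2 * q - 2 - k) = k := by omega
        rw [this]; rfl
  rw [hval]
  have hU1 : ∀ z : ℂ, swU z 1 = 1 := by intro z; unfold swU; rw [Xs_one]; simp
  have hw0 : SWsame_w p q y y' 0 = π := by
    unfold SWsame_w SWsame_u
    rw [if_pos (by omega)]
    rw [zero_add, hU1, Complex.arg_one, sub_zero]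
  have hwl : SWsame_w p q y y' (2 * p + 2 * q - 3) = π := by
    unfold SWsame_w SWsame_u
    rw [if_neg (by omega)]
    have : 2 * p + 2 * q - 2 - (2 * p + 2 * q - 3) = 1 := by omega
    rw [this, hU1, Complex.arg_one, sub_zero]
  have hl0 : SWsame_l p q y y' 0 = 0 := by
    unfold SWsame_l
    rw [if_pos (by omega), zero_add, Xs_one, norm_one, Real.log_one]
  have hll : SWsame_l p q y y' (2 * p + 2 * q - 3) = 0 := by
    unfold SWsame_l
    rw [if_neg (by omega)]
    have : 2 * p + 2 * q - 2 - (2 * p + 2 * q - 3) = 1 := by omega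
    rw [this, Xs_one, norm_one, Real.log_one]
  apply SWsame_master [2 * p - 1, 1, 2 * q - 1] (SWsame_w p q y y') (SWsame_u p q y y')
    (SWsame_E p q y y') hw0 (by rw [hasum, hs2]; exact hwl)
  · rw [hasum, hs3, hs2]
    intro i hi1 hi2
    have hdw : ∀ w' : ℕ → ℝ, angZ w' i - angZ (SWsame_w p q y y') i
        = -(w' i - SWsame_w p q y y' i) := by
      intro w'; unfold angZ; ring
    have hZ : angZ (SWsame_w p q y y') i = Complex.arg (SWsame_u p q y y' i) := by
      unfold angZ SWsame_w; ring
    have hcases : i + 1 < 2 * p - 1 ∨ i = 2 * p - 2 ∨ i = 2 * p - 1 ∨ 2 * p ≤ i := by omega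
    rcases hcases with hi | hi | hi | hi
    · -- left fan
      have hnh : ¬ IsHinge [2 * p - 1, 1, 2 * q - 1] i := by
        rw [SWsame_isHinge_iff p q i hp]; omega
      have u0 : SWsame_u p q y y' i = swU y (i + 1) := by
        unfold SWsame_u; rw [if_pos (by omega)]
      have u1 : SWsame_u p q y y' (i + 1) = swU y (i + 2) := by
        unfold SWsame_u; rw [if_pos (by omega)]
      have u2 : SWsame_u p q y y' (i - 1) = swU y i := by
        unfold SWsame_u; rw [if_pos (by omega)]
        have : i - 1 + 1 = i := by omega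
        rw [this]
      have l0 : SWsame_l p q y y' i = Real.log ‖Xs y (i + 1)‖ := by
        unfold SWsame_l; rw [if_pos (by omega)]
      have l1 : SWsame_l p q y y' (i + 1) = Real.log ‖Xs y (i + 2)‖ := by
        unfold SWsame_l; rw [if_pos (by omega)]
      have l2 : SWsame_l p q y y' (i - 1) = Real.log ‖Xs y i‖ := by
        unfold SWsame_l; rw [if_pos (by omega)]
        have : i - 1 + 1 = i := by omega
        rw [this]
      have hrel := SWsame_arg_rel (2 * p - 1) y hpos (i + 1) (by omega) (by omega)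
      have e1 : i + 1 - 1 = i := by omega
      have e2 : i + 1 + 1 = i + 2 := by omega
      rw [e1, e2] at hrel
      have hlog := SWsame_log y (i + 1) (by omega) (hXy _ (by omega) (by omega))
        (hXy _ (by omega) (by omega)) (by rw [e1]; exact hXy _ (by omega) (by omega))
      rw [e1, e2] at hlog
      refine ⟨by rw [u0]; exact hpos (i + 1) (by omega) (by omega), hZ, Or.inl ⟨?_, ?_⟩⟩
      · unfold angX
        rw [if_neg hnh]
        unfold SWsame_w
        rw [u0, u1, u2]
        linarith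
      · intro w' hw'0 hw'l
        have hY : angY [2 * p - 1, 1, 2 * q - 1] w' i
            - angY [2 * p - 1, 1, 2 * q - 1] (SWsame_w p q y y') i
            = (w' i - SWsame_w p q y y' i) - ((w' (i - 1) - SWsame_w p q y y' (i - 1))
              + (w' (i + 1) - SWsame_w p q y y' (i + 1))) / 2 := by
          unfold angY
          rw [if_neg hnh, if_neg hnh]
          ring
        rw [hY, hdw, u0, hlog.1, hlog.2]
        unfold SWsame_E
        rw [if_neg (by omega), if_neg (by omega)]
        have e3 : i - 1 + 1 = i := by omega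
        rw [e3, l0, l1, l2]
        ring
    · -- first hinge
      have hh : IsHinge [2 * p - 1, 1, 2 * q - 1] i := by
        rw [SWsame_isHinge_iff p q i hp]; omega
      have u0 : SWsame_u p q y y' i = swU y (2 * p - 1) := by
        unfold SWsame_u; rw [if_pos (by omega)]
        have : i + 1 = 2 * p - 1 := by omega
        rw [this]
      have u1 : SWsame_u p q y y' (i + 1) = swU y' (2 * q - 1) := by
        unfold SWsame_u; rw [if_neg (by omega)]
        have : 2 * p + 2 * q - 2 - (i + 1) = 2 * q - 1 := by omega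
        rw [this]
      have u2 : SWsame_u p q y y' (i - 1) = swU y (2 * p - 2) := by
        unfold SWsame_u; rw [if_pos (by omega)]
        have : i - 1 + 1 = 2 * p - 2 := by omega
        rw [this]
      have l0 : SWsame_l p q y y' i = Real.log ‖Xs y (2 * p - 1)‖ := by
        unfold SWsame_l; rw [if_pos (by omega)]
        have : i + 1 = 2 * p - 1 := by omega
        rw [this]
      have l1 : SWsame_l p q y y' (i + 1) = Real.log ‖Xs y' (2 * q - 1)‖ := by
        unfold SWsame_l; rw [if_neg (by omega)]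
        have : 2 * p + 2 * q - 2 - (i + 1) = 2 * q - 1 := by omega
        rw [this]
      have l2 : SWsame_l p q y y' (i - 1) = Real.log ‖Xs y (2 * p - 2)‖ := by
        unfold SWsame_l; rw [if_pos (by omega)]
        have : i - 1 + 1 = 2 * p - 2 := by omega
        rw [this]
      have a1 : 2 * p - 2 + 2 = 2 * p := by omega
      have a2 : 2 * p - 2 + 1 = 2 * p - 1 := by omega
      have hrel := SWsame_hinge (2 * p - 2) (by omega) y (by rw [a2]; exact hpos)
        (swU y' (2 * q - 1)) (hpos' (2 * q - 1) (by omega) le_rfl) (by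
          rw [a1, a2, h2]
          unfold swU
          rw [inv_inv]
          ring)
      rw [a2] at hrel
      have e1 : 2 * p - 1 - 1 = 2 * p - 2 := by omega
      have e2 : 2 * p - 1 + 1 = 2 * p := by omega
      have hlog := SWsame_log y (2 * p - 1) (by omega) hx1
        (by rw [e2]; exact hXp) (by rw [e1]; exact hXy _ (by omega) (by omega))
      rw [e1, e2] at hlog
      refine ⟨by rw [u0]; exact hpos (2 * p - 1) (by omega) le_rfl, hZ, Or.inl ⟨?_, ?_⟩⟩
      · unfold angX
        rw [if_pos hh]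
        unfold SWsame_w
        rw [u0, u1, u2]
        linarith
      · intro w' hw'0 hw'l
        have hY : angY [2 * p - 1, 1, 2 * q - 1] w' i
            - angY [2 * p - 1, 1, 2 * q - 1] (SWsame_w p q y y') i
            = ((w' (i + 1) - SWsame_w p q y y' (i + 1)) + (w' i - SWsame_w p q y y' i)
              - (w' (i - 1) - SWsame_w p q y y' (i - 1))) / 2 := by
          unfold angY
          rw [if_pos hh, if_pos hh]
          ring
        rw [hY, hdw, u0, hlog.1, hlog.2]
        unfold SWsame_E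
        rw [if_pos (by omega), if_neg (by omega)]
        have e3 : i - 1 + 1 = i := by omega
        rw [e3, l0, l1, l2]
        linear_combination (-(w' i - SWsame_w p q y y' i)) * hL2
    · -- second hinge
      have hh : IsHinge [2 * p - 1, 1, 2 * q - 1] i := by
        rw [SWsame_isHinge_iff p q i hp]; omega
      have u0 : SWsame_u p q y y' i = swU y' (2 * q - 1) := by
        unfold SWsame_u; rw [if_neg (by omega)]
        have : 2 * p + 2 * q - 2 - i = 2 * q - 1 := by omega
        rw [this]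
      have u1 : SWsame_u p q y y' (i + 1) = swU y' (2 * q - 2) := by
        unfold SWsame_u; rw [if_neg (by omega)]
        have : 2 * p + 2 * q - 2 - (i + 1) = 2 * q - 2 := by omega
        rw [this]
      have u2 : SWsame_u p q y y' (i - 1) = swU y (2 * p - 1) := by
        unfold SWsame_u; rw [if_pos (by omega)]
        have : i - 1 + 1 = 2 * p - 1 := by omega
        rw [this]
      have l0 : SWsame_l p q y y' i = Real.log ‖Xs y' (2 * q - 1)‖ := by
        unfold SWsame_l; rw [if_neg (by omega)]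
        have : 2 * p + 2 * q - 2 - i = 2 * q - 1 := by omega
        rw [this]
      have l1 : SWsame_l p q y y' (i + 1) = Real.log ‖Xs y' (2 * q - 2)‖ := by
        unfold SWsame_l; rw [if_neg (by omega)]
        have : 2 * p + 2 * q - 2 - (i + 1) = 2 * q - 2 := by omega
        rw [this]
      have l2 : SWsame_l p q y y' (i - 1) = Real.log ‖Xs y (2 * p - 1)‖ := by
        unfold SWsame_l; rw [if_pos (by omega)]
        have : i - 1 + 1 = 2 * p - 1 := by omega
        rw [this]
      have a1 : 2 * q - 2 + 2 = 2 * q := by omega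
      have a2 : 2 * q - 2 + 1 = 2 * q - 1 := by omega
      have h3 : Xs y' (2 * q) ^ 2 * Xs y (2 * p - 1) ^ 2 = -(Xs y' (2 * q - 1) ^ 2) := by
        rw [h2]
        linear_combination (-(Xs y' (2 * q - 1) ^ 2)) * h1
      have hrel := SWsame_hinge (2 * q - 2) (by omega) y' (by rw [a2]; exact hpos')
        (swU y (2 * p - 1)) (hpos (2 * p - 1) (by omega) le_rfl) (by
          rw [a1, a2]
          unfold swU
          rw [inv_inv]
          exact h3)
      rw [a2] at hrel
      have e1 : 2 * q - 1 - 1 = 2 * q - 2 := by omega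
      have e2 : 2 * q - 1 + 1 = 2 * q := by omega
      have hlog := SWsame_log y' (2 * q - 1) (by omega) hx1'
        (by rw [e2]; exact hXq) (by rw [e1]; exact hXy' _ (by omega) (by omega))
      rw [e1, e2] at hlog
      refine ⟨by rw [u0]; exact hpos' (2 * q - 1) (by omega) le_rfl, hZ, Or.inr ⟨?_, ?_⟩⟩
      · unfold angY
        rw [if_pos hh]
        unfold SWsame_w
        rw [u0, u1, u2]
        linarith
      · intro w' hw'0 hw'l
        have hX : angX [2 * p - 1, 1, 2 * q - 1] w' i
            - angX [2 * p - 1, 1, 2 * q - 1] (SWsame_w p q y y') i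
            = ((w' (i - 1) - SWsame_w p q y y' (i - 1)) + (w' i - SWsame_w p q y y' i)
              - (w' (i + 1) - SWsame_w p q y y' (i + 1))) / 2 := by
          unfold angX
          rw [if_pos hh, if_pos hh]
          ring
        rw [hX, hdw, u0, hlog.1, hlog.2]
        unfold SWsame_E
        rw [if_neg (by omega), if_pos (by omega)]
        have e3 : i - 1 + 1 = i := by omega
        rw [e3, l0, l1, l2]
        linear_combination (w' i - SWsame_w p q y y' i) * (hL2 + hL1)
    · -- right fan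
      have hnh : ¬ IsHinge [2 * p - 1, 1, 2 * q - 1] i := by
        rw [SWsame_isHinge_iff p q i hp]; omega
      obtain ⟨k, hk⟩ : ∃ k, k = 2 * p + 2 * q - 2 - i := ⟨_, rfl⟩
      have u0 : SWsame_u p q y y' i = swU y' k := by
        unfold SWsame_u; rw [if_neg (by omega), ← hk]
      have u1 : SWsame_u p q y y' (i + 1) = swU y' (k - 1) := by
        unfold SWsame_u; rw [if_neg (by omega)]
        have : 2 * p + 2 * q - 2 - (i + 1) = k - 1 := by omega
        rw [this]
      have u2 : SWsame_u p q y y' (i - 1) = swU y' (k + 1) := by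
        unfold SWsame_u; rw [if_neg (by omega)]
        have : 2 * p + 2 * q - 2 - (i - 1) = k + 1 := by omega
        rw [this]
      have l0 : SWsame_l p q y y' i = Real.log ‖Xs y' k‖ := by
        unfold SWsame_l; rw [if_neg (by omega), ← hk]
      have l1 : SWsame_l p q y y' (i + 1) = Real.log ‖Xs y' (k - 1)‖ := by
        unfold SWsame_l; rw [if_neg (by omega)]
        have : 2 * p + 2 * q - 2 - (i + 1) = k - 1 := by omega
        rw [this]
      have l2 : SWsame_l p q y y' (i - 1) = Real.log ‖Xs y' (k + 1)‖ := by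
        unfold SWsame_l; rw [if_neg (by omega)]
        have : 2 * p + 2 * q - 2 - (i - 1) = k + 1 := by omega
        rw [this]
      have hrel := SWsame_arg_rel (2 * q - 1) y' hpos' k (by omega) (by omega)
      have hlog := SWsame_log y' k (by omega) (hXy' _ (by omega) (by omega))
        (hXy' _ (by omega) (by omega)) (hXy' _ (by omega) (by omega))
      refine ⟨by rw [u0]; exact hpos' k (by omega) (by omega), hZ, Or.inl ⟨?_, ?_⟩⟩
      · unfold angX
        rw [if_neg hnh]
        unfold SWsame_w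
        rw [u0, u1, u2]
        linarith
      · intro w' hw'0 hw'l
        have hY : angY [2 * p - 1, 1, 2 * q - 1] w' i
            - angY [2 * p - 1, 1, 2 * q - 1] (SWsame_w p q y y') i
            = (w' i - SWsame_w p q y y' i) - ((w' (i - 1) - SWsame_w p q y y' (i - 1))
              + (w' (i + 1) - SWsame_w p q y y' (i + 1))) / 2 := by
          unfold angY
          rw [if_neg hnh, if_neg hnh]
          ring
        rw [hY, hdw, u0, hlog.1, hlog.2]
        unfold SWsame_E
        rw [if_neg (by omega), if_neg (by omega)]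
        have e3 : i - 1 + 1 = i := by omega
        rw [e3, l0, l1, l2]
        ring
  · rw [hasum, hs2]
    intro w' hw'0 hw'l
    unfold SWsame_E
    rw [hl0, hw0, hw'0]
    ring
  · rw [hasum, hs2, hs3]
    intro w' hw'0 hw'l
    unfold SWsame_E
    have : 2 * p + 2 * q - 4 + 1 = 2 * p + 2 * q - 3 := by omega
    rw [this, hll, hwl, hw'l]
    ring

end Pool.Agent.H63.VC3
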