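import Pool.Agent.H63.VC3.BWff
import Pool.Agent.H63.VC3.Pos
import Pool.Agent.H63.VC3.SWopp
import Pool.Agent.H63.VC3.SWsame

/-! # The critical value is the hyperbolic volume -/

namespace Pool.Agent.H63.VC3

open Pool.Agent.H63.VC Complex

theorem Geo_Xs_conj (y : ℂ) (k : ℕ) :
    Xs ((starRingEnd ℂ) y) k = (starRingEnd ℂ) (Xs y k) := by
  induction k using Nat.strong_induction_on with
  | _ k ih =>
    match k, ih with
    | 0, _ => simp [Xs]
    | 1, _ => simp [Xs]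
    | k + 2, ih =>
      rw [Xs_rec, Xs_rec, ih (k + 1) (by omega), ih k (by omega), map_sub, map_mul]

theorem Geo_cos_conj (v : ℂ) :
    2 * cos (Real.pi * (starRingEnd ℂ) v) = (starRingEnd ℂ) (2 * cos (Real.pi * v)) := by
  have h2 : (starRingEnd ℂ) (2 : ℂ) = 2 := map_ofNat _ 2
  rw [map_mul, ← Complex.cos_conj, map_mul, Complex.conj_ofReal, h2]

theorem Geo_Xs_cos_conj (v : ℂ) (k : ℕ) :
    Xs (2 * cos (Real.pi * (starRingEnd ℂ) v)) k =
      (starRingEnd ℂ) (Xs (2 * cos (Real.pi * v)) k) := by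
  rw [Geo_cos_conj, Geo_Xs_conj]

theorem Geo_bw_conj (v : ℂ) (k : ℕ) :
    blochWigner ((Xs (2 * cos (Real.pi * (starRingEnd ℂ) v)) k ^ 2)⁻¹) =
      -blochWigner ((Xs (2 * cos (Real.pi * v)) k ^ 2)⁻¹) := by
  rw [Geo_Xs_cos_conj, ← map_pow, ← map_inv₀, bw_conj]

/-- One half of the critical value, positive number of twists. -/
theorem Geo_half (p : ℕ) (y v A B : ℂ) (hp : 1 ≤ p) (hA : A = cos (2 * Real.pi * v))
    (hc : cos (2 * Real.pi * y) * (2 + A + B) = A * B - 1)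
    (hE : exp (4 * Real.pi * I * p * v) * (exp (2 * Real.pi * I * y) - exp (2 * Real.pi * I * v)) =
      exp (2 * Real.pi * I * y) * exp (2 * Real.pi * I * v) - 1)
    (h1 : 1 + A ≠ 0) (h2 : 1 + B ≠ 0) (h3 : 2 + A + B ≠ 0)
    (hs : ∀ k : ℕ, 1 ≤ k → k ≤ 2 * p → sin (k * (Real.pi * v)) ≠ 0) :
    blochWigner (exp (2 * Real.pi * I * (y - v))) + blochWigner (exp (2 * Real.pi * I * (y + v))) -
      2 * blochWigner (-exp (2 * Real.pi * I * y)) =
    -blochWigner (-(1 + A) / (1 + B)) -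
      2 * ∑ k ∈ Finset.Icc 2 (2 * p - 1), blochWigner ((Xs (2 * cos (Real.pi * v)) k ^ 2)⁻¹) := by
  have hs1 : sin (Real.pi * v) ≠ 0 := by
    have := hs 1 le_rfl (by omega)
    simpa using this
  obtain ⟨e1, e2, e3, e4, e5⟩ := rel_pos p y v A B hp hA hc hE h1 h2 h3 hs1
  have hsum := fan_sum v (2 * p - 1) (by omega) (fun k hk hk2 => hs k hk (by omega))
  rw [show 2 * p - 1 + 1 = 2 * p by omega, e5, e4] at hsum
  rw [hsum]
  have x1 : exp (2 * Real.pi * I * (y - v)) =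
      exp (2 * Real.pi * I * y) / exp (2 * Real.pi * I * v) := by
    rw [← Complex.exp_sub]; congr 1; ring
  have x2 : exp (2 * Real.pi * I * (y + v)) =
      exp (2 * Real.pi * I * y) * exp (2 * Real.pi * I * v) := by
    rw [← Complex.exp_add]; congr 1; ring
  have x3 : cos (2 * Real.pi * v) * (2 * exp (2 * Real.pi * I * v)) =
      exp (2 * Real.pi * I * v) ^ 2 + 1 := by
    have a1 : exp (2 * Real.pi * I * v) ≠ 0 := Complex.exp_ne_zero _
    have a2 : exp (2 * Real.pi * v * I) = exp (2 * Real.pi * I * v) := by congr 1; ring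
    have a3 : exp (-(2 * Real.pi * v) * I) = (exp (2 * Real.pi * I * v))⁻¹ := by
      rw [← Complex.exp_neg]; congr 1; ring
    rw [Complex.cos, a2, a3]
    field_simp
  have x4 : cos (2 * Real.pi * y) * (2 * exp (2 * Real.pi * I * y)) =
      exp (2 * Real.pi * I * y) ^ 2 + 1 := by
    have a1 : exp (2 * Real.pi * I * y) ≠ 0 := Complex.exp_ne_zero _
    have a2 : exp (2 * Real.pi * y * I) = exp (2 * Real.pi * I * y) := by congr 1; ring
    have a3 : exp (-(2 * Real.pi * y) * I) = (exp (2 * Real.pi * I * y))⁻¹ := by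
      rw [← Complex.exp_neg]; congr 1; ring
    rw [Complex.cos, a2, a3]
    field_simp
  rw [x1, x2]
  rw [← hA] at x3
  have hY : exp (2 * Real.pi * I * y) ≠ 0 := Complex.exp_ne_zero _
  have hQ : exp (2 * Real.pi * I * v) ≠ 0 := Complex.exp_ne_zero _
  generalize exp (2 * Real.pi * I * y) = Y at *
  generalize exp (2 * Real.pi * I * v) = Q at *
  generalize cos (2 * Real.pi * y) = C at *
  have n1 : 1 + Y ≠ 0 := by
    intro h
    have hYe : Y = -1 := by linear_combination h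
    rw [hYe] at x4
    have hC : C = -1 := by linear_combination (-1 / 2) * x4
    rw [hC] at hc
    have : (1 + A) * (1 + B) = 0 := by linear_combination -hc
    exact (mul_ne_zero h1 h2) this
  have n2 : 1 + Q ≠ 0 := by
    intro h
    have hQe : Q = -1 := by linear_combination h
    rw [hQe] at x3
    have hC : A = -1 := by linear_combination (-1 / 2) * x3
    exact h1 (by rw [hC]; ring)
  have nU : -(1 + A) / (1 + B) ≠ 0 := div_ne_zero (neg_ne_zero.2 h1) h2
  have n3 : Y ≠ Q := by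
    intro h
    rw [h] at e3
    exact nU (by rw [← e3]; simp)
  have n4 : Y * Q ≠ 1 := by
    intro h
    have : Y - 1 / Q = 0 := by
      field_simp
      linear_combination h
    rw [this] at e3
    exact nU (by rw [← e3]; simp)
  obtain ⟨b1, b2⟩ := bw_quad Y Q hY hQ n1 n2 n3 n4
  rw [e3] at b2
  have c1 : blochWigner ((1 + Y) / (Y - Q)) = blochWigner ((1 + Q) / (1 + Y)) := by
    have : (1 + Y) / (Y - Q) = (1 - (1 + Q) / (1 + Y))⁻¹ := by
      have h5 : Y - Q ≠ 0 := sub_ne_zero.2 n3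
      have h6 : 1 - (1 + Q) / (1 + Y) = (Y - Q) / (1 + Y) := by
        field_simp
        ring
      rw [h6, inv_div]
    rw [this, SWpath_inv, SWpath_one_sub]
    ring
  have c2 : blochWigner (Q * (1 + Y) / (1 + Q)) = -blochWigner ((1 + Q) / (Q * (1 + Y))) := by
    rw [← SWpath_inv, inv_div]
  rw [c1, c2]
  linarith

/-- One half of the critical value, negative number of twists. -/
theorem Geo_half_neg (p : ℕ) (y v A B : ℂ) (hp : 1 ≤ p) (hA : A = cos (2 * Real.pi * v))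
    (hc : cos (2 * Real.pi * y) * (2 + A + B) = A * B - 1)
    (hE : exp (4 * Real.pi * I * p * v) * (exp (2 * Real.pi * I * (-y)) - exp (2 * Real.pi * I * v)) =
      exp (2 * Real.pi * I * (-y)) * exp (2 * Real.pi * I * v) - 1)
    (h1 : 1 + A ≠ 0) (h2 : 1 + B ≠ 0) (h3 : 2 + A + B ≠ 0)
    (hs : ∀ k : ℕ, 1 ≤ k → k ≤ 2 * p → sin (k * (Real.pi * v)) ≠ 0) :
    blochWigner (exp (2 * Real.pi * I * (y - v))) + blochWigner (exp (2 * Real.pi * I * (y + v))) -
      2 * blochWigner (-exp (2 * Real.pi * I * y)) =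
    blochWigner (-(1 + A) / (1 + B)) +
      2 * ∑ k ∈ Finset.Icc 2 (2 * p - 1), blochWigner ((Xs (2 * cos (Real.pi * v)) k ^ 2)⁻¹) := by
  have hc' : cos (2 * Real.pi * (-y)) * (2 + A + B) = A * B - 1 := by
    rw [mul_neg, Complex.cos_neg]
    exact hc
  have h := Geo_half p (-y) v A B hp hA hc' hE h1 h2 h3 hs
  have x1 : exp (2 * Real.pi * I * (-y - v)) = (exp (2 * Real.pi * I * (y + v)))⁻¹ := by
    rw [← Complex.exp_neg]; congr 1; ring
  have x2 : exp (2 * Real.pi * I * (-y + v)) = (exp (2 * Real.pi * I * (y - v)))⁻¹ := by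
    rw [← Complex.exp_neg]; congr 1; ring
  have x3 : -exp (2 * Real.pi * I * (-y)) = (-exp (2 * Real.pi * I * y))⁻¹ := by
    rw [inv_neg, ← Complex.exp_neg]; congr 2; ring
  rw [x1, x2, x3, SWpath_inv, SWpath_inv, SWpath_inv] at h
  linarith

/-- The real part of the critical `v` has the sign of `-r`. -/
theorem Geo_re (r : ℤ) (v : ℂ) (hb : ‖v + 1 / (2 * r)‖ ≤ 3 / (10 * (r : ℝ) ^ 2)) :
    |v.re + 1 / (2 * (r : ℝ))| ≤ 3 / (10 * (r : ℝ) ^ 2) := by
  have h := (Complex.abs_re_le_norm (v + 1 / (2 * r))).trans hb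
  have e : (v + 1 / (2 * (r : ℂ))).re = v.re + 1 / (2 * (r : ℝ)) := by
    have : (1 / (2 * (r : ℂ))) = ((1 / (2 * (r : ℝ)) : ℝ) : ℂ) := by push_cast; rfl
    rw [this, Complex.add_re, Complex.ofReal_re]
  rwa [e] at h

theorem Geo_re_pos (p : ℕ) (v : ℂ) (hr : 10 ≤ p)
    (hb : ‖v + 1 / (2 * ((p : ℤ) : ℂ))‖ ≤ 3 / (10 * (((p : ℤ) : ℝ)) ^ 2)) : v.re < 0 := by
  have h := Geo_re p v hb
  have hpR : (10 : ℝ) ≤ p := by exact_mod_cast hr
  push_cast at h
  have h1 := (abs_le.1 h).2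
  have h2 : (3 : ℝ) / (10 * p ^ 2) < 1 / (2 * p) := by
    rw [div_lt_div_iff₀ (by positivity) (by positivity)]
    nlinarith
  linarith

theorem Geo_re_neg (q : ℕ) (v : ℂ) (hr : 10 ≤ q)
    (hb : ‖v + 1 / (2 * ((-(q : ℤ) : ℤ) : ℂ))‖ ≤ 3 / (10 * (((-(q : ℤ) : ℤ) : ℝ)) ^ 2)) : 0 < v.re := by
  have h := Geo_re (-q) v hb
  have hpR : (10 : ℝ) ≤ q := by exact_mod_cast hr
  push_cast at h
  have h1 := (abs_le.1 h).1
  have h2 : (3 : ℝ) / (10 * q ^ 2) < 1 / (2 * q) := by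
    rw [div_lt_div_iff₀ (by positivity) (by positivity)]
    nlinarith
  have h3 : (1 : ℝ) / (2 * -(q : ℝ)) = -(1 / (2 * q)) := by
    rw [mul_neg, div_neg]
  have h4 : (-(q : ℝ)) ^ 2 = q ^ 2 := by ring
  rw [h3, h4] at h1
  linarith

theorem Geo_abs (p : ℕ) : |((p : ℤ) : ℝ)| = p := by
  rw [Int.cast_natCast, Nat.abs_cast]

/-- all the fan of `conj v` is positive when `re v < 0`. -/
theorem Geo_pos (p m : ℕ) (v : ℂ) (hp : 2 ≤ p) (hm : 2 ≤ m) (hm' : m ≤ 2 * p) (h0 : v.re < 0)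
    (h1 : |v.re| < 2 / (4 * p - 1)) (h2 : 0 < v.im)
    (htop : 0 < ((Xs (2 * cos (Real.pi * (starRingEnd ℂ) v)) m ^ 2)⁻¹).im) (k : ℕ) (hk : 2 ≤ k)
    (hkm : k ≤ m) : 0 < ((Xs (2 * cos (Real.pi * (starRingEnd ℂ) v)) k ^ 2)⁻¹).im := by
  have e : cos (Real.pi * (starRingEnd ℂ) v) = cos (Real.pi * (-(starRingEnd ℂ) v)) := by
    rw [mul_neg, Complex.cos_neg]
  rw [e] at htop ⊢
  refine pos_fan _ p m hp hm hm' ?_ ?_ ?_ htop k hk hkm
  · rw [Complex.neg_re, Complex.conj_re]; linarith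
  · rw [Complex.neg_re, Complex.conj_re, ← abs_of_neg h0]; exact h1
  · rw [Complex.neg_im, Complex.conj_im]; linarith

theorem geo_opp (p q : ℕ) (y v w : ℂ) (hc : Crit p (-q) y v w) :
    IsGreatest (structureVolumes [2 * p, 2 * q]) (2 * Real.pi * (Vf p (-q) y v w).re) := by
  have hp10 : 10 ≤ p := by
    have := hc.h1
    rw [abs_of_nonneg (by positivity)] at this
    exact_mod_cast this
  have hq10 : 10 ≤ q := by
    have := hc.h2
    rw [abs_neg, abs_of_nonneg (by positivity)] at this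
    exact_mod_cast this
  obtain ⟨n1, n2, n3, n4, n5⟩ := crit_ne _ _ _ _ _ hc
  have hcc := rel_c _ _ _ _ _ hc
  obtain ⟨e1, e2⟩ := rel_E _ _ _ _ _ hc
  obtain ⟨A, hA⟩ : ∃ A, A = cos (2 * Real.pi * v) := ⟨_, rfl⟩
  obtain ⟨B, hB⟩ : ∃ B, B = cos (2 * Real.pi * w) := ⟨_, rfl⟩
  rw [← hA, ← hB] at hcc n3
  rw [← hA] at n1
  rw [← hB] at n2
  have hcc' : cos (2 * Real.pi * y) * (2 + B + A) = B * A - 1 := by
    linear_combination hcc
  have n3' : 2 + B + A ≠ 0 := by
    intro h; exact n3 (by linear_combination h)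
  have e1' : exp (4 * Real.pi * I * p * v) *
      (exp (2 * Real.pi * I * y) - exp (2 * Real.pi * I * v)) =
      exp (2 * Real.pi * I * y) * exp (2 * Real.pi * I * v) - 1 := by
    simpa using e1
  have e2' : exp (4 * Real.pi * I * q * w) *
      (exp (2 * Real.pi * I * (-y)) - exp (2 * Real.pi * I * w)) =
      exp (2 * Real.pi * I * (-y)) * exp (2 * Real.pi * I * w) - 1 := by
    have a1 : exp (4 * Real.pi * I * ((-(q : ℤ) : ℤ) : ℂ) * w) =
        (exp (4 * Real.pi * I * q * w))⁻¹ := by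
      rw [← Complex.exp_neg]; congr 1; push_cast; ring
    have a2 : exp (2 * Real.pi * I * (-y)) = (exp (2 * Real.pi * I * y))⁻¹ := by
      rw [← Complex.exp_neg]; congr 1; ring
    rw [a1] at e2
    rw [a2]
    have z1 : exp (4 * Real.pi * I * q * w) ≠ 0 := Complex.exp_ne_zero _
    have z2 : exp (2 * Real.pi * I * y) ≠ 0 := Complex.exp_ne_zero _
    generalize exp (4 * Real.pi * I * q * w) = E at *
    generalize exp (2 * Real.pi * I * y) = Y at *
    generalize exp (2 * Real.pi * I * w) = Q at *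
    field_simp at e2 ⊢
    linear_combination e2
  have s1 : ∀ k : ℕ, 1 ≤ k → k ≤ 2 * p → sin (k * (Real.pi * v)) ≠ 0 := by
    intro k hk hk2
    refine n4 k hk ?_
    rw [abs_of_nonneg (by positivity)]
    exact_mod_cast hk2
  have s2 : ∀ k : ℕ, 1 ≤ k → k ≤ 2 * q → sin (k * (Real.pi * w)) ≠ 0 := by
    intro k hk hk2
    refine n5 k hk ?_
    rw [abs_neg, abs_of_nonneg (by positivity)]
    exact_mod_cast hk2
  have H1 := Geo_half p y v A B (by omega) hA hcc e1' n1 n2 n3 s1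
  have H2 := Geo_half_neg q y w B A (by omega) hB hcc' e2' n2 n1 n3' s2
  have HV := crit_value _ _ _ _ _ hc
  have hs1 : sin (Real.pi * v) ≠ 0 := by simpa using s1 1 le_rfl (by omega)
  have hs2 : sin (Real.pi * w) ≠ 0 := by simpa using s2 1 le_rfl (by omega)
  have hcn : cos (2 * Real.pi * (-y)) * (2 + B + A) = B * A - 1 := by
    rw [mul_neg, Complex.cos_neg]
    exact hcc'
  obtain ⟨f1, f2, -, -, -⟩ := rel_pos p y v A B (by omega) hA hcc e1' n1 n2 n3 hs1
  obtain ⟨g1, g2, -, -, -⟩ := rel_pos q (-y) w B A (by omega) hB hcn e2' n2 n1 n3' hs2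
  have hYY : exp (2 * Real.pi * I * (-y)) = (exp (2 * Real.pi * I * y))⁻¹ := by
    rw [← Complex.exp_neg]; congr 1; ring
  rw [hYY] at g2
  have hY : exp (2 * Real.pi * I * y) ≠ 0 := Complex.exp_ne_zero _
  obtain ⟨t1, t2⟩ := top_opp p q y v w hc
  have hUv : Xs (2 * cos (Real.pi * v)) (2 * p) ^ 2 = -(1 + B) / (1 + A) := by
    rw [eq_div_iff n1]; exact f1
  have hUw : Xs (2 * cos (Real.pi * w)) (2 * q) ^ 2 = -(1 + A) / (1 + B) := by
    rw [eq_div_iff n2]; exact g1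
  have hTv : Xs (2 * cos (Real.pi * v)) (2 * p - 1) ^ 2 =
      -(2 + A + B) / (exp (2 * Real.pi * I * y) * (1 + A)) := by
    rw [eq_div_iff (mul_ne_zero hY n1)]; exact f2
  have hTw : Xs (2 * cos (Real.pi * w)) (2 * q - 1) ^ 2 =
      -(2 + B + A) / ((exp (2 * Real.pi * I * y))⁻¹ * (1 + B)) := by
    rw [eq_div_iff (mul_ne_zero (inv_ne_zero hY) n2)]; exact g2
  have key := sw_max_opp p q (by omega) (by omega) (2 * cos (Real.pi * (starRingEnd ℂ) v))
    (2 * cos (Real.pi * w))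
    (fun k hk hk2 => Geo_pos p (2 * p) v (by omega) (by omega) le_rfl
      (Geo_re_pos p v hp10 hc.bdv) (by have := hc.rev; rwa [Geo_abs] at this) hc.imv t1 k hk hk2)
    (fun k hk hk2 => pos_fan w q (2 * q) (by omega) (by omega) le_rfl
      (Geo_re_neg q w hq10 hc.bdw)
      (by
        have h := hc.rew
        have h5 := Geo_re_neg q w hq10 hc.bdw
        rw [abs_of_pos h5] at h
        have h6 : |((-(q : ℤ) : ℤ) : ℝ)| = q := by
          rw [Int.cast_neg, abs_neg, Geo_abs]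
        rwa [h6] at h) hc.imw t2 k hk hk2)
    (by
      rw [Geo_Xs_cos_conj, ← map_pow, Complex.conj_conj, hUv, hUw]
      field_simp)
    (by
      have hh : (1 - (Xs (2 * cos (Real.pi * v)) (2 * p) ^ 2)⁻¹) ^ 2 =
          -(Xs (2 * cos (Real.pi * v)) (2 * p) ^ 2)⁻¹ *
          (Xs (2 * cos (Real.pi * v)) (2 * p - 1) ^ 2 *
            Xs (2 * cos (Real.pi * w)) (2 * q - 1) ^ 2) := by
        rw [hUv, hTv, hTw, inv_div]
        have n2' : -(1 + B) ≠ 0 := neg_ne_zero.2 n2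
        field_simp
        ring
      have h7 := congrArg (starRingEnd ℂ) hh
      rw [Geo_Xs_cos_conj, Geo_Xs_cos_conj]
      simpa only [map_pow, map_sub, map_one, map_mul, map_neg, map_inv₀] using h7)
  have hval : 2 * Real.pi * (Vf p (-q) y v w).re =
      (2 * ∑ k ∈ Finset.Icc 2 (2 * p - 1),
          blochWigner ((Xs (2 * cos (Real.pi * (starRingEnd ℂ) v)) k ^ 2)⁻¹)
        + 2 * ∑ k ∈ Finset.Icc 2 (2 * q - 1), blochWigner ((Xs (2 * cos (Real.pi * w)) k ^ 2)⁻¹)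
        + 2 * blochWigner ((Xs (2 * cos (Real.pi * (starRingEnd ℂ) v)) (2 * p) ^ 2)⁻¹)) := by
    simp only [Geo_bw_conj, Finset.sum_neg_distrib]
    rw [hUv, inv_div]
    have u1 : (1 + A) / -(1 + B) = -(1 + A) / (1 + B) := by
      rw [div_neg, neg_div]
    have u2 : blochWigner (-(1 + B) / (1 + A)) = -blochWigner (-(1 + A) / (1 + B)) := by
      rw [← SWpath_inv, inv_div, div_neg, neg_div]
    rw [u1]
    rw [u2] at H2
    rw [HV]
    linarith
  rw [hval]
  exact key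

theorem geo_same (p q : ℕ) (y v w : ℂ) (hc : Crit p q y v w) :
    IsGreatest (structureVolumes [2 * p - 1, 1, 2 * q - 1])
      (2 * Real.pi * (Vf p q y v w).re) := by
  have hp10 : 10 ≤ p := by
    have := hc.h1
    rw [abs_of_nonneg (by positivity)] at this
    exact_mod_cast this
  have hq10 : 10 ≤ q := by
    have := hc.h2
    rw [abs_of_nonneg (by positivity)] at this
    exact_mod_cast this
  obtain ⟨n1, n2, n3, n4, n5⟩ := crit_ne _ _ _ _ _ hc
  have hcc := rel_c _ _ _ _ _ hc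
  obtain ⟨e1, e2⟩ := rel_E _ _ _ _ _ hc
  obtain ⟨A, hA⟩ : ∃ A, A = cos (2 * Real.pi * v) := ⟨_, rfl⟩
  obtain ⟨B, hB⟩ : ∃ B, B = cos (2 * Real.pi * w) := ⟨_, rfl⟩
  rw [← hA, ← hB] at hcc n3
  rw [← hA] at n1
  rw [← hB] at n2
  have hcc' : cos (2 * Real.pi * y) * (2 + B + A) = B * A - 1 := by
    linear_combination hcc
  have n3' : 2 + B + A ≠ 0 := by
    intro h; exact n3 (by linear_combination h)
  have e1' : exp (4 * Real.pi * I * p * v) *
      (exp (2 * Real.pi * I * y) - exp (2 * Real.pi * I * v)) =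
      exp (2 * Real.pi * I * y) * exp (2 * Real.pi * I * v) - 1 := by
    simpa using e1
  have e2' : exp (4 * Real.pi * I * q * w) *
      (exp (2 * Real.pi * I * y) - exp (2 * Real.pi * I * w)) =
      exp (2 * Real.pi * I * y) * exp (2 * Real.pi * I * w) - 1 := by
    simpa using e2
  have s1 : ∀ k : ℕ, 1 ≤ k → k ≤ 2 * p → sin (k * (Real.pi * v)) ≠ 0 := by
    intro k hk hk2
    refine n4 k hk ?_
    rw [abs_of_nonneg (by positivity)]
    exact_mod_cast hk2
  have s2 : ∀ k : ℕ, 1 ≤ k → k ≤ 2 * q → sin (k * (Real.pi * w)) ≠ 0 := by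
    intro k hk hk2
    refine n5 k hk ?_
    rw [abs_of_nonneg (by positivity)]
    exact_mod_cast hk2
  have H1 := Geo_half p y v A B (by omega) hA hcc e1' n1 n2 n3 s1
  have H2 := Geo_half q y w B A (by omega) hB hcc' e2' n2 n1 n3' s2
  have HV := crit_value _ _ _ _ _ hc
  have hs1 : sin (Real.pi * v) ≠ 0 := by simpa using s1 1 le_rfl (by omega)
  have hs2 : sin (Real.pi * w) ≠ 0 := by simpa using s2 1 le_rfl (by omega)
  obtain ⟨f1, f2, -, -, -⟩ := rel_pos p y v A B (by omega) hA hcc e1' n1 n2 n3 hs1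
  obtain ⟨g1, g2, -, -, -⟩ := rel_pos q y w B A (by omega) hB hcc' e2' n2 n1 n3' hs2
  have hY : exp (2 * Real.pi * I * y) ≠ 0 := Complex.exp_ne_zero _
  obtain ⟨t1, t2⟩ := top_same p q y v w hc
  have hUv : Xs (2 * cos (Real.pi * v)) (2 * p) ^ 2 = -(1 + B) / (1 + A) := by
    rw [eq_div_iff n1]; exact f1
  have hUw : Xs (2 * cos (Real.pi * w)) (2 * q) ^ 2 = -(1 + A) / (1 + B) := by
    rw [eq_div_iff n2]; exact g1
  have hTv : Xs (2 * cos (Real.pi * v)) (2 * p - 1) ^ 2 =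
      -(2 + A + B) / (exp (2 * Real.pi * I * y) * (1 + A)) := by
    rw [eq_div_iff (mul_ne_zero hY n1)]; exact f2
  have hTw : Xs (2 * cos (Real.pi * w)) (2 * q - 1) ^ 2 =
      -(2 + B + A) / (exp (2 * Real.pi * I * y) * (1 + B)) := by
    rw [eq_div_iff (mul_ne_zero hY n2)]; exact g2
  have key := sw_max_same p q (by omega) (by omega) (2 * cos (Real.pi * (starRingEnd ℂ) v))
    (2 * cos (Real.pi * (starRingEnd ℂ) w))
    (fun k hk hk2 => Geo_pos p (2 * p - 1) v (by omega) (by omega) (by omega)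
      (Geo_re_pos p v hp10 hc.bdv) (by have := hc.rev; rwa [Geo_abs] at this) hc.imv t1 k hk hk2)
    (fun k hk hk2 => Geo_pos q (2 * q - 1) w (by omega) (by omega) (by omega)
      (Geo_re_pos q w hq10 hc.bdw) (by have := hc.rew; rwa [Geo_abs] at this) hc.imw t2 k hk hk2)
    (by
      rw [Geo_Xs_cos_conj, Geo_Xs_cos_conj, ← map_pow, ← map_pow, ← map_mul, hUv, hUw]
      have : -(1 + B) / (1 + A) * (-(1 + A) / (1 + B)) = 1 := by field_simp
      rw [this, map_one])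
    (by
      have hh : Xs (2 * cos (Real.pi * v)) (2 * p - 1) ^ 2 =
          -(Xs (2 * cos (Real.pi * v)) (2 * p) ^ 2 *
            Xs (2 * cos (Real.pi * w)) (2 * q - 1) ^ 2) := by
        rw [hUv, hTv, hTw]
        field_simp
        ring
      have h7 := congrArg (starRingEnd ℂ) hh
      rw [Geo_Xs_cos_conj, Geo_Xs_cos_conj, Geo_Xs_cos_conj]
      simpa only [map_pow, map_sub, map_one, map_mul, map_neg, map_inv₀] using h7)
  have hval : 2 * Real.pi * (Vf p q y v w).re =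
      (2 * ∑ k ∈ Finset.Icc 2 (2 * p - 1),
          blochWigner ((Xs (2 * cos (Real.pi * (starRingEnd ℂ) v)) k ^ 2)⁻¹)
        + 2 * ∑ k ∈ Finset.Icc 2 (2 * q - 1),
          blochWigner ((Xs (2 * cos (Real.pi * (starRingEnd ℂ) w)) k ^ 2)⁻¹)) := by
    simp only [Geo_bw_conj, Finset.sum_neg_distrib]
    have u2 : blochWigner (-(1 + B) / (1 + A)) = -blochWigner (-(1 + A) / (1 + B)) := by
      rw [← SWpath_inv, inv_div, div_neg, neg_div]
    rw [u2] at H2
    rw [HV]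
    linarith
  rw [hval]
  exact key

end Pool.Agent.H63.VC3
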