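import Pool.Agent.H63.VC.Vec
import Pool.Agent.H63.VC3.NNterms
import Pool.Agent.H63.VC3.StepDefs

/-! # The colored invariants as sums over `k` -/

namespace Pool.Agent.H63.VC3

open Pool.Agent.H63.VC Complex

/-- The reduced HOMFLY-PT polynomial, colored by the `N`-th symmetric power, of the double twist
knot `C(2p, 2q)` (two antiparallel twist regions with `p` and `-q` full twists). -/
noncomputable def homflyOpp (p q N : ℕ) (A x : ℂ) : ℂ :=
  ∑ k ∈ Finset.range (N + 1), (∏ i ∈ Finset.range k,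
    (cb (x ^ ((N : ℤ) - i)) / cb (x ^ ((i : ℤ) + 1))) *
      (cb (A * x ^ ((N : ℤ) + i)) * cb (A * x ^ ((i : ℤ) - 1)))) *
    (twistCoeff (A ^ 2) (x ^ 2) p k * twistCoeff (A⁻¹ ^ 2) (x⁻¹ ^ 2) q k)

/-- The reduced HOMFLY-PT polynomial, colored by the `N`-th symmetric power, of the double twist
knot `C(2p-1, 1, 2q-1)` (two antiparallel twist regions with `p` and `q` full twists). -/
noncomputable def homflySame (p q N : ℕ) (A x : ℂ) : ℂ :=
  ∑ k ∈ Finset.range (N + 1), (∏ i ∈ Finset.range k,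
    (cb (x ^ ((N : ℤ) - i)) / cb (x ^ ((i : ℤ) + 1))) *
      (cb (A * x ^ ((N : ℤ) + i)) * cb (A * x ^ ((i : ℤ) - 1)))) *
    ((-1) ^ k * A ^ (2 * k) * x ^ (k * (k - 1)) *
      (twistCoeff (A ^ 2) (x ^ 2) p k * twistCoeff (A ^ 2) (x ^ 2) q k))

theorem Inv_T (n g N k : ℕ) (hn : 2 ≤ n) (hg : 1 ≤ g) (hgn : g ≤ n - 1) (hk : k ≤ N) :
    (∏ i ∈ Finset.range k,
      (cb (exp (Real.pi * I / ((N + g : ℕ) : ℂ)) ^ ((N : ℤ) - i)) /
        cb (exp (Real.pi * I / ((N + g : ℕ) : ℂ)) ^ ((i : ℤ) + 1))) *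
      (cb (exp (Real.pi * I / ((N + g : ℕ) : ℂ)) ^ n *
        exp (Real.pi * I / ((N + g : ℕ) : ℂ)) ^ ((N : ℤ) + i)) *
       cb (exp (Real.pi * I / ((N + g : ℕ) : ℂ)) ^ n *
        exp (Real.pi * I / ((N + g : ℕ) : ℂ)) ^ ((i : ℤ) - 1)))) = (T (N + g) n g k : ℂ) := by
  unfold T
  rw [ofReal_prod]
  apply Finset.prod_congr rfl
  intro i hi
  rw [Finset.mem_range] at hi
  exact factor_eq n g N i hg hgn hn (by omega)

theorem Inv_sq (M : ℕ) : exp (Real.pi * I / (M : ℂ)) ^ 2 = rt M := by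
  rw [← exp_nat_mul]
  unfold rt
  congr 1
  push_cast
  ring

theorem Inv_conj_mul (z : ℂ) (hz : ‖z‖ = 1) : (starRingEnd ℂ) z * z = 1 := by
  rw [mul_comm, mul_conj, normSq_eq_norm_sq, hz]
  simp

theorem Inv_tri (k : ℕ) : k * (k - 1) = 2 * (k * (k - 1) / 2) := by
  exact (Nat.mul_div_cancel' (Nat.even_mul_pred_self k).two_dvd).symm

/-- The value at the root of unity. -/
theorem opp_eq (p q n g N : ℕ) (hp : 1 ≤ p) (hq : 1 ≤ q) (hn : 2 ≤ n) (hg : 1 ≤ g)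
    (hgn : g ≤ n - 1) :
    homflyOpp p q N (exp (Real.pi * I / ((N + g : ℕ) : ℂ)) ^ n)
      (exp (Real.pi * I / ((N + g : ℕ) : ℂ))) = -JN p (-q) n g (N + g) := by
  unfold homflyOpp JN
  have hr : N + g - g + 1 = N + 1 := by omega
  rw [hr, ← Finset.sum_neg_distrib]
  refine Finset.sum_congr rfl fun k hk => ?_
  have hkN : k ≤ N := Nat.lt_succ_iff.1 (Finset.mem_range.1 hk)
  rw [Inv_T n g N k hn hg hgn hkN]
  have hA : (exp (Real.pi * I / ((N + g : ℕ) : ℂ)) ^ n) ^ 2 = rt (N + g) ^ n := by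
    rw [← Inv_sq]; ring
  have hA' : ((exp (Real.pi * I / ((N + g : ℕ) : ℂ)) ^ n)⁻¹) ^ 2 =
      starRingEnd ℂ (rt (N + g) ^ n) := by
    rw [inv_pow, hA, map_pow, rt_conj, inv_pow]
  have hq2' : ((exp (Real.pi * I / ((N + g : ℕ) : ℂ)))⁻¹) ^ 2 = starRingEnd ℂ (rt (N + g)) := by
    rw [inv_pow, Inv_sq, rt_conj]
  rw [hA, hA', hq2', Inv_sq, twistCoeff_conj]
  have h1 : NN p n (N + g) k = (starRingEnd ℂ) (Th n (N + g) k) *
      twistCoeff (rt (N + g) ^ n) (rt (N + g)) p k := by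
    unfold NN
    rw [if_pos (by omega), Int.toNat_natCast]
  have h2 : NN (-q) n (N + g) k = -Th n (N + g) k *
      (starRingEnd ℂ) (twistCoeff (rt (N + g) ^ n) (rt (N + g)) q k) := by
    unfold NN
    rw [if_neg (by omega), neg_neg, Int.toNat_natCast]
  rw [h1, h2]
  have h3 := Inv_conj_mul _ (norm_Th n (N + g) k)
  linear_combination (-(T (N + g) n g k : ℂ) * twistCoeff (rt (N + g) ^ n) (rt (N + g)) p k *
    (starRingEnd ℂ) (twistCoeff (rt (N + g) ^ n) (rt (N + g)) q k)) * h3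

theorem same_eq (p q n g N : ℕ) (hp : 1 ≤ p) (hq : 1 ≤ q) (hn : 2 ≤ n) (hg : 1 ≤ g)
    (hgn : g ≤ n - 1) :
    homflySame p q N (exp (Real.pi * I / ((N + g : ℕ) : ℂ)) ^ n)
      (exp (Real.pi * I / ((N + g : ℕ) : ℂ))) = -JN p q n g (N + g) := by
  unfold homflySame JN
  have hr : N + g - g + 1 = N + 1 := by omega
  rw [hr, ← Finset.sum_neg_distrib]
  refine Finset.sum_congr rfl fun k hk => ?_
  have hkN : k ≤ N := Nat.lt_succ_iff.1 (Finset.mem_range.1 hk)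
  rw [Inv_T n g N k hn hg hgn hkN]
  have hA : (exp (Real.pi * I / ((N + g : ℕ) : ℂ)) ^ n) ^ 2 = rt (N + g) ^ n := by
    rw [← Inv_sq]; ring
  have hA2 : (exp (Real.pi * I / ((N + g : ℕ) : ℂ)) ^ n) ^ (2 * k) = rt (N + g) ^ (n * k) := by
    rw [pow_mul, hA, ← pow_mul]
  have hx2 : exp (Real.pi * I / ((N + g : ℕ) : ℂ)) ^ (k * (k - 1)) =
      rt (N + g) ^ (k * (k - 1) / 2) := by
    rw [Inv_tri k, pow_mul, Inv_sq]
    congr 1
    omega
  rw [hA, hA2, hx2, Inv_sq]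
  have h1 : ∀ p : ℕ, 1 ≤ p → NN p n (N + g) k = (starRingEnd ℂ) (Th n (N + g) k) *
      twistCoeff (rt (N + g) ^ n) (rt (N + g)) p k := by
    intro p hp
    unfold NN
    rw [if_pos (by omega), Int.toNat_natCast]
  rw [h1 p hp, h1 q hq]
  have h3 := Inv_conj_mul _ (norm_Th n (N + g) k)
  have h4 := Th_sq n (N + g) k (by omega)
  have h5 : (-1 : ℂ) ^ k * rt (N + g) ^ (n * k + k * (k - 1) / 2) =
      -((starRingEnd ℂ) (Th n (N + g) k)) ^ 2 := by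
    have h6 : ((starRingEnd ℂ) (Th n (N + g) k)) ^ 2 * Th n (N + g) k ^ 2 = 1 := by
      rw [← mul_pow, h3, one_pow]
    linear_combination ((starRingEnd ℂ) (Th n (N + g) k)) ^ 2 * h4 -
      ((-1 : ℂ) ^ k * rt (N + g) ^ (n * k + k * (k - 1) / 2)) * h6
  rw [pow_add] at h5
  linear_combination ((T (N + g) n g k : ℂ) * twistCoeff (rt (N + g) ^ n) (rt (N + g)) p k *
    twistCoeff (rt (N + g) ^ n) (rt (N + g)) q k) * h5

end Pool.Agent.H63.VC3
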