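import Pool.Agent.H63.VC3.JNlim
import Pool.Agent.H63.VC3.CritB
import Pool.Agent.H63.VC3.Geo
import Pool.Agent.H63.VC3.Inv

/-! # The volume conjecture for double twist knots with many twists -/

namespace Pool.Agent.H63.VC3

open Pool.Agent.H63.VC Complex Filter Topology

/-- From the asymptotics of the absolute value to the limit of the logarithm. -/
theorem final_log (J : ℕ → ℂ) (a : ℕ) (ha : 1 ≤ a) (e H κ : ℝ) (hκ : 0 < κ)
    (h : Tendsto (fun N : ℕ => ‖J N‖ / (((N + a : ℕ) : ℝ) ^ e * Real.exp ((N + a : ℕ) * H)))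
      atTop (𝓝 κ)) :
    Tendsto (fun N : ℕ => 2 * (Real.pi : ℂ) * Complex.log (J N) / (N + 1)) atTop
      (𝓝 ((2 * Real.pi * H : ℝ) : ℂ)) := by
  have hN1 : ∀ N : ℕ, (0 : ℝ) < (N : ℝ) + 1 := fun N => by positivity
  -- real part
  have hlogk : Tendsto (fun N : ℕ => Real.log (‖J N‖ / (((N + a : ℕ) : ℝ) ^ e *
      Real.exp ((N + a : ℕ) * H)))) atTop (𝓝 (Real.log κ)) :=
    (Real.continuousAt_log hκ.ne').tendsto.comp h
  have hinv : Tendsto (fun N : ℕ => (1 : ℝ) / ((N : ℝ) + 1)) atTop (𝓝 0) :=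
    tendsto_one_div_add_atTop_nhds_zero_nat
  have h1 : Tendsto (fun N : ℕ => Real.log (‖J N‖ / (((N + a : ℕ) : ℝ) ^ e *
      Real.exp ((N + a : ℕ) * H))) * (1 / ((N : ℝ) + 1))) atTop (𝓝 0) := by
    simpa using hlogk.mul hinv
  have h2 : Tendsto (fun N : ℕ => ((N + a : ℕ) : ℝ) * (1 / ((N : ℝ) + 1))) atTop (𝓝 1) := by
    have := tendsto_ratio a
    refine this.congr fun N => ?_
    rw [mul_one_div]
  have h3 : Tendsto (fun N : ℕ => Real.log ((N + a : ℕ) : ℝ) * (1 / ((N : ℝ) + 1))) atTop (𝓝 0) := by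
    have hl := tendsto_log_ratio a
    refine hl.congr fun N => ?_
    rw [mul_one_div]
  have hpos : ∀ᶠ N : ℕ in atTop, 0 < ‖J N‖ / (((N + a : ℕ) : ℝ) ^ e *
      Real.exp ((N + a : ℕ) * H)) := h.eventually (lt_mem_nhds hκ)
  have hre : Tendsto (fun N : ℕ => Real.log ‖J N‖ * (1 / ((N : ℝ) + 1))) atTop (𝓝 H) := by
    have h4 := (h1.add (h3.const_mul e)).add (h2.mul_const H)
    simp only [zero_add, mul_zero, one_mul] at h4
    refine h4.congr' ?_
    filter_upwards [hpos] with N hN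
    have hM : (0 : ℝ) < ((N + a : ℕ) : ℝ) := by exact_mod_cast (by omega : 0 < N + a)
    have hp : 0 < ((N + a : ℕ) : ℝ) ^ e := Real.rpow_pos_of_pos hM e
    have hJ : 0 < ‖J N‖ := by
      rcases (norm_nonneg (J N)).eq_or_lt with h0 | h0
      · rw [← h0, zero_div] at hN; exact absurd hN (lt_irrefl _)
      · exact h0
    rw [Real.log_div hJ.ne' (mul_pos hp (Real.exp_pos _)).ne', Real.log_mul hp.ne'
      (Real.exp_pos _).ne', Real.log_exp, Real.log_rpow hM]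
    ring
  have him : Tendsto (fun N : ℕ => (Complex.log (J N)).im * (1 / ((N : ℝ) + 1))) atTop (𝓝 0) := by
    have hb : Tendsto (fun N : ℕ => Real.pi * (1 / ((N : ℝ) + 1))) atTop (𝓝 0) := by
      simpa using hinv.const_mul Real.pi
    refine squeeze_zero_norm (fun N => ?_) hb
    rw [norm_mul, Real.norm_eq_abs, Real.norm_eq_abs, abs_of_pos (by have := hN1 N; positivity :
      (0 : ℝ) < 1 / ((N : ℝ) + 1))]
    apply mul_le_mul_of_nonneg_right _ (by have := hN1 N; positivity)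
    rw [Complex.log_im]
    exact Complex.abs_arg_le_pi _
  have hc : Tendsto (fun N : ℕ => ((Real.log ‖J N‖ * (1 / ((N : ℝ) + 1)) : ℝ) : ℂ) +
      (((Complex.log (J N)).im * (1 / ((N : ℝ) + 1)) : ℝ) : ℂ) * I) atTop (𝓝 ((H : ℂ) + ((0 : ℝ) : ℂ) * I)) :=
    ((Complex.continuous_ofReal.tendsto H).comp hre).add
      (((Complex.continuous_ofReal.tendsto 0).comp him).mul_const I)
  have hc2 := hc.const_mul (2 * (Real.pi : ℂ))
  have e1 : 2 * (Real.pi : ℂ) * ((H : ℂ) + ((0 : ℝ) : ℂ) * I) = ((2 * Real.pi * H : ℝ) : ℂ) := by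
    push_cast; ring
  rw [e1] at hc2
  refine hc2.congr fun N => ?_
  have h5 : Complex.log (J N) = ((Real.log ‖J N‖ : ℝ) : ℂ) + (((Complex.log (J N)).im : ℝ) : ℂ) * I := by
    apply Complex.ext
    · simp [Complex.log_re]
    · simp
  conv_rhs => rw [h5]
  push_cast
  ring

theorem final_asym (J : ℕ → ℂ) (JM : ℕ → ℂ) (a : ℕ) (hJ : ∀ N, ‖J N‖ = ‖JM (N + a)‖) (e H κ : ℝ)
    (h : Tendsto (fun M : ℕ => ‖JM M‖ / ((M : ℝ) ^ e * Real.exp (M * H))) atTop (𝓝 κ)) :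
    Tendsto (fun N : ℕ => ‖J N‖ / (((N + a : ℕ) : ℝ) ^ e * Real.exp ((N + a : ℕ) * H)))
      atTop (𝓝 κ) := by
  have := h.comp (tendsto_add_atTop_nat a)
  refine this.congr fun N => ?_
  simp only [Function.comp]
  rw [hJ N]

theorem final_opp (p q : ℕ) (hp : 10 ≤ p) (hq : 10 ≤ q) :
    ∃ V : ℝ, IsGreatest (structureVolumes [2 * p, 2 * q]) V ∧
    ∀ n a : ℕ, 2 ≤ n → 1 ≤ a → a ≤ n - 1 →
      Tendsto (fun N : ℕ => 2 * (Real.pi : ℂ) *
        Complex.log (homflyOpp p q N (exp (Real.pi * I / (N + a)) ^ n)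
          (exp (Real.pi * I / (N + a)))) / (N + 1)) atTop (𝓝 (V : ℂ)) ∧
      ∃ κ : ℝ, 0 < κ ∧ Tendsto (fun N : ℕ => ‖homflyOpp p q N (exp (Real.pi * I / (N + a)) ^ n)
          (exp (Real.pi * I / (N + a)))‖ / (((N : ℝ) + a) ^ (2 * (n : ℝ) - 5 / 2) *
            Real.exp (((N : ℝ) + a) * V / (2 * Real.pi)))) atTop (𝓝 κ) := by
  obtain ⟨y, v, w, hc⟩ := crit_exists (p : ℤ) (-(q : ℤ))
    (by rw [abs_of_nonneg (by positivity)]; exact_mod_cast hp)
    (by rw [abs_neg, abs_of_nonneg (by positivity)]; exact_mod_cast hq)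
  refine ⟨2 * Real.pi * (Vf p (-q) y v w).re, geo_opp p q y v w hc, fun n a hn ha han => ?_⟩
  obtain ⟨κ, hκ, hlim⟩ := JN_lim p (-q) y v w hc n a hn ha han
  have hJ : ∀ N : ℕ, ‖homflyOpp p q N (exp (Real.pi * I / (N + a)) ^ n)
      (exp (Real.pi * I / (N + a)))‖ = ‖JN p (-q) n a (N + a)‖ := by
    intro N
    have h := opp_eq p q n a N (by omega) (by omega) hn ha han
    push_cast at h
    rw [h, norm_neg]
  have hA := final_asym _ _ a hJ _ _ _ hlim
  refine ⟨final_log _ a ha _ _ κ hκ hA, κ, hκ, hA.congr fun N => ?_⟩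
  push_cast
  congr 3
  have := Real.pi_ne_zero
  field_simp

theorem final_same (p q : ℕ) (hp : 10 ≤ p) (hq : 10 ≤ q) :
    ∃ V : ℝ, IsGreatest (structureVolumes [2 * p - 1, 1, 2 * q - 1]) V ∧
    ∀ n a : ℕ, 2 ≤ n → 1 ≤ a → a ≤ n - 1 →
      Tendsto (fun N : ℕ => 2 * (Real.pi : ℂ) *
        Complex.log (homflySame p q N (exp (Real.pi * I / (N + a)) ^ n)
          (exp (Real.pi * I / (N + a)))) / (N + 1)) atTop (𝓝 (V : ℂ)) ∧
      ∃ κ : ℝ, 0 < κ ∧ Tendsto (fun N : ℕ => ‖homflySame p q N (exp (Real.pi * I / (N + a)) ^ n)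
          (exp (Real.pi * I / (N + a)))‖ / (((N : ℝ) + a) ^ (2 * (n : ℝ) - 5 / 2) *
            Real.exp (((N : ℝ) + a) * V / (2 * Real.pi)))) atTop (𝓝 κ) := by
  obtain ⟨y, v, w, hc⟩ := crit_exists (p : ℤ) (q : ℤ)
    (by rw [abs_of_nonneg (by positivity)]; exact_mod_cast hp)
    (by rw [abs_of_nonneg (by positivity)]; exact_mod_cast hq)
  refine ⟨2 * Real.pi * (Vf p q y v w).re, geo_same p q y v w hc, fun n a hn ha han => ?_⟩
  obtain ⟨κ, hκ, hlim⟩ := JN_lim p q y v w hc n a hn ha han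
  have hJ : ∀ N : ℕ, ‖homflySame p q N (exp (Real.pi * I / (N + a)) ^ n)
      (exp (Real.pi * I / (N + a)))‖ = ‖JN p q n a (N + a)‖ := by
    intro N
    have h := same_eq p q n a N (by omega) (by omega) hn ha han
    push_cast at h
    rw [h, norm_neg]
  have hA := final_asym _ _ a hJ _ _ _ hlim
  refine ⟨final_log _ a ha _ _ κ hκ hA, κ, hκ, hA.congr fun N => ?_⟩
  push_cast
  congr 3
  have := Real.pi_ne_zero
  field_simp

end Pool.Agent.H63.VC3
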