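import Pool.Agent.H63.VC3.Five

/-! # Sums of the Bloch-Wigner dilogarithm over a fan -/

namespace Pool.Agent.H63.VC3

open Pool.Agent.H63.VC Complex

/-- The number `[k] = (q^k - 1)/(q - 1)`. -/
noncomputable def qn (q : ℂ) (k : ℕ) : ℂ := (q ^ k - 1) / (q - 1)

/-- `X_k(2 cos (π z)) = sin (k π z) / sin (π z)`. -/
theorem Xs_sin (z : ℂ) (k : ℕ) :
    Xs (2 * cos (Real.pi * z)) k * sin (Real.pi * z) = sin (k * (Real.pi * z)) := by
  induction k using Nat.strong_induction_on with
  | _ k ih =>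
    rcases k with _ | _ | k
    · rw [Xs_zero]
      simp
    · rw [Xs_one]
      simp
    · have h1 := ih (k + 1) (by omega)
      have h2 := ih k (by omega)
      rw [Xs_rec, sub_mul, mul_assoc, h1, h2]
      set a : ℂ := Real.pi * z with ha
      have e1 : ((k + 2 : ℕ) : ℂ) * a = ((k + 1 : ℕ) : ℂ) * a + a := by push_cast; ring
      have e2 : (k : ℂ) * a = ((k + 1 : ℕ) : ℂ) * a - a := by push_cast; ring
      rw [e1, e2, Complex.sin_add, Complex.sin_sub]
      ring

private theorem Fan_five (x y : ℂ) (hx : x ≠ 0) (hy : y ≠ 0) (hxy : x ≠ y) (hx1 : x ≠ 1)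
    (hy1 : y ≠ 1) :
    blochWigner x - blochWigner y + blochWigner (y / x) -
      blochWigner ((1 - 1 / x) / (1 - 1 / y)) + blochWigner ((1 - x) / (1 - y)) = 0 := by
  have h : x * y⁻¹ ≠ 1 := by
    intro h
    apply hxy
    field_simp at h
    exact h
  have h5 := five_term x y⁻¹ h
  have hyx : y - x ≠ 0 := sub_ne_zero.2 (Ne.symm hxy)
  have hxy' : x - y ≠ 0 := sub_ne_zero.2 hxy
  have h1y : 1 - y ≠ 0 := sub_ne_zero.2 (Ne.symm hy1)
  have hy1' : y - 1 ≠ 0 := sub_ne_zero.2 hy1
  have hx1' : x - 1 ≠ 0 := sub_ne_zero.2 hx1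
  have h1x : 1 - x ≠ 0 := sub_ne_zero.2 (Ne.symm hx1)
  have e1 : 1 - x * y⁻¹ = (y - x) / y := by field_simp
  have a1 : blochWigner (1 - x * y⁻¹) = blochWigner (y / x) := by
    rw [SWpath_one_sub, ← SWpath_inv]
    congr 1
    field_simp
  have a2 : blochWigner ((1 - x) / (1 - y)) = blochWigner ((1 - y⁻¹) / (1 - x * y⁻¹)) := by
    rw [← neg_neg (blochWigner ((1 - x) / (1 - y))), ← SWpath_one_sub, ← SWpath_inv]
    congr 1
    rw [e1]
    have e2 : 1 - (1 - x) / (1 - y) = (x - y) / (1 - y) := by field_simp; ring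
    have e3 : 1 - y⁻¹ = (y - 1) / y := by field_simp
    rw [e2, e3, inv_div, div_div_div_cancel_right₀ hy, div_eq_div_iff hxy' hyx]
    ring
  have a3 : blochWigner ((1 - 1 / x) / (1 - 1 / y)) =
      -blochWigner ((1 - x) / (1 - x * y⁻¹)) := by
    rw [← neg_neg (blochWigner ((1 - 1 / x) / (1 - 1 / y))), ← SWpath_one_sub, ← SWpath_inv,
      ← SWpath_one_sub]
    congr 1
    have e2 : (1 - 1 / x) / (1 - 1 / y) = y * (x - 1) / (x * (y - 1)) := by
      have : 1 - 1 / y ≠ 0 := by
        rw [sub_ne_zero]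
        intro h
        apply hy1
        field_simp at h
        exact h
      rw [div_eq_div_iff this (mul_ne_zero hx hy1')]
      field_simp
    have e3 : 1 - y * (x - 1) / (x * (y - 1)) = (y - x) / (x * (y - 1)) := by
      field_simp
      ring
    rw [e1, e2, e3, inv_div]
    field_simp
    ring
  rw [SWpath_inv, ← a2, a1] at h5
  rw [a3]
  linarith

private theorem Fan_sin (z : ℂ) (k : ℕ) :
    sin (k * (Real.pi * z)) * (2 * I) * exp (k * (Real.pi * z) * I) =
      exp (2 * Real.pi * I * z) ^ k - 1 := by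
  have h1 : exp (2 * Real.pi * I * z) ^ k = exp (k * (Real.pi * z) * I) ^ 2 := by
    rw [← Complex.exp_nat_mul, ← Complex.exp_nat_mul]
    congr 1
    push_cast
    ring
  have h2 : exp (-(k * (Real.pi * z)) * I) * exp (k * (Real.pi * z) * I) = 1 := by
    rw [← Complex.exp_add]
    simp
  rw [h1, Complex.sin]
  linear_combination I ^ 2 * h2 + (1 - exp (k * (Real.pi * z) * I) ^ 2) * I_sq

/-- The sum over a fan telescopes by the five-term relation. -/
theorem fan_sum (z : ℂ) (m : ℕ) (hm : 1 ≤ m)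
    (h0 : ∀ k : ℕ, 1 ≤ k → k ≤ m + 1 → sin (k * (Real.pi * z)) ≠ 0) :
    ∑ k ∈ Finset.Icc 2 m, blochWigner ((Xs (2 * cos (Real.pi * z)) k ^ 2)⁻¹) =
      blochWigner (qn (exp (2 * Real.pi * I * z)) (m + 1)) -
      blochWigner (qn (exp (2 * Real.pi * I * z)) (m + 1) / qn (exp (2 * Real.pi * I * z)) m) := by
  set q : ℂ := exp (2 * Real.pi * I * z) with hq
  have hq0 : q ≠ 0 := Complex.exp_ne_zero _
  have hpow : ∀ k : ℕ, 1 ≤ k → k ≤ m + 1 → q ^ k - 1 ≠ 0 := by
    intro k h1 h2
    rw [hq, ← Fan_sin]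
    exact mul_ne_zero (mul_ne_zero (h0 k h1 h2) (mul_ne_zero two_ne_zero I_ne_zero))
      (Complex.exp_ne_zero _)
  have hq1 : q - 1 ≠ 0 := by
    have := hpow 1 le_rfl (by omega)
    rwa [pow_one] at this
  have hqn : ∀ k : ℕ, 1 ≤ k → k ≤ m + 1 → qn q k ≠ 0 := fun k h1 h2 =>
    div_ne_zero (hpow k h1 h2) hq1
  have hX : ∀ k : ℕ, 1 ≤ k → k ≤ m + 1 →
      (Xs (2 * cos (Real.pi * z)) k ^ 2)⁻¹ = q ^ (k - 1) / qn q k ^ 2 := by
    intro k h1 h2
    have hs1 : sin (Real.pi * z) ≠ 0 := by
      have := h0 1 le_rfl (by omega)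
      rwa [Nat.cast_one, one_mul] at this
    have e1 := Xs_sin z k
    have e2 := Fan_sin z k
    have e3 := Fan_sin z 1
    rw [Nat.cast_one, one_mul, pow_one] at e3
    rw [← hq] at e2 e3
    set X := Xs (2 * cos (Real.pi * z)) k with hXd
    have e4 : exp (k * (Real.pi * z) * I) ^ 2 = q ^ k := by
      rw [hq, ← Complex.exp_nat_mul, ← Complex.exp_nat_mul]
      congr 1
      push_cast
      ring
    have e5 : exp (Real.pi * z * I) ^ 2 = q := by
      rw [hq, ← Complex.exp_nat_mul]
      congr 1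
      push_cast
      ring
    have e6 : q ^ k = q ^ (k - 1) * q := by
      rw [← pow_succ]
      congr 1
      omega
    -- X ^ 2 * q ^ (k - 1) = [k] ^ 2
    have e7 : X ^ 2 * q ^ (k - 1) = qn q k ^ 2 := by
      unfold qn
      rw [div_pow, ← e2, ← e1, eq_div_iff (pow_ne_zero 2 hq1), ← e3]
      have : (X * sin (Real.pi * z) * (2 * I) * exp (k * (Real.pi * z) * I)) ^ 2 =
          X ^ 2 * (sin (Real.pi * z) * (2 * I)) ^ 2 * (exp (k * (Real.pi * z) * I) ^ 2) := by ring
      rw [this, e4]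
      have : X ^ 2 * q ^ (k - 1) * (sin (Real.pi * z) * (2 * I) * exp (Real.pi * z * I)) ^ 2 =
          X ^ 2 * q ^ (k - 1) * (sin (Real.pi * z) * (2 * I)) ^ 2 *
            (exp (Real.pi * z * I) ^ 2) := by ring
      rw [this, e5, e6]
      ring
    rw [← e7]
    have hqk : q ^ (k - 1) ≠ 0 := pow_ne_zero _ hq0
    rw [mul_comm, div_mul_cancel_left₀ hqk]
  have hrel : ∀ k : ℕ, 2 ≤ k → k ≤ m →
      blochWigner ((Xs (2 * cos (Real.pi * z)) k ^ 2)⁻¹) =
        blochWigner (qn q (k + 1)) - blochWigner (qn q k) -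
          blochWigner (qn q (k + 1) / qn q k) + blochWigner (qn q k / qn q (k - 1)) := by
    intro k h1 h2
    rw [hX k (by omega) (by omega)]
    have n0 := hqn (k - 1) (by omega) (by omega)
    have n1 := hqn k (by omega) (by omega)
    have n2 := hqn (k + 1) (by omega) (by omega)
    have r1 : qn q (k + 1) = 1 + q * qn q k := by
      unfold qn
      rw [pow_succ]
      field_simp
      ring
    have r2 : qn q k = 1 + q * qn q (k - 1) := by
      unfold qn
      obtain ⟨j, rfl⟩ : ∃ j, k = j + 1 := ⟨k - 1, by omega⟩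
      rw [Nat.add_sub_cancel, pow_succ]
      field_simp
      ring
    have r3 : qn q (k + 1) - qn q k = q ^ k := by
      unfold qn
      rw [pow_succ]
      field_simp
      ring
    have hxy : qn q k ≠ qn q (k + 1) := by
      intro h
      rw [h, sub_self] at r3
      exact pow_ne_zero k hq0 r3.symm
    have hx1 : qn q k ≠ 1 := by
      intro h
      rw [h] at r2
      have : q * qn q (k - 1) = 0 := by linear_combination -r2
      exact (mul_ne_zero hq0 n0) this
    have hy1 : qn q (k + 1) ≠ 1 := by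
      intro h
      rw [h] at r1
      have : q * qn q k = 0 := by linear_combination -r1
      exact (mul_ne_zero hq0 n1) this
    have h5 := Fan_five (qn q k) (qn q (k + 1)) n1 n2 hxy hx1 hy1
    have t1 : (1 - qn q k) / (1 - qn q (k + 1)) = (qn q k / qn q (k - 1))⁻¹ := by
      rw [inv_div, r1]
      have : 1 - (1 + q * qn q k) = -(q * qn q k) := by ring
      rw [this]
      nth_rewrite 1 [r2]
      field_simp
      ring
    have t2 : (1 - 1 / qn q k) / (1 - 1 / qn q (k + 1)) = 1 - q ^ (k - 1) / qn q k ^ 2 := by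
      have d1 : 1 - 1 / qn q (k + 1) ≠ 0 := by
        rw [sub_ne_zero]
        intro h
        apply hy1
        field_simp at h
        exact h
      have r4 : qn q k - qn q (k - 1) = q ^ (k - 1) := by
        unfold qn
        obtain ⟨j, rfl⟩ : ∃ j, k = j + 1 := ⟨k - 1, by omega⟩
        rw [Nat.add_sub_cancel, pow_succ]
        field_simp
        ring
      rw [← r4, div_eq_iff d1]
      set A := qn q k with hA
      set B := qn q (k - 1) with hB
      rw [r1] at n2 ⊢
      have u1 : 1 - 1 / A = (A - 1) / A := by field_simp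
      have u2 : 1 - (A - B) / A ^ 2 = (A ^ 2 - A + B) / A ^ 2 := by
        field_simp
        ring
      have u3 : 1 - 1 / (1 + q * A) = q * A / (1 + q * A) := by
        field_simp
        ring
      rw [u1, u2, u3, div_mul_div_comm,
        div_eq_div_iff n1 (mul_ne_zero (pow_ne_zero 2 n1) n2)]
      linear_combination A ^ 2 * (1 + q * A - q * A) * r2
    rw [t1, t2, SWpath_inv, SWpath_one_sub] at h5
    linarith
  have hmain : ∀ j : ℕ, 1 ≤ j → j ≤ m →
      ∑ k ∈ Finset.Icc 2 j, blochWigner ((Xs (2 * cos (Real.pi * z)) k ^ 2)⁻¹) =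
        blochWigner (qn q (j + 1)) - blochWigner (qn q (j + 1) / qn q j) := by
    intro j h1
    induction j, h1 using Nat.le_induction with
    | base =>
      intro _
      have : qn q 1 = 1 := by
        unfold qn
        rw [pow_one, div_self hq1]
      rw [this, div_one, sub_self]
      rfl
    | succ j h1 ih =>
      intro h2
      rw [Finset.sum_Icc_succ_top (by omega), ih (by omega), hrel (j + 1) (by omega) h2,
        Nat.add_sub_cancel]
      ring
  exact hmain m hm le_rfl

/-- The three five-term relations for one variable: with `a = (1+q)/(1+Y)`, `b = a/q`. -/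
theorem bw_quad (Y q : ℂ) (hY : Y ≠ 0) (hq : q ≠ 0) (h1 : 1 + Y ≠ 0) (h2 : 1 + q ≠ 0)
    (h3 : Y ≠ q) (h4 : Y * q ≠ 1) :
    blochWigner (Y / q) + blochWigner (Y * q) - 2 * blochWigner (-Y) =
      blochWigner (Y * ((1 + q) / (1 + Y))) + blochWigner (Y * ((1 + q) / (q * (1 + Y)))) -
      blochWigner ((1 + q) / (1 + Y)) - blochWigner ((1 + q) / (q * (1 + Y))) ∧
    blochWigner ((1 + q) / (1 + Y)) + blochWigner ((1 + q) / (q * (1 + Y))) +
      blochWigner (Y * ((1 + q) / (1 + Y))) + blochWigner (Y * ((1 + q) / (q * (1 + Y)))) =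
      -blochWigner ((Y - q) * (Y - 1 / q) / (1 + Y) ^ 2) := by
  have h1' : Y + 1 ≠ 0 := by rwa [add_comm]
  have h2' : q + 1 ≠ 0 := by rwa [add_comm]
  have k1 : -q ≠ 1 := fun h => h2 (by linear_combination -h)
  have k2 : -Y ≠ 1 := fun h => h1 (by linear_combination -h)
  have k3 : -1 / q ≠ 1 := by
    intro h
    rw [div_eq_iff hq] at h
    exact h2 (by linear_combination -h)
  have k4 : -1 / q ≠ -Y := by
    intro h
    rw [div_eq_iff hq] at h
    exact h4 (by linear_combination h)
  refine ⟨?_, ?_⟩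
  · have f1 := Fan_five (-q) (-Y) (neg_ne_zero.2 hq) (neg_ne_zero.2 hY)
      (fun h => h3 (neg_injective h).symm) k1 k2
    have f2 := Fan_five (-1 / q) (-Y) (div_ne_zero (neg_ne_zero.2 one_ne_zero) hq)
      (neg_ne_zero.2 hY) k4 k3 k2
    have g1 : -Y / -q = Y / q := neg_div_neg_eq _ _
    have g2 : (1 - 1 / -q) / (1 - 1 / -Y) = Y * ((1 + q) / (q * (1 + Y))) := by
      have : 1 - 1 / -Y = (1 + Y) / Y := by field_simp; ring
      rw [this]
      field_simp
      ring
    have g3 : (1 - -q) / (1 - -Y) = (1 + q) / (1 + Y) := by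
      rw [sub_neg_eq_add, sub_neg_eq_add]
    have g4 : -Y / (-1 / q) = Y * q := by field_simp
    have g5 : (1 - 1 / (-1 / q)) / (1 - 1 / -Y) = Y * ((1 + q) / (1 + Y)) := by
      have : 1 - 1 / -Y = (1 + Y) / Y := by field_simp; ring
      rw [this]
      field_simp
      ring
    have g6 : (1 - -1 / q) / (1 - -Y) = (1 + q) / (q * (1 + Y)) := by
      rw [sub_neg_eq_add]
      field_simp
      ring
    have g7 : blochWigner (-1 / q) = -blochWigner (-q) := by
      rw [← SWpath_inv]
      congr 1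
      field_simp
    rw [g1, g2, g3] at f1
    rw [g4, g5, g6, g7] at f2
    linarith
  · set a := (1 + q) / (1 + Y) with ha
    set b := (1 + q) / (q * (1 + Y)) with hb
    have ha0 : a ≠ 0 := div_ne_zero h2 h1
    have hb0 : b ≠ 0 := div_ne_zero h2 (mul_ne_zero hq h1)
    have eU : (1 - a) * (1 - b) = (Y - q) * (Y - 1 / q) / (1 + Y) ^ 2 := by
      rw [ha, hb]
      field_simp
      ring
    have e1 : 1 - (1 - a) * (1 - b) = Y * a * b := by
      rw [ha, hb]
      field_simp
      ring
    have hne : (1 - a) * (1 - b) ≠ 1 := by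
      intro h
      rw [h, sub_self] at e1
      exact mul_ne_zero (mul_ne_zero hY ha0) hb0 e1.symm
    have f := five_term (1 - a) (1 - b) hne
    rw [e1] at f
    have g1 : (1 - (1 - a)) / (Y * a * b) = (Y * b)⁻¹ := by
      rw [sub_sub_cancel]
      field_simp
    have g2 : (1 - (1 - b)) / (Y * a * b) = (Y * a)⁻¹ := by
      rw [sub_sub_cancel]
      field_simp
    have g3 : blochWigner (Y * a * b) = -blochWigner ((Y - q) * (Y - 1 / q) / (1 + Y) ^ 2) := by
      rw [← SWpath_one_sub, ← eU, ← e1]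
    rw [g1, g2, g3, SWpath_inv, SWpath_inv, SWpath_one_sub, SWpath_one_sub] at f
    linarith

end Pool.Agent.H63.VC3
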