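import Pool.Agent.H63.VC3.Clausen
import Pool.Agent.H63.VC3.Fan

/-! # Algebraic relations at the critical point -/

namespace Pool.Agent.H63.VC3

open Pool.Agent.H63.VC Complex

theorem Rel_sin_ne {z : ℂ} (hz : z.im ≠ 0) : sin z ≠ 0 := by
  intro h
  rw [Complex.sin_eq_zero_iff] at h
  obtain ⟨k, hk⟩ := h
  apply hz
  rw [hk]
  simp

theorem Rel_cos_ne {z : ℂ} (hz : z.im ≠ 0) : cos z ≠ 0 := by
  intro h
  rw [Complex.cos_eq_zero_iff] at h
  obtain ⟨k, hk⟩ := h
  apply hz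
  have : z = (((2 * k + 1) * Real.pi / 2 : ℝ) : ℂ) := by rw [hk]; push_cast; ring
  rw [this, Complex.ofReal_im]

theorem Rel_re_small {x : ℝ} {r : ℤ} (hr : 10 ≤ |r|) (h : |x| < 2 / (4 * |(r : ℝ)| - 1)) :
    |x| < 2 / 39 := by
  have h1 : (10 : ℝ) ≤ |(r : ℝ)| := by exact_mod_cast hr
  refine lt_of_lt_of_le h ?_
  apply div_le_div_of_nonneg_left (by norm_num) (by norm_num) (by linarith)

theorem Rel_one_add_cos (v : ℂ) : 1 + cos (2 * Real.pi * v) = 2 * cos (Real.pi * v) ^ 2 := by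
  rw [mul_assoc, Complex.cos_two_mul]
  ring

theorem Rel_cos_re {v : ℂ} (h : |v.re| < 2 / 39) : 0 < (cos (2 * Real.pi * v)).re := by
  rw [Complex.cos_eq]
  have e1 : (2 * Real.pi * v : ℂ).re = 2 * Real.pi * v.re := by simp
  have e2 : (2 * Real.pi * v : ℂ).im = 2 * Real.pi * v.im := by simp
  rw [e1, e2]
  have e3 : (cos ((2 * Real.pi * v.re : ℝ) : ℂ) * cosh ((2 * Real.pi * v.im : ℝ) : ℂ) -
      sin ((2 * Real.pi * v.re : ℝ) : ℂ) * sinh ((2 * Real.pi * v.im : ℝ) : ℂ) * I).re =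
      Real.cos (2 * Real.pi * v.re) * Real.cosh (2 * Real.pi * v.im) := by
    rw [← Complex.ofReal_cos, ← Complex.ofReal_cosh, ← Complex.ofReal_sin, ← Complex.ofReal_sinh]
    simp only [Complex.sub_re, Complex.mul_re, Complex.ofReal_re, Complex.ofReal_im,
      Complex.I_re, Complex.I_im, Complex.mul_im, mul_zero, zero_mul, sub_zero, add_zero]
  rw [e3]
  apply mul_pos _ (Real.cosh_pos _)
  have hp := Real.pi_pos
  rw [abs_lt] at h
  apply Real.cos_pos_of_mem_Ioo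
  constructor
  · nlinarith
  · nlinarith

/-- Nonvanishing facts near the critical point. -/
theorem crit_ne (r1 r2 : ℤ) (y v w : ℂ) (hc : Crit r1 r2 y v w) :
    1 + cos (2 * Real.pi * v) ≠ 0 ∧ 1 + cos (2 * Real.pi * w) ≠ 0 ∧
    2 + cos (2 * Real.pi * v) + cos (2 * Real.pi * w) ≠ 0 ∧
    (∀ k : ℕ, 1 ≤ k → (k : ℤ) ≤ 2 * |r1| → sin (k * (Real.pi * v)) ≠ 0) ∧
    (∀ k : ℕ, 1 ≤ k → (k : ℤ) ≤ 2 * |r2| → sin (k * (Real.pi * w)) ≠ 0) := by
  have hv := hc.imv
  have hw := hc.imw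
  have hp := Real.pi_pos
  have aux : ∀ u : ℂ, 0 < u.im → 1 + cos (2 * Real.pi * u) ≠ 0 := by
    intro u hu
    rw [Rel_one_add_cos]
    apply mul_ne_zero two_ne_zero
    apply pow_ne_zero
    apply Rel_cos_ne
    have : (Real.pi * u : ℂ).im = Real.pi * u.im := by simp
    rw [this]
    positivity
  have aux2 : ∀ u : ℂ, 0 < u.im → ∀ k : ℕ, 1 ≤ k → sin (k * (Real.pi * u)) ≠ 0 := by
    intro u hu k hk
    apply Rel_sin_ne
    have : (k * (Real.pi * u) : ℂ).im = k * (Real.pi * u.im) := by simp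
    rw [this]
    have : (0 : ℝ) < k := by exact_mod_cast hk
    positivity
  refine ⟨aux v hv, aux w hw, ?_, fun k hk _ => aux2 v hv k hk, fun k hk _ => aux2 w hw k hk⟩
  have h1 := Rel_cos_re (Rel_re_small hc.h1 hc.rev)
  have h2 := Rel_cos_re (Rel_re_small hc.h2 hc.rew)
  intro h
  have := congrArg Complex.re h
  simp only [Complex.add_re, Complex.zero_re, Complex.re_ofNat] at this
  linarith

theorem Rel_strip (r1 r2 : ℤ) (y v w : ℂ) (hc : Crit r1 r2 y v w) :
    (0 < (y + 1 / 2).re ∧ (y + 1 / 2).re < 1) ∧ (0 < (y - v).re ∧ (y - v).re < 1) ∧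
    (0 < (y + v).re ∧ (y + v).re < 1) ∧ (0 < (y - w).re ∧ (y - w).re < 1) ∧
    (0 < (y + w).re ∧ (y + w).re < 1) := by
  have h1 := abs_lt.1 (Rel_re_small hc.h1 hc.rev)
  have h2 := abs_lt.1 (Rel_re_small hc.h2 hc.rew)
  have h3 : |(y - 1 / 4).re| ≤ 1 / 100 := le_trans (Complex.abs_re_le_norm _) hc.bdy
  have h4 : (y - 1 / 4).re = y.re - 1 / 4 := by
    rw [Complex.sub_re]; norm_num
  rw [h4, abs_le] at h3
  have h5 : (y + 1 / 2).re = y.re + 1 / 2 := by
    rw [Complex.add_re]; norm_num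
  rw [h5]
  simp only [Complex.sub_re, Complex.add_re]
  refine ⟨⟨?_, ?_⟩, ⟨?_, ?_⟩, ⟨?_, ?_⟩, ⟨?_, ?_⟩, ⟨?_, ?_⟩⟩ <;> linarith [h1.1, h1.2, h2.1, h2.2,
    h3.1, h3.2]

theorem Rel_prod (y v : ℂ) : 2 * sin (Real.pi * (y - v)) * (2 * sin (Real.pi * (y + v))) =
    2 * (cos (2 * Real.pi * v) - cos (2 * Real.pi * y)) := by
  rw [mul_assoc 2 (Real.pi : ℂ) v, mul_assoc 2 (Real.pi : ℂ) y, Complex.cos_two_mul,
    Complex.cos_two_mul, mul_sub, mul_add, Complex.sin_sub, Complex.sin_add]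
  have h1 := Complex.sin_sq_add_cos_sq (Real.pi * v)
  have h2 := Complex.sin_sq_add_cos_sq (Real.pi * y)
  generalize sin (Real.pi * v) = sv at *
  generalize cos (Real.pi * v) = cv at *
  generalize sin (Real.pi * y) = sy at *
  generalize cos (Real.pi * y) = cy at *
  linear_combination (4 * cv ^ 2 ) * h2 - (4 * cy ^ 2) * h1

theorem Rel_cos_half (y : ℂ) : 2 * sin (Real.pi * (y + 1 / 2)) = 2 * cos (Real.pi * y) := by
  have : Real.pi * (y + 1 / 2) = Real.pi * y + Real.pi / 2 := by ring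
  rw [this, Complex.sin_add_pi_div_two]

/-- The outer equation. -/
theorem rel_c (r1 r2 : ℤ) (y v w : ℂ) (hc : Crit r1 r2 y v w) :
    cos (2 * Real.pi * y) * (2 + cos (2 * Real.pi * v) + cos (2 * Real.pi * w)) =
      cos (2 * Real.pi * v) * cos (2 * Real.pi * w) - 1 := by
  obtain ⟨⟨a1, a2⟩, ⟨b1, b2⟩, ⟨c1, c2⟩, ⟨d1, d2⟩, ⟨e1, e2⟩⟩ := Rel_strip r1 r2 y v w hc
  have h := congrArg Complex.exp hc.ey
  rw [Complex.exp_add, Complex.exp_add, Complex.exp_add, hh_exp _ b1 b2, hh_exp _ c1 c2,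
    hh_exp _ d1 d2, hh_exp _ e1 e2] at h
  have h4 : Complex.exp (4 * hh (y + 1 / 2)) = (2 * (1 + cos (2 * Real.pi * y))) ^ 2 := by
    have : (4 : ℂ) * hh (y + 1 / 2) = (4 : ℕ) * hh (y + 1 / 2) := by norm_num
    rw [this, Complex.exp_nat_mul, hh_exp _ a1 a2, Rel_cos_half, Rel_one_add_cos]
    ring
  rw [h4, Rel_prod y v] at h
  have h5 : 2 * (cos (2 * Real.pi * v) - cos (2 * Real.pi * y)) * (2 * sin (Real.pi * (y - w))) *
      (2 * sin (Real.pi * (y + w))) = 2 * (cos (2 * Real.pi * v) - cos (2 * Real.pi * y)) *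
      (2 * (cos (2 * Real.pi * w) - cos (2 * Real.pi * y))) := by
    rw [← Rel_prod y w]; ring
  rw [h5] at h
  linear_combination (1 / 4) * h

theorem Rel_E_aux (r : ℤ) (y v : ℂ) (b1 : 0 < (y - v).re) (b2 : (y - v).re < 1)
    (c1 : 0 < (y + v).re) (c2 : (y + v).re < 1)
    (h : 2 * Real.pi * I * (2 * r * v + 1) + hh (y - v) - hh (y + v) = 0) :
    exp (4 * Real.pi * I * r * v) * (exp (2 * Real.pi * I * y) - exp (2 * Real.pi * I * v)) =
      exp (2 * Real.pi * I * y) * exp (2 * Real.pi * I * v) - 1 := by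
  have h0 : 4 * Real.pi * I * r * v + 2 * Real.pi * I + hh (y - v) = hh (y + v) := by
    linear_combination h
  have h1 := congrArg Complex.exp h0
  rw [Complex.exp_add, Complex.exp_add, hh_exp _ b1 b2, hh_exp _ c1 c2, Complex.exp_two_pi_mul_I,
    mul_one] at h1
  have t : ∀ z : ℂ, 2 * sin z = (exp (-z * I) - exp (z * I)) * I := by
    intro z
    rw [Complex.sin]
    ring
  rw [t, t] at h1
  have s1 : exp (-(Real.pi * (y - v)) * I) = exp (-(Real.pi * (y + v)) * I) *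
      exp (2 * Real.pi * I * v) := by
    rw [← Complex.exp_add]; congr 1; ring
  have s2 : exp (Real.pi * (y - v) * I) = exp (-(Real.pi * (y + v)) * I) *
      exp (2 * Real.pi * I * y) := by
    rw [← Complex.exp_add]; congr 1; ring
  have s3 : exp (Real.pi * (y + v) * I) = exp (-(Real.pi * (y + v)) * I) *
      (exp (2 * Real.pi * I * y) * exp (2 * Real.pi * I * v)) := by
    rw [← Complex.exp_add, ← Complex.exp_add]; congr 1; ring
  rw [s1, s2, s3] at h1
  have hn : exp (-(Real.pi * (y + v)) * I) * I ≠ 0 := mul_ne_zero (Complex.exp_ne_zero _) I_ne_zero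
  apply mul_left_cancel₀ hn
  linear_combination -h1

/-- The inner equations. -/
theorem rel_E (r1 r2 : ℤ) (y v w : ℂ) (hc : Crit r1 r2 y v w) :
    exp (4 * Real.pi * I * r1 * v) * (exp (2 * Real.pi * I * y) - exp (2 * Real.pi * I * v)) =
      exp (2 * Real.pi * I * y) * exp (2 * Real.pi * I * v) - 1 ∧
    exp (4 * Real.pi * I * r2 * w) * (exp (2 * Real.pi * I * y) - exp (2 * Real.pi * I * w)) =
      exp (2 * Real.pi * I * y) * exp (2 * Real.pi * I * w) - 1 := by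
  obtain ⟨⟨a1, a2⟩, ⟨b1, b2⟩, ⟨c1, c2⟩, ⟨d1, d2⟩, ⟨e1, e2⟩⟩ := Rel_strip r1 r2 y v w hc
  exact ⟨Rel_E_aux r1 y v b1 b2 c1 c2 hc.ev, Rel_E_aux r2 y w d1 d2 e1 e2 hc.ew⟩

/-- `X_k² sin² (π v) q^k · (-4) = (q^k - 1)²`. -/
theorem Rel_Xs_sq (v : ℂ) (k : ℕ) :
    Xs (2 * cos (Real.pi * v)) k ^ 2 * exp (2 * Real.pi * I * v) ^ k *
      (exp (2 * Real.pi * I * v) - 1) ^ 2 =
      exp (2 * Real.pi * I * v) * (exp (2 * Real.pi * I * v) ^ k - 1) ^ 2 := by
  have t : ∀ (z : ℂ), (exp (2 * z * I) - 1) ^ 2 = -4 * exp (2 * z * I) * sin z ^ 2 := by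
    intro z
    have e1 : exp (2 * z * I) = exp (z * I) * exp (z * I) := by
      rw [← Complex.exp_add]; congr 1; ring
    have e2 : exp (-z * I) * exp (z * I) = 1 := by
      rw [← Complex.exp_add]; simp
    rw [e1, Complex.sin]
    have hI := I_sq
    generalize exp (-z * I) = b at *
    generalize exp (z * I) = a at *
    linear_combination (a ^ 2 * (b - a) ^ 2) * hI + (2 * a ^ 2 - 1 - a * b) * e2
  have q1 : exp (2 * Real.pi * I * v) = exp (2 * (Real.pi * v) * I) := by congr 1; ring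
  have q2 : exp (2 * Real.pi * I * v) ^ k = exp (2 * (k * (Real.pi * v)) * I) := by
    rw [← Complex.exp_nat_mul]; congr 1; ring
  rw [q2, q1, t, t, ← Xs_sin v k]
  ring

/-- The last shapes, for a positive number of twists. -/
theorem rel_pos (p : ℕ) (y v A B : ℂ) (hp : 1 ≤ p) (hA : A = cos (2 * Real.pi * v))
    (hc : cos (2 * Real.pi * y) * (2 + A + B) = A * B - 1)
    (hE : exp (4 * Real.pi * I * p * v) * (exp (2 * Real.pi * I * y) - exp (2 * Real.pi * I * v)) =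
      exp (2 * Real.pi * I * y) * exp (2 * Real.pi * I * v) - 1)
    (h1 : 1 + A ≠ 0) (h2 : 1 + B ≠ 0) (h3 : 2 + A + B ≠ 0) (h4 : sin (Real.pi * v) ≠ 0) :
    Xs (2 * cos (Real.pi * v)) (2 * p) ^ 2 * (1 + A) = -(1 + B) ∧
    Xs (2 * cos (Real.pi * v)) (2 * p - 1) ^ 2 * (exp (2 * Real.pi * I * y) * (1 + A)) =
      -(2 + A + B) ∧
    (exp (2 * Real.pi * I * y) - exp (2 * Real.pi * I * v)) *
      (exp (2 * Real.pi * I * y) - 1 / exp (2 * Real.pi * I * v)) /
      (1 + exp (2 * Real.pi * I * y)) ^ 2 = -(1 + A) / (1 + B) ∧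
    qn (exp (2 * Real.pi * I * v)) (2 * p) =
      (1 + exp (2 * Real.pi * I * y)) / (exp (2 * Real.pi * I * y) - exp (2 * Real.pi * I * v)) ∧
    qn (exp (2 * Real.pi * I * v)) (2 * p) / qn (exp (2 * Real.pi * I * v)) (2 * p - 1) =
      exp (2 * Real.pi * I * v) * (1 + exp (2 * Real.pi * I * y)) /
        (1 + exp (2 * Real.pi * I * v)) := by
  have hX := fun k => Rel_Xs_sq v k
  have hcos : ∀ z : ℂ, 2 * exp (2 * Real.pi * I * z) * cos (2 * Real.pi * z) =
      exp (2 * Real.pi * I * z) ^ 2 + 1 := by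
    intro z
    rw [Complex.cos]
    have e1 : exp (2 * Real.pi * z * I) = exp (2 * Real.pi * I * z) := by congr 1; ring
    have e2 : exp (-(2 * Real.pi * z) * I) * exp (2 * Real.pi * I * z) = 1 := by
      rw [← Complex.exp_add, ← Complex.exp_zero]; congr 1; ring
    rw [e1]
    linear_combination e2
  have hq1 : exp (2 * Real.pi * I * v) - 1 ≠ 0 := by
    intro h
    have h5 : exp (2 * Real.pi * I * v) = 1 := by linear_combination h
    have h6 := hcos v
    rw [h5] at h6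
    have h7 : cos (2 * Real.pi * v) = 1 := by linear_combination (1 / 2) * h6
    rw [mul_assoc, Complex.cos_two_mul] at h7
    have h8 := Complex.sin_sq_add_cos_sq (Real.pi * v)
    apply h4
    have : sin (Real.pi * v) ^ 2 = 0 := by linear_combination h8 - (1 / 2) * h7
    exact pow_eq_zero_iff (two_ne_zero) |>.1 this
  have hEq : exp (4 * Real.pi * I * p * v) = exp (2 * Real.pi * I * v) ^ (2 * p) := by
    rw [← Complex.exp_nat_mul]; congr 1; push_cast; ring
  have hEq2 : exp (2 * Real.pi * I * v) ^ (2 * p) =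
      exp (2 * Real.pi * I * v) ^ (2 * p - 1) * exp (2 * Real.pi * I * v) := by
    rw [← pow_succ]; congr 1; omega
  have hvq := hcos v
  have hyq := hcos y
  rw [← hA] at hvq
  rw [hEq] at hE
  have hX1 := hX (2 * p)
  have hX2 := hX (2 * p - 1)
  have hq0 : exp (2 * Real.pi * I * v) ≠ 0 := Complex.exp_ne_zero _
  have hY0 : exp (2 * Real.pi * I * y) ≠ 0 := Complex.exp_ne_zero _
  have hF0 : exp (2 * Real.pi * I * v) ^ (2 * p - 1) ≠ 0 := pow_ne_zero _ hq0
  simp only [qn]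
  rw [hEq2] at hE hX1 ⊢
  generalize exp (2 * Real.pi * I * v) ^ (2 * p - 1) = F at *
  generalize exp (2 * Real.pi * I * v) = q at *
  generalize exp (2 * Real.pi * I * y) = Y at *
  generalize cos (2 * Real.pi * y) = c at *
  generalize Xs (2 * cos (Real.pi * v)) (2 * p) = X1 at *
  generalize Xs (2 * cos (Real.pi * v)) (2 * p - 1) = X2 at *
  -- `1 + A = (1 + q)² / (2 q)`
  have k1 : 2 * q * (1 + A) = (1 + q) ^ 2 := by linear_combination hvq
  have hq2 : 1 + q ≠ 0 := by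
    intro h
    apply h1
    rw [h] at k1
    have : 2 * q ≠ 0 := mul_ne_zero two_ne_zero hq0
    have := mul_left_cancel₀ this (show 2 * q * (1 + A) = 2 * q * 0 by rw [k1]; ring)
    exact this
  have k2 : 2 * Y * (1 + c) = (1 + Y) ^ 2 := by linear_combination hyq
  have k3 : (1 + c) * (2 + A + B) = (1 + A) * (1 + B) := by linear_combination hc
  have hY1 : 1 + Y ≠ 0 := by
    intro h
    rw [h] at k2
    have h5 : (1 + c) = 0 := by
      have : 2 * Y ≠ 0 := mul_ne_zero two_ne_zero hY0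
      exact mul_left_cancel₀ this (show 2 * Y * (1 + c) = 2 * Y * 0 by rw [k2]; ring)
    rw [h5, zero_mul] at k3
    exact mul_ne_zero h1 h2 k3.symm
  have hYq : Y - q ≠ 0 := by
    intro h
    rw [h, mul_zero] at hE
    have h5 : Y = q := by linear_combination h
    rw [h5] at hE
    have : (q - 1) * (1 + q) = 0 := by linear_combination -hE
    exact mul_ne_zero hq1 hq2 this
  have k4 : (A - c) * (2 + A + B) = (1 + A) ^ 2 := by linear_combination -hc
  have k5 : (Y - q) * (Y * q - 1) = -(2 * q * Y * (A - c)) := by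
    linear_combination Y * hvq - q * hyq
  have hYq1 : Y * q - 1 ≠ 0 := by
    intro h
    rw [h, mul_zero] at k5
    have h5 : (A - c) = 0 := by
      have : 2 * q * Y ≠ 0 := mul_ne_zero (mul_ne_zero two_ne_zero hq0) hY0
      exact mul_left_cancel₀ this (show 2 * q * Y * (A - c) = 2 * q * Y * 0 by
        linear_combination k5)
    rw [h5, zero_mul] at k4
    exact pow_ne_zero 2 h1 k4.symm
  have g1 : (F * q - 1) * (Y - q) = (q - 1) * (1 + Y) := by linear_combination hE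
  have g2 : q * (F - 1) * (Y - q) = (q - 1) * (1 + q) := by linear_combination hE
  have r1 : (F * q - 1) / (q - 1) = (1 + Y) / (Y - q) := by
    rw [div_eq_div_iff hq1 hYq, g1]; ring
  have hF1 : F - 1 ≠ 0 := by
    intro h
    rw [h, mul_zero, zero_mul] at g2
    exact mul_ne_zero hq1 hq2 g2.symm
  have r2 : (F - 1) / (q - 1) = (1 + q) / (q * (Y - q)) := by
    rw [div_eq_div_iff hq1 (mul_ne_zero hq0 hYq)]
    linear_combination g2
  -- the squares
  have hE' : F * q = (Y * q - 1) / (Y - q) := by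
    rw [eq_div_iff hYq]; exact hE
  have m1 : X1 ^ 2 * ((Y - q) * (Y * q - 1)) = q * (1 + Y) ^ 2 := by
    have hd : (q - 1) ^ 2 ≠ 0 := pow_ne_zero 2 hq1
    apply mul_left_cancel₀ hd
    have : X1 ^ 2 * (F * q) * (q - 1) ^ 2 * (Y - q) ^ 2 =
        q * ((F * q - 1) * (Y - q)) ^ 2 := by rw [hX1]; ring
    rw [g1] at this
    linear_combination this - X1 ^ 2 * (q - 1) ^ 2 * (Y - q) * hE
  have m2 : X2 ^ 2 * ((Y - q) * (Y * q - 1)) = (1 + q) ^ 2 := by
    have hd : q ^ 2 * (q - 1) ^ 2 ≠ 0 := mul_ne_zero (pow_ne_zero 2 hq0) (pow_ne_zero 2 hq1)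
    apply mul_left_cancel₀ hd
    have : X2 ^ 2 * F * (q - 1) ^ 2 * (Y - q) ^ 2 * q ^ 2 =
        q * (q * (F - 1) * (Y - q)) ^ 2 := by rw [hX2]; ring
    rw [g2] at this
    linear_combination q * this - X2 ^ 2 * (q - 1) ^ 2 * (Y - q) * q ^ 2 * hE
  have n1 : X1 ^ 2 * (A - c) = -(1 + c) := by
    have hd : -(2 * q * Y) ≠ 0 := neg_ne_zero.2 (mul_ne_zero (mul_ne_zero two_ne_zero hq0) hY0)
    apply mul_left_cancel₀ hd
    rw [k5] at m1
    linear_combination m1 - q * k2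
  have n2 : X2 ^ 2 * (Y * (A - c)) = -(1 + A) := by
    have hd : -(2 * q) ≠ 0 := neg_ne_zero.2 (mul_ne_zero two_ne_zero hq0)
    apply mul_left_cancel₀ hd
    rw [k5] at m2
    linear_combination m2 - k1
  have n3 : (A - c) * (1 + B) = (1 + A) * (1 + c) := by
    apply mul_right_cancel₀ h3
    linear_combination (1 + B) * k4 - (1 + A) * k3
  refine ⟨?_, ?_, ?_, r1, ?_⟩
  · apply mul_left_cancel₀ h1
    linear_combination (2 + A + B) * n1 - X1 ^ 2 * k4 - k3
  · apply mul_left_cancel₀ h1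
    linear_combination (2 + A + B) * n2 - X2 ^ 2 * Y * k4
  · rw [div_eq_div_iff (pow_ne_zero 2 hY1) h2]
    have : Y - 1 / q = (Y * q - 1) / q := by
      rw [eq_div_iff hq0]; field_simp
    rw [this, ← mul_div_assoc, k5, ← k2]
    field_simp
    linear_combination (-1 : ℂ) * n3
  · rw [r1, r2]
    field_simp

end Pool.Agent.H63.VC3
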