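import Pool.Agent.H63.VC3.JNlim

/-! # Complex asymptotics of the invariant -/

namespace Pool.Agent.H63.VC3

open Pool.Agent.H63.VC Complex Filter Topology

theorem JNlimC_c1 (n : ℕ) (r : ℤ) :
    Tendsto (fun M : ℕ => c1 n M ^ r * exp (M * (Real.pi * I * r / 2))) atTop
      (𝓝 (((-1) ^ (n + 1)) ^ r)) := by
  have h1 : ∀ M : ℕ, c1 n M ^ r * exp (M * (Real.pi * I * r / 2)) =
      ((-1) ^ (n + 1)) ^ r * exp (-(2 * Real.pi * I * r * (bt n : ℂ) ^ 2) * ((1 : ℂ) / M)) := by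
    intro M
    unfold c1
    have e1 : (I : ℂ) ^ M = exp (Real.pi * I * (M / 2)) := TermsA_I M
    have e2 : (-1 : ℂ) ^ (n + 1 + M) = (-1) ^ (n + 1) * exp (Real.pi * I * M) := by
      rw [pow_add, TermsA_neg M]
    rw [e1, e2, mul_zpow, mul_zpow, mul_zpow, ← exp_int_mul, ← exp_int_mul, ← exp_int_mul]
    have e3 : exp (r * (Real.pi * I * M)) * exp (r * (Real.pi * I * (M / 2))) *
        exp (r * (-(2 * Real.pi * I / M) * (bt n : ℂ) ^ 2)) * exp (M * (Real.pi * I * r / 2)) =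
        exp (-(2 * Real.pi * I * r * (bt n : ℂ) ^ 2) * ((1 : ℂ) / M)) := by
      rw [← exp_add, ← exp_add, ← exp_add, exp_eq_exp_iff_exists_int]
      refine ⟨r * M, ?_⟩
      push_cast
      ring
    rw [← e3]
    ring
  simp_rw [h1]
  have h2 : Tendsto (fun M : ℕ => (1 : ℂ) / M) atTop (𝓝 0) := by
    have h3 := tendsto_one_div_atTop_nhds_zero_nat (𝕜 := ℝ)
    have h4 := (Complex.continuous_ofReal.tendsto 0).comp h3
    rw [ofReal_zero] at h4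
    refine h4.congr fun M => ?_
    simp
  have h5 := ((h2.const_mul (-(2 * Real.pi * I * r * (bt n : ℂ) ^ 2))).cexp).const_mul
    ((((-1) ^ (n + 1)) ^ r : ℂ))
  simpa using h5

theorem JN_lim_c (r1 r2 : ℤ) (y v w : ℂ) (hc : Crit r1 r2 y v w) (n g : ℕ) (hn : 2 ≤ n)
    (hg : 1 ≤ g) (hgn : g ≤ n - 1) :
    ∃ κ : ℂ, κ ≠ 0 ∧ Tendsto (fun M : ℕ => JN r1 r2 n g M /
      (((M : ℝ) ^ (2 * (n : ℝ) - 5 / 2) : ℝ) *
        exp (M * (Vf r1 r2 y v w - Real.pi * I * (r1 + r2) / 2)))) atTop (𝓝 κ) := by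
  obtain ⟨k1, k2, l1, l2, hwin⟩ := win_exists n hn
  obtain ⟨K, hK, hKlim⟩ := main_lim r1 r2 y v w hc n g hn hg hgn k1 k2 l1 l2 hwin
  obtain ⟨C, hC, D, M0, hmain⟩ := JN_main r1 r2 y v w hc n g hn hg hgn
  obtain ⟨MI, hMI⟩ : ∃ MI : ℕ → ℂ, ∀ M, MI M = MainInt r1 r2 n g M y.im v.im w.im
      ((k1 M + bt n) / M - 1 / 2) ((k2 M + 1 + bt n) / M - 1 / 2) (rho n M (l2 M)) :=
    ⟨_, fun _ => rfl⟩
  simp only [← hMI] at hKlim
  obtain ⟨H, hH⟩ : ∃ H, H = (Vf r1 r2 y v w).re := ⟨_, rfl⟩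
  rw [← hH] at hmain
  -- the denominators
  have hDlim : Tendsto (fun M : ℕ => Dg n g M * (M : ℝ) ^ (2 * n - 4)) atTop
      (𝓝 (((2 * Real.pi) ^ (g - 1) * (Nat.factorial (g - 1) : ℝ)) *
        ((2 * Real.pi) ^ (n - g - 1) * (Nat.factorial (n - g - 1) : ℝ)) *
        ((2 * Real.pi) ^ (n - 2) * (Nat.factorial (n - 2) : ℝ)))) := by
    refine (((S_lim (g - 1)).mul (S_lim (n - g - 1))).mul (S_lim (n - 2))).congr fun M => ?_
    unfold Dg
    have e : 2 * n - 4 = (g - 1) + (n - g - 1) + (n - 2) := by omega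
    rw [e, pow_add, pow_add]
    ring
  obtain ⟨c, hcd⟩ : ∃ c, c = ((2 * Real.pi) ^ (g - 1) * (Nat.factorial (g - 1) : ℝ)) *
        ((2 * Real.pi) ^ (n - g - 1) * (Nat.factorial (n - g - 1) : ℝ)) *
        ((2 * Real.pi) ^ (n - 2) * (Nat.factorial (n - 2) : ℝ)) := ⟨_, rfl⟩
  rw [← hcd] at hDlim
  have hc0 : 0 < c := by
    rw [hcd]
    positivity
  have hsgn : (((-1 : ℂ) ^ (n + 1)) ^ (r1 + r2)) ≠ 0 :=
    zpow_ne_zero _ (pow_ne_zero _ (by norm_num))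
  refine ⟨((-1) ^ (n + 1)) ^ (r1 + r2) * (K * ((c⁻¹ : ℝ) : ℂ)), mul_ne_zero hsgn (mul_ne_zero hK
    (by exact_mod_cast (inv_pos.2 hc0).ne')), ?_⟩
  -- the main term
  have hDlimC : Tendsto (fun M : ℕ => (((Dg n g M * (M : ℝ) ^ (2 * n - 4))⁻¹ : ℝ) : ℂ)) atTop
      (𝓝 ((c⁻¹ : ℝ) : ℂ)) :=
    (Complex.continuous_ofReal.tendsto _).comp (hDlim.inv₀ hc0.ne')
  have hphase := JNlimC_c1 n (r1 + r2)
  have hmainlim := hphase.mul (hKlim.mul hDlimC)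
  have herr := JNlim_err C D
  -- comparison
  have hcomp : ∀ᶠ M : ℕ in atTop, ‖JN r1 r2 n g M /
      (((M : ℝ) ^ (2 * (n : ℝ) - 5 / 2) : ℝ) *
        exp (M * (Vf r1 r2 y v w - Real.pi * I * (r1 + r2) / 2))) -
      c1 n M ^ (r1 + r2) * exp (M * (Real.pi * I * ((r1 + r2 : ℤ) : ℂ) / 2)) *
      ((((M : ℝ) ^ (3 / 2 : ℝ) : ℝ) : ℂ) *
      exp (-M * Vf r1 r2 y v w) * MI M *
        (((Dg n g M * (M : ℝ) ^ (2 * n - 4))⁻¹ : ℝ) : ℂ))‖ ≤
        C * (M : ℝ) ^ D * Real.exp (-(M / 500)) := by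
    filter_upwards [hwin, eventually_ge_atTop M0, eventually_gt_atTop 0] with M hw hM0 hM
    have hMn : n ≤ M := by have := hw.big; omega
    have hMr : (1 : ℝ) ≤ M := by exact_mod_cast hM
    have hMp : (0 : ℝ) < M := by linarith
    obtain ⟨hDg, -⟩ := Reduce_Dg n g M hn hg hgn hMn
    have h1 := hmain M (k1 M) (k2 M) (l1 M) (l2 M) hM0 hw
    rw [← hMI] at h1
    set W : ℂ := (((M : ℝ) ^ (2 * (n : ℝ) - 5 / 2) : ℝ) *
        exp (M * (Vf r1 r2 y v w - Real.pi * I * (r1 + r2) / 2))) with hWdef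
    have hW0 : (((M : ℝ) ^ (2 * (n : ℝ) - 5 / 2) : ℝ) : ℂ) ≠ 0 := by
      exact_mod_cast (Real.rpow_pos_of_pos hMp _).ne'
    have hWne : W ≠ 0 := mul_ne_zero hW0 (exp_ne_zero _)
    have hWn : ‖W‖ = (M : ℝ) ^ (2 * (n : ℝ) - 5 / 2) * Real.exp (M * H) := by
      rw [hWdef, norm_mul, Complex.norm_real, Real.norm_of_nonneg (by positivity),
        Complex.norm_exp]
      congr 2
      rw [hH, Complex.mul_re]
      have e1 : (Vf r1 r2 y v w - Real.pi * I * (r1 + r2) / 2 : ℂ) =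
          Vf r1 r2 y v w - ((Real.pi * (r1 + r2) / 2 : ℝ) : ℂ) * I := by
        push_cast
        ring
      rw [e1]
      simp
    have hW1 : (1 : ℝ) ≤ (M : ℝ) ^ (2 * (n : ℝ) - 5 / 2) := by
      apply Real.one_le_rpow hMr
      have : (2 : ℝ) ≤ n := by exact_mod_cast hn
      linarith
    have hpow : (M : ℝ) ^ 3 = (M : ℝ) ^ (3 / 2 : ℝ) * (M : ℝ) ^ (2 * (n : ℝ) - 5 / 2) *
        ((M : ℝ) ^ (2 * n - 4))⁻¹ := by
      rw [← Real.rpow_natCast (M : ℝ) (2 * n - 4), ← Real.rpow_neg hMp.le,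
        ← Real.rpow_add hMp, ← Real.rpow_add hMp, ← Real.rpow_natCast (M : ℝ) 3]
      congr 1
      rw [Nat.cast_sub (by omega)]
      push_cast
      ring
    have hpowC : (M : ℂ) ^ 3 = (((M : ℝ) ^ (3 / 2 : ℝ) : ℝ) : ℂ) *
        (((M : ℝ) ^ (2 * (n : ℝ) - 5 / 2) : ℝ) : ℂ) * (((M : ℝ) ^ (2 * n - 4) : ℝ) : ℂ)⁻¹ := by
      have := congrArg (fun x : ℝ => (x : ℂ)) hpow
      push_cast at this ⊢
      exact this
    have hXY : c1 n M ^ (r1 + r2) * exp (M * (Real.pi * I * ((r1 + r2 : ℤ) : ℂ) / 2)) *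
      ((((M : ℝ) ^ (3 / 2 : ℝ) : ℝ) : ℂ) *
      exp (-M * Vf r1 r2 y v w) * MI M *
        (((Dg n g M * (M : ℝ) ^ (2 * n - 4))⁻¹ : ℝ) : ℂ)) =
        c1 n M ^ (r1 + r2) * ((M : ℂ) ^ 3 / Dg n g M) * MI M / W := by
      rw [eq_div_iff hWne, hpowC, hWdef]
      have e1 : exp (M * (Vf r1 r2 y v w - Real.pi * I * (r1 + r2) / 2)) =
          (exp (M * (Real.pi * I * ((r1 + r2 : ℤ) : ℂ) / 2)))⁻¹ * (exp (-M * Vf r1 r2 y v w))⁻¹ := by
        rw [← exp_neg, ← exp_neg, ← exp_add]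
        congr 1
        push_cast
        ring
      rw [e1]
      have hDC : ((Dg n g M : ℝ) : ℂ) ≠ 0 := by exact_mod_cast hDg.ne'
      have hx1 := exp_ne_zero (M * (Real.pi * I * ((r1 + r2 : ℤ) : ℂ) / 2))
      have hx2 := exp_ne_zero (-M * Vf r1 r2 y v w)
      rw [mul_inv, ofReal_mul, ofReal_inv, ofReal_inv]
      field_simp
    rw [hXY, ← sub_div, norm_div, hWn, div_le_iff₀ (by positivity)]
    refine h1.trans ?_
    have h3 : Real.exp (M * (H - 1 / 500)) = Real.exp (-(M / 500)) * Real.exp (M * H) := by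
      rw [← Real.exp_add]
      congr 1
      ring
    rw [h3]
    have h4 : 0 ≤ C * (M : ℝ) ^ D * (Real.exp (-(M / 500)) * Real.exp (M * H)) := by positivity
    calc C * (M : ℝ) ^ D * (Real.exp (-(M / 500)) * Real.exp (M * H))
        = C * (M : ℝ) ^ D * (Real.exp (-(M / 500)) * Real.exp (M * H)) * 1 := by ring
      _ ≤ C * (M : ℝ) ^ D * (Real.exp (-(M / 500)) * Real.exp (M * H)) *
          (M : ℝ) ^ (2 * (n : ℝ) - 5 / 2) := mul_le_mul_of_nonneg_left hW1 h4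
      _ = _ := by ring
  have hdiff := squeeze_zero_norm' hcomp herr
  have hsum := hdiff.add hmainlim
  rw [zero_add] at hsum
  refine hsum.congr fun M => ?_
  ring

end Pool.Agent.H63.VC3
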