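import Pool.Agent.H63.VC3.Clausen

/-! # Existence of the critical point by contraction -/

namespace Pool.Agent.H63.VC3

open Pool.Agent.H63.VC Complex

/-- The derivative of `hh`. -/
noncomputable def CritA_F (z : ℂ) : ℂ := Real.pi * Complex.cot (Real.pi * z)

lemma CritA_sin_le {θ : ℂ} (h : ‖θ‖ ≤ 1) : ‖sin θ‖ ≤ ‖θ‖ + ‖θ‖ ^ 3 / 6 + ‖θ‖ ^ 5 / 100 := by
  have h1 := Complex.sin_bound h
  have h2 : sin θ = (sin θ - (θ - θ ^ 3 / 6)) + θ - θ ^ 3 / 6 := by ring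
  have h3 : ‖θ ^ 3 / 6‖ = ‖θ‖ ^ 3 / 6 := by
    rw [norm_div, norm_pow]; norm_num
  calc ‖sin θ‖ = ‖(sin θ - (θ - θ ^ 3 / 6)) + θ - θ ^ 3 / 6‖ := by rw [← h2]
    _ ≤ ‖sin θ - (θ - θ ^ 3 / 6)‖ + ‖θ‖ + ‖θ ^ 3 / 6‖ :=
        (norm_sub_le _ _).trans (by gcongr; exact norm_add_le _ _)
    _ ≤ _ := by rw [h3]; linarith

lemma CritA_cos_le {θ : ℂ} (h : ‖θ‖ ≤ 1) :
    ‖cos θ - 1‖ ≤ ‖θ‖ ^ 2 / 2 + ‖θ‖ ^ 4 * (5 / 96) := by
  have h1 := Complex.cos_bound h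
  have h2 : cos θ - 1 = (cos θ - (1 - θ ^ 2 / 2)) - θ ^ 2 / 2 := by ring
  have h3 : ‖θ ^ 2 / 2‖ = ‖θ‖ ^ 2 / 2 := by
    rw [norm_div, norm_pow]; norm_num
  calc ‖cos θ - 1‖ = ‖(cos θ - (1 - θ ^ 2 / 2)) - θ ^ 2 / 2‖ := by rw [← h2]
    _ ≤ ‖cos θ - (1 - θ ^ 2 / 2)‖ + ‖θ ^ 2 / 2‖ := norm_sub_le _ _
    _ ≤ _ := by rw [h3]; linarith

lemma CritA_sin_small {θ : ℂ} (h : ‖θ‖ ≤ 35 / 100) : ‖sin θ‖ ≤ 1021 / 1000 * ‖θ‖ := by
  have h1 := CritA_sin_le (h.trans (by norm_num))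
  have h0 := norm_nonneg θ
  have h2 : ‖θ‖ ^ 2 ≤ (35 / 100) ^ 2 := by gcongr
  have h4 : ‖θ‖ ^ 4 ≤ (35 / 100) ^ 4 := by gcongr
  have h3 : ‖θ‖ + ‖θ‖ ^ 3 / 6 + ‖θ‖ ^ 5 / 100 = ‖θ‖ * (1 + ‖θ‖ ^ 2 / 6 + ‖θ‖ ^ 4 / 100) := by ring
  rw [h3] at h1
  have h5 : 1 + ‖θ‖ ^ 2 / 6 + ‖θ‖ ^ 4 / 100 ≤ 1021 / 1000 := by
    norm_num at h2 h4 ⊢; linarith
  calc ‖sin θ‖ ≤ ‖θ‖ * (1 + ‖θ‖ ^ 2 / 6 + ‖θ‖ ^ 4 / 100) := h1
    _ ≤ ‖θ‖ * (1021 / 1000) := by gcongr
    _ = _ := by ring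

lemma CritA_re {z : ℂ} {R : ℝ} (hR : R < 1 / 4) (hz : ‖z - 1 / 4‖ ≤ R) :
    0 < z.re ∧ z.re < 1 := by
  have h := (Complex.abs_re_le_norm (z - 1 / 4)).trans hz
  have e : (z - 1 / 4).re = z.re - 1 / 4 := by simp
  rw [e, abs_le] at h
  constructor <;> linarith [h.1, h.2]

lemma CritA_norm_pi (u : ℂ) : ‖(Real.pi : ℂ) * u‖ = Real.pi * ‖u‖ := by
  rw [norm_mul, Complex.norm_real, Real.norm_of_nonneg Real.pi_pos.le]

lemma CritA_sin_lower {z : ℂ} (hz : ‖z - 1 / 4‖ ≤ 71 / 1000) :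
    53 / 100 ≤ ‖sin (Real.pi * z)‖ := by
  set θ : ℂ := Real.pi * (z - 1 / 4) with hθ
  have hn : ‖θ‖ ≤ 22306 / 100000 := by
    rw [hθ, CritA_norm_pi]
    have := Real.pi_lt_d4
    have h0 := norm_nonneg (z - 1 / 4)
    nlinarith [Real.pi_pos]
  have h0 := norm_nonneg θ
  have e : sin (Real.pi * z) = ((Real.sqrt 2 / 2 : ℝ) : ℂ) * (cos θ + sin θ) := by
    have e1 : (Real.pi : ℂ) * z = ((Real.pi / 4 : ℝ) : ℂ) + θ := by
      rw [hθ]; push_cast; ring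
    rw [e1, Complex.sin_add, ← Complex.ofReal_sin, ← Complex.ofReal_cos, Real.sin_pi_div_four,
      Real.cos_pi_div_four]
    ring
  have hs := CritA_sin_le (hn.trans (by norm_num))
  have hc := CritA_cos_le (hn.trans (by norm_num))
  have hs' : ‖sin θ‖ ≤ 225 / 1000 := by
    refine hs.trans ?_
    have a3 : ‖θ‖ ^ 3 ≤ (22306 / 100000) ^ 3 := by gcongr
    have a5 : ‖θ‖ ^ 5 ≤ (22306 / 100000) ^ 5 := by gcongr
    norm_num at a3 a5 ⊢
    linarith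
  have hc' : ‖cos θ - 1‖ ≤ 251 / 10000 := by
    refine hc.trans ?_
    have a2 : ‖θ‖ ^ 2 ≤ (22306 / 100000) ^ 2 := by gcongr
    have a4 : ‖θ‖ ^ 4 ≤ (22306 / 100000) ^ 4 := by gcongr
    norm_num at a2 a4 ⊢
    linarith
  have hl : 7499 / 10000 ≤ ‖cos θ + sin θ‖ := by
    have : (1 : ℂ) = (cos θ + sin θ) - (cos θ - 1) - sin θ := by ring
    have h1 : ‖(1 : ℂ)‖ ≤ ‖cos θ + sin θ‖ + ‖cos θ - 1‖ + ‖sin θ‖ := by
      conv_lhs => rw [this]
      exact (norm_sub_le _ _).trans (by gcongr; exact norm_sub_le _ _)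
    rw [norm_one] at h1
    linarith
  have hq : 7071 / 10000 ≤ Real.sqrt 2 / 2 := by
    have : (14142 / 10000 : ℝ) ≤ Real.sqrt 2 := by
      apply Real.le_sqrt_of_sq_le; norm_num
    linarith
  rw [e, norm_mul, Complex.norm_real, Real.norm_of_nonneg (by positivity)]
  calc (53 / 100 : ℝ) ≤ 7071 / 10000 * (7499 / 10000) := by norm_num
    _ ≤ _ := by gcongr

lemma CritA_F_sub {a b : ℂ} (ha : sin (Real.pi * a) ≠ 0) (hb : sin (Real.pi * b) ≠ 0) :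
    CritA_F a - CritA_F b =
      Real.pi * (sin (Real.pi * (b - a)) / (sin (Real.pi * a) * sin (Real.pi * b))) := by
  unfold CritA_F
  rw [Complex.cot, Complex.cot]
  have : (Real.pi : ℂ) * (b - a) = Real.pi * b - Real.pi * a := by ring
  rw [this, Complex.sin_sub]
  field_simp

lemma CritA_F_lip {a b : ℂ} (ha : ‖a - 1 / 4‖ ≤ 71 / 1000) (hb : ‖b - 1 / 4‖ ≤ 71 / 1000)
    (hab : ‖b - a‖ ≤ 111 / 1000) : ‖CritA_F a - CritA_F b‖ ≤ 36 * ‖b - a‖ := by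
  have h1 := CritA_sin_lower ha
  have h2 := CritA_sin_lower hb
  have hp := Real.pi_lt_d4
  have hp0 := Real.pi_pos
  have h0 := norm_nonneg (b - a)
  rw [CritA_F_sub (by intro h; rw [h, norm_zero] at h1; norm_num at h1)
    (by intro h; rw [h, norm_zero] at h2; norm_num at h2), CritA_norm_pi, norm_div, norm_mul]
  have h3 : ‖sin (Real.pi * (b - a))‖ ≤ 1021 / 1000 * (Real.pi * ‖b - a‖) := by
    have := CritA_sin_small (θ := Real.pi * (b - a)) (by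
      rw [CritA_norm_pi]; nlinarith)
    rwa [CritA_norm_pi] at this
  have h4 : (53 / 100 : ℝ) * (53 / 100) ≤ ‖sin (Real.pi * a)‖ * ‖sin (Real.pi * b)‖ := by
    gcongr
  calc Real.pi * (‖sin (Real.pi * (b - a))‖ / (‖sin (Real.pi * a)‖ * ‖sin (Real.pi * b)‖))
      ≤ Real.pi * (1021 / 1000 * (Real.pi * ‖b - a‖) / (53 / 100 * (53 / 100))) := by
        gcongr
    _ = Real.pi ^ 2 * (1021 / 1000 / (53 / 100 * (53 / 100))) * ‖b - a‖ := by ring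
    _ ≤ 3.1416 ^ 2 * (1021 / 1000 / (53 / 100 * (53 / 100))) * ‖b - a‖ := by gcongr
    _ ≤ 36 * ‖b - a‖ := by
        gcongr
        norm_num

lemma CritA_F_bound {z : ℂ} (hz : ‖z - 1 / 4‖ ≤ 71 / 1000) : ‖CritA_F z‖ ≤ 57 / 10 := by
  have h1 : CritA_F (1 / 4) = Real.pi := by
    unfold CritA_F
    have e : (Real.pi : ℂ) * (1 / 4) = ((Real.pi / 4 : ℝ) : ℂ) := by push_cast; ring
    rw [Complex.cot, e, ← Complex.ofReal_sin, ← Complex.ofReal_cos, Real.sin_pi_div_four,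
      Real.cos_pi_div_four, div_self, mul_one]
    norm_num
  have h2 := CritA_F_lip (a := 1 / 4) (b := z) (by norm_num) hz (hz.trans (by norm_num))
  have h3 : CritA_F z = CritA_F (1 / 4) - (CritA_F (1 / 4) - CritA_F z) := by ring
  have h4 : ‖CritA_F (1 / 4)‖ ≤ 3.1416 := by
    rw [h1, Complex.norm_real, Real.norm_of_nonneg Real.pi_pos.le]
    exact Real.pi_lt_d4.le
  rw [h3]
  refine (norm_sub_le _ _).trans ?_
  norm_num at h4 ⊢
  linarith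

lemma CritA_hasDeriv {z : ℂ} (hz : ‖z - 1 / 4‖ ≤ 71 / 1000) : HasDerivAt hh (CritA_F z) z :=
  hh_hasDerivAt z (CritA_re (by norm_num) hz).1 (CritA_re (by norm_num) hz).2

/-- `y + (hh (y + 1/2) - hh y) / (2 π)`. -/
noncomputable def CritA_A (y : ℂ) : ℂ := y + (hh (y + 1 / 2) - hh y) / (2 * Real.pi)

lemma CritA_A_deriv {y : ℂ} (hy : ‖y - 1 / 4‖ ≤ 16 / 1000) :
    ∃ d : ℂ, HasDerivAt CritA_A d y ∧ ‖d‖ ≤ 6 / 1000 := by
  have hre := CritA_re (by norm_num) hy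
  have h1 := CritA_hasDeriv (hy.trans (by norm_num))
  have hre2 : (y + 1 / 2).re = y.re + 1 / 2 := by simp
  have hyre : |y.re - 1 / 4| ≤ 16 / 1000 := by
    have h := (Complex.abs_re_le_norm (y - 1 / 4)).trans hy
    have e : (y - 1 / 4).re = y.re - 1 / 4 := by simp
    rwa [e] at h
  rw [abs_le] at hyre
  have h2 : HasDerivAt (fun y => hh (y + 1 / 2)) (CritA_F (y + 1 / 2)) y := by
    have := (hh_hasDerivAt (y + 1 / 2) (by rw [hre2]; linarith) (by rw [hre2]; linarith))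
    exact HasDerivAt.comp_add_const y (1 / 2) this
  refine ⟨_, (hasDerivAt_id y).add ((h2.sub h1).div_const (2 * Real.pi)), ?_⟩
  set θ : ℂ := 2 * (Real.pi * (y - 1 / 4)) with hθ
  have hn : ‖θ‖ ≤ 101 / 1000 := by
    rw [hθ, norm_mul, CritA_norm_pi]
    have := Real.pi_lt_d4
    have h0 := norm_nonneg (y - 1 / 4)
    have : ‖(2 : ℂ)‖ = 2 := by norm_num
    rw [this]
    nlinarith [Real.pi_pos]
  have hc := CritA_cos_le (hn.trans (by norm_num))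
  have hc' : ‖cos θ - 1‖ ≤ 52 / 10000 := by
    refine hc.trans ?_
    have h0 := norm_nonneg θ
    have a2 : ‖θ‖ ^ 2 ≤ (101 / 1000) ^ 2 := by gcongr
    have a4 : ‖θ‖ ^ 4 ≤ (101 / 1000) ^ 4 := by gcongr
    norm_num at a2 a4 ⊢
    linarith
  have hl : 99 / 100 ≤ ‖cos θ‖ := by
    have : (1 : ℂ) = cos θ - (cos θ - 1) := by ring
    have h1 : ‖(1 : ℂ)‖ ≤ ‖cos θ‖ + ‖cos θ - 1‖ := by
      conv_lhs => rw [this]
      exact norm_sub_le _ _
    rw [norm_one] at h1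
    linarith
  have hcne : cos θ ≠ 0 := by
    intro h; rw [h, norm_zero] at hl; norm_num at hl
  have es : sin (2 * (Real.pi * y)) = cos θ := by
    rw [hθ, ← Complex.sin_add_pi_div_two]
    congr 1; ring
  rw [Complex.sin_two_mul] at es
  have hs0 : sin (Real.pi * y) ≠ 0 := by
    intro h; rw [h] at es; apply hcne; rw [← es]; ring
  have hc0 : cos (Real.pi * y) ≠ 0 := by
    intro h; rw [h] at es; apply hcne; rw [← es]; ring
  have hpi : (Real.pi : ℂ) ≠ 0 := by exact_mod_cast Real.pi_ne_zero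
  have e : (1 : ℂ) + (CritA_F (y + 1 / 2) - CritA_F y) / (2 * Real.pi) = (cos θ - 1) / cos θ := by
    unfold CritA_F
    have e1 : (Real.pi : ℂ) * (y + 1 / 2) = Real.pi * y + Real.pi / 2 := by ring
    rw [e1, Complex.cot, Complex.cot, Complex.cos_add_pi_div_two, Complex.sin_add_pi_div_two,
      ← es]
    have hsc := Complex.sin_sq_add_cos_sq (Real.pi * y)
    field_simp
    linear_combination (-1) * hsc
  rw [e, norm_div]
  rw [div_le_iff₀ (by linarith)]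
  nlinarith

lemma CritA_A_lip {y y' : ℂ} (hy : ‖y - 1 / 4‖ ≤ 16 / 1000) (hy' : ‖y' - 1 / 4‖ ≤ 16 / 1000) :
    ‖CritA_A y' - CritA_A y‖ ≤ 6 / 1000 * ‖y' - y‖ := by
  have hs : Convex ℝ (Metric.closedBall (1 / 4 : ℂ) (16 / 1000)) := convex_closedBall _ _
  refine Convex.norm_image_sub_le_of_norm_deriv_le (f := CritA_A) (C := 6 / 1000) ?_ ?_ hs
    (mem_closedBall_iff_norm.mpr hy) (mem_closedBall_iff_norm.mpr hy')
  · intro x hx
    obtain ⟨d, hd, -⟩ := CritA_A_deriv (mem_closedBall_iff_norm.mp hx)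
    exact hd.differentiableAt
  · intro x hx
    obtain ⟨d, hd, hb⟩ := CritA_A_deriv (mem_closedBall_iff_norm.mp hx)
    rw [hd.deriv]; exact hb

lemma CritA_A_quarter : CritA_A (1 / 4) = 1 / 4 := by
  unfold CritA_A
  have : hh (1 / 4 + 1 / 2) = hh (1 / 4) := by
    unfold hh
    have e : (Real.pi : ℂ) * (1 / 4 + 1 / 2) = Real.pi - Real.pi * (1 / 4) := by ring
    rw [e, Complex.sin_pi_sub]
  rw [this]; simp

/-- second difference -/
noncomputable def CritA_G (y v : ℂ) : ℂ := 2 * hh y - hh (y - v) - hh (y + v)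

/-- first difference -/
noncomputable def CritA_D (y v : ℂ) : ℂ := hh (y - v) - hh (y + v)

lemma CritA_sub {y v : ℂ} (hy : ‖y - 1 / 4‖ ≤ 16 / 1000) (hv : ‖v‖ ≤ 55 / 1000) :
    ‖y - v - 1 / 4‖ ≤ 71 / 1000 := by
  have e : y - v - 1 / 4 = (y - 1 / 4) - v := by ring
  rw [e]
  refine (norm_sub_le _ _).trans ?_
  linarith

lemma CritA_add {y v : ℂ} (hy : ‖y - 1 / 4‖ ≤ 16 / 1000) (hv : ‖v‖ ≤ 55 / 1000) :
    ‖y + v - 1 / 4‖ ≤ 71 / 1000 := by
  have e : y + v - 1 / 4 = (y - 1 / 4) + v := by ring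
  rw [e]
  refine (norm_add_le _ _).trans ?_
  linarith

lemma CritA_dsub_v {y v : ℂ} (hy : ‖y - 1 / 4‖ ≤ 16 / 1000) (hv : ‖v‖ ≤ 55 / 1000) :
    HasDerivAt (fun v => hh (y - v)) (-CritA_F (y - v)) v := by
  have h := CritA_hasDeriv (CritA_sub hy hv)
  have h2 : HasDerivAt (fun v => y - v) (-1) v := by
    simpa using (hasDerivAt_id v).const_sub y
  have := HasDerivAt.comp v h h2
  simpa [Function.comp_def] using this

lemma CritA_dadd_v {y v : ℂ} (hy : ‖y - 1 / 4‖ ≤ 16 / 1000) (hv : ‖v‖ ≤ 55 / 1000) :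
    HasDerivAt (fun v => hh (y + v)) (CritA_F (y + v)) v := by
  have h := CritA_hasDeriv (CritA_add hy hv)
  have h2 : HasDerivAt (fun v => y + v) 1 v := by
    simpa using (hasDerivAt_id v).const_add y
  have := HasDerivAt.comp v h h2
  simpa [Function.comp_def] using this

lemma CritA_dsub_y {y v : ℂ} (hy : ‖y - 1 / 4‖ ≤ 16 / 1000) (hv : ‖v‖ ≤ 55 / 1000) :
    HasDerivAt (fun y => hh (y - v)) (CritA_F (y - v)) y := by
  have h := CritA_hasDeriv (CritA_sub hy hv)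
  have h2 : HasDerivAt (fun y => y - v) 1 y := by
    simpa using (hasDerivAt_id y).sub_const v
  have := HasDerivAt.comp y h h2
  simpa [Function.comp_def] using this

lemma CritA_dadd_y {y v : ℂ} (hy : ‖y - 1 / 4‖ ≤ 16 / 1000) (hv : ‖v‖ ≤ 55 / 1000) :
    HasDerivAt (fun y => hh (y + v)) (CritA_F (y + v)) y := by
  have h := CritA_hasDeriv (CritA_add hy hv)
  have h2 : HasDerivAt (fun y => y + v) 1 y := by
    simpa using (hasDerivAt_id y).add_const v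
  have := HasDerivAt.comp y h h2
  simpa [Function.comp_def] using this

lemma CritA_G_lip_v {y v v' : ℂ} {R : ℝ} (hR : R ≤ 55 / 1000) (hy : ‖y - 1 / 4‖ ≤ 16 / 1000)
    (hv : ‖v‖ ≤ R) (hv' : ‖v'‖ ≤ R) :
    ‖CritA_G y v' - CritA_G y v‖ ≤ 72 * R * ‖v' - v‖ := by
  have hs : Convex ℝ (Metric.closedBall (0 : ℂ) R) := convex_closedBall _ _
  have key : ∀ x ∈ Metric.closedBall (0 : ℂ) R,
      HasDerivAt (CritA_G y) (CritA_F (y - x) - CritA_F (y + x)) x := by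
    intro x hx
    rw [mem_closedBall_zero_iff] at hx
    have hx' := hx.trans hR
    have := ((hasDerivAt_const x (2 * hh y)).sub (CritA_dsub_v hy hx')).sub (CritA_dadd_v hy hx')
    have e : CritA_F (y - x) - CritA_F (y + x) = 0 - -CritA_F (y - x) - CritA_F (y + x) := by ring
    rw [e]
    exact this
  refine Convex.norm_image_sub_le_of_norm_deriv_le (f := CritA_G y) (C := 72 * R) ?_ ?_ hs
    (mem_closedBall_zero_iff.mpr hv) (mem_closedBall_zero_iff.mpr hv')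
  · intro x hx
    exact (key x hx).differentiableAt
  · intro x hx
    rw [(key x hx).deriv]
    rw [mem_closedBall_zero_iff] at hx
    have hx' := hx.trans hR
    have e : y + x - (y - x) = 2 * x := by ring
    have n2 : ‖2 * x‖ = 2 * ‖x‖ := by rw [norm_mul]; norm_num
    have := CritA_F_lip (CritA_sub hy hx') (CritA_add hy hx') (by rw [e, n2]; linarith)
    rw [e, n2] at this
    linarith

lemma CritA_G_zero (y : ℂ) : CritA_G y 0 = 0 := by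
  unfold CritA_G; simp; ring

lemma CritA_G_bound {y v : ℂ} (hy : ‖y - 1 / 4‖ ≤ 16 / 1000) (hv : ‖v‖ ≤ 55 / 1000) :
    ‖CritA_G y v‖ ≤ 54 * ‖v‖ ^ 2 := by
  have n2 : ‖v / 2‖ = ‖v‖ / 2 := by rw [norm_div]; norm_num
  have h0 := norm_nonneg v
  have h1 := CritA_G_lip_v (y := y) (v := v / 2) (v' := v) hv hy (by rw [n2]; linarith) le_rfl
  have h2 := CritA_G_lip_v (y := y) (v := 0) (v' := v / 2) (R := ‖v‖ / 2) (by linarith) hy
    (by rw [norm_zero]; linarith) (by rw [n2])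
  have e1 : v - v / 2 = v / 2 := by ring
  rw [e1, n2] at h1
  rw [sub_zero, n2, CritA_G_zero, sub_zero] at h2
  have e : CritA_G y v = (CritA_G y v - CritA_G y (v / 2)) + CritA_G y (v / 2) := by ring
  rw [e]
  refine (norm_add_le _ _).trans ?_
  nlinarith

lemma CritA_G_lip_y {y y' v : ℂ} (hy : ‖y - 1 / 4‖ ≤ 16 / 1000) (hy' : ‖y' - 1 / 4‖ ≤ 16 / 1000)
    (hv : ‖v‖ ≤ 55 / 1000) :
    ‖CritA_G y' v - CritA_G y v‖ ≤ 396 / 100 * ‖y' - y‖ := by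
  have hs : Convex ℝ (Metric.closedBall (1 / 4 : ℂ) (16 / 1000)) := convex_closedBall _ _
  have key : ∀ x ∈ Metric.closedBall (1 / 4 : ℂ) (16 / 1000),
      HasDerivAt (fun y => CritA_G y v) (2 * CritA_F x - CritA_F (x - v) - CritA_F (x + v)) x := by
    intro x hx
    rw [mem_closedBall_iff_norm] at hx
    exact (((CritA_hasDeriv (hx.trans (by norm_num))).const_mul 2).sub
      (CritA_dsub_y hx hv)).sub (CritA_dadd_y hx hv)
  refine Convex.norm_image_sub_le_of_norm_deriv_le (f := fun y => CritA_G y v)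
    (C := 396 / 100) ?_ ?_ hs
    (mem_closedBall_iff_norm.mpr hy) (mem_closedBall_iff_norm.mpr hy')
  · intro x hx
    exact (key x hx).differentiableAt
  · intro x hx
    rw [(key x hx).deriv]
    rw [mem_closedBall_iff_norm] at hx
    have a1 := CritA_F_lip (a := x - v) (b := x) (CritA_sub hx hv) (hx.trans (by norm_num))
      (by rw [sub_sub_cancel]; linarith)
    have a2 := CritA_F_lip (a := x) (b := x + v) (hx.trans (by norm_num)) (CritA_add hx hv)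
      (by rw [add_sub_cancel_left]; linarith)
    rw [sub_sub_cancel] at a1
    rw [add_sub_cancel_left] at a2
    have e : 2 * CritA_F x - CritA_F (x - v) - CritA_F (x + v) =
        (CritA_F x - CritA_F (x + v)) - (CritA_F (x - v) - CritA_F x) := by ring
    rw [e]
    refine (norm_sub_le _ _).trans ?_
    linarith

lemma CritA_D_lip_v {y v v' : ℂ} (hy : ‖y - 1 / 4‖ ≤ 16 / 1000)
    (hv : ‖v‖ ≤ 55 / 1000) (hv' : ‖v'‖ ≤ 55 / 1000) :
    ‖CritA_D y v' - CritA_D y v‖ ≤ 114 / 10 * ‖v' - v‖ := by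
  have hs : Convex ℝ (Metric.closedBall (0 : ℂ) (55 / 1000)) := convex_closedBall _ _
  have key : ∀ x ∈ Metric.closedBall (0 : ℂ) (55 / 1000),
      HasDerivAt (CritA_D y) (-CritA_F (y - x) - CritA_F (y + x)) x := by
    intro x hx
    rw [mem_closedBall_zero_iff] at hx
    exact (CritA_dsub_v hy hx).sub (CritA_dadd_v hy hx)
  refine Convex.norm_image_sub_le_of_norm_deriv_le (f := CritA_D y) (C := 114 / 10) ?_ ?_ hs
    (mem_closedBall_zero_iff.mpr hv) (mem_closedBall_zero_iff.mpr hv')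
  · intro x hx
    exact (key x hx).differentiableAt
  · intro x hx
    rw [(key x hx).deriv]
    rw [mem_closedBall_zero_iff] at hx
    have a1 := CritA_F_bound (CritA_sub hy hx)
    have a2 := CritA_F_bound (CritA_add hy hx)
    refine (norm_sub_le _ _).trans ?_
    rw [norm_neg]
    linarith

lemma CritA_D_zero (y : ℂ) : CritA_D y 0 = 0 := by
  unfold CritA_D; simp

lemma CritA_D_bound {y v : ℂ} (hy : ‖y - 1 / 4‖ ≤ 16 / 1000) (hv : ‖v‖ ≤ 55 / 1000) :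
    ‖CritA_D y v‖ ≤ 114 / 10 * ‖v‖ := by
  have := CritA_D_lip_v (v := 0) (v' := v) hy (by norm_num) hv
  rwa [CritA_D_zero, sub_zero, sub_zero] at this

lemma CritA_D_lip_y {y y' v : ℂ} (hy : ‖y - 1 / 4‖ ≤ 16 / 1000) (hy' : ‖y' - 1 / 4‖ ≤ 16 / 1000)
    (hv : ‖v‖ ≤ 55 / 1000) :
    ‖CritA_D y' v - CritA_D y v‖ ≤ 396 / 100 * ‖y' - y‖ := by
  have hs : Convex ℝ (Metric.closedBall (1 / 4 : ℂ) (16 / 1000)) := convex_closedBall _ _
  have key : ∀ x ∈ Metric.closedBall (1 / 4 : ℂ) (16 / 1000),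
      HasDerivAt (fun y => CritA_D y v) (CritA_F (x - v) - CritA_F (x + v)) x := by
    intro x hx
    rw [mem_closedBall_iff_norm] at hx
    exact (CritA_dsub_y hx hv).sub (CritA_dadd_y hx hv)
  refine Convex.norm_image_sub_le_of_norm_deriv_le (f := fun y => CritA_D y v)
    (C := 396 / 100) ?_ ?_ hs
    (mem_closedBall_iff_norm.mpr hy) (mem_closedBall_iff_norm.mpr hy')
  · intro x hx
    exact (key x hx).differentiableAt
  · intro x hx
    rw [(key x hx).deriv]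
    rw [mem_closedBall_iff_norm] at hx
    have e : x + v - (x - v) = 2 * v := by ring
    have n2 : ‖2 * v‖ = 2 * ‖v‖ := by rw [norm_mul]; norm_num
    have := CritA_F_lip (CritA_sub hx hv) (CritA_add hx hv) (by rw [e, n2]; linarith)
    rw [e, n2] at this
    linarith

lemma CritA_v_small {r : ℤ} (hr : 10 ≤ |r|) {v : ℂ} (hv : ‖v + 1 / (2 * r)‖ ≤ 1 / (2 * (r : ℝ) ^ 2)) :
    ‖v‖ ≤ 55 / 1000 ∧ ‖v‖ ≤ 55 / 100 / |(r : ℝ)| := by
  have hr' : (10 : ℝ) ≤ |(r : ℝ)| := by exact_mod_cast hr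
  have hpos : 0 < |(r : ℝ)| := by linarith
  have e : v = (v + 1 / (2 * r)) - 1 / (2 * r) := by ring
  have n1 : ‖(1 : ℂ) / (2 * r)‖ = 1 / (2 * |(r : ℝ)|) := by
    rw [norm_div, norm_one, norm_mul, Complex.norm_intCast]
    norm_num
  have h1 : ‖v‖ ≤ 1 / (2 * (r : ℝ) ^ 2) + 1 / (2 * |(r : ℝ)|) := by
    conv_lhs => rw [e]
    refine (norm_sub_le _ _).trans ?_
    rw [n1]; linarith
  have h2 : 1 / (2 * (r : ℝ) ^ 2) + 1 / (2 * |(r : ℝ)|) ≤ 55 / 100 / |(r : ℝ)| := by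
    rw [← sq_abs (r : ℝ)]
    have : 1 / (2 * |(r : ℝ)| ^ 2) ≤ 5 / 100 / |(r : ℝ)| := by
      rw [div_le_div_iff₀ (by positivity) hpos]
      nlinarith
    have e3 : 1 / (2 * |(r : ℝ)|) = 50 / 100 / |(r : ℝ)| := by field_simp; norm_num
    have e4 : 55 / 100 / |(r : ℝ)| = 5 / 100 / |(r : ℝ)| + 50 / 100 / |(r : ℝ)| := by ring
    rw [e4, e3]
    linarith
  have h3 : 55 / 100 / |(r : ℝ)| ≤ 55 / 1000 := by
    rw [div_le_iff₀ hpos]; linarith
  exact ⟨h1.trans (h2.trans h3), h1.trans h2⟩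

/-- The contraction. -/
noncomputable def CritA_Phi (r1 r2 : ℤ) (p : ℂ × ℂ × ℂ) : ℂ × ℂ × ℂ :=
  (CritA_A p.1 + (CritA_G p.1 p.2.1 + CritA_G p.1 p.2.2) / (8 * Real.pi),
    -(1 / (2 * r1)) - CritA_D p.1 p.2.1 / (4 * Real.pi * I * r1),
    -(1 / (2 * r2)) - CritA_D p.1 p.2.2 / (4 * Real.pi * I * r2))

/-- The domain. -/
def CritA_dom (r1 r2 : ℤ) : Set (ℂ × ℂ × ℂ) :=
  {p | ‖p.1 - 1 / 4‖ ≤ 16 / 1000 ∧ ‖p.2.1 + 1 / (2 * r1)‖ ≤ 1 / (2 * (r1 : ℝ) ^ 2) ∧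
    ‖p.2.2 + 1 / (2 * r2)‖ ≤ 1 / (2 * (r2 : ℝ) ^ 2)}

lemma CritA_den {r : ℤ} : ‖(4 * Real.pi * I * r : ℂ)‖ = 4 * Real.pi * |(r : ℝ)| := by
  rw [norm_mul, norm_mul, norm_mul, Complex.norm_intCast, Complex.norm_I, Complex.norm_real,
    Real.norm_of_nonneg Real.pi_pos.le]
  norm_num

lemma CritA_maps_v {r : ℤ} (hr : 10 ≤ |r|) {y v : ℂ} (hy : ‖y - 1 / 4‖ ≤ 16 / 1000)
    (hv : ‖v + 1 / (2 * r)‖ ≤ 1 / (2 * (r : ℝ) ^ 2)) :
    ‖-(1 / (2 * (r : ℂ))) - CritA_D y v / (4 * Real.pi * I * r) + 1 / (2 * r)‖ ≤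
      1 / (2 * (r : ℝ) ^ 2) := by
  have hr' : (10 : ℝ) ≤ |(r : ℝ)| := by exact_mod_cast hr
  have hpos : 0 < |(r : ℝ)| := by linarith
  obtain ⟨h1, h2⟩ := CritA_v_small hr hv
  have e : -(1 / (2 * (r : ℂ))) - CritA_D y v / (4 * Real.pi * I * r) + 1 / (2 * r) =
      -(CritA_D y v / (4 * Real.pi * I * r)) := by ring
  rw [e, norm_neg, norm_div, CritA_den, ← sq_abs (r : ℝ)]
  have h3 := CritA_D_bound hy h1
  have hp := Real.pi_gt_d2
  rw [div_le_div_iff₀ (by positivity) (by positivity)]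
  have h4 : ‖v‖ * |(r : ℝ)| ≤ 55 / 100 := by
    rwa [le_div_iff₀ hpos] at h2
  have h5 : ‖CritA_D y v‖ * |(r : ℝ)| ≤ 627 / 100 := by
    calc ‖CritA_D y v‖ * |(r : ℝ)| ≤ 114 / 10 * ‖v‖ * |(r : ℝ)| := by gcongr
      _ = 114 / 10 * (‖v‖ * |(r : ℝ)|) := by ring
      _ ≤ 114 / 10 * (55 / 100) := by gcongr
      _ = 627 / 100 := by norm_num
  calc ‖CritA_D y v‖ * (2 * |(r : ℝ)| ^ 2) = 2 * |(r : ℝ)| * (‖CritA_D y v‖ * |(r : ℝ)|) := by ring
    _ ≤ 2 * |(r : ℝ)| * (627 / 100) := by gcongr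
    _ ≤ 1 * (4 * Real.pi * |(r : ℝ)|) := by nlinarith

lemma CritA_maps (r1 r2 : ℤ) (h1 : 10 ≤ |r1|) (h2 : 10 ≤ |r2|) :
    Set.MapsTo (CritA_Phi r1 r2) (CritA_dom r1 r2) (CritA_dom r1 r2) := by
  rintro ⟨y, v, w⟩ ⟨hy, hv, hw⟩
  simp only at hy hv hw
  refine ⟨?_, CritA_maps_v h1 hy hv, CritA_maps_v h2 hy hw⟩
  have hv' := (CritA_v_small h1 hv).1
  have hw' := (CritA_v_small h2 hw).1
  have a1 := CritA_G_bound hy hv'
  have a2 := CritA_G_bound hy hw'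
  have a3 := CritA_A_lip (y := 1 / 4) (y' := y) (by norm_num) hy
  rw [CritA_A_quarter] at a3
  have b1 : ‖v‖ ^ 2 ≤ (55 / 1000) ^ 2 := by gcongr
  have b2 : ‖w‖ ^ 2 ≤ (55 / 1000) ^ 2 := by gcongr
  have hp := Real.pi_gt_d2
  have n8 : ‖(8 * Real.pi : ℂ)‖ = 8 * Real.pi := by
    rw [norm_mul, Complex.norm_real, Real.norm_of_nonneg Real.pi_pos.le]; norm_num
  show ‖CritA_A y + (CritA_G y v + CritA_G y w) / (8 * Real.pi) - 1 / 4‖ ≤ 16 / 1000
  have e : CritA_A y + (CritA_G y v + CritA_G y w) / (8 * Real.pi) - 1 / 4 =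
      (CritA_A y - 1 / 4) + (CritA_G y v + CritA_G y w) / (8 * Real.pi) := by ring
  rw [e]
  refine (norm_add_le _ _).trans ?_
  rw [norm_div, n8]
  have c1 : ‖CritA_G y v + CritA_G y w‖ ≤ 3267 / 10000 := by
    refine (norm_add_le _ _).trans ?_
    norm_num at b1 b2 ⊢
    linarith
  have c2 : ‖CritA_G y v + CritA_G y w‖ / (8 * Real.pi) ≤ 14 / 1000 := by
    rw [div_le_iff₀ (by positivity)]
    linarith
  linarith

lemma CritA_lip_G {y y' v v' : ℂ} {d : ℝ} (hy : ‖y - 1 / 4‖ ≤ 16 / 1000)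
    (hy' : ‖y' - 1 / 4‖ ≤ 16 / 1000) (hv : ‖v‖ ≤ 55 / 1000) (hv' : ‖v'‖ ≤ 55 / 1000)
    (h1 : ‖y' - y‖ ≤ d) (h2 : ‖v' - v‖ ≤ d) : ‖CritA_G y' v' - CritA_G y v‖ ≤ 792 / 100 * d := by
  have a := CritA_G_lip_v (y := y') le_rfl hy' hv hv'
  have b := CritA_G_lip_y hy hy' hv
  have e : CritA_G y' v' - CritA_G y v =
      (CritA_G y' v' - CritA_G y' v) + (CritA_G y' v - CritA_G y v) := by ring
  rw [e]
  refine (norm_add_le _ _).trans ?_
  linarith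

lemma CritA_lip_D {y y' v v' : ℂ} {d : ℝ} (hy : ‖y - 1 / 4‖ ≤ 16 / 1000)
    (hy' : ‖y' - 1 / 4‖ ≤ 16 / 1000) (hv : ‖v‖ ≤ 55 / 1000) (hv' : ‖v'‖ ≤ 55 / 1000)
    (h1 : ‖y' - y‖ ≤ d) (h2 : ‖v' - v‖ ≤ d) : ‖CritA_D y' v' - CritA_D y v‖ ≤ 16 * d := by
  have a := CritA_D_lip_v (y := y') hy' hv hv'
  have b := CritA_D_lip_y hy hy' hv
  have hd : 0 ≤ d := (norm_nonneg _).trans h1
  have e : CritA_D y' v' - CritA_D y v =
      (CritA_D y' v' - CritA_D y' v) + (CritA_D y' v - CritA_D y v) := by ring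
  rw [e]
  refine (norm_add_le _ _).trans ?_
  linarith

lemma CritA_lip_comp {r : ℤ} (hr : 10 ≤ |r|) {y y' v v' : ℂ} {d : ℝ}
    (hy : ‖y - 1 / 4‖ ≤ 16 / 1000)
    (hy' : ‖y' - 1 / 4‖ ≤ 16 / 1000) (hv : ‖v‖ ≤ 55 / 1000) (hv' : ‖v'‖ ≤ 55 / 1000)
    (h1 : ‖y' - y‖ ≤ d) (h2 : ‖v' - v‖ ≤ d) :
    ‖(-(1 / (2 * (r : ℂ))) - CritA_D y' v' / (4 * Real.pi * I * r)) -
      (-(1 / (2 * (r : ℂ))) - CritA_D y v / (4 * Real.pi * I * r))‖ ≤ 7 / 10 * d := by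
  have hr' : (10 : ℝ) ≤ |(r : ℝ)| := by exact_mod_cast hr
  have hd : 0 ≤ d := (norm_nonneg _).trans h1
  have e : (-(1 / (2 * (r : ℂ))) - CritA_D y' v' / (4 * Real.pi * I * r)) -
      (-(1 / (2 * (r : ℂ))) - CritA_D y v / (4 * Real.pi * I * r)) =
      -((CritA_D y' v' - CritA_D y v) / (4 * Real.pi * I * r)) := by ring
  rw [e, norm_neg, norm_div, CritA_den]
  have hp := Real.pi_gt_d2
  have h3 := CritA_lip_D hy hy' hv hv' h1 h2
  rw [div_le_iff₀ (by positivity)]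
  have : 120 ≤ 4 * Real.pi * |(r : ℝ)| := by nlinarith
  calc ‖CritA_D y' v' - CritA_D y v‖ ≤ 16 * d := h3
    _ ≤ 7 / 10 * d * 120 := by linarith
    _ ≤ 7 / 10 * d * (4 * Real.pi * |(r : ℝ)|) := by gcongr

lemma CritA_lip (r1 r2 : ℤ) (h1 : 10 ≤ |r1|) (h2 : 10 ≤ |r2|) :
    LipschitzOnWith (7 / 10) (CritA_Phi r1 r2) (CritA_dom r1 r2) := by
  apply LipschitzOnWith.of_dist_le_mul
  rintro ⟨y', v', w'⟩ ⟨hy', hv', hw'⟩ ⟨y, v, w⟩ ⟨hy, hv, hw⟩
  simp only at hy hv hw hy' hv' hw'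
  have hv0 := (CritA_v_small h1 hv).1
  have hw0 := (CritA_v_small h2 hw).1
  have hv0' := (CritA_v_small h1 hv').1
  have hw0' := (CritA_v_small h2 hw').1
  set d := dist (y', v', w') (y, v, w) with hd
  have d1 : ‖y' - y‖ ≤ d := by
    rw [← dist_eq_norm, hd, Prod.dist_eq]; exact le_max_left _ _
  have d2 : ‖v' - v‖ ≤ d := by
    rw [← dist_eq_norm, hd, Prod.dist_eq, Prod.dist_eq]
    exact (le_max_left _ _).trans (le_max_right _ _)
  have d3 : ‖w' - w‖ ≤ d := by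
    rw [← dist_eq_norm, hd, Prod.dist_eq, Prod.dist_eq]
    exact (le_max_right _ _).trans (le_max_right _ _)
  have hd0 : 0 ≤ d := (norm_nonneg _).trans d1
  have hK : ((7 / 10 : NNReal) : ℝ) = 7 / 10 := by norm_num
  rw [hK, Prod.dist_eq, Prod.dist_eq]
  refine max_le ?_ (max_le ?_ ?_)
  · rw [dist_eq_norm]
    show ‖CritA_A y' + (CritA_G y' v' + CritA_G y' w') / (8 * Real.pi) -
      (CritA_A y + (CritA_G y v + CritA_G y w) / (8 * Real.pi))‖ ≤ 7 / 10 * d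
    have a1 := CritA_lip_G hy hy' hv0 hv0' d1 d2
    have a2 := CritA_lip_G hy hy' hw0 hw0' d1 d3
    have a3 := CritA_A_lip hy hy'
    have n8 : ‖(8 * Real.pi : ℂ)‖ = 8 * Real.pi := by
      rw [norm_mul, Complex.norm_real, Real.norm_of_nonneg Real.pi_pos.le]; norm_num
    have hp := Real.pi_gt_d2
    have e : CritA_A y' + (CritA_G y' v' + CritA_G y' w') / (8 * Real.pi) -
      (CritA_A y + (CritA_G y v + CritA_G y w) / (8 * Real.pi)) = (CritA_A y' - CritA_A y) +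
      ((CritA_G y' v' - CritA_G y v) + (CritA_G y' w' - CritA_G y w)) / (8 * Real.pi) := by ring
    rw [e]
    refine (norm_add_le _ _).trans ?_
    rw [norm_div, n8]
    have c1 : ‖(CritA_G y' v' - CritA_G y v) + (CritA_G y' w' - CritA_G y w)‖ ≤ 1584 / 100 * d := by
      refine (norm_add_le _ _).trans ?_
      linarith
    have c2 : ‖(CritA_G y' v' - CritA_G y v) + (CritA_G y' w' - CritA_G y w)‖ / (8 * Real.pi) ≤
        64 / 100 * d := by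
      rw [div_le_iff₀ (by positivity)]
      calc _ ≤ 1584 / 100 * d := c1
        _ ≤ 64 / 100 * d * 25 := by linarith
        _ ≤ 64 / 100 * d * (8 * Real.pi) := by gcongr; linarith
    linarith
  · rw [dist_eq_norm]
    exact CritA_lip_comp h1 hy hy' hv0 hv0' d1 d2
  · rw [dist_eq_norm]
    exact CritA_lip_comp h2 hy hy' hw0 hw0' d1 d3

lemma CritA_closed (r1 r2 : ℤ) : IsClosed (CritA_dom r1 r2) := by
  have c1 : Continuous (fun p : ℂ × ℂ × ℂ => ‖p.1 - 1 / 4‖) := by fun_prop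
  have c2 : Continuous (fun p : ℂ × ℂ × ℂ => ‖p.2.1 + 1 / (2 * r1)‖) := by fun_prop
  have c3 : Continuous (fun p : ℂ × ℂ × ℂ => ‖p.2.2 + 1 / (2 * r2)‖) := by fun_prop
  exact (isClosed_le c1 continuous_const).inter
    ((isClosed_le c2 continuous_const).inter (isClosed_le c3 continuous_const))

theorem crit_contraction (r1 r2 : ℤ) (h1 : 10 ≤ |r1|) (h2 : 10 ≤ |r2|) :
    ∃ y v w : ℂ, 4 * hh (y + 1 / 2) = hh (y - v) + hh (y + v) + hh (y - w) + hh (y + w) ∧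
      2 * Real.pi * I * (2 * r1 * v + 1) + hh (y - v) - hh (y + v) = 0 ∧
      2 * Real.pi * I * (2 * r2 * w + 1) + hh (y - w) - hh (y + w) = 0 ∧
      ‖y - 1 / 4‖ ≤ 16 / 1000 ∧ ‖v + 1 / (2 * r1)‖ ≤ 1 / (2 * (r1 : ℝ) ^ 2) ∧
      ‖w + 1 / (2 * r2)‖ ≤ 1 / (2 * (r2 : ℝ) ^ 2) := by
  have hmaps := CritA_maps r1 r2 h1 h2
  have hlip := CritA_lip r1 r2 h1 h2
  have hcontr : ContractingWith (7 / 10) (hmaps.restrict (CritA_Phi r1 r2) _ _) := by
    refine ⟨?_, hlip.mapsToRestrict hmaps⟩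
    rw [div_lt_one (by norm_num)]; norm_num
  have hmem : ((1 / 4 : ℂ), -(1 / (2 * (r1 : ℂ))), -(1 / (2 * (r2 : ℂ)))) ∈ CritA_dom r1 r2 := by
    refine ⟨?_, ?_, ?_⟩
    · norm_num
    · show ‖-(1 / (2 * (r1 : ℂ))) + 1 / (2 * r1)‖ ≤ _
      rw [neg_add_cancel, norm_zero]; positivity
    · show ‖-(1 / (2 * (r2 : ℂ))) + 1 / (2 * r2)‖ ≤ _
      rw [neg_add_cancel, norm_zero]; positivity
  obtain ⟨p, hp, hfix, -⟩ := hcontr.exists_fixedPoint' (CritA_closed r1 r2).isComplete hmaps hmem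
    (edist_ne_top _ _)
  obtain ⟨y, v, w⟩ := p
  obtain ⟨hy, hv, hw⟩ := hp
  have hr1 : (r1 : ℂ) ≠ 0 := by
    intro h
    have : r1 = 0 := by exact_mod_cast h
    rw [this] at h1; norm_num at h1
  have hr2 : (r2 : ℂ) ≠ 0 := by
    intro h
    have : r2 = 0 := by exact_mod_cast h
    rw [this] at h2; norm_num at h2
  have hpi : (Real.pi : ℂ) ≠ 0 := by exact_mod_cast Real.pi_ne_zero
  have hI := Complex.I_ne_zero
  have e1 : CritA_A y + (CritA_G y v + CritA_G y w) / (8 * Real.pi) = y :=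
    congrArg Prod.fst hfix
  have e2 : -(1 / (2 * (r1 : ℂ))) - CritA_D y v / (4 * Real.pi * I * r1) = v :=
    congrArg (fun q => q.2.1) hfix
  have e3 : -(1 / (2 * (r2 : ℂ))) - CritA_D y w / (4 * Real.pi * I * r2) = w :=
    congrArg (fun q => q.2.2) hfix
  refine ⟨y, v, w, ?_, ?_, ?_, hy, hv, hw⟩
  · unfold CritA_A CritA_G at e1
    generalize hh (y + 1 / 2) = H at e1 ⊢
    field_simp at e1
    linear_combination (1 / 2 : ℂ) * e1
  · unfold CritA_D at e2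
    field_simp at e2
    linear_combination (-1 / 2 : ℂ) * e2
  · unfold CritA_D at e3
    field_simp at e3
    linear_combination (-1 / 2 : ℂ) * e3

end Pool.Agent.H63.VC3
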