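import Mathlib

/-! # A complex Gaussian integral in three variables -/

namespace Pool.Agent.H63.VC3

open Complex MeasureTheory

private theorem Gauss3_int {c : ℝ} (hc : 0 < c) :
    Integrable (fun ξ : ℝ × ℝ × ℝ => Real.exp (-(c * (ξ.1 ^ 2 + ξ.2.1 ^ 2 + ξ.2.2 ^ 2)))) := by
  have h1 : Integrable (fun x : ℝ => Real.exp (-c * x ^ 2)) := integrable_exp_neg_mul_sq hc
  have h2 := h1.mul_prod (h1.mul_prod h1)
  refine h2.congr (Filter.Eventually.of_forall fun ξ => ?_)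
  simp only
  rw [← Real.exp_add, ← Real.exp_add]
  congr 1
  ring

private theorem Gauss3_inner {q s : ℂ} (hq : 0 < q.re) :
    ∫ a : ℝ, exp (-(q * a ^ 2 + 2 * s * a)) = (Real.pi / q) ^ (1 / 2 : ℂ) * exp (s ^ 2 / q) := by
  have hq0 : q ≠ 0 := by
    rintro rfl
    simp at hq
  have h1 := integral_cexp_quadratic (b := -q) (by simpa using hq) (-(2 * s)) 0
  have h2 : (fun a : ℝ => exp (-(q * a ^ 2 + 2 * s * a))) =
      fun a : ℝ => exp (-q * a ^ 2 + -(2 * s) * a + 0) := by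
    funext a
    congr 1
    ring
  rw [h2, h1]
  congr 1
  · rw [neg_neg]
  · congr 1
    field_simp
    ring

private theorem Gauss3_qt {q00 q01 q02 q11 q22 : ℂ} {c : ℝ} (hc : 0 < c)
    (hq : ∀ x a b : ℝ, c * (x ^ 2 + a ^ 2 + b ^ 2) ≤
      (q00 * x ^ 2 + 2 * q01 * x * a + 2 * q02 * x * b + q11 * a ^ 2 + q22 * b ^ 2).re)
    (h1 : q11 ≠ 0) (h2 : q22 ≠ 0) :
    0 < (q00 - q01 ^ 2 / q11 - q02 ^ 2 / q22).re := by
  set z1 : ℂ := -q01 / q11 with hz1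
  set z2 : ℂ := -q02 / q22 with hz2
  have e1 := hq 1 z1.re z2.re
  have e2 := hq 0 z1.im z2.im
  have k1 : q11 * z1 = -q01 := by rw [hz1]; field_simp
  have k2 : q22 * z2 = -q02 := by rw [hz2]; field_simp
  have c1 : (z1.re : ℂ) ^ 2 + (z1.im : ℂ) ^ 2 = z1 * (starRingEnd ℂ) z1 := by
    rw [Complex.mul_conj, Complex.normSq_apply]
    push_cast
    ring
  have c2 : (z2.re : ℂ) ^ 2 + (z2.im : ℂ) ^ 2 = z2 * (starRingEnd ℂ) z2 := by
    rw [Complex.mul_conj, Complex.normSq_apply]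
    push_cast
    ring
  have r1 : (2 : ℂ) * (z1.re : ℂ) = z1 + (starRingEnd ℂ) z1 := by
    rw [Complex.add_conj]; push_cast; ring
  have r2 : (2 : ℂ) * (z2.re : ℂ) = z2 + (starRingEnd ℂ) z2 := by
    rw [Complex.add_conj]; push_cast; ring
  have key : (q00 * ((1 : ℝ) : ℂ) ^ 2 + 2 * q01 * ((1 : ℝ) : ℂ) * (z1.re : ℂ) +
        2 * q02 * ((1 : ℝ) : ℂ) * (z2.re : ℂ) + q11 * (z1.re : ℂ) ^ 2 + q22 * (z2.re : ℂ) ^ 2) +
      (q00 * ((0 : ℝ) : ℂ) ^ 2 + 2 * q01 * ((0 : ℝ) : ℂ) * (z1.im : ℂ) +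
        2 * q02 * ((0 : ℝ) : ℂ) * (z2.im : ℂ) + q11 * (z1.im : ℂ) ^ 2 + q22 * (z2.im : ℂ) ^ 2) =
      q00 - q01 ^ 2 / q11 - q02 ^ 2 / q22 := by
    have d1 : q01 ^ 2 / q11 = -(q01 * z1) := by rw [hz1]; field_simp
    have d2 : q02 ^ 2 / q22 = -(q02 * z2) := by rw [hz2]; field_simp
    rw [d1, d2]
    push_cast
    linear_combination q01 * r1 + q02 * r2 + q11 * c1 + q22 * c2 +
      (starRingEnd ℂ) z1 * k1 + (starRingEnd ℂ) z2 * k2
  have key2 := congrArg Complex.re key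
  rw [Complex.add_re] at key2
  rw [← key2]
  have e3 : 0 < c * (1 ^ 2 + z1.re ^ 2 + z2.re ^ 2) := by positivity
  have e4 : 0 ≤ c * ((0 : ℝ) ^ 2 + z1.im ^ 2 + z2.im ^ 2) := by positivity
  linarith

/-- A complex Gaussian integral in three variables does not vanish. -/
theorem gauss3_ne (q00 q01 q02 q11 q22 : ℂ) (c : ℝ) (hc : 0 < c)
    (hq : ∀ x a b : ℝ, c * (x ^ 2 + a ^ 2 + b ^ 2) ≤
      (q00 * x ^ 2 + 2 * q01 * x * a + 2 * q02 * x * b + q11 * a ^ 2 + q22 * b ^ 2).re) :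
    ∫ z : ℝ × ℝ × ℝ, exp (-(q00 * z.1 ^ 2 + 2 * q01 * z.1 * z.2.1 + 2 * q02 * z.1 * z.2.2 +
      q11 * z.2.1 ^ 2 + q22 * z.2.2 ^ 2)) ≠ 0 := by
  have p11 : 0 < q11.re := by
    have := hq 0 1 0
    simp at this
    linarith
  have p22 : 0 < q22.re := by
    have := hq 0 0 1
    simp at this
    linarith
  have n11 : q11 ≠ 0 := by rintro rfl; simp at p11
  have n22 : q22 ≠ 0 := by rintro rfl; simp at p22
  have pqt := Gauss3_qt hc hq n11 n22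
  set qt : ℂ := q00 - q01 ^ 2 / q11 - q02 ^ 2 / q22 with hqt
  have nqt : qt ≠ 0 := by
    intro h
    rw [h] at pqt
    simp at pqt
  have hint : Integrable (fun z : ℝ × ℝ × ℝ => exp (-(q00 * z.1 ^ 2 + 2 * q01 * z.1 * z.2.1 +
      2 * q02 * z.1 * z.2.2 + q11 * z.2.1 ^ 2 + q22 * z.2.2 ^ 2))) := by
    refine (Gauss3_int hc).mono' ?_ (Filter.Eventually.of_forall fun z => ?_)
    · apply Continuous.aestronglyMeasurable
      fun_prop
    · rw [Complex.norm_exp]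
      apply Real.exp_le_exp.2
      rw [Complex.neg_re]
      have := hq z.1 z.2.1 z.2.2
      linarith
  rw [Measure.volume_eq_prod, integral_prod _ (by rw [← Measure.volume_eq_prod]; exact hint)]
  have hinner : ∀ x : ℝ, (∫ y : ℝ × ℝ, exp (-(q00 * (x : ℂ) ^ 2 + 2 * q01 * (x : ℂ) * y.1 +
      2 * q02 * (x : ℂ) * y.2 + q11 * y.1 ^ 2 + q22 * y.2 ^ 2))) =
      ((Real.pi / q11) ^ (1 / 2 : ℂ) * (Real.pi / q22) ^ (1 / 2 : ℂ)) * exp (-(qt * x ^ 2)) := by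
    intro x
    have h1 : (fun y : ℝ × ℝ => exp (-(q00 * (x : ℂ) ^ 2 + 2 * q01 * (x : ℂ) * y.1 +
      2 * q02 * (x : ℂ) * y.2 + q11 * y.1 ^ 2 + q22 * y.2 ^ 2))) =
      fun y : ℝ × ℝ => exp (-(q00 * (x : ℂ) ^ 2)) *
        (exp (-(q11 * (y.1 : ℂ) ^ 2 + 2 * (q01 * x) * y.1)) *
          exp (-(q22 * (y.2 : ℂ) ^ 2 + 2 * (q02 * x) * y.2))) := by
      funext y
      rw [← Complex.exp_add, ← Complex.exp_add]
      congr 1
      ring
    rw [h1, integral_const_mul, Measure.volume_eq_prod,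
      integral_prod_mul (fun a : ℝ => exp (-(q11 * (a : ℂ) ^ 2 + 2 * (q01 * x) * a)))
        (fun b : ℝ => exp (-(q22 * (b : ℂ) ^ 2 + 2 * (q02 * x) * b))),
      Gauss3_inner p11, Gauss3_inner p22]
    have h2 : exp (-(qt * x ^ 2)) = exp (-(q00 * (x : ℂ) ^ 2)) *
        (exp ((q01 * x) ^ 2 / q11) * exp ((q02 * x) ^ 2 / q22)) := by
      rw [← Complex.exp_add, ← Complex.exp_add]
      congr 1
      rw [hqt]
      ring
    rw [h2]
    ring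
  have h3 : (fun x : ℝ => ∫ y : ℝ × ℝ, exp (-(q00 * ((x, y).1 : ℂ) ^ 2 +
      2 * q01 * ((x, y).1 : ℂ) * ((x, y).2.1 : ℂ) + 2 * q02 * ((x, y).1 : ℂ) * ((x, y).2.2 : ℂ) +
      q11 * ((x, y).2.1 : ℂ) ^ 2 + q22 * ((x, y).2.2 : ℂ) ^ 2))) = fun x : ℝ =>
      ((Real.pi / q11) ^ (1 / 2 : ℂ) * (Real.pi / q22) ^ (1 / 2 : ℂ)) * exp (-(qt * x ^ 2)) := by
    funext x
    exact hinner x
  rw [h3, integral_const_mul]
  have h4 : ∫ x : ℝ, exp (-(qt * (x : ℂ) ^ 2)) = (Real.pi / qt) ^ (1 / 2 : ℂ) := by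
    have h5 := Gauss3_inner (q := qt) (s := 0) pqt
    have h6 : (fun a : ℝ => exp (-(qt * (a : ℂ) ^ 2 + 2 * 0 * a))) =
        fun a : ℝ => exp (-(qt * (a : ℂ) ^ 2)) := by
      funext a; congr 1; ring
    rw [h6] at h5
    rw [h5]
    simp
  rw [h4]
  have hpi : (Real.pi : ℂ) ≠ 0 := by exact_mod_cast Real.pi_ne_zero
  have hne : ∀ q : ℂ, q ≠ 0 → ((Real.pi / q : ℂ)) ^ (1 / 2 : ℂ) ≠ 0 := by
    intro q hq
    rw [Ne, Complex.cpow_eq_zero_iff]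
    intro h
    exact div_ne_zero hpi hq h.1
  exact mul_ne_zero (mul_ne_zero (hne _ n11) (hne _ n22)) (hne _ nqt)

end Pool.Agent.H63.VC3
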