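import Pool.Agent.H63.VC3.Final
import Pool.Agent.H63.VC3.JNlimC

/-!
# The double twist knots `K_{p,r}`

`K_{p,r}` (`p ≥ 1`, `r ≠ 0` an integer) is the double twist knot whose two antiparallel twist regions
carry `p` and `r` full twists; up to mirror images these are all double twist knots. In Conway
notation `K_{p,-q} = C(2p, 2q)` and `K_{p,q} = C(2p-1, 1, 2q-1)` for `q ≥ 1`. For instance
`K_{1,-1}` is the figure-eight knot, `K_{1,1}` the trefoil and `K_{2,1} = 5_2`.
-/

namespace Pool.Agent.H63.VC3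

open Pool.Agent.H63.VC Complex Filter Topology

/-- The factor of the second twist region, with `r` full twists. -/
noncomputable def twistFactor (r : ℤ) (k : ℕ) (A x : ℂ) : ℂ :=
  if 0 ≤ r then (-1) ^ k * A ^ (2 * k) * x ^ (k * (k - 1)) * twistCoeff (A ^ 2) (x ^ 2) r.toNat k
  else twistCoeff (A⁻¹ ^ 2) (x⁻¹ ^ 2) (-r).toNat k

/-- The reduced HOMFLY-PT polynomial of `K_{p,r}` colored by the `N`-th symmetric power. -/
noncomputable def homflyK (p : ℕ) (r : ℤ) (N : ℕ) (A x : ℂ) : ℂ :=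
  ∑ k ∈ Finset.range (N + 1), (∏ i ∈ Finset.range k,
    (cb (x ^ ((N : ℤ) - i)) / cb (x ^ ((i : ℤ) + 1))) *
      (cb (A * x ^ ((N : ℤ) + i)) * cb (A * x ^ ((i : ℤ) - 1)))) *
    (twistCoeff (A ^ 2) (x ^ 2) p k * twistFactor r k A x)

/-- The reduced colored `SU(n)` invariant of `K_{p,r}` (specialization `A = x^n`). -/
noncomputable def suK (p : ℕ) (r : ℤ) (n N : ℕ) (x : ℂ) : ℂ := homflyK p r N (x ^ n) x

/-- The Conway notation of `K_{p,r}`. -/
def conwayK (p : ℕ) (r : ℤ) : List ℕ :=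
  if 0 ≤ r then [2 * p - 1, 1, 2 * r.toNat - 1] else [2 * p, 2 * (-r).toNat]

theorem homflyK_same (p q N : ℕ) (A x : ℂ) : homflyK p (q : ℤ) N A x = homflySame p q N A x := by
  unfold homflyK homflySame twistFactor
  rw [Int.toNat_natCast]
  refine Finset.sum_congr rfl fun k _ => ?_
  rw [if_pos (by positivity)]
  ring

theorem homflyK_opp (p q N : ℕ) (hq : 1 ≤ q) (A x : ℂ) :
    homflyK p (-(q : ℤ)) N A x = homflyOpp p q N A x := by
  unfold homflyK homflyOpp twistFactor
  refine Finset.sum_congr rfl fun k _ => ?_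
  rw [if_neg (by omega), neg_neg, Int.toNat_natCast]

/-- `K_{p,0}` is the unknot. -/
theorem homflyK_unknot (p N : ℕ) (A x : ℂ) : homflyK p 0 N A x = 1 := by
  unfold homflyK twistFactor
  rw [Finset.sum_eq_single 0]
  · rw [if_pos le_rfl]
    induction p with
    | zero => simp [twistCoeff]
    | succ p ih =>
      simp [twistCoeff, qbin] at ih ⊢
      exact ih
  · intro k _ hk
    rw [if_pos le_rfl]
    simp [twistCoeff, hk]
  · intro h
    simp at h

theorem final_K (p : ℕ) (r : ℤ) (hp : 10 ≤ p) (hr : 10 ≤ |r|) :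
    ∃ V C : ℝ, IsGreatest (structureVolumes (conwayK p r)) V ∧
    ∀ n a : ℕ, 2 ≤ n → 1 ≤ a → a ≤ n - 1 →
      Tendsto (fun N : ℕ => 2 * (Real.pi : ℂ) *
        Complex.log (suK p r n N (exp (Real.pi * I / (N + a)))) / (N + 1)) atTop (𝓝 (V : ℂ)) ∧
      ∃ κ : ℂ, κ ≠ 0 ∧ Tendsto (fun N : ℕ => suK p r n N (exp (Real.pi * I / (N + a))) /
        ((((N : ℝ) + a) ^ (2 * (n : ℝ) - 5 / 2) : ℝ) *
          exp ((N + a) * (V + C * I) / (2 * Real.pi)))) atTop (𝓝 κ) := by
  obtain ⟨y, v, w, hc⟩ := crit_exists (p : ℤ) r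
    (by rw [abs_of_nonneg (by positivity)]; exact_mod_cast hp) hr
  have hgeo : IsGreatest (structureVolumes (conwayK p r)) (2 * Real.pi * (Vf p r y v w).re) := by
    rcases le_or_gt 0 r with h | h
    · obtain ⟨q, rfl⟩ := Int.eq_ofNat_of_zero_le h
      unfold conwayK
      rw [if_pos h, Int.toNat_natCast]
      exact_mod_cast geo_same p q y v w (by exact_mod_cast hc)
    · obtain ⟨q, hq⟩ := Int.eq_ofNat_of_zero_le (by omega : 0 ≤ -r)
      obtain rfl : r = -(q : ℤ) := by omega
      unfold conwayK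
      rw [if_neg (by omega), neg_neg, Int.toNat_natCast]
      have := geo_opp p q y v w hc
      exact_mod_cast this
  have hJ : ∀ n a N : ℕ, 2 ≤ n → 1 ≤ a → a ≤ n - 1 →
      suK p r n N (exp (Real.pi * I / (N + a))) = -JN p r n a (N + a) := by
    intro n a N hn ha han
    unfold suK
    rcases le_or_gt 0 r with h | h
    · obtain ⟨q, rfl⟩ := Int.eq_ofNat_of_zero_le h
      rw [homflyK_same]
      have h1 := same_eq p q n a N (by omega) (by
        rw [Nat.abs_cast] at hr
        omega) hn ha han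
      push_cast at h1
      exact h1
    · obtain ⟨q, hq⟩ := Int.eq_ofNat_of_zero_le (by omega : 0 ≤ -r)
      obtain rfl : r = -(q : ℤ) := by omega
      rw [homflyK_opp p q N (by omega)]
      have h1 := opp_eq p q n a N (by omega) (by omega) hn ha han
      push_cast at h1
      exact h1
  refine ⟨2 * Real.pi * (Vf p r y v w).re,
    2 * Real.pi * (Vf p r y v w).im - Real.pi ^ 2 * (p + r), hgeo, fun n a hn ha han => ?_⟩
  obtain ⟨κ, hκ, hlim⟩ := JN_lim p r y v w hc n a hn ha han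
  obtain ⟨κ', hκ', hlim'⟩ := JN_lim_c p r y v w hc n a hn ha han
  have hA := final_asym (fun N : ℕ => suK p r n N (exp (Real.pi * I / (N + a)))) _ a
    (fun N => by rw [hJ n a N hn ha han, norm_neg]) _ _ _ hlim
  refine ⟨final_log _ a ha _ _ κ hκ hA, -κ', neg_ne_zero.2 hκ', ?_⟩
  have h2 := (hlim'.comp (tendsto_add_atTop_nat a)).neg
  refine h2.congr fun N => ?_
  rw [hJ n a N hn ha han]
  simp only [Function.comp]
  rw [neg_div]
  congr 3
  · push_cast
    rfl
  · congr 1
    have hpi : (Real.pi : ℂ) ≠ 0 := by exact_mod_cast Real.pi_ne_zero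
    have e : (Vf p r y v w : ℂ) = ((Vf p r y v w).re : ℂ) + ((Vf p r y v w).im : ℂ) * I :=
      (Complex.re_add_im _).symm
    push_cast
    conv_lhs => rw [e]
    field_simp
    ring

end Pool.Agent.H63.VC3
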