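import Pool.Agent.H63.VC3.AbelPlana
import Pool.Agent.H63.VC3.Defs

/-! # The sum over `k` as an integral -/

namespace Pool.Agent.H63.VC3

open Complex

private theorem SumK_exp (x t : ℝ) :
    exp (2 * Real.pi * I * ((x : ℂ) + t * I)) =
      exp (2 * Real.pi * I * x) * ((Real.exp (-(2 * Real.pi * t)) : ℝ) : ℂ) := by
  rw [Complex.ofReal_exp, ← Complex.exp_add]
  congr 1
  push_cast
  linear_combination (2 * Real.pi * t) * Complex.I_sq

private theorem SumK_norm_exp (z : ℂ) :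
    ‖exp (2 * Real.pi * I * z)‖ = Real.exp (-(2 * Real.pi * z.im)) := by
  rw [Complex.norm_exp]
  congr 1
  simp

private theorem SumK_neg_half : exp (2 * Real.pi * I * ((-(1 / 2) : ℝ) : ℂ)) = -1 := by
  have : (2 * Real.pi * I * ((-(1 / 2) : ℝ) : ℂ)) = -(Real.pi * I) := by
    push_cast; ring
  rw [this, Complex.exp_neg, Complex.exp_pi_mul_I]
  norm_num

private theorem SumK_pos_half (m : ℕ) :
    exp (2 * Real.pi * I * ((m + 1 / 2 : ℝ) : ℂ)) = -1 := by
  have : (2 * Real.pi * I * ((m + 1 / 2 : ℝ) : ℂ)) = Real.pi * I + m * (2 * Real.pi * I) := by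
    push_cast; ring
  rw [this, Complex.exp_add, Complex.exp_pi_mul_I, Complex.exp_nat_mul,
    Complex.exp_two_pi_mul_I, one_pow, mul_one]

private theorem SumK_div1 {g : ℂ} {r A : ℝ} (hr : 0 ≤ r) (hg : ‖g‖ ≤ A) :
    ‖g / (1 - -1 * (r : ℂ)) * I‖ ≤ A := by
  have h1 : (1 - -1 * (r : ℂ)) = ((1 + r : ℝ) : ℂ) := by push_cast; ring
  rw [h1, norm_mul, Complex.norm_I, mul_one, norm_div, Complex.norm_real, Real.norm_eq_abs,
    abs_of_pos (by linarith)]
  exact (div_le_self (norm_nonneg _) (by linarith)).trans hg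

private theorem SumK_div2 {g : ℂ} {r A : ℝ} (hr : 0 ≤ r) (hg : ‖g‖ ≤ A) :
    ‖g / (-1 * (r : ℂ) - 1) * I‖ ≤ A := by
  have h1 : (-1 * (r : ℂ) - 1) = -((1 + r : ℝ) : ℂ) := by push_cast; ring
  rw [h1, norm_mul, Complex.norm_I, mul_one, norm_div, norm_neg, Complex.norm_real,
    Real.norm_eq_abs, abs_of_pos (by linarith)]
  exact (div_le_self (norm_nonneg _) (by linarith)).trans hg

private theorem SumK_alg {g e : ℂ} (h : 1 - e ≠ 0) : g / (1 - e) - g = g * e / (1 - e) := by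
  field_simp
  ring

/-- Replacing the sum over `k` by an integral over a horizontal line. -/
theorem sum_k (G : ℂ → ℂ) (n M k1 k2 : ℕ) (η Y A B : ℝ) (hM : 0 < M) (hk : k1 ≤ k2) (hη : 0 < η)
    (hY : |Y| ≤ η) (hM' : 1 ≤ 2 * Real.pi * η * M) (y1 y2 : ℝ)
    (hy1 : y1 = (k1 + bt n) / M - 1 / 2) (hy2 : y2 = (k2 + 1 + bt n) / M - 1 / 2)
    (hG : ∀ z : ℂ, y1 ≤ z.re → z.re ≤ y2 → |z.im| ≤ η → DifferentiableAt ℂ G z)
    (hA : ∀ z : ℂ, (z.re = y1 ∨ z.re = y2) → |z.im| ≤ η → ‖G z‖ ≤ A)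
    (hB : ∀ z : ℂ, y1 ≤ z.re → z.re ≤ y2 → |z.im| = η → ‖G z‖ ≤ B) :
    ‖∑ k ∈ Finset.Icc k1 k2, G (yk n M k) - M * ∫ x in y1..y2, G (x + Y * I)‖ ≤
      M * (8 * η * A + 4 * (y2 - y1) * Real.exp (-(2 * Real.pi * η * M)) * B) := by
  obtain ⟨m, rfl⟩ : ∃ m, k2 = k1 + m := ⟨k2 - k1, by omega⟩
  have hM0 : (0 : ℝ) < M := by exact_mod_cast hM
  have hMc : (M : ℂ) ≠ 0 := by exact_mod_cast hM.ne'
  have hd12 : y2 - y1 = (m + 1) / M := by
    rw [hy1, hy2]; push_cast; ring
  have hy12 : y1 ≤ y2 := by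
    have : 0 ≤ ((m : ℝ) + 1) / M := by positivity
    linarith
  set ε : ℝ := Real.exp (-(2 * Real.pi * η * M)) with hε
  have hε0 : 0 < ε := Real.exp_pos _
  have hε1 : ε ≤ 1 / 2 := by
    have h1 : ε ≤ Real.exp (-1) := Real.exp_le_exp.2 (by linarith)
    have h2 : Real.exp (-1) * Real.exp 1 = 1 := by rw [← Real.exp_add]; simp
    have h3 : (2 : ℝ) ≤ Real.exp 1 := by
      have := Real.add_one_le_exp (1 : ℝ)
      linarith
    have h4 : 0 < Real.exp (-1) := Real.exp_pos _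
    nlinarith
  -- the scaled function
  set sc : ℂ → ℂ := fun s => (s + bt n + 1 / 2) / M - 1 / 2 with hsc
  have hre : ∀ s : ℂ, (sc s).re = (s.re + bt n + 1 / 2) / M - 1 / 2 := by
    intro s
    simp [hsc]
  have him : ∀ s : ℂ, (sc s).im = s.im / M := by
    intro s
    simp [hsc]
  have hscd : ∀ s : ℂ, DifferentiableAt ℂ sc s := by
    intro s
    rw [hsc]
    fun_prop
  set a : ℝ := (k1 : ℝ) with ha
  set H : ℝ := η * M with hH
  have hH0 : 0 < H := by positivity
  have hε' : Real.exp (-(2 * Real.pi * H)) = ε := by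
    rw [hε, hH]; congr 1; ring
  have hdiff : ∀ z : ℂ, a - 1 / 2 ≤ z.re → z.re ≤ a + m + 1 / 2 → |z.im| ≤ H →
      DifferentiableAt ℂ (fun s => G (sc s)) z := by
    intro z h1 h2 h3
    refine DifferentiableAt.comp z (hG (sc z) ?_ ?_ ?_) (hscd z)
    · rw [hre, hy1]
      have : (k1 + bt n) / M ≤ (z.re + bt n + 1 / 2) / M := by
        apply div_le_div_of_nonneg_right _ hM0.le
        linarith
      linarith
    · rw [hre, hy2]
      have : (z.re + bt n + 1 / 2) / M ≤ (((k1 + m : ℕ) : ℝ) + 1 + bt n) / M := by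
        apply div_le_div_of_nonneg_right _ hM0.le
        push_cast
        linarith
      linarith
    · rw [him, abs_div, abs_of_pos hM0, div_le_iff₀ hM0]
      exact h3
  have key := abel_plana (fun s => G (sc s)) a m H hH0 hdiff
  -- the left hand side
  have hsum : ∑ k ∈ Finset.Icc k1 (k1 + m), G (yk n M k) =
      ∑ k ∈ Finset.range (m + 1), G (sc (a + k)) := by
    rw [← Finset.Ico_succ_right_eq_Icc, Finset.sum_Ico_eq_sum_range]
    have h1 : Order.succ (k1 + m) - k1 = m + 1 := by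
      rw [Nat.succ_eq_succ]
      omega
    rw [h1]
    refine Finset.sum_congr rfl fun j _ => ?_
    congr 1
    have hac : (a : ℂ) = (k1 : ℂ) := by rw [ha]; simp
    rw [hsc, yk, hac]
    push_cast
    ring
  -- bounds on the vertical sides
  have hleft : ∀ t : ℝ, |t| ≤ H → ‖G (sc ((a - 1 / 2 : ℝ) + t * I))‖ ≤ A := by
    intro t ht
    refine hA _ (Or.inl ?_) ?_
    · rw [hre, hy1]
      simp
      ring
    · rw [him, abs_div, abs_of_pos hM0, div_le_iff₀ hM0]
      simpa using ht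
  have hright : ∀ t : ℝ, |t| ≤ H → ‖G (sc ((a + m + 1 / 2 : ℝ) + t * I))‖ ≤ A := by
    intro t ht
    refine hA _ (Or.inr ?_) ?_
    · rw [hre, hy2]
      simp
      ring
    · rw [him, abs_div, abs_of_pos hM0, div_le_iff₀ hM0]
      simpa using ht
  have uI : ∀ t : ℝ, t ∈ Set.uIoc (0 : ℝ) H → |t| ≤ H ∧ |-t| ≤ H := by
    intro t ht
    rw [Set.uIoc_of_le hH0.le] at ht
    rw [abs_neg, abs_of_pos ht.1]
    exact ⟨ht.2, ht.2⟩
  have b1 : ‖∫ t in (0 : ℝ)..H, G (sc ((a - 1 / 2 : ℝ) + t * I)) /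
      (1 - exp (2 * Real.pi * I * ((a - 1 / 2 : ℝ) + t * I - a))) * I‖ ≤ A * H := by
    have := intervalIntegral.norm_integral_le_of_norm_le_const (a := (0 : ℝ)) (b := H) (C := A)
      (f := fun t : ℝ => G (sc ((a - 1 / 2 : ℝ) + t * I)) /
        (1 - exp (2 * Real.pi * I * ((a - 1 / 2 : ℝ) + t * I - a))) * I) ?_
    · rwa [sub_zero, abs_of_pos hH0] at this
    · intro t ht
      have e1 : ((a - 1 / 2 : ℝ) + t * I - a : ℂ) = ((-(1 / 2) : ℝ) : ℂ) + t * I := by
        push_cast; ring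
      rw [e1, SumK_exp, SumK_neg_half]
      exact SumK_div1 (Real.exp_pos _).le (hleft t (uI t ht).1)
  have b3 : ‖∫ t in (0 : ℝ)..H, G (sc ((a + m + 1 / 2 : ℝ) + t * I)) /
      (1 - exp (2 * Real.pi * I * ((a + m + 1 / 2 : ℝ) + t * I - a))) * I‖ ≤ A * H := by
    have := intervalIntegral.norm_integral_le_of_norm_le_const (a := (0 : ℝ)) (b := H) (C := A)
      (f := fun t : ℝ => G (sc ((a + m + 1 / 2 : ℝ) + t * I)) /
        (1 - exp (2 * Real.pi * I * ((a + m + 1 / 2 : ℝ) + t * I - a))) * I) ?_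
    · rwa [sub_zero, abs_of_pos hH0] at this
    · intro t ht
      have e1 : ((a + m + 1 / 2 : ℝ) + t * I - a : ℂ) = ((m + 1 / 2 : ℝ) : ℂ) + t * I := by
        push_cast; ring
      rw [e1, SumK_exp, SumK_pos_half]
      exact SumK_div1 (Real.exp_pos _).le (hright t (uI t ht).1)
  have b4 : ‖∫ t in (0 : ℝ)..H, G (sc ((a - 1 / 2 : ℝ) - t * I)) /
      (exp (2 * Real.pi * I * ((a - 1 / 2 : ℝ) - t * I - a)) - 1) * I‖ ≤ A * H := by
    have := intervalIntegral.norm_integral_le_of_norm_le_const (a := (0 : ℝ)) (b := H) (C := A)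
      (f := fun t : ℝ => G (sc ((a - 1 / 2 : ℝ) - t * I)) /
        (exp (2 * Real.pi * I * ((a - 1 / 2 : ℝ) - t * I - a)) - 1) * I) ?_
    · rwa [sub_zero, abs_of_pos hH0] at this
    · intro t ht
      have e1 : ((a - 1 / 2 : ℝ) - t * I - a : ℂ) = ((-(1 / 2) : ℝ) : ℂ) + ((-t : ℝ) : ℂ) * I := by
        push_cast; ring
      have e2 : ((a - 1 / 2 : ℝ) - t * I : ℂ) = ((a - 1 / 2 : ℝ) + ((-t : ℝ) : ℂ) * I : ℂ) := by
        push_cast; ring
      rw [e1, SumK_exp, SumK_neg_half, e2]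
      exact SumK_div2 (Real.exp_pos _).le (hleft (-t) (uI t ht).2)
  have b6 : ‖∫ t in (0 : ℝ)..H, G (sc ((a + m + 1 / 2 : ℝ) - t * I)) /
      (exp (2 * Real.pi * I * ((a + m + 1 / 2 : ℝ) - t * I - a)) - 1) * I‖ ≤ A * H := by
    have := intervalIntegral.norm_integral_le_of_norm_le_const (a := (0 : ℝ)) (b := H) (C := A)
      (f := fun t : ℝ => G (sc ((a + m + 1 / 2 : ℝ) - t * I)) /
        (exp (2 * Real.pi * I * ((a + m + 1 / 2 : ℝ) - t * I - a)) - 1) * I) ?_
    · rwa [sub_zero, abs_of_pos hH0] at this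
    · intro t ht
      have e1 : ((a + m + 1 / 2 : ℝ) - t * I - a : ℂ) =
          ((m + 1 / 2 : ℝ) : ℂ) + ((-t : ℝ) : ℂ) * I := by
        push_cast; ring
      have e2 : ((a + m + 1 / 2 : ℝ) - t * I : ℂ) =
          ((a + m + 1 / 2 : ℝ) + ((-t : ℝ) : ℂ) * I : ℂ) := by
        push_cast; ring
      rw [e1, SumK_exp, SumK_pos_half, e2]
      exact SumK_div2 (Real.exp_pos _).le (hright (-t) (uI t ht).2)
  -- the horizontal sides
  have hle : a - 1 / 2 ≤ a + m + 1 / 2 := by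
    have : (0 : ℝ) ≤ m := Nat.cast_nonneg m
    linarith
  have hlen : |a + m + 1 / 2 - (a - 1 / 2)| = M * (y2 - y1) := by
    rw [hd12, mul_div_cancel₀ _ hM0.ne', abs_of_nonneg (by linarith)]
    ring
  have hrange : ∀ x : ℝ, a - 1 / 2 ≤ x → x ≤ a + m + 1 / 2 → ∀ h : ℝ,
      y1 ≤ (sc (x + h * I)).re ∧ (sc (x + h * I)).re ≤ y2 ∧ (sc (x + h * I)).im = h / M := by
    intro x h1 h2 h
    refine ⟨?_, ?_, ?_⟩
    · rw [hre, hy1]
      have : (k1 + bt n) / M ≤ ((x + h * I : ℂ).re + bt n + 1 / 2) / M := by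
        apply div_le_div_of_nonneg_right _ hM0.le
        simp
        linarith
      linarith
    · rw [hre, hy2]
      have : ((x + h * I : ℂ).re + bt n + 1 / 2) / M ≤ (((k1 + m : ℕ) : ℝ) + 1 + bt n) / M := by
        apply div_le_div_of_nonneg_right _ hM0.le
        simp
        linarith
      linarith
    · rw [him]
      simp
  have hHM : H / M = η := by rw [hH]; field_simp
  have uJ : ∀ x : ℝ, x ∈ Set.uIoc (a - 1 / 2) (a + m + 1 / 2) →
      a - 1 / 2 ≤ x ∧ x ≤ a + m + 1 / 2 := by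
    intro x hx
    rw [Set.uIoc_of_le hle] at hx
    exact ⟨hx.1.le, hx.2⟩
  have b5 : ‖∫ x in (a - 1 / 2)..(a + m + 1 / 2), G (sc (x - H * I)) /
      (exp (2 * Real.pi * I * (x - H * I - a)) - 1)‖ ≤ (2 * ε * B) * (M * (y2 - y1)) := by
    rw [← hlen]
    refine intervalIntegral.norm_integral_le_of_norm_le_const fun x hx => ?_
    obtain ⟨h1, h2⟩ := uJ x hx
    have e2 : (x - H * I : ℂ) = (x + ((-H : ℝ) : ℂ) * I : ℂ) := by push_cast; ring
    obtain ⟨g1, g2, g3⟩ := hrange x h1 h2 (-H)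
    have hgB : ‖G (sc (x - H * I))‖ ≤ B := by
      rw [e2]
      refine hB _ g1 g2 ?_
      rw [g3, neg_div, abs_neg, hHM, abs_of_pos hη]
    have hB0 : 0 ≤ B := (norm_nonneg _).trans hgB
    have hn : ‖exp (2 * Real.pi * I * (x - H * I - a))‖ = 1 / ε := by
      rw [SumK_norm_exp]
      have : (x - H * I - a : ℂ).im = -H := by simp
      rw [this, ← hε', one_div, ← Real.exp_neg]
      congr 1
      ring
    have hlow : 1 / (2 * ε) ≤ ‖exp (2 * Real.pi * I * (x - H * I - a)) - 1‖ := by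
      have h3 := norm_sub_norm_le (exp (2 * Real.pi * I * (x - H * I - a))) 1
      rw [hn, norm_one] at h3
      refine le_trans ?_ h3
      have h4 : 1 / ε = 1 / (2 * ε) + 1 / (2 * ε) := by field_simp; norm_num
      have h5 : 1 ≤ 1 / (2 * ε) := by
        rw [le_div_iff₀ (by positivity)]
        linarith
      linarith
    rw [norm_div]
    have h6 : 0 < 1 / (2 * ε) := by positivity
    calc ‖G (sc (x - H * I))‖ / ‖exp (2 * Real.pi * I * (x - H * I - a)) - 1‖
        ≤ B / (1 / (2 * ε)) := div_le_div₀ hB0 hgB h6 hlow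
      _ = 2 * ε * B := by field_simp
  -- continuity of the integrands
  have hcont : ContinuousOn (fun x : ℝ => G (sc (x + H * I)))
      (Set.uIcc (a - 1 / 2) (a + m + 1 / 2)) := by
    intro x hx
    rw [Set.uIcc_of_le hle] at hx
    apply ContinuousAt.continuousWithinAt
    have hd := hdiff (x + H * I) (by simpa using hx.1) (by simpa using hx.2)
      (by simp [abs_of_pos hH0])
    have hc := hd.continuousAt
    exact ContinuousAt.comp (g := fun s : ℂ => G (sc s)) (f := fun x : ℝ => (x : ℂ) + H * I)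
      hc (by fun_prop)
  have hne : ∀ x : ℝ, 1 / 2 ≤ ‖1 - exp (2 * Real.pi * I * (x + H * I - a))‖ := by
    intro x
    have hn : ‖exp (2 * Real.pi * I * (x + H * I - a))‖ = ε := by
      rw [SumK_norm_exp]
      have : (x + H * I - a : ℂ).im = H := by simp
      rw [this, ← hε']
    have h3 := norm_sub_norm_le 1 (exp (2 * Real.pi * I * (x + H * I - a)))
    rw [hn, norm_one] at h3
    linarith
  have hcont2 : ContinuousOn (fun x : ℝ => G (sc (x + H * I)) /
      (1 - exp (2 * Real.pi * I * (x + H * I - a)))) (Set.uIcc (a - 1 / 2) (a + m + 1 / 2)) := by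
    refine hcont.div (by fun_prop) ?_
    intro x _ h0
    have := hne x
    rw [h0, norm_zero] at this
    norm_num at this
  have b2 : ‖(∫ x in (a - 1 / 2)..(a + m + 1 / 2), G (sc (x + H * I)) /
      (1 - exp (2 * Real.pi * I * (x + H * I - a)))) -
      ∫ x in (a - 1 / 2)..(a + m + 1 / 2), G (sc (x + H * I))‖ ≤
      (2 * ε * B) * (M * (y2 - y1)) := by
    rw [← intervalIntegral.integral_sub hcont2.intervalIntegrable hcont.intervalIntegrable,
      ← hlen]
    refine intervalIntegral.norm_integral_le_of_norm_le_const fun x hx => ?_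
    obtain ⟨h1, h2⟩ := uJ x hx
    obtain ⟨g1, g2, g3⟩ := hrange x h1 h2 H
    have hgB : ‖G (sc (x + H * I))‖ ≤ B := by
      refine hB _ g1 g2 ?_
      rw [g3, hHM, abs_of_pos hη]
    have hB0 : 0 ≤ B := (norm_nonneg _).trans hgB
    have hn : ‖exp (2 * Real.pi * I * (x + H * I - a))‖ = ε := by
      rw [SumK_norm_exp]
      have : (x + H * I - a : ℂ).im = H := by simp
      rw [this, ← hε']
    have hx0 := hne x
    have hx1 : 1 - exp (2 * Real.pi * I * (x + H * I - a)) ≠ 0 := by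
      intro h0
      rw [h0, norm_zero] at hx0
      norm_num at hx0
    have e3 : G (sc (x + H * I)) / (1 - exp (2 * Real.pi * I * (x + H * I - a))) -
        G (sc (x + H * I)) = G (sc (x + H * I)) * exp (2 * Real.pi * I * (x + H * I - a)) /
          (1 - exp (2 * Real.pi * I * (x + H * I - a))) := by
      exact SumK_alg hx1
    rw [e3, norm_div, norm_mul, hn]
    calc ‖G (sc (x + H * I))‖ * ε / ‖1 - exp (2 * Real.pi * I * (x + H * I - a))‖
        ≤ B * ε / (1 / 2) := by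
          apply div_le_div₀ (by positivity) _ (by norm_num) hx0
          exact mul_le_mul_of_nonneg_right hgB hε0.le
      _ = 2 * ε * B := by ring
  -- the change of variables
  have hcv : ∫ x in (a - 1 / 2)..(a + m + 1 / 2), G (sc (x + H * I)) =
      M * ∫ u in y1..y2, G (u + η * I) := by
    have h1 := intervalIntegral.integral_comp_div_add (a := a - 1 / 2) (b := a + m + 1 / 2)
      (fun u : ℝ => G (u + η * I)) hM0.ne' ((bt n + 1 / 2) / M - 1 / 2)
    have h2 : (fun x : ℝ => G (((x / M + ((bt n + 1 / 2) / M - 1 / 2) : ℝ) : ℂ) + η * I)) =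
        fun x : ℝ => G (sc (x + H * I)) := by
      funext x
      congr 1
      rw [hsc, hH]
      push_cast
      field_simp
      ring
    rw [h2] at h1
    rw [h1]
    have h3 : (a - 1 / 2) / M + ((bt n + 1 / 2) / M - 1 / 2) = y1 := by
      rw [hy1, ha]; ring
    have h4 : (a + m + 1 / 2) / M + ((bt n + 1 / 2) / M - 1 / 2) = y2 := by
      rw [hy2, ha]; push_cast; ring
    rw [h3, h4]
    simp
  -- Cauchy
  have hcau := Complex.integral_boundary_rect_eq_zero_of_differentiableOn G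
    (y1 + Y * I) (y2 + η * I) (by
      intro z hz
      rw [Complex.mem_reProdIm] at hz
      obtain ⟨h1, h2⟩ := hz
      have r1 : (y1 + Y * I : ℂ).re = y1 := by simp
      have r2 : (y2 + η * I : ℂ).re = y2 := by simp
      have i1 : (y1 + Y * I : ℂ).im = Y := by simp
      have i2 : (y2 + η * I : ℂ).im = η := by simp
      rw [r1, r2, Set.uIcc_of_le hy12] at h1
      have hYη : Y ≤ η := (le_abs_self Y).trans hY
      rw [i1, i2, Set.uIcc_of_le hYη] at h2
      refine (hG z h1.1 h1.2 ?_).differentiableWithinAt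
      rw [abs_le]
      have := neg_le_of_abs_le hY
      exact ⟨this.trans h2.1, h2.2⟩)
  have r1 : (y1 + Y * I : ℂ).re = y1 := by simp
  have r2 : (y2 + η * I : ℂ).re = y2 := by simp
  have i1 : (y1 + Y * I : ℂ).im = Y := by simp
  have i2 : (y2 + η * I : ℂ).im = η := by simp
  rw [r1, r2, i1, i2] at hcau
  have hYη : |η - Y| ≤ 2 * η := by
    rw [abs_le] at hY
    rw [abs_le]
    constructor <;> linarith
  have uY : ∀ t : ℝ, t ∈ Set.uIoc Y η → |t| ≤ η := by
    intro t ht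
    have hYη : Y ≤ η := (le_abs_self Y).trans hY
    rw [Set.uIoc_of_le hYη] at ht
    rw [abs_le]
    exact ⟨(neg_le_of_abs_le hY).trans ht.1.le, ht.2⟩
  have hA0 : 0 ≤ A := by
    refine (norm_nonneg (G (y1 : ℂ))).trans (hA _ (Or.inl (by simp)) ?_)
    simp [hη.le]
  have c1 : ‖∫ t in Y..η, G (y2 + t * I)‖ ≤ A * (2 * η) := by
    refine (intervalIntegral.norm_integral_le_of_norm_le_const (C := A) fun t ht => ?_).trans
      (mul_le_mul_of_nonneg_left hYη hA0)
    refine hA _ (Or.inr (by simp)) ?_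
    simpa using uY t ht
  have c2 : ‖∫ t in Y..η, G (y1 + t * I)‖ ≤ A * (2 * η) := by
    refine (intervalIntegral.norm_integral_le_of_norm_le_const (C := A) fun t ht => ?_).trans
      (mul_le_mul_of_nonneg_left hYη hA0)
    refine hA _ (Or.inl (by simp)) ?_
    simpa using uY t ht
  -- assembly
  rw [hsum, key]
  set T1 := ∫ t in (0 : ℝ)..H, G (sc ((a - 1 / 2 : ℝ) + t * I)) /
      (1 - exp (2 * Real.pi * I * ((a - 1 / 2 : ℝ) + t * I - a))) * I
  set T2 := ∫ x in (a - 1 / 2)..(a + m + 1 / 2), G (sc (x + H * I)) /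
      (1 - exp (2 * Real.pi * I * (x + H * I - a)))
  set T3 := ∫ t in (0 : ℝ)..H, G (sc ((a + m + 1 / 2 : ℝ) + t * I)) /
      (1 - exp (2 * Real.pi * I * ((a + m + 1 / 2 : ℝ) + t * I - a))) * I
  set T4 := ∫ t in (0 : ℝ)..H, G (sc ((a - 1 / 2 : ℝ) - t * I)) /
      (exp (2 * Real.pi * I * ((a - 1 / 2 : ℝ) - t * I - a)) - 1) * I
  set T5 := ∫ x in (a - 1 / 2)..(a + m + 1 / 2), G (sc (x - H * I)) /
      (exp (2 * Real.pi * I * (x - H * I - a)) - 1)
  set T6 := ∫ t in (0 : ℝ)..H, G (sc ((a + m + 1 / 2 : ℝ) - t * I)) /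
      (exp (2 * Real.pi * I * ((a + m + 1 / 2 : ℝ) - t * I - a)) - 1) * I
  set T7 := ∫ x in (a - 1 / 2)..(a + m + 1 / 2), G (sc (x + H * I))
  set J1 := ∫ x in y1..y2, G (x + Y * I)
  set J2 := ∫ x in y1..y2, G (x + η * I)
  set V1 := ∫ t in Y..η, G (y1 + t * I)
  set V2 := ∫ t in Y..η, G (y2 + t * I)
  have hJ : T7 - M * J1 = M * (I * V2 - I * V1) := by
    rw [hcv]
    simp only [smul_eq_mul] at hcau
    linear_combination (-(M : ℂ)) * hcau
  have hfin : T1 + T2 - T3 - T4 + T5 + T6 - M * J1 =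
      T1 - T3 - T4 + T6 + (T2 - T7) + T5 + M * (I * V2 - I * V1) := by
    linear_combination hJ
  rw [hfin]
  have n1 : ‖(M : ℂ) * (I * V2 - I * V1)‖ ≤ M * (A * (2 * η) + A * (2 * η)) := by
    rw [norm_mul, Complex.norm_natCast]
    refine mul_le_mul_of_nonneg_left ((norm_sub_le _ _).trans ?_) hM0.le
    rw [norm_mul, norm_mul, Complex.norm_I, one_mul, one_mul]
    exact add_le_add c1 c2
  calc ‖T1 - T3 - T4 + T6 + (T2 - T7) + T5 + M * (I * V2 - I * V1)‖
      ≤ ‖T1‖ + ‖T3‖ + ‖T4‖ + ‖T6‖ + ‖T2 - T7‖ + ‖T5‖ + ‖(M : ℂ) * (I * V2 - I * V1)‖ := by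
        refine (norm_add_le _ _).trans (add_le_add ?_ le_rfl)
        refine (norm_add_le _ _).trans (add_le_add ?_ le_rfl)
        refine (norm_add_le _ _).trans (add_le_add ?_ le_rfl)
        refine (norm_add_le _ _).trans (add_le_add ?_ le_rfl)
        refine (norm_sub_le _ _).trans (add_le_add ?_ le_rfl)
        exact norm_sub_le _ _
    _ ≤ A * H + A * H + A * H + A * H + (2 * ε * B) * (M * (y2 - y1)) +
        (2 * ε * B) * (M * (y2 - y1)) + M * (A * (2 * η) + A * (2 * η)) := by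
        gcongr
    _ = M * (8 * η * A + 4 * (y2 - y1) * ε * B) := by
        rw [hH]; ring

end Pool.Agent.H63.VC3
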