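import Pool.Agent.H63.VC3.Conc
import Pool.Agent.H63.VC3.KAn
import Pool.Agent.H63.VC3.KB
import Pool.Agent.H63.VC3.Om
import Pool.Agent.H63.VC3.SumK
import Pool.Agent.H63.VC3.Upper
import Pool.Agent.H63.VC3.WinFacts

/-! # The sum over `k` of the flat parts -/

namespace Pool.Agent.H63.VC3

open Pool.Agent.H63.VC Complex

/-- Truncation to an interval. -/
noncomputable def StepFL_cl (u v x : ℝ) : ℝ := max u (min v x)

lemma StepFL_cl_continuous (u v : ℝ) : Continuous (StepFL_cl u v) := by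
  unfold StepFL_cl
  fun_prop

lemma StepFL_cl_mem {u v : ℝ} (h : u ≤ v) (x : ℝ) : u ≤ StepFL_cl u v x ∧ StepFL_cl u v x ≤ v :=
  ⟨le_max_left _ _, max_le h (min_le_left _ _)⟩

lemma StepFL_cl_eq {u v x : ℝ} (h1 : u ≤ x) (h2 : x ≤ v) : StepFL_cl u v x = x := by
  unfold StepFL_cl
  rw [min_eq_right h2, max_eq_right h1]

lemma StepFL_contKK {X : Type*} [TopologicalSpace X] (r : ℤ) (n M : ℕ) (hM : 0 < M) {φ ψ : X → ℂ}
    (hφ : Continuous φ) (hψ : Continuous ψ) (h : ∀ p, 0 < (φ p - ψ p).re ∧ (φ p - ψ p).re < 1 ∧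
      0 < (φ p + ψ p).re ∧ (φ p + ψ p).re < 1) :
    Continuous fun p => KK r n M (φ p) (ψ p) := by
  rw [continuous_iff_continuousAt]
  intro p
  obtain ⟨h1, h2, h3, h4⟩ := h p
  have h5 := KK_continuousAt r n M hM (φ p) (ψ p) h1 h2 h3 h4
  have h6 : ContinuousAt (fun p => (φ p, ψ p)) p := (hφ.prodMk hψ).continuousAt
  exact ContinuousAt.comp (f := fun p => (φ p, ψ p)) (g := fun z : ℂ × ℂ => KK r n M z.1 z.2) h5 h6

lemma StepFL_ww_ne (n M : ℕ) (hM : 0 < M) (v : ℂ) (hv : 0 < v.im) : ww n M v ≠ 1 := by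
  intro h
  have h1 := norm_ww n M v
  rw [h, norm_one] at h1
  have h2 : Real.exp (-(2 * Real.pi * M * v.im)) < 1 := by
    rw [Real.exp_lt_one_iff]
    have : (0 : ℝ) < M := by exact_mod_cast hM
    have := Real.pi_pos
    have : 0 < 2 * Real.pi * M * v.im := by positivity
    linarith
  linarith

lemma StepFL_contOm {X : Type*} [TopologicalSpace X] (n M : ℕ) (hM : 0 < M) {ψ : X → ℂ}
    (hψ : Continuous ψ) (h : ∀ p, 0 < (ψ p).im) : Continuous fun p => om n M (ψ p) := by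
  rw [continuous_iff_continuousAt]
  intro p
  exact ContinuousAt.comp (om_continuousAt n M (ψ p) (StepFL_ww_ne n M hM _ (h p)))
    hψ.continuousAt

lemma StepFL_contCc {X : Type*} [TopologicalSpace X] (n g M : ℕ) (hg : 1 ≤ g) (hgn : g ≤ n - 1)
    (hM : 1000 * (n + 1) ≤ M) {φ : X → ℂ} (hφ : Continuous φ)
    (h : ∀ p, 1 / 10 ≤ (φ p).re ∧ (φ p).re ≤ 4 / 10) : Continuous fun p => Cc n g M (φ p) := by
  rw [continuous_iff_continuousAt]
  intro p
  exact ContinuousAt.comp (g := Cc n g M) (f := φ) (Cc_differentiableAt n g M hg hgn hM (φ p)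
    (h p).1 (h p).2).continuousAt hφ.continuousAt

/-- Linearity of the integrals. -/
lemma StepFL_swap (ρ y1 y2 : ℝ) (s : Finset ℕ) (c : ℕ → ℂ) (f1 f2 : ℕ → ℝ → ℂ)
    (F : ℝ → ℝ → ℝ → ℂ) (m : ℂ) (hf1 : ∀ k ∈ s, Continuous (f1 k))
    (hf2 : ∀ k ∈ s, Continuous (f2 k)) (hF : Continuous fun q : (ℝ × ℝ) × ℝ => F q.1.1 q.1.2 q.2) :
    ∑ k ∈ s, c k * ((∫ a in (-ρ)..ρ, f1 k a) * ∫ b in (-ρ)..ρ, f2 k b) -
        m * ∫ a in (-ρ)..ρ, ∫ b in (-ρ)..ρ, ∫ x in y1..y2, F a b x =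
      ∫ a in (-ρ)..ρ, ∫ b in (-ρ)..ρ, (∑ k ∈ s, c k * (f1 k a * f2 k b) -
        m * ∫ x in y1..y2, F a b x) := by
  have hTc : Continuous fun p : ℝ × ℝ => ∫ x in y1..y2, F p.1 p.2 x :=
    intervalIntegral.continuous_parametric_intervalIntegral_of_continuous'
      (f := fun (p : ℝ × ℝ) x => F p.1 p.2 x) hF y1 y2
  obtain ⟨T, hT⟩ : ∃ T : ℝ → ℝ → ℂ, ∀ a b, T a b = ∫ x in y1..y2, F a b x := ⟨_, fun _ _ => rfl⟩
  simp only [← hT] at hTc ⊢
  have hTb : ∀ a, Continuous (T a) := fun a =>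
    hTc.comp (f := fun b : ℝ => ((a, b) : ℝ × ℝ)) (continuous_const.prodMk continuous_id)
  have hTc2 : Continuous fun a : ℝ => ∫ b in (-ρ)..ρ, T a b :=
    intervalIntegral.continuous_parametric_intervalIntegral_of_continuous'
      (f := fun (a b : ℝ) => T a b) hTc (-ρ) ρ
  have hEint : ∀ a, ∫ b in (-ρ)..ρ, (∑ k ∈ s, c k * (f1 k a * f2 k b) - m * T a b) =
      ∑ k ∈ s, c k * (f1 k a * ∫ b in (-ρ)..ρ, f2 k b) - m * ∫ b in (-ρ)..ρ, T a b := by
    intro a
    rw [intervalIntegral.integral_sub, intervalIntegral.integral_finsetSum]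
    · simp only [intervalIntegral.integral_const_mul]
    · intro k hk
      exact (continuous_const.mul (continuous_const.mul (hf2 k hk))).intervalIntegrable _ _
    · exact (continuous_finsetSum _ fun k hk => continuous_const.mul
        (continuous_const.mul (hf2 k hk))).intervalIntegrable _ _
    · exact (continuous_const.mul (hTb a)).intervalIntegrable _ _
  simp only [hEint]
  rw [intervalIntegral.integral_sub, intervalIntegral.integral_finsetSum]
  · simp only [intervalIntegral.integral_const_mul, intervalIntegral.integral_mul_const]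
  · intro k hk
    exact (continuous_const.mul ((hf1 k hk).mul continuous_const)).intervalIntegrable _ _
  · exact (continuous_finsetSum _ fun k hk => continuous_const.mul
      ((hf1 k hk).mul continuous_const)).intervalIntegrable _ _
  · exact (continuous_const.mul hTc2).intervalIntegrable _ _

/-- The bound for the integrand, without the factor `ω`. -/
lemma StepFL_bound (r1 r2 : ℤ) (n g M : ℕ) (C0 C1 C2 : ℝ) (hC0 : 0 < C0) (hC1 : 0 < C1)
    (hC2 : 0 < C2) (hM : 0 < M) (z α β : ℂ)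
    (h0 : ‖Cc n g M z‖ ≤ C0 * (M : ℝ) ^ 2 * Real.exp (M * (4 * ff (z + 1 / 2)).re))
    (h1 : ‖KK r1 n M z α‖ ≤ C1 / M *
      Real.exp (M * (2 * Real.pi * I * r1 * α ^ 2 - ff (z - α) - ff (z + α)).re))
    (h2 : ‖KK r2 n M z β‖ ≤ C2 / M *
      Real.exp (M * (2 * Real.pi * I * r2 * β ^ 2 - ff (z - β) - ff (z + β)).re)) :
    ‖Cc n g M z * (KK r1 n M z α * KK r2 n M z β)‖ ≤ C0 * C1 * C2 *
      Real.exp (M * ((Vf r1 r2 z α β).re + 2 * Real.pi * (α.im + β.im))) := by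
  have hM0 : (0 : ℝ) < M := by exact_mod_cast hM
  rw [norm_mul, norm_mul]
  have e : (Vf r1 r2 z α β).re + 2 * Real.pi * (α.im + β.im) = (4 * ff (z + 1 / 2)).re +
      (2 * Real.pi * I * r1 * α ^ 2 - ff (z - α) - ff (z + α)).re +
      (2 * Real.pi * I * r2 * β ^ 2 - ff (z - β) - ff (z + β)).re := by
    have e1 : 4 * ff (z + 1 / 2) + (2 * Real.pi * I * r1 * α ^ 2 - ff (z - α) - ff (z + α)) +
        (2 * Real.pi * I * r2 * β ^ 2 - ff (z - β) - ff (z + β)) =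
        Vf r1 r2 z α β - 2 * Real.pi * I * α - 2 * Real.pi * I * β := by
      unfold Vf
      ring
    rw [← add_re, ← add_re, e1, sub_re, sub_re]
    have e2 : ∀ x : ℂ, (2 * Real.pi * I * x).re = -(2 * Real.pi * x.im) := by
      intro x
      have : (2 * Real.pi * I * x : ℂ) = ((2 * Real.pi : ℝ) : ℂ) * (I * x) := by
        push_cast
        ring
      rw [this, re_ofReal_mul, I_mul_re]
      ring
    rw [e2, e2]
    ring
  rw [e, mul_add, mul_add, Real.exp_add, Real.exp_add]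
  calc ‖Cc n g M z‖ * (‖KK r1 n M z α‖ * ‖KK r2 n M z β‖) ≤
      (C0 * (M : ℝ) ^ 2 * Real.exp (M * (4 * ff (z + 1 / 2)).re)) *
      ((C1 / M * Real.exp (M * (2 * Real.pi * I * r1 * α ^ 2 - ff (z - α) - ff (z + α)).re)) *
      (C2 / M * Real.exp (M * (2 * Real.pi * I * r2 * β ^ 2 - ff (z - β) - ff (z + β)).re))) := by
        gcongr
    _ = _ := by
        field_simp

/-- The estimate for fixed `v` and `w`. -/
lemma StepFL_core (r1 r2 : ℤ) (hr1 : 10 ≤ |r1|) (hr2 : 10 ≤ |r2|) (n g M k1 k2 : ℕ)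
    (C0 C1 C2 H Y0 Y1 Y2 y1 y2 : ℝ) (hC0 : 0 < C0) (hC1 : 0 < C1) (hC2 : 0 < C2)
    (hg : 1 ≤ g) (hgn : g ≤ n - 1) (hMr : (100 : ℝ) ≤ M) (hbig : 1000 * (n + 1) ≤ M)
    (hk : k1 ≤ k2)
    (hCc : ∀ y : ℂ, 18 / 100 ≤ y.re → y.re ≤ 32 / 100 → |y.im| ≤ 1 / 10 →
      ‖Cc n g M y‖ ≤ C0 * (M : ℝ) ^ 2 * Real.exp (M * (4 * ff (y + 1 / 2)).re))
    (hK1 : ∀ y v : ℂ, 4 / 100 ≤ (y - v).re → (y - v).re ≤ 46 / 100 → 4 / 100 ≤ (y + v).re →
      (y + v).re ≤ 46 / 100 → |y.im| ≤ 1 / 10 → |v.im| ≤ 1 / 10 → ‖KK r1 n M y v‖ ≤ C1 / M *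
      Real.exp (M * (2 * Real.pi * I * r1 * v ^ 2 - ff (y - v) - ff (y + v)).re))
    (hK2 : ∀ y v : ℂ, 4 / 100 ≤ (y - v).re → (y - v).re ≤ 46 / 100 → 4 / 100 ≤ (y + v).re →
      (y + v).re ≤ 46 / 100 → |y.im| ≤ 1 / 10 → |v.im| ≤ 1 / 10 → ‖KK r2 n M y v‖ ≤ C2 / M *
      Real.exp (M * (2 * Real.pi * I * r2 * v ^ 2 - ff (y - v) - ff (y + v)).re))
    (hH : 8 * Fr (3 / 4) - 1667 / 100000 ≤ H) (lyi : |Y0| ≤ 1 / 100) (hY1p : 0 < Y1)
    (hY2p : 0 < Y2) (lv : Y1 ≤ 3 / (10 * (r1 : ℝ) ^ 2)) (lw : Y2 ≤ 3 / (10 * (r2 : ℝ) ^ 2))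
    (lv' : Y1 ≤ 3 / 1000) (lw' : Y2 ≤ 3 / 1000) (hMY1 : 1 ≤ 2 * Real.pi * M * Y1)
    (hMY2 : 1 ≤ 2 * Real.pi * M * Y2) (hy1 : y1 = (k1 + bt n) / M - 1 / 2)
    (hy2 : y2 = (k2 + 1 + bt n) / M - 1 / 2) (a1 : 1 / 4 - 55 / 1000 ≤ y1)
    (a2 : y1 ≤ 1 / 4 - 54 / 1000) (a3 : 1 / 4 + 54 / 1000 ≤ y2) (a4 : y2 ≤ 1 / 4 + 55 / 1000)
    (α β : ℂ) {sa sb : ℝ} (hαre : α.re = sa) (hαim : α.im = Y1) (hβre : β.re = sb)
    (hβim : β.im = Y2) (hsa : |sa| ≤ 15 / 100) (hsb : |sb| ≤ 15 / 100) :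
    ‖(∑ k ∈ Finset.Icc k1 k2, (Cc n g M (yk n M k) *
        (KK r1 n M (yk n M k) α * KK r2 n M (yk n M k) β)) -
        M * ∫ x in y1..y2, (Cc n g M (x + Y0 * I) * (KK r1 n M (x + Y0 * I) α *
          KK r2 n M (x + Y0 * I) β))) * (om n M α * om n M β)‖ ≤
      16 * (C0 * C1 * C2) * M * Real.exp (M * (H - 1 / 500)) := by
  have hMr0 : (0 : ℝ) < M := by linarith only [hMr]
  have hMpos : 0 < M := by exact_mod_cast hMr0
  have hy12 : y1 ≤ y2 := by linarith
  obtain ⟨G, hG⟩ : ∃ G : ℂ → ℂ, ∀ z, G z = Cc n g M z * (KK r1 n M z α * KK r2 n M z β) :=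
    ⟨_, fun _ => rfl⟩
  have hsa' := abs_le.1 hsa
  have hsb' := abs_le.1 hsb
  simp only [← hG]
  have hzre : ∀ z : ℂ, y1 ≤ z.re → z.re ≤ y2 → 4 / 100 ≤ (z - α).re ∧ (z - α).re ≤ 46 / 100 ∧
      4 / 100 ≤ (z + α).re ∧ (z + α).re ≤ 46 / 100 ∧ 4 / 100 ≤ (z - β).re ∧
      (z - β).re ≤ 46 / 100 ∧ 4 / 100 ≤ (z + β).re ∧ (z + β).re ≤ 46 / 100 := by
    intro z h1 h2
    rw [sub_re, add_re, sub_re, add_re, hαre, hβre]
    refine ⟨by linarith, by linarith, by linarith, by linarith, by linarith, by linarith only [a4, hsb', h2],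
      by linarith only [a1, hsb', h1], by linarith only [a4, hsb', h2]⟩
  have hGb : ∀ z : ℂ, y1 ≤ z.re → z.re ≤ y2 → |z.im| ≤ 1 / 100 → ‖G z‖ ≤ C0 * C1 * C2 *
      Real.exp (M * ((Vf r1 r2 z α β).re + 2 * Real.pi * (Y1 + Y2))) := by
    intro z h1 h2 h3
    obtain ⟨q1, q2, q3, q4, q5, q6, q7, q8⟩ := hzre z h1 h2
    have e1 := StepFL_bound r1 r2 n g M C0 C1 C2 hC0 hC1 hC2 hMpos z α β
      (hCc z (by linarith only [a1, h1]) (by linarith only [a4, h2]) (by linarith only [h3]))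
      (hK1 z α q1 q2 q3 q4 (by linarith only [h3]) (by
        rw [hαim, abs_of_pos hY1p]
        linarith only [lv']))
      (hK2 z β q5 q6 q7 q8 (by linarith only [h3]) (by
        rw [hβim, abs_of_pos hY2p]
        linarith only [lw']))
    rw [hαim, hβim] at e1
    rw [hG]
    exact e1
  have hVf : ∀ z : ℂ, y1 ≤ z.re → z.re ≤ y2 → |z.im| ≤ 1 / 100 → (Vf r1 r2 z α β).re ≤
      8 * Fr (3 / 4) - 4 * Real.pi * (z.re - 1 / 4) ^ 2 + 7 / 1000 := by
    intro z h1 h2 h3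
    have e1 := flat_upper r1 r2 hr1 hr2 z.re z.im sa sb Y1 Y2 hY1p.le lv hY2p.le lw
      (by rw [abs_le]; constructor <;> linarith only [a1, h1, a4, h2]) h3 hsa hsb
    have e2 : (sa : ℂ) + Y1 * I = α := by
      rw [← re_add_im α, hαre, hαim]
    have e3 : (sb : ℂ) + Y2 * I = β := by
      rw [← re_add_im β, hβre, hβim]
    rw [re_add_im, e2, e3] at e1
    exact e1
  have hπ3 : 3.14 < Real.pi := Real.pi_gt_d2
  -- vertical sides
  set A : ℝ := C0 * C1 * C2 * Real.exp (M * (H - 1 / 500 + 2 * Real.pi * (Y1 + Y2))) with hA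
  set B : ℝ := C0 * C1 * C2 *
    Real.exp (M * (H + 24 / 1000 + 2 * Real.pi * (Y1 + Y2))) with hB
  have hA0 : 0 < A := by positivity
  have hB0 : 0 < B := by positivity
  have hsum := sum_k G n M k1 k2 (1 / 100) Y0 A B hMpos hk (by norm_num) lyi (by
      have : 2 * 3.14 * (1 / 100) * 100 ≤ 2 * Real.pi * (1 / 100) * M := by gcongr
      linarith only [this]) y1 y2 hy1 hy2 (by
      intro z h1 h2 h3
      obtain ⟨q1, q2, q3, q4, q5, q6, q7, q8⟩ := hzre z h1 h2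
      rw [show G = fun z => Cc n g M z * (KK r1 n M z α * KK r2 n M z β) from funext hG]
      refine (Cc_differentiableAt n g M hg hgn hbig z (by linarith only [a1, h1]) (by linarith only [a4, h2])).mul
        ((KK_differentiable_y r1 n M hMpos z α (by linarith only [q1]) (by linarith only [q2]) (by linarith only [q3])
          (by linarith only [q4])).mul (KK_differentiable_y r2 n M hMpos z β (by linarith only [q5]) (by linarith only [q6])
          (by linarith only [q7]) (by linarith only [q8])))) (by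
      intro z h1 h2
      have hz : y1 ≤ z.re ∧ z.re ≤ y2 ∧ (54 / 1000) ^ 2 ≤ (z.re - 1 / 4) ^ 2 := by
        rcases h1 with h1 | h1
        · rw [h1]
          refine ⟨le_rfl, hy12, ?_⟩
          nlinarith only [a2]
        · rw [h1]
          refine ⟨hy12, le_rfl, ?_⟩
          nlinarith only [a3]
      refine (hGb z hz.1 hz.2.1 h2).trans ?_
      rw [hA]
      gcongr
      have e1 := hVf z hz.1 hz.2.1 h2
      have e2 : 4 * 3.14 * (54 / 1000) ^ 2 ≤ 4 * Real.pi * (z.re - 1 / 4) ^ 2 := by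
        have := hz.2.2
        gcongr
      norm_num at e2
      linarith only [hH, e1, e2]) (by
      intro z h1 h2 h3
      refine (hGb z h1 h2 h3.le).trans ?_
      rw [hB]
      gcongr
      have e1 := hVf z h1 h2 h3.le
      have e2 : 0 ≤ 4 * Real.pi * (z.re - 1 / 4) ^ 2 := by positivity
      linarith only [hH, lv', e1, e2])
  have hBA : Real.exp (-(2 * Real.pi * (1 / 100) * M)) * B ≤ A := by
    rw [hB, hA, mul_left_comm, ← Real.exp_add]
    gcongr
    have e2 : 2 * 3.14 * (1 / 100) * M ≤ 2 * Real.pi * (1 / 100) * M := by gcongr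
    nlinarith only [e2]
  have hsum2 : ‖∑ k ∈ Finset.Icc k1 k2, G (yk n M k) - M * ∫ x in y1..y2, G (x + Y0 * I)‖ ≤
      M * A := by
    refine hsum.trans ?_
    gcongr
    have e1 : y2 - y1 ≤ 11 / 100 := by linarith only [a1, a4]
    have e2 : 4 * (y2 - y1) * Real.exp (-(2 * Real.pi * (1 / 100) * M)) * B ≤
        4 * (11 / 100) * A := by
      calc 4 * (y2 - y1) * Real.exp (-(2 * Real.pi * (1 / 100) * M)) * B =
          4 * (y2 - y1) * (Real.exp (-(2 * Real.pi * (1 / 100) * M)) * B) := by ring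
        _ ≤ 4 * (11 / 100) * A := by
          have : 0 ≤ 4 * (y2 - y1) := by linarith only [a2, a3]
          gcongr
    linarith only [hA0, e2]
  have hom : ‖om n M α * om n M β‖ ≤ 16 * Real.exp (-(2 * Real.pi * M * (Y1 + Y2))) := by
    rw [norm_mul]
    have e1 := om_flat n M α (by rw [hαim]; exact hMY1)
    have e2 := om_flat n M β (by rw [hβim]; exact hMY2)
    rw [hαim] at e1
    rw [hβim] at e2
    calc ‖om n M α‖ * ‖om n M β‖ ≤ (4 * Real.exp (-(2 * Real.pi * M * Y1))) *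
        (4 * Real.exp (-(2 * Real.pi * M * Y2))) := by gcongr
      _ = 16 * (Real.exp (-(2 * Real.pi * M * Y1)) * Real.exp (-(2 * Real.pi * M * Y2))) := by
        ring
      _ = _ := by
        rw [← Real.exp_add]
        congr 2
        ring
  rw [norm_mul]
  calc _ ≤ (M * A) * (16 * Real.exp (-(2 * Real.pi * M * (Y1 + Y2)))) := by gcongr
    _ = 16 * (C0 * C1 * C2) * M * (Real.exp (M * (H - 1 / 500 + 2 * Real.pi * (Y1 + Y2))) *
        Real.exp (-(2 * Real.pi * M * (Y1 + Y2)))) := by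
      rw [hA]
      ring
    _ = _ := by
      rw [← Real.exp_add]
      congr 2
      ring

/-- The sum over the `k`-window of the flat parts is the main integral. -/
theorem FL_main (r1 r2 : ℤ) (y v w : ℂ) (hc : Crit r1 r2 y v w) (n g : ℕ) (hn : 2 ≤ n)
    (hg : 1 ≤ g) (hgn : g ≤ n - 1) : ∃ C : ℝ, 0 < C ∧ ∃ D M0 : ℕ, ∀ M k1 k2 l1 l2 : ℕ,
    M0 ≤ M → Win n M k1 k2 l1 l2 →
    ‖∑ k ∈ Finset.Icc k1 k2, Cc n g M (yk n M k) * (FL r1 n M (yk n M k) (rho n M l2) v.im *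
      FL r2 n M (yk n M k) (rho n M l2) w.im) - M * MainInt r1 r2 n g M y.im v.im w.im
      ((k1 + bt n) / M - 1 / 2) ((k2 + 1 + bt n) / M - 1 / 2) (rho n M l2)‖ ≤
      C * (M : ℝ) ^ D * Real.exp (M * ((Vf r1 r2 y v w).re - 1 / 500)) := by
  obtain ⟨C1, hC1, hK1⟩ := KK_bound r1 n
  obtain ⟨C2, hC2, hK2⟩ := KK_bound r2 n
  obtain ⟨C0, hC0, hCc⟩ := Cc_bound n g hg hgn
  obtain ⟨ly, lyi, -, -, lv, lw, lv', lw'⟩ := crit_loc r1 r2 y v w hc
  have hH := H_lower r1 r2 y v w hc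
  set H : ℝ := (Vf r1 r2 y v w).re with hHdef
  set Y0 : ℝ := y.im with hY0
  set Y1 : ℝ := v.im with hY1
  set Y2 : ℝ := w.im with hY2
  have hY1p : 0 < Y1 := hc.imv
  have hY2p : 0 < Y2 := hc.imw
  have hπ : 0 < Real.pi := Real.pi_pos
  refine ⟨16 * (C0 * C1 * C2), by positivity, 1,
    ⌈1 / (2 * Real.pi * Y1)⌉₊ + ⌈1 / (2 * Real.pi * Y2)⌉₊ + 100, ?_⟩
  intro M k1 k2 l1 l2 hM0 hw
  have hM100 : 100 ≤ M := by omega
  have hMpos : 0 < M := by omega
  have hMr : (100 : ℝ) ≤ M := by exact_mod_cast hM100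
  have hMr0 : (0 : ℝ) < M := by linarith only [hMr]
  have hMY1 : 1 ≤ 2 * Real.pi * M * Y1 := by
    have h1 : (⌈1 / (2 * Real.pi * Y1)⌉₊ : ℝ) ≤ M := by exact_mod_cast (by omega)
    have h2 := (Nat.le_ceil (1 / (2 * Real.pi * Y1))).trans h1
    rw [div_le_iff₀ (by positivity)] at h2
    linarith
  have hMY2 : 1 ≤ 2 * Real.pi * M * Y2 := by
    have h1 : (⌈1 / (2 * Real.pi * Y2)⌉₊ : ℝ) ≤ M := by exact_mod_cast (by omega)
    have h2 := (Nat.le_ceil (1 / (2 * Real.pi * Y2))).trans h1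
    rw [div_le_iff₀ (by positivity)] at h2
    linarith
  obtain ⟨-, -, hkk, -, -, hρ1, hρ2⟩ := win_facts n M k1 k2 l1 l2 hn hw
  set ρ : ℝ := rho n M l2 with hρ
  set y1 : ℝ := (k1 + bt n) / M - 1 / 2 with hy1
  set y2 : ℝ := (k2 + 1 + bt n) / M - 1 / 2 with hy2
  have a1 : 1 / 4 - 55 / 1000 ≤ y1 := hw.a1
  have a2 : y1 ≤ 1 / 4 - 54 / 1000 := hw.a2
  have a3 : 1 / 4 + 54 / 1000 ≤ y2 := hw.a3
  have a4 : y2 ≤ 1 / 4 + 55 / 1000 := hw.a4
  have hy12 : y1 ≤ y2 := by linarith only [a2, a3]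
  have hbig : 1000 * (n + 1) ≤ M := hw.big
  -- truncations
  set ca : ℝ → ℝ := StepFL_cl (-ρ) ρ with hca
  set cx : ℝ → ℝ := StepFL_cl y1 y2 with hcx
  have hcac : Continuous ca := StepFL_cl_continuous _ _
  have hcxc : Continuous cx := StepFL_cl_continuous _ _
  have hcam : ∀ a, -ρ ≤ ca a ∧ ca a ≤ ρ := fun a => StepFL_cl_mem (by linarith only [hρ1]) a
  have hcxm : ∀ x, y1 ≤ cx x ∧ cx x ≤ y2 := fun x => StepFL_cl_mem hy12 x
  have hcae : ∀ a, -ρ ≤ a → a ≤ ρ → ca a = a := fun a h1 h2 => StepFL_cl_eq h1 h2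
  have hcxe : ∀ x, y1 ≤ x → x ≤ y2 → cx x = x := fun x h1 h2 => StepFL_cl_eq h1 h2
  have hρ0 : 0 ≤ ρ := by linarith only [hρ1]
  -- the functions
  let f1 : ℕ → ℝ → ℂ := fun k a => KK r1 n M (yk n M k) (ca a + Y1 * I) * om n M (ca a + Y1 * I)
  let f2 : ℕ → ℝ → ℂ := fun k b => KK r2 n M (yk n M k) (ca b + Y2 * I) * om n M (ca b + Y2 * I)
  let F : ℝ → ℝ → ℝ → ℂ := fun a b x => Cc n g M (cx x + Y0 * I) *
    (KK r1 n M (cx x + Y0 * I) (ca a + Y1 * I) * KK r2 n M (cx x + Y0 * I) (ca b + Y2 * I)) *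
      (om n M (ca a + Y1 * I) * om n M (ca b + Y2 * I))
  have hre : ∀ (s t : ℝ), ((s : ℂ) + t * I).re = s := fun s t => by simp
  have him : ∀ (s t : ℝ), ((s : ℂ) + t * I).im = t := fun s t => by simp
  have hykm : ∀ k ∈ Finset.Icc k1 k2, 195 / 1000 ≤ yk n M k ∧ yk n M k ≤ 305 / 1000 := by
    intro k hk
    rw [Finset.mem_Icc] at hk
    have h1 := (hkk k hk.1 hk.2).1
    rw [abs_le] at h1
    constructor <;> linarith only [h1.1, h1.2]
  have hf1 : ∀ k ∈ Finset.Icc k1 k2, Continuous (f1 k) := by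
    intro k hk
    have h1 := hykm k hk
    refine (StepFL_contKK r1 n M hMpos continuous_const (by fun_prop) fun a => ?_).mul
      (StepFL_contOm n M hMpos (by fun_prop) fun a => ?_)
    · have h2 := hcam a
      simp only [sub_re, add_re, ofReal_re, mul_re, I_re, I_im, ofReal_im, mul_zero, mul_one,
        sub_self, add_zero]
      refine ⟨by linarith only [hρ2, h1, h2], by linarith only [hρ2, h1, h2], by linarith only [hρ2, h1, h2], by linarith only [hρ2, h1, h2]⟩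
    · rw [him]
      exact hY1p
  have hf2 : ∀ k ∈ Finset.Icc k1 k2, Continuous (f2 k) := by
    intro k hk
    have h1 := hykm k hk
    refine (StepFL_contKK r2 n M hMpos continuous_const (by fun_prop) fun a => ?_).mul
      (StepFL_contOm n M hMpos (by fun_prop) fun a => ?_)
    · have h2 := hcam a
      simp only [sub_re, add_re, ofReal_re, mul_re, I_re, I_im, ofReal_im, mul_zero, mul_one,
        sub_self, add_zero]
      refine ⟨by linarith only [hρ2, h1, h2], by linarith only [hρ2, h1, h2], by linarith only [hρ2, h1, h2], by linarith only [hρ2, h1, h2]⟩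
    · rw [him]
      exact hY2p
  have hF : Continuous fun q : (ℝ × ℝ) × ℝ => F q.1.1 q.1.2 q.2 := by
    refine ((StepFL_contCc n g M hg hgn hbig (by fun_prop) fun q => ?_).mul
      ((StepFL_contKK r1 n M hMpos (by fun_prop) (by fun_prop) fun q => ?_).mul
      (StepFL_contKK r2 n M hMpos (by fun_prop) (by fun_prop) fun q => ?_))).mul
      ((StepFL_contOm n M hMpos (by fun_prop) fun q => ?_).mul
      (StepFL_contOm n M hMpos (by fun_prop) fun q => ?_))
    · have h3 := hcxm q.2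
      rw [hre]
      constructor <;> linarith only [a1, h3, a4]
    · have h2 := hcam q.1.1
      have h3 := hcxm q.2
      simp only [sub_re, add_re, ofReal_re, mul_re, I_re, I_im, ofReal_im, mul_zero, mul_one,
        sub_self, add_zero]
      refine ⟨by linarith only [hρ2, a1, h2, h3], by linarith only [hρ2, a4, h2, h3], by linarith only [hρ2, a1, h2, h3], by linarith only [hρ2, a4, h2, h3]⟩
    · have h2 := hcam q.1.2
      have h3 := hcxm q.2
      simp only [sub_re, add_re, ofReal_re, mul_re, I_re, I_im, ofReal_im, mul_zero, mul_one,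
        sub_self, add_zero]
      refine ⟨by linarith only [hρ2, a1, h2, h3], by linarith only [hρ2, a4, h2, h3], by linarith only [hρ2, a1, h2, h3], by linarith only [hρ2, a4, h2, h3]⟩
    · rw [him]
      exact hY1p
    · rw [him]
      exact hY2p
  have hFL1 : ∀ k, FL r1 n M (yk n M k) ρ Y1 = ∫ a in (-ρ)..ρ, f1 k a := by
    intro k
    unfold FL
    apply intervalIntegral.integral_congr
    intro a ha
    rw [Set.uIcc_of_le (by linarith only [hρ1])] at ha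
    simp only [f1]
    rw [hcae a ha.1 ha.2]
  have hFL2 : ∀ k, FL r2 n M (yk n M k) ρ Y2 = ∫ a in (-ρ)..ρ, f2 k a := by
    intro k
    unfold FL
    apply intervalIntegral.integral_congr
    intro a ha
    rw [Set.uIcc_of_le (by linarith only [hρ1])] at ha
    simp only [f2]
    rw [hcae a ha.1 ha.2]
  have hMain : MainInt r1 r2 n g M Y0 Y1 Y2 y1 y2 ρ =
      ∫ a in (-ρ)..ρ, ∫ b in (-ρ)..ρ, ∫ x in y1..y2, F a b x := by
    unfold MainInt
    apply intervalIntegral.integral_congr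
    intro a ha
    rw [Set.uIcc_of_le (by linarith only [hρ1])] at ha
    apply intervalIntegral.integral_congr
    intro b hb
    rw [Set.uIcc_of_le (by linarith only [hρ1])] at hb
    apply intervalIntegral.integral_congr
    intro x hx
    rw [Set.uIcc_of_le hy12] at hx
    simp only [F]
    rw [hcae a ha.1 ha.2, hcae b hb.1 hb.2, hcxe x hx.1 hx.2]
  let E : ℝ → ℝ → ℂ := fun a b => ∑ k ∈ Finset.Icc k1 k2,
    Cc n g M (yk n M k) * (f1 k a * f2 k b) - M * ∫ x in y1..y2, F a b x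
  have hgoal : ∑ k ∈ Finset.Icc k1 k2, Cc n g M (yk n M k) * (FL r1 n M (yk n M k) ρ Y1 *
      FL r2 n M (yk n M k) ρ Y2) - M * MainInt r1 r2 n g M Y0 Y1 Y2 y1 y2 ρ =
      ∫ a in (-ρ)..ρ, ∫ b in (-ρ)..ρ, E a b := by
    rw [hMain]
    simp only [hFL1, hFL2]
    exact StepFL_swap ρ y1 y2 (Finset.Icc k1 k2) (fun k => Cc n g M (yk n M k)) f1 f2 F M hf1 hf2 hF
  rw [hgoal, pow_one]
  -- the bound for the integrand
  have hE : ∀ a b, ‖E a b‖ ≤ 16 * (C0 * C1 * C2) * M * Real.exp (M * (H - 1 / 500)) := by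
    intro a b
    have hEG : E a b = (∑ k ∈ Finset.Icc k1 k2, (Cc n g M (yk n M k) *
        (KK r1 n M (yk n M k) (ca a + Y1 * I) * KK r2 n M (yk n M k) (ca b + Y2 * I))) -
        M * ∫ x in y1..y2, (Cc n g M (x + Y0 * I) * (KK r1 n M (x + Y0 * I) (ca a + Y1 * I) *
          KK r2 n M (x + Y0 * I) (ca b + Y2 * I)))) *
          (om n M (ca a + Y1 * I) * om n M (ca b + Y2 * I)) := by
      simp only [E]
      have e1 : ∫ x in y1..y2, F a b x = (∫ x in y1..y2, (Cc n g M (x + Y0 * I) *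
          (KK r1 n M (x + Y0 * I) (ca a + Y1 * I) *
          KK r2 n M (x + Y0 * I) (ca b + Y2 * I)))) *
          (om n M (ca a + Y1 * I) * om n M (ca b + Y2 * I)) := by
        rw [← intervalIntegral.integral_mul_const]
        apply intervalIntegral.integral_congr
        intro x hx
        rw [Set.uIcc_of_le hy12] at hx
        simp only [F]
        rw [hcxe x hx.1 hx.2]
      rw [e1, sub_mul, Finset.sum_mul, mul_assoc]
      congr 1
      refine Finset.sum_congr rfl fun k _ => ?_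
      simp only [f1, f2]
      ring
    rw [hEG]
    have hαm := hcam a
    have hβm := hcam b
    exact StepFL_core r1 r2 hc.h1 hc.h2 n g M k1 k2 C0 C1 C2 H Y0 Y1 Y2 y1 y2 hC0 hC1 hC2 hg hgn
      hMr hbig hw.hk (hCc M hbig) (hK1 M (by omega)) (hK2 M (by omega)) hH lyi hY1p hY2p lv lw
      lv' lw' hMY1 hMY2 hy1 hy2 a1 a2 a3 a4 (ca a + Y1 * I) (ca b + Y2 * I) (hre _ _) (him _ _)
      (hre _ _) (him _ _) (by rw [abs_le]; constructor <;> linarith only [hρ2, hαm])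
      (by rw [abs_le]; constructor <;> linarith only [hρ2, hβm])
  set Bd : ℝ := 16 * (C0 * C1 * C2) * M * Real.exp (M * (H - 1 / 500)) with hBd
  have hBd0 : 0 ≤ Bd := by positivity
  have h1 : ∀ a, ‖∫ b in (-ρ)..ρ, E a b‖ ≤ Bd * |ρ - -ρ| := fun a =>
    intervalIntegral.norm_integral_le_of_norm_le_const fun b _ => hE a b
  have h2 : ‖∫ a in (-ρ)..ρ, ∫ b in (-ρ)..ρ, E a b‖ ≤ Bd * |ρ - -ρ| * |ρ - -ρ| :=
    intervalIntegral.norm_integral_le_of_norm_le_const fun a _ => h1 a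
  refine h2.trans ?_
  have h3 : |ρ - -ρ| ≤ 1 := by
    rw [abs_of_nonneg (by linarith only [hρ1])]
    linarith only [hρ2]
  have h4 : 0 ≤ |ρ - -ρ| := abs_nonneg _
  calc Bd * |ρ - -ρ| * |ρ - -ρ| ≤ Bd * 1 * 1 := by gcongr
    _ = Bd := by ring

end Pool.Agent.H63.VC3
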