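import Pool.Agent.H63.VC.Asym
import Pool.Agent.H63.VC3.StepFL
import Pool.Agent.H63.VC3.StepPP

/-! # Reduction of the sum to the main integral -/

namespace Pool.Agent.H63.VC3

open Pool.Agent.H63.VC Complex

theorem Reduce_mono {C C' : ℝ} {D D' : ℕ} {M : ℕ} {E f : ℝ} (hM : 1 ≤ M) (hC0 : 0 ≤ C)
    (hC : C ≤ C') (hD : D ≤ D') (hE : 0 ≤ E) (h : f ≤ C * (M : ℝ) ^ D * E) :
    f ≤ C' * (M : ℝ) ^ D' * E := by
  have hM1 : (1 : ℝ) ≤ M := by exact_mod_cast hM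
  have h1 : (M : ℝ) ^ D ≤ (M : ℝ) ^ D' := pow_le_pow_right₀ hM1 hD
  have h2 : C * (M : ℝ) ^ D ≤ C' * (M : ℝ) ^ D' := by
    calc C * (M : ℝ) ^ D ≤ C' * (M : ℝ) ^ D := mul_le_mul_of_nonneg_right hC (by positivity)
      _ ≤ _ := mul_le_mul_of_nonneg_left h1 (hC0.trans hC)
  exact h.trans (mul_le_mul_of_nonneg_right h2 hE)

theorem Reduce_P (S M X : ℝ) (hS : 0 < S) (hM : 1 ≤ M) (N P a : ℂ) (ha : ‖a‖ = 1)
    (hN : S * ‖N‖ ≤ X) (hR : S * ‖N + a * (S * M) * P‖ ≤ X) : S ^ 2 * ‖P‖ ≤ 2 * X := by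
  have h1 : ‖a * (S * M) * P‖ ≤ ‖N + a * (S * M) * P‖ + ‖N‖ := by
    have h2 : a * (S * M) * P = (N + a * (S * M) * P) - N := by ring
    calc ‖a * (S * M) * P‖ = ‖(N + a * (S * M) * P) - N‖ := by rw [← h2]
      _ ≤ _ := norm_sub_le _ _
  have h3 : ‖a * ((S : ℂ) * M) * P‖ = S * M * ‖P‖ := by
    rw [norm_mul, norm_mul, norm_mul, ha, one_mul, Complex.norm_real, Complex.norm_real,
      Real.norm_of_nonneg hS.le, Real.norm_of_nonneg (by linarith)]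
  rw [h3] at h1
  have h4 : S * (S * M * ‖P‖) ≤ 2 * X := by
    have := mul_le_mul_of_nonneg_left h1 hS.le
    rw [mul_add] at this
    linarith
  have h5 : S ^ 2 * ‖P‖ ≤ S * (S * M * ‖P‖) := by
    have h6 : 0 ≤ S ^ 2 * ‖P‖ := by positivity
    nlinarith
  linarith

theorem Reduce_alg (T S M B X Y Z : ℝ) (hT : 0 ≤ T) (hS : 0 < S) (hM : 1 ≤ M)
    (hB : T ≤ B * S ^ 2) (N1 N2 P1 P2 F1 F2 a b : ℂ) (ha : ‖a‖ = 1) (hb : ‖b‖ = 1)
    (hN1 : S * ‖N1‖ ≤ X) (hN2 : S * ‖N2‖ ≤ X)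
    (hR1 : S * ‖N1 + a * (S * M) * P1‖ ≤ Y) (hR2 : S * ‖N2 + b * (S * M) * P2‖ ≤ Y)
    (hZ1 : S ^ 2 * ‖P1 - F1‖ ≤ Z) (hZ2 : S ^ 2 * ‖P2 - F2‖ ≤ Z) (hYZ : Y ≤ Z) (hZX : Z ≤ X) :
    ‖(T : ℂ) * (N1 * N2) - a * b * (T * (S * M) ^ 2) * (F1 * F2)‖ ≤ 8 * B * M ^ 2 * (X * Z) := by
  have hB0 : 0 ≤ B := by
    by_contra hcon
    push Not at hcon
    have : B * S ^ 2 < 0 := mul_neg_of_neg_of_pos hcon (by positivity)
    linarith
  have hp1 := Reduce_P S M X hS hM N1 P1 a ha hN1 (hR1.trans (hYZ.trans hZX))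
  have hp2 := Reduce_P S M X hS hM N2 P2 b hb hN2 (hR2.trans (hYZ.trans hZX))
  obtain ⟨R1, hR1d⟩ : ∃ R, R = N1 + a * (S * M) * P1 := ⟨_, rfl⟩
  obtain ⟨R2, hR2d⟩ : ∃ R, R = N2 + b * (S * M) * P2 := ⟨_, rfl⟩
  obtain ⟨G1, hG1d⟩ : ∃ R, R = P1 - F1 := ⟨_, rfl⟩
  obtain ⟨G2, hG2d⟩ : ∃ R, R = P2 - F2 := ⟨_, rfl⟩
  rw [← hR1d] at hR1
  rw [← hR2d] at hR2
  rw [← hG1d] at hZ1
  rw [← hG2d] at hZ2
  have hid : (T : ℂ) * (N1 * N2) - a * b * (T * (S * M) ^ 2) * (F1 * F2) =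
      T * (N1 * R2 + R1 * N2 - R1 * R2) +
        a * b * (T * (S * M) ^ 2) * (P1 * G2 + G1 * P2 - G1 * G2) := by
    rw [hR1d, hR2d, hG1d, hG2d]
    ring
  have hY0 : 0 ≤ Y := le_trans (by positivity) hR1
  have hZ0 : 0 ≤ Z := hY0.trans hYZ
  have hX0 : 0 ≤ X := hZ0.trans hZX
  rw [hid]
  have hn1 : ‖(T : ℂ) * (N1 * R2 + R1 * N2 - R1 * R2)‖ ≤ 3 * B * (X * Z) := by
    have h1 : ‖N1 * R2 + R1 * N2 - R1 * R2‖ ≤ ‖N1‖ * ‖R2‖ + ‖R1‖ * ‖N2‖ + ‖R1‖ * ‖R2‖ := by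
      calc ‖N1 * R2 + R1 * N2 - R1 * R2‖ ≤ ‖N1 * R2 + R1 * N2‖ + ‖R1 * R2‖ := norm_sub_le _ _
        _ ≤ ‖N1 * R2‖ + ‖R1 * N2‖ + ‖R1 * R2‖ := by gcongr; exact norm_add_le _ _
        _ = _ := by rw [norm_mul, norm_mul, norm_mul]
    have h2 : S ^ 2 * (‖N1‖ * ‖R2‖ + ‖R1‖ * ‖N2‖ + ‖R1‖ * ‖R2‖) ≤ 3 * (X * Z) := by
      have e : S ^ 2 * (‖N1‖ * ‖R2‖ + ‖R1‖ * ‖N2‖ + ‖R1‖ * ‖R2‖) =
        (S * ‖N1‖) * (S * ‖R2‖) + (S * ‖R1‖) * (S * ‖N2‖) + (S * ‖R1‖) * (S * ‖R2‖) := by ring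
      rw [e]
      have q1 : (S * ‖N1‖) * (S * ‖R2‖) ≤ X * Z :=
        mul_le_mul hN1 (hR2.trans hYZ) (by positivity) hX0
      have q2 : (S * ‖R1‖) * (S * ‖N2‖) ≤ Z * X :=
        mul_le_mul (hR1.trans hYZ) hN2 (by positivity) hZ0
      have q3 : (S * ‖R1‖) * (S * ‖R2‖) ≤ X * Z :=
        mul_le_mul (hR1.trans (hYZ.trans hZX)) (hR2.trans hYZ) (by positivity) hX0
      linarith
    calc ‖(T : ℂ) * (N1 * R2 + R1 * N2 - R1 * R2)‖
        = T * ‖N1 * R2 + R1 * N2 - R1 * R2‖ := by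
          rw [norm_mul, Complex.norm_real, Real.norm_of_nonneg hT]
      _ ≤ T * (‖N1‖ * ‖R2‖ + ‖R1‖ * ‖N2‖ + ‖R1‖ * ‖R2‖) := mul_le_mul_of_nonneg_left h1 hT
      _ ≤ (B * S ^ 2) * (‖N1‖ * ‖R2‖ + ‖R1‖ * ‖N2‖ + ‖R1‖ * ‖R2‖) :=
          mul_le_mul_of_nonneg_right hB (by positivity)
      _ = B * (S ^ 2 * (‖N1‖ * ‖R2‖ + ‖R1‖ * ‖N2‖ + ‖R1‖ * ‖R2‖)) := by ring
      _ ≤ B * (3 * (X * Z)) := mul_le_mul_of_nonneg_left h2 hB0
      _ = _ := by ring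
  have hn2 : ‖a * b * (T * (S * M) ^ 2) * (P1 * G2 + G1 * P2 - G1 * G2)‖ ≤
      5 * B * M ^ 2 * (X * Z) := by
    have h1 : ‖P1 * G2 + G1 * P2 - G1 * G2‖ ≤ ‖P1‖ * ‖G2‖ + ‖G1‖ * ‖P2‖ + ‖G1‖ * ‖G2‖ := by
      calc ‖P1 * G2 + G1 * P2 - G1 * G2‖ ≤ ‖P1 * G2 + G1 * P2‖ + ‖G1 * G2‖ := norm_sub_le _ _
        _ ≤ ‖P1 * G2‖ + ‖G1 * P2‖ + ‖G1 * G2‖ := by gcongr; exact norm_add_le _ _
        _ = _ := by rw [norm_mul, norm_mul, norm_mul]
    have h2 : S ^ 4 * (‖P1‖ * ‖G2‖ + ‖G1‖ * ‖P2‖ + ‖G1‖ * ‖G2‖) ≤ 5 * (X * Z) := by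
      have e : S ^ 4 * (‖P1‖ * ‖G2‖ + ‖G1‖ * ‖P2‖ + ‖G1‖ * ‖G2‖) =
        (S ^ 2 * ‖P1‖) * (S ^ 2 * ‖G2‖) + (S ^ 2 * ‖G1‖) * (S ^ 2 * ‖P2‖) +
          (S ^ 2 * ‖G1‖) * (S ^ 2 * ‖G2‖) := by ring
      rw [e]
      have q1 : (S ^ 2 * ‖P1‖) * (S ^ 2 * ‖G2‖) ≤ 2 * X * Z :=
        mul_le_mul hp1 hZ2 (by positivity) (by positivity)
      have q2 : (S ^ 2 * ‖G1‖) * (S ^ 2 * ‖P2‖) ≤ Z * (2 * X) :=
        mul_le_mul hZ1 hp2 (by positivity) hZ0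
      have q3 : (S ^ 2 * ‖G1‖) * (S ^ 2 * ‖G2‖) ≤ X * Z :=
        mul_le_mul (hZ1.trans hZX) hZ2 (by positivity) hX0
      linarith
    have h0 : ‖a * b * ((T : ℂ) * ((S : ℂ) * M) ^ 2)‖ = T * (S * M) ^ 2 := by
      rw [norm_mul, norm_mul, ha, hb, norm_mul, norm_pow, norm_mul, Complex.norm_real,
        Complex.norm_real, Complex.norm_real, Real.norm_of_nonneg hS.le,
        Real.norm_of_nonneg (by linarith : (0 : ℝ) ≤ M), Real.norm_of_nonneg hT]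
      ring
    calc ‖a * b * ((T : ℂ) * ((S : ℂ) * M) ^ 2) * (P1 * G2 + G1 * P2 - G1 * G2)‖
        = T * (S * M) ^ 2 * ‖P1 * G2 + G1 * P2 - G1 * G2‖ := by rw [norm_mul, h0]
      _ ≤ T * (S * M) ^ 2 * (‖P1‖ * ‖G2‖ + ‖G1‖ * ‖P2‖ + ‖G1‖ * ‖G2‖) :=
          mul_le_mul_of_nonneg_left h1 (by positivity)
      _ = T * ((S * M) ^ 2 * (‖P1‖ * ‖G2‖ + ‖G1‖ * ‖P2‖ + ‖G1‖ * ‖G2‖)) := by ring
      _ ≤ (B * S ^ 2) * ((S * M) ^ 2 * (‖P1‖ * ‖G2‖ + ‖G1‖ * ‖P2‖ + ‖G1‖ * ‖G2‖)) :=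
          mul_le_mul_of_nonneg_right hB (by positivity)
      _ = B * M ^ 2 * (S ^ 4 * (‖P1‖ * ‖G2‖ + ‖G1‖ * ‖P2‖ + ‖G1‖ * ‖G2‖)) := by ring
      _ ≤ B * M ^ 2 * (5 * (X * Z)) := mul_le_mul_of_nonneg_left h2 (by positivity)
      _ = _ := by ring
  have hM2 : 1 ≤ M ^ 2 := by nlinarith only [hM]
  have hXZ : 0 ≤ B * (X * Z) := by positivity
  calc _ ≤ 3 * B * (X * Z) + 5 * B * M ^ 2 * (X * Z) := (norm_add_le _ _).trans (add_le_add hn1 hn2)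
    _ ≤ 3 * (B * (X * Z)) * M ^ 2 + 5 * B * M ^ 2 * (X * Z) := by nlinarith only [hM2, hXZ]
    _ = _ := by ring

theorem Reduce_Dg (n g M : ℕ) (hn : 2 ≤ n) (hg : 1 ≤ g) (hgn : g ≤ n - 1) (hM : n ≤ M) :
    0 < Dg n g M ∧ 1 / Dg n g M ≤ (M : ℝ) ^ (2 * n - 4) := by
  have hM0 : (0 : ℝ) < M := by exact_mod_cast (by omega : 0 < M)
  have p1 : 0 < S M (g - 1) := S_pos (by omega)
  have p2 : 0 < S M (n - g - 1) := S_pos (by omega)
  have p3 : 0 < S M (n - 2) := S_pos (by omega)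
  have q1 := S_ge M (g - 1) (by omega)
  have q2 := S_ge M (n - g - 1) (by omega)
  have q3 := S_ge M (n - 2) (by omega)
  have hD : 0 < Dg n g M := by
    unfold Dg
    positivity
  refine ⟨hD, ?_⟩
  have h1 : (1 / (M : ℝ)) ^ (2 * n - 4) ≤ Dg n g M := by
    unfold Dg
    calc (1 / (M : ℝ)) ^ (2 * n - 4)
        = (1 / (M : ℝ)) ^ (g - 1) * (1 / (M : ℝ)) ^ (n - g - 1) * (1 / (M : ℝ)) ^ (n - 2) := by
          rw [← pow_add, ← pow_add]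
          congr 1
          omega
      _ ≤ S M (g - 1) * S M (n - g - 1) * S M (n - 2) := by
          gcongr
  rw [div_le_iff₀ hD]
  calc (1 : ℝ) = (M : ℝ) ^ (2 * n - 4) * (1 / (M : ℝ)) ^ (2 * n - 4) := by
        rw [← mul_pow, mul_one_div_cancel hM0.ne', one_pow]
    _ ≤ _ := mul_le_mul_of_nonneg_left h1 (by positivity)

theorem JN_main (r1 r2 : ℤ) (y v w : ℂ) (hc : Crit r1 r2 y v w) (n g : ℕ) (hn : 2 ≤ n)
    (hg : 1 ≤ g) (hgn : g ≤ n - 1) : ∃ C : ℝ, 0 < C ∧ ∃ D M0 : ℕ, ∀ M k1 k2 l1 l2 : ℕ,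
    M0 ≤ M → Win n M k1 k2 l1 l2 →
    ‖JN r1 r2 n g M - c1 n M ^ (r1 + r2) * ((M : ℂ) ^ 3 / Dg n g M) *
      MainInt r1 r2 n g M y.im v.im w.im
      ((k1 + bt n) / M - 1 / 2) ((k2 + 1 + bt n) / M - 1 / 2) (rho n M l2)‖ ≤
      C * (M : ℝ) ^ D * Real.exp (M * ((Vf r1 r2 y v w).re - 1 / 500)) := by
  have hr1 : r1 ≠ 0 := by
    rintro rfl
    have := hc.h1
    simp at this
  have hr2 : r2 ≠ 0 := by
    rintro rfl
    have := hc.h2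
    simp at this
  obtain ⟨-, -, -, -, hv, hw, -, -⟩ := crit_loc r1 r2 y v w hc
  have hH := H_lower r1 r2 y v w hc
  obtain ⟨H, hHd⟩ : ∃ H, H = (Vf r1 r2 y v w).re := ⟨_, rfl⟩
  rw [← hHd] at hH ⊢
  obtain ⟨C1, hC1, D1, hN1⟩ := NN_bound r1 hr1 n hn
  obtain ⟨C2, hC2, D2, hN2⟩ := NN_bound r2 hr2 n hn
  obtain ⟨C3, hC3, D3, hR1⟩ := NN_PP r1 hr1 n hn v.im hc.imv
  obtain ⟨C4, hC4, D4, hR2⟩ := NN_PP r2 hr2 n hn w.im hc.imw
  obtain ⟨C5, hC5, D5, hZ1⟩ := PP_FL r1 hc.h1 n hn v.im hc.imv hv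
  obtain ⟨C6, hC6, D6, hZ2⟩ := PP_FL r2 hc.h2 n hn w.im hc.imw hw
  obtain ⟨C7, hC7, D7, M0, hF⟩ := FL_main r1 r2 y v w hc n g hn hg hgn
  rw [← hHd] at hF
  obtain ⟨C, hCd⟩ : ∃ C, C = C1 + C2 + C3 + C4 + C5 + C6 := ⟨_, rfl⟩
  obtain ⟨D, hDd⟩ : ∃ D, D = D1 + D2 + D3 + D4 + D5 + D6 := ⟨_, rfl⟩
  have hC : 0 < C := by rw [hCd]; positivity
  refine ⟨18 * 2 ^ (2 * n - 4) * C ^ 2 + C7, by positivity, 2 * n + 2 * D + D7 + 3, M0,
    fun M k1 k2 l1 l2 hM0 hwin => ?_⟩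
  obtain ⟨f1, f2, f3, f4, f5, f6, f7⟩ := win_facts n M k1 k2 l1 l2 hn hwin
  have hM : 2 ≤ M := by have := hwin.big; omega
  have hnM : n ≤ M := by have := hwin.big; omega
  have hM1 : (1 : ℝ) ≤ M := by exact_mod_cast (by omega : 1 ≤ M)
  obtain ⟨hDg, hDg'⟩ := Reduce_Dg n g M hn hg hgn hnM
  obtain ⟨E, hE⟩ : ∃ E, E = Real.exp (M * (H - 1 / 500)) := ⟨_, rfl⟩
  have hE0 : 0 < E := by rw [hE]; exact Real.exp_pos _
  rw [← hE]
  have hcn : ‖c1 n M‖ = 1 := norm_c1 n M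
  have hcz : ∀ r : ℤ, ‖c1 n M ^ r‖ = 1 := fun r => by rw [norm_zpow, hcn, one_zpow]
  have hc0 : c1 n M ≠ 0 := by
    intro h
    rw [h, norm_zero] at hcn
    exact zero_ne_one hcn
  have hsub : Finset.Icc k1 k2 ⊆ Finset.range (M - g + 1) := by
    intro k hk
    rw [Finset.mem_Icc] at hk
    rw [Finset.mem_range]
    omega
  have hcardW : ((Finset.Icc k1 k2).card : ℝ) ≤ M := by
    rw [Nat.card_Icc]
    exact_mod_cast (by omega : k2 + 1 - k1 ≤ M)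
  have hcardR : ((Finset.range (M - g + 1) \ Finset.Icc k1 k2).card : ℝ) ≤ M := by
    have h1 := Finset.card_le_card
      (Finset.sdiff_subset (s := Finset.range (M - g + 1)) (t := Finset.Icc k1 k2))
    rw [Finset.card_range] at h1
    exact_mod_cast (by omega : (Finset.range (M - g + 1) \ Finset.Icc k1 k2).card ≤ M)
  -- terms outside of the window
  have hout : ∀ k ∈ Finset.range (M - g + 1) \ Finset.Icc k1 k2,
      ‖(T M n g k : ℂ) * (NN r1 n M k * NN r2 n M k)‖ ≤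
        2 ^ (2 * n - 4) * C ^ 2 * (M : ℝ) ^ (2 * n - 4 + 2 * D) * E := by
    intro k hk
    rw [Finset.mem_sdiff, Finset.mem_range, Finset.mem_Icc] at hk
    by_cases hkn : k + n ≤ M + 1
    · have h53 := f4 k (by omega)
      have hS : 0 < S M k := S_pos (by omega)
      have b1 := Reduce_mono (C' := C) (D' := D) (by omega : 1 ≤ M) hC1.le (by rw [hCd]; linarith only [hC2, hC3, hC4, hC5, hC6])
        (by omega) (Real.exp_pos _).le ((hN1 M k hM hkn).2 h53)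
      have b2 := Reduce_mono (C' := C) (D' := D) (by omega : 1 ≤ M) hC2.le (by rw [hCd]; linarith)
        (by omega) (Real.exp_pos _).le ((hN2 M k hM hkn).2 h53)
      have hT := T_le M n g k hg hgn hn hkn hnM
      have hT0 := T_nonneg M n g k hg hgn hn hnM
      have hexp : Real.exp (M * (4 * Fr (3 / 4) - 17 / 1000)) *
          Real.exp (M * (4 * Fr (3 / 4) - 17 / 1000)) ≤ E := by
        rw [← Real.exp_add, hE, ← mul_add]
        apply Real.exp_le_exp.2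
        apply mul_le_mul_of_nonneg_left _ (by linarith)
        linarith
      calc ‖(T M n g k : ℂ) * (NN r1 n M k * NN r2 n M k)‖
          = T M n g k * (‖NN r1 n M k‖ * ‖NN r2 n M k‖) := by
            rw [norm_mul, norm_mul, Complex.norm_real, Real.norm_of_nonneg hT0]
        _ ≤ ((2 * (M : ℝ)) ^ (2 * n - 4) * S M k ^ 2) * (‖NN r1 n M k‖ * ‖NN r2 n M k‖) :=
            mul_le_mul_of_nonneg_right hT (by positivity)
        _ = (2 * (M : ℝ)) ^ (2 * n - 4) * ((S M k * ‖NN r1 n M k‖) * (S M k * ‖NN r2 n M k‖)) := by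
            ring
        _ ≤ (2 * (M : ℝ)) ^ (2 * n - 4) *
            ((C * (M : ℝ) ^ D * Real.exp (M * (4 * Fr (3 / 4) - 17 / 1000))) *
            (C * (M : ℝ) ^ D * Real.exp (M * (4 * Fr (3 / 4) - 17 / 1000)))) := by
            refine mul_le_mul_of_nonneg_left ?_ (by positivity)
            exact mul_le_mul b1 b2 (by positivity) (by positivity)
        _ = 2 ^ (2 * n - 4) * C ^ 2 * (M : ℝ) ^ (2 * n - 4 + 2 * D) *
            (Real.exp (M * (4 * Fr (3 / 4) - 17 / 1000)) *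
            Real.exp (M * (4 * Fr (3 / 4) - 17 / 1000))) := by
            rw [mul_pow, pow_add, pow_mul']
            ring
        _ ≤ _ := mul_le_mul_of_nonneg_left hexp (by positivity)
    · rw [T_eq_zero M n g k hn hnM (by omega)]
      simp only [Complex.ofReal_zero, zero_mul, norm_zero]
      positivity
  -- terms inside the window
  have hin : ∀ k ∈ Finset.Icc k1 k2,
      ‖(T M n g k : ℂ) * (NN r1 n M k * NN r2 n M k) -
        c1 n M ^ (r1 + r2) * ((M : ℂ) ^ 2 / Dg n g M) * (Cc n g M (yk n M k) *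
          (FL r1 n M (yk n M k) (rho n M l2) v.im * FL r2 n M (yk n M k) (rho n M l2) w.im))‖ ≤
        8 * 2 ^ (2 * n - 4) * C ^ 2 * (M : ℝ) ^ (2 * n - 4 + 2 + 2 * D) * E := by
    intro k hk
    rw [Finset.mem_Icc] at hk
    have hkn : k + n ≤ M + 1 := by omega
    have hS : 0 < S M k := S_pos (by omega)
    have hT := T_le M n g k hg hgn hn hkn hnM
    have hT0 := T_nonneg M n g k hg hgn hn hnM
    have b1 := Reduce_mono (C' := C) (D' := D) (by omega : 1 ≤ M) hC1.le (by rw [hCd]; linarith)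
      (by omega) (Real.exp_pos _).le (hN1 M k hM hkn).1
    have b2 := Reduce_mono (C' := C) (D' := D) (by omega : 1 ≤ M) hC2.le (by rw [hCd]; linarith)
      (by omega) (Real.exp_pos _).le (hN2 M k hM hkn).1
    have b3 := Reduce_mono (C' := C) (D' := D) (by omega : 1 ≤ M) hC3.le (by rw [hCd]; linarith)
      (by omega) (Real.exp_pos _).le (hR1 M k1 k2 l1 l2 k hwin hk.1 hk.2)
    have b4 := Reduce_mono (C' := C) (D' := D) (by omega : 1 ≤ M) hC4.le (by rw [hCd]; linarith)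
      (by omega) (Real.exp_pos _).le (hR2 M k1 k2 l1 l2 k hwin hk.1 hk.2)
    have b5 := Reduce_mono (C' := C) (D' := D) (by omega : 1 ≤ M) hC5.le (by rw [hCd]; linarith only [hC1, hC2, hC3, hC4, hC6])
      (by omega) (Real.exp_pos _).le (hZ1 M k1 k2 l1 l2 k hwin hk.1 hk.2)
    have b6 := Reduce_mono (C' := C) (D' := D) (by omega : 1 ≤ M) hC6.le (by rw [hCd]; linarith only [hC1, hC2, hC3, hC4, hC5])
      (by omega) (Real.exp_pos _).le (hZ2 M k1 k2 l1 l2 k hwin hk.1 hk.2)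
    have hYZ : C * (M : ℝ) ^ D * Real.exp (M * (4 * Fr (3 / 4) - 40 / 1000)) ≤
        C * (M : ℝ) ^ D * Real.exp (M * (4 * Fr (3 / 4) - 20 / 1000)) := by
      refine mul_le_mul_of_nonneg_left (Real.exp_le_exp.2 ?_) (by positivity)
      apply mul_le_mul_of_nonneg_left _ (by linarith only [])
      linarith only []
    have hZX : C * (M : ℝ) ^ D * Real.exp (M * (4 * Fr (3 / 4) - 20 / 1000)) ≤
        C * (M : ℝ) ^ D * Real.exp (M * (4 * Fr (3 / 4))) := by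
      refine mul_le_mul_of_nonneg_left (Real.exp_le_exp.2 ?_) (by positivity)
      apply mul_le_mul_of_nonneg_left _ (by linarith only [])
      linarith only []
    have key := Reduce_alg (T M n g k) (S M k) M ((2 * (M : ℝ)) ^ (2 * n - 4)) _ _ _ hT0 hS hM1 hT
      (NN r1 n M k) (NN r2 n M k) (PP r1 n M (yk n M k) (rho n M l2) v.im)
      (PP r2 n M (yk n M k) (rho n M l2) w.im) (FL r1 n M (yk n M k) (rho n M l2) v.im)
      (FL r2 n M (yk n M k) (rho n M l2) w.im) (c1 n M ^ r1) (c1 n M ^ r2) (hcz r1) (hcz r2)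
      b1 b2 (by push_cast at b3 ⊢; exact b3) (by push_cast at b4 ⊢; exact b4) b5 b6 hYZ hZX
    have hTC := T_Cc n g M k hg hgn hkn hn
    have hTC2 : c1 n M ^ r1 * c1 n M ^ r2 * ((T M n g k : ℂ) * ((S M k : ℂ) * (M : ℝ)) ^ 2) *
        (FL r1 n M (yk n M k) (rho n M l2) v.im * FL r2 n M (yk n M k) (rho n M l2) w.im) =
        c1 n M ^ (r1 + r2) * ((M : ℂ) ^ 2 / Dg n g M) * (Cc n g M (yk n M k) *
          (FL r1 n M (yk n M k) (rho n M l2) v.im * FL r2 n M (yk n M k) (rho n M l2) w.im)) := by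
      rw [zpow_add₀ hc0]
      have e1 : (T M n g k : ℂ) * ((S M k : ℂ) * (M : ℝ)) ^ 2 =
          (M : ℂ) ^ 2 / Dg n g M * Cc n g M (yk n M k) := by
        calc (T M n g k : ℂ) * ((S M k : ℂ) * (M : ℝ)) ^ 2
            = (M : ℂ) ^ 2 * ((T M n g k : ℂ) * (S M k : ℂ) ^ 2) := by push_cast; ring
          _ = _ := by
            rw [hTC]
            unfold Dg
            push_cast
            ring
      rw [e1]
      ring
    rw [hTC2] at key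
    refine key.trans ?_
    have hexp : Real.exp (M * (4 * Fr (3 / 4))) * Real.exp (M * (4 * Fr (3 / 4) - 20 / 1000)) ≤ E := by
      rw [← Real.exp_add, hE, ← mul_add]
      apply Real.exp_le_exp.2
      apply mul_le_mul_of_nonneg_left _ (by linarith only [])
      linarith only [hH]
    calc 8 * (2 * (M : ℝ)) ^ (2 * n - 4) * (M : ℝ) ^ 2 *
          (C * (M : ℝ) ^ D * Real.exp (M * (4 * Fr (3 / 4))) *
          (C * (M : ℝ) ^ D * Real.exp (M * (4 * Fr (3 / 4) - 20 / 1000))))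
        = 8 * 2 ^ (2 * n - 4) * C ^ 2 * (M : ℝ) ^ (2 * n - 4 + 2 + 2 * D) *
          (Real.exp (M * (4 * Fr (3 / 4))) * Real.exp (M * (4 * Fr (3 / 4) - 20 / 1000))) := by
          rw [mul_pow, pow_add, pow_add, pow_mul' _ 2 D]
          ring
      _ ≤ _ := mul_le_mul_of_nonneg_left hexp (by positivity)
  have hFm := hF M k1 k2 l1 l2 hM0 hwin
  rw [← hE] at hFm
  obtain ⟨MI, hMI⟩ : ∃ MI, MI = MainInt r1 r2 n g M y.im v.im w.im
      ((k1 + bt n) / M - 1 / 2) ((k2 + 1 + bt n) / M - 1 / 2) (rho n M l2) := ⟨_, rfl⟩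
  rw [← hMI] at hFm ⊢
  have hsplit : JN r1 r2 n g M - c1 n M ^ (r1 + r2) * ((M : ℂ) ^ 3 / Dg n g M) * MI =
      ∑ k ∈ Finset.range (M - g + 1) \ Finset.Icc k1 k2,
        (T M n g k : ℂ) * (NN r1 n M k * NN r2 n M k) +
      ∑ k ∈ Finset.Icc k1 k2, ((T M n g k : ℂ) * (NN r1 n M k * NN r2 n M k) -
        c1 n M ^ (r1 + r2) * ((M : ℂ) ^ 2 / Dg n g M) * (Cc n g M (yk n M k) *
          (FL r1 n M (yk n M k) (rho n M l2) v.im * FL r2 n M (yk n M k) (rho n M l2) w.im))) +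
      c1 n M ^ (r1 + r2) * ((M : ℂ) ^ 2 / Dg n g M) *
        (∑ k ∈ Finset.Icc k1 k2, Cc n g M (yk n M k) *
          (FL r1 n M (yk n M k) (rho n M l2) v.im * FL r2 n M (yk n M k) (rho n M l2) w.im) -
            M * MI) := by
    unfold JN
    rw [← Finset.sum_sdiff hsub, Finset.sum_sub_distrib, ← Finset.mul_sum]
    ring
  rw [hsplit]
  have t1 : ‖∑ k ∈ Finset.range (M - g + 1) \ Finset.Icc k1 k2,
        (T M n g k : ℂ) * (NN r1 n M k * NN r2 n M k)‖ ≤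
      2 ^ (2 * n - 4) * C ^ 2 * (M : ℝ) ^ (2 * n + 2 * D + D7 + 3) * E := by
    calc _ ≤ ∑ k ∈ Finset.range (M - g + 1) \ Finset.Icc k1 k2,
          2 ^ (2 * n - 4) * C ^ 2 * (M : ℝ) ^ (2 * n - 4 + 2 * D) * E :=
          norm_sum_le_of_le _ hout
      _ = ((Finset.range (M - g + 1) \ Finset.Icc k1 k2).card : ℝ) *
          (2 ^ (2 * n - 4) * C ^ 2 * (M : ℝ) ^ (2 * n - 4 + 2 * D) * E) := by
          rw [Finset.sum_const, nsmul_eq_mul]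
      _ ≤ M * (2 ^ (2 * n - 4) * C ^ 2 * (M : ℝ) ^ (2 * n - 4 + 2 * D) * E) :=
          mul_le_mul_of_nonneg_right hcardR (by positivity)
      _ = 2 ^ (2 * n - 4) * C ^ 2 * (M : ℝ) ^ (2 * n - 4 + 2 * D + 1) * E := by
          rw [pow_succ _ (2 * n - 4 + 2 * D)]
          ring
      _ ≤ _ := by
          gcongr ?_ * ?_ * ?_ * E
          exact pow_le_pow_right₀ hM1 (by omega)
  have t2 : ‖∑ k ∈ Finset.Icc k1 k2, ((T M n g k : ℂ) * (NN r1 n M k * NN r2 n M k) -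
        c1 n M ^ (r1 + r2) * ((M : ℂ) ^ 2 / Dg n g M) * (Cc n g M (yk n M k) *
          (FL r1 n M (yk n M k) (rho n M l2) v.im * FL r2 n M (yk n M k) (rho n M l2) w.im)))‖ ≤
      8 * 2 ^ (2 * n - 4) * C ^ 2 * (M : ℝ) ^ (2 * n + 2 * D + D7 + 3) * E := by
    calc _ ≤ ∑ k ∈ Finset.Icc k1 k2,
          8 * 2 ^ (2 * n - 4) * C ^ 2 * (M : ℝ) ^ (2 * n - 4 + 2 + 2 * D) * E :=
          norm_sum_le_of_le _ hin
      _ = ((Finset.Icc k1 k2).card : ℝ) *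
          (8 * 2 ^ (2 * n - 4) * C ^ 2 * (M : ℝ) ^ (2 * n - 4 + 2 + 2 * D) * E) := by
          rw [Finset.sum_const, nsmul_eq_mul]
      _ ≤ M * (8 * 2 ^ (2 * n - 4) * C ^ 2 * (M : ℝ) ^ (2 * n - 4 + 2 + 2 * D) * E) :=
          mul_le_mul_of_nonneg_right hcardW (by positivity)
      _ = 8 * 2 ^ (2 * n - 4) * C ^ 2 * (M : ℝ) ^ (2 * n - 4 + 2 + 2 * D + 1) * E := by
          rw [pow_succ _ (2 * n - 4 + 2 + 2 * D)]
          ring
      _ ≤ _ := by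
          gcongr ?_ * ?_ * ?_ * E
          exact pow_le_pow_right₀ hM1 (by omega)
  have t3 : ‖c1 n M ^ (r1 + r2) * ((M : ℂ) ^ 2 / Dg n g M) *
        (∑ k ∈ Finset.Icc k1 k2, Cc n g M (yk n M k) *
          (FL r1 n M (yk n M k) (rho n M l2) v.im * FL r2 n M (yk n M k) (rho n M l2) w.im) -
            M * MI)‖ ≤ C7 * (M : ℝ) ^ (2 * n + 2 * D + D7 + 3) * E := by
    have e1 : ‖c1 n M ^ (r1 + r2) * ((M : ℂ) ^ 2 / Dg n g M)‖ = (M : ℝ) ^ 2 * (1 / Dg n g M) := by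
      rw [norm_mul, hcz, one_mul, norm_div, norm_pow, Complex.norm_natCast, Complex.norm_real,
        Real.norm_of_nonneg hDg.le]
      ring
    rw [norm_mul, e1]
    calc (M : ℝ) ^ 2 * (1 / Dg n g M) * ‖∑ k ∈ Finset.Icc k1 k2, Cc n g M (yk n M k) *
          (FL r1 n M (yk n M k) (rho n M l2) v.im * FL r2 n M (yk n M k) (rho n M l2) w.im) -
            M * MI‖ ≤ (M : ℝ) ^ 2 * (M : ℝ) ^ (2 * n - 4) * (C7 * (M : ℝ) ^ D7 * E) := by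
          gcongr
      _ = C7 * (M : ℝ) ^ (2 + (2 * n - 4) + D7) * E := by
          rw [pow_add, pow_add]
          ring
      _ ≤ _ := by
          gcongr ?_ * ?_ * E
          exact pow_le_pow_right₀ hM1 (by omega)
  calc _ ≤ 2 ^ (2 * n - 4) * C ^ 2 * (M : ℝ) ^ (2 * n + 2 * D + D7 + 3) * E +
        8 * 2 ^ (2 * n - 4) * C ^ 2 * (M : ℝ) ^ (2 * n + 2 * D + D7 + 3) * E +
        C7 * (M : ℝ) ^ (2 * n + 2 * D + D7 + 3) * E :=
        (norm_add_le _ _).trans (add_le_add ((norm_add_le _ _).trans (add_le_add t1 t2)) t3)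
    _ ≤ _ := by
        have : 0 ≤ 2 ^ (2 * n - 4) * C ^ 2 * (M : ℝ) ^ (2 * n + 2 * D + D7 + 3) * E := by positivity
        nlinarith only [this]

end Pool.Agent.H63.VC3
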