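import Pool.Agent.H63.VC3.Defs

/-! # The terms of the expansion of the twist coefficients -/

namespace Pool.Agent.H63.VC3

open Pool.Agent.H63.VC Complex

/-- The sum of cotangents. -/
noncomputable def Cs (n M k l : ℕ) : ℝ := ∑ j ∈ Finset.range (k + 1),
  if n - 1 + l + j = M then 0 else
    Real.cos (Real.pi * (n - 1 + l + j : ℕ) / M) / Real.sin (Real.pi * (n - 1 + l + j : ℕ) / M)

/-- The nonvanishing part of the singular terms. -/
noncomputable def Nu (p : ℤ) (n M k l : ℕ) : ℂ :=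
  exp (2 * Real.pi * I * p * M * (vl n M l : ℂ) ^ 2) * Bn n M (vl n M l) /
    (S M (k - l) * S M (k + l + n - 1 - M))

/-- The regular terms. -/
noncomputable def tReg (p n M k l : ℕ) : ℂ := (-1) ^ l * rt M ^ (l * (l - 1) / 2) *
  ((rt M ^ n) ^ l * rt M ^ (l * (l - 1))) ^ p * eig (rt M ^ (n - 1)) (rt M) l k

/-- The singular terms. -/
noncomputable def tSing (p n M k l : ℕ) : ℂ :=
  -I * (2 * Th n M k * c1 n M ^ p * (S M k / M) * Nu p n M k l) *
    ((I * (p * l + 1 / 2 - k / 2) - 1 / 2 * Cs n M k l) * Real.sin (2 * Real.pi * vl n M l) +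
      1 / 2 * Real.cos (2 * Real.pi * vl n M l))

end Pool.Agent.H63.VC3
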