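import Pool.Agent.H63.VC3.LLfun
import Pool.Agent.H63.VC3.TermsDefs

/-! # The derivative of the kernel at the lattice points -/

namespace Pool.Agent.H63.VC3

open Pool.Agent.H63.VC Complex

/-- The cotangent of `π j / M`. -/
noncomputable def TermsB_c (M j : ℕ) : ℝ := Real.cos (Real.pi * j / M) / Real.sin (Real.pi * j / M)

/-- Partial sums of cotangents. -/
noncomputable def TermsB_G (M m : ℕ) : ℝ := ∑ i ∈ Finset.range m, TermsB_c M (i + 1)

theorem TermsB_c_sub {M j : ℕ} (hM : 0 < M) (hj : j ≤ M) :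
    TermsB_c M (M - j) = -TermsB_c M j := by
  have hM' : (M : ℝ) ≠ 0 := by exact_mod_cast hM.ne'
  unfold TermsB_c
  have : Real.pi * ((M - j : ℕ) : ℝ) / M = Real.pi - Real.pi * j / M := by
    rw [Nat.cast_sub hj]; field_simp
  rw [this, Real.cos_pi_sub, Real.sin_pi_sub]
  ring

theorem TermsB_c_add {M j : ℕ} (hM : 0 < M) : TermsB_c M (M + j) = TermsB_c M j := by
  have hM' : (M : ℝ) ≠ 0 := by exact_mod_cast hM.ne'
  unfold TermsB_c
  have : Real.pi * ((M + j : ℕ) : ℝ) / M = Real.pi * j / M + Real.pi := by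
    rw [Nat.cast_add]; field_simp; ring
  rw [this, Real.cos_add_pi, Real.sin_add_pi]
  ring

/-- The sum of the cotangents at `M - m, …, M - 1`. -/
theorem TermsB_tail {M m : ℕ} (hM : 0 < M) (hm : m ≤ M) :
    ∑ j ∈ Finset.range m, TermsB_c M (M - m + j) = -TermsB_G M m := by
  unfold TermsB_G
  rw [← Finset.sum_range_reflect, ← Finset.sum_neg_distrib]
  refine Finset.sum_congr rfl fun j hj => ?_
  rw [Finset.mem_range] at hj
  have : M - m + (m - 1 - j) = M - (j + 1) := by omega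
  rw [this, TermsB_c_sub hM (by omega)]

theorem TermsB_full {M : ℕ} (hM : 0 < M) : TermsB_G M (M - 1) = 0 := by
  have h : TermsB_G M (M - 1) = -TermsB_G M (M - 1) := by
    have h1 := TermsB_tail hM (m := M - 1) (by omega)
    have h2 : M - (M - 1) = 1 := by omega
    rw [h2] at h1
    rw [← h1]
    unfold TermsB_G
    refine Finset.sum_congr rfl fun j _ => ?_
    rw [add_comm]
  linarith

theorem TermsB_G_refl {M m : ℕ} (hM : 0 < M) (hm : m ≤ M - 1) :
    TermsB_G M (M - 1 - m) = TermsB_G M m := by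
  have h1 : TermsB_G M (M - 1) = TermsB_G M (M - 1 - m) +
      ∑ j ∈ Finset.range m, TermsB_c M (M - m + j) := by
    unfold TermsB_G
    have : M - 1 = (M - 1 - m) + m := by omega
    conv_lhs => rw [this]
    rw [Finset.sum_range_add]
    congr 1
    refine Finset.sum_congr rfl fun j _ => ?_
    congr 1
    omega
  rw [TermsB_full hM, TermsB_tail hM (by omega)] at h1
  linarith

theorem TermsB_Cs {n M k l l' : ℕ} (hn : 2 ≤ n) (hl : l + l' + n = M + 1)
    (h2 : l' ≤ k) : Cs n M k l = TermsB_G M (k - l') - TermsB_G M l' := by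
  have hM : 0 < M := by omega
  unfold Cs
  have hk : k + 1 = l' + (k - l' + 1) := by omega
  rw [hk, Finset.sum_range_add, Finset.sum_range_succ']
  have e1 : ∑ j ∈ Finset.range l', (if n - 1 + l + j = M then (0 : ℝ) else
      Real.cos (Real.pi * (n - 1 + l + j : ℕ) / M) / Real.sin (Real.pi * (n - 1 + l + j : ℕ) / M)) =
      -TermsB_G M l' := by
    rw [← TermsB_tail hM (by omega)]
    refine Finset.sum_congr rfl fun j hj => ?_
    rw [Finset.mem_range] at hj
    rw [if_neg (by omega)]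
    unfold TermsB_c
    have : n - 1 + l + j = M - l' + j := by omega
    rw [this]
  have e2 : (if n - 1 + l + (l' + 0) = M then (0 : ℝ) else
      Real.cos (Real.pi * (n - 1 + l + (l' + 0) : ℕ) / M) /
        Real.sin (Real.pi * (n - 1 + l + (l' + 0) : ℕ) / M)) = 0 := by
    rw [if_pos (by omega)]
  have e3 : ∑ j ∈ Finset.range (k - l'), (if n - 1 + l + (l' + (j + 1)) = M then (0 : ℝ) else
      Real.cos (Real.pi * (n - 1 + l + (l' + (j + 1)) : ℕ) / M) /
        Real.sin (Real.pi * (n - 1 + l + (l' + (j + 1)) : ℕ) / M)) = TermsB_G M (k - l') := by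
    unfold TermsB_G
    refine Finset.sum_congr rfl fun j _ => ?_
    rw [if_neg (by omega), ← TermsB_c_add (j := j + 1) hM]
    unfold TermsB_c
    have : n - 1 + l + (l' + (j + 1)) = M + (j + 1) := by omega
    rw [this]
  rw [e1, e2, e3]
  ring

/-- The combination of the cotangent sums. -/
theorem TermsB_comb {n M k l l' : ℕ} (hn : 2 ≤ n) (hl : l + l' + n = M + 1)
    (h1 : l ≤ k) (h2 : l' ≤ k) :
    (∑ j ∈ Finset.range (n - 2), TermsB_c M (l + (j + 1))) + TermsB_G M (k - l) -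
      TermsB_G M (k + l + n - 1 - M) = -(Cs n M k l - Cs n M k l') := by
  have hM : 0 < M := by omega
  rw [TermsB_Cs hn hl h2, TermsB_Cs (l := l') (l' := l) hn (by omega) h1]
  have e1 : k + l + n - 1 - M = k - l' := by omega
  have e2 : ∑ j ∈ Finset.range (n - 2), TermsB_c M (l + (j + 1)) =
      TermsB_G M (l + (n - 2)) - TermsB_G M l := by
    unfold TermsB_G
    rw [Finset.sum_range_add]
    ring_nf
  have e3 : l + (n - 2) = M - 1 - l' := by omega
  rw [e1, e2, e3, TermsB_G_refl hM (by omega)]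
  ring

theorem TermsB_LL_deriv {M m : ℕ} (hm : m < M) :
    deriv (LL M) (m : ℂ) = deriv (LL M) 0 + Real.pi / M * (TermsB_G M m : ℂ) := by
  have hM : 0 < M := by omega
  induction m with
  | zero => simp [TermsB_G]
  | succ m ih =>
    have h1 := ih (by omega)
    have h2 := LL_deriv_step M hM ((m + 1 : ℕ) : ℂ) (by simp; positivity)
      (by simp only [Complex.natCast_re]; exact_mod_cast hm)
    have h3 : ((m + 1 : ℕ) : ℂ) - 1 = m := by push_cast; ring
    rw [h3, h1] at h2
    have h4 : Complex.cot (Real.pi * ((m + 1 : ℕ) : ℂ) / M) = (TermsB_c M (m + 1) : ℂ) := by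
      unfold TermsB_c
      rw [Complex.cot]
      push_cast
      rfl
    rw [h4] at h2
    have h5 : TermsB_G M (m + 1) = TermsB_G M m + TermsB_c M (m + 1) := by
      unfold TermsB_G; rw [Finset.sum_range_succ]
    rw [h5]
    push_cast at h2 ⊢
    linear_combination h2

theorem TermsB_Bn {n M l l' : ℕ} (hn : 2 ≤ n) (hl : l + l' + n = M + 1) :
    HasDerivAt (Bn n M) (Bn n M (vl n M l) *
      (Real.pi * (∑ j ∈ Finset.range (n - 2), TermsB_c M (l + (j + 1)) : ℝ))) (vl n M l) := by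
  have hM : 0 < M := by omega
  have hM' : (M : ℂ) ≠ 0 := by exact_mod_cast hM.ne'
  have hMr : (0 : ℝ) < M := by exact_mod_cast hM
  -- the arguments
  have harg : ∀ j ∈ Finset.range (n - 2), (Real.pi : ℂ) * ((vl n M l : ℂ) +
      ((j : ℂ) + 1 - bt n) / M) = ((Real.pi * ((l + (j + 1) : ℕ) : ℝ) / M - Real.pi / 2 : ℝ) : ℂ) := by
    intro j _
    unfold vl
    push_cast
    field_simp
    ring
  have hsin : ∀ j ∈ Finset.range (n - 2), 0 < Real.sin (Real.pi * ((l + (j + 1) : ℕ) : ℝ) / M) := by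
    intro j hj
    rw [Finset.mem_range] at hj
    apply Real.sin_pos_of_pos_of_lt_pi
    · positivity
    · rw [div_lt_iff₀ hMr]
      have : ((l + (j + 1) : ℕ) : ℝ) < M := by exact_mod_cast (by omega : l + (j + 1) < M)
      nlinarith [Real.pi_pos]
  have hcos : ∀ j ∈ Finset.range (n - 2), Complex.cos (Real.pi * ((vl n M l : ℂ) +
      ((j : ℂ) + 1 - bt n) / M)) = (Real.sin (Real.pi * ((l + (j + 1) : ℕ) : ℝ) / M) : ℂ) := by
    intro j hj
    rw [harg j hj, ← Complex.ofReal_cos, Real.cos_sub_pi_div_two]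
  have hsin' : ∀ j ∈ Finset.range (n - 2), Complex.sin (Real.pi * ((vl n M l : ℂ) +
      ((j : ℂ) + 1 - bt n) / M)) = -(Real.cos (Real.pi * ((l + (j + 1) : ℕ) : ℝ) / M) : ℂ) := by
    intro j hj
    rw [harg j hj, ← Complex.ofReal_sin, Real.sin_sub_pi_div_two, Complex.ofReal_neg]
  set f : ℕ → ℂ → ℂ := fun j v => 2 * Complex.cos (Real.pi * (v + ((j : ℂ) + 1 - bt n) / M))
    with hf
  have hfd : ∀ j ∈ Finset.range (n - 2), HasDerivAt (f j)
      (f j (vl n M l) * (Real.pi * (TermsB_c M (l + (j + 1)) : ℂ))) (vl n M l) := by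
    intro j hj
    have h0 : HasDerivAt (fun v : ℂ => (Real.pi : ℂ) * (v + ((j : ℂ) + 1 - bt n) / M))
        (Real.pi * 1) (vl n M l) := ((hasDerivAt_id _).add_const _).const_mul _
    have h1 := (h0.ccos).const_mul (2 : ℂ)
    refine h1.congr_deriv ?_
    simp only [hf]
    rw [hcos j hj, hsin' j hj]
    have h2 : (Real.sin (Real.pi * ((l + (j + 1) : ℕ) : ℝ) / M) : ℂ) ≠ 0 := by
      exact_mod_cast (hsin j hj).ne'
    unfold TermsB_c
    push_cast at h2 ⊢
    field_simp
  have hprod : HasDerivAt (fun v => ∏ j ∈ Finset.range (n - 2), f j v)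
      ((∏ j ∈ Finset.range (n - 2), f j (vl n M l)) *
        ∑ j ∈ Finset.range (n - 2), (Real.pi * (TermsB_c M (l + (j + 1)) : ℂ))) (vl n M l) := by
    have key : ∀ s : Finset ℕ, (∀ j ∈ s, HasDerivAt (f j)
        (f j (vl n M l) * (Real.pi * (TermsB_c M (l + (j + 1)) : ℂ))) (vl n M l)) →
        HasDerivAt (fun v => ∏ j ∈ s, f j v) ((∏ j ∈ s, f j (vl n M l)) *
          ∑ j ∈ s, (Real.pi * (TermsB_c M (l + (j + 1)) : ℂ))) (vl n M l) := by
      intro s
      induction s using Finset.cons_induction with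
      | empty => intro _; simpa using hasDerivAt_const (vl n M l : ℂ) (1 : ℂ)
      | cons a s ha ih =>
        intro h
        rw [Finset.forall_mem_cons] at h
        have h1 := h.1.fun_mul (ih h.2)
        simp_rw [Finset.prod_cons, Finset.sum_cons]
        refine h1.congr_deriv ?_
        ring
    exact key _ hfd
  refine hprod.congr_deriv ?_
  rw [← Finset.mul_sum, Complex.ofReal_sum]
  rfl

theorem deriv_KK (r : ℤ) (n M k l l' : ℕ) (hn : 2 ≤ n) (hM : 2 ≤ M) (hk : k + n ≤ M + 1)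
    (hl : l + l' + n = M + 1) (h1 : l ≤ k) (h2 : l' ≤ k) :
    deriv (KK r n M (yk n M k)) (vl n M l) = 4 * Real.pi * Nu r n M k l *
      (Real.cos (2 * Real.pi * vl n M l) + Real.sin (2 * Real.pi * vl n M l) *
        (2 * I * r * M * vl n M l - 1 / 2 * (Cs n M k l - Cs n M k l'))) := by
  have hM0 : 0 < M := by omega
  have hM' : (M : ℂ) ≠ 0 := by exact_mod_cast hM0.ne'
  -- arguments of `LL`
  have ea : (M : ℂ) * ((yk n M k : ℂ) - (vl n M l : ℂ)) - 1 / 2 = ((k - l : ℕ) : ℂ) := by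
    rw [Nat.cast_sub h1]
    unfold yk vl
    push_cast
    field_simp
    ring
  have eb : (M : ℂ) * ((yk n M k : ℂ) + (vl n M l : ℂ)) - 1 / 2 = ((k + l + n - 1 - M : ℕ) : ℂ) := by
    have : k + l + n - 1 - M = k + l + n - (1 + M) := by omega
    rw [this, Nat.cast_sub (by omega)]
    unfold yk vl bt
    push_cast
    field_simp
    ring
  have ha : k - l < M := by omega
  have hb : k + l + n - 1 - M < M := by omega
  have hLd : ∀ m : ℕ, m < M → HasDerivAt (LL M) (deriv (LL M) (m : ℂ)) (m : ℂ) := by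
    intro m hm
    refine (LL_differentiableAt M hM0 _ ?_ ?_).hasDerivAt
    · simp only [Complex.natCast_re]
      have : (0 : ℝ) ≤ m := by positivity
      linarith
    · simp only [Complex.natCast_re]; exact_mod_cast hm
  -- the derivatives of the factors
  have hE : HasDerivAt (fun v : ℂ => Complex.exp (2 * Real.pi * I * r * M * v ^ 2))
      (Complex.exp (2 * Real.pi * I * r * M * (vl n M l : ℂ) ^ 2) *
        (4 * Real.pi * I * r * M * (vl n M l : ℂ))) (vl n M l) := by
    have h0 := (((hasDerivAt_id (vl n M l : ℂ)).pow 2).const_mul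
      (2 * (Real.pi : ℂ) * I * r * M)).cexp
    refine h0.congr_deriv ?_
    simp only [id_eq, Pi.pow_apply]
    push_cast
    ring
  have hs : HasDerivAt (fun v : ℂ => 2 * Complex.sin (2 * Real.pi * v))
      (4 * Real.pi * Complex.cos (2 * Real.pi * (vl n M l : ℂ))) (vl n M l) := by
    have h0 := (((hasDerivAt_id (vl n M l : ℂ)).const_mul (2 * (Real.pi : ℂ))).csin).const_mul
      (2 : ℂ)
    refine h0.congr_deriv ?_
    simp only [id_eq]
    ring
  have hB := TermsB_Bn (l := l) (l' := l') hn hl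
  have hX1 : HasDerivAt (fun v : ℂ => LL M (M * ((yk n M k : ℂ) - v) - 1 / 2))
      (deriv (LL M) ((k - l : ℕ) : ℂ) * (M * (-1))) (vl n M l) := by
    have h0 : HasDerivAt (fun v : ℂ => (M : ℂ) * ((yk n M k : ℂ) - v) - 1 / 2) (M * (-1))
        (vl n M l : ℂ) := (((hasDerivAt_id (vl n M l : ℂ)).const_sub _).const_mul _).sub_const _
    have h1 := hLd (k - l) ha
    rw [← ea] at h1
    have h2 := HasDerivAt.comp (vl n M l : ℂ) h1 h0
    rw [ea] at h2
    exact h2
  have hX2 : HasDerivAt (fun v : ℂ => LL M (M * ((yk n M k : ℂ) + v) - 1 / 2))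
      (deriv (LL M) ((k + l + n - 1 - M : ℕ) : ℂ) * (M * 1)) (vl n M l) := by
    have h0 : HasDerivAt (fun v : ℂ => (M : ℂ) * ((yk n M k : ℂ) + v) - 1 / 2) (M * 1)
        (vl n M l : ℂ) := (((hasDerivAt_id (vl n M l : ℂ)).const_add _).const_mul _).sub_const _
    have h1 := hLd (k + l + n - 1 - M) hb
    rw [← eb] at h1
    have h2 := HasDerivAt.comp (vl n M l : ℂ) h1 h0
    rw [eb] at h2
    exact h2
  have hX := (hX1.neg.sub hX2).cexp
  have hK := ((hE.mul hs).mul hB).mul hX
  have hKK : HasDerivAt (KK r n M (yk n M k)) _ (vl n M l) := hK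
  rw [hKK.deriv]
  simp only [Pi.mul_apply, Pi.neg_apply, Pi.sub_apply]
  rw [ea, eb, TermsB_LL_deriv ha, TermsB_LL_deriv hb]
  have hexp : Complex.exp (-LL M ((k - l : ℕ) : ℂ) - LL M ((k + l + n - 1 - M : ℕ) : ℂ)) =
      1 / ((S M (k - l) : ℂ) * (S M (k + l + n - 1 - M) : ℂ)) := by
    rw [sub_eq_add_neg, Complex.exp_add, Complex.exp_neg, Complex.exp_neg, LL_nat M _ ha,
      LL_nat M _ hb]
    field_simp
  rw [hexp]
  have hcomb := TermsB_comb hn hl h1 h2
  have hcomb' : (((∑ j ∈ Finset.range (n - 2), TermsB_c M (l + (j + 1))) : ℝ) : ℂ) +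
      (TermsB_G M (k - l) : ℂ) - (TermsB_G M (k + l + n - 1 - M) : ℂ) =
      -((Cs n M k l : ℂ) - (Cs n M k l' : ℂ)) := by
    exact_mod_cast congrArg (fun x : ℝ => (x : ℂ)) hcomb
  have hsinr : Complex.sin (2 * Real.pi * (vl n M l : ℂ)) =
      (Real.sin (2 * Real.pi * vl n M l) : ℂ) := by push_cast; rfl
  have hcosr : Complex.cos (2 * Real.pi * (vl n M l : ℂ)) =
      (Real.cos (2 * Real.pi * vl n M l) : ℂ) := by push_cast; rfl
  rw [hsinr, hcosr]
  have hLL : -(((deriv (LL M) 0 + Real.pi / M * (TermsB_G M (k - l) : ℂ)) * (M * (-1)))) -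
      (deriv (LL M) 0 + Real.pi / M * (TermsB_G M (k + l + n - 1 - M) : ℂ)) * (M * 1) =
      Real.pi * ((TermsB_G M (k - l) : ℂ) - (TermsB_G M (k + l + n - 1 - M) : ℂ)) := by
    field_simp
    ring
  rw [hLL]
  unfold Nu
  set sE := Complex.exp (2 * Real.pi * I * r * M * (vl n M l : ℂ) ^ 2)
  set Bv := Bn n M (vl n M l : ℂ)
  set sn := (Real.sin (2 * Real.pi * vl n M l) : ℂ)
  set cs := (Real.cos (2 * Real.pi * vl n M l) : ℂ)
  set g1 := (TermsB_G M (k - l) : ℂ)
  set g2 := (TermsB_G M (k + l + n - 1 - M) : ℂ)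
  set X := ((S M (k - l) : ℂ) * (S M (k + l + n - 1 - M) : ℂ)) with hXdef
  set sc := (((∑ j ∈ Finset.range (n - 2), TermsB_c M (l + (j + 1))) : ℝ) : ℂ)
  linear_combination (2 * Real.pi * sE * sn * Bv * (1 / X)) * hcomb'

end Pool.Agent.H63.VC3
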