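import Pool.Agent.H63.VC3.TermsA
import Pool.Agent.H63.VC3.TermsB

/-! # Expansion of the twist coefficients: bounds and pairing -/

namespace Pool.Agent.H63.VC3

open Pool.Agent.H63.VC Complex

theorem Terms_norm_Th (n M k : ℕ) : ‖Th n M k‖ = 1 := by
  unfold Th
  have h : ‖Complex.exp (-(Real.pi * I / M) * (k * (n - 1) + k * (k + 1) / 2))‖ = 1 := by
    have : (-(Real.pi * I / M) * (k * (n - 1) + k * (k + 1) / 2) : ℂ)
        = ((-(Real.pi / M) * (k * (n - 1) + k * (k + 1) / 2) : ℝ) : ℂ) * I := by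
      push_cast; ring
    rw [this, Complex.norm_exp_ofReal_mul_I]
  rw [norm_mul, norm_mul, norm_mul, h]
  simp

theorem Terms_norm_c1 (n M : ℕ) : ‖c1 n M‖ = 1 := by
  unfold c1
  have h : ‖Complex.exp (-(2 * Real.pi * I / M) * (bt n : ℂ) ^ 2)‖ = 1 := by
    have : (-(2 * Real.pi * I / M) * (bt n : ℂ) ^ 2 : ℂ)
        = ((-(2 * Real.pi / M) * (bt n) ^ 2 : ℝ) : ℂ) * I := by
      push_cast; ring
    rw [this, Complex.norm_exp_ofReal_mul_I]
  rw [norm_mul, norm_mul, h]
  simp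

/-- `Bn` at the lattice points. -/
theorem Terms_Bn (n M l : ℕ) (hM : 0 < M) :
    Bn n M (vl n M l) = ((∏ j ∈ Finset.range (n - 2), sg M (l + 1 + j) : ℝ) : ℂ) := by
  unfold Bn
  rw [Complex.ofReal_prod]
  refine Finset.prod_congr rfl fun j _ => ?_
  have hM' : (M : ℂ) ≠ 0 := by exact_mod_cast hM.ne'
  have e : (Real.pi : ℂ) * ((vl n M l : ℂ) + ((j : ℂ) + 1 - bt n) / M)
      = ((Real.pi * ((l + 1 + j : ℕ) : ℝ) / M : ℝ) : ℂ) - Real.pi / 2 := by
    unfold vl
    push_cast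
    field_simp
    ring
  rw [e, Complex.cos_sub_pi_div_two]
  unfold sg
  push_cast
  rfl

theorem Terms_Bn_norm (n M l : ℕ) (hn : 2 ≤ n) (hl : l + n ≤ M + 1) :
    ‖Bn n M (vl n M l)‖ * S M l = S M (l + n - 2) := by
  rcases Nat.lt_or_ge l M with hlM | hlM
  · have hM : 0 < M := by omega
    rw [Terms_Bn n M l hM, Complex.norm_real, Real.norm_eq_abs, abs_of_nonneg]
    · have h := S_mul_prod M (l + 1) (n - 2) (by omega)
      have e1 : l + 1 - 1 = l := by omega
      rw [e1] at h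
      have e2 : l + (n - 2) = l + n - 2 := by omega
      rw [e2] at h
      rw [mul_comm]
      exact h
    · apply Finset.prod_nonneg
      intro j hj
      rw [Finset.mem_range] at hj
      exact (sg_pos (by omega) (by omega)).le
  · omega

theorem Terms_Bn_neg (n M : ℕ) (v : ℂ) : Bn n M (-v) = Bn n M v := by
  unfold Bn
  rw [← Finset.prod_range_reflect]
  refine Finset.prod_congr rfl fun j hj => ?_
  rw [Finset.mem_range] at hj
  have hc : ((n - 2 - 1 - j : ℕ) : ℂ) = (n : ℂ) - 3 - j := by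
    have h1 : n - 2 - 1 - j + 3 + j = n := by omega
    have h2 : ((n - 2 - 1 - j : ℕ) : ℂ) + 3 + j = n := by exact_mod_cast h1
    linear_combination h2
  have e : (Real.pi : ℂ) * (-v + (((n - 2 - 1 - j : ℕ) : ℂ) + 1 - bt n) / M)
      = -(Real.pi * (v + ((j : ℂ) + 1 - bt n) / M)) := by
    rw [hc]
    unfold bt
    push_cast
    ring
  rw [e, Complex.cos_neg]

theorem Terms_norm_exp (p : ℤ) (M : ℕ) (x : ℝ) :
    ‖exp (2 * Real.pi * I * p * M * (x : ℂ) ^ 2)‖ = 1 := by
  have : (2 * Real.pi * I * p * M * (x : ℂ) ^ 2 : ℂ)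
      = ((2 * Real.pi * p * M * x ^ 2 : ℝ) : ℂ) * I := by
    push_cast; ring
  rw [this, Complex.norm_exp_ofReal_mul_I]

theorem Terms_Nu_norm (p : ℤ) (n M k l : ℕ) (hn : 2 ≤ n) (hk : k + n ≤ M + 1) (hl : l ≤ k)
    (h : ¬ k + l + n ≤ M) :
    S M k / M * ‖Nu p n M k l‖ = Wt n M k l := by
  have hb := Terms_Bn_norm n M l hn (by omega)
  have hM : (0 : ℝ) < M := by exact_mod_cast (by omega : 0 < M)
  have p1 : 0 < S M l := S_pos (by omega)
  have p2 : 0 < S M (k - l) := S_pos (by omega)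
  have p3 : 0 < S M (k + l + n - 1 - M) := S_pos (by omega)
  unfold Nu Wt
  rw [if_neg h, norm_div, norm_mul, Terms_norm_exp, norm_mul, Complex.norm_real, Complex.norm_real,
    Real.norm_eq_abs, Real.norm_eq_abs, abs_of_pos p2, abs_of_pos p3, ← hb]
  field_simp

theorem Terms_sin_ge (M j : ℕ) (hj : 1 ≤ j) (hjM : j < 2 * M) (hne : j ≠ M) :
    1 / (2 * (M : ℝ)) ≤ |Real.sin (Real.pi * j / M)| := by
  have hM : (0 : ℝ) < M := by exact_mod_cast (by omega : 0 < M)
  rcases Nat.lt_or_ge j M with h | h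
  · have h1 := sg_ge (M := M) (m := j) hj h
    unfold sg at h1
    have h2 : 1 / (2 * (M : ℝ)) = (1 / M) / 2 := by field_simp
    rw [h2]
    refine le_trans ?_ (le_abs_self _)
    linarith
  · have h1 := sg_ge (M := M) (m := j - M) (by omega) (by omega)
    unfold sg at h1
    have e : Real.pi * j / M = Real.pi * ((j - M : ℕ) : ℝ) / M + Real.pi := by
      rw [Nat.cast_sub h]
      field_simp
      ring
    rw [e, Real.sin_add_pi, abs_neg]
    have h2 : 1 / (2 * (M : ℝ)) = (1 / M) / 2 := by field_simp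
    rw [h2]
    refine le_trans ?_ (le_abs_self _)
    linarith

theorem Terms_Cs_le (n M k l : ℕ) (hn : 2 ≤ n) (hk : k + n ≤ M + 1) (hl : l ≤ k) :
    |Cs n M k l| ≤ 2 * (M : ℝ) ^ 2 := by
  have hM : (0 : ℝ) < M := by exact_mod_cast (by omega : 0 < M)
  unfold Cs
  refine (Finset.abs_sum_le_sum_abs _ _).trans ?_
  have h1 : ∀ j ∈ Finset.range (k + 1), |(if n - 1 + l + j = M then 0 else
      Real.cos (Real.pi * (n - 1 + l + j : ℕ) / M) / Real.sin (Real.pi * (n - 1 + l + j : ℕ) / M))|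
      ≤ 2 * (M : ℝ) := by
    intro j hj
    rw [Finset.mem_range] at hj
    split_ifs with h
    · simp
    · have h2 := Terms_sin_ge M (n - 1 + l + j) (by omega) (by omega) h
      have h3 : 0 < |Real.sin (Real.pi * (n - 1 + l + j : ℕ) / M)| :=
        lt_of_lt_of_le (by positivity) h2
      rw [abs_div, div_le_iff₀ h3]
      have h4 := Real.abs_cos_le_one (Real.pi * (n - 1 + l + j : ℕ) / M)
      refine h4.trans ?_
      have h5 := mul_le_mul_of_nonneg_left h2 (by positivity : (0 : ℝ) ≤ 2 * M)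
      have h6 : 2 * (M : ℝ) * (1 / (2 * M)) = 1 := by field_simp
      rw [h6] at h5
      exact h5
  refine (Finset.sum_le_sum h1).trans ?_
  rw [Finset.sum_const, Finset.card_range, nsmul_eq_mul]
  have h7 : ((k + 1 : ℕ) : ℝ) ≤ M := by exact_mod_cast (by omega : k + 1 ≤ M)
  nlinarith

theorem Terms_tSing_le (p n M k l : ℕ) (hn : 2 ≤ n) (hk : k + n ≤ M + 1)
    (hl : l ≤ k) (h : ¬ k + l + n ≤ M) :
    ‖tSing p n M k l‖ ≤ 4 * (p * (M : ℝ) + (M : ℝ) ^ 2 + 1) * Wt n M k l := by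
  have hM : (0 : ℝ) < M := by exact_mod_cast (by omega : 0 < M)
  have hM1 : (1 : ℝ) ≤ M := by exact_mod_cast (by omega : 1 ≤ M)
  have hS : 0 < S M k := S_pos (by omega)
  have hN := Terms_Nu_norm p n M k l hn hk hl h
  have hW : 0 ≤ Wt n M k l := by
    rw [← hN]; positivity
  have hC := Terms_Cs_le n M k l hn hk hl
  unfold tSing
  rw [norm_mul, norm_mul, norm_neg, Complex.norm_I, one_mul, norm_mul, norm_mul, norm_mul, norm_mul,
    Terms_norm_Th, norm_pow, Terms_norm_c1, one_pow]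
  have e1 : ‖(S M k / M : ℂ)‖ = S M k / M := by
    rw [← Complex.ofReal_natCast, ← Complex.ofReal_div, Complex.norm_real, Real.norm_eq_abs,
      abs_of_pos (by positivity)]
  rw [e1]
  have e2 : ‖(2 : ℂ)‖ = 2 := by simp
  rw [e2]
  have h2 : ‖((I * (p * l + 1 / 2 - k / 2) - 1 / 2 * Cs n M k l) *
      Real.sin (2 * Real.pi * vl n M l) + 1 / 2 * Real.cos (2 * Real.pi * vl n M l) : ℂ)‖
      ≤ 2 * (p * (M : ℝ) + (M : ℝ) ^ 2 + 1) := by
    have b1 : ‖(I * (p * l + 1 / 2 - k / 2) : ℂ)‖ ≤ p * M + 1 / 2 + M / 2 := by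
      rw [norm_mul, Complex.norm_I, one_mul]
      have e3 : (p * l + 1 / 2 - k / 2 : ℂ) = ((p * l + 1 / 2 - k / 2 : ℝ) : ℂ) := by push_cast; ring
      rw [e3, Complex.norm_real, Real.norm_eq_abs]
      have hlM : (l : ℝ) ≤ M := by exact_mod_cast (by omega : l ≤ M)
      have hkM : (k : ℝ) ≤ M := by exact_mod_cast (by omega : k ≤ M)
      have hk0 : (0 : ℝ) ≤ k := Nat.cast_nonneg k
      have hl0 : (0 : ℝ) ≤ l := Nat.cast_nonneg l
      have hp0 : (0 : ℝ) ≤ p := Nat.cast_nonneg p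
      have hpl : (p : ℝ) * l ≤ p * M := mul_le_mul_of_nonneg_left hlM hp0
      have hpl0 : (0 : ℝ) ≤ p * l := mul_nonneg hp0 hl0
      rw [abs_le]
      constructor
      · nlinarith
      · linarith
    have b2 : ‖(1 / 2 * Cs n M k l : ℂ)‖ ≤ (M : ℝ) ^ 2 := by
      have e3 : (1 / 2 * Cs n M k l : ℂ) = ((1 / 2 * Cs n M k l : ℝ) : ℂ) := by push_cast; ring
      rw [e3, Complex.norm_real, Real.norm_eq_abs, abs_mul, abs_of_pos (by norm_num : (0:ℝ) < 1 / 2)]
      linarith
    have b3 : ‖((Real.sin (2 * Real.pi * vl n M l) : ℝ) : ℂ)‖ ≤ 1 := by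
      rw [Complex.norm_real]; exact Real.abs_sin_le_one _
    have b4 : ‖(1 / 2 * (Real.cos (2 * Real.pi * vl n M l) : ℝ) : ℂ)‖ ≤ 1 / 2 := by
      have e3 : (1 / 2 * (Real.cos (2 * Real.pi * vl n M l) : ℝ) : ℂ)
        = ((1 / 2 * Real.cos (2 * Real.pi * vl n M l) : ℝ) : ℂ) := by push_cast; ring
      rw [e3, Complex.norm_real, Real.norm_eq_abs, abs_mul, abs_of_pos (by norm_num : (0:ℝ) < 1 / 2)]
      have := Real.abs_cos_le_one (2 * Real.pi * vl n M l)
      linarith
    refine (norm_add_le _ _).trans ?_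
    rw [norm_mul]
    have b5 : ‖(I * (p * l + 1 / 2 - k / 2) - 1 / 2 * Cs n M k l : ℂ)‖
        ≤ p * M + 1 / 2 + M / 2 + (M : ℝ) ^ 2 := (norm_sub_le _ _).trans (add_le_add b1 b2)
    have b6 : ‖(I * (p * l + 1 / 2 - k / 2) - 1 / 2 * Cs n M k l : ℂ)‖ *
        ‖((Real.sin (2 * Real.pi * vl n M l) : ℝ) : ℂ)‖
        ≤ (p * M + 1 / 2 + M / 2 + (M : ℝ) ^ 2) * 1 :=
      mul_le_mul b5 b3 (norm_nonneg _) (by positivity)
    have b7 : (M : ℝ) ≤ M ^ 2 := by nlinarith
    have hp0 : (0 : ℝ) ≤ p * M := by positivity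
    push_cast at b6 b4 ⊢
    linarith
  have h3 : 2 * 1 * 1 * (S M k / M) * ‖Nu p n M k l‖ = 2 * Wt n M k l := by
    rw [← hN]; ring
  rw [h3]
  calc 2 * Wt n M k l * _ ≤ 2 * Wt n M k l * (2 * (p * (M : ℝ) + (M : ℝ) ^ 2 + 1)) :=
        mul_le_mul_of_nonneg_left h2 (by positivity)
    _ = _ := by ring

theorem Terms_tReg_le (p n M k l : ℕ) (hn : 2 ≤ n)
    (hl : l ≤ k) (h : k + l + n ≤ M) :
    ‖tReg p n M k l‖ ≤ 4 * (p * (M : ℝ) + (M : ℝ) ^ 2 + 1) * Wt n M k l := by
  have hM : (0 : ℝ) < M := by exact_mod_cast (by omega : 0 < M)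
  have hq := Small_norm_qbin M k l hl (by omega)
  have hp : ‖∏ i ∈ Finset.range (k + 1), (1 - rt M ^ (n - 1) * rt M ^ (l + i))‖
      = ∏ i ∈ Finset.range (k + 1), sg M (n - 1 + l + i) := by
    rw [_root_.norm_prod]
    apply Finset.prod_congr rfl
    intro i hi
    rw [Finset.mem_range] at hi
    rw [← pow_add, ← add_assoc]
    exact Small_norm_one_sub M (n - 1 + l + i) (by omega) (by omega)
  have hS := S_mul_prod M (n - 1 + l) (k + 1) (by omega)
  have e1 : n - 1 + l - 1 = l + n - 2 := by omega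
  have e2 : n - 1 + l - 1 + (k + 1) = k + l + n - 1 := by omega
  rw [e2, e1] at hS
  have h2 : ‖1 - rt M ^ (n - 1) * rt M ^ (2 * l)‖ ≤ 2 := by
    refine (norm_sub_le _ _).trans ?_
    rw [norm_mul, norm_pow, norm_pow, Small_norm_rt]
    norm_num
  have pk : 0 < S M k := S_pos (by omega)
  have pl : 0 < S M l := S_pos (by omega)
  have pkl : 0 < S M (k - l) := S_pos (by omega)
  have pn : 0 < S M (l + n - 2) := S_pos (by omega)
  have pN : 0 < S M (k + l + n - 1) := S_pos (by omega)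
  have pP : 0 < ∏ i ∈ Finset.range (k + 1), sg M (n - 1 + l + i) := by
    apply Finset.prod_pos
    intro i hi
    rw [Finset.mem_range] at hi
    exact sg_pos (by omega) (by omega)
  have key : ‖tReg p n M k l‖ ≤ 2 * Wt n M k l := by
    unfold tReg
    simp only [norm_mul, norm_pow, norm_neg, norm_one, Small_norm_rt, one_pow, one_mul, mul_one]
    unfold eig Wt
    rw [if_pos h, norm_div, norm_mul, hp]
    have hq' : ‖qbin (rt M) k l‖ = S M k / (S M l * S M (k - l)) := by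
      rw [eq_div_iff (by positivity)]; exact hq
    have hS' : (∏ i ∈ Finset.range (k + 1), sg M (n - 1 + l + i))
        = S M (k + l + n - 1) / S M (l + n - 2) := by
      rw [eq_div_iff pn.ne', mul_comm]; exact hS
    rw [hq', hS']
    have e3 : S M k / (S M l * S M (k - l)) * ‖1 - rt M ^ (n - 1) * rt M ^ (2 * l)‖ /
        (S M (k + l + n - 1) / S M (l + n - 2))
        = ‖1 - rt M ^ (n - 1) * rt M ^ (2 * l)‖ *
          (S M k * S M (l + n - 2) / (S M l * S M (k - l) * S M (k + l + n - 1))) := by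
      field_simp
    rw [e3]
    exact mul_le_mul_of_nonneg_right h2 (by positivity)
  have hW : 0 ≤ Wt n M k l := by
    unfold Wt
    rw [if_pos h]
    positivity
  refine key.trans (mul_le_mul_of_nonneg_right ?_ hW)
  have : (0 : ℝ) ≤ p * M := by positivity
  nlinarith [sq_nonneg (M : ℝ)]

theorem twist_terms (p n M k : ℕ) (hp : 1 ≤ p) (hn : 2 ≤ n) (hM : 2 ≤ M) (hk : k + n ≤ M + 1) :
    ∃ t : ℕ → ℂ, twistCoeff (rt M ^ n) (rt M) p k = ∑ l ∈ Finset.range (k + 1), t l ∧
    (∀ l ≤ k, ‖t l‖ ≤ 4 * (p * (M : ℝ) + (M : ℝ) ^ 2 + 1) * Wt n M k l) ∧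
    (∀ l l' : ℕ, l + l' + n = M + 1 → l ≤ k → l' ≤ k →
      t l + t l' = 2 * Th n M k * c1 n M ^ p * (S M k / (4 * Real.pi * I * M)) *
        deriv (KK p n M (yk n M k)) (vl n M l)) := by
  refine ⟨fun l => if k + l + n ≤ M then tReg p n M k l else tSing p n M k l,
    twist_expand p n M k hn hM hk, ?_, ?_⟩
  · intro l hl
    simp only []
    split_ifs with h
    · exact Terms_tReg_le p n M k l hn hl h
    · exact Terms_tSing_le p n M k l hn hk hl h
  · intro l l' hll h1 h2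
    have hMr : (0 : ℝ) < M := by exact_mod_cast (by omega : 0 < M)
    have hMc : (M : ℂ) ≠ 0 := by exact_mod_cast (by omega : M ≠ 0)
    simp only []
    rw [if_neg (by omega), if_neg (by omega), deriv_KK p n M k l l' hn hM hk hll h1 h2]
    have hv : vl n M l' = -vl n M l := by
      have h3 : (l : ℝ) + l' + n = M + 1 := by exact_mod_cast hll
      unfold vl bt
      have h4 : (l' : ℝ) = M + 1 - n - l := by linarith
      rw [h4]
      field_simp
      ring
    have hNu : Nu p n M k l' = Nu p n M k l := by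
      unfold Nu
      rw [hv]
      have e1 : k - l' = k + l + n - 1 - M := by omega
      have e2 : k + l' + n - 1 - M = k - l := by omega
      rw [e1, e2]
      push_cast
      rw [Terms_Bn_neg]
      ring
    unfold tSing
    rw [hNu, hv]
    have hsin : Real.sin (2 * Real.pi * -vl n M l) = -Real.sin (2 * Real.pi * vl n M l) := by
      rw [← Real.sin_neg]; ring_nf
    have hcos : Real.cos (2 * Real.pi * -vl n M l) = Real.cos (2 * Real.pi * vl n M l) := by
      rw [← Real.cos_neg]; ring_nf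
    rw [hsin, hcos]
    have hd : (l : ℂ) - l' = 2 * M * (vl n M l : ℂ) := by
      have h3 : (l : ℝ) + l' + n = M + 1 := by exact_mod_cast hll
      have h5 : (l : ℝ) - l' = 2 * M * vl n M l := by
        unfold vl bt
        field_simp
        linarith
      exact_mod_cast h5
    have hpi : (Real.pi : ℂ) ≠ 0 := by exact_mod_cast Real.pi_ne_zero
    have hA : (S M k / (4 * Real.pi * I * M) : ℂ) * (4 * Real.pi) = -I * (S M k / M) := by
      have : I ^ 2 = -1 := Complex.I_sq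
      field_simp
      rw [this]
      ring
    push_cast
    set s : ℂ := Complex.sin (2 * Real.pi * (vl n M l : ℂ))
    set c : ℂ := Complex.cos (2 * Real.pi * (vl n M l : ℂ))
    set N := Nu p n M k l
    set θ := Th n M k
    set v : ℂ := (vl n M l : ℂ)
    have hR : 2 * θ * c1 n M ^ p * (S M k / (4 * Real.pi * I * M) : ℂ) *
        (4 * Real.pi * N * (c + s * (2 * I * p * M * v - 1 / 2 * (Cs n M k l - Cs n M k l'))))
        = 2 * θ * c1 n M ^ p * ((S M k / (4 * Real.pi * I * M) : ℂ) * (4 * Real.pi)) *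
          (N * (c + s * (2 * I * p * M * v - 1 / 2 * (Cs n M k l - Cs n M k l')))) := by ring
    rw [hR, hA]
    linear_combination (-I * (2 * θ * c1 n M ^ p * (S M k / M) * N)) * (I * p * s) * hd

end Pool.Agent.H63.VC3
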