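import Pool.Agent.H63.VC3.TermsDefs
import Pool.Agent.H63.VC.Small

/-! # The exact expansion of the twist coefficients at the root of unity -/

namespace Pool.Agent.H63.VC3

open Pool.Agent.H63.VC Complex

theorem TermsA_I (x : ℕ) : (I : ℂ) ^ x = exp (Real.pi * I * (x / 2)) := by
  have h : (I : ℂ) = exp (Real.pi * I * (1 / 2)) := by
    rw [show (Real.pi * I * (1 / 2) : ℂ) = (Real.pi / 2) * I by ring, exp_mul_I]
    simp
  conv_lhs => rw [h]
  rw [← exp_nat_mul]
  congr 1
  ring

theorem TermsA_neg (x : ℕ) : (-1 : ℂ) ^ x = exp (Real.pi * I * x) := by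
  have h : (-1 : ℂ) = exp (Real.pi * I) := by rw [exp_pi_mul_I]
  conv_lhs => rw [h]
  rw [← exp_nat_mul]
  congr 1
  ring

theorem TermsA_negI (x : ℕ) : (-I : ℂ) ^ x = exp (Real.pi * I * (-(x / 2))) := by
  have h : (-I : ℂ) = exp (Real.pi * I * (-(1 / 2))) := by
    rw [show (Real.pi * I * (-(1 / 2)) : ℂ) = (-(Real.pi / 2)) * I by ring, exp_mul_I]
    simp
  conv_lhs => rw [h]
  rw [← exp_nat_mul]
  congr 1
  ring

theorem TermsA_rt (M j : ℕ) : rt M ^ j = exp (Real.pi * I * (2 * j / M)) := by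
  unfold rt
  rw [← exp_nat_mul]
  congr 1
  ring

theorem TermsA_one_sub (M j : ℕ) :
    1 - rt M ^ j = exp (Real.pi * I * (-(1 / 2) + j / M)) * (sg M j : ℝ) := by
  rw [TermsA_rt]
  have h1 : (Real.pi * I * (2 * j / M) : ℂ) = (Real.pi * j / M) * I + (Real.pi * j / M) * I := by
    ring
  have h2 : (Real.pi * I * (-(1 / 2) + j / M) : ℂ) =
      Real.pi * I * (-((1 : ℕ) / 2)) + (Real.pi * j / M) * I := by
    push_cast
    ring
  rw [h1, h2, exp_add, exp_add, ← TermsA_negI 1]
  unfold sg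
  push_cast
  have h3 := Complex.two_sin (Real.pi * j / M)
  rw [h3]
  have h4 : exp ((Real.pi * j / M) * I) * exp (-(Real.pi * j / M) * I) = 1 := by
    rw [← exp_add]
    simp
  linear_combination (-1 : ℂ) * h4 + (exp ((Real.pi * j / M) * I) * (exp (-(Real.pi * j / M) * I) -
    exp ((Real.pi * j / M) * I))) * I_sq

theorem TermsA_prod (M m : ℕ) : ∏ i ∈ Finset.range m, (1 - rt M ^ (i + 1)) =
    exp (Real.pi * I * (-(m / 2) + m * (m + 1) / (2 * M))) * (S M m : ℝ) := by
  induction m with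
  | zero => simp [S]
  | succ m ih =>
    rw [Finset.prod_range_succ, ih, TermsA_one_sub, S_succ]
    have h : (Real.pi * I * (-(((m + 1 : ℕ) : ℂ) / 2) + ((m + 1 : ℕ) : ℂ) *
        (((m + 1 : ℕ) : ℂ) + 1) / (2 * M)) : ℂ) =
        Real.pi * I * (-(m / 2) + m * (m + 1) / (2 * M)) +
        Real.pi * I * (-(1 / 2) + ((m + 1 : ℕ) : ℂ) / M) := by
      push_cast
      ring
    rw [h, exp_add]
    push_cast
    ring

theorem TermsA_full (M : ℕ) (hM : 0 < M) :
    ∏ i ∈ Finset.range (M - 1), (1 - rt M ^ (i + 1)) = M := by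
  have hM' : (M : ℂ) ≠ 0 := by exact_mod_cast hM.ne'
  rw [TermsA_prod, S_full M hM]
  have h : (Real.pi * I * (-(((M - 1 : ℕ) : ℂ) / 2) + ((M - 1 : ℕ) : ℂ) *
      (((M - 1 : ℕ) : ℂ) + 1) / (2 * M)) : ℂ) = 0 := by
    rw [Nat.cast_sub hM]
    push_cast
    field_simp
    ring
  rw [h, exp_zero, one_mul]
  simp

theorem TermsA_rt_ne (M : ℕ) : rt M ≠ 0 := by
  unfold rt
  exact exp_ne_zero _

theorem TermsA_rt_M (M : ℕ) (hM : 0 < M) : rt M ^ M = 1 := by
  have hM' : (M : ℂ) ≠ 0 := by exact_mod_cast hM.ne'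
  rw [TermsA_rt]
  have h : (Real.pi * I * (2 * M / M) : ℂ) = 2 * Real.pi * I := by
    field_simp
  rw [h, exp_two_pi_mul_I]

theorem TermsA_one_sub_ne (M j : ℕ) (h0 : 0 < j) (h1 : j < 2 * M) (h2 : j ≠ M) :
    1 - rt M ^ j ≠ 0 := by
  have hM : 0 < M := by omega
  rcases Nat.lt_or_ge j M with h | h
  · intro h3
    have h4 := Small_norm_one_sub M j (by omega) h
    rw [h3, norm_zero] at h4
    have h5 := sg_pos (M := M) (m := j) (by omega) h
    linarith
  · intro h3
    have h4 := Small_norm_one_sub M (j - M) (by omega) (by omega)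
    have h6 : rt M ^ j = rt M ^ (j - M) := by
      have : j = (j - M) + M := by omega
      conv_lhs => rw [this, pow_add, TermsA_rt_M M hM, mul_one]
    rw [← h6, h3, norm_zero] at h4
    have h5 := sg_pos (M := M) (m := j - M) (by omega) (by omega)
    linarith

/-- `z / (1 - z)` in terms of the cotangent. -/
theorem TermsA_cot (M j : ℕ) (h0 : 0 < j) (h1 : j < 2 * M) (h2 : j ≠ M) :
    rt M ^ j / (1 - rt M ^ j) = -(1 / 2) + I / 2 *
      ((Real.cos (Real.pi * (j : ℕ) / M) / Real.sin (Real.pi * (j : ℕ) / M) : ℝ) : ℂ) := by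
  have hne := TermsA_one_sub_ne M j h0 h1 h2
  have e1 := TermsA_one_sub M j
  have hs : (sg M j : ℝ) ≠ 0 := by
    intro h
    rw [e1, h] at hne
    simp at hne
  have hs' : Real.sin (Real.pi * j / M) ≠ 0 := by
    intro h
    apply hs
    unfold sg
    rw [h, mul_zero]
  have hsC : (Real.sin (Real.pi * j / M) : ℂ) ≠ 0 := by exact_mod_cast hs'
  rw [div_eq_iff hne, e1]
  have e2 : rt M ^ j = exp ((Real.pi * j / M : ℝ) * I) * exp ((Real.pi * j / M : ℝ) * I) := by
    rw [TermsA_rt, ← exp_add]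
    congr 1
    push_cast
    ring
  have h2 : (Real.pi * I * (-(1 / 2) + j / M) : ℂ) =
      Real.pi * I * (-((1 : ℕ) / 2)) + (Real.pi * j / M : ℝ) * I := by
    push_cast
    ring
  rw [e2, h2, exp_add, ← TermsA_negI 1, pow_one]
  unfold sg
  set E := exp ((Real.pi * j / M : ℝ) * I) with hE
  have hE2 : E = Real.cos (Real.pi * j / M) + Real.sin (Real.pi * j / M) * I := by
    rw [hE, exp_mul_I]
    push_cast
    rfl
  push_cast at hE2 ⊢
  push_cast at hsC
  have hE0 : E ≠ 0 := exp_ne_zero _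
  have : E = (-(1 / 2) + I / 2 * (Complex.cos (Real.pi * j / M) / Complex.sin (Real.pi * j / M))) *
    (-I * (2 * Complex.sin (Real.pi * j / M))) := by
    field_simp
    rw [hE2]
    ring_nf
    rw [I_sq]
    ring
  calc E * E = (-(1 / 2) + I / 2 * (Complex.cos (Real.pi * j / M) / Complex.sin (Real.pi * j / M))) *
    (-I * (2 * Complex.sin (Real.pi * j / M))) * E := by rw [← this]
    _ = _ := by ring

theorem TermsA_Bn (n M l : ℕ) (hn : 2 ≤ n) (hM : 0 < M) (hl : l + n ≤ M + 1) :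
    Bn n M (vl n M l) = ((S M (l + (n - 2)) / S M l : ℝ) : ℂ) := by
  have hM' : (M : ℂ) ≠ 0 := by exact_mod_cast hM.ne'
  have h1 : Bn n M (vl n M l) = ((∏ j ∈ Finset.range (n - 2), sg M (l + j + 1) : ℝ) : ℂ) := by
    unfold Bn
    push_cast
    refine Finset.prod_congr rfl fun j _ => ?_
    unfold sg
    push_cast
    congr 1
    unfold vl
    push_cast
    rw [show (Real.pi * ((l + bt n) / M - 1 / 2 + (j + 1 - bt n) / M) : ℂ) =
      Real.pi * (l + j + 1) / M - Real.pi / 2 by field_simp; ring]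
    rw [Complex.cos_sub_pi_div_two]
  rw [h1]
  congr 1
  have h2 : ∀ m : ℕ, l + m < M → ∏ j ∈ Finset.range m, sg M (l + j + 1) = S M (l + m) / S M l := by
    intro m
    induction m with
    | zero =>
      intro h
      rw [Finset.prod_range_zero, add_zero, div_self (S_pos (by omega)).ne']
    | succ m ih =>
      intro h
      rw [Finset.prod_range_succ, ih (by omega), show l + (m + 1) = l + m + 1 by ring, S_succ]
      ring
  exact h2 (n - 2) (by omega)

theorem TermsA_D (M n k l : ℕ) (hn : 2 ≤ n) (hM : 0 < M) (hk : k + n ≤ M + 1) (hl : l ≤ k)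
    (hs : M < k + l + n) :
    (∏ i ∈ (Finset.range (k + 1)).erase (M + 1 - n - l), (1 - rt M ^ (n - 1 + l + i))) *
      ∏ i ∈ Finset.range (l + (n - 2)), (1 - rt M ^ (i + 1)) =
      M * ∏ i ∈ Finset.range (k + l + n - 1 - M), (1 - rt M ^ (i + 1)) := by
  have e1 : (Finset.range (k + 1)).erase (M + 1 - n - l) =
      Finset.range (M + 1 - n - l) ∪ Finset.Ico (M + 1 - n - l + 1) (k + 1) := by
    ext i
    simp only [Finset.mem_erase, Finset.mem_range, Finset.mem_union, Finset.mem_Ico]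
    omega
  have e2 : Disjoint (Finset.range (M + 1 - n - l)) (Finset.Ico (M + 1 - n - l + 1) (k + 1)) := by
    rw [Finset.disjoint_left]
    intro i hi
    simp only [Finset.mem_range, Finset.mem_Ico] at hi ⊢
    omega
  rw [e1, Finset.prod_union e2]
  have e3 : ∏ i ∈ Finset.Ico (M + 1 - n - l + 1) (k + 1), (1 - rt M ^ (n - 1 + l + i)) =
      ∏ i ∈ Finset.range (k + l + n - 1 - M), (1 - rt M ^ (i + 1)) := by
    rw [Finset.prod_Ico_eq_prod_range]
    have : k + 1 - (M + 1 - n - l + 1) = k + l + n - 1 - M := by omega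
    rw [this]
    refine Finset.prod_congr rfl fun i hi => ?_
    rw [Finset.mem_range] at hi
    have : n - 1 + l + (M + 1 - n - l + 1 + i) = (i + 1) + M := by omega
    rw [this, pow_add, TermsA_rt_M M hM, mul_one]
  rw [e3]
  have e4 : (∏ i ∈ Finset.range (l + (n - 2)), (1 - rt M ^ (i + 1))) *
      ∏ i ∈ Finset.range (M + 1 - n - l), (1 - rt M ^ (n - 1 + l + i)) = M := by
    rw [← TermsA_full M hM]
    have : M - 1 = (l + (n - 2)) + (M + 1 - n - l) := by omega
    rw [this, Finset.prod_range_add (fun i => 1 - rt M ^ (i + 1)) (l + (n - 2)) (M + 1 - n - l)]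
    congr 1
    refine Finset.prod_congr rfl fun i _ => ?_
    rw [show n - 1 + l + i = l + (n - 2) + i + 1 by omega]
  rw [← e4]
  ring

theorem TermsA_D_ne (M n k l : ℕ) (hn : 2 ≤ n) (hk : k + n ≤ M + 1) (hl : l ≤ k)
    (hs : M < k + l + n) :
    ∏ i ∈ (Finset.range (k + 1)).erase (M + 1 - n - l), (1 - rt M ^ (n - 1 + l + i)) ≠ 0 := by
  rw [Finset.prod_ne_zero_iff]
  intro i hi
  simp only [Finset.mem_erase, Finset.mem_range] at hi
  exact TermsA_one_sub_ne M _ (by omega) (by omega) (by omega)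

theorem TermsA_c1 (n M l : ℕ) (hn : 2 ≤ n) (hM : 0 < M) :
    rt M ^ ((n - 1) * l + l ^ 2) = c1 n M * exp (2 * Real.pi * I * M * (vl n M l : ℂ) ^ 2) := by
  have hM' : (M : ℂ) ≠ 0 := by exact_mod_cast hM.ne'
  unfold c1
  rw [TermsA_rt, TermsA_neg, TermsA_I, ← exp_add, ← exp_add, ← exp_add]
  rw [exp_eq_exp_iff_exists_int]
  refine ⟨l - 1 - M, ?_⟩
  unfold vl bt
  rw [Nat.cast_add, Nat.cast_mul, Nat.cast_sub (by omega : 1 ≤ n)]
  push_cast
  field_simp
  ring

/-- The constant of the singular terms. -/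
theorem TermsA_const (p n M k l : ℕ) (hn : 2 ≤ n) (hM : 2 ≤ M) (hk : k + n ≤ M + 1) (hl : l ≤ k)
    (hs : M < k + l + n) :
    (-1) ^ l * rt M ^ (l * (l - 1) / 2) * rt M ^ (((n - 1) * l + l ^ 2) * p) * qbin (rt M) k l *
      exp (Real.pi * I * ((n - 1 + 2 * l) / M)) =
    (∏ i ∈ (Finset.range (k + 1)).erase (M + 1 - n - l), (1 - rt M ^ (n - 1 + l + i))) *
      (I * (Th n M k * c1 n M ^ p * (S M k / M) * Nu p n M k l)) := by
  have hM0 : 0 < M := by omega
  have hM' : (M : ℂ) ≠ 0 := by exact_mod_cast hM0.ne'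
  have hPL : ∏ i ∈ Finset.range (l + (n - 2)), (1 - rt M ^ (i + 1)) ≠ 0 := by
    rw [Finset.prod_ne_zero_iff]
    intro i hi
    rw [Finset.mem_range] at hi
    exact TermsA_one_sub_ne M _ (by omega) (by omega) (by omega)
  have hPl : ∏ i ∈ Finset.range l, (1 - rt M ^ (i + 1)) ≠ 0 := by
    rw [Finset.prod_ne_zero_iff]
    intro i hi
    rw [Finset.mem_range] at hi
    exact TermsA_one_sub_ne M _ (by omega) (by omega) (by omega)
  have hPkl : ∏ i ∈ Finset.range (k - l), (1 - rt M ^ (i + 1)) ≠ 0 := by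
    rw [Finset.prod_ne_zero_iff]
    intro i hi
    rw [Finset.mem_range] at hi
    exact TermsA_one_sub_ne M _ (by omega) (by omega) (by omega)
  have hD := TermsA_D M n k l hn hM0 hk hl hs
  have hq := Small_qbin_prod (rt M) l (k - l)
  rw [show l + (k - l) = k by omega] at hq
  have hc := TermsA_c1 n M l hn hM0
  have e0 : rt M ^ (((n - 1) * l + l ^ 2) * p) = c1 n M ^ p *
      exp (2 * Real.pi * I * p * M * (vl n M l : ℂ) ^ 2) := by
    rw [pow_mul, hc, mul_pow, ← exp_nat_mul]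
    congr 2
    ring
  rw [← mul_left_inj' hPL, ← mul_left_inj' hPl, ← mul_left_inj' hPkl]
  rw [e0]
  unfold Nu
  push_cast
  rw [TermsA_Bn n M l hn hM0 (by omega)]
  have hSl : ((S M l : ℝ) : ℂ) ≠ 0 := by exact_mod_cast (S_pos (by omega : l < M)).ne'
  have hSkl : ((S M (k - l) : ℝ) : ℂ) ≠ 0 := by exact_mod_cast (S_pos (by omega : k - l < M)).ne'
  have hSK : ((S M (k + l + n - 1 - M) : ℝ) : ℂ) ≠ 0 := by
    exact_mod_cast (S_pos (by omega : k + l + n - 1 - M < M)).ne'
  -- the phases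
  have hph : (-1) ^ l * rt M ^ (l * (l - 1) / 2) * exp (Real.pi * I * ((n - 1 + 2 * l) / M)) *
      exp (Real.pi * I * (-(k / 2) + k * (k + 1) / (2 * M))) *
      exp (Real.pi * I * (-((l + (n - 2) : ℕ) / 2) + (l + (n - 2) : ℕ) *
        ((l + (n - 2) : ℕ) + 1) / (2 * M))) =
      I * Th n M k * exp (Real.pi * I * (-((k + l + n - 1 - M : ℕ) / 2) + (k + l + n - 1 - M : ℕ) *
        ((k + l + n - 1 - M : ℕ) + 1) / (2 * M))) *
      exp (Real.pi * I * (-(l / 2) + l * (l + 1) / (2 * M))) *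
      exp (Real.pi * I * (-((k - l : ℕ) / 2) + (k - l : ℕ) * ((k - l : ℕ) + 1) / (2 * M))) := by
    unfold Th
    rw [TermsA_rt, TermsA_neg, TermsA_neg, TermsA_I k]
    have hI : I * ((exp (Real.pi * I * ((n + k + M : ℕ) : ℂ))) * (-I) *
        exp (Real.pi * I * (k / 2)) *
        exp (-(Real.pi * I / M) * (k * (n - 1) + k * (k + 1) / 2))) =
        exp (Real.pi * I * ((n + k + M : ℕ) : ℂ)) * exp (Real.pi * I * (k / 2)) *
        exp (-(Real.pi * I / M) * (k * (n - 1) + k * (k + 1) / 2)) := by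
      linear_combination (-(exp (Real.pi * I * ((n + k + M : ℕ) : ℂ)) * exp (Real.pi * I * (k / 2)) *
        exp (-(Real.pi * I / M) * (k * (n - 1) + k * (k + 1) / 2)))) * I_sq
    rw [hI]
    simp only [← exp_add]
    rw [exp_eq_exp_iff_exists_int]
    refine ⟨l - M, ?_⟩
    have h1 : (((l * (l - 1) / 2 : ℕ) : ℂ)) = l * (l - 1) / 2 := by
      have h2 : (l * (l - 1) / 2) * 2 = l * (l - 1) := by
        apply Nat.div_mul_cancel
        rcases Nat.eq_zero_or_pos l with rfl | h
        · simp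
        · have := Nat.even_mul_pred_self l
          exact this.two_dvd
      have h3 : (((l * (l - 1) / 2 : ℕ) : ℂ)) * 2 = (l * (l - 1) : ℕ) := by exact_mod_cast h2
      rcases Nat.eq_zero_or_pos l with rfl | h
      · simp
      · rw [Nat.cast_mul, Nat.cast_sub h] at h3
        push_cast at h3
        linear_combination h3 / 2
    have h2 : ((l + (n - 2) : ℕ) : ℂ) = l + n - 2 := by
      rw [Nat.cast_add, Nat.cast_sub hn]
      push_cast
      ring
    have h3 : ((k + l + n - 1 - M : ℕ) : ℂ) = k + l + n - 1 - M := by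
      rw [Nat.cast_sub (by omega), Nat.cast_sub (by omega)]
      push_cast
      ring
    have h4 : ((k - l : ℕ) : ℂ) = k - l := by
      rw [Nat.cast_sub (by omega)]
    rw [h1, h2, h3, h4]
    push_cast
    field_simp
    ring
  set D := ∏ i ∈ (Finset.range (k + 1)).erase (M + 1 - n - l), (1 - rt M ^ (n - 1 + l + i)) with hDdef
  set E0 := exp (2 * Real.pi * I * p * M * (vl n M l : ℂ) ^ 2) with hE0
  calc (-1) ^ l * rt M ^ (l * (l - 1) / 2) * (c1 n M ^ p * E0) * qbin (rt M) k l *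
        exp (Real.pi * I * ((n - 1 + 2 * l) / M)) *
        (∏ i ∈ Finset.range (l + (n - 2)), (1 - rt M ^ (i + 1))) *
        (∏ i ∈ Finset.range l, (1 - rt M ^ (i + 1))) *
        (∏ i ∈ Finset.range (k - l), (1 - rt M ^ (i + 1)))
      = (-1) ^ l * rt M ^ (l * (l - 1) / 2) * (c1 n M ^ p * E0) *
        exp (Real.pi * I * ((n - 1 + 2 * l) / M)) *
        (∏ i ∈ Finset.range (l + (n - 2)), (1 - rt M ^ (i + 1))) *
        (∏ i ∈ Finset.range k, (1 - rt M ^ (i + 1))) := by
        rw [← hq]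
        ring
    _ = ((-1) ^ l * rt M ^ (l * (l - 1) / 2) * exp (Real.pi * I * ((n - 1 + 2 * l) / M)) *
      exp (Real.pi * I * (-(k / 2) + k * (k + 1) / (2 * M))) *
      exp (Real.pi * I * (-((l + (n - 2) : ℕ) / 2) + (l + (n - 2) : ℕ) *
        ((l + (n - 2) : ℕ) + 1) / (2 * M)))) * (c1 n M ^ p * E0) *
        ((S M k : ℝ) * (S M (l + (n - 2)) : ℝ)) := by
        rw [TermsA_prod, TermsA_prod]
        ring
    _ = (M * ∏ i ∈ Finset.range (k + l + n - 1 - M), (1 - rt M ^ (i + 1))) *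
      (I * (Th n M k * c1 n M ^ p * ((S M k : ℝ) / M) * (E0 * ((S M (l + (n - 2)) : ℝ) / (S M l : ℝ)) /
        ((S M (k - l) : ℝ) * (S M (k + l + n - 1 - M) : ℝ))))) *
        (∏ i ∈ Finset.range l, (1 - rt M ^ (i + 1))) *
        (∏ i ∈ Finset.range (k - l), (1 - rt M ^ (i + 1))) := by
        rw [hph, TermsA_prod M (k + l + n - 1 - M), TermsA_prod M l, TermsA_prod M (k - l)]
        field_simp
    _ = _ := by
        rw [← hD]
        push_cast
        ring

theorem TermsA_hasDerivAt_prod {ι : Type*} [DecidableEq ι] (s : Finset ι) (f : ι → ℂ → ℂ)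
    (f' : ι → ℂ) (x : ℂ) (hf : ∀ i ∈ s, HasDerivAt (f i) (f' i) x) (h0 : ∀ i ∈ s, f i x ≠ 0) :
    HasDerivAt (fun y => ∏ i ∈ s, f i y) ((∏ i ∈ s, f i x) * ∑ i ∈ s, f' i / f i x) x := by
  induction s using Finset.induction_on with
  | empty => simpa using hasDerivAt_const x (1 : ℂ)
  | insert a s ha ih =>
    simp only [Finset.prod_insert ha, Finset.sum_insert ha]
    have h1 := ih (fun i hi => hf i (Finset.mem_insert_of_mem hi))
      (fun i hi => h0 i (Finset.mem_insert_of_mem hi))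
    have h2 := (hf a (Finset.mem_insert_self a s)).mul h1
    have h3 := h0 a (Finset.mem_insert_self a s)
    refine h2.congr_deriv ?_
    field_simp

theorem TermsA_hasDerivAt_pow (m : ℕ) (x : ℂ) (hx : x ≠ 0) :
    HasDerivAt (fun y : ℂ => y ^ m) (m * x ^ m / x) x := by
  refine (hasDerivAt_pow m x).congr_deriv ?_
  rcases Nat.eq_zero_or_pos m with rfl | h
  · simp
  · obtain ⟨j, rfl⟩ : ∃ j, m = j + 1 := ⟨m - 1, by omega⟩
    rw [Nat.add_sub_cancel, pow_succ]
    field_simp

/-- The singular terms with the vanishing factor removed. -/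
noncomputable def TermsA_r (p n M k l : ℕ) (α : ℂ) : ℂ :=
  (-1) ^ l * rt M ^ (l * (l - 1) / 2) * ((α * rt M) ^ l * rt M ^ (l * (l - 1))) ^ p *
    (qbin (rt M) k l * (1 - α * rt M ^ (2 * l)) /
      ∏ i ∈ (Finset.range (k + 1)).erase (M + 1 - n - l), (1 - α * rt M ^ (l + i)))

theorem TermsA_sum_cot (M n k l : ℕ) (hn : 2 ≤ n) (hk : k + n ≤ M + 1) (hl : l ≤ k)
    (hs : M < k + l + n) :
    ∑ i ∈ (Finset.range (k + 1)).erase (M + 1 - n - l),
      rt M ^ (n - 1 + l + i) / (1 - rt M ^ (n - 1 + l + i)) = -(k / 2) + I / 2 * Cs n M k l := by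
  have h1 : ∑ i ∈ (Finset.range (k + 1)).erase (M + 1 - n - l),
      rt M ^ (n - 1 + l + i) / (1 - rt M ^ (n - 1 + l + i)) =
      ∑ i ∈ (Finset.range (k + 1)).erase (M + 1 - n - l), (-(1 / 2) + I / 2 *
      (((if n - 1 + l + i = M then 0 else
      Real.cos (Real.pi * (n - 1 + l + i : ℕ) / M) / Real.sin (Real.pi * (n - 1 + l + i : ℕ) / M)) :
        ℝ) : ℂ)) := by
    refine Finset.sum_congr rfl fun i hi => ?_
    simp only [Finset.mem_erase, Finset.mem_range] at hi
    rw [if_neg (by omega), TermsA_cot M _ (by omega) (by omega) (by omega)]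
  rw [h1, Finset.sum_add_distrib, Finset.sum_const, Finset.card_erase_of_mem
    (by rw [Finset.mem_range]; omega), Finset.card_range, Nat.add_sub_cancel]
  congr 1
  · rw [nsmul_eq_mul]
    ring
  · rw [← Finset.mul_sum]
    congr 1
    unfold Cs
    push_cast
    rw [Finset.sum_erase]
    rw [if_pos (by omega)]
    simp

theorem TermsA_hasDerivAt (p n M k l : ℕ) (hn : 2 ≤ n) (hM : 2 ≤ M) (hk : k + n ≤ M + 1)
    (hl : l ≤ k) (hs : M < k + l + n) :
    HasDerivAt (TermsA_r p n M k l) (-(tSing p n M k l) / rt M ^ (n - 1)) (rt M ^ (n - 1)) := by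
  have hM0 : 0 < M := by omega
  have hM' : (M : ℂ) ≠ 0 := by exact_mod_cast hM0.ne'
  set α0 := rt M ^ (n - 1) with hα0
  have hα : α0 ≠ 0 := pow_ne_zero _ (TermsA_rt_ne M)
  have hz : ∀ i, α0 * rt M ^ (l + i) = rt M ^ (n - 1 + l + i) := by
    intro i
    rw [hα0, ← pow_add]
    congr 1
    ring
  set s := (Finset.range (k + 1)).erase (M + 1 - n - l) with hsdef
  have hDne := TermsA_D_ne M n k l hn hk hl hs
  have hne : ∀ i ∈ s, 1 - α0 * rt M ^ (l + i) ≠ 0 := by
    intro i hi
    rw [hz]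
    exact Finset.prod_ne_zero_iff.1 hDne i hi
  have hQ := TermsA_hasDerivAt_prod s (fun i α => 1 - α * rt M ^ (l + i))
    (fun i => -(rt M ^ (l + i))) α0 (fun i _ => by
      have := ((hasDerivAt_id α0).mul_const (rt M ^ (l + i))).const_sub 1
      simpa using this) hne
  have hQ0 : ∏ i ∈ s, (1 - α0 * rt M ^ (l + i)) ≠ 0 := Finset.prod_ne_zero_iff.2 hne
  have hlin : HasDerivAt (fun α : ℂ => 1 - α * rt M ^ (2 * l)) (-(rt M ^ (2 * l))) α0 := by
    have := ((hasDerivAt_id α0).mul_const (rt M ^ (2 * l))).const_sub 1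
    simpa using this
  have hN := (TermsA_hasDerivAt_pow (l * p) α0 hα).mul hlin
  set C := (-1) ^ l * rt M ^ (l * (l - 1) / 2) * rt M ^ (l ^ 2 * p) * qbin (rt M) k l with hC
  have hR := (hN.div hQ hQ0).const_mul C
  have hfun : TermsA_r p n M k l = fun α => C *
      (α ^ (l * p) * (1 - α * rt M ^ (2 * l)) / ∏ i ∈ s, (1 - α * rt M ^ (l + i))) := by
    funext α
    unfold TermsA_r
    have e1 : ((α * rt M) ^ l * rt M ^ (l * (l - 1))) ^ p = α ^ (l * p) * rt M ^ (l ^ 2 * p) := by
      have e2 : rt M ^ l * rt M ^ (l * (l - 1)) = rt M ^ (l ^ 2) := by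
        rw [← pow_add]
        congr 1
        rcases Nat.eq_zero_or_pos l with rfl | h
        · simp
        · obtain ⟨j, rfl⟩ : ∃ j, l = j + 1 := ⟨l - 1, by omega⟩
          rw [Nat.add_sub_cancel]
          ring
      rw [mul_pow α, mul_assoc, e2, mul_pow, ← pow_mul, ← pow_mul]
    rw [e1, hC]
    ring
  rw [hfun]
  refine hR.congr_deriv ?_
  simp only [Pi.mul_apply]
  set Q := ∏ i ∈ s, (1 - α0 * rt M ^ (l + i)) with hQdef
  have hsum : ∑ i ∈ s, -rt M ^ (l + i) / (1 - α0 * rt M ^ (l + i)) =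
      -(-(k / 2) + I / 2 * Cs n M k l) / α0 := by
    rw [← TermsA_sum_cot M n k l hn hk hl hs, eq_div_iff hα, Finset.sum_mul, ← Finset.sum_neg_distrib]
    refine Finset.sum_congr rfl fun i _ => ?_
    rw [← hz]
    ring
  rw [hsum]
  have hconst := TermsA_const p n M k l hn hM hk hl hs
  have hQ2 : ∏ i ∈ (Finset.range (k + 1)).erase (M + 1 - n - l), (1 - rt M ^ (n - 1 + l + i)) = Q := by
    rw [hQdef]
    refine Finset.prod_congr rfl fun i _ => ?_
    rw [hz]
  rw [hQ2] at hconst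
  have hC2 : (-1) ^ l * rt M ^ (l * (l - 1) / 2) * rt M ^ (((n - 1) * l + l ^ 2) * p) *
      qbin (rt M) k l = C * α0 ^ (l * p) := by
    rw [hC, hα0, ← pow_mul]
    have : rt M ^ (((n - 1) * l + l ^ 2) * p) = rt M ^ (l ^ 2 * p) * rt M ^ ((n - 1) * (l * p)) := by
      rw [← pow_add]
      congr 1
      ring
    rw [this]
    ring
  rw [hC2] at hconst
  set E := exp (Real.pi * I * ((n - 1 + 2 * l) / M)) with hE
  have hE1 : E = -(Real.cos (2 * Real.pi * vl n M l) + Real.sin (2 * Real.pi * vl n M l) * I) := by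
    have h1 : (Real.pi * I * ((n - 1 + 2 * l) / M) : ℂ) =
        (2 * Real.pi * vl n M l : ℝ) * I + Real.pi * I := by
      unfold vl bt
      push_cast
      field_simp
      ring
    rw [hE, h1, exp_add, exp_pi_mul_I, exp_mul_I]
    push_cast
    ring
  have hz2 : α0 * rt M ^ (2 * l) = E * E := by
    rw [hα0, ← pow_add, TermsA_rt, hE, ← exp_add]
    congr 1
    push_cast
    rw [Nat.cast_sub (by omega)]
    push_cast
    ring
  have hcs : ((Real.cos (2 * Real.pi * vl n M l) : ℝ) : ℂ) ^ 2 +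
      ((Real.sin (2 * Real.pi * vl n M l) : ℝ) : ℂ) ^ 2 = 1 := by
    norm_cast
    exact Real.cos_sq_add_sin_sq _
  unfold tSing
  set c := ((Real.cos (2 * Real.pi * vl n M l) : ℝ) : ℂ)
  set s' := ((Real.sin (2 * Real.pi * vl n M l) : ℝ) : ℂ)
  set A := Th n M k * c1 n M ^ p * (S M k / M) * Nu p n M k l with hA
  have hz3 : 1 - α0 * rt M ^ (2 * l) = E * (2 * I * s') := by
    rw [hz2, hE1]
    linear_combination (-1 : ℂ) * hcs + s' ^ 2 * I_sq
  have hz4 : α0 * rt M ^ (2 * l) = -E * (c + s' * I) := by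
    rw [hz2]
    nth_rewrite 2 [hE1]
    ring
  have hz5 : rt M ^ (2 * l) = -E * (c + s' * I) / α0 := by
    rw [eq_div_iff hα, ← hz4]
    ring
  have hA2 : 2 * Th n M k * c1 n M ^ p * (S M k / M) * Nu p n M k l = 2 * A := by
    rw [hA]
    ring
  rw [hA2, hz3, hz5]
  have hI : A * (I * I) = -A := by
    rw [I_mul_I]
    ring
  push_cast
  field_simp
  linear_combination (2 * ((I * (p * l + 1 / 2 - k / 2) - 1 / 2 * Cs n M k l) * s' +
      1 / 2 * c)) * hconst + (C * α0 ^ (l * p) * E * s' * Cs n M k l) * I_sq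

theorem TermsA_diff (q : ℂ) (p k : ℕ) :
    Differentiable ℂ (fun α : ℂ => twistCoeff (α * q) q p k) := by
  induction p generalizing k with
  | zero =>
    have : (fun α : ℂ => twistCoeff (α * q) q 0 k) = fun _ => if k = 0 then 1 else 0 := rfl
    rw [this]
    exact differentiable_const _
  | succ p ih =>
    have : (fun α : ℂ => twistCoeff (α * q) q (p + 1) k) = fun α => ∑ j ∈ Finset.range (k + 1),
        qbin q k j * ((α * q) ^ j * q ^ (j * (j - 1)) * twistCoeff (α * q) q p j) := rfl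
    rw [this]
    have h1 : ∀ j, Differentiable ℂ (fun α : ℂ => twistCoeff (α * q) q p j) := ih
    fun_prop

theorem TermsA_unique (F : ℂ → ℂ) (F' x : ℂ) (h : HasDerivAt F F' x)
    (h0 : ∀ᶠ y in nhdsWithin x {x}ᶜ, F y = 0) : F' = 0 := by
  have h1 : F x = 0 := by
    have h2 : Filter.Tendsto F (nhdsWithin x {x}ᶜ) (nhds (F x)) :=
      h.continuousAt.tendsto.mono_left nhdsWithin_le_nhds
    have h3 : Filter.Tendsto F (nhdsWithin x {x}ᶜ) (nhds 0) :=
      tendsto_const_nhds.congr' (h0.mono fun y hy => hy.symm)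
    exact tendsto_nhds_unique h2 h3
  have h4 : F =ᶠ[nhds x] fun _ => 0 := by
    have h5 : ∀ᶠ y in nhds x, y ∈ ({x}ᶜ : Set ℂ) → F y = 0 := eventually_nhdsWithin_iff.1 h0
    filter_upwards [h5] with y hy
    rcases eq_or_ne y x with rfl | hyx
    · exact h1
    · exact hy hyx
  have h6 : HasDerivAt F 0 x := (hasDerivAt_const x (0 : ℂ)).congr_of_eventuallyEq h4
  exact h.unique h6

theorem TermsA_eventually (q x : ℂ) (hq : q ≠ 0) (k : ℕ) :
    ∀ᶠ α in nhdsWithin x {x}ᶜ, ∀ i ≤ 2 * k, 1 - α * q ^ i ≠ 0 := by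
  have h1 : ∀ i ∈ Finset.range (2 * k + 1), ∀ᶠ α in nhdsWithin x {x}ᶜ, 1 - α * q ^ i ≠ 0 := by
    intro i _
    have hqi : q ^ i ≠ 0 := pow_ne_zero _ hq
    have h2 : ∀ᶠ α in nhdsWithin x {x}ᶜ, α ≠ (q ^ i)⁻¹ := by
      rcases eq_or_ne x ((q ^ i)⁻¹) with h | h
      · rw [← h]
        exact self_mem_nhdsWithin
      · exact nhdsWithin_le_nhds (isOpen_ne.mem_nhds h)
    filter_upwards [h2] with α hα h3
    apply hα
    exact eq_inv_of_mul_eq_one_left (by linear_combination -h3)
  have h2 := (Filter.eventually_all_finset (Finset.range (2 * k + 1))).2 h1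
  filter_upwards [h2] with α hα i hi
  exact hα i (by rw [Finset.mem_range]; omega)

theorem twist_expand (p n M k : ℕ) (hn : 2 ≤ n) (hM : 2 ≤ M) (hk : k + n ≤ M + 1) :
    twistCoeff (rt M ^ n) (rt M) p k = ∑ l ∈ Finset.range (k + 1),
      if k + l + n ≤ M then tReg p n M k l else tSing p n M k l := by
  have hM0 : 0 < M := by omega
  set α0 := rt M ^ (n - 1) with hα0
  have hα : α0 ≠ 0 := pow_ne_zero _ (TermsA_rt_ne M)
  have hαrt : α0 * rt M = rt M ^ n := by
    rw [hα0, ← pow_succ]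
    congr 1
    omega
  set tl : ℕ → ℂ → ℂ := fun l α => (-1) ^ l * rt M ^ (l * (l - 1) / 2) *
      ((α * rt M) ^ l * rt M ^ (l * (l - 1))) ^ p * eig α (rt M) l k with htl
  -- the terms
  set G : ℕ → ℂ → ℂ := fun l α => if k + l + n ≤ M then (1 - α / α0) * tl l α
    else TermsA_r p n M k l α with hG
  have hlin : HasDerivAt (fun α : ℂ => 1 - α / α0) (-(1 / α0)) α0 := by
    have := ((hasDerivAt_id α0).div_const α0).const_sub 1
    simpa using this
  have hGd : ∀ l ∈ Finset.range (k + 1), HasDerivAt (G l)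
      (-(if k + l + n ≤ M then tReg p n M k l else tSing p n M k l) / α0) α0 := by
    intro l hl
    rw [Finset.mem_range] at hl
    by_cases hs : k + l + n ≤ M
    · have hGl : G l = fun α => (1 - α / α0) * tl l α := by
        funext α
        simp only [hG, if_pos hs]
      rw [hGl, if_pos hs]
      have hd : DifferentiableAt ℂ (tl l) α0 := by
        have hne : ∏ i ∈ Finset.range (k + 1), (1 - α0 * rt M ^ (l + i)) ≠ 0 := by
          rw [Finset.prod_ne_zero_iff]
          intro i hi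
          rw [Finset.mem_range] at hi
          rw [hα0, ← pow_add]
          exact TermsA_one_sub_ne M _ (by omega) (by omega) (by omega)
        have he : DifferentiableAt ℂ (fun α => eig α (rt M) l k) α0 := by
          unfold eig
          refine DifferentiableAt.fun_div ?_ ?_ hne
          · fun_prop
          · fun_prop
        have : tl l = fun α => (-1) ^ l * rt M ^ (l * (l - 1) / 2) *
          ((α * rt M) ^ l * rt M ^ (l * (l - 1))) ^ p * eig α (rt M) l k := rfl
        rw [this]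
        refine DifferentiableAt.fun_mul ?_ he
        fun_prop
      refine (hlin.mul hd.hasDerivAt).congr_deriv ?_
      have h1 : tl l α0 = tReg p n M k l := by
        simp only [htl, tReg]
        rw [hαrt]
      rw [h1, div_self hα]
      ring
    · have hGl : G l = TermsA_r p n M k l := by
        funext α
        simp only [hG, if_neg hs]
      rw [hGl, if_neg hs]
      exact TermsA_hasDerivAt p n M k l hn hM hk (by omega) (by omega)
  have hsum : HasDerivAt (fun α => ∑ l ∈ Finset.range (k + 1), G l α)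
      (∑ l ∈ Finset.range (k + 1),
        (-(if k + l + n ≤ M then tReg p n M k l else tSing p n M k l) / α0)) α0 :=
    HasDerivAt.fun_sum hGd
  have hT := (TermsA_diff (rt M) p k α0).hasDerivAt
  have hF := hsum.sub (hlin.mul hT)
  have hzero := TermsA_unique _ _ _ hF (by
    filter_upwards [TermsA_eventually (rt M) α0 (TermsA_rt_ne M) k] with α hα2
    simp only [Pi.sub_apply, Pi.mul_apply]
    rw [twistCoeff_expand α (rt M) p k hα2, Finset.mul_sum, ← Finset.sum_sub_distrib]
    refine Finset.sum_eq_zero fun l hl => ?_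
    rw [Finset.mem_range] at hl
    simp only [hG]
    by_cases hs : k + l + n ≤ M
    · rw [if_pos hs]
      simp only [htl]
      ring
    · rw [if_neg hs]
      have hmem : M + 1 - n - l ∈ Finset.range (k + 1) := by
        rw [Finset.mem_range]
        omega
      have h1 := Finset.mul_prod_erase (Finset.range (k + 1))
        (fun i => 1 - α * rt M ^ (l + i)) hmem
      have h2 : 1 - α * rt M ^ (l + (M + 1 - n - l)) = 1 - α / α0 := by
        have : α0 * rt M ^ (l + (M + 1 - n - l)) = 1 := by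
          rw [hα0, ← pow_add, show n - 1 + (l + (M + 1 - n - l)) = M by omega, TermsA_rt_M M hM0]
        have h3 : rt M ^ (l + (M + 1 - n - l)) = α0⁻¹ := by
          exact eq_inv_of_mul_eq_one_right this
        rw [h3]
        rfl
      rw [h2] at h1
      have h3 : 1 - α / α0 ≠ 0 := by
        rw [← h2]
        exact hα2 _ (by omega)
      unfold eig TermsA_r
      rw [← h1]
      have h4 : ∏ i ∈ (Finset.range (k + 1)).erase (M + 1 - n - l), (1 - α * rt M ^ (l + i)) ≠ 0 := by
        rw [Finset.prod_ne_zero_iff]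
        intro i hi
        simp only [Finset.mem_erase, Finset.mem_range] at hi
        exact hα2 _ (by omega)
      rw [sub_eq_zero]
      generalize 1 - α / α0 = x at h3 ⊢
      field_simp)
  rw [hαrt, div_self hα] at hzero
  rw [← Finset.sum_div, Finset.sum_neg_distrib] at hzero
  field_simp at hzero
  linear_combination hzero

end Pool.Agent.H63.VC3
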